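import Pool.Agent.Lib_helper4.VM.IDefs

/-! helper4, VM block ALGCL: residue maps. -/

namespace Pool.Agent.VM

open Polynomial in
/-- the residue field of an algebraically closed field is algebraically closed -/
lemma QV.isAlgClosed_κ {F : Type*} [Field F] [IsAlgClosed F] (w : QV F) : IsAlgClosed w.κ := by
  refine IsAlgClosed.of_exists_root _ ?_
  intro p hm hirr
  have hlift : p ∈ Polynomial.lifts (IsLocalRing.residue w.ring) := by
    rw [Polynomial.mem_lifts]
    exact Polynomial.map_surjective _ IsLocalRing.residue_surjective p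
  obtain ⟨q, hq, hqd, hqm⟩ := Polynomial.lifts_and_degree_eq_and_monic hlift hm
  have hdeg : (q.map (algebraMap w.ring F)).degree ≠ 0 := by
    rw [hqm.degree_map, hqd]
    exact (Polynomial.degree_pos_of_irreducible hirr).ne'
  obtain ⟨x, hx⟩ := IsAlgClosed.exists_root _ hdeg
  have hint : IsIntegral w.ring x := ⟨q, hqm, by
    rw [Polynomial.IsRoot, Polynomial.eval_map] at hx; exact hx⟩
  obtain ⟨y, hy⟩ := IsIntegrallyClosed.isIntegral_iff.mp hint
  refine ⟨IsLocalRing.residue w.ring y, ?_⟩
  rw [← hq, Polynomial.eval_map_apply]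
  have h0 : Polynomial.eval y q = 0 := by
    apply (FaithfulSMul.algebraMap_injective w.ring F)
    rw [map_zero, ← Polynomial.eval_map_apply, hy]
    exact hx
  rw [h0, map_zero]

/-- ALGCL: the residue field of an algebraically closed field is algebraically closed -/
theorem ALGCL {F : Type} [Field F] [IsAlgClosed F] (w : QV F) : IsAlgClosed w.κ :=
  w.isAlgClosed_κ

end Pool.Agent.VM
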