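import Pool.Agent.Lib_VM.XABS_h81

set_option autoImplicit false

namespace Pool.Agent.VM

alias ABS4 := Pool.Agent.VM.XABSp.ABS4

end Pool.Agent.VM
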