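import Pool.Agent.Lib_VM.XD0b_h20

set_option autoImplicit false

namespace Pool.Agent.VM

alias Ctx.U_spec := Pool.Agent.VM.XD0bp.U_spec

end Pool.Agent.VM
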