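import Pool.Agent.Lib_VM.XD0d_h75

set_option autoImplicit false

namespace Pool.Agent.VM

alias Ctx.res_F := Pool.Agent.VM.XD0dp.res_F

end Pool.Agent.VM
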