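import Pool.Agent.Lib_VM.Y7_h91

set_option autoImplicit false

namespace Pool.Agent.VM

alias gen_unimod := Pool.Agent.VM.Y7p.gen_unimod

end Pool.Agent.VM
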