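import Pool.Agent.Lib_VM.J1_h67

set_option autoImplicit false

namespace Pool.Agent.VM

alias joint_J := Pool.Agent.VM.J1p.joint_J

end Pool.Agent.VM
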