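import Pool.Agent.Lib_VM.J2_h83

set_option autoImplicit false

namespace Pool.Agent.VM

alias joint_trdeg := Pool.Agent.VM.J2p.joint_trdeg

end Pool.Agent.VM
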