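import Pool.Agent.Lib_VM.StubsVI_h71

/-!
# MP_5582d1_ag, VI: BC (base change of degrees)
-/

set_option autoImplicit false
set_option linter.style.haveILetI false

namespace Pool.Agent.VM.BCp

open Pool.Agent.VM

open scoped Classical TensorProduct

section
variable {P : Type} [Field P] {M N Ω : Type} [Field M] [Field N] [Field Ω] [Algebra P M]
  [Algebra P N] [Algebra P Ω]

/-- a basis of `N` over `P` is independent over `M` -/
private theorem bc_inj (f : M →ₐ[P] Ω) (g : N →ₐ[P] Ω) (h : Joint f g) {J : Type}
    (b : Module.Basis J P N) (x : J →₀ M) (hx : x.sum (fun j m => f m * g (b j)) = 0) : x = 0 := by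
  let B := Algebra.TensorProduct.basis M b
  have h1 : Algebra.TensorProduct.lift f g (fun _ _ => Commute.all _ _) (B.repr.symm x) =
      x.sum (fun j m => f m * g (b j)) := by
    rw [Module.Basis.repr_symm_apply, Finsupp.linearCombination_apply, map_finsuppSum]
    refine Finsupp.sum_congr fun j _ => ?_
    rw [Algebra.TensorProduct.basis_apply, TensorProduct.smul_tmul', smul_eq_mul, mul_one,
      Algebra.TensorProduct.lift_tmul]
  have h2 : B.repr.symm x = 0 := by
    apply h.inj
    rw [h1, hx, map_zero]
  exact (LinearEquiv.map_eq_zero_iff B.repr.symm).1 h2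

/-- elements of the algebra generated by `f S` and `g N` -/
private theorem bc_rep (f : M →ₐ[P] Ω) (g : N →ₐ[P] Ω) (S : Set M) {J : Type}
    (b : Module.Basis J P N) (a : Ω) (ha : a ∈ Algebra.adjoin P (f '' S ∪ Set.range g)) :
    ∃ x : J →₀ M, (∀ j, x j ∈ IntermediateField.adjoin P S) ∧
      a = x.sum (fun j m => f m * g (b j)) := by
  have hg : ∀ n : N, ∀ m ∈ IntermediateField.adjoin P S, ∃ x : J →₀ M,
      (∀ j, x j ∈ IntermediateField.adjoin P S) ∧
      f m * g n = x.sum (fun j m => f m * g (b j)) := by
    intro n m hm
    refine ⟨(b.repr n).mapRange (fun p => m * algebraMap P M p) (by simp), ?_, ?_⟩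
    · intro j
      rw [Finsupp.mapRange_apply]
      exact mul_mem hm (IntermediateField.algebraMap_mem _ _)
    · rw [Finsupp.sum_mapRange_index (by intro j; simp)]
      conv_lhs => rw [← b.linearCombination_repr n, Finsupp.linearCombination_apply]
      rw [map_finsuppSum, Finsupp.mul_sum]
      refine Finsupp.sum_congr fun j _ => ?_
      rw [map_smul, map_mul, AlgHom.commutes, Algebra.smul_def]
      ring
  let T : Submodule P Ω :=
    { carrier := {a | ∃ x : J →₀ M, (∀ j, x j ∈ IntermediateField.adjoin P S) ∧
        a = x.sum (fun j m => f m * g (b j))}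
      add_mem' := by
        rintro _ _ ⟨x, hx, rfl⟩ ⟨y, hy, rfl⟩
        refine ⟨x + y, fun j => ?_, ?_⟩
        · rw [Finsupp.add_apply]; exact add_mem (hx j) (hy j)
        · rw [Finsupp.sum_add_index' (by intro j; simp) (by intro j a c; rw [map_add, add_mul])]
      zero_mem' := ⟨0, fun j => by rw [Finsupp.zero_apply]; exact zero_mem _, by simp⟩
      smul_mem' := by
        rintro c _ ⟨x, hx, rfl⟩
        refine ⟨x.mapRange (fun m => algebraMap P M c * m) (by simp), fun j => ?_, ?_⟩
        · rw [Finsupp.mapRange_apply]
          exact mul_mem (IntermediateField.algebraMap_mem _ _) (hx j)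
        · rw [Finsupp.sum_mapRange_index (by intro j; simp), Finsupp.smul_sum]
          refine Finsupp.sum_congr fun j _ => ?_
          rw [map_mul, AlgHom.commutes, Algebra.smul_def]
          ring }
  have hT : ∀ m ∈ IntermediateField.adjoin P S, ∀ n : N, f m * g n ∈ T := fun m hm n => hg n m hm
  have hmul : ∀ c ∈ T, ∀ m ∈ IntermediateField.adjoin P S, ∀ n : N, c * (f m * g n) ∈ T := by
    rintro _ ⟨x, hx, rfl⟩ m hm n
    rw [Finsupp.sum_mul]
    refine Submodule.sum_mem _ fun j _ => ?_
    have : f (x j) * g (b j) * (f m * g n) = f (x j * m) * g (b j * n) := by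
      rw [map_mul, map_mul]; ring
    show f (x j) * g (b j) * (f m * g n) ∈ T
    rw [this]
    exact hT _ (mul_mem (hx j) hm) _
  have h1T : (1 : Ω) ∈ T := by
    have := hT 1 (one_mem _) 1
    rwa [map_one, map_one, one_mul] at this
  have key : a ∈ T := by
    rw [← Subalgebra.mem_toSubmodule, Algebra.adjoin_eq_span] at ha
    refine Submodule.span_le.2 ?_ ha
    intro c hc
    induction hc using Submonoid.closure_induction_right with
    | one => exact h1T
    | mul_right x _ y hy ih =>
      rcases hy with ⟨s, hs, rfl⟩ | ⟨n, rfl⟩
      · have := hmul x ih s (IntermediateField.subset_adjoin _ _ hs) 1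
        rwa [map_one, mul_one] at this
      · have := hmul x ih 1 (one_mem _) n
        rwa [map_one, one_mul] at this
  exact key

/-- independent families stay independent -/
private theorem bc_indep (f : M →ₐ[P] Ω) (g : N →ₐ[P] Ω) (h : Joint f g) (S : Set M) {ι : Type}
    (m : ι → M) (hm : LinearIndependent (IntermediateField.adjoin P S) m) :
    LinearIndependent (IntermediateField.adjoin P (f '' S ∪ Set.range g)) (fun i => f (m i)) := by
  open scoped IntermediateField.algebraAdjoinAdjoin in
  rw [← LinearIndependent.iff_fractionRing (Algebra.adjoin P (f '' S ∪ Set.range g))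
    (IntermediateField.adjoin P (f '' S ∪ Set.range g))]
  rw [linearIndependent_iff']
  intro s c hc i hi
  let b := Module.Basis.ofVectorSpace P N
  choose x hx hxc using fun i => bc_rep f g S b (c i) (c i).2
  have h1 : (∑ i ∈ s, (x i).mapRange (fun t => t * m i) (by simp)).sum
      (fun j t => f t * g (b j)) = 0 := by
    rw [← hc, ← Finsupp.sum_finsetSum_index (h := fun j t => f t * g (b j))
      (fun j => by rw [map_zero, zero_mul]) (fun j a c => by rw [map_add, add_mul])]
    refine Finset.sum_congr rfl fun i _ => ?_
    rw [Finsupp.sum_mapRange_index (by intro j; simp)]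
    show _ = (c i : Ω) * f (m i)
    rw [hxc i, Finsupp.sum_mul]
    refine Finsupp.sum_congr fun j _ => ?_
    rw [map_mul]; ring
  have h2 := bc_inj f g h b _ h1
  have h3 : ∀ j, ∑ i ∈ s, x i j * m i = 0 := by
    intro j
    have := DFunLike.congr_fun h2 j
    rw [Finsupp.finsetSum_apply, Finsupp.zero_apply] at this
    simpa using this
  have h4 : x i = 0 := by
    ext j
    have h5 := (linearIndependent_iff'.1 hm) s
      (fun i => (⟨x i j, hx i j⟩ : IntermediateField.adjoin P S)) (by
        rw [← h3 j]
        refine Finset.sum_congr rfl fun i _ => rfl) i hi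
    exact congrArg Subtype.val h5
  apply Subtype.ext
  rw [hxc i, h4]
  simp

end

/-- J5: base change. Elements of `M` which are independent over `P(S)` are independent over
`P(S) N` (write the coefficients in `P(S)[N]` with a `P`-independent family of `N`) -/
theorem BC {P : Type} [Field P] [IsAlgClosed P] {M N Ω : Type} [Field M] [Field N] [Field Ω]
    [Algebra P M] [Algebra P N] [Algebra P Ω] (f : M →ₐ[P] Ω) (g : N →ₐ[P] Ω) (h : Joint f g)
    (S : Set M) : dg P (f '' S ∪ Set.range g) = dg P S := by
  set K := IntermediateField.adjoin P S with hK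
  set L := IntermediateField.adjoin P (f '' S ∪ Set.range g) with hL
  have hKL : ∀ k ∈ K, f k ∈ L := by
    intro k hk
    have h1 : K.map f ≤ L := by
      rw [hK, IntermediateField.adjoin_map]
      exact IntermediateField.adjoin.mono _ _ _ Set.subset_union_left
    exact h1 ⟨k, hk, rfl⟩
  let b := Module.Basis.ofVectorSpace K M
  have hind := bc_indep f g h S b b.linearIndependent
  show Module.finrank L Ω = Module.finrank K M
  by_cases hfin : Module.Finite K M
  · -- the finite case
    have hspan : Submodule.span L (Set.range fun i => f (b i)) = ⊤ := by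
      have hfr : ∀ m : M, f m ∈ Submodule.span L (Set.range fun i => f (b i)) := by
        intro m
        rw [← b.linearCombination_repr m, Finsupp.linearCombination_apply, map_finsuppSum]
        refine Submodule.sum_mem _ fun i _ => ?_
        have : f ((b.repr m) i • b i) = (⟨f ((b.repr m) i), hKL _ (b.repr m i).2⟩ : L) • f (b i) := by
          show f (((b.repr m) i : M) * b i) = f ((b.repr m) i : M) * f (b i)
          rw [map_mul]
        show f ((b.repr m) i • b i) ∈ _
        rw [this]
        exact Submodule.smul_mem _ _ (Submodule.subset_span ⟨i, rfl⟩)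
      have halg : ∀ m : M, IsAlgebraic L (f m) := by
        intro m
        have h1 : IsAlgebraic K m := Algebra.IsAlgebraic.isAlgebraic m
        let fK : K →+* L := (f.toRingHom.comp K.val.toRingHom).codRestrict L.toSubfield
          (fun k => hKL k k.2)
        exact h1.ringHom_of_comp_eq fK f fK.injective rfl
      have htop : IntermediateField.adjoin L (Set.range f) = ⊤ := by
        rw [eq_top_iff]
        intro x _
        have hx : x ∈ IntermediateField.adjoin P (Set.range f ∪ Set.range g) := by
          rw [h.gen]; trivial
        have hle : IntermediateField.adjoin P (Set.range f ∪ Set.range g) ≤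
            (IntermediateField.adjoin L (Set.range f)).restrictScalars P := by
          rw [IntermediateField.adjoin_le_iff]
          rintro y (hy | hy)
          · exact IntermediateField.subset_adjoin L _ hy
          · exact IntermediateField.algebraMap_mem (IntermediateField.adjoin L (Set.range f))
              (⟨y, IntermediateField.subset_adjoin _ _ (Or.inr hy)⟩ : L)
        exact hle hx
      have hadj : Algebra.adjoin L (Set.range f) = ⊤ := by
        have h1 := IntermediateField.adjoin_toSubalgebra_of_isAlgebraic
          (F := L) (S := Set.range f) (by rintro _ ⟨m, rfl⟩; exact halg m)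
        rw [← h1, htop]
        rfl
      rw [eq_top_iff]
      have h2 : (⊤ : Submodule L Ω) = Subalgebra.toSubmodule (Algebra.adjoin L (Set.range f)) := by
        rw [hadj]; rfl
      rw [h2, Algebra.adjoin_eq_span, Submodule.span_le]
      intro x hx
      have h3 : Submonoid.closure (Set.range f) ≤ MonoidHom.mrange (f : M →* Ω) := by
        rw [Submonoid.closure_le]
        rintro _ ⟨m, rfl⟩
        exact ⟨m, rfl⟩
      obtain ⟨m, rfl⟩ := h3 hx
      exact hfr m
    let b' : Module.Basis _ L Ω := Module.Basis.mk hind hspan.ge
    rw [Module.finrank_eq_nat_card_basis b, Module.finrank_eq_nat_card_basis b']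
  · -- the infinite case
    rw [Module.finrank_of_not_finite hfin]
    apply Module.finrank_of_not_finite
    intro hfin'
    apply hfin
    have h1 : Finite (Module.Basis.ofVectorSpaceIndex K M) := by
      have := hind.finite
      exact this
    exact Module.Finite.of_basis b

end Pool.Agent.VM.BCp
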