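import Pool.Agent.Lib_VM.DefsVI_h71

/-!
# MP_5582d1_ag: basic facts on degrees and coordinates of points
-/

set_option autoImplicit false
set_option linter.style.haveILetI false

namespace Pool.Agent.VM

open scoped Classical TensorProduct
open IntermediateField

attribute [-instance] Subtype.instDecidableEq

section dg
variable {P M : Type*} [Field P] [Field M] [Algebra P M]

theorem dg_congr {S T : Set M} (h : adjoin P S = adjoin P T) : dg P S = dg P T := by
  unfold dg; rw [h]

theorem dg_union (S T : Set M) : dg (adjoin P S) T = dg P (S ∪ T) := by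
  unfold dg
  rw [← adjoin_adjoin_left]
  rfl

theorem dg_map_equiv {N : Type*} [Field N] [Algebra P N] (e : M ≃ₐ[P] N) (S : Set M) :
    dg P (e '' S) = dg P S := by
  unfold dg
  have h : (adjoin P S).map (e : M →ₐ[P] N) = adjoin P (e '' S) := adjoin_map _ _ _
  rw [← h]
  symm
  exact Algebra.finrank_eq_of_equiv_equiv
    ((adjoin P S).intermediateFieldMap e).toRingEquiv e.toRingEquiv (by ext x; rfl)

end dg

section pts
variable {R K M : Type*} [CommRing R] [Field K] [Field M] [Algebra R K] [Algebra R M]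
  [Algebra K M] [IsScalarTower R K M] {W : WeierstrassCurve R}

theorem xc_mp {F N : Type*} [Field F] [Field N] [Algebra R F] [Algebra R N] [Algebra K F]
    [Algebra K N] [IsScalarTower R K F] [IsScalarTower R K N] (f : F →ₐ[K] N) (Q : Pt W F) :
    xc (mp f Q) = f (xc Q) := by
  cases Q with
  | zero => exact (map_zero f).symm
  | some x y h => rfl

theorem yc_mp {F N : Type*} [Field F] [Field N] [Algebra R F] [Algebra R N] [Algebra K F]
    [Algebra K N] [IsScalarTower R K F] [IsScalarTower R K N] (f : F →ₐ[K] N) (Q : Pt W F) :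
    yc (mp f Q) = f (yc Q) := by
  cases Q with
  | zero => exact (map_zero f).symm
  | some x y h => rfl

theorem cs_mp {F N : Type*} [Field F] [Field N] [Algebra R F] [Algebra R N] [Algebra K F]
    [Algebra K N] [IsScalarTower R K F] [IsScalarTower R K N] (f : F →ₐ[K] N) (Q : Pt W F) :
    cs (mp f Q) = f '' cs Q := by
  unfold cs
  rw [xc_mp, yc_mp, Set.image_insert_eq, Set.image_singleton]

/-- the points with coordinates in an intermediate field -/
noncomputable def ptsIn (W : WeierstrassCurve R) (E : IntermediateField K M) :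
    AddSubgroup (Pt W M) :=
  (mp (W := W) E.val).range

theorem mem_ptsIn {E : IntermediateField K M} {Q : Pt W M} :
    Q ∈ ptsIn W E ↔ cs Q ⊆ (E : Set M) := by
  constructor
  · rintro ⟨Q', rfl⟩
    rw [cs_mp]
    rintro _ ⟨t, -, rfl⟩
    exact t.2
  · intro h
    cases Q with
    | zero => exact zero_mem _
    | some x y hxy =>
      have hx : x ∈ E := h (by simp [cs, xc])
      have hy : y ∈ E := h (by simp [cs, yc])
      refine ⟨.some ⟨x, hx⟩ ⟨y, hy⟩ ?_, ?_⟩
      · have := (W.toAffine.baseChange_nonsingular (f := E.val) (S := K)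
          E.val.injective (⟨x, hx⟩ : E) (⟨y, hy⟩ : E)).1 hxy
        exact this
      · rfl

theorem cs_add_subset {E : IntermediateField K M} {Q Q' : Pt W M} (h : cs Q ⊆ (E : Set M))
    (h' : cs Q' ⊆ (E : Set M)) : cs (Q + Q') ⊆ (E : Set M) :=
  mem_ptsIn.1 (add_mem (mem_ptsIn.2 h) (mem_ptsIn.2 h'))

theorem cs_neg_subset {E : IntermediateField K M} {Q : Pt W M} (h : cs Q ⊆ (E : Set M)) :
    cs (-Q) ⊆ (E : Set M) :=
  mem_ptsIn.1 (neg_mem (mem_ptsIn.2 h))

theorem cs_zsmul_subset {E : IntermediateField K M} {Q : Pt W M} (n : ℤ)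
    (h : cs Q ⊆ (E : Set M)) : cs (n • Q) ⊆ (E : Set M) :=
  mem_ptsIn.1 (zsmul_mem (mem_ptsIn.2 h) n)

theorem cs_sum_subset {ι : Type*} {E : IntermediateField K M} (s : Finset ι) (Q : ι → Pt W M)
    (h : ∀ i ∈ s, cs (Q i) ⊆ (E : Set M)) : cs (∑ i ∈ s, Q i) ⊆ (E : Set M) :=
  mem_ptsIn.1 (sum_mem fun i hi => mem_ptsIn.2 (h i hi))

theorem cs_comb_subset {E : IntermediateField K M} (a : Fin 3 → ℤ) (Q : Fin 3 → Pt W M)
    (h : ∀ j, cs (Q j) ⊆ (E : Set M)) : cs (comb a Q) ⊆ (E : Set M) :=
  cs_sum_subset _ _ fun j _ => cs_zsmul_subset _ (h j)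

/-- constant points -/
theorem cs_const_subset (E : IntermediateField K M) (c : Pt W K) :
    cs (mp (Algebra.ofId K M) c) ⊆ (E : Set M) := by
  rw [cs_mp]
  rintro _ ⟨t, -, rfl⟩
  exact E.algebraMap_mem t

theorem adjoin_cs_neg (Q : Pt W M) : adjoin K (cs (-Q)) = adjoin K (cs Q) := by
  apply le_antisymm
  · rw [adjoin_le_iff]; exact cs_neg_subset (subset_adjoin _ _)
  · rw [adjoin_le_iff]
    have := cs_neg_subset (E := adjoin K (cs (-Q))) (Q := -Q) (subset_adjoin _ _)
    rwa [neg_neg] at this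

theorem dg_cs_neg (Q : Pt W M) : dg K (cs (-Q)) = dg K (cs Q) := dg_congr (adjoin_cs_neg Q)

theorem adjoin_cs_const (Q : Pt W M) (c : Pt W K) :
    adjoin K (cs (Q + mp (Algebra.ofId K M) c)) = adjoin K (cs Q) := by
  apply le_antisymm
  · rw [adjoin_le_iff]
    exact cs_add_subset (subset_adjoin _ _) (cs_const_subset _ _)
  · rw [adjoin_le_iff]
    have := cs_add_subset (E := adjoin K (cs (Q + mp (Algebra.ofId K M) c)))
      (Q := Q + mp (Algebra.ofId K M) c) (Q' := -mp (Algebra.ofId K M) c) (subset_adjoin _ _)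
      (cs_neg_subset (cs_const_subset _ _))
    rwa [add_neg_cancel_right] at this

/-- `u ↦ A u` does not change the field -/
theorem adjoin_comb (A : Matrix (Fin 3) (Fin 3) ℤ) (hA : IsUnit A.det) (u : Fin 3 → Pt W M) :
    adjoin K (⋃ j, cs (comb (A j) u)) = adjoin K (⋃ j, cs (u j)) := by
  have key : ∀ (A : Matrix (Fin 3) (Fin 3) ℤ) (u : Fin 3 → Pt W M),
      adjoin K (⋃ j, cs (comb (A j) u)) ≤ adjoin K (⋃ j, cs (u j)) := by
    intro A u
    rw [adjoin_le_iff]
    refine Set.iUnion_subset fun j => cs_comb_subset _ _ fun i => ?_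
    exact (Set.subset_iUnion (fun j => cs (u j)) i).trans (subset_adjoin _ _)
  apply le_antisymm (key A u)
  have h2 := key A⁻¹ (fun j => comb (A j) u)
  have e : (fun i => comb (A⁻¹ i) fun j => comb (A j) u) = u := by
    funext i
    have h3 : A⁻¹ * A = 1 := Matrix.nonsing_inv_mul _ hA
    have h4 : ∀ k, ∑ j, A⁻¹ i j * A j k = (1 : Matrix (Fin 3) (Fin 3) ℤ) i k := by
      intro k; rw [← h3, Matrix.mul_apply]
    unfold comb
    simp only [Finset.smul_sum, ← mul_smul]
    rw [Finset.sum_comm]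
    simp only [← Finset.sum_smul, h4]
    simp [Matrix.one_apply]
  have e' : (⋃ i, cs (comb (A⁻¹ i) fun j => comb (A j) u)) = ⋃ i, cs (u i) := by
    congr 1
    funext i
    exact congrArg cs (congrFun e i)
  rwa [e'] at h2

end pts

/-! ### transcendence degrees -/

section tr
variable {P M : Type} [Field P] [Field M] [Algebra P M]

/-- a field algebraic over `P(s)` has transcendence degree at most `#s` -/
theorem tr_le_of_alg (s : Set M) (h : Algebra.IsAlgebraic (adjoin P s) M) :
    Algebra.trdeg P M ≤ Cardinal.mk s := by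
  open scoped IntermediateField.algebraAdjoinAdjoin in
  have : Algebra.IsAlgebraic (Algebra.adjoin P s) M :=
    Algebra.IsAlgebraic.trans _ (adjoin P s) _
  exact Algebra.IsAlgebraic.trdeg_le_cardinalMk _ _

end tr

end Pool.Agent.VM
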