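import Pool.Agent.Lib_helper85.VM.Defs2
import Pool.Agent.Lib_helper67.VM.PtF

/-!
# MP_5582d1_ag: valuations of `Kb(e)`: the core lemma at infinity and translation (helper75)
-/

set_option autoImplicit false

namespace Pool.Agent.VM

open scoped Classical
open Polynomial

attribute [-instance] Subtype.instDecidableEq

noncomputable section

/-! ### values of polynomials at infinity -/

section inf

variable {Λ : Type} [Field Λ] (Kb : Subfield Λ) (u : QV Λ)

theorem c1_poly (ht : ∀ c ∈ Kb, c ≠ 0 → u.v c = 0) (x : Λ) (hx0 : x ≠ 0) (hx : u.v x < 0)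
    (p : Kb[X]) (hp : p ≠ 0) : aeval x p ≠ 0 ∧ u.v (aeval x p) = p.natDegree * u.v x := by
  induction hn : p.natDegree using Nat.strong_induction_on generalizing p with
  | _ n ih =>
  have hlc : (p.leadingCoeff : Λ) ≠ 0 := by
    simpa using hp
  have hlead : u.v ((p.leadingCoeff : Λ) * x ^ n) = n * u.v x := by
    rw [u.mul hlc (pow_ne_zero n hx0), u.pow hx0, ht _ p.leadingCoeff.2 hlc, zero_add]
  have hdec : aeval x p = (p.leadingCoeff : Λ) * x ^ n + aeval x p.eraseLead := by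
    conv_lhs => rw [← p.eraseLead_add_monomial_natDegree_leadingCoeff]
    rw [map_add, aeval_monomial, hn, add_comm]
    rfl
  by_cases he : p.eraseLead = 0
  · rw [hdec, he, map_zero, add_zero]
    exact ⟨mul_ne_zero hlc (pow_ne_zero n hx0), hlead⟩
  · have hlt : p.eraseLead.natDegree < n := by
      rcases p.eraseLead_natDegree_lt_or_eraseLead_eq_zero with h | h
      · rw [← hn]; exact h
      · exact absurd h he
    obtain ⟨h1, h2⟩ := ih _ hlt p.eraseLead he rfl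
    have h3 : u.v ((p.leadingCoeff : Λ) * x ^ n) < u.v (aeval x p.eraseLead) := by
      rw [hlead, h2]
      have : (p.eraseLead.natDegree : ℚ) < n := by exact_mod_cast hlt
      nlinarith
    have h4 := u.add_eq_of_lt (mul_ne_zero hlc (pow_ne_zero n hx0)) h1 h3
    rw [hdec]
    exact ⟨h4.1, by rw [h4.2, hlead]⟩

end inf

/-! ### normal form -/

section nf

variable {Λ : Type} [Field Λ] (Kb : Subfield Λ)

/-- parity of degrees -/
theorem c1_par {k : Type*} [Field k] (A B : k[X]) (h : A ^ 2 - B ^ 2 * (X ^ 3 + 1) = 0) :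
    A = 0 ∧ B = 0 := by
  have hm : (X ^ 3 + 1 : k[X]).natDegree = 3 := by
    rw [show (X ^ 3 + 1 : k[X]) = X ^ 3 + C 1 by simp]
    exact natDegree_X_pow_add_C
  have hm0 : (X ^ 3 + 1 : k[X]) ≠ 0 := by
    intro h0; rw [h0] at hm; simp at hm
  by_cases hB : B = 0
  · subst hB
    refine ⟨?_, rfl⟩
    simpa using h
  · exfalso
    have hA : A ^ 2 = B ^ 2 * (X ^ 3 + 1) := sub_eq_zero.1 h
    have h2 := congrArg natDegree hA
    rw [natDegree_pow, natDegree_mul (pow_ne_zero 2 hB) hm0, natDegree_pow, hm] at h2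
    omega

theorem c1_nz {x y : Λ} (hx : Transcendental Kb x) (hy : y ^ 2 = x ^ 3 + 1) (A B : Kb[X])
    (h : A ≠ 0 ∨ B ≠ 0) : aeval x A + aeval x B * y ≠ 0 ∧
      aeval x (A ^ 2 - B ^ 2 * (X ^ 3 + 1)) ≠ 0 ∧
      (aeval x A + aeval x B * y) * (aeval x A - aeval x B * y) =
        aeval x (A ^ 2 - B ^ 2 * (X ^ 3 + 1)) := by
  have h1 : A ^ 2 - B ^ 2 * (X ^ 3 + 1) ≠ 0 := fun h0 => by
    have := c1_par A B h0
    rcases h with h | h
    · exact h this.1
    · exact h this.2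
  have h2 : aeval x (A ^ 2 - B ^ 2 * (X ^ 3 + 1)) ≠ 0 := fun h0 => by
    rw [transcendental_iff] at hx
    exact h1 (hx _ h0)
  have h3 : (aeval x A + aeval x B * y) * (aeval x A - aeval x B * y) =
        aeval x (A ^ 2 - B ^ 2 * (X ^ 3 + 1)) := by
    simp only [map_sub, map_mul, map_pow, map_add, map_one, aeval_X]
    linear_combination -(aeval x B) ^ 2 * hy
  refine ⟨fun h0 => ?_, h2, h3⟩
  rw [h0, zero_mul] at h3
  exact h2 h3.symm

/-- normal form of the elements of `Kb(e)` -/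
theorem c1_nf (e : Pt E2 Λ) (he : Transcendental Kb (xc e)) (H : Λ) (hH : H ∈ fe Kb e) :
    ∃ A B D : Kb[X], D ≠ 0 ∧ H * aeval (xc e) D = aeval (xc e) A + aeval (xc e) B * yc e := by
  have he0 : e ≠ 0 := by
    rintro rfl
    apply he
    rw [ptf_xc_zero]
    exact isAlgebraic_zero
  have hy : yc e ^ 2 = xc e ^ 3 + 1 := by
    have := ptf_sq he0
    simpa using this
  have hinj := transcendental_iff.1 he
  unfold fe at hH
  induction hH using Subfield.closure_induction with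
  | mem x hx =>
    rcases hx with hx | hx
    · refine ⟨C ⟨x, hx⟩, 0, 1, one_ne_zero, ?_⟩
      simp only [map_one, mul_one, aeval_C, map_zero, zero_mul, add_zero]
      rfl
    · rcases hx with rfl | hx
      · refine ⟨X, 0, 1, one_ne_zero, ?_⟩
        simp
      · rw [Set.mem_singleton_iff] at hx
        subst hx
        refine ⟨0, 1, 1, one_ne_zero, ?_⟩
        simp
  | one => exact ⟨1, 0, 1, one_ne_zero, by simp⟩
  | add a b _ _ ha hb =>
    obtain ⟨A, B, D, hD, h⟩ := ha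
    obtain ⟨A', B', D', hD', h'⟩ := hb
    refine ⟨A * D' + A' * D, B * D' + B' * D, D * D', mul_ne_zero hD hD', ?_⟩
    simp only [map_mul, map_add]
    linear_combination (aeval (xc e) D') * h + (aeval (xc e) D) * h'
  | neg a _ ha =>
    obtain ⟨A, B, D, hD, h⟩ := ha
    refine ⟨-A, -B, D, hD, ?_⟩
    simp only [map_neg]
    linear_combination -h
  | inv a _ ha =>
    obtain ⟨A, B, D, hD, h⟩ := ha
    by_cases ha0 : a = 0
    · exact ⟨0, 0, 1, one_ne_zero, by simp [ha0]⟩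
    have hDx : aeval (xc e) D ≠ 0 := fun h0 => hD (hinj _ h0)
    have hAB : A ≠ 0 ∨ B ≠ 0 := by
      by_contra hc
      push Not at hc
      rw [hc.1, hc.2, map_zero, zero_mul, add_zero] at h
      rcases mul_eq_zero.1 h with h1 | h1
      · exact ha0 h1
      · exact hDx h1
    obtain ⟨h1, h2, h3⟩ := c1_nz Kb he hy A B hAB
    refine ⟨D * A, -(D * B), A ^ 2 - B ^ 2 * (X ^ 3 + 1), fun h0 => h2 (by rw [h0, map_zero]), ?_⟩
    rw [← h3, ← h]
    simp only [map_mul, map_neg]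
    field_simp
    ring
  | mul a b _ _ ha hb =>
    obtain ⟨A, B, D, hD, h⟩ := ha
    obtain ⟨A', B', D', hD', h'⟩ := hb
    refine ⟨A * A' + B * B' * (X ^ 3 + 1), A * B' + A' * B, D * D', mul_ne_zero hD hD', ?_⟩
    simp only [map_mul, map_add, map_pow, map_one, aeval_X]
    linear_combination (a * aeval (xc e) D) * h' +
      (aeval (xc e) A' + aeval (xc e) B' * yc e) * h +
      (aeval (xc e) B) * (aeval (xc e) B') * hy

end nf

/-! ### the core lemma -/

section core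

variable {Λ : Type} [Field Λ] (Kb : Subfield Λ)

/-- the order at infinity of `A(x) + B(x) y` -/
def c1_ord (A B : Kb[X]) : ℤ :=
  if B = 0 then -(2 * A.natDegree : ℤ) else
    if A = 0 then -(2 * B.natDegree + 3 : ℤ) else -(max (2 * A.natDegree) (2 * B.natDegree + 3) : ℤ)

theorem c1_val (u : QV Λ) (ht : ∀ c ∈ Kb, c ≠ 0 → u.v c = 0) {x y : Λ} (hx0 : x ≠ 0) (hx : u.v x < 0)
    (hy0 : y ≠ 0) (hy : u.v y = 3 / 2 * u.v x) (A B : Kb[X]) (h : A ≠ 0 ∨ B ≠ 0) :
    aeval x A + aeval x B * y ≠ 0 ∧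
      u.v (aeval x A + aeval x B * y) = (-(u.v x) / 2) * c1_ord Kb A B := by
  by_cases hB : B = 0
  · subst hB
    have hA : A ≠ 0 := by simpa using h
    have h1 := c1_poly Kb u ht x hx0 hx A hA
    rw [map_zero, zero_mul, add_zero, h1.2]
    refine ⟨h1.1, ?_⟩
    rw [c1_ord, if_pos rfl]
    push_cast; ring
  have h2 := c1_poly Kb u ht x hx0 hx B hB
  have h3 : u.v (aeval x B * y) = (B.natDegree + 3 / 2) * u.v x := by
    rw [u.mul h2.1 hy0, h2.2, hy]; ring
  have h30 : aeval x B * y ≠ 0 := mul_ne_zero h2.1 hy0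
  by_cases hA : A = 0
  · subst hA
    rw [map_zero, zero_add]
    refine ⟨h30, ?_⟩
    rw [h3, c1_ord, if_neg hB, if_pos rfl]
    push_cast; ring
  have h1 := c1_poly Kb u ht x hx0 hx A hA
  rw [c1_ord, if_neg hB, if_neg hA]
  rcases le_or_gt (2 * A.natDegree) (2 * B.natDegree + 3) with hle | hlt
  · have hlt' : 2 * A.natDegree < 2 * B.natDegree + 3 := by omega
    have h5 : u.v (aeval x B * y) < u.v (aeval x A) := by
      rw [h3, h1.2]
      have : (2 * A.natDegree : ℚ) < 2 * B.natDegree + 3 := by exact_mod_cast hlt'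
      nlinarith
    have h4 := u.add_eq_of_lt h30 h1.1 h5
    rw [add_comm]
    refine ⟨h4.1, ?_⟩
    rw [h4.2, h3, max_eq_right (by exact_mod_cast hle)]
    push_cast; ring
  · have h5 : u.v (aeval x A) < u.v (aeval x B * y) := by
      rw [h3, h1.2]
      have : (2 * B.natDegree + 3 : ℚ) < 2 * A.natDegree := by exact_mod_cast hlt
      nlinarith
    have h4 := u.add_eq_of_lt h1.1 h30 h5
    refine ⟨h4.1, ?_⟩
    rw [h4.2, h1.2, max_eq_left (by exact_mod_cast hlt.le)]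
    push_cast; ring

theorem c1_ne_zero {e : Pt E2 Λ} (he : Transcendental Kb (xc e)) : e ≠ 0 := by
  rintro rfl
  apply he
  rw [ptf_xc_zero]
  exact isAlgebraic_zero

theorem c1_xne {e : Pt E2 Λ} (he : Transcendental Kb (xc e)) : xc e ≠ 0 := by
  intro h
  apply he
  rw [h]
  exact isAlgebraic_zero

theorem c1_sq {e : Pt E2 Λ} (he : e ≠ 0) : yc e ^ 2 = xc e ^ 3 + 1 := by
  have := ptf_sq he
  simpa using this

theorem c1_yne {e : Pt E2 Λ} (he : Transcendental Kb (xc e)) : yc e ≠ 0 := by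
  intro h
  have h1 := c1_sq (c1_ne_zero Kb he)
  rw [h] at h1
  have h2 : aeval (xc e) (X ^ 3 + 1 : Kb[X]) = 0 := by
    simp only [map_add, map_pow, aeval_X, map_one]
    rw [← h1]; ring
  have h3 := transcendental_iff.1 he _ h2
  have hm : (X ^ 3 + 1 : Kb[X]).natDegree = 3 := by
    rw [show (X ^ 3 + 1 : Kb[X]) = X ^ 3 + C 1 by simp]
    exact natDegree_X_pow_add_C
  rw [h3] at hm; simp at hm

/-- `u y = 3/2 u x` at infinity -/
theorem c1_uy (u : QV Λ) {e : Pt E2 Λ} (he : Transcendental Kb (xc e)) (hx : u.v (xc e) < 0) :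
    u.v (yc e) = 3 / 2 * u.v (xc e) := by
  have h1 := c1_sq (c1_ne_zero Kb he)
  have hx0 := c1_xne Kb he
  have hy0 := c1_yne Kb he
  have h2 := u.add_eq_of_lt (a := xc e ^ 3) (b := 1) (pow_ne_zero 3 hx0) one_ne_zero (by
    rw [u.pow hx0, u.one]; push_cast; linarith)
  rw [← h1, u.pow hy0, u.pow hx0] at h2
  have := h2.2
  push_cast at this
  linarith

/-- CORE: there is one integer valued function `n` such that every valuation which is trivial on
`Kb` and negative at `xc e` is `(-u(xc e)/2) * n` on `Kb(e)` -/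
theorem c1_core (e : Pt E2 Λ) (he : Transcendental Kb (xc e)) :
    ∃ n : Λ → ℤ, ∀ u : QV Λ, (∀ c ∈ Kb, c ≠ 0 → u.v c = 0) → u.v (xc e) < 0 →
      ∀ H ∈ fe Kb e, H ≠ 0 → u.v H = (-(u.v (xc e)) / 2) * n H := by
  have hinj := transcendental_iff.1 he
  have key : ∀ H : Λ, ∃ n : ℤ, H ∈ fe Kb e → H ≠ 0 →
      ∀ u : QV Λ, (∀ c ∈ Kb, c ≠ 0 → u.v c = 0) → u.v (xc e) < 0 →
        u.v H = (-(u.v (xc e)) / 2) * n := by
    intro H
    by_cases hH : H ∈ fe Kb e
    swap
    · exact ⟨0, fun h => absurd h hH⟩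
    obtain ⟨A, B, D, hD, h⟩ := c1_nf Kb e he H hH
    refine ⟨c1_ord Kb A B + 2 * D.natDegree, fun _ hH0 u ht hx => ?_⟩
    have hx0 := c1_xne Kb he
    have hy0 := c1_yne Kb he
    have hy := c1_uy Kb u he hx
    have hDx : aeval (xc e) D ≠ 0 := fun h0 => hD (hinj _ h0)
    have hAB : A ≠ 0 ∨ B ≠ 0 := by
      by_contra hc
      push Not at hc
      rw [hc.1, hc.2, map_zero, zero_mul, add_zero] at h
      rcases mul_eq_zero.1 h with h1 | h1
      · exact hH0 h1
      · exact hDx h1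
    have h1 := c1_val Kb u ht hx0 hx hy0 hy A B hAB
    have h2 := (c1_poly Kb u ht (xc e) hx0 hx D hD).2
    have h3 := u.mul hH0 hDx
    rw [h, h1.2, h2] at h3
    push_cast
    linarith
  choose n hn using key
  exact ⟨n, fun u ht hx H hH h0 => hn H hH h0 u ht hx⟩

/-- a normalised valuation at infinity is `n` -/
theorem c1_norm {e : Pt E2 Λ} (he : Transcendental Kb (xc e)) {n : Λ → ℤ}
    (hn : ∀ u : QV Λ, (∀ c ∈ Kb, c ≠ 0 → u.v c = 0) → u.v (xc e) < 0 →
      ∀ H ∈ fe Kb e, H ≠ 0 → u.v H = (-(u.v (xc e)) / 2) * n H)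
    (u : QV Λ) (ht : ∀ c ∈ Kb, c ≠ 0 → u.v c = 0) (hx : u.v (xc e) < 0)
    (hint : ∀ H ∈ fe Kb e, H ≠ 0 → ∃ n : ℤ, u.v H = n) (hun : ∃ H ∈ fe Kb e, H ≠ 0 ∧ u.v H = 1) :
    u.v (xc e) = -2 := by
  have hx0 := c1_xne Kb he
  have hy0 := c1_yne Kb he
  have hy := c1_uy Kb u he hx
  have hxm : xc e ∈ fe Kb e := Subfield.subset_closure (Or.inr (Or.inl rfl))
  have hym : yc e ∈ fe Kb e := Subfield.subset_closure (Or.inr (Or.inr rfl))
  obtain ⟨m, hm⟩ := hint (xc e / yc e) (div_mem hxm hym) (div_ne_zero hx0 hy0)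
  rw [u.div hx0 hy0, hy] at hm
  obtain ⟨H, hH, hH0, hH1⟩ := hun
  have h1 := hn u ht hx H hH hH0
  rw [hH1] at h1
  have h2 : -(u.v (xc e)) / 2 = m := by rw [← hm]; ring
  rw [h2] at h1
  have h3 : (1 : ℤ) = m * n H := by exact_mod_cast h1
  have hmpos : 0 < m := by
    have : (0 : ℚ) < m := by rw [← h2]; linarith
    exact_mod_cast this
  have h4 : m = 1 := by
    have := Int.eq_one_or_neg_one_of_mul_eq_one h3.symm
    omega
  rw [h4] at h2
  push_cast at h2
  linarith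

end core

/-! ### points over subfields, translation -/

section tr

variable {Λ : Type} [Field Λ]

theorem c1_xc_inc (F : Subfield Λ) (P : Pt E2 F) : xc (inc F P) = ((xc P : F) : Λ) := by
  rcases ptf_cases P with rfl | ⟨x, y, h, rfl⟩
  · rw [map_zero]; simp
  · rfl

theorem c1_yc_inc (F : Subfield Λ) (P : Pt E2 F) : yc (inc F P) = ((yc P : F) : Λ) := by
  rcases ptf_cases P with rfl | ⟨x, y, h, rfl⟩
  · rw [map_zero]; simp
  · rfl

theorem c1_inc_inj (F : Subfield Λ) : Function.Injective (inc F) :=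
  WeierstrassCurve.Affine.Point.map_injective _

theorem c1_exists_inc (F : Subfield Λ) (P : Pt E2 Λ) (hx : xc P ∈ F) (hy : yc P ∈ F) :
    ∃ P' : Pt E2 F, inc F P' = P := by
  rcases ptf_cases P with rfl | ⟨x, y, h, rfl⟩
  · exact ⟨0, map_zero _⟩
  · have hx' : x ∈ F := hx
    have hy' : y ∈ F := hy
    have h' : (E2.baseChange F).toAffine.Nonsingular (⟨x, hx'⟩ : F) ⟨y, hy'⟩ :=
      (WeierstrassCurve.Affine.baseChange_nonsingular (W := E2) (f := F.subtype.toIntAlgHom)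
        F.subtype.injective (⟨x, hx'⟩ : F) (⟨y, hy'⟩ : F)).mp h
    exact ⟨.some _ _ h', rfl⟩

/-- sums of points over a subfield -/
theorem c1_add_mem (F : Subfield Λ) {P Q : Pt E2 Λ} (hP : xc P ∈ F ∧ yc P ∈ F)
    (hQ : xc Q ∈ F ∧ yc Q ∈ F) : xc (P + Q) ∈ F ∧ yc (P + Q) ∈ F := by
  obtain ⟨P', rfl⟩ := c1_exists_inc F P hP.1 hP.2
  obtain ⟨Q', rfl⟩ := c1_exists_inc F Q hQ.1 hQ.2
  rw [← map_add, c1_xc_inc, c1_yc_inc]
  exact ⟨Subtype.mem _, Subtype.mem _⟩

theorem c1_inc_mem (F : Subfield Λ) (a : Pt E2 F) : xc (inc F a) ∈ F ∧ yc (inc F a) ∈ F := by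
  rw [c1_xc_inc, c1_yc_inc]
  exact ⟨Subtype.mem _, Subtype.mem _⟩

variable (Kb : Subfield Λ)

theorem c1_fe_le {e : Pt E2 Λ} {F : Subfield Λ} : fe Kb e ≤ F ↔ Kb ≤ F ∧ xc e ∈ F ∧ yc e ∈ F := by
  unfold fe
  rw [Subfield.closure_le, Set.union_subset_iff]
  constructor
  · rintro ⟨h1, h2⟩
    exact ⟨h1, h2 (Or.inl rfl), h2 (Or.inr rfl)⟩
  · rintro ⟨h1, h2, h3⟩
    refine ⟨h1, ?_⟩
    rintro x (rfl | hx)
    · exact h2
    · rw [Set.mem_singleton_iff] at hx
      rw [hx]; exact h3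

theorem c1_Kb_le (e : Pt E2 Λ) : Kb ≤ fe Kb e := ((c1_fe_le Kb).1 le_rfl).1
theorem c1_xmem (e : Pt E2 Λ) : xc e ∈ fe Kb e := ((c1_fe_le Kb).1 le_rfl).2.1
theorem c1_ymem (e : Pt E2 Λ) : yc e ∈ fe Kb e := ((c1_fe_le Kb).1 le_rfl).2.2

theorem c1_fe_add_le (e : Pt E2 Λ) (a : Pt E2 Kb) : fe Kb (e + inc Kb a) ≤ fe Kb e := by
  rw [c1_fe_le]
  refine ⟨c1_Kb_le Kb e, c1_add_mem _ ⟨c1_xmem Kb e, c1_ymem Kb e⟩ ?_⟩
  exact ⟨c1_Kb_le Kb e (c1_inc_mem Kb a).1, c1_Kb_le Kb e (c1_inc_mem Kb a).2⟩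

/-- translation does not change the field -/
theorem c1_fe_add (e : Pt E2 Λ) (a : Pt E2 Kb) : fe Kb (e + inc Kb a) = fe Kb e := by
  refine le_antisymm (c1_fe_add_le Kb e a) ?_
  have := c1_fe_add_le Kb (e + inc Kb a) (-a)
  rwa [map_neg, add_neg_cancel_right] at this

theorem c1_fe_sub (e : Pt E2 Λ) (a : Pt E2 Kb) : fe Kb (e - inc Kb a) = fe Kb e := by
  have := c1_fe_add Kb e (-a)
  rwa [map_neg, ← sub_eq_add_neg] at this

theorem c1_fe_neg (e : Pt E2 Λ) : fe Kb (-e) = fe Kb e := by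
  have h : ∀ e : Pt E2 Λ, fe Kb (-e) ≤ fe Kb e := fun e => by
    rw [c1_fe_le, ptf_xc_neg, ptf_yc_neg]
    exact ⟨c1_Kb_le Kb e, c1_xmem Kb e, neg_mem (c1_ymem Kb e)⟩
  refine le_antisymm (h e) ?_
  have := h (-e)
  rwa [neg_neg] at this

/-- algebraic elements over an algebraically closed subfield -/
theorem c1_mem_of_alg [IsAlgClosed Kb] {x : Λ} (h : IsAlgebraic Kb x) : x ∈ Kb := by
  have hi := h.isIntegral
  have h1 := IsAlgClosed.degree_eq_one_of_irreducible Kb (minpoly.irreducible hi)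
  obtain ⟨c, hc⟩ := minpoly.mem_range_of_degree_eq_one Kb x h1
  rw [← hc]
  exact c.2

theorem c1_alg_y [IsAlgClosed Kb] {P : Pt E2 Λ} (h : xc P ∈ Kb) : yc P ∈ Kb := by
  by_cases hP : P = 0
  · rw [hP, ptf_yc_zero]; exact zero_mem _
  have h1 := c1_sq hP
  apply c1_mem_of_alg
  have h2 : IsAlgebraic Kb (yc P ^ 2) := by
    rw [h1]
    exact isAlgebraic_algebraMap (⟨xc P ^ 3 + 1, add_mem (pow_mem h 3) (one_mem _)⟩ : Kb)
  exact IsAlgebraic.of_pow (by norm_num) h2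

/-- translates of a generic point are generic -/
theorem c1_tr_add [IsAlgClosed Kb] {e : Pt E2 Λ} (he : Transcendental Kb (xc e)) (a : Pt E2 Kb) :
    Transcendental Kb (xc (e + inc Kb a)) := by
  intro h
  have hx := c1_mem_of_alg Kb h
  obtain ⟨b, hb⟩ := c1_exists_inc Kb _ hx (c1_alg_y Kb hx)
  apply he
  have : e = inc Kb (b - a) := by rw [map_sub, hb, add_sub_cancel_right]
  rw [this, c1_xc_inc]
  exact isAlgebraic_algebraMap _

theorem c1_tr_sub [IsAlgClosed Kb] {e : Pt E2 Λ} (he : Transcendental Kb (xc e)) (a : Pt E2 Kb) :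
    Transcendental Kb (xc (e - inc Kb a)) := by
  have := c1_tr_add Kb he (-a)
  rwa [map_neg, ← sub_eq_add_neg] at this

end tr

end

end Pool.Agent.VM
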