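import Pool.Agent.Lib_VM.CONS_h71
import Pool.Agent.Lib_VM.A_SPW
import Pool.Agent.Lib_VM.A_joint_J
import Pool.Agent.Lib_VM.A_joint_trdeg

/-!
# MP_5582d1_ag, block CONS: the common field
-/

set_option autoImplicit false
set_option linter.style.haveILetI false

namespace Pool.Agent.VM.CONSp

open scoped Classical TensorProduct
open IntermediateField

attribute [-instance] Subtype.instDecidableEq

theorem ex_joint {l : ℂ} (Y W : SubVar l) : ∃ (J : Type) (_ : Field J) (_ : Algebra ℂ J)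
    (f : Y.M →ₐ[ℂ] J) (g : W.M →ₐ[ℂ] J), Joint f g :=
  ⟨Y.J W, inferInstance, inferInstance, Y.inl W, Y.inr W, joint_J Y W⟩

theorem ex_clos (J : Type) [Field J] [Algebra ℂ J] : ∃ (Ω : Type) (_ : Field Ω) (_ : Algebra ℂ Ω)
    (_ : Algebra J Ω), IsScalarTower ℂ J Ω ∧ IsAlgClosed Ω ∧ Algebra.IsAlgebraic J Ω :=
  ⟨AlgebraicClosure J, inferInstance, inferInstance, inferInstance, inferInstance, inferInstance,
    inferInstance⟩

/-- extension of embeddings of algebraic extensions -/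
theorem ext_emb {M Ω : Type} [Field M] [Algebra ℂ M] [Field Ω] [Algebra ℂ Ω] [IsAlgClosed Ω]
    (K : IntermediateField ℂ M) (h : Algebra.IsAlgebraic K M) (σ : K →ₐ[ℂ] Ω) :
    ∃ F : M →ₐ[ℂ] Ω, ∀ x : K, F (x : M) = σ x := by
  letI : Algebra K Ω := σ.toRingHom.toAlgebra
  haveI : IsScalarTower ℂ K Ω := IsScalarTower.of_algebraMap_eq fun x => (σ.commutes x).symm
  let F : M →ₐ[K] Ω := IsAlgClosed.lift
  exact ⟨F.restrictScalars ℂ, fun x => F.commutes x⟩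

theorem xc_ne_zero {R : Type} [CommRing R] {a b : R} {F : Type} [Field F] [Algebra R F]
    [Algebra ℂ F] {Q : Pt (SW a b) F} (h : Transcendental ℂ (xc Q)) : Q ≠ 0 := by
  intro h0
  apply h
  rw [h0]
  exact isAlgebraic_zero

theorem env {l : ℂ} (Y Y' W : SubVar l) (hw : AlgebraicIndependent ℂ fun j => xc (Y.w j))
    (hw' : AlgebraicIndependent ℂ fun j => xc (Y'.w j)) (hd' : dg ℂ (⋃ j, cs (Y'.w j)) ≠ 0) :
    ∃ (N : Type) (_ : Field N) (_ : Algebra ℂ N) (f₀ : Y.M →ₐ[ℂ] N) (f₁ : Y'.M →ₐ[ℂ] N)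
      (g : W.M →ₐ[ℂ] N), (∀ j, mp f₁ (Y'.w j) = mp f₀ (Y.w j)) ∧
      adjoin ℂ (Set.range f₀ ∪ Set.range f₁ ∪ Set.range g) = ⊤ ∧ Algebra.trdeg ℂ N = 6 := by
  obtain ⟨J, _, _, f, g, hJ⟩ := ex_joint Y W
  have htJ : Algebra.trdeg ℂ J = 6 := by
    rw [joint_trdeg f g hJ 3 3 (by rw [Y.dim3]; rfl) (by rw [W.dim3]; rfl)]; norm_num
  obtain ⟨Ω, _, _, _, _, _, _⟩ := ex_clos J
  let ι : J →ₐ[ℂ] Ω := IsScalarTower.toAlgHom ℂ J Ω
  let F₀ : Y.M →ₐ[ℂ] Ω := ι.comp f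
  let G : W.M →ₐ[ℂ] Ω := ι.comp g
  have hi : AlgebraicIndependent ℂ fun j => xc (mp F₀ (Y.w j)) := by
    have h1 := hw.map' F₀.injective
    have h2 : (⇑F₀ ∘ fun j => xc (Y.w j)) = fun j => xc (mp F₀ (Y.w j)) := by
      funext j; rw [Y4p.xc_mp]; rfl
    rwa [h2] at h1
  obtain ⟨σ, hσ⟩ := SPW Y'.w (fun j => mp F₀ (Y.w j)) hw' hi
  have hfd : FiniteDimensional (adjoin ℂ (⋃ j, cs (Y'.w j))) Y'.M :=
    FiniteDimensional.of_finrank_pos (Nat.pos_of_ne_zero hd')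
  obtain ⟨F₁, hF₁⟩ := ext_emb (adjoin ℂ (⋃ j, cs (Y'.w j))) inferInstance σ
  have hpt : ∀ j, mp F₁ (Y'.w j) = mp F₀ (Y.w j) := by
    intro j
    have hx : xc (Y'.w j) ∈ adjoin ℂ (⋃ j, cs (Y'.w j)) :=
      subset_adjoin _ _ (Set.mem_iUnion.2 ⟨j, Or.inl rfl⟩)
    have hy : yc (Y'.w j) ∈ adjoin ℂ (⋃ j, cs (Y'.w j)) :=
      subset_adjoin _ _ (Set.mem_iUnion.2 ⟨j, Or.inr rfl⟩)
    have e1 : xc (mp F₁ (Y'.w j)) = xc (mp F₀ (Y.w j)) := by
      rw [Y4p.xc_mp, ← (hσ j hx hy).1]; exact hF₁ ⟨_, hx⟩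
    have e2 : yc (mp F₁ (Y'.w j)) = yc (mp F₀ (Y.w j)) := by
      rw [Y4p.yc_mp, ← (hσ j hx hy).2]; exact hF₁ ⟨_, hy⟩
    have h0 : mp F₀ (Y.w j) ≠ 0 := xc_ne_zero (hi.transcendental j)
    refine pt_ext (xc_ne_zero ?_) h0 e1 e2
    rw [e1]; exact hi.transcendental j
  let L : IntermediateField ℂ Ω := adjoin ℂ (Set.range F₀ ∪ Set.range F₁ ∪ Set.range G)
  have hL : (Set.range F₀ ∪ Set.range F₁ ∪ Set.range G) ⊆ (L : Set Ω) := subset_adjoin _ _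
  have h0 : Set.range F₀ ⊆ (L : Set Ω) := fun x hx => hL (Or.inl (Or.inl hx))
  have h1 : Set.range F₁ ⊆ (L : Set Ω) := fun x hx => hL (Or.inl (Or.inr hx))
  have h2 : Set.range G ⊆ (L : Set Ω) := fun x hx => hL (Or.inr hx)
  refine ⟨L, inferInstance, inferInstance, cod F₀ L h0, cod F₁ L h1, cod G L h2, fun j => ?_,
    ?_, ?_⟩
  · apply WeierstrassCurve.Affine.Point.map_injective L.val
    have e1 := mp_val_cod F₁ L h1 (Y'.w j)
    have e2 := mp_val_cod F₀ L h0 (Y.w j)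
    exact e1.trans ((hpt j).trans e2.symm)
  · rw [eq_top_iff]
    rintro x -
    have e : L.val ⁻¹' (Set.range F₀ ∪ Set.range F₁ ∪ Set.range G) =
        Set.range (cod F₀ L h0) ∪ Set.range (cod F₁ L h1) ∪ Set.range (cod G L h2) := by
      ext y
      constructor
      · rintro ((⟨z, h⟩ | ⟨z, h⟩) | ⟨z, h⟩)
        · exact Or.inl (Or.inl ⟨z, Subtype.ext h⟩)
        · exact Or.inl (Or.inr ⟨z, Subtype.ext h⟩)
        · exact Or.inr ⟨z, Subtype.ext h⟩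
      · rintro ((⟨z, rfl⟩ | ⟨z, rfl⟩) | ⟨z, rfl⟩)
        · exact Or.inl (Or.inl ⟨z, rfl⟩)
        · exact Or.inl (Or.inr ⟨z, rfl⟩)
        · exact Or.inr ⟨z, rfl⟩
    rw [← e, mem_adjoin_pre L (subset_adjoin _ _)]
    exact x.2
  · have hΩ : Algebra.trdeg ℂ Ω = 6 := by
      have := trdeg_add_eq ℂ J (A := Ω)
      rw [trdeg_eq_zero (R := J) (A := Ω), add_zero, htJ] at this
      exact this.symm
    rw [← hΩ]
    apply tra
    -- `Ω` is algebraic over the image of `J`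
    have hJL : Set.range ι ⊆ (L : Set Ω) := by
      have h3 : (⊤ : IntermediateField ℂ J).map ι ≤ L := by
        rw [← hJ.gen, adjoin_map, adjoin_le_iff]
        rintro _ ⟨y, ⟨z, rfl⟩ | ⟨z, rfl⟩, rfl⟩
        · exact h0 ⟨z, rfl⟩
        · exact h2 ⟨z, rfl⟩
      rintro _ ⟨x, rfl⟩
      exact h3 ⟨x, trivial, rfl⟩
    letI : Algebra J L := (cod ι L hJL).toRingHom.toAlgebra
    haveI : IsScalarTower J L Ω := IsScalarTower.of_algebraMap_eq fun x => rfl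
    exact Algebra.IsAlgebraic.tower_top (K := J) (L := L) (A := Ω)

end Pool.Agent.VM.CONSp
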