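import Pool.Agent.Lib_VM.CONS2_h71
import Pool.Agent.Lib_VM.A_FLIP

/-!
# MP_5582d1_ag, block CONS: assembly
-/

set_option autoImplicit false
set_option linter.style.haveILetI false

namespace Pool.Agent.VM.CONSp

open scoped Classical TensorProduct
open IntermediateField

attribute [-instance] Subtype.instDecidableEq

section
variable {N : Type} [Field N] [Algebra ℂ N] {l : ℂ}

/-- the set of coordinates of `∑ ρᵢ qᵢ - ζ` -/
def U (q : Fin 9 → Pt (E1 l) N) (ζ : Fin 3 → Pt (E1 l) N) : Set N :=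
  ⋃ j, cs (∑ i, V.rho i j • q i - ζ j)

/-- constants do not matter -/
theorem dg_const (S : Set N) (u : Fin 3 → Pt (E1 l) N) (c : Fin 3 → Pt (E1 l) ℂ) :
    dg ℂ (S ∪ ⋃ j, cs (kc (c j) + u j)) = dg ℂ (S ∪ ⋃ j, cs (u j)) := by
  apply dg_congr
  apply le_antisymm
  · rw [adjoin_le_iff]
    refine Set.union_subset (Set.subset_union_left.trans (subset_adjoin _ _))
      (Set.iUnion_subset fun j => ?_)
    exact cs_add_subset (cs_const_subset _ _) (((Set.subset_iUnion (fun j => cs (u j)) j).trans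
      Set.subset_union_right).trans (subset_adjoin _ _))
  · rw [adjoin_le_iff]
    refine Set.union_subset (Set.subset_union_left.trans (subset_adjoin _ _))
      (Set.iUnion_subset fun j => ?_)
    have h1 : cs (kc (c j) + u j) ⊆ (adjoin ℂ (S ∪ ⋃ j, cs (kc (c j) + u j)) : Set N) :=
      ((Set.subset_iUnion (fun j => cs (kc (c j) + u j)) j).trans
        Set.subset_union_right).trans (subset_adjoin _ _)
    have h2 := cs_add_subset (cs_neg_subset (cs_const_subset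
      (adjoin ℂ (S ∪ ⋃ j, cs (kc (c j) + u j))) (c j))) h1
    have e : -mp (Algebra.ofId ℂ N) (c j) + (kc (c j) + u j) = u j := neg_add_cancel_left _ _
    rwa [e] at h2

variable {WM : Type} [Field WM] [Algebra ℂ WM]

/-- one flip -/
theorem flip1 (hl : Transcendental ℚ l) (hfg : (⊤ : IntermediateField ℂ N).FG)
    (hN : Algebra.trdeg ℂ N = 6) {w : Fin 3 → Pt E2 N}
    (hw : AlgebraicIndependent ℂ fun j => xc (w j)) (g : WM →ₐ[ℂ] N)
    (hWM : Algebra.trdeg ℂ WM = 3)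
    (hB : Algebra.IsAlgebraic (adjoin ℂ ((⋃ j, cs (w j)) ∪ Set.range g)) N)
    (hG : Normal (adjoin ℂ ((⋃ j, cs (w j)) ∪ Set.range g)) N)
    (θ : Fin 3 → Pt E2 WM) (ζ : Fin 3 → Pt (E1 l) WM)
    (q q' : Fin 9 → Pt (E1 l) N) (c c' : Fin 9 → Pt E2 ℂ) (al be al' be' : Fin 9 → ℂ)
    (h : Par9 l w q c al be) (h' : Par9 l w q' c' al' be') (i : Fin 9)
    (hqq : ∀ k, k ≠ i → q k = q' k) :
    dg ℂ ((⋃ j, cs (w j - mp g (θ j))) ∪ U q fun j => mp g (ζ j)) =
      dg ℂ ((⋃ j, cs (w j - mp g (θ j))) ∪ U q' fun j => mp g (ζ j)) := by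
  obtain ⟨σ, hσB, hσi, hσk⟩ := (sgn hl h hw g hWM hN hB hG).2 i
  obtain ⟨σ', hσB', hσi', hσk'⟩ := (sgn hl h' hw g hWM hN hB hG).2 i
  let r : Fin 3 → Pt (E1 l) N := fun j =>
    ∑ k ∈ Finset.univ.erase i, V.rho k j • q k - mp g (ζ j)
  have er : r = fun j => ∑ k ∈ Finset.univ.erase i, V.rho k j • q' k - mp g (ζ j) := by
    funext j
    simp only [r]
    congr 1
    exact Finset.sum_congr rfl fun k hk => by rw [hqq k (Finset.ne_of_mem_erase hk)]
  have eU : U q (fun j => mp g (ζ j)) = ⋃ j, cs (V.rho i j • q i + r j) := by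
    unfold U
    congr 1
    funext j
    rw [← Finset.add_sum_erase Finset.univ _ (Finset.mem_univ i), add_sub_assoc]
  have eU' : U q' (fun j => mp g (ζ j)) = ⋃ j, cs (V.rho i j • q' i + r j) := by
    unfold U
    rw [er]
    congr 1
    funext j
    rw [← Finset.add_sum_erase Finset.univ _ (Finset.mem_univ i), add_sub_assoc]
  rw [eU, eU']
  -- points over `B` are fixed
  have fixW : ∀ (τ : N ≃ₐ[ℂ] N) (_ : ∀ x ∈ adjoin ℂ ((⋃ j, cs (w j)) ∪ Set.range g), τ x = x),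
      ∀ x, τ (g x) = g x := fun τ hτ x => hτ _ (subset_adjoin _ _ (Or.inr ⟨x, rfl⟩))
  have fixζ : ∀ (τ : N ≃ₐ[ℂ] N) (_ : ∀ x ∈ adjoin ℂ ((⋃ j, cs (w j)) ∪ Set.range g), τ x = x),
      ∀ j, mp (τ : N →ₐ[ℂ] N) (mp g (ζ j)) = mp g (ζ j) := by
    intro τ hτ j
    have e1 : mp (τ : N →ₐ[ℂ] N) (mp g (ζ j)) = mp ((τ : N →ₐ[ℂ] N).comp g) (ζ j) :=
      WeierstrassCurve.Affine.Point.map_map _ _ _
    have e2 : (τ : N →ₐ[ℂ] N).comp g = g := AlgHom.ext fun x => fixW τ hτ x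
    rw [e1, e2]
  have fixS : ∀ (τ : N ≃ₐ[ℂ] N) (_ : ∀ x ∈ adjoin ℂ ((⋃ j, cs (w j)) ∪ Set.range g), τ x = x),
      ∀ s ∈ ⋃ j, cs (w j - mp g (θ j)), τ s = s := by
    intro τ hτ s hs
    obtain ⟨j, hj⟩ := Set.mem_iUnion.1 hs
    refine hτ s ?_
    have h1 : cs (w j) ⊆ (adjoin ℂ ((⋃ j, cs (w j)) ∪ Set.range g) : Set N) :=
      ((Set.subset_iUnion (fun j => cs (w j)) j).trans Set.subset_union_left).trans
        (subset_adjoin _ _)
    have h2 : cs (mp g (θ j)) ⊆ (adjoin ℂ ((⋃ j, cs (w j)) ∪ Set.range g) : Set N) := by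
      rw [Y4p.cs_mp]
      rintro _ ⟨t, -, rfl⟩
      exact subset_adjoin _ _ (Or.inr ⟨t, rfl⟩)
    have h3 := cs_add_subset h1 (cs_neg_subset h2)
    rw [← sub_eq_add_neg] at h3
    exact h3 hj
  refine FLIP hl hfg hN _ ?_ (V.rho i) (V.rho_primitive i) r (comb (V.ell i) w) (q i) (q' i)
    (c i) (c' i) (al i) (be i) (al' i) (be' i) (h.al0 i) (h'.al0 i) (h.eq i) (h'.eq i)
    (h.q0 i) (h'.q0 i) σ σ' (fixS σ hσB) (fixS σ' hσB') ?_ ?_ hσi hσi'
  · have h1 : Algebra.trdeg ℂ (adjoin ℂ (⋃ j, cs (w j - mp g (θ j)))) ≤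
        Cardinal.mk (Set.range fun j => xc (w j - mp g (θ j))) := by
      apply tr_adjoin_le
      intro t ht
      obtain ⟨j, hj⟩ := Set.mem_iUnion.1 ht
      exact alg_cs (K := ℂ) (Set.range fun j => xc (w j - mp g (θ j))) (w j - mp g (θ j))
        (subset_adjoin _ _ ⟨j, rfl⟩) t hj
    refine h1.trans (Cardinal.mk_range_le.trans ?_)
    simp
  · intro j
    simp only [r, map_sub, map_sum, map_zsmul, fixζ σ hσB]
    congr 1
    exact Finset.sum_congr rfl fun k hk => by rw [hσk k (Finset.ne_of_mem_erase hk)]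
  · intro j
    simp only [er, map_sub, map_sum, map_zsmul, fixζ σ' hσB']
    congr 1
    exact Finset.sum_congr rfl fun k hk => by rw [hσk' k (Finset.ne_of_mem_erase hk)]

/-- all flips -/
theorem flips (hl : Transcendental ℚ l) (hfg : (⊤ : IntermediateField ℂ N).FG)
    (hN : Algebra.trdeg ℂ N = 6) {w : Fin 3 → Pt E2 N}
    (hw : AlgebraicIndependent ℂ fun j => xc (w j)) (g : WM →ₐ[ℂ] N)
    (hWM : Algebra.trdeg ℂ WM = 3)
    (hB : Algebra.IsAlgebraic (adjoin ℂ ((⋃ j, cs (w j)) ∪ Set.range g)) N)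
    (hG : Normal (adjoin ℂ ((⋃ j, cs (w j)) ∪ Set.range g)) N)
    (θ : Fin 3 → Pt E2 WM) (ζ : Fin 3 → Pt (E1 l) WM)
    (q q' : Fin 9 → Pt (E1 l) N) (c c' : Fin 9 → Pt E2 ℂ) (al be al' be' : Fin 9 → ℂ)
    (h : Par9 l w q c al be) (h' : Par9 l w q' c' al' be') :
    dg ℂ ((⋃ j, cs (w j - mp g (θ j))) ∪ U q fun j => mp g (ζ j)) =
      dg ℂ ((⋃ j, cs (w j - mp g (θ j))) ∪ U q' fun j => mp g (ζ j)) := by
  let m : ∀ {X : Type} (_ _ : Fin 9 → X), Finset (Fin 9) → Fin 9 → X :=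
    fun a b I k => if k ∈ I then b k else a k
  have hm : ∀ I, Par9 l w (m q q' I) (m c c' I) (m al al' I) (m be be' I) := by
    intro I
    refine ⟨fun k => ?_, fun k => ?_, fun k => ?_⟩
    · simp only [m]; split_ifs
      · exact h'.al0 k
      · exact h.al0 k
    · simp only [m]; split_ifs
      · exact h'.q0 k
      · exact h.q0 k
    · simp only [m]; split_ifs
      · exact h'.eq k
      · exact h.eq k
  have key : ∀ I : Finset (Fin 9),
      dg ℂ ((⋃ j, cs (w j - mp g (θ j))) ∪ U (m q q' ∅) fun j => mp g (ζ j)) =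
      dg ℂ ((⋃ j, cs (w j - mp g (θ j))) ∪ U (m q q' I) fun j => mp g (ζ j)) := by
    intro I
    induction I using Finset.induction_on with
    | empty => rfl
    | insert i I hi ih =>
      rw [ih]
      refine flip1 hl hfg hN hw g hWM hB hG θ ζ _ _ _ _ _ _ _ _ (hm I) (hm (insert i I)) i ?_
      intro k hk
      simp only [m, Finset.mem_insert, hk, false_or]
  have e0 : m q q' ∅ = q := by funext k; simp [m]
  have e1 : m q q' Finset.univ = q' := by funext k; simp [m]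
  have := key Finset.univ
  rwa [e0, e1] at this

end

end Pool.Agent.VM.CONSp
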