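import Pool.Agent.Lib_VM.CONS3_h71
import Pool.Agent.Lib_VM.A_inter_eq
import Pool.Agent.Lib_VM.A_joint_of_trdeg

/-!
# MP_5582d1_ag, block CONS: the varieties `Y` are numerically equivalent
-/

set_option autoImplicit false
set_option linter.style.haveILetI false

namespace Pool.Agent.VM.CONSp

open scoped Classical TensorProduct
open IntermediateField

attribute [-instance] Subtype.instDecidableEq

section
variable {N : Type} [Field N] [Algebra ℂ N] {l : ℂ}

theorem mp_kc {M : Type} [Field M] [Algebra ℂ M] {R : Type} [CommRing R] [Algebra R ℂ]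
    [Algebra R M] [Algebra R N] [IsScalarTower R ℂ M] [IsScalarTower R ℂ N]
    {W : WeierstrassCurve R} (f : M →ₐ[ℂ] N) (c : Pt W ℂ) : mp f (kc c) = kc c := by
  have e : f.comp (Algebra.ofId ℂ M) = Algebra.ofId ℂ N := Subsingleton.elim _ _
  have e1 : mp f (kc c) = mp (f.comp (Algebra.ofId ℂ M)) c :=
    WeierstrassCurve.Affine.Point.map_map _ _ _
  rw [e1, e]; rfl

/-- coordinates of the difference -/
theorem pt_cs (Y W : SubVar l) (f : Y.M →ₐ[ℂ] N) (g : W.M →ₐ[ℂ] N) :
    (Y.pt.map f - W.pt.map g : XPt l N).cs =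
      (⋃ j, cs (mp f (Y.z j) - mp g (W.z j))) ∪ ⋃ j, cs (mp f (Y.w j) - mp g (W.w j)) := rfl

theorem tower1 (Y W : SubVar l) (f : Y.M →ₐ[ℂ] N) (g : W.M →ₐ[ℂ] N)
    (hN : Algebra.trdeg ℂ N = 6)
    (hB : Algebra.IsAlgebraic (adjoin ℂ (Set.range f ∪ Set.range g)) N) :
    dg ℂ (Y.pt.map f - W.pt.map g : XPt l N).cs =
      Module.finrank (adjoin ℂ (Set.range f ∪ Set.range g)) N * inter Y W := by
  set L := adjoin ℂ (Set.range f ∪ Set.range g) with hL
  have hf : Set.range f ⊆ (L : Set N) := Set.subset_union_left.trans (subset_adjoin _ _)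
  have hg : Set.range g ⊆ (L : Set N) := Set.subset_union_right.trans (subset_adjoin _ _)
  have hJ : Joint (cod f L hf) (cod g L hg) := by
    refine joint_of_trdeg _ _ ?_ 3 3 (by rw [Y.dim3]; rfl) (by rw [W.dim3]; rfl)
      (by rw [tra _ hB, hN]; norm_num)
    rw [eq_top_iff]
    rintro x -
    have e : L.val ⁻¹' (Set.range f ∪ Set.range g) =
        Set.range (cod f L hf) ∪ Set.range (cod g L hg) := by
      ext y
      constructor
      · rintro (⟨z, h⟩ | ⟨z, h⟩)
        · exact Or.inl ⟨z, Subtype.ext h⟩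
        · exact Or.inr ⟨z, Subtype.ext h⟩
      · rintro (⟨z, rfl⟩ | ⟨z, rfl⟩)
        · exact Or.inl ⟨z, rfl⟩
        · exact Or.inr ⟨z, rfl⟩
    rw [← e, mem_adjoin_pre L (subset_adjoin _ _)]
    exact x.2
  have himg : (Y.pt.map f - W.pt.map g : XPt l N).cs =
      L.val '' (Y.pt.map (cod f L hf) - W.pt.map (cod g L hg) : XPt l L).cs := by
    rw [pt_cs, pt_cs, Set.image_union, Set.image_iUnion, Set.image_iUnion]
    congr 1
    · congr 1
      funext j
      rw [← Y4p.cs_mp, map_sub]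
      have e1 := mp_val_cod f L hf (Y.z j)
      have e2 := mp_val_cod g L hg (W.z j)
      rw [e1, e2]
    · congr 1
      funext j
      rw [← Y4p.cs_mp, map_sub]
      have e1 := mp_val_cod f L hf (Y.w j)
      have e2 := mp_val_cod g L hg (W.w j)
      rw [e1, e2]
  have hsub : (Y.pt.map f - W.pt.map g : XPt l N).cs ⊆ (L : Set N) := by
    rw [himg]; rintro _ ⟨y, -, rfl⟩; exact y.2
  rw [dg_pre L hsub, inter_eq Y W _ _ hJ, himg,
    Set.preimage_image_eq _ (f := L.val) L.val.injective]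

theorem tower2 {Y W : SubVar l} (f : Y.M →ₐ[ℂ] N) (g : W.M →ₐ[ℂ] N) (P : Fin 9 → Pt (E1 l) Y.M)
    (c : Fin 9 → Pt E2 ℂ) (al be : Fin 9 → ℂ)
    (h : Par9 l (fun j => mp f (Y.w j)) (fun i => mp f (P i)) c al be)
    (hgen : adjoin ℂ ((⋃ i, cs (P i)) ∪ ⋃ j, cs (Y.w j)) = ⊤) :
    adjoin ℂ (Set.range f ∪ Set.range g) =
      adjoin ℂ (((⋃ j, cs (mp f (Y.w j))) ∪ Set.range g) ∪
        Set.range fun i => yc (mp f (P i))) := by
  apply le_antisymm
  · rw [adjoin_le_iff]
    refine Set.union_subset ?_ ?_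
    · have h1 : (⊤ : IntermediateField ℂ Y.M).map f ≤
          adjoin ℂ (((⋃ j, cs (mp f (Y.w j))) ∪ Set.range g) ∪
            Set.range fun i => yc (mp f (P i))) := by
        rw [← hgen, adjoin_map, adjoin_le_iff, Set.image_union, Set.image_iUnion,
          Set.image_iUnion]
        refine Set.union_subset (Set.iUnion_subset fun i => ?_) (Set.iUnion_subset fun j => ?_)
        · rw [← Y4p.cs_mp]
          rintro x (hx | hx)
          · rw [hx]
            have := h.xc_mem i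
            exact adjoin.mono _ _ _
              (Set.subset_union_left.trans Set.subset_union_left) this
          · rw [Set.mem_singleton_iff] at hx
            rw [hx]
            exact subset_adjoin _ _ (Or.inr ⟨i, rfl⟩)
        · rw [← Y4p.cs_mp]
          exact (((Set.subset_iUnion (fun j => cs (mp f (Y.w j))) j).trans
            Set.subset_union_left).trans Set.subset_union_left).trans (subset_adjoin _ _)
      rintro _ ⟨x, rfl⟩
      exact h1 ⟨x, trivial, rfl⟩
    · exact (Set.subset_union_right.trans Set.subset_union_left).trans (subset_adjoin _ _)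
  · rw [adjoin_le_iff]
    refine Set.union_subset (Set.union_subset (Set.iUnion_subset fun j => ?_) ?_) ?_
    · rw [Y4p.cs_mp]
      rintro _ ⟨x, -, rfl⟩
      exact subset_adjoin _ _ (Or.inl ⟨x, rfl⟩)
    · exact Set.subset_union_right.trans (subset_adjoin _ _)
    · rintro _ ⟨i, rfl⟩
      refine subset_adjoin _ _ (Or.inl ⟨yc (P i), ?_⟩)
      exact (Y4p.yc_mp f (P i)).symm

/-- `[N : B] = 2⁹ [N : Y.M W.M]` -/
theorem tower3 {Y W : SubVar l} (f : Y.M →ₐ[ℂ] N) (g : W.M →ₐ[ℂ] N) (P : Fin 9 → Pt (E1 l) Y.M)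
    (c : Fin 9 → Pt E2 ℂ) (al be : Fin 9 → ℂ)
    (h : Par9 l (fun j => mp f (Y.w j)) (fun i => mp f (P i)) c al be)
    (hgen : adjoin ℂ ((⋃ i, cs (P i)) ∪ ⋃ j, cs (Y.w j)) = ⊤)
    (hd : Module.finrank (adjoin ℂ ((⋃ j, cs (mp f (Y.w j))) ∪ Set.range g))
      (adjoin (adjoin ℂ ((⋃ j, cs (mp f (Y.w j))) ∪ Set.range g))
        (Set.range fun i => yc (mp f (P i)))) = 2 ^ 9) :
    Module.finrank (adjoin ℂ ((⋃ j, cs (mp f (Y.w j))) ∪ Set.range g)) N =
      2 ^ 9 * Module.finrank (adjoin ℂ (Set.range f ∪ Set.range g)) N := by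
  have h1 := Module.finrank_mul_finrank (adjoin ℂ ((⋃ j, cs (mp f (Y.w j))) ∪ Set.range g))
    (adjoin (adjoin ℂ ((⋃ j, cs (mp f (Y.w j))) ∪ Set.range g))
        (Set.range fun i => yc (mp f (P i)))) N
  rw [hd] at h1
  have e := adjoin_adjoin_left ℂ ((⋃ j, cs (mp f (Y.w j))) ∪ Set.range g)
    (Set.range fun i => yc (mp f (P i)))
  rw [← h1, tower2 f g P c al be h hgen, ← e]
  rfl

end

/-- a function field is finitely generated -/
theorem fg3 {N : Type} [Field N] [Algebra ℂ N] {l : ℂ} (Y Y' W : SubVar l) (f₀ : Y.M →ₐ[ℂ] N)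
    (f₁ : Y'.M →ₐ[ℂ] N) (g : W.M →ₐ[ℂ] N)
    (hgen : adjoin ℂ (Set.range f₀ ∪ Set.range f₁ ∪ Set.range g) = ⊤) :
    (⊤ : IntermediateField ℂ N).FG := by
  have hfin : ∀ Z : SubVar l, ((⋃ i, cs (Z.z i)) ∪ ⋃ i, cs (Z.w i)).Finite := by
    intro Z
    refine Set.Finite.union (Set.finite_iUnion fun i => ?_) (Set.finite_iUnion fun i => ?_)
    · exact Set.toFinite ({xc _, yc _} : Set _)
    · exact Set.toFinite ({xc _, yc _} : Set _)
  rw [fg_def]
  refine ⟨f₀ '' ((⋃ i, cs (Y.z i)) ∪ ⋃ i, cs (Y.w i)) ∪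
    f₁ '' ((⋃ i, cs (Y'.z i)) ∪ ⋃ i, cs (Y'.w i)) ∪
    g '' ((⋃ i, cs (W.z i)) ∪ ⋃ i, cs (W.w i)), ?_, ?_⟩
  · exact (((hfin Y).image _).union ((hfin Y').image _)).union ((hfin W).image _)
  · rw [eq_top_iff, ← hgen, adjoin_le_iff]
    have key : ∀ (Z : SubVar l) (f : Z.M →ₐ[ℂ] N) (T : Set N)
        (_ : f '' ((⋃ i, cs (Z.z i)) ∪ ⋃ i, cs (Z.w i)) ⊆ T),
        Set.range f ⊆ (adjoin ℂ T : Set N) := by
      intro Z f T hT
      have h1 : (⊤ : IntermediateField ℂ Z.M).map f ≤ adjoin ℂ T := by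
        rw [← Z.gen, adjoin_map]
        exact adjoin.mono _ _ _ hT
      rintro _ ⟨x, rfl⟩
      exact h1 ⟨x, trivial, rfl⟩
    refine Set.union_subset (Set.union_subset (key Y f₀ _ ?_) (key Y' f₁ _ ?_)) (key W g _ ?_)
    · exact fun x hx => Or.inl (Or.inl hx)
    · exact fun x hx => Or.inl (Or.inr hx)
    · exact fun x hx => Or.inr hx

/-- CONS: the varieties `Y` are numerically equivalent -/
theorem CONS {l : ℂ} (hl : Transcendental ℚ l) (Y Y' W : SubVar l) (hY : IsY Y) (hY' : IsY Y') :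
    inter Y W = inter Y' W := by
  obtain ⟨P, c, al, be, zc, hal, hP0, hP, hz, hw, hgen, hd⟩ := hY
  obtain ⟨P', c', al', be', zc', hal', hP0', hP', hz', hw', hgen', hd'⟩ := hY'
  obtain ⟨N, _, _, f₀, f₁, g, hff, htop, hN⟩ := env Y Y' W hw hw' (by rw [hd']; norm_num)
  have hinj : ∀ {M : Type} [Field M] [Algebra ℂ M] (f : M →ₐ[ℂ] N) (Q : Pt (E1 l) M), Q ≠ 0 →
      mp f Q ≠ 0 := by
    intro M _ _ f Q hQ h
    apply hQ
    have h3 : mp f Q = mp f 0 := by rw [h, map_zero]
    exact WeierstrassCurve.Affine.Point.map_injective _ h3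
  have hcomb : ∀ {M : Type} [Field M] [Algebra ℂ M] (f : M →ₐ[ℂ] N) (a : Fin 3 → ℤ)
      (u : Fin 3 → Pt E2 M), mp f (comb a u) = comb a fun j => mp f (u j) := by
    intro M _ _ f a u
    unfold comb
    rw [map_sum]
    exact Finset.sum_congr rfl fun j _ => map_zsmul _ _ _
  let w : Fin 3 → Pt E2 N := fun j => mp f₀ (Y.w j)
  let q : Fin 9 → Pt (E1 l) N := fun i => mp f₀ (P i)
  let q' : Fin 9 → Pt (E1 l) N := fun i => mp f₁ (P' i)
  have hww : (fun j => mp f₁ (Y'.w j)) = w := funext hff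
  have hpar : Par9 l w q c al be := by
    refine ⟨hal, fun i => hinj _ _ (hP0 i), fun i => ?_⟩
    simp only [q, w]
    rw [Y4p.xc_mp, hP i, map_add, map_mul, AlgHom.commutes, AlgHom.commutes, ← Y4p.xc_mp, map_add,
      hcomb, mp_kc]
  have hpar' : Par9 l w q' c' al' be' := by
    refine ⟨hal', fun i => hinj _ _ (hP0' i), fun i => ?_⟩
    simp only [q']
    rw [Y4p.xc_mp, hP' i, map_add, map_mul, AlgHom.commutes, AlgHom.commutes, ← Y4p.xc_mp, map_add,
      hcomb, mp_kc, hww]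
  have hwi : AlgebraicIndependent ℂ fun j => xc (w j) := by
    have h1 := hw.map' f₀.injective
    have h2 : (⇑f₀ ∘ fun j => xc (Y.w j)) = fun j => xc (w j) := by
      funext j; simp only [w]; rw [Y4p.xc_mp]; rfl
    rwa [h2] at h1
  -- `N` is a Galois extension of `B`
  set B := adjoin ℂ ((⋃ j, cs (w j)) ∪ Set.range g) with hBdef
  have hle : adjoin ℂ (⋃ j, cs (w j)) ≤ B := adjoin.mono _ _ _ Set.subset_union_left
  let r : Fin (9 + 9) → N := Fin.append (fun i => yc (q i)) (fun i => yc (q' i))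
  have hr : ∀ i, r i ^ 2 ∈ B := by
    intro i
    refine Fin.addCases (fun i => ?_) (fun i => ?_) i
    · simp only [r, Fin.append_left]; exact hle (hpar.sq_mem i)
    · simp only [r, Fin.append_right]; exact hle (hpar'.sq_mem i)
  have hrr : adjoin B (Set.range r) = ⊤ := by
    apply restrictScalars_injective (K := ℂ)
    rw [restrictScalars_top, hBdef, adjoin_adjoin_left, eq_top_iff, ← htop, adjoin_le_iff]
    have h0 := tower2 f₀ g P c al be hpar hgen
    have h1 := tower2 f₁ g P' c' al' be' (by rw [hww]; exact hpar') hgen'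
    simp only [hff] at h1
    refine Set.union_subset (Set.union_subset ?_ ?_) ?_
    · refine (Set.subset_union_left (t := Set.range g)).trans ((subset_adjoin ℂ _).trans ?_)
      rw [h0]
      refine adjoin.mono _ _ _ (Set.union_subset_union_right _ ?_)
      rintro _ ⟨i, rfl⟩
      exact ⟨Fin.castAdd 9 i, by simp only [r, Fin.append_left, q]⟩
    · refine (Set.subset_union_left (t := Set.range g)).trans ((subset_adjoin ℂ _).trans ?_)
      rw [h1]
      refine adjoin.mono _ _ _ (Set.union_subset_union_right _ ?_)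
      rintro _ ⟨i, rfl⟩
      exact ⟨Fin.natAdd 9 i, by simp only [r, Fin.append_right, q']⟩
    · exact (Set.subset_union_right.trans Set.subset_union_left).trans (subset_adjoin _ _)
  obtain ⟨hgal, hfin⟩ := IV.mq_isGalois (K := B) (Ω := N) r (fun i => ⟨r i ^ 2, hr i⟩)
    (fun i => rfl)
  rw [hrr] at hgal hfin
  haveI hgalN : IsGalois B N := IsGalois.of_algEquiv (topEquiv (F := B) (E := N))
  haveI hfinN : FiniteDimensional B N :=
    Module.Finite.equiv (topEquiv (F := B) (E := N)).toLinearEquiv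
  have hBalg : Algebra.IsAlgebraic B N := inferInstance
  have hnor : Normal B N := inferInstance
  have hWM : Algebra.trdeg ℂ W.M = 3 := W.dim3
  -- the flips
  have hD := flips hl (fg3 Y Y' W f₀ f₁ g htop) hN hwi g hWM hBalg hnor W.w W.z q q' c c'
    al be al' be' hpar hpar'
  -- degrees
  have hle0 : B ≤ adjoin ℂ (Set.range f₀ ∪ Set.range g) := by
    rw [adjoin_le_iff]
    refine Set.union_subset (Set.iUnion_subset fun j => ?_)
      (Set.subset_union_right.trans (subset_adjoin _ _))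
    simp only [w]
    rw [Y4p.cs_mp]
    rintro _ ⟨x, -, rfl⟩
    exact subset_adjoin _ _ (Or.inl ⟨x, rfl⟩)
  have hle1 : B ≤ adjoin ℂ (Set.range f₁ ∪ Set.range g) := by
    rw [adjoin_le_iff]
    refine Set.union_subset (Set.iUnion_subset fun j => ?_)
      (Set.subset_union_right.trans (subset_adjoin _ _))
    simp only [w]
    rw [← hff, Y4p.cs_mp]
    rintro _ ⟨x, -, rfl⟩
    exact subset_adjoin _ _ (Or.inl ⟨x, rfl⟩)
  have halg : ∀ L : IntermediateField ℂ N, B ≤ L → Algebra.IsAlgebraic L N := by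
    intro L hL
    refine ⟨fun x => ?_⟩
    exact (hBalg.isAlgebraic x).tower_top_of_subalgebra_le (A := B.toSubalgebra)
      (B := L.toSubalgebra) hL
  have hT0 := tower1 Y W f₀ g hN (halg _ hle0)
  have hT1 := tower1 Y' W f₁ g hN (halg _ hle1)
  have hd0 := tower3 f₀ g P c al be hpar hgen (sgn hl hpar hwi g hWM hN hBalg hnor).1
  have hU : (⋃ j, cs (mp f₁ (Y'.w j))) = ⋃ j, cs (w j) := by simp only [hff, w]
  have hd1 := tower3 f₁ g P' c' al' be' (by rw [hww]; exact hpar') hgen' (by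
    rw [hU]; exact (sgn hl hpar' hwi g hWM hN hBalg hnor).1)
  rw [hU] at hd1
  have e0 : dg ℂ (Y.pt.map f₀ - W.pt.map g : XPt l N).cs =
      dg ℂ ((⋃ j, cs (w j - mp g (W.w j))) ∪ U q fun j => mp g (W.z j)) := by
    rw [pt_cs, Set.union_comm]
    have e : ∀ j, mp f₀ (Y.z j) - mp g (W.z j) =
        kc (zc j) + (∑ i, V.rho i j • q i - mp g (W.z j)) := by
      intro j
      rw [hz j, map_add, mp_kc, map_sum, add_sub_assoc]
      congr 2
      exact Finset.sum_congr rfl fun i _ => map_zsmul _ _ _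
    simp only [e]
    exact dg_const _ _ _
  have e1 : dg ℂ (Y'.pt.map f₁ - W.pt.map g : XPt l N).cs =
      dg ℂ ((⋃ j, cs (w j - mp g (W.w j))) ∪ U q' fun j => mp g (W.z j)) := by
    rw [pt_cs, Set.union_comm]
    have e : ∀ j, mp f₁ (Y'.z j) - mp g (W.z j) =
        kc (zc' j) + (∑ i, V.rho i j • q' i - mp g (W.z j)) := by
      intro j
      rw [hz' j, map_add, mp_kc, map_sum, add_sub_assoc]
      congr 2
      exact Finset.sum_congr rfl fun i _ => map_zsmul _ _ _
    simp only [e, hff]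
    exact dg_const _ _ _
  rw [e0] at hT0
  rw [e1, ← hD, hT0] at hT1
  have hfr : Module.finrank (adjoin ℂ (Set.range f₀ ∪ Set.range g)) N =
      Module.finrank (adjoin ℂ (Set.range f₁ ∪ Set.range g)) N := by
    have : (2 : ℕ) ^ 9 * Module.finrank (adjoin ℂ (Set.range f₀ ∪ Set.range g)) N =
        2 ^ 9 * Module.finrank (adjoin ℂ (Set.range f₁ ∪ Set.range g)) N := by
      rw [← hd0, ← hd1]
    exact Nat.eq_of_mul_eq_mul_left (by norm_num) this
  rw [hfr] at hT1
  have hpos : 0 < Module.finrank (adjoin ℂ (Set.range f₁ ∪ Set.range g)) N := by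
    have h1 : 0 < Module.finrank B N := Module.finrank_pos
    have h2 : Module.finrank B N = 2 ^ 9 *
      Module.finrank (adjoin ℂ (Set.range f₁ ∪ Set.range g)) N := hd1
    omega
  exact Nat.eq_of_mul_eq_mul_left hpos hT1

end Pool.Agent.VM.CONSp
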