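import Mathlib

/-!
MP_5582d1_ag, part IV2: multiquadratic extensions.
-/

set_option autoImplicit false

namespace Pool.Agent.VM.IV

open Polynomial

section mq

variable {K Ω : Type*} [Field K] [Field Ω] [Algebra K Ω] [CharZero K] {n : ℕ}

/-- the field generated by the `r i` is Galois -/
theorem mq_isGalois (r : Fin n → Ω) (F : Fin n → K) (hr : ∀ i, r i ^ 2 = algebraMap K Ω (F i)) :
    IsGalois K (IntermediateField.adjoin K (Set.range r)) ∧
    FiniteDimensional K (IntermediateField.adjoin K (Set.range r)) := by
  classical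
  set p : K[X] := ∏ i, (X ^ 2 - C (F i)) with hp
  have hp0 : p ≠ 0 := by
    rw [hp, Finset.prod_ne_zero_iff]
    intro i _
    exact X_pow_sub_C_ne_zero (by norm_num) _
  have hfac : ∀ i, (X ^ 2 - C (F i) : K[X]).map (algebraMap K Ω) =
      (X - C (r i)) * (X - C (- r i)) := by
    intro i
    simp only [Polynomial.map_sub, Polynomial.map_pow, map_X, map_C, ← hr, map_neg, map_pow]
    ring
  have hsp : (p.map (algebraMap K Ω)).Splits := by
    rw [hp, Polynomial.map_prod]
    refine Splits.prod fun i _ => ?_
    rw [hfac]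
    exact (Splits.X_sub_C _).mul (Splits.X_sub_C _)
  have hroot : p.rootSet Ω = Set.range r ∪ Set.range (fun i => - r i) := by
    ext x
    rw [mem_rootSet_of_ne hp0, hp, map_prod, Finset.prod_eq_zero_iff]
    have h1 : ∀ i, aeval x (X ^ 2 - C (F i) : K[X]) = (x - r i) * (x + r i) := by
      intro i
      simp only [map_sub, map_pow, aeval_X, aeval_C, ← hr]
      ring
    constructor
    · rintro ⟨i, -, hi⟩
      rw [h1, mul_eq_zero] at hi
      rcases hi with hi | hi
      · exact Or.inl ⟨i, (sub_eq_zero.1 hi).symm⟩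
      · exact Or.inr ⟨i, (eq_neg_of_add_eq_zero_left hi).symm⟩
    · rintro (⟨i, rfl⟩ | ⟨i, rfl⟩)
      · exact ⟨i, Finset.mem_univ _, by rw [h1]; ring⟩
      · exact ⟨i, Finset.mem_univ _, by rw [h1]; ring⟩
  have hadj : IntermediateField.adjoin K (Set.range r) =
      IntermediateField.adjoin K (p.rootSet Ω) := by
    refine le_antisymm (IntermediateField.adjoin.mono _ _ _ ?_) ?_
    · rw [hroot]
      exact Set.subset_union_left
    · rw [IntermediateField.adjoin_le_iff, hroot]
      rintro x (⟨i, rfl⟩ | ⟨i, rfl⟩)
      · exact IntermediateField.subset_adjoin _ _ ⟨i, rfl⟩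
      · exact neg_mem (IntermediateField.subset_adjoin _ _ ⟨i, rfl⟩)
  rw [hadj]
  have hsf := IntermediateField.adjoin_rootSet_isSplittingField hsp
  have hfin : FiniteDimensional K (IntermediateField.adjoin K (p.rootSet Ω)) :=
    IsSplittingField.finiteDimensional _ p
  have hnor : Normal K (IntermediateField.adjoin K (p.rootSet Ω)) :=
    Normal.of_isSplittingField p
  exact ⟨⟨⟩, hfin⟩

/-- if no nonempty product of the `F i` is a square, then all sign changes are automorphisms and
the degree is `2 ^ n` -/
theorem mq_main (r : Fin n → Ω) (F : Fin n → K) (hr : ∀ i, r i ^ 2 = algebraMap K Ω (F i))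
    (hns : ∀ I : Finset (Fin n), I.Nonempty → ¬ IsSquare (∏ i ∈ I, F i)) :
    Module.finrank K (IntermediateField.adjoin K (Set.range r)) = 2 ^ n ∧
    ∀ I : Finset (Fin n), ∃ σ : (IntermediateField.adjoin K (Set.range r)) ≃ₐ[K]
      (IntermediateField.adjoin K (Set.range r)),
      ∀ i, ((σ ⟨r i, IntermediateField.subset_adjoin _ _ ⟨i, rfl⟩⟩ :
        IntermediateField.adjoin K (Set.range r)) : Ω) = if i ∈ I then - r i else r i := by
  classical
  obtain ⟨hgal, hfin⟩ := mq_isGalois r F hr
  set M := IntermediateField.adjoin K (Set.range r) with hM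
  let s : Fin n → M := fun i => ⟨r i, IntermediateField.subset_adjoin _ _ ⟨i, rfl⟩⟩
  have hs : ∀ i, s i ^ 2 = algebraMap K M (F i) := by
    intro i
    apply Subtype.ext
    exact hr i
  have hr0 : ∀ i, s i ≠ 0 := by
    intro i h0
    have h1 := hs i
    rw [h0, zero_pow (by norm_num)] at h1
    have h2 : F i = 0 := by
      have := h1.symm
      rwa [map_eq_zero] at this
    refine hns {i} (Finset.singleton_nonempty i) ?_
    rw [Finset.prod_singleton, h2]
    exact ⟨0, by simp⟩
  have hsig : ∀ (σ : M ≃ₐ[K] M) i, σ (s i) = s i ∨ σ (s i) = - s i := by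
    intro σ i
    have h1 : σ (s i) ^ 2 = s i ^ 2 := by
      rw [← map_pow, hs, AlgEquiv.commutes]
    exact sq_eq_sq_iff_eq_or_eq_neg.1 h1
  -- the sign vector
  let e : (M ≃ₐ[K] M) → (Fin n → ZMod 2) := fun σ i => if σ (s i) = s i then 0 else 1
  have hne : ∀ i, s i ≠ - s i := by
    intro i h
    have h2 : (2 : M) * s i = 0 := by
      rw [two_mul]
      nth_rewrite 1 [h]
      exact neg_add_cancel _
    have : CharZero M := charZero_of_injective_algebraMap (algebraMap K M).injective
    rcases mul_eq_zero.1 h2 with h3 | h3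
    · exact two_ne_zero h3
    · exact hr0 i h3
  have he : ∀ σ i, σ (s i) = if e σ i = 0 then s i else - s i := by
    intro σ i
    by_cases h : σ (s i) = s i
    · simp [e, h]
    · rcases hsig σ i with h1 | h1
      · exact absurd h1 h
      · simp only [e, h, if_false, one_ne_zero]
        exact h1
  have hone : ∀ σ : M ≃ₐ[K] M, e σ = e σ := fun _ => rfl
  have hmul : ∀ σ τ, e (σ * τ) = e σ + e τ := by
    intro σ τ
    funext i
    simp only [Pi.add_apply]
    have h1 : (σ * τ) (s i) = σ (τ (s i)) := rfl
    rcases hsig τ i with hτ | hτ <;> rcases hsig σ i with hσ | hσ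
    · simp [e, h1, hτ, hσ]
    · simp only [e, h1, hτ, hσ]
      simp [(hne i).symm]
    · simp only [e, h1, hτ, map_neg, hσ]
      simp [(hne i).symm]
    · simp only [e, h1, hτ, map_neg, hσ, neg_neg]
      simp only [(hne i).symm, if_false, if_true]
      decide
  have hinj : Function.Injective e := by
    intro σ τ h
    have h1 : ∀ i, σ (s i) = τ (s i) := fun i => by rw [he, he, h]
    have h2 : (σ : M →ₐ[K] M) = (τ : M →ₐ[K] M) := by
      exact IntermediateField.algHom_ext_of_eq_adjoin K hM (by
        rintro _ ⟨i, rfl⟩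
        exact h1 i)
    exact AlgEquiv.coe_toAlgHom_injective h2
  let H : AddSubgroup (Fin n → ZMod 2) :=
    { carrier := Set.range e
      add_mem' := by
        rintro _ _ ⟨σ, rfl⟩ ⟨τ, rfl⟩
        exact ⟨σ * τ, hmul σ τ⟩
      zero_mem' := ⟨1, by
        funext i
        simp [e]⟩
      neg_mem' := by
        rintro _ ⟨σ, rfl⟩
        refine ⟨σ, ?_⟩
        funext i
        simp only [Pi.neg_apply]
        exact (ZMod.neg_eq_self_mod_two _).symm }
  have hH : AddSubgroup.toZModSubmodule 2 H = ⊤ := by
    by_contra hne'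
    obtain ⟨f, hf0, hf⟩ := Submodule.exists_le_ker_of_lt_top _ (lt_top_iff_ne_top.2 hne')
    let I : Finset (Fin n) := Finset.univ.filter fun i => f (Pi.single i 1) ≠ 0
    have hfI : ∀ x : Fin n → ZMod 2, f x = ∑ i ∈ I, x i := by
      intro x
      have h1 : x = ∑ i, x i • (Pi.single i (1 : ZMod 2) : Fin n → ZMod 2) := by
        funext j
        simp [Finset.sum_apply, Pi.single_apply]
      conv_lhs => rw [h1]
      rw [map_sum, ← Finset.sum_subset (Finset.subset_univ I)]
      · refine Finset.sum_congr rfl fun i hi => ?_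
        rw [map_smul, smul_eq_mul]
        have h2 : f (Pi.single i 1) = 1 := by
          have h3 : f (Pi.single i 1) ≠ 0 := (Finset.mem_filter.1 hi).2
          revert h3
          generalize f (Pi.single i 1) = y
          revert y
          decide
        rw [h2, mul_one]
      · intro i _ hi
        have h3 : f (Pi.single i 1) = 0 := by
          by_contra h4
          exact hi (Finset.mem_filter.2 ⟨Finset.mem_univ _, h4⟩)
        rw [map_smul, h3, smul_zero]
    have hI : I.Nonempty := by
      rw [Finset.nonempty_iff_ne_empty]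
      intro h0
      apply hf0
      apply LinearMap.ext
      intro x
      rw [hfI x, h0]
      simp
    have hfix : ∀ σ : M ≃ₐ[K] M, σ (∏ i ∈ I, s i) = ∏ i ∈ I, s i := by
      intro σ
      have h1 : ∑ i ∈ I, e σ i = 0 := by
        rw [← hfI]
        exact hf (show e σ ∈ AddSubgroup.toZModSubmodule 2 H from ⟨σ, rfl⟩)
      have h2 : ∀ J : Finset (Fin n), σ (∏ i ∈ J, s i) =
          if ∑ i ∈ J, e σ i = 0 then ∏ i ∈ J, s i else - ∏ i ∈ J, s i := by
        intro J
        induction J using Finset.induction_on with
        | empty => simp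
        | insert a J ha ih =>
          rw [Finset.prod_insert ha, map_mul, ih, he, Finset.sum_insert ha]
          generalize e σ a = u
          generalize ∑ i ∈ J, e σ i = v
          have hu : u = 0 ∨ u = 1 := by
            revert u
            decide
          have hv : v = 0 ∨ v = 1 := by
            revert v
            decide
          have h11 : (1 : ZMod 2) + 1 = 0 := by decide
          rcases hu with rfl | rfl <;> rcases hv with rfl | rfl <;> simp [h11]
      rw [h2, if_pos h1]
    have hbot : (∏ i ∈ I, s i) ∈ (⊥ : IntermediateField K M) :=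
      (IsGalois.mem_bot_iff_fixed _).2 hfix
    obtain ⟨c, hc⟩ := IntermediateField.mem_bot.1 hbot
    refine hns I hI ⟨c, ?_⟩
    apply (algebraMap K M).injective
    rw [map_prod, map_mul, hc, ← Finset.prod_mul_distrib]
    refine Finset.prod_congr rfl fun i _ => ?_
    rw [← hs, sq]
  have hsurj : Function.Surjective e := by
    intro x
    have hx : x ∈ AddSubgroup.toZModSubmodule 2 H := by
      rw [hH]
      trivial
    exact hx
  refine ⟨?_, ?_⟩
  · rw [← IsGalois.card_aut_eq_finrank, Nat.card_congr (Equiv.ofBijective e ⟨hinj, hsurj⟩)]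
    simp [Nat.card_eq_fintype_card]
  · intro I
    obtain ⟨σ, hσ⟩ := hsurj fun i => if i ∈ I then 1 else 0
    refine ⟨σ, fun i => ?_⟩
    have h1 : σ (s i) = if e σ i = 0 then s i else - s i := he σ i
    rw [hσ] at h1
    have h2 : ((σ (s i) : M) : Ω) = if i ∈ I then - r i else r i := by
      rw [h1]
      by_cases hi : i ∈ I
      · simp [hi, s]
      · simp [hi, s]
    exact h2

end mq

end Pool.Agent.VM.IV
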