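import Pool.Agent.Lib_VM.Sub_h71

/-!
# MP_5582d1_ag: transcendence degrees of generated subfields, points of `y² = x³ + a x² + b`
-/

set_option autoImplicit false
set_option linter.style.haveILetI false

namespace Pool.Agent.VM

open scoped Classical TensorProduct
open IntermediateField

attribute [-instance] Subtype.instDecidableEq

section
variable {P N : Type} [Field P] [Field N] [Algebra P N]

/-- algebraic extensions of subfields -/
theorem tra' {K L : IntermediateField P N} (hle : K ≤ L) (h : ∀ x ∈ L, IsAlgebraic K x) :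
    Algebra.trdeg P K = Algebra.trdeg P L := by
  let E : IntermediateField K N := extendScalars hle
  have h1 : Algebra.IsAlgebraic K E := by
    refine ⟨fun x => ?_⟩
    have h2 : IsAlgebraic K (x : N) := h x.1 x.2
    exact (isAlgebraic_algebraMap_iff (R := K) (S := E) (A := N) (algebraMap E N).injective).1 h2
  have h2 : Algebra.trdeg P K + Algebra.trdeg K E = Algebra.trdeg P E := trdeg_add_eq P K (A := E)
  have h3 : Algebra.trdeg P E = Algebra.trdeg P L := rfl
  rw [trdeg_eq_zero (R := K) (A := E), add_zero] at h2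
  rw [h2, h3]

/-- all elements of `P(A)` are algebraic over `K` if those of `A` are so -/
theorem alg_adjoin (K : IntermediateField P N) (A : Set N) (h : ∀ a ∈ A, IsAlgebraic K a) :
    ∀ x ∈ adjoin P A, IsAlgebraic K x := by
  intro x hx
  have h1 : adjoin P A ≤ (algebraicClosure K N).restrictScalars P := by
    rw [adjoin_le_iff]
    intro a ha
    exact mem_algebraicClosure_iff.2 (h a ha)
  exact mem_algebraicClosure_iff.1 (h1 hx)

theorem tr_adjoin_self (X : Set N) : Algebra.trdeg P (adjoin P X) ≤ Cardinal.mk X := by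
  let L := adjoin P X
  have h1 : adjoin P (L.val ⁻¹' X) = ⊤ := by
    rw [eq_top_iff]
    rintro x -
    rw [mem_adjoin_pre L (subset_adjoin _ _)]
    exact x.2
  have h2 : Algebra.IsAlgebraic (adjoin P (L.val ⁻¹' X)) L := by
    refine ⟨fun x => ?_⟩
    have hx : x ∈ adjoin P (L.val ⁻¹' X) := by rw [h1]; trivial
    exact isAlgebraic_algebraMap (R := adjoin P (L.val ⁻¹' X)) (A := L) ⟨x, hx⟩
  refine (tr_le_of_alg _ h2).trans ?_
  exact Cardinal.mk_preimage_of_injective _ _ Subtype.val_injective

/-- `P(A)` has transcendence degree at most `#X` if `A` is algebraic over `P(X)` -/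
theorem tr_adjoin_le (X A : Set N) (h : ∀ a ∈ A, IsAlgebraic (adjoin P X) a) :
    Algebra.trdeg P (adjoin P A) ≤ Cardinal.mk X := by
  have hle : adjoin P X ≤ adjoin P (X ∪ A) := adjoin.mono _ _ _ Set.subset_union_left
  have h1 : Algebra.trdeg P (adjoin P X) = Algebra.trdeg P (adjoin P (X ∪ A)) := by
    apply tra' hle
    apply alg_adjoin
    rintro a (ha | ha)
    · exact isAlgebraic_algebraMap (R := adjoin P X) (A := N) ⟨a, subset_adjoin _ _ ha⟩
    · exact h a ha
  have h2 : Algebra.trdeg P (adjoin P A) ≤ Algebra.trdeg P (adjoin P (X ∪ A)) :=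
    trdeg_le_of_injective (inclusion (adjoin.mono _ _ _ Set.subset_union_right))
      (inclusion_injective _)
  rw [← h1] at h2
  exact h2.trans (tr_adjoin_self X)

end

section pts

variable {R : Type*} [CommRing R] {a b : R} {F : Type*} [Field F] [Algebra R F]

theorem pt_sq {Q : Pt (SW a b) F} (hQ : Q ≠ 0) :
    yc Q ^ 2 = xc Q ^ 3 + algebraMap R F a * xc Q ^ 2 + algebraMap R F b := by
  cases Q with
  | zero => exact absurd rfl hQ
  | some x y h =>
    have h1 := (WeierstrassCurve.Affine.equation_iff ..).1 h.left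
    simp only [SW, WeierstrassCurve.baseChange, WeierstrassCurve.map, map_zero, zero_mul,
      add_zero] at h1
    exact h1

theorem pt_ext {Q Q' : Pt (SW a b) F} (hQ : Q ≠ 0) (hQ' : Q' ≠ 0) (hx : xc Q = xc Q')
    (hy : yc Q = yc Q') : Q = Q' := by
  cases Q with
  | zero => exact absurd rfl hQ
  | some x y h =>
    cases Q' with
    | zero => exact absurd rfl hQ'
    | some x' y' h' =>
      change x = x' at hx
      change y = y' at hy
      subst hx hy
      rfl

theorem xc_neg' (Q : Pt (SW a b) F) : xc (-Q) = xc Q := by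
  cases Q <;> rfl

theorem yc_neg' (Q : Pt (SW a b) F) : yc (-Q) = - yc Q := by
  cases Q with
  | zero => change (0 : F) = -0; rw [neg_zero]
  | some x y h =>
    change (WeierstrassCurve.Affine.negY _ x y) = -y
    simp only [WeierstrassCurve.Affine.negY, SW, WeierstrassCurve.baseChange,
      WeierstrassCurve.map, map_zero, zero_mul, sub_zero]

theorem alg_cs {K : Type*} [Field K] [Algebra K F] [Algebra R K] [IsScalarTower R K F]
    (X : Set F) (Q : Pt (SW a b) F) (hx : xc Q ∈ adjoin K X) :
    ∀ t ∈ cs Q, IsAlgebraic (adjoin K X) t := by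
  intro t ht
  have h1 : IsAlgebraic (adjoin K X) (xc Q) :=
    isAlgebraic_algebraMap (R := adjoin K X) (A := F) ⟨xc Q, hx⟩
  rcases ht with ht | ht
  · rw [ht]; exact h1
  · rw [Set.mem_singleton_iff] at ht
    rw [ht]
    by_cases hQ : Q = 0
    · rw [hQ]; exact isAlgebraic_zero
    · have h2 : yc Q ^ 2 ∈ adjoin K X := by
        rw [pt_sq hQ, IsScalarTower.algebraMap_apply R K F a, IsScalarTower.algebraMap_apply R K F b]
        exact add_mem (add_mem (pow_mem hx 3) (mul_mem (IntermediateField.algebraMap_mem _ _) (pow_mem hx 2)))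
          (IntermediateField.algebraMap_mem _ _)
      have h3 : IsAlgebraic (adjoin K X) (yc Q ^ 2) :=
        isAlgebraic_algebraMap (R := adjoin K X) (A := F) ⟨yc Q ^ 2, h2⟩
      exact h3.of_pow (by norm_num)

end pts

/-- three generic points generate a field of transcendence degree 3 -/
theorem trK {N : Type} [Field N] [Algebra ℂ N] (w : Fin 3 → Pt E2 N)
    (hw : AlgebraicIndependent ℂ fun j => xc (w j)) :
    Algebra.trdeg ℂ (adjoin ℂ (⋃ j, cs (w j))) = 3 := by
  apply le_antisymm
  · have h1 : Algebra.trdeg ℂ (adjoin ℂ (⋃ j, cs (w j))) ≤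
        Cardinal.mk (Set.range fun j => xc (w j)) := by
      apply tr_adjoin_le
      intro t ht
      obtain ⟨j, hj⟩ := Set.mem_iUnion.1 ht
      exact alg_cs (K := ℂ) (Set.range fun j => xc (w j)) (w j) (subset_adjoin _ _ ⟨j, rfl⟩) t hj
    refine h1.trans ?_
    refine Cardinal.mk_range_le.trans ?_
    simp
  · let x' : Fin 3 → adjoin ℂ (⋃ j, cs (w j)) := fun j => ⟨xc (w j), subset_adjoin _ _
      (Set.mem_iUnion.2 ⟨j, Or.inl rfl⟩)⟩
    have h1 : AlgebraicIndependent ℂ x' :=
      AlgebraicIndependent.of_comp (adjoin ℂ (⋃ j, cs (w j))).val hw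
    have h2 := h1.lift_cardinalMk_le_trdeg
    simpa using h2

end Pool.Agent.VM
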