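import Pool.Agent.Lib_VM.StubsVI_h71
import Pool.Agent.Lib_VM.Sub2_h71
import Pool.Agent.Lib_VM.MQ_h38
import Pool.Agent.Lib_VM.A_BC
import Pool.Agent.Lib_VM.A_NSQ
import Pool.Agent.Lib_VM.A_joint_of_trdeg

/-!
# MP_5582d1_ag, block CONS: the varieties `Y` are numerically equivalent
-/

set_option autoImplicit false
set_option linter.style.haveILetI false

namespace Pool.Agent.VM.CONSp

open scoped Classical TensorProduct
open IntermediateField

attribute [-instance] Subtype.instDecidableEq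

/-- a function of `Z` which is algebraic over `S` on `Z × W` is so on `Z` -/
theorem lin {M WM Ω : Type} [Field M] [Field WM] [Field Ω] [Algebra ℂ M] [Algebra ℂ WM]
    [Algebra ℂ Ω] (f : M →ₐ[ℂ] Ω) (g : WM →ₐ[ℂ] Ω) (h : Joint f g) (S : Set M)
    (hfin : dg ℂ S ≠ 0) (s : M) (hs : f s ∈ adjoin ℂ (f '' S ∪ Set.range g)) :
    s ∈ adjoin ℂ S := by
  have h1 : adjoin ℂ (f '' (S ∪ {s}) ∪ Set.range g) = adjoin ℂ (f '' S ∪ Set.range g) := by
    apply le_antisymm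
    · rw [adjoin_le_iff]
      rintro x (⟨y, hy | hy, rfl⟩ | hx)
      · exact subset_adjoin _ _ (Or.inl ⟨y, hy, rfl⟩)
      · rw [Set.mem_singleton_iff] at hy
        rw [hy]; exact hs
      · exact subset_adjoin _ _ (Or.inr hx)
    · apply adjoin.mono
      rintro x (⟨y, hy, rfl⟩ | hx)
      · exact Or.inl ⟨y, Or.inl hy, rfl⟩
      · exact Or.inr hx
  have h2 : dg ℂ (S ∪ {s}) = dg ℂ S := by
    rw [← BC f g h, ← BC f g h]; exact dg_congr h1
  have : FiniteDimensional (adjoin ℂ S) M := FiniteDimensional.of_finrank_pos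
    (Nat.pos_of_ne_zero hfin)
  have h3 : adjoin ℂ S = adjoin ℂ (S ∪ {s}) :=
    eq_of_le_of_finrank_eq' (adjoin.mono _ _ _ Set.subset_union_left) h2.symm
  rw [h3]; exact subset_adjoin _ _ (Or.inr rfl)

section env

variable {N : Type} [Field N] [Algebra ℂ N] {WM : Type} [Field WM] [Algebra ℂ WM]

/-- `b ∈ ℂ(w, W)` with `b² ∈ ℂ(w)` is in `ℂ(w)` -/
theorem sqrt_mem (w : Fin 3 → Pt E2 N) (hK : Algebra.trdeg ℂ (adjoin ℂ (⋃ j, cs (w j))) = 3)
    (g : WM →ₐ[ℂ] N) (hWM : Algebra.trdeg ℂ WM = 3) (hN : Algebra.trdeg ℂ N = 6)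
    (hB : Algebra.IsAlgebraic (adjoin ℂ ((⋃ j, cs (w j)) ∪ Set.range g)) N) (b : N)
    (hb : b ∈ adjoin ℂ ((⋃ j, cs (w j)) ∪ Set.range g))
    (hb2 : b ^ 2 ∈ adjoin ℂ (⋃ j, cs (w j))) : b ∈ adjoin ℂ (⋃ j, cs (w j)) := by
  set A : Set N := ⋃ j, cs (w j) with hA
  let L : IntermediateField ℂ N := adjoin ℂ (A ∪ {b})
  have hAL : A ⊆ (L : Set N) := Set.subset_union_left.trans (subset_adjoin _ _)
  have hbL : b ∈ L := subset_adjoin _ _ (Or.inr rfl)
  let Ω : IntermediateField ℂ N := adjoin ℂ ((L : Set N) ∪ Set.range g)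
  have hLΩ : (L : Set N) ⊆ (Ω : Set N) := Set.subset_union_left.trans (subset_adjoin _ _)
  have hgΩ : Set.range g ⊆ (Ω : Set N) := Set.subset_union_right.trans (subset_adjoin _ _)
  let f : L →ₐ[ℂ] Ω := cod L.val Ω (by rintro _ ⟨x, rfl⟩; exact hLΩ x.2)
  let g' : WM →ₐ[ℂ] Ω := cod g Ω hgΩ
  let b' : L := ⟨b, hbL⟩
  let S : Set L := L.val ⁻¹' A
  -- `L` is finite over `ℂ(w)`
  have hint : IsIntegral (adjoin ℂ S) b' := by
    refine IsIntegral.of_pow (n := 2) (by norm_num) ?_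
    have : b' ^ 2 ∈ adjoin ℂ S := (mem_adjoin_pre L hAL _).2 hb2
    exact isIntegral_algebraMap (R := adjoin ℂ S) (A := L) (x := ⟨b' ^ 2, this⟩)
  have htop : adjoin (adjoin ℂ S) {b'} = ⊤ := by
    apply restrictScalars_injective (K := ℂ)
    rw [adjoin_adjoin_left, restrictScalars_top, eq_top_iff]
    rintro x -
    have h1 : L.val ⁻¹' (A ∪ {b}) = S ∪ {b'} := by
      ext y
      simp only [Set.mem_preimage, Set.mem_union, S, Set.mem_singleton_iff]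
      constructor
      · rintro (h | h)
        · exact Or.inl h
        · exact Or.inr (Subtype.ext h)
      · rintro (h | h)
        · exact Or.inl h
        · exact Or.inr (congrArg Subtype.val h)
    rw [← h1, mem_adjoin_pre L (subset_adjoin _ _)]
    exact x.2
  have hfd : FiniteDimensional (adjoin ℂ S) L := by
    have h1 : FiniteDimensional (adjoin ℂ S) (adjoin (adjoin ℂ S) {b'}) :=
      adjoin.finiteDimensional hint
    rw [htop] at h1
    exact Module.Finite.equiv (topEquiv (F := adjoin ℂ S) (E := L)).toLinearEquiv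
  -- transcendence degrees
  have htrL : Algebra.trdeg ℂ L = (3 : ℕ) := by
    have h1 : Algebra.IsAlgebraic (adjoin ℂ S) L := inferInstance
    have h2 := tra _ h1
    rw [← h2]
    have e : (adjoin ℂ S) ≃ₐ[ℂ] (adjoin ℂ A) := by
      have := (adjoin ℂ S).equivMap L.val
      rw [map_adjoin_pre L hAL] at this
      exact this
    rw [e.trdeg_eq, hK]; rfl
  have htrΩ : Algebra.trdeg ℂ Ω = (3 + 3 : ℕ) := by
    have h1 : Algebra.IsAlgebraic Ω N := by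
      have hle : adjoin ℂ (A ∪ Set.range g) ≤ Ω :=
        adjoin_le_iff.2 (Set.union_subset (hAL.trans hLΩ) hgΩ)
      refine ⟨fun x => ?_⟩
      exact (hB.isAlgebraic x).tower_top_of_subalgebra_le (A := (adjoin ℂ (A ∪ Set.range g)).toSubalgebra) (B := Ω.toSubalgebra) hle
    rw [tra _ h1, hN]; norm_num
  have hJ : Joint f g' := by
    refine joint_of_trdeg f g' ?_ 3 3 htrL (by rw [hWM]; rfl) htrΩ
    rw [eq_top_iff]
    rintro x -
    have h1 : Ω.val ⁻¹' ((L : Set N) ∪ Set.range g) = Set.range f ∪ Set.range g' := by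
      ext y
      constructor
      · rintro (h | ⟨z, h⟩)
        · exact Or.inl ⟨⟨(y : N), h⟩, Subtype.ext rfl⟩
        · exact Or.inr ⟨z, Subtype.ext h⟩
      · rintro (⟨z, rfl⟩ | ⟨z, rfl⟩)
        · exact Or.inl z.2
        · exact Or.inr ⟨z, rfl⟩
    rw [← h1, mem_adjoin_pre Ω (subset_adjoin _ _)]
    exact x.2
  have key := lin f g' hJ S (dg_ne_zero_of_finite _ hfd) b' (by
    have h1 : Ω.val ⁻¹' (A ∪ Set.range g) = f '' S ∪ Set.range g' := by
      ext y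
      constructor
      · rintro (h | ⟨z, h⟩)
        · exact Or.inl ⟨⟨(y : N), hAL h⟩, h, Subtype.ext rfl⟩
        · exact Or.inr ⟨z, Subtype.ext h⟩
      · rintro (⟨z, hz, rfl⟩ | ⟨z, rfl⟩)
        · exact Or.inl hz
        · exact Or.inr ⟨z, rfl⟩
    rw [← h1, mem_adjoin_pre Ω (Set.union_subset (hAL.trans hLΩ) hgΩ)]
    exact hb)
  exact (mem_adjoin_pre L hAL b').1 key

/-- the parameters of a tuple of nine points -/
structure Par9 (l : ℂ) {N : Type} [Field N] [Algebra ℂ N] (w : Fin 3 → Pt E2 N)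
    (q : Fin 9 → Pt (E1 l) N) (c : Fin 9 → Pt E2 ℂ) (al be : Fin 9 → ℂ) : Prop where
  al0 : ∀ i, al i ≠ 0
  q0 : ∀ i, q i ≠ 0
  eq : ∀ i, xc (q i) = algebraMap ℂ N (al i) * xc (comb (V.ell i) w + kc (c i)) +
    algebraMap ℂ N (be i)

theorem Par9.xc_mem {l : ℂ} {w : Fin 3 → Pt E2 N} {q : Fin 9 → Pt (E1 l) N}
    {c : Fin 9 → Pt E2 ℂ} {al be : Fin 9 → ℂ} (h : Par9 l w q c al be) (i : Fin 9) :
    xc (q i) ∈ adjoin ℂ (⋃ j, cs (w j)) := by
  rw [h.eq i]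
  have h1 : cs (comb (V.ell i) w + kc (c i)) ⊆ (adjoin ℂ (⋃ j, cs (w j)) : Set N) :=
    cs_add_subset (cs_comb_subset _ _ fun j => (Set.subset_iUnion (fun j => cs (w j)) j).trans
      (subset_adjoin _ _)) (cs_const_subset _ _)
  exact add_mem (mul_mem (IntermediateField.algebraMap_mem _ _) (h1 (Or.inl rfl)))
    (IntermediateField.algebraMap_mem _ _)

theorem Par9.sq_mem {l : ℂ} {w : Fin 3 → Pt E2 N} {q : Fin 9 → Pt (E1 l) N}
    {c : Fin 9 → Pt E2 ℂ} {al be : Fin 9 → ℂ} (h : Par9 l w q c al be) (i : Fin 9) :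
    yc (q i) ^ 2 ∈ adjoin ℂ (⋃ j, cs (w j)) := by
  rw [pt_sq (h.q0 i)]
  have hx := h.xc_mem i
  exact add_mem (add_mem (pow_mem hx 3) (mul_mem (IntermediateField.algebraMap_mem _ _)
    (pow_mem hx 2))) (IntermediateField.algebraMap_mem _ _)

/-- products of the `yc (q i) ^ 2` are not squares in `ℂ(w, W)` -/
theorem nsb {l : ℂ} (hl : Transcendental ℚ l) {w : Fin 3 → Pt E2 N} {q : Fin 9 → Pt (E1 l) N}
    {c : Fin 9 → Pt E2 ℂ} {al be : Fin 9 → ℂ} (h : Par9 l w q c al be)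
    (hw : AlgebraicIndependent ℂ fun j => xc (w j))
    (g : WM →ₐ[ℂ] N) (hWM : Algebra.trdeg ℂ WM = 3) (hN : Algebra.trdeg ℂ N = 6)
    (hB : Algebra.IsAlgebraic (adjoin ℂ ((⋃ j, cs (w j)) ∪ Set.range g)) N)
    (T : Finset (Fin 9)) (hT : T.Nonempty) (b : N)
    (hb : b ∈ adjoin ℂ ((⋃ j, cs (w j)) ∪ Set.range g)) :
    b ^ 2 ≠ ∏ i ∈ T, yc (q i) ^ 2 := by
  intro hcon
  have h1 : b ^ 2 ∈ adjoin ℂ (⋃ j, cs (w j)) := by
    rw [hcon]; exact prod_mem fun i _ => h.sq_mem i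
  have h2 := sqrt_mem w (trK w hw) g hWM hN hB b hb h1
  refine NSQ l hl w hw c al be h.al0 (fun i => yc (q i) ^ 2) ?_ T hT b h2 hcon
  intro i t ht
  rw [← h.eq i] at ht
  rw [ht]
  have := pt_sq (h.q0 i)
  simpa using this

/-- sign changes -/
theorem sgn {l : ℂ} (hl : Transcendental ℚ l) {w : Fin 3 → Pt E2 N} {q : Fin 9 → Pt (E1 l) N}
    {c : Fin 9 → Pt E2 ℂ} {al be : Fin 9 → ℂ} (h : Par9 l w q c al be)
    (hw : AlgebraicIndependent ℂ fun j => xc (w j))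
    (g : WM →ₐ[ℂ] N) (hWM : Algebra.trdeg ℂ WM = 3) (hN : Algebra.trdeg ℂ N = 6)
    (hB : Algebra.IsAlgebraic (adjoin ℂ ((⋃ j, cs (w j)) ∪ Set.range g)) N)
    (hG : Normal (adjoin ℂ ((⋃ j, cs (w j)) ∪ Set.range g)) N) :
    Module.finrank (adjoin ℂ ((⋃ j, cs (w j)) ∪ Set.range g))
      (adjoin (adjoin ℂ ((⋃ j, cs (w j)) ∪ Set.range g)) (Set.range fun i => yc (q i))) = 2 ^ 9 ∧
    ∀ i, ∃ σ : N ≃ₐ[ℂ] N, (∀ x ∈ adjoin ℂ ((⋃ j, cs (w j)) ∪ Set.range g), σ x = x) ∧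
      mp (σ : N →ₐ[ℂ] N) (q i) = -q i ∧ ∀ k, k ≠ i → mp (σ : N →ₐ[ℂ] N) (q k) = q k := by
  set B := adjoin ℂ ((⋃ j, cs (w j)) ∪ Set.range g) with hBdef
  have hle : adjoin ℂ (⋃ j, cs (w j)) ≤ B := adjoin.mono _ _ _ Set.subset_union_left
  let F : Fin 9 → B := fun i => ⟨yc (q i) ^ 2, hle (h.sq_mem i)⟩
  have hm := IV.mq_main (K := B) (Ω := N) (fun i => yc (q i)) F (fun i => rfl) (by
    rintro T hT ⟨b, hb⟩
    apply nsb hl h hw g hWM hN hB T hT (b : N) b.2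
    have := congrArg (fun x : B => (x : N)) hb
    simp only [F] at this
    rw [pow_two, ← MulMemClass.coe_mul, ← this]
    simp)
  refine ⟨hm.1, fun i => ?_⟩
  obtain ⟨σ₀, hσ₀⟩ := hm.2 {i}
  let σ₁ : N ≃ₐ[B] N := σ₀.liftNormal N
  have h1 : ∀ k, σ₁ (yc (q k)) = if k ∈ ({i} : Finset (Fin 9)) then - yc (q k) else yc (q k) := by
    intro k
    rw [← hσ₀ k]
    exact AlgEquiv.liftNormal_commutes σ₀ N ⟨yc (q k), subset_adjoin _ _ ⟨k, rfl⟩⟩
  have h2 : ∀ x ∈ B, σ₁ x = x := fun x hx => σ₁.commutes ⟨x, hx⟩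
  let σ : N ≃ₐ[ℂ] N := σ₁.restrictScalars ℂ
  have h0 : ∀ k, mp (σ : N →ₐ[ℂ] N) (q k) ≠ 0 := by
    intro k hk
    apply h.q0 k
    have h3 : mp (σ : N →ₐ[ℂ] N) (q k) = mp (σ : N →ₐ[ℂ] N) 0 := by rw [hk, map_zero]
    exact WeierstrassCurve.Affine.Point.map_injective _ h3
  refine ⟨σ, h2, ?_, fun k hk => ?_⟩
  · apply pt_ext (h0 i) (neg_ne_zero.2 (h.q0 i))
    · rw [Y4p.xc_mp, xc_neg']
      exact h2 _ (hle (h.xc_mem i))
    · rw [Y4p.yc_mp, yc_neg']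
      have := h1 i
      rw [if_pos (Finset.mem_singleton_self i)] at this
      exact this
  · apply pt_ext (h0 k) (h.q0 k)
    · rw [Y4p.xc_mp]
      exact h2 _ (hle (h.xc_mem k))
    · rw [Y4p.yc_mp]
      have := h1 k
      rw [if_neg (by simpa using hk)] at this
      exact this

end env

end Pool.Agent.VM.CONSp
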