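import Pool.Agent.Lib_VM.StubsC_h85
import Pool.Agent.Lib_helper67.VM.PtF
import Pool.Agent.Lib_VM.A_CP
import Pool.Agent.Lib_VM.A_Ctx_U_spec
import Pool.Agent.Lib_VM.A_Ctx_alg_L
import Pool.Agent.Lib_VM.A_Ctx_fe_K0
import Pool.Agent.Lib_VM.A_Ctx_fe_k0
import Pool.Agent.Lib_VM.A_Ctx_nu_spec
import Pool.Agent.Lib_VM.A_RKV

/-!
# MP_5582d1_ag: the characteristic polynomial over `ℂ(w)` on a context. Cites CP, alg_L.
-/

set_option autoImplicit false

namespace Pool.Agent.VM

open scoped Classical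

attribute [-instance] Subtype.instDecidableEq

namespace CPCp

theorem xc_mp {R P F K : Type*} [CommRing R] [CommRing P] [Field F] [Field K] [Algebra R P] [Algebra R F]
    [Algebra R K] [Algebra P F] [Algebra P K] [IsScalarTower R P F] [IsScalarTower R P K]
    {W : WeierstrassCurve R} (f : F →ₐ[P] K) (Q : Pt W F) : xc (mp f Q) = f (xc Q) := by
  rcases Q with _ | ⟨x, y, h⟩
  · exact (map_zero f).symm
  · rfl

theorem yc_mp {R P F K : Type*} [CommRing R] [CommRing P] [Field F] [Field K] [Algebra R P] [Algebra R F]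
    [Algebra R K] [Algebra P F] [Algebra P K] [IsScalarTower R P F] [IsScalarTower R P K]
    {W : WeierstrassCurve R} (f : F →ₐ[P] K) (Q : Pt W F) : yc (mp f Q) = f (yc Q) := by
  rcases Q with _ | ⟨x, y, h⟩
  · exact (map_zero f).symm
  · rfl

theorem mp_ne_zero {R P F K : Type*} [CommRing R] [CommRing P] [Field F] [Field K] [Algebra R P] [Algebra R F]
    [Algebra R K] [Algebra P F] [Algebra P K] [IsScalarTower R P F] [IsScalarTower R P K]
    {W : WeierstrassCurve R} (f : F →ₐ[P] K) {Q : Pt W F} (h : Q ≠ 0) : mp f Q ≠ 0 := by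
  rcases Q with _ | ⟨x, y, h1⟩
  · exact absurd rfl h
  · exact WeierstrassCurve.Affine.Point.some_ne_zero _

theorem pt_ext {R F : Type*} [CommRing R] [Field F] [Algebra R F] {W : WeierstrassCurve R}
    {P Q : Pt W F} (hP : P ≠ 0) (hQ : Q ≠ 0) (hx : xc P = xc Q) (hy : yc P = yc Q) : P = Q := by
  rcases P with _ | ⟨x, y, h⟩
  · exact absurd rfl hP
  rcases Q with _ | ⟨x', y', h'⟩
  · exact absurd rfl hQ
  change x = x' at hx
  change y = y' at hy
  subst hx; subst hy; rfl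

end CPCp

open CPCp

namespace Ctx

variable {l : ℂ} {Z : SubVar l} (C : Ctx Z)

/-- the coefficients of `∏ (X - τ θ)` are in `ℂ(w)` -/
theorem CPC (θ : Z.M) (i : ℕ) :
    (∏ τ ∈ C.T, (Polynomial.X - Polynomial.C (τ θ))).coeff i ∈ C.L := by
  have hL : (Subfield.closure (Set.range (algebraMap ℂ Z.M) ∪ ⋃ i, cs (Z.w i))).map
      (C.ι : Z.M →+* C.Λ) = C.L := by
    rw [RingHom.map_field_closure, Set.image_union, Set.image_iUnion, Ctx.L]
    congr 1
    congr 1
    · rw [← Set.range_comp]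
      congr 1
      funext c
      exact C.ι.commutes c
    · apply Set.iUnion_congr
      intro i
      rw [cs, cs, Set.image_pair, Ctx.W, xc_mp, yc_mp]
      rfl
  have h1 := CP (C.ι : Z.M →+* C.Λ) _ C.L hL (Ctx.alg_L C)
    (C.T.image (fun τ : Z.M →ₐ[ℂ] C.Λ => (τ : Z.M →+* C.Λ))) ?_ θ i
  · rw [Finset.prod_image] at h1
    · exact h1
    · intro a _ b _ hab
      ext x
      exact DFunLike.congr_fun hab x
  · intro τ
    rw [Finset.mem_image]
    constructor
    · rintro ⟨τ0, h0, rfl⟩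
      rw [C.hT] at h0
      apply RingHom.eqOn_field_closure
      rintro x (⟨c, rfl⟩ | hx)
      · exact (τ0.commutes c).trans (C.ι.commutes c).symm
      · rw [Set.mem_iUnion] at hx
        obtain ⟨j, hj⟩ := hx
        have h2 := h0 j
        rcases hj with rfl | hj
        · have := congrArg xc h2
          rwa [xc_mp, xc_mp] at this
        · rw [Set.mem_singleton_iff] at hj
          subst hj
          have := congrArg yc h2
          rwa [yc_mp, yc_mp] at this
    · intro h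
      refine ⟨{ τ with commutes' := fun c => ?_ }, ?_, ?_⟩
      · exact (h _ (Subfield.subset_closure (Or.inl ⟨c, rfl⟩))).trans (C.ι.commutes c)
      · rw [C.hT]
        intro j
        by_cases hj : Z.w j = 0
        · rw [hj, map_zero, map_zero]
        · refine pt_ext (mp_ne_zero _ hj) (mp_ne_zero _ hj) ?_ ?_
          · rw [xc_mp, xc_mp]
            exact h _ (Subfield.subset_closure (Or.inr (Set.mem_iUnion.2 ⟨j, Or.inl rfl⟩)))
          · rw [yc_mp, yc_mp]
            exact h _ (Subfield.subset_closure (Or.inr (Set.mem_iUnion.2 ⟨j, Or.inr rfl⟩)))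
      · rfl

/-- the norm of `θ ≠ 0` -/
theorem CPN (θ : Z.M) (h0 : θ ≠ 0) : ∏ τ ∈ C.T, τ θ ∈ C.L ∧ ∏ τ ∈ C.T, τ θ ≠ 0 := by
  refine ⟨?_, ?_⟩
  · have h1 := C.CPC θ 0
    rw [Polynomial.coeff_zero_eq_eval_zero, Polynomial.eval_prod] at h1
    have h2 : ∏ τ ∈ C.T, τ θ = (-1) ^ C.T.card *
        ∏ τ ∈ C.T, Polynomial.eval 0 (Polynomial.X - Polynomial.C (τ θ)) := by
      have h3 : ∏ τ ∈ C.T, Polynomial.eval 0 (Polynomial.X - Polynomial.C (τ θ)) =
          ∏ τ ∈ C.T, (-1 * τ θ) := by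
        apply Finset.prod_congr rfl
        intro τ _
        simp
      rw [h3, Finset.prod_mul_distrib, Finset.prod_const, ← mul_assoc, ← mul_pow]
      simp
    rw [h2]
    exact C.L.mul_mem (C.L.pow_mem (C.L.neg_mem C.L.one_mem) _) h1
  · rw [Finset.prod_ne_zero_iff]
    intro τ _
    exact (map_ne_zero τ).2 h0

/-- value of a norm -/
theorem QV_prod {F ι : Type*} [Field F] (u : QV F) (s : Finset ι) (f : ι → F) (hf : ∀ i ∈ s, f i ≠ 0) :
    u.v (∏ i ∈ s, f i) = ∑ i ∈ s, u.v (f i) := by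
  induction s using Finset.induction_on with
  | empty => simp [u.one]
  | insert a s ha ih =>
    rw [Finset.prod_insert ha, Finset.sum_insert ha, u.mul (hf a (Finset.mem_insert_self _ _)),
      ih (fun i hi => hf i (Finset.mem_insert_of_mem hi))]
    rw [Finset.prod_ne_zero_iff]
    exact fun i hi => hf i (Finset.mem_insert_of_mem hi)

/-- value of a norm -/
theorem Rk2_prod {F ι : Type*} [Field F] (u : Rk2 F) (s : Finset ι) (f : ι → F)
    (hf : ∀ i ∈ s, f i ≠ 0) : u.o (∏ i ∈ s, f i) = ∑ i ∈ s, u.o (f i) := by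
  induction s using Finset.induction_on with
  | empty =>
    have h := u.omul (a := 1) (b := 1) one_ne_zero one_ne_zero
    rw [mul_one] at h
    simp only [Finset.prod_empty, Finset.sum_empty]
    linarith
  | insert a s ha ih =>
    rw [Finset.prod_insert ha, Finset.sum_insert ha, u.omul (hf a (Finset.mem_insert_self _ _)),
      ih (fun i hi => hf i (Finset.mem_insert_of_mem hi))]
    rw [Finset.prod_ne_zero_iff]
    exact fun i hi => hf i (Finset.mem_insert_of_mem hi)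

/-! inclusions and trivial valuations -/

theorem le_acl {Λ : Type} [Field Λ] (K : Subfield Λ) : K ≤ acl K := fun x hx =>
  (algebraicClosure K Λ).algebraMap_mem ⟨x, hx⟩

variable (m m' n : Fin 3 → ℤ)

theorem c_mem_K0 (c : ℂ) : algebraMap ℂ C.Λ c ∈ C.K0 m m' :=
  Subfield.subset_closure (Or.inl ⟨c, rfl⟩)

theorem c_mem_Kb (c : ℂ) : algebraMap ℂ C.Λ c ∈ C.Kb m m' := le_acl _ (C.c_mem_K0 m m' c)

theorem k_le_k0 : C.k ≤ C.k0 m m' := fun _ hx => Subfield.subset_closure (Or.inl hx)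

theorem k_le_kb : C.k ≤ C.kb m m' := (C.k_le_k0 m m').trans (le_acl _)

theorem L_le_fe (ht : Uni m m' n) : C.L ≤ fe (C.Kb m m') (comb n C.W) := by
  rw [← C.fe_K0 m m' n ht]
  apply Subfield.closure_mono
  exact Set.union_subset_union_left _ (le_acl _)

theorem F_le_fe (ht : Uni m m' n) : C.F ≤ fe (C.kb m m') (comb n C.wb) := by
  rw [← C.fe_k0 m m' n ht]
  apply Subfield.closure_mono
  exact Set.union_subset_union_left _ (le_acl _)

theorem nu_triv (ht : Uni m m' n) (β : Pt E2 (C.kb m m')) (y : C.w0.κ) (hy : y ∈ C.k) (h0 : y ≠ 0) :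
    (C.nu m m' n β).v y = 0 := (C.nu_spec m m' n ht β).triv y (C.k_le_kb m m' hy) h0

theorem U_triv (ht : Uni m m' n) (a : Pt E2 (C.Kb m m')) (c : ℂ) (h0 : c ≠ 0) :
    (C.U m m' n a).v (algebraMap ℂ C.Λ c) = 0 :=
  (C.U_spec m m' n ht a).triv _ (C.c_mem_Kb m m' c)
    ((map_ne_zero (algebraMap ℂ C.Λ)).2 h0)

/-- `rk ν` is the composite -/
theorem rk_spec (ν : QV C.w0.κ) (hν : ∀ y ∈ C.k, y ≠ 0 → ν.v y = 0) : C.IsRk ν (C.rk ν) := by
  have h := RKV C ν hν
  unfold Ctx.rk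
  rw [dif_pos h]
  exact h.choose_spec

theorem rk_v (ν : QV C.w0.κ) (hν : ∀ y ∈ C.k, y ≠ 0 → ν.v y = 0) (x : C.Λ) :
    (C.rk ν).v x = C.w0.v x := by
  rw [(C.rk_spec ν hν).1]

/-- `o` is trivial on `ℂ` -/
theorem rk_c (ν : QV C.w0.κ) (hν : ∀ y ∈ C.k, y ≠ 0 → ν.v y = 0) (c : ℂ) (h0 : c ≠ 0) :
    (C.rk ν).o (algebraMap ℂ C.Λ c) = 0 := by
  have h1 : algebraMap ℂ C.Λ c ≠ 0 := (map_ne_zero (algebraMap ℂ C.Λ)).2 h0
  rw [(C.rk_spec ν hν).2 _ h1 c h0 (C.ext c).symm, div_self h1, C.w0.res_one, ν.one]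

theorem red_comb (m : Fin 3 → ℤ) : C.red (comb m C.W) = comb m C.wb := by
  rw [comb, comb, map_sum]
  apply Finset.sum_congr rfl
  intro i _
  rw [map_zsmul]; rfl

end Ctx

end Pool.Agent.VM
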