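import Pool.Agent.Lib_VM.Defs3_h85

/-!
# MP_5582d1_ag: stubs, the decomposition
-/

set_option autoImplicit false

namespace Pool.Agent.VM

open scoped Classical

attribute [-instance] Subtype.instDecidableEq

/-! ### Pure statements -/

section Pure

variable {Λ ι : Type} [Field Λ] (w : QV Λ) (T : Finset ι) (X : ι → Λ)

end Pure

/-! ### Curve level -/

section Curve

variable {Λ : Type} [Field Λ] [CharZero Λ] [IsAlgClosed Λ]

end Curve

section BS

variable {Λ : Type} [Field Λ] [CharZero Λ] [IsAlgClosed Λ] {K M : Type} [Field K] [Field M] [Algebra K M]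
  [Algebra K Λ] (Kb : Subfield Λ) (hKb : ∀ x : Λ, x ∈ Kb ↔ IsAlgebraic K x) (e : Pt E2 Λ)
  (he : Transcendental K (xc e)) (hal : ∀ x : Λ, IsAlgebraic (fe Kb e) x)
  (U : Pt E2 Kb → QV Λ) (hU : ∀ a, AtPt Kb e a (U a))
  (eM : Pt E2 M) (hfin : FiniteDimensional (IntermediateField.adjoin K (cs eM)) M)
  (T : Finset (M →ₐ[K] Λ)) (hT : ∀ τ, τ ∈ T ↔ mp τ eM = e) (hT0 : T.Nonempty)

include hKb he hal hU hfin hT hT0

end BS

/-! ### Facts on a context -/

namespace Ctx

variable {l : ℂ} {Z : SubVar l} (C : Ctx Z) (m m' n : Fin 3 → ℤ) (ht : Uni m m' n)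

include ht

end Ctx

/-! ### The theorem -/

/-- the nine vectors -/
def ys : Finset (Fin 3 → ℤ) :=
  {![1, 0, 0], ![0, 1, 0], ![0, 0, 1], ![1, 1, 0], ![1, -1, 0], ![0, 1, 1], ![0, 1, -1], ![1, 0, 1], ![1, 0, -1]}

end Pool.Agent.VM
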