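import Pool.Agent.Lib_VM.StubsA_h85
import Pool.Agent.Lib_helper15.VM.III
import Pool.Agent.Lib_VM.StubsC_h85
import Pool.Agent.Lib_VM.A_CP
import Pool.Agent.Lib_VM.A_Ctx_U_spec
import Pool.Agent.Lib_VM.A_Ctx_acK
import Pool.Agent.Lib_VM.A_Ctx_fe_K0
import Pool.Agent.Lib_VM.A_Ctx_int_n
import Pool.Agent.Lib_VM.A_Ctx_kb_iff
import Pool.Agent.Lib_VM.A_Ctx_nu_spec
import Pool.Agent.Lib_VM.A_Ctx_tr_K
import Pool.Agent.Lib_VM.A_Ctx_tr_k
import Pool.Agent.Lib_VM.A_GAUSS
import Pool.Agent.Lib_VM.A_RKV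

/-!
# MP_5582d1_ag: general facts on a context (coefficients in `ℂ(w)`, KK in the context, `rk`)

Cited stubs: CP, KK, KB-type facts (acK, ack, kb_iff, U_spec, nu_spec, tr_K, tr_k, int_n, fe_K0, alg_L), RKV.
-/

set_option autoImplicit false

namespace Pool.Agent.VM

open scoped Classical
open Polynomial

attribute [-instance] Subtype.instDecidableEq

namespace CtxL

variable {l : ℂ} {Z : SubVar l} (C : Ctx Z)

lemma xc_mp' {R P F K : Type*} [CommRing R] [CommRing P] [Field F] [Field K] [Algebra R P] [Algebra R F]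
    [Algebra R K] [Algebra P F] [Algebra P K] [IsScalarTower R P F] [IsScalarTower R P K]
    {W : WeierstrassCurve R} (f : F →ₐ[P] K) (Q : Pt W F) : xc (mp f Q) = f (xc Q) := by
  rcases Q with _ | ⟨x, y, h⟩
  · exact (map_zero f).symm
  · rfl

lemma yc_mp' {R P F K : Type*} [CommRing R] [CommRing P] [Field F] [Field K] [Algebra R P] [Algebra R F]
    [Algebra R K] [Algebra P F] [Algebra P K] [IsScalarTower R P F] [IsScalarTower R P K]
    {W : WeierstrassCurve R} (f : F →ₐ[P] K) (Q : Pt W F) : yc (mp f Q) = f (yc Q) := by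
  rcases Q with _ | ⟨x, y, h⟩
  · exact (map_zero f).symm
  · rfl

lemma pt_ext {R F : Type*} [CommRing R] [Field F] [Algebra R F] {W : WeierstrassCurve R} (P Q : Pt W F)
    (h0 : P = 0 ↔ Q = 0) (hx : xc P = xc Q) (hy : yc P = yc Q) : P = Q := by
  rcases P with _ | ⟨x, y, h⟩
  · exact (h0.mp rfl).symm
  · rcases Q with _ | ⟨x', y', h'⟩
    · exact absurd (h0.mpr rfl) (by intro h; cases h)
    · have e1 : x = x' := hx
      have e2 : y = y' := hy
      subst e1; subst e2; rfl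

lemma mp_eq_zero {R P F K : Type*} [CommRing R] [CommRing P] [Field F] [Field K] [Algebra R P] [Algebra R F]
    [Algebra R K] [Algebra P F] [Algebra P K] [IsScalarTower R P F] [IsScalarTower R P K]
    {W : WeierstrassCurve R} (f : F →ₐ[P] K) (Q : Pt W F) : mp f Q = 0 ↔ Q = 0 := by
  rcases Q with _ | ⟨x, y, h⟩
  · exact ⟨fun _ => rfl, fun _ => rfl⟩
  · constructor
    · intro h'
      cases h'
    · intro h'
      cases h'

/-- two points have the same image iff the coordinates have -/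
lemma mp_eq_iff {R P F K : Type*} [CommRing R] [CommRing P] [Field F] [Field K] [Algebra R P] [Algebra R F]
    [Algebra R K] [Algebra P F] [Algebra P K] [IsScalarTower R P F] [IsScalarTower R P K]
    {W : WeierstrassCurve R} (f g : F →ₐ[P] K) (Q : Pt W F) :
    mp f Q = mp g Q ↔ f (xc Q) = g (xc Q) ∧ f (yc Q) = g (yc Q) := by
  constructor
  · intro h
    exact ⟨by rw [← xc_mp', ← xc_mp', h], by rw [← yc_mp', ← yc_mp', h]⟩
  · rintro ⟨h1, h2⟩
    apply pt_ext
    · rw [mp_eq_zero, mp_eq_zero]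
    · rw [xc_mp', xc_mp', h1]
    · rw [yc_mp', yc_mp', h2]

/-- the coefficients of the characteristic polynomial are in `ℂ(w)` -/
lemma coef_mem (θ : Z.M) (i : ℕ) : (∏ τ ∈ C.T, (X - Polynomial.C (τ θ))).coeff i ∈ C.L := by
  set L' : Subfield Z.M := Subfield.closure (Set.range (algebraMap ℂ Z.M) ∪ ⋃ i, cs (Z.w i)) with hL'
  have himg : (C.ι : Z.M →+* C.Λ) '' (Set.range (algebraMap ℂ Z.M) ∪ ⋃ i, cs (Z.w i)) =
      Set.range (algebraMap ℂ C.Λ) ∪ ⋃ i, cs (C.W i) := by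
    rw [Set.image_union]
    congr 1
    · ext x
      constructor
      · rintro ⟨_, ⟨c, rfl⟩, rfl⟩
        exact ⟨c, (C.ι.commutes c).symm⟩
      · rintro ⟨c, rfl⟩
        exact ⟨_, ⟨c, rfl⟩, C.ι.commutes c⟩
    · rw [Set.image_iUnion]
      apply Set.iUnion_congr
      intro i
      unfold cs
      rw [Set.image_pair]
      show _ = {xc (mp C.ι (Z.w i)), yc (mp C.ι (Z.w i))}
      rw [xc_mp', yc_mp']
      rfl
  have hmap : L'.map (C.ι : Z.M →+* C.Λ) = C.L := by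
    rw [hL', RingHom.map_field_closure, himg]
    rfl
  have hinj : Function.Injective (fun τ : Z.M →ₐ[ℂ] C.Λ => (τ : Z.M →+* C.Λ)) := by
    intro a b h
    exact AlgHom.coe_ringHom_injective h
  have key := CP (M := Z.M) (C.ι : Z.M →+* C.Λ) L' C.L hmap
    (by
      intro x
      exact C.hal x)
    (C.T.map ⟨_, hinj⟩)
    (by
      intro τ
      rw [Finset.mem_map]
      constructor
      · rintro ⟨σ, hσ, rfl⟩ x hx
        rw [C.hT] at hσ
        have hle : L' ≤ (C.ι : Z.M →+* C.Λ).eqLocusField (σ : Z.M →+* C.Λ) := by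
          rw [hL', Subfield.closure_le]
          rintro x (⟨c, rfl⟩ | hx)
          · show C.ι _ = σ _
            rw [C.ι.commutes, σ.commutes]
          · rw [Set.mem_iUnion] at hx
            obtain ⟨i, hi⟩ := hx
            obtain ⟨h1, h2⟩ := (mp_eq_iff σ C.ι (Z.w i)).mp (hσ i)
            rcases hi with rfl | hi
            · exact h1.symm
            · rw [Set.mem_singleton_iff] at hi
              subst hi
              exact h2.symm
        exact (hle hx).symm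
      · intro h
        have hc : ∀ c : ℂ, τ (algebraMap ℂ Z.M c) = algebraMap ℂ C.Λ c := by
          intro c
          rw [h _ (Subfield.subset_closure (Or.inl ⟨c, rfl⟩))]
          exact C.ι.commutes c
        let σ : Z.M →ₐ[ℂ] C.Λ := { τ with commutes' := hc }
        refine ⟨σ, ?_, ?_⟩
        · rw [C.hT]
          intro i
          rw [mp_eq_iff]
          have hx : xc (Z.w i) ∈ L' := Subfield.subset_closure (Or.inr (Set.mem_iUnion.mpr ⟨i, Or.inl rfl⟩))
          have hy : yc (Z.w i) ∈ L' := Subfield.subset_closure (Or.inr (Set.mem_iUnion.mpr ⟨i, Or.inr rfl⟩))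
          exact ⟨h _ hx, h _ hy⟩
        · rfl)
    θ i
  rw [Finset.prod_map] at key
  exact key

/-- the chosen rank 2 valuation -/
lemma rk_spec (ν : QV C.w0.κ) (hν : ∀ y ∈ C.k, y ≠ 0 → ν.v y = 0) : C.IsRk ν (C.rk ν) := by
  have h := RKV C ν hν
  unfold Ctx.rk
  rw [dif_pos h]
  exact h.choose_spec

lemma w0_nat (k : ℕ) (hk : k ≠ 0) : C.w0.v (k : C.Λ) = 0 := by
  have := C.ext (k : ℂ)
  rw [map_natCast] at this
  rw [this, C.vn k hk]

lemma C_le_K0 (m m' : Fin 3 → ℤ) (c : ℂ) : algebraMap ℂ C.Λ c ∈ C.K0 m m' :=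
  Subfield.subset_closure (Or.inl ⟨c, rfl⟩)

lemma K0_le_Kb (m m' : Fin 3 → ℤ) : C.K0 m m' ≤ C.Kb m m' := by
  intro x hx
  show x ∈ algebraicClosure (C.K0 m m') C.Λ
  rw [mem_algebraicClosure_iff]
  exact isAlgebraic_algebraMap (⟨x, hx⟩ : C.K0 m m')

lemma k0_le_kb (m m' : Fin 3 → ℤ) : C.k0 m m' ≤ C.kb m m' := by
  intro x hx
  show x ∈ algebraicClosure (C.k0 m m') C.w0.κ
  rw [mem_algebraicClosure_iff]
  exact isAlgebraic_algebraMap (⟨x, hx⟩ : C.k0 m m')

lemma k_le_kb (m m' : Fin 3 → ℤ) : C.k ≤ C.kb m m' := by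
  intro x hx
  apply k0_le_kb
  exact Subfield.subset_closure (Or.inl hx)

lemma C_mem_Kb (m m' : Fin 3 → ℤ) (c : ℂ) : algebraMap ℂ C.Λ c ∈ C.Kb m m' :=
  K0_le_Kb C m m' (C_le_K0 C m m' c)

lemma L_le_fe (m m' n : Fin 3 → ℤ) (ht : Uni m m' n) : C.L ≤ fe (C.Kb m m') (comb n C.W) := by
  rw [← Ctx.fe_K0 C m m' n ht]
  unfold fe
  rw [Subfield.closure_le]
  rintro x (hx | hx)
  · exact Subfield.subset_closure (Or.inl (K0_le_Kb C m m' hx))
  · exact Subfield.subset_closure (Or.inr hx)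

lemma red_comb (n : Fin 3 → ℤ) : C.red (comb n C.W) = comb n C.wb := by
  unfold comb
  rw [map_sum]
  apply Finset.sum_congr rfl
  intro i _
  rw [map_zsmul]
  rfl

/-- `ν_β` is trivial on `k` -/
lemma nu_triv (m m' n : Fin 3 → ℤ) (ht : Uni m m' n) (β : Pt E2 (C.kb m m')) :
    ∀ y ∈ C.k, y ≠ 0 → (C.nu m m' n β).v y = 0 := fun y hy h0 =>
  (Ctx.nu_spec C m m' n ht β).triv y (k_le_kb C m m' hy) h0

/-- KK in the context -/
lemma KKc (m m' n : Fin 3 → ℤ) (ht : Uni m m' n) (β : Pt E2 (C.kb m m')) (H : C.Λ) (hH : H ∈ C.L)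
    (h0 : H ≠ 0) (c : ℂ) (hc0 : c ≠ 0) (hcH : C.v.v c = C.w0.v H) :
    (C.nu m m' n β).v (C.w0.res (H / algebraMap ℂ C.Λ c)) =
      ∑ᶠ a : Pt E2 (C.Kb m m'), if C.red (inc (C.Kb m m') a) = inc (C.kb m m') β
        then (C.U m m' n a).v H else 0 := by
  have := Ctx.acK C m m'
  have hinj : algebraMap ℂ C.Λ c ≠ 0 := (_root_.map_ne_zero _).mpr hc0
  have htr : Transcendental (C.kb m m') (xc (C.red (comb n C.W))) := by
    rw [red_comb]; exact Ctx.tr_k C m m' n ht
  have hν : AtPt (C.kb m m') (C.red (comb n C.W)) β (C.nu m m' n β) := by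
    rw [red_comb]; exact Ctx.nu_spec C m m' n ht β
  exact KK C.w0 (w0_nat C) (C.Kb m m') (C.kb m m') (Ctx.kb_iff C m m' n ht)
    (by
      intro H hH
      obtain ⟨c, hc, hv⟩ := C.val H hH
      exact ⟨algebraMap ℂ C.Λ c, C_mem_Kb C m m' c, (_root_.map_ne_zero _).mpr hc, by rw [C.ext, hv]⟩)
    C.red C.hred (comb n C.W) (Ctx.int_n C m m' n ht) htr (C.U m m' n) (Ctx.U_spec C m m' n ht) β
    (C.nu m m' n β) hν H (L_le_fe C m m' n ht hH) h0 (algebraMap ℂ C.Λ c) (C_mem_Kb C m m' c) hinj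
    (by rw [C.ext, hcH])

/-- the value of the second component -/
lemma rk_o (m m' n : Fin 3 → ℤ) (ht : Uni m m' n) (β : Pt E2 (C.kb m m')) (H : C.Λ) (hH : H ∈ C.L)
    (h0 : H ≠ 0) : (C.rk (C.nu m m' n β)).o H =
      ∑ᶠ a : Pt E2 (C.Kb m m'), if C.red (inc (C.Kb m m') a) = inc (C.kb m m') β
        then (C.U m m' n a).v H else 0 := by
  obtain ⟨c, hc, hv⟩ := C.val H h0
  rw [(rk_spec C _ (nu_triv C m m' n ht β)).2 H h0 c hc hv]
  exact KKc C m m' n ht β H hH h0 c hc hv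

lemma fin_H (m m' n : Fin 3 → ℤ) (ht : Uni m m' n) (H : C.Λ) (hH : H ∈ C.L) (h0 : H ≠ 0) :
    {a | (C.U m m' n a).v H ≠ 0}.Finite := by
  have := Ctx.acK C m m'
  exact C1F (C.Kb m m') (comb n C.W) (Ctx.tr_K C m m' n ht) (C.U m m' n) (Ctx.U_spec C m m' n ht) H
    (L_le_fe C m m' n ht hH) h0

/-- finiteness of the places with `lam ≠ 0` -/
lemma fin_lam (m m' n : Fin 3 → ℤ) (ht : Uni m m' n) (P : Pt (E1 l) Z.M) :
    {a | ∑ τ ∈ C.T, lam (C.U m m' n a) (mp τ P) ≠ 0}.Finite := by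
  set f : C.Λ[X] := ∏ τ ∈ C.T, (X - Polynomial.C (xc (mp τ P))) with hf
  have hcoef : ∀ j, f.coeff j ∈ C.L := by
    intro j
    have : f = ∏ τ ∈ C.T, (X - Polynomial.C (τ (xc P))) := by
      rw [hf]
      apply Finset.prod_congr rfl
      intro τ _
      rw [xc_mp']
    rw [this]
    exact coef_mem C (xc P) j
  have hsub : {a | ∑ τ ∈ C.T, lam (C.U m m' n a) (mp τ P) ≠ 0} ⊆
      ⋃ j ∈ f.support, {a | (C.U m m' n a).v (f.coeff j) ≠ 0} := by
    intro a ha
    obtain ⟨j, hj, hv⟩ := GAUSS C.T (fun τ => xc (mp τ P)) (C.U m m' n a)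
    rw [Set.mem_iUnion₂]
    refine ⟨j, mem_support_iff.mpr hj, ?_⟩
    intro h0
    apply ha
    have e1 : ∑ τ ∈ C.T, (if xc (mp τ P) = 0 then (0 : ℚ) else
        max 0 (-((C.U m m' n a).v (xc (mp τ P))))) = 0 := by
      rw [h0] at hv
      linarith
    have e2 : ∑ τ ∈ C.T, lam (C.U m m' n a) (mp τ P) = (∑ τ ∈ C.T, (if xc (mp τ P) = 0 then (0 : ℚ) else
        max 0 (-((C.U m m' n a).v (xc (mp τ P)))))) / 2 := by
      rw [Finset.sum_div]
      apply Finset.sum_congr rfl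
      intro τ _
      unfold lam
      split_ifs
      · simp
      · rfl
    rw [e2, e1, zero_div]
  refine Set.Finite.subset ?_ hsub
  apply Set.Finite.biUnion f.support.finite_toSet
  intro j hj
  exact fin_H C m m' n ht _ (hcoef j) (mem_support_iff.mp hj)

end CtxL

end Pool.Agent.VM
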