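import Pool.Agent.Lib_VM.StubsA_h85
import Pool.Agent.Lib_helper15.VM.III
import Pool.Agent.Lib_VM.StubsC_h85
import Pool.Agent.Lib_VM.A_Ctx_U_spec
import Pool.Agent.Lib_VM.A_Ctx_kb_iff
import Pool.Agent.Lib_VM.A_Ctx_tr_K

-- cites: HTP (StubsB), Ctx.U_spec, Ctx.tr_K, Ctx.kb_iff (StubsC)

/-! block XD1 (helper77): `Ctx.D1`. Also `sum_a`, `red_mem`, `regroup`. -/

set_option autoImplicit false

namespace Pool.Agent.VM.XD1p

open scoped Classical

attribute [-instance] Subtype.instDecidableEq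

section mp

variable {R P F K : Type*} [CommRing R] [CommRing P] [Field F] [Field K] [Algebra R P] [Algebra R F]
    [Algebra R K] [Algebra P F] [Algebra P K] [IsScalarTower R P F] [IsScalarTower R P K]
    {W : WeierstrassCurve R}

lemma xc_mp (f : F →ₐ[P] K) (Q : Pt W F) : xc (mp f Q) = f (xc Q) := by
  cases Q with
  | zero => exact (map_zero f).symm
  | some x y h => rfl

lemma yc_mp (f : F →ₐ[P] K) (Q : Pt W F) : yc (mp f Q) = f (yc Q) := by
  cases Q with
  | zero => exact (map_zero f).symm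
  | some x y h => rfl

lemma cs_mp (f : F →ₐ[P] K) (Q : Pt W F) : cs (mp f Q) = f '' cs Q := by
  rw [cs, cs, xc_mp, yc_mp, Set.image_pair]

lemma mp_congr {f g : F →ₐ[P] K} (Q : Pt W F) (h : ∀ x ∈ cs Q, f x = g x) : mp f Q = mp g Q := by
  cases Q with
  | zero => rfl
  | some x y h' =>
    have hx : f x = g x := h x (Or.inl rfl)
    have hy : f y = g y := h y (Or.inr rfl)
    simp only [mp, WeierstrassCurve.Affine.Point.map_some]
    congr

lemma eq_of_mp {f g : F →ₐ[P] K} {Q : Pt W F} (h : mp f Q = mp g Q) : ∀ x ∈ cs Q, f x = g x := by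
  rintro x (rfl | rfl)
  · rw [← xc_mp (W := W) f, ← xc_mp (W := W) g, h]
  · rw [← yc_mp (W := W) f, ← yc_mp (W := W) g, h]

lemma mp_comb (f : F →ₐ[P] K) (a : Fin 3 → ℤ) (Q : Fin 3 → Pt W F) :
    mp f (comb a Q) = comb a (fun i => mp f (Q i)) := by
  rw [comb, comb, map_sum]
  exact Finset.sum_congr rfl fun i _ => map_zsmul _ _ _

lemma comb_lin (Q : Fin 3 → Pt W F) (m m' n : Fin 3 → ℤ) (a b c : ℤ) :
    comb (a • m + b • m' + c • n) Q = a • comb m Q + b • comb m' Q + c • comb n Q := by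
  simp only [comb, Finset.smul_sum, ← Finset.sum_add_distrib, Pi.add_apply, Pi.smul_apply, smul_eq_mul,
    add_smul, mul_smul]

lemma comb_single (Q : Fin 3 → Pt W F) (i : Fin 3) : comb (Pi.single i 1) Q = Q i := by
  rw [comb, Finset.sum_eq_single i]
  · simp
  · intro j _ hj; simp [hj]
  · intro h; exact absurd (Finset.mem_univ i) h

/-- points with coordinates in the image come from points -/
lemma pt_lift (f : F →ₐ[P] K) (Q : Pt W K) (hx : xc Q ∈ Set.range f) (hy : yc Q ∈ Set.range f) :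
    ∃ Q' : Pt W F, mp f Q' = Q := by
  cases Q with
  | zero => exact ⟨0, map_zero _⟩
  | some x y h =>
    obtain ⟨x', rfl⟩ := hx
    obtain ⟨y', rfl⟩ := hy
    exact ⟨.some x' y' ((WeierstrassCurve.Affine.baseChange_nonsingular W f.injective ..).mp h), rfl⟩

lemma mp_inj (f : F →ₐ[P] K) : Function.Injective (mp (W := W) f) :=
  WeierstrassCurve.Affine.Point.map_injective (W' := W) f

end mp

/-- algebraic over a field = algebraic over its image -/
lemma isAlgebraic_iff_of_range {K Λ : Type*} [Field K] [Field Λ] [Algebra K Λ] (K0 : Subfield Λ)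
    (h : ∀ x : Λ, x ∈ K0 ↔ ∃ y : K, algebraMap K Λ y = x) (x : Λ) : IsAlgebraic K0 x ↔ IsAlgebraic K x := by
  let f : K →+* K0 := (algebraMap K Λ).codRestrict K0 (fun y => (h _).mpr ⟨y, rfl⟩)
  have hf : Function.Injective f := f.injective
  have hs : Function.Surjective f := by
    rintro ⟨z, hz⟩
    obtain ⟨y, hy⟩ := (h z).mp hz
    exact ⟨y, Subtype.ext hy⟩
  have hc : RingHom.comp (algebraMap K0 Λ) f = RingHom.comp (RingHom.id Λ) (algebraMap K Λ) := rfl
  exact ⟨fun hx => hx.of_ringHom_of_comp_eq f (RingHom.id Λ) hs Function.injective_id hc,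
    fun hx => hx.ringHom_of_comp_eq f (RingHom.id Λ) hf hc⟩

section
variable {l : ℂ} {Z : SubVar l} (C : Ctx Z) (m m' n : Fin 3 → ℤ)

/-- the field `ℂ(m·w, m'·w)` in `M` -/
noncomputable abbrev KM (Z : SubVar l) (m m' : Fin 3 → ℤ) : IntermediateField ℂ Z.M :=
  IntermediateField.adjoin ℂ (cs (comb m Z.w) ∪ cs (comb m' Z.w))

noncomputable abbrev algK : Algebra (KM Z m m') C.Λ := (C.ι.toRingHom.comp (algebraMap (KM Z m m') Z.M)).toAlgebra

lemma comb_W (a : Fin 3 → ℤ) : comb a C.W = mp (W := E2) C.ι (comb a Z.w) := (mp_comb _ _ _).symm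

lemma mem_K0 (x : C.Λ) : x ∈ C.K0 m m' ↔ ∃ y : KM Z m m', C.ι (y : Z.M) = x := by
  have h1 : C.K0 m m' = ((KM Z m m').map C.ι).toSubfield := by
    rw [IntermediateField.adjoin_map, IntermediateField.adjoin_toSubfield, Set.image_union, ← cs_mp, ← cs_mp,
      ← comb_W, ← comb_W]
    rfl
  rw [h1]
  constructor
  · rintro ⟨y, hy, rfl⟩
    exact ⟨⟨y, hy⟩, rfl⟩
  · rintro ⟨y, rfl⟩
    exact ⟨y, y.2, rfl⟩

lemma mem_Kb (x : C.Λ) : let _ := algK C m m'; x ∈ C.Kb m m' ↔ IsAlgebraic (KM Z m m') x := by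
  let _ := algK C m m'
  change x ∈ C.Kb m m' ↔ IsAlgebraic (KM Z m m') x
  rw [← isAlgebraic_iff_of_range (C.K0 m m') (fun x => mem_K0 C m m' x)]
  exact mem_algebraicClosure_iff


lemma w_of (ht : Uni m m' n) (i : Fin 3) : ∃ a b c : ℤ, ∀ {R F : Type} [CommRing R] [Field F] [Algebra R F]
    {W : WeierstrassCurve R} (Q : Fin 3 → Pt W F), Q i = a • comb m Q + b • comb m' Q + c • comb n Q := by
  obtain ⟨a, b, c, h⟩ := ht (Pi.single i 1)
  refine ⟨a, b, c, ?_⟩
  intro R F _ _ _ W Q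
  rw [← comb_lin, ← h, comb_single]

/-- the coordinates of combinations -/
lemma cs_lin_mem {K F : Type} [Field K] [Field F] [Algebra K F] (N : IntermediateField K F)
    {R : Type} [CommRing R] [Algebra R K] [Algebra R F] [IsScalarTower R K F] {W : WeierstrassCurve R}
    (Q1 Q2 Q3 : Pt W F) (h1 : cs Q1 ⊆ N) (h2 : cs Q2 ⊆ N) (h3 : cs Q3 ⊆ N) (a b c : ℤ) :
    cs (a • Q1 + b • Q2 + c • Q3) ⊆ N := by
  have key : ∀ Q : Pt W F, cs Q ⊆ N → ∃ Q' : Pt W N, mp N.val Q' = Q := by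
    intro Q h
    refine pt_lift N.val Q ?_ ?_
    · exact ⟨⟨xc Q, h (Or.inl rfl)⟩, rfl⟩
    · exact ⟨⟨yc Q, h (Or.inr rfl)⟩, rfl⟩
  obtain ⟨Q1', rfl⟩ := key Q1 h1
  obtain ⟨Q2', rfl⟩ := key Q2 h2
  obtain ⟨Q3', rfl⟩ := key Q3 h3
  rw [← map_zsmul, ← map_zsmul, ← map_zsmul, ← map_add, ← map_add, cs_mp]
  rintro _ ⟨y, _, rfl⟩
  exact y.2

include C in
lemma fin_M (ht : Uni m m' n) : FiniteDimensional (IntermediateField.adjoin (KM Z m m') (cs (comb n Z.w))) Z.M := by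
  set N := IntermediateField.adjoin (KM Z m m') (cs (comb n Z.w)) with hN
  -- the coordinates of the w i are in N
  have hw : ∀ i, cs (Z.w i) ⊆ N := by
    intro i
    obtain ⟨a, b, c, h⟩ := w_of m m' n ht i
    rw [h Z.w]
    refine cs_lin_mem N _ _ _ ?_ ?_ ?_ a b c
    · intro x hx
      have : x ∈ KM Z m m' := IntermediateField.subset_adjoin _ _ (Or.inl hx)
      exact N.algebraMap_mem ⟨x, this⟩
    · intro x hx
      have : x ∈ KM Z m m' := IntermediateField.subset_adjoin _ _ (Or.inr hx)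
      exact N.algebraMap_mem ⟨x, this⟩
    · exact IntermediateField.subset_adjoin _ _
  -- every element is algebraic
  have hal : ∀ x : Z.M, IsAlgebraic N x := by
    intro x
    have h1 := C.hal (C.ι x)
    let S : Subfield C.Λ := (N.toSubfield).map (C.ι : Z.M →+* C.Λ)
    have hLS : Subfield.closure (Set.range (algebraMap ℂ C.Λ) ∪ ⋃ i, cs (mp (W := E2) C.ι (Z.w i))) ≤ S := by
      rw [Subfield.closure_le]
      rintro y (⟨c, rfl⟩ | hy)
      · refine ⟨algebraMap ℂ Z.M c, ?_, C.ι.commutes c⟩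
        have : algebraMap ℂ Z.M c ∈ KM Z m m' := (KM Z m m').algebraMap_mem c
        exact N.algebraMap_mem ⟨_, this⟩
      · rw [Set.mem_iUnion] at hy
        obtain ⟨i, hi⟩ := hy
        rw [cs_mp] at hi
        obtain ⟨z, hz, rfl⟩ := hi
        exact ⟨z, hw i hz, rfl⟩
    have h2 : IsAlgebraic S (C.ι x) :=
      h1.ringHom_of_comp_eq (Subfield.inclusion hLS) (RingHom.id C.Λ) (Subfield.inclusion hLS).injective rfl
    let f : N →+* S := ((C.ι : Z.M →+* C.Λ).comp (algebraMap N Z.M)).codRestrict S (fun y => ⟨(y : Z.M), y.2, rfl⟩)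
    refine IsAlgebraic.of_ringHom_of_comp_eq f (C.ι : Z.M →+* C.Λ) (a := x) h2 ?_ C.ι.injective rfl
    rintro ⟨_, y, hy, rfl⟩
    exact ⟨⟨y, hy⟩, rfl⟩
  -- finite generation
  let G : Set Z.M := (⋃ i, cs (Z.z i)) ∪ ⋃ i, cs (Z.w i)
  have hG : G.Finite := by
    refine Set.Finite.union ?_ ?_ <;>
    · refine Set.finite_iUnion fun i => ?_
      exact (Set.finite_singleton _).insert _
  have : Finite G := hG
  have htop : IntermediateField.adjoin N G = ⊤ := by
    rw [eq_top_iff]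
    intro x _
    have hx : x ∈ IntermediateField.adjoin ℂ G := by rw [Z.gen]; trivial
    have hle : IntermediateField.adjoin ℂ G ≤ ((IntermediateField.adjoin N G).restrictScalars (KM Z m m')).restrictScalars ℂ := by
      rw [IntermediateField.adjoin_le_iff]
      exact IntermediateField.subset_adjoin _ _
    exact hle hx
  have hfd := IntermediateField.finiteDimensional_adjoin (K := N) (S := G) (fun x _ => (hal x).isIntegral)
  rw [htop] at hfd
  exact IntermediateField.topEquiv.toLinearEquiv.finiteDimensional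

include C in
lemma disc_ne (ht : (4 : ℂ) + 27 * l = 0) : False := by
  have h27 : (27 : ℂ) ≠ 0 := by norm_num
  have hl : (27 : ℂ) * l = -4 := by linear_combination ht
  have h1 : C.v.v ((27 : ℂ) * l) = 1 := by
    rw [C.v.mul h27 C.l0, C.vl]
    have := C.vn 27 (by norm_num)
    push_cast at this
    rw [this]; norm_num
  rw [hl, C.v.neg] at h1
  have := C.vn 4 (by norm_num)
  push_cast at this
  rw [this] at h1
  norm_num at h1

lemma delta_SW {R : Type} [CommRing R] (a b : R) : (SW a b).Δ = -16 * b * (4 * a ^ 3 + 27 * b) := by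
  simp only [SW, WeierstrassCurve.Δ, WeierstrassCurve.b₂, WeierstrassCurve.b₄, WeierstrassCurve.b₆, WeierstrassCurve.b₈]
  ring

include C in
lemma delta_ne : (SW 1 l).Δ ≠ 0 := by
  rw [delta_SW]
  refine mul_ne_zero (mul_ne_zero (by norm_num) C.l0) ?_
  intro h
  refine disc_ne C ?_
  linear_combination h

lemma eq_on_K (τ : Z.M →ₐ[ℂ] C.Λ) (h : ∀ i, mp (W := E2) τ (Z.w i) = mp C.ι (Z.w i)) (x : KM Z m m') :
    τ (x : Z.M) = C.ι (x : Z.M) := by
  have hc : ∀ a : Fin 3 → ℤ, ∀ y ∈ cs (comb a Z.w), τ y = C.ι y := by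
    intro a
    refine eq_of_mp ?_
    rw [mp_comb, mp_comb]
    congr 1
    exact funext h
  obtain ⟨x, hx⟩ := x
  induction hx using IntermediateField.adjoin_induction with
  | mem y hy =>
    rcases hy with hy | hy
    · exact hc m y hy
    · exact hc m' y hy
  | algebraMap c => exact (τ.commutes c).trans (C.ι.commutes c).symm
  | add a b _ _ h1 h2 => simp only [map_add] at h1 h2 ⊢; rw [h1, h2]
  | inv a _ h1 => simp only [map_inv₀] at h1 ⊢; rw [h1]
  | mul a b _ _ h1 h2 => simp only [map_mul] at h1 h2 ⊢; rw [h1, h2]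

theorem sum_a (ht : Uni m m' n) (P : Pt (E1 l) Z.M) :
    {s | ∑ τ ∈ C.T, lam (C.U m m' n s) (mp τ P) ≠ 0}.Finite ∧
    ∑ᶠ s, ∑ τ ∈ C.T, lam (C.U m m' n s) (mp τ P) =
      (dg ℂ (cs P ∪ cs (comb m Z.w) ∪ cs (comb m' Z.w)) : ℚ) := by
  let _ := algK C m m'
  have hst : IsScalarTower ℂ (KM Z m m') C.Λ := by
    refine IsScalarTower.of_algebraMap_eq fun c => ?_
    exact (C.ι.commutes c).symm
  have := hst
  have hfin := fin_M C m m' n ht
  -- the embeddings over K
  have hinj : Function.Injective (fun τ : Z.M →ₐ[KM Z m m'] C.Λ => τ.restrictScalars ℂ) :=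
    AlgHom.restrictScalars_injective ℂ
  let T' : Finset (Z.M →ₐ[KM Z m m'] C.Λ) := C.T.preimage (fun τ => τ.restrictScalars ℂ) hinj.injOn
  have hmp : ∀ {R : Type} [CommRing R] [Algebra R ℂ] [Algebra R Z.M] [Algebra R C.Λ] [Algebra R (KM Z m m')]
      [IsScalarTower R ℂ Z.M] [IsScalarTower R ℂ C.Λ] [IsScalarTower R (KM Z m m') Z.M]
      [IsScalarTower R (KM Z m m') C.Λ] (W : WeierstrassCurve R)
      (τ : Z.M →ₐ[KM Z m m'] C.Λ) (Q : Pt W Z.M), mp τ Q = mp (τ.restrictScalars ℂ) Q := by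
    intro R _ _ _ _ _ _ _ _ _ W τ Q
    cases Q <;> rfl
  have hT' : ∀ τ, τ ∈ T' ↔ mp (W := E2) τ (comb n Z.w) = comb n C.W := by
    intro τ
    rw [Finset.mem_preimage, C.hT, hmp, comb_W]
    have hK : ∀ x ∈ KM Z m m', (τ.restrictScalars ℂ) x = C.ι x := fun x hx => τ.commutes ⟨x, hx⟩
    constructor
    · intro h
      rw [mp_comb, mp_comb]
      congr 1
      exact funext h
    · intro h i
      obtain ⟨a, b, c, hi⟩ := w_of m m' n ht i
      rw [hi Z.w]
      simp only [map_add, map_zsmul, h]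
      rw [mp_congr (f := τ.restrictScalars ℂ) (g := C.ι) (comb m Z.w) (fun x hx => hK x (IntermediateField.subset_adjoin _ _ (Or.inl hx))),
        mp_congr (f := τ.restrictScalars ℂ) (g := C.ι) (comb m' Z.w) (fun x hx => hK x (IntermediateField.subset_adjoin _ _ (Or.inr hx)))]
  have hrange : ∀ τ ∈ C.T, ∃ τ' ∈ T', τ'.restrictScalars ℂ = τ := by
    intro τ hτ
    have h1 := (C.hT τ).mp hτ
    let τ' : Z.M →ₐ[KM Z m m'] C.Λ := { (τ : Z.M →+* C.Λ) with commutes' := fun x => eq_on_K C m m' τ h1 x }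
    have h2 : τ'.restrictScalars ℂ = τ := AlgHom.ext fun _ => rfl
    exact ⟨τ', by rw [Finset.mem_preimage, h2]; exact hτ, h2⟩
  have hT0 : T'.Nonempty := by
    obtain ⟨τ', h, _⟩ := hrange C.ι ((C.hT _).mpr fun _ => rfl)
    exact ⟨τ', h⟩
  have hsum : ∀ g : (Z.M →ₐ[ℂ] C.Λ) → ℚ, ∑ τ ∈ T', g (τ.restrictScalars ℂ) = ∑ τ ∈ C.T, g τ := by
    intro g
    refine Finset.sum_preimage (fun τ : Z.M →ₐ[KM Z m m'] C.Λ => τ.restrictScalars ℂ) C.T hinj.injOn g ?_
    intro τ hτ hn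
    obtain ⟨τ', _, h⟩ := hrange τ hτ
    exact absurd ⟨τ', h⟩ hn
  have hKb : ∀ x : C.Λ, x ∈ C.Kb m m' ↔ IsAlgebraic (KM Z m m') x := mem_Kb C m m'
  have he : Transcendental (KM Z m m') (xc (comb n C.W)) := by
    intro h
    refine C.tr_K m m' n ht ?_
    have := (hKb _).mpr h
    exact isAlgebraic_algebraMap (⟨_, this⟩ : C.Kb m m')
  have hΔ : algebraMap ℂ (KM Z m m') (SW 1 l).Δ ≠ 0 := (map_ne_zero _).mpr (delta_ne C)
  obtain ⟨h1, h2⟩ := HTP (C.Kb m m') hKb (comb n C.W) he (C.U m m' n) (C.U_spec m m' n ht) (comb n Z.w) hfin T' hT' hT0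
    1 l hΔ P
  have hterm : ∀ s, ∑ τ ∈ T', lam (C.U m m' n s) (mp τ P) = ∑ τ ∈ C.T, lam (C.U m m' n s) (mp τ P) := by
    intro s
    rw [← hsum (fun τ => lam (C.U m m' n s) (mp τ P))]
    refine Finset.sum_congr rfl fun τ _ => ?_
    rw [hmp]
  constructor
  · refine h1.subset ?_
    intro s hs
    rw [Set.mem_ofPred_eq, ← hterm s] at hs
    exact Finset.exists_ne_zero_of_sum_ne_zero hs
  · rw [← finsum_congr hterm, h2]
    congr 1
    have h3 := IntermediateField.adjoin_adjoin_left ℂ (cs (comb m Z.w) ∪ cs (comb m' Z.w)) (cs P)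
    rw [dg, dg, Set.union_assoc, Set.union_comm, ← h3]
    rfl

/-- regrouping a finite sum -/
lemma regroup {A B X : Type*} (ic : B → X) (hic : Function.Injective ic) (r : A → X) (hr : ∀ a, ∃ b, r a = ic b)
    (g : A → ℚ) (hg : {a | g a ≠ 0}.Finite) [inst : ∀ a b, Decidable (r a = ic b)] :
    {b | ∑ᶠ a, (if r a = ic b then g a else 0) ≠ 0}.Finite ∧
    ∑ᶠ a, g a = ∑ᶠ b, ∑ᶠ a, (if r a = ic b then g a else 0) := by
  choose ρ hρ using hr
  have h0 : ∀ a b, r a = ic b ↔ ρ a = b := by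
    intro a b
    rw [hρ a]
    exact hic.eq_iff
  let S : Finset A := hg.toFinset
  have hS : ∀ a, a ∈ S ↔ g a ≠ 0 := fun a => by simp [S]
  have h1 : ∀ b, ∑ᶠ a, (if r a = ic b then g a else 0) = ∑ a ∈ S, (if ρ a = b then g a else 0) := by
    intro b
    simp only [h0]
    refine finsum_eq_sum_of_support_subset _ ?_
    intro a ha
    rw [Function.mem_support] at ha
    rw [Finset.mem_coe, hS]
    intro h; apply ha; rw [h]; simp
  have h2 : Function.support (fun b => ∑ᶠ a, (if r a = ic b then g a else 0)) ⊆ ↑(S.image ρ) := by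
    intro b hb
    rw [Function.mem_support, h1] at hb
    obtain ⟨a, ha, hab⟩ := Finset.exists_ne_zero_of_sum_ne_zero hb
    rw [Finset.coe_image]
    refine ⟨a, ha, ?_⟩
    by_contra h
    rw [if_neg h] at hab
    exact hab rfl
  constructor
  · exact (Finset.finite_toSet _).subset h2
  · rw [finsum_eq_sum_of_support_subset _ h2, finsum_eq_sum_of_support_subset (s := S) g (fun a ha => (hS a).mpr ha)]
    simp only [h1]
    rw [Finset.sum_comm]
    refine Finset.sum_congr rfl fun a ha => ?_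
    rw [Finset.sum_ite_eq, if_pos (Finset.mem_image_of_mem ρ ha)]

lemma pt_lift_inc {Λ : Type} [Field Λ] (K : Subfield Λ) (Q : Pt E2 Λ) (hx : xc Q ∈ K) (hy : yc Q ∈ K) :
    ∃ Q' : Pt E2 K, inc K Q' = Q :=
  pt_lift (W := E2) (P := ℤ) K.subtype.toIntAlgHom Q ⟨⟨_, hx⟩, rfl⟩ ⟨⟨_, hy⟩, rfl⟩

lemma xc_inc {Λ : Type} [Field Λ] (K : Subfield Λ) (Q : Pt E2 K) : xc (inc K Q) = ((xc Q : K) : Λ) := xc_mp _ _

lemma yc_inc {Λ : Type} [Field Λ] (K : Subfield Λ) (Q : Pt E2 K) : yc (inc K Q) = ((yc Q : K) : Λ) := yc_mp _ _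

lemma inc_inj {Λ : Type} [Field Λ] (K : Subfield Λ) : Function.Injective (inc K) := mp_inj _

lemma red_mem (ht : Uni m m' n) (a : Pt E2 (C.Kb m m')) :
    ∃ β : Pt E2 (C.kb m m'), C.red (inc (C.Kb m m') a) = inc (C.kb m m') β := by
  by_cases h0 : a = 0
  · refine ⟨0, ?_⟩
    rw [h0]
    exact ((congrArg C.red (map_zero (inc (C.Kb m m')))).trans (map_zero C.red)).trans
      (map_zero (inc (C.kb m m'))).symm
  have h1 : inc (C.Kb m m') a ≠ 0 := fun h => h0 (inc_inj _ (h.trans (map_zero _).symm))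
  by_cases h2 : xc (inc (C.Kb m m') a) ∈ C.w0.ring
  · obtain ⟨_, hx, hy⟩ := C.hred.fin _ h1 h2
    have hmem : ∀ x : C.Kb m m', C.w0.res x ∈ C.kb m m' := by
      intro x
      by_cases h3 : (x : C.Λ) ∈ C.w0.ring
      · exact (C.kb_iff m m' n ht _).mpr ⟨x, x.2, h3, rfl⟩
      · rw [QV.res, dif_neg h3]; exact (C.kb m m').zero_mem
    have hxm : xc (C.red (inc (C.Kb m m') a)) ∈ C.kb m m' := by rw [hx, xc_inc]; exact hmem (xc a)
    have hym : yc (C.red (inc (C.Kb m m') a)) ∈ C.kb m m' := by rw [hy, yc_inc]; exact hmem (yc a)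
    obtain ⟨β, hβ⟩ := pt_lift_inc (C.kb m m') (C.red (inc (C.Kb m m') a)) hxm hym
    exact ⟨β, hβ.symm⟩
  · exact ⟨0, (C.hred.inf _ h2).trans (map_zero (inc (C.kb m m'))).symm⟩

end

namespace Ctx

variable {l : ℂ} {Z : SubVar l} (C : Ctx Z) (m m' n : Fin 3 → ℤ) (ht : Uni m m' n)

include ht

/-- D1 -/
theorem D1 (P : Pt (E1 l) Z.M) : {β | C.nn m m' n β P ≠ 0}.Finite ∧
    (dg ℂ (cs P ∪ cs (comb m Z.w) ∪ cs (comb m' Z.w)) : ℚ) = ∑ᶠ β, C.nn m m' n β P := by
  obtain ⟨h1, h2⟩ := sum_a C m m' n ht P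
  obtain ⟨h3, h4⟩ := regroup (inst := fun _ _ => Classical.propDecidable _) (inc (C.kb m m')) (inc_inj _)
    (fun a => C.red (inc (C.Kb m m') a)) (red_mem C m m' n ht)
    (fun a => ∑ τ ∈ C.T, lam (C.U m m' n a) (mp τ P)) h1
  have h5 : ∀ β, C.nn m m' n β P = ∑ᶠ a, @ite _ (C.red (inc (C.Kb m m') a) = inc (C.kb m m') β)
      (Classical.propDecidable _) (∑ τ ∈ C.T, lam (C.U m m' n a) (mp τ P)) 0 := by
    intro β
    rw [Ctx.nn]
    refine finsum_congr fun a => ?_
    by_cases h : C.red (inc (C.Kb m m') a) = inc (C.kb m m') β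
    · rw [if_pos h, if_pos h]
    · rw [if_neg h, if_neg h]
  simp only [h5]
  exact ⟨h3, h2.symm.trans h4⟩

end Ctx

end Pool.Agent.VM.XD1p
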