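import Pool.Agent.Lib_helper85.VM.Defs2

/-!
# KK, part (ii): residues of elements of `Kb(S)` and of `Kb(S, Y)`
-/

set_option autoImplicit false

namespace Pool.Agent.VM

open scoped Classical
open Polynomial

attribute [-instance] Subtype.instDecidableEq

namespace KKp

section fe

variable {Λ : Type*} [Field Λ] (K : Subfield Λ) (S Y : Λ)

/-- `K(S)` -/
def KS : Subfield Λ := Subfield.closure ((K : Set Λ) ∪ {S})

lemma K_le_KS : K ≤ KS K S := fun _ hx => Subfield.subset_closure (Or.inl hx)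

lemma S_mem_KS : S ∈ KS K S := Subfield.subset_closure (Or.inr rfl)

lemma KS_eq : KS K S = (IntermediateField.adjoin K {S}).toSubfield := by
  apply le_antisymm
  · rw [KS, Subfield.closure_le]
    rintro x (hx | hx)
    · exact (IntermediateField.adjoin K {S}).algebraMap_mem ⟨x, hx⟩
    · rw [Set.mem_singleton_iff] at hx
      subst hx
      exact IntermediateField.mem_adjoin_simple_self K x
  · intro x hx
    have hx' : x ∈ Subfield.closure (Set.range (algebraMap K Λ) ∪ {S}) := hx
    refine (Subfield.closure_le.mpr ?_) hx'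
    rintro y (⟨z, rfl⟩ | hy)
    · exact K_le_KS K S z.2
    · rw [Set.mem_singleton_iff] at hy
      rw [hy]
      exact S_mem_KS K S

lemma mem_KS_iff (A : Λ) : A ∈ KS K S ↔ ∃ p q : K[X], A = aeval S p / aeval S q := by
  rw [KS_eq, IntermediateField.mem_toSubfield, IntermediateField.mem_adjoin_simple_iff]

/-- every element of `K(S, Y)` is `A + B Y` -/
lemma mem_fe_iff (hY : Y ^ 2 ∈ KS K S) (H : Λ) :
    H ∈ Subfield.closure ((K : Set Λ) ∪ {S, Y}) ↔
      ∃ A ∈ KS K S, ∃ B ∈ KS K S, H = A + B * Y := by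
  constructor
  · intro hH
    induction hH using Subfield.closure_induction with
    | mem x hx =>
      rcases hx with hx | hx | hx
      · exact ⟨x, K_le_KS K S hx, 0, zero_mem _, by ring⟩
      · rw [hx]; exact ⟨S, S_mem_KS K S, 0, zero_mem _, by ring⟩
      · rw [Set.mem_singleton_iff] at hx
        rw [hx]; exact ⟨0, zero_mem _, 1, one_mem _, by ring⟩
    | one => exact ⟨1, one_mem _, 0, zero_mem _, by ring⟩
    | add x y _ _ hx hy =>
      obtain ⟨A, hA, B, hB, rfl⟩ := hx
      obtain ⟨A', hA', B', hB', rfl⟩ := hy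
      exact ⟨A + A', add_mem hA hA', B + B', add_mem hB hB', by ring⟩
    | neg x _ hx =>
      obtain ⟨A, hA, B, hB, rfl⟩ := hx
      exact ⟨-A, neg_mem hA, -B, neg_mem hB, by ring⟩
    | inv x _ hx =>
      obtain ⟨A, hA, B, hB, rfl⟩ := hx
      by_cases h0 : A + B * Y = 0
      · exact ⟨0, zero_mem _, 0, zero_mem _, by rw [h0]; simp⟩
      by_cases h1 : A - B * Y = 0
      · have e : A + B * Y = 2 * A := by linear_combination -h1
        refine ⟨(2 * A)⁻¹, inv_mem (mul_mem ?_ hA), 0, zero_mem _, by rw [e]; ring⟩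
        exact ofNat_mem _ 2
      · have hN : A ^ 2 - B ^ 2 * Y ^ 2 ≠ 0 := by
          have : A ^ 2 - B ^ 2 * Y ^ 2 = (A + B * Y) * (A - B * Y) := by ring
          rw [this]
          exact mul_ne_zero h0 h1
        have hNm : A ^ 2 - B ^ 2 * Y ^ 2 ∈ KS K S :=
          sub_mem (pow_mem hA 2) (mul_mem (pow_mem hB 2) hY)
        refine ⟨A / (A ^ 2 - B ^ 2 * Y ^ 2), div_mem hA hNm,
          -B / (A ^ 2 - B ^ 2 * Y ^ 2), div_mem (neg_mem hB) hNm, ?_⟩
        rw [inv_eq_iff_eq_inv]
        have e : A / (A ^ 2 - B ^ 2 * Y ^ 2) + -B / (A ^ 2 - B ^ 2 * Y ^ 2) * Y =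
            (A - B * Y) / ((A + B * Y) * (A - B * Y)) := by
          have : A ^ 2 - B ^ 2 * Y ^ 2 = (A + B * Y) * (A - B * Y) := by ring
          rw [this]
          ring
        rw [e]
        field_simp
    | mul x y _ _ hx hy =>
      obtain ⟨A, hA, B, hB, rfl⟩ := hx
      obtain ⟨A', hA', B', hB', rfl⟩ := hy
      exact ⟨A * A' + B * B' * Y ^ 2, add_mem (mul_mem hA hA') (mul_mem (mul_mem hB hB') hY),
        A * B' + B * A', add_mem (mul_mem hA hB') (mul_mem hB hA'), by ring⟩
  · rintro ⟨A, hA, B, hB, rfl⟩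
    have hle : KS K S ≤ Subfield.closure ((K : Set Λ) ∪ {S, Y}) := by
      rw [KS, Subfield.closure_le]
      rintro x (hx | hx)
      · exact Subfield.subset_closure (Or.inl hx)
      · exact Subfield.subset_closure (Or.inr (Or.inl hx))
    exact add_mem (hle hA) (mul_mem (hle hB) (Subfield.subset_closure (Or.inr (Or.inr rfl))))

end fe

section gauss

variable {Λ : Type*} [Field Λ] (w : QV Λ)

lemma res_sum {ι : Type*} (s : Finset ι) (f : ι → Λ) (hf : ∀ i ∈ s, f i ∈ w.ring) :
    ∑ i ∈ s, f i ∈ w.ring ∧ w.res (∑ i ∈ s, f i) = ∑ i ∈ s, w.res (f i) := by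
  induction s using Finset.induction_on with
  | empty => exact ⟨by simp, by simp [w.res_zero]⟩
  | insert i s hi ih =>
    obtain ⟨h1, h2⟩ := ih (fun j hj => hf j (Finset.mem_insert_of_mem hj))
    have h3 := hf i (Finset.mem_insert_self i s)
    rw [Finset.sum_insert hi, Finset.sum_insert hi]
    exact ⟨add_mem h3 h1, by rw [w.res_add h3 h1, h2]⟩

lemma res_pow {a : Λ} (ha : a ∈ w.ring) (n : ℕ) : w.res (a ^ n) = w.res a ^ n := by
  induction n with
  | zero => simp [w.res_one]
  | succ n ih => rw [pow_succ, pow_succ, w.res_mul (pow_mem ha n) ha, ih]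

variable (K : Subfield Λ) (κb : Subfield w.κ)
  (hκb : ∀ y, y ∈ κb ↔ ∃ x ∈ K, x ∈ w.ring ∧ w.res x = y) (S : Λ) (hS : S ∈ w.ring)
  (htr : Transcendental κb (w.res S))

include hκb hS htr

/-- Gauss: polynomials in `S` -/
lemma gauss_poly (p : K[X]) (hp : p ≠ 0) :
    ∃ c ∈ K, c ≠ 0 ∧ aeval S p ≠ 0 ∧ w.v (aeval S p) = w.v c ∧
      w.res (aeval S p / c) ∈ KS κb (w.res S) ∧ w.res (aeval S p / c) ≠ 0 := by
  obtain ⟨i, hi, hmin⟩ := Finset.exists_min_image p.support (fun j => w.v (p.coeff j : Λ))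
    (Polynomial.support_nonempty.mpr hp)
  have hci : (p.coeff i : Λ) ≠ 0 := by
    have := Polynomial.mem_support_iff.mp hi
    exact_mod_cast this
  set c : Λ := (p.coeff i : Λ) with hc
  have hcoef : ∀ j, (p.coeff j : Λ) / c ∈ w.ring := by
    intro j
    by_cases hj : (p.coeff j : Λ) = 0
    · rw [hj, zero_div]; exact w.ring.zero_mem
    · rw [w.mem_ring_of (div_ne_zero hj hci), w.div hj hci]
      have hj' : j ∈ p.support := by
        rw [Polynomial.mem_support_iff]
        exact_mod_cast hj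
      have := hmin j hj'
      linarith
  have e1 : aeval S p / c = ∑ j ∈ p.support, ((p.coeff j : Λ) / c) * S ^ j := by
    rw [Polynomial.aeval_eq_sum_range, Finset.sum_div]
    rw [Finset.sum_subset (s₁ := p.support) (s₂ := Finset.range (p.natDegree + 1))]
    · apply Finset.sum_congr rfl
      intro j _
      rw [Algebra.smul_def]
      have : algebraMap K Λ (p.coeff j) = (p.coeff j : Λ) := rfl
      rw [this]
      ring
    · intro j hj
      rw [Finset.mem_range]
      exact Nat.lt_succ_of_le (Polynomial.le_natDegree_of_mem_supp j hj)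
    · intro j _ hj
      have : p.coeff j = 0 := Polynomial.notMem_support_iff.mp hj
      rw [this]
      simp
  have hterm : ∀ j ∈ p.support, ((p.coeff j : Λ) / c) * S ^ j ∈ w.ring :=
    fun j _ => mul_mem (hcoef j) (pow_mem hS j)
  obtain ⟨hm, hr⟩ := res_sum w p.support _ hterm
  have hr' : w.res (aeval S p / c) =
      ∑ j ∈ p.support, w.res ((p.coeff j : Λ) / c) * (w.res S) ^ j := by
    rw [e1, hr]
    apply Finset.sum_congr rfl
    intro j _
    rw [w.res_mul (hcoef j) (pow_mem hS j), res_pow w hS]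
  have hcb : ∀ j, w.res ((p.coeff j : Λ) / c) ∈ κb := by
    intro j
    rw [hκb]
    exact ⟨_, div_mem (p.coeff j).2 (p.coeff i).2, hcoef j, rfl⟩
  have hne : w.res (aeval S p / c) ≠ 0 := by
    rw [hr']
    intro h0
    set q : κb[X] := ∑ j ∈ p.support, monomial j (⟨w.res ((p.coeff j : Λ) / c), hcb j⟩ : κb)
    have hq : aeval (w.res S) q = 0 := by
      rw [← h0]
      simp only [q, map_sum, aeval_monomial]
      rfl
    have hq0 : q = 0 := by
      by_contra hq1
      exact htr ⟨q, hq1, hq⟩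
    have hqi : q.coeff i = 1 := by
      simp only [q, finsetSum_coeff, coeff_monomial]
      rw [Finset.sum_eq_single i]
      · rw [if_pos rfl]
        apply Subtype.ext
        show w.res ((p.coeff i : Λ) / c) = 1
        rw [← hc, div_self hci, w.res_one]
      · intro j _ hj
        rw [if_neg hj]
      · intro h; exact absurd hi h
    rw [hq0, coeff_zero] at hqi
    exact zero_ne_one hqi
  have hmem : aeval S p / c ∈ w.ring := by rw [e1]; exact hm
  have hne' : aeval S p / c ≠ 0 := by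
    intro h
    rw [h, w.res_zero] at hne
    exact hne rfl
  have hpne : aeval S p ≠ 0 := by
    intro h
    apply hne'
    rw [h, zero_div]
  refine ⟨c, (p.coeff i).2, hci, hpne, ?_, ?_, hne⟩
  · have h1 : 0 ≤ w.v (aeval S p / c) := (w.mem_ring_of hne').mp hmem
    have h2 : ¬ 0 < w.v (aeval S p / c) := by
      intro h
      exact hne ((w.res_eq_zero_iff hmem).mpr (Or.inr h))
    rw [w.div hpne hci] at h1 h2
    linarith
  · rw [hr']
    exact sum_mem fun j _ => mul_mem (K_le_KS κb _ (hcb j)) (pow_mem (S_mem_KS κb _) j)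

/-- Gauss: elements of `K(S)` -/
lemma gauss_KS (A : Λ) (hA : A ∈ KS K S) (hA0 : A ≠ 0) :
    ∃ c ∈ K, c ≠ 0 ∧ w.v A = w.v c ∧ w.res (A / c) ∈ KS κb (w.res S) ∧ w.res (A / c) ≠ 0 := by
  obtain ⟨p, q, rfl⟩ := (mem_KS_iff K S A).mp hA
  have hp : p ≠ 0 := by rintro rfl; simp at hA0
  have hq : q ≠ 0 := by rintro rfl; simp at hA0
  obtain ⟨c, hc, hc0, hp0, hv, hm, hn⟩ := gauss_poly w K κb hκb S hS htr p hp
  obtain ⟨d, hd, hd0, hq0, hv', hm', hn'⟩ := gauss_poly w K κb hκb S hS htr q hq
  refine ⟨c / d, div_mem hc hd, div_ne_zero hc0 hd0, ?_, ?_⟩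
  · rw [w.div hp0 hq0, w.div hc0 hd0, hv, hv']
  · have e : aeval S p / aeval S q / (c / d) * (aeval S q / d) = aeval S p / c := by
      field_simp
    have hx : aeval S p / aeval S q / (c / d) ∈ w.ring := by
      rw [w.mem_ring_of (div_ne_zero hA0 (div_ne_zero hc0 hd0)),
        w.div hA0 (div_ne_zero hc0 hd0), w.div hp0 hq0, w.div hc0 hd0, hv, hv']
      linarith
    have hy : aeval S q / d ∈ w.ring := by
      rw [w.mem_ring_of (div_ne_zero hq0 hd0), w.div hq0 hd0, hv']
      linarith
    have hres := w.res_mul hx hy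
    rw [e] at hres
    have hval : w.res (aeval S p / aeval S q / (c / d)) =
        w.res (aeval S p / c) / w.res (aeval S q / d) := by
      rw [hres]
      field_simp
    rw [hval]
    exact ⟨div_mem hm hm', div_ne_zero hn hn'⟩

end gauss

end KKp

end Pool.Agent.VM
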