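import Pool.Agent.Lib_helper15.VM.III
import Pool.Agent.Lib_VM.KKii_h5

/-!
# MP_5582d1_ag, D3: Gauss norms and denominators
-/

set_option autoImplicit false

namespace Pool.Agent.VM.D3p

open scoped Classical
open Polynomial Pool.Agent.VM

attribute [-instance] Subtype.instDecidableEq

noncomputable section

variable {Λ : Type} [Field Λ]

/-- the polar contribution of the elements of `s` -/
def hh (u : QV Λ) (s : Multiset Λ) : ℚ :=
  (s.map fun r => if r = 0 then 0 else max 0 (-(u.v r))).sum

/-- the monic polynomial with roots `s` -/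
def pl (s : Multiset Λ) : Λ[X] := (s.map fun r => X - C r).prod

lemma hh_nonneg (u : QV Λ) (s : Multiset Λ) : 0 ≤ hh u s := by
  apply Multiset.sum_nonneg
  intro x hx
  obtain ⟨r, _, rfl⟩ := Multiset.mem_map.mp hx
  split_ifs
  · exact le_refl _
  · exact le_max_left _ _

lemma hh_add (u : QV Λ) (s t : Multiset Λ) : hh u (s + t) = hh u s + hh u t := by
  rw [hh, Multiset.map_add, Multiset.sum_add]; rfl

lemma pl_add (s t : Multiset Λ) : pl (s + t) = pl s * pl t := by
  rw [pl, Multiset.map_add, Multiset.prod_add]; rfl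

lemma pl_monic (s : Multiset Λ) : (pl s).Monic := monic_multiset_prod_of_monic _ _
  (fun r _ => monic_X_sub_C r)

lemma hh_eq (u : QV Λ) (s : Multiset Λ) :
    (s.map (fun r => if r = 0 then 0 else min 0 (u.v r))).sum = - hh u s := by
  rw [hh, ← Multiset.sum_map_neg', Multiset.map_map]
  congr 1
  apply Multiset.map_congr rfl
  intro r _
  simp only [Function.comp]
  split_ifs
  · simp
  · rw [← min_neg_neg]; simp

lemma gn_pl (u : QV Λ) (b : Λ) (hb : b ≠ 0) (s : Multiset Λ) :
    IsGN u (C b * pl s) (u.v b - hh u s) := by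
  have := gauss_prod u b hb s
  rw [hh_eq, ← sub_eq_add_neg] at this
  exact this

lemma gn_unique (u : QV Λ) (f : Λ[X]) (g g' : ℚ) (h : IsGN u f g) (h' : IsGN u f g') :
    g = g' := by
  obtain ⟨h1, j, hj, hj'⟩ := h
  obtain ⟨h1', j', hj1, hj1'⟩ := h'
  apply le_antisymm
  · rw [← hj1']; exact h1 j' hj1
  · rw [← hj']; exact h1' j hj

lemma gn_pl_one (u : QV Λ) (s : Multiset Λ) : IsGN u (pl s) (- hh u s) := by
  have := gn_pl u 1 one_ne_zero s
  rwa [u.one, zero_sub, C_1, one_mul] at this

/-- `hh` is determined by the values of the coefficients -/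
lemma hh_congr (u u' : QV Λ) (s s' : Multiset Λ)
    (h0 : ∀ j, (pl s).coeff j = 0 ↔ (pl s').coeff j = 0)
    (h : ∀ j, (pl s).coeff j ≠ 0 → u.v ((pl s).coeff j) = u'.v ((pl s').coeff j)) :
    hh u s = hh u' s' := by
  have h1 := gn_pl_one u s
  have h2 := gn_pl_one u' s'
  have h3 : IsGN u' (pl s') (- hh u s) := by
    obtain ⟨a, j, hj, hj'⟩ := h1
    refine ⟨fun i hi => ?_, j, ?_, ?_⟩
    · rw [← h i (fun h' => hi ((h0 i).mp h'))]
      exact a i (fun h' => hi ((h0 i).mp h'))
    · exact fun h' => hj ((h0 j).mpr h')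
    · rw [← h j hj]; exact hj'
  have := gn_unique _ _ _ _ h2 h3
  linarith

lemma mem_fs_iff (K : Subfield Λ) (S A : Λ) :
    A ∈ fs K S ↔ ∃ p q : K[X], A = aeval S p / aeval S q := KKp.mem_KS_iff K S A

lemma aeval_mem_fs (K : Subfield Λ) (S : Λ) (p : K[X]) : aeval S p ∈ fs K S := by
  rw [mem_fs_iff]
  exact ⟨p, 1, by simp⟩

section

variable (K : Subfield Λ) (S : Λ) (u : QV Λ) (hu : ∀ c ∈ K, c ≠ 0 → u.v c = 0) (hSu : S ∈ u.ring)

include hu hSu

lemma aeval_ring (p : K[X]) : aeval S p ∈ u.ring := by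
  induction p using Polynomial.induction_on' with
  | add p q hp hq => rw [map_add]; exact add_mem hp hq
  | monomial n a =>
    rw [aeval_monomial]
    refine mul_mem ?_ (pow_mem hSu n)
    by_cases ha : (a : Λ) = 0
    · left; exact ha
    · right; exact (hu a a.2 ha).ge

/-- the centre of `u` on `K[S]` -/
def cen : Ideal K[X] where
  carrier := {B | aeval S B = 0 ∨ 0 < u.v (aeval S B)}
  zero_mem' := by left; simp
  add_mem' := by
    rintro a b ha hb
    simp only [Set.mem_ofPred_eq] at ha hb ⊢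
    rw [map_add]
    by_cases ha0 : aeval S a = 0
    · rw [ha0, zero_add]; exact hb
    by_cases hb0 : aeval S b = 0
    · rw [hb0, add_zero]; exact ha
    by_cases hab : aeval S a + aeval S b = 0
    · left; exact hab
    · right
      exact lt_of_lt_of_le (lt_min (ha.resolve_left ha0) (hb.resolve_left hb0)) (u.add ha0 hb0 hab)
  smul_mem' := by
    rintro c a ha
    simp only [Set.mem_ofPred_eq, smul_eq_mul, map_mul] at ha ⊢
    by_cases ha0 : aeval S a = 0
    · left; rw [ha0, mul_zero]
    by_cases hc0 : aeval S c = 0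
    · left; rw [hc0, zero_mul]
    right
    rw [u.mul hc0 ha0]
    have h1 := (u.mem_ring_of hc0).mp (aeval_ring K S u hu hSu c)
    have h2 := ha.resolve_left ha0
    linarith

lemma one_notMem_cen : (1 : K[X]) ∉ cen K S u hu hSu := by
  rintro (h | h)
  · simp at h
  · rw [map_one, u.one] at h
    exact lt_irrefl _ h

end

/-- the ideal of denominators -/
def den (K : Subfield Λ) (S : Λ) (f : Λ[X]) : Ideal K[X] where
  carrier := {B | ∀ j, ∃ A : K[X], aeval S B * f.coeff j = aeval S A}
  zero_mem' := fun j => ⟨0, by simp⟩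
  add_mem' := by
    rintro a b ha hb j
    obtain ⟨A, hA⟩ := ha j
    obtain ⟨B, hB⟩ := hb j
    exact ⟨A + B, by rw [map_add, map_add, add_mul, hA, hB]⟩
  smul_mem' := by
    rintro c a ha j
    obtain ⟨A, hA⟩ := ha j
    exact ⟨c * A, by rw [smul_eq_mul, map_mul, map_mul, mul_assoc, hA]⟩

lemma den_ne_bot (K : Subfield Λ) (S : Λ) (hS : Transcendental K S) (f : Λ[X])
    (hc : ∀ j, f.coeff j ∈ fs K S) : den K S f ≠ ⊥ := by
  have h1 : ∀ j, ∃ q : K[X], q ≠ 0 ∧ ∃ A : K[X], aeval S q * f.coeff j = aeval S A := by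
    intro j
    obtain ⟨p, q, h⟩ := (mem_fs_iff K S _).mp (hc j)
    by_cases hq : q = 0
    · refine ⟨1, one_ne_zero, 0, ?_⟩
      rw [h, hq]; simp
    · refine ⟨q, hq, p, ?_⟩
      have : aeval S q ≠ 0 := fun h0 => hq ((transcendental_iff.mp hS) q h0)
      rw [h]; field_simp
  choose q hq A hA using h1
  have h2 : ∏ j ∈ f.support, q j ∈ den K S f := by
    intro j
    by_cases hj : j ∈ f.support
    · refine ⟨(∏ i ∈ f.support.erase j, q i) * A j, ?_⟩
      rw [← Finset.prod_erase_mul _ _ hj, map_mul, map_mul, mul_assoc, hA]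
    · refine ⟨0, ?_⟩
      rw [Polynomial.notMem_support_iff.mp hj]; simp
  intro h
  rw [h, Ideal.mem_bot] at h2
  exact (Finset.prod_ne_zero_iff.mpr (fun j _ => hq j)) h2

/-- denominators -/
lemma exists_b (K : Subfield Λ) (S : Λ) (hS : Transcendental K S) (f : Λ[X]) (hf : f.Monic)
    (hc : ∀ j, f.coeff j ∈ fs K S) :
    ∃ b ∈ fs K S, b ≠ 0 ∧ ∀ u : QV Λ, (∀ c ∈ K, c ≠ 0 → u.v c = 0) → S ∈ u.ring →
      IsGN u (C b * f) 0 := by
  have inj : ∀ p : K[X], aeval S p = 0 → p = 0 := transcendental_iff.mp hS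
  set B0 := Submodule.IsPrincipal.generator (den K S f) with hB0
  have hB0m : B0 ∈ den K S f := Submodule.IsPrincipal.generator_mem _
  have hB0z : B0 ≠ 0 := by
    intro h
    exact den_ne_bot K S hS f hc ((Submodule.IsPrincipal.eq_bot_iff_generator_eq_zero _).mpr h)
  have hB0s : aeval S B0 ≠ 0 := fun h => hB0z (inj _ h)
  have hA : ∀ j, ∃ A : K[X], aeval S B0 * f.coeff j = aeval S A := hB0m
  choose A hA using hA
  have htop : A f.natDegree = B0 := by
    have h := hA f.natDegree
    rw [hf.coeff_natDegree, mul_one] at h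
    have : aeval S (A f.natDegree - B0) = 0 := by rw [map_sub, ← h, sub_self]
    exact sub_eq_zero.mp (inj _ this)
  have hJ : Ideal.span (Set.range A) = ⊤ := by
    by_contra hne
    obtain ⟨m, hm, hle⟩ := Ideal.exists_le_maximal _ hne
    set π := Submodule.IsPrincipal.generator m with hπ
    have hdiv : ∀ j, π ∣ A j := fun j =>
      (Submodule.IsPrincipal.mem_iff_generator_dvd m).mp
        (hle (Ideal.subset_span ⟨j, rfl⟩))
    choose A' hA' using hdiv
    have hπs : aeval S π ≠ 0 := by
      intro h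
      have := hA' f.natDegree
      rw [htop, inj _ h, zero_mul] at this
      exact hB0z this
    have hB' : A' f.natDegree ∈ den K S f := by
      intro j
      refine ⟨A' j, ?_⟩
      have h1 := hA j
      rw [hA' j, map_mul] at h1
      rw [← htop, hA' f.natDegree, map_mul, mul_assoc] at h1
      exact mul_left_cancel₀ hπs h1
    obtain ⟨c, hcc⟩ := (Submodule.IsPrincipal.mem_iff_generator_dvd (den K S f)).mp hB'
    have h3 : B0 * (π * c) = B0 * 1 := by
      rw [mul_one]
      conv_rhs => rw [← htop, hA' f.natDegree, hcc, ← hB0]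
      ring
    have h4 := mul_left_cancel₀ hB0z h3
    have h5 : (1 : K[X]) ∈ m := by
      rw [← h4]
      exact Ideal.mul_mem_right _ _ (Submodule.IsPrincipal.generator_mem m)
    exact hm.ne_top ((Ideal.eq_top_iff_one _).mpr h5)
  refine ⟨aeval S B0, aeval_mem_fs K S B0, hB0s, fun u hu hSu => ?_⟩
  have hcoef : ∀ j, (C (aeval S B0) * f).coeff j = aeval S (A j) := by
    intro j
    rw [coeff_C_mul, hA]
  constructor
  · intro j hj
    rw [hcoef] at hj ⊢
    exact (u.mem_ring_of hj).mp (aeval_ring K S u hu hSu (A j))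
  · by_contra hcon
    push Not at hcon
    have h6 : Set.range A ⊆ cen K S u hu hSu := by
      rintro _ ⟨j, rfl⟩
      show aeval S (A j) = 0 ∨ 0 < u.v (aeval S (A j))
      by_cases h0 : aeval S (A j) = 0
      · left; exact h0
      · right
        have h7 := (u.mem_ring_of h0).mp (aeval_ring K S u hu hSu (A j))
        have h8 := hcon j (by rw [hcoef]; exact h0)
        rw [hcoef] at h8
        exact lt_of_le_of_ne h7 (Ne.symm h8)
    have h9 : (1 : K[X]) ∈ cen K S u hu hSu := by
      have : Ideal.span (Set.range A) ≤ cen K S u hu hSu := Ideal.span_le.mpr h6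
      exact this (hJ ▸ Submodule.mem_top)
    exact one_notMem_cen K S u hu hSu h9

end

end Pool.Agent.VM.D3p
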