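import Pool.Agent.Lib_VM.KKB_h78

/-!
# MP_5582d1_ag: block KK: values at a point of `E₂`
-/

set_option autoImplicit false

namespace Pool.Agent.VM

open scoped Classical
open Polynomial

attribute [-instance] Subtype.instDecidableEq

section KV

variable {Λ : Type} [Field Λ] {k : Subfield Λ} {e : Pt E2 Λ} {u u' : QV Λ} {a : Pt E2 k}

/-- the value of a local parameter -/
noncomputable def kd (e : Pt E2 Λ) (a : Pt E2 k) (u : QV Λ) : ℚ :=
  if a = 0 then u.v (xc e) - u.v (yc e) else if yc a = 0 then u.v (yc e)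
    else u.v (xc e - ((xc a : k) : Λ))

theorem kk_two {A B A' B' : Λ} {α β : ℤ} {δ δ' : ℚ} (hδ : 0 < δ) (hδ' : 0 < δ') (hne : α ≠ β)
    (hAA : A = 0 ↔ A' = 0) (hBB : B = 0 ↔ B' = 0)
    (hA : A ≠ 0 → u.v A = α * δ ∧ u'.v A' = α * δ') (hB : B ≠ 0 → u.v B = β * δ ∧ u'.v B' = β * δ')
    (h0 : ¬(A = 0 ∧ B = 0)) : ∃ n : ℤ, u.v (A + B) = n * δ ∧ u'.v (A' + B') = n * δ' := by
  by_cases hA0 : A = 0
  · have hB0 : B ≠ 0 := fun h => h0 ⟨hA0, h⟩
    refine ⟨β, ?_, ?_⟩
    · rw [hA0, zero_add]; exact (hB hB0).1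
    · rw [hAA.mp hA0, zero_add]; exact (hB hB0).2
  by_cases hB0 : B = 0
  · refine ⟨α, ?_, ?_⟩
    · rw [hB0, add_zero]; exact (hA hA0).1
    · rw [hBB.mp hB0, add_zero]; exact (hA hA0).2
  have hA0' : A' ≠ 0 := fun h => hA0 (hAA.mpr h)
  have hB0' : B' ≠ 0 := fun h => hB0 (hBB.mpr h)
  obtain ⟨a1, a2⟩ := hA hA0
  obtain ⟨b1, b2⟩ := hB hB0
  rcases lt_or_gt_of_ne hne with h | h
  · have hq : (α : ℚ) < β := by exact_mod_cast h
    refine ⟨α, ?_, ?_⟩
    · rw [(u.add_eq_of_lt hA0 hB0 (by rw [a1, b1]; exact mul_lt_mul_of_pos_right hq hδ)).2, a1]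
    · rw [(u'.add_eq_of_lt hA0' hB0' (by rw [a2, b2]; exact mul_lt_mul_of_pos_right hq hδ')).2, a2]
  · have hq : (β : ℚ) < α := by exact_mod_cast h
    refine ⟨β, ?_, ?_⟩
    · rw [add_comm, (u.add_eq_of_lt hB0 hA0 (by rw [a1, b1]; exact mul_lt_mul_of_pos_right hq hδ)).2,
        b1]
    · rw [add_comm, (u'.add_eq_of_lt hB0' hA0'
        (by rw [a2, b2]; exact mul_lt_mul_of_pos_right hq hδ')).2, b2]

theorem kk_cubic_ne : (X ^ 3 + 1 : k[X]) ≠ 0 := by
  have := (monic_X_pow_add_C (1 : k) (n := 3) (by norm_num)).ne_zero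
  simpa using this

theorem kk_cubic_deg : (X ^ 3 + 1 : k[X]).natDegree = 3 := by
  have := natDegree_X_pow_add_C (n := 3) (r := (1 : k))
  simpa using this

theorem kk_ysq (he : Transcendental k (xc e)) : yc e ^ 2 = aeval (xc e) (X ^ 3 + 1 : k[X]) := by
  rw [kk_sq (kk_ne he)]; simp

theorem kk_yne (he : Transcendental k (xc e)) : yc e ≠ 0 := by
  intro h
  have h1 := kk_ysq he
  rw [h] at h1
  exact kk_pne he (kk_cubic_ne (k := k)) (by rw [← h1]; norm_num)

theorem kk_xne (he : Transcendental k (xc e)) : xc e ≠ 0 := by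
  have := kk_pne he (X_ne_zero : (X : k[X]) ≠ 0)
  rwa [aeval_X] at this

/-- values of the coordinates at infinity -/
theorem Cen.inf_vals (he : Transcendental k (xc e)) (h : Cen k e a u) (ha : a = 0) :
    0 < kd e a u ∧ u.v (xc e) = -2 * kd e a u ∧ u.v (yc e) = -3 * kd e a u := by
  have hx := h.inf ha
  have h1 := h.polyInf he ha (kk_cubic_ne (k := k))
  rw [kk_cubic_deg, ← kk_ysq he, u.pow (kk_yne he)] at h1
  push_cast at h1
  unfold kd
  rw [if_pos ha]
  refine ⟨by linarith, by linarith, by linarith⟩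

/-- values of the coordinates at a point of order two -/
theorem Cen.two_vals (he : Transcendental k (xc e)) (h3 : (3 : Λ) ≠ 0) (h : Cen k e a u) (ha : a ≠ 0)
    (hy : yc a = 0) : 0 < kd e a u ∧ u.v (yc e) = kd e a u ∧
      u.v (xc e - ((xc a : k) : Λ)) = 2 * kd e a u := by
  have h0 : kF e (0 : k[X]) 1 = yc e := by unfold kF; simp
  have h1 : 0 < u.v (yc e) := by
    rw [← h0]
    apply h.pos ha
    · rw [h0]; exact kk_yne he
    · rw [hy]; simp
  have hd : kd e a u = u.v (yc e) := by unfold kd; rw [if_neg ha, if_pos hy]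
  refine ⟨by rw [hd]; exact h1, hd.symm, ?_⟩
  have hs := kk_sq ha
  rw [hy] at hs
  have hx0 : (xc a : k) ≠ 0 := by
    intro h0; rw [h0] at hs; norm_num at hs
  have e1 : (X ^ 3 + 1 : k[X]) = (X - C (xc a)) * (X ^ 2 + C (xc a) * X + C (xc a) ^ 2) := by
    have : (1 : k[X]) = - C (xc a : k) ^ 3 := by
      rw [← C_pow, ← C_neg, ← C_1]
      congr 1
      linear_combination -hs
    rw [this]; ring
  have g0 : (X ^ 2 + C (xc a : k) * X + C (xc a) ^ 2 : k[X]) ≠ 0 := by
    intro h4
    rw [h4, mul_zero] at e1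
    exact kk_cubic_ne e1
  have hg : u.v (aeval (xc e) (X ^ 2 + C (xc a : k) * X + C (xc a) ^ 2 : k[X])) = 0 := by
    rw [← kF_zero]
    apply h.zero ha
    · rw [kF_zero]; exact kk_pne he g0
    · simp only [eval_add, eval_mul, eval_pow, eval_X, eval_C, eval_zero, zero_mul, add_zero]
      have : (xc a : k) ^ 2 + xc a * xc a + xc a ^ 2 = 3 * (xc a) ^ 2 := by ring
      rw [this]
      refine mul_ne_zero ?_ (pow_ne_zero 2 hx0)
      intro h4
      apply h3
      have := congrArg (algebraMap k Λ) h4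
      rwa [map_ofNat, map_zero] at this
  have hq := u.pow (kk_yne he) 2
  rw [kk_ysq he, e1, map_mul, u.mul (kk_pne he (X_sub_C_ne_zero _)) (kk_pne he g0), hg,
    aeval_sub_C, add_zero] at hq
  rw [hq, hd]
  norm_num

theorem Cen.gen_vals (he : Transcendental k (xc e)) (h : Cen k e a u) (ha : a ≠ 0)
    (hy : yc a ≠ 0) : 0 < kd e a u ∧ u.v (xc e - ((xc a : k) : Λ)) = kd e a u := by
  have hd : kd e a u = u.v (xc e - ((xc a : k) : Λ)) := by unfold kd; rw [if_neg ha, if_neg hy]
  refine ⟨?_, hd.symm⟩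
  rw [hd, ← aeval_sub_C, ← kF_zero]
  apply h.pos ha
  · rw [kF_zero]; exact kk_pne he (X_sub_C_ne_zero _)
  · simp

theorem Cen.kd_pos (he : Transcendental k (xc e)) (h3 : (3 : Λ) ≠ 0) (h : Cen k e a u) :
    0 < kd e a u := by
  by_cases ha : a = 0
  · exact (h.inf_vals he ha).1
  by_cases hy : yc a = 0
  · exact (h.two_vals he h3 ha hy).1
  · exact (h.gen_vals he ha hy).1

theorem kk_neg_zero {F : Type*} [Field F] {a : Pt E2 F} (ha : a ≠ 0) : -a ≠ 0 := neg_ne_zero.mpr ha

/-- all values are integral multiples of the value of a local parameter, and symmetry -/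
theorem kk_S {e' : Pt E2 Λ} (he : Transcendental k (xc e)) (he' : Transcendental k (xc e'))
    (h2 : (2 : Λ) ≠ 0) (h3 : (3 : Λ) ≠ 0)
    (h : Cen k e a u) (h' : Cen k e' (-a) u') (P Q : k[X]) (hPQ : ¬(P = 0 ∧ Q = 0)) :
    ∃ n : ℤ, u.v (kF e P Q) = n * kd e a u ∧ u'.v (kF e' P (-Q)) = n * kd e' (-a) u' := by
  have hd := h.kd_pos he h3
  have hd' := h'.kd_pos he' h3
  have hnz : ¬(aeval (xc e) P = 0 ∧ aeval (xc e) Q * yc e = 0) := by
    rintro ⟨h4, h5⟩
    apply hPQ
    constructor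
    · by_contra h6; exact kk_pne he h6 h4
    · by_contra h6; exact mul_ne_zero (kk_pne he h6) (kk_yne he) h5
  have hP0 : aeval (xc e) P ≠ 0 → P ≠ 0 := by rintro h6 rfl; exact h6 (map_zero _)
  have hQ0 : aeval (xc e) Q * yc e ≠ 0 → Q ≠ 0 := by
    rintro h6 rfl; exact h6 (by rw [map_zero, zero_mul])
  have hAA : aeval (xc e) P = 0 ↔ aeval (xc e') P = 0 := by
    constructor
    · intro h4; by_cases h6 : P = 0
      · rw [h6, map_zero]
      · exact absurd h4 (kk_pne he h6)
    · intro h4; by_cases h6 : P = 0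
      · rw [h6, map_zero]
      · exact absurd h4 (kk_pne he' h6)
  have hBB : aeval (xc e) Q * yc e = 0 ↔ aeval (xc e') (-Q) * yc e' = 0 := by
    constructor
    · intro h4; by_cases h6 : Q = 0
      · rw [h6, neg_zero, map_zero, zero_mul]
      · exact absurd h4 (mul_ne_zero (kk_pne he h6) (kk_yne he))
    · intro h4; by_cases h6 : Q = 0
      · rw [h6, map_zero, zero_mul]
      · exact absurd h4 (mul_ne_zero (kk_pne he' (neg_ne_zero.mpr h6)) (kk_yne he'))
  by_cases ha : a = 0
  · have ha' : -a = 0 := by rw [ha, neg_zero]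
    obtain ⟨_, x1, y1⟩ := h.inf_vals he ha
    obtain ⟨_, x2, y2⟩ := h'.inf_vals he' ha'
    unfold kF
    refine kk_two (α := -(2 * P.natDegree)) (β := -(2 * Q.natDegree + 3)) hd hd' (by omega)
      hAA hBB ?_ ?_ hnz
    · intro h4
      rw [h.polyInf he ha (hP0 h4), h'.polyInf he' ha' (hP0 h4), x1, x2]
      push_cast
      constructor <;> ring
    · intro h4
      have hQ := hQ0 h4
      rw [u.mul (kk_pne he hQ) (kk_yne he), u'.mul (kk_pne he' (neg_ne_zero.mpr hQ)) (kk_yne he'),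
        h.polyInf he ha hQ, h'.polyInf he' ha' (neg_ne_zero.mpr hQ), x1, x2, y1, y2, natDegree_neg]
      push_cast
      constructor <;> ring
  have ha' : -a ≠ 0 := kk_neg_zero ha
  have hxa : xc (-a) = xc a := ptf_xc_neg a
  have hya : yc (-a) = -yc a := ptf_yc_neg a
  by_cases hy : yc a = 0
  · have hy' : yc (-a) = 0 := by rw [hya, hy, neg_zero]
    obtain ⟨_, y1, x1⟩ := h.two_vals he h3 ha hy
    obtain ⟨_, y2, x2⟩ := h'.two_vals he' h3 ha' hy'
    unfold kF
    refine kk_two (α := 2 * P.rootMultiplicity (xc a)) (β := 2 * Q.rootMultiplicity (xc a) + 1)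
      hd hd' (by omega) hAA hBB ?_ ?_ hnz
    · intro h4
      rw [h.poly he ha (hP0 h4), h'.poly he' ha' (hP0 h4), x1, x2, hxa]
      push_cast
      constructor <;> ring
    · intro h4
      have hQ := hQ0 h4
      have hB : aeval (xc e') (-Q) * yc e' = -(aeval (xc e') Q * yc e') := by rw [map_neg]; ring
      rw [hB, u'.neg, u.mul (kk_pne he hQ) (kk_yne he), u'.mul (kk_pne he' hQ) (kk_yne he'),
        h.poly he ha hQ, h'.poly he' ha' hQ, x1, x2, y1, y2, hxa]
      push_cast
      constructor <;> ring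
  · have hy' : yc (-a) ≠ 0 := by rw [hya]; exact neg_ne_zero.mpr hy
    obtain ⟨_, x1⟩ := h.gen_vals he ha hy
    obtain ⟨_, x2⟩ := h'.gen_vals he' ha' hy'
    rw [hxa] at x2
    clear hnz hP0 hQ0 hAA hBB
    induction hn : P.natDegree + Q.natDegree using Nat.strong_induction_on generalizing P Q with
    | _ n ih =>
      by_cases hv : P.eval (xc a) = 0 ∧ Q.eval (xc a) = 0
      · obtain ⟨P', hP'⟩ := dvd_iff_isRoot.mpr hv.1
        obtain ⟨Q', hQ'⟩ := dvd_iff_isRoot.mpr hv.2
        have hPQ' : ¬(P' = 0 ∧ Q' = 0) := by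
          rintro ⟨rfl, rfl⟩
          apply hPQ
          exact ⟨by rw [hP', mul_zero], by rw [hQ', mul_zero]⟩
        have hdeg : ∀ R R' : k[X], R = (X - C (xc a)) * R' → (R' = 0 ∧ R.natDegree = 0) ∨
            R.natDegree = R'.natDegree + 1 := by
          intro R R' hR
          by_cases h0 : R' = 0
          · left; rw [hR, h0, mul_zero]; simp
          · right; rw [hR, natDegree_mul (X_sub_C_ne_zero _) h0, natDegree_X_sub_C]; ring
        have hlt : P'.natDegree + Q'.natDegree < n := by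
          rcases hdeg P P' hP' with ⟨p1, p2⟩ | p1
          · rcases hdeg Q Q' hQ' with ⟨q1, q2⟩ | q1
            · exact absurd ⟨p1, q1⟩ hPQ'
            · rw [p1]; simp; omega
          · rcases hdeg Q Q' hQ' with ⟨q1, q2⟩ | q1
            · rw [q1]; simp; omega
            · omega
        obtain ⟨m, m1, m2⟩ := ih _ hlt P' Q' hPQ' rfl
        have hPQ'' : ¬(P' = 0 ∧ -Q' = 0) := by simpa using hPQ'
        have e1 : kF e P Q = (xc e - ((xc a : k) : Λ)) * kF e P' Q' := by
          rw [hP', hQ']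
          unfold kF
          simp only [map_mul, aeval_sub_C]
          ring
        have e2 : kF e' P (-Q) = (xc e' - ((xc a : k) : Λ)) * kF e' P' (-Q') := by
          rw [hP', hQ']
          unfold kF
          simp only [map_neg, map_mul, aeval_sub_C]
          ring
        have hx0 : (xc e - ((xc a : k) : Λ)) ≠ 0 := by
          rw [← aeval_sub_C]; exact kk_pne he (X_sub_C_ne_zero _)
        have hx0' : (xc e' - ((xc a : k) : Λ)) ≠ 0 := by
          rw [← aeval_sub_C]; exact kk_pne he' (X_sub_C_ne_zero _)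
        refine ⟨m + 1, ?_, ?_⟩
        · rw [e1, u.mul hx0 (kF_ne he hPQ'), m1, x1]; push_cast; ring
        · rw [e2, u'.mul hx0' (kF_ne he' hPQ''), m2, x2]; push_cast; ring
      · have hPQ'' : ¬(P = 0 ∧ -Q = 0) := by simpa using hPQ
        by_cases hF : P.eval (xc a) + Q.eval (xc a) * yc a = 0
        · have hF' : P.eval (xc a) + (-Q).eval (xc a) * yc a ≠ 0 := by
            rw [eval_neg]
            intro h0
            apply hv
            have t1 : 2 * P.eval (xc a) = 0 := by linear_combination hF + h0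
            have h2k : (2 : k) ≠ 0 := by
              intro h4; apply h2
              have := congrArg (algebraMap k Λ) h4
              rwa [map_ofNat, map_zero] at this
            have t2 : P.eval (xc a) = 0 := (mul_eq_zero.mp t1).resolve_left h2k
            rw [t2, zero_add] at hF
            exact ⟨t2, (mul_eq_zero.mp hF).resolve_right hy⟩
          have z1 : u.v (kF e P (-Q)) = 0 := h.zero ha (kF_ne he hPQ'') hF'
          have z2 : u'.v (kF e' P Q) = 0 := by
            apply h'.zero ha' (kF_ne he' hPQ)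
            rw [hxa, hya]
            intro h0
            apply hF'
            rw [eval_neg]
            linear_combination h0
          refine ⟨(kN P Q).rootMultiplicity (xc a), ?_, ?_⟩
          · have := h.poly he ha (kN_ne hPQ)
            rw [← kk_norm he P Q, u.mul (kF_ne he hPQ) (kF_ne he hPQ''), z1, add_zero, x1] at this
            rw [this]; push_cast; ring
          · have := h'.poly he' ha' (kN_ne hPQ)
            rw [← kk_norm he' P Q, u'.mul (kF_ne he' hPQ) (kF_ne he' hPQ''), z2, zero_add, hxa, x2]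
              at this
            rw [this]; push_cast; ring
        · refine ⟨0, ?_, ?_⟩
          · rw [h.zero ha (kF_ne he hPQ) hF]; simp
          · rw [h'.zero ha' (kF_ne he' hPQ'') ?_]
            · simp
            · rw [hxa, hya, eval_neg]
              intro h0
              apply hF
              linear_combination h0

theorem kk_xc_neg (e : Pt E2 Λ) : xc (-e) = xc e := ptf_xc_neg e

theorem kk_yc_neg (e : Pt E2 Λ) : yc (-e) = -yc e := ptf_yc_neg e

/-- the valuation and the opposite point -/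
theorem Cen.neg (h : Cen k e a u) : Cen k (-e) (-a) u where
  triv := h.triv
  inf := by
    intro ha
    rw [kk_xc_neg]
    exact h.inf (neg_eq_zero.mp ha)
  fin := by
    intro ha
    have hc := kk_mem (u := u) h.triv
    obtain ⟨h1, h2, h3, h4⟩ := h.fin (neg_ne_zero.mp ha)
    have hxa : xc (-a) = xc a := ptf_xc_neg a
    have hya : yc (-a) = -yc a := ptf_yc_neg a
    rw [kk_xc_neg, kk_yc_neg, hxa, hya]
    refine ⟨h1, u.ring.neg_mem _ h2, h3, ?_⟩
    rw [u.res_neg h2, h4, ← u.res_neg (hc _)]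
    rfl

theorem kk_S1 (he : Transcendental k (xc e)) (h2 : (2 : Λ) ≠ 0) (h3 : (3 : Λ) ≠ 0)
    (h : Cen k e a u) (P Q : k[X]) (hPQ : ¬(P = 0 ∧ Q = 0)) :
    ∃ n : ℤ, u.v (kF e P Q) = n * kd e a u := by
  have he' : Transcendental k (xc (-e)) := by rw [kk_xc_neg]; exact he
  obtain ⟨n, hn, -⟩ := kk_S he he' h2 h3 h h.neg P Q hPQ
  exact ⟨n, hn⟩

theorem kd_mem (e : Pt E2 Λ) (a : Pt E2 k) (he : Transcendental k (xc e)) (u : QV Λ) :
    ∃ H ∈ fe k e, H ≠ 0 ∧ u.v H = kd e a u := by
  unfold kd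
  split_ifs with h1 h2
  · exact ⟨xc e / yc e, div_mem fe_x fe_y, div_ne_zero (kk_xne he) (kk_yne he),
      u.div (kk_xne he) (kk_yne he)⟩
  · exact ⟨yc e, fe_y, kk_yne he, rfl⟩
  · refine ⟨_, sub_mem fe_x (fe_c _), ?_, rfl⟩
    rw [← aeval_sub_C]; exact kk_pne he (X_sub_C_ne_zero _)

/-- the valuation is normalised -/
theorem AtPt.kd_one (he : Transcendental k (xc e)) (h2 : (2 : Λ) ≠ 0) (h3 : (3 : Λ) ≠ 0)
    (h : AtPt k e a u) : kd e a u = 1 := by
  have hc := h.cen
  have hd := hc.kd_pos he h3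
  obtain ⟨H, hH, hH0, hH1⟩ := h.unif
  obtain ⟨P, Q, R, hR, hPQ⟩ := fe_mem he hH
  have hne : ¬(P = 0 ∧ Q = 0) := by
    rintro ⟨rfl, rfl⟩
    have : kF e (0 : k[X]) 0 = 0 := by unfold kF; simp
    rw [this] at hPQ
    exact mul_ne_zero hH0 (kk_pne he hR) hPQ
  obtain ⟨n, hn⟩ := kk_S1 he h2 h3 hc P Q hne
  obtain ⟨m, hm⟩ := kk_S1 he h2 h3 hc R 0 (fun h => hR h.1)
  rw [kF_zero] at hm
  rw [← hPQ, u.mul hH0 (kk_pne he hR), hH1, hm] at hn
  obtain ⟨G, hG, hG0, hG1⟩ := kd_mem e a he u
  obtain ⟨d, hd1⟩ := h.int G hG hG0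
  rw [hG1] at hd1
  rw [hd1] at hn hd ⊢
  have h5 : ((n - m) * d : ℤ) = 1 := by
    have : (((n - m) * d : ℤ) : ℚ) = 1 := by push_cast; linarith
    exact_mod_cast this
  have h6 : 0 < d := by exact_mod_cast hd
  rcases Int.mul_eq_one_iff_eq_one_or_neg_one.mp h5 with ⟨_, h7⟩ | ⟨_, h7⟩
  · rw [h7]; norm_num
  · omega

/-- symmetry for normalised valuations -/
theorem AtPt.symm {u' : QV Λ} (he : Transcendental k (xc e)) (h2 : (2 : Λ) ≠ 0) (h3 : (3 : Λ) ≠ 0)
    (h : AtPt k e a u) (h' : AtPt k e (-a) u') (P Q : k[X]) (hPQ : ¬(P = 0 ∧ Q = 0)) :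
    u.v (kF e P Q) = u'.v (kF e P (-Q)) := by
  obtain ⟨n, h4, h5⟩ := kk_S he he h2 h3 h.cen h'.cen P Q hPQ
  rw [h4, h5, h.kd_one he h2 h3, h'.kd_one he h2 h3]

/-- the value of `x - r` -/
theorem AtPt.val_x (he : Transcendental k (xc e)) (h2 : (2 : Λ) ≠ 0) (h3 : (3 : Λ) ≠ 0)
    (h : AtPt k e a u) (b : Pt E2 k) (hb : b ≠ 0) :
    u.v (xc e - ((xc b : k) : Λ)) =
      (if a = 0 then (-2 : ℚ) else 0) + (if a = b then 1 else 0) + (if a = -b then 1 else 0) := by
  have hc := h.cen
  have h1 := h.kd_one he h2 h3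
  have hb' : -b ≠ 0 := kk_neg_zero hb
  have h2k : (2 : k) ≠ 0 := by
    intro h4; apply h2
    have := congrArg (algebraMap k Λ) h4
    rwa [map_ofNat, map_zero] at this
  by_cases ha : a = 0
  · rw [if_pos ha, if_neg (by rw [ha]; exact hb.symm), if_neg (by rw [ha]; exact hb'.symm)]
    obtain ⟨_, h4, _⟩ := hc.inf_vals he ha
    rw [h1] at h4
    rw [← aeval_sub_C, hc.polyInf he ha (X_sub_C_ne_zero _), natDegree_X_sub_C, h4]
    norm_num
  rw [if_neg ha]
  by_cases hx : xc a = xc b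
  · rcases (ptf_xc_eq_iff ha hb).mp hx with hab | hab
    · rw [← hab]
      by_cases hy : yc a = 0
      · have : a = -a := kk_ext ha (kk_neg_zero ha) (ptf_xc_neg a).symm
          (by rw [ptf_yc_neg, hy, neg_zero])
        rw [if_pos rfl, if_pos this, (hc.two_vals he h3 ha hy).2.2, h1]; norm_num
      · have : a ≠ -a := by
          intro h5
          have h6 := congrArg yc h5
          rw [ptf_yc_neg] at h6
          apply hy
          have : 2 * yc a = 0 := by linear_combination h6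
          exact (mul_eq_zero.mp this).resolve_left h2k
        rw [if_pos rfl, if_neg this, (hc.gen_vals he ha hy).2, h1]; norm_num
    · have hba : b = -a := by rw [hab, neg_neg]
      rw [hba, neg_neg, ptf_xc_neg a]
      by_cases hy : yc a = 0
      · have : a = -a := kk_ext ha (kk_neg_zero ha) (ptf_xc_neg a).symm
          (by rw [ptf_yc_neg, hy, neg_zero])
        rw [if_pos this, if_pos rfl, (hc.two_vals he h3 ha hy).2.2, h1]; norm_num
      · have : a ≠ -a := by
          intro h5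
          have h6 := congrArg yc h5
          rw [ptf_yc_neg] at h6
          apply hy
          have : 2 * yc a = 0 := by linear_combination h6
          exact (mul_eq_zero.mp this).resolve_left h2k
        rw [if_neg this, if_pos rfl, (hc.gen_vals he ha hy).2, h1]; norm_num
  · have hab : a ≠ b := fun h5 => hx (by rw [h5])
    have hab' : a ≠ -b := fun h5 => hx (by rw [h5, ptf_xc_neg])
    rw [if_neg hab, if_neg hab', ← aeval_sub_C, ← kF_zero, hc.zero ha]
    · norm_num
    · rw [kF_zero]; exact kk_pne he (X_sub_C_ne_zero _)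
    · rw [eval_zero, zero_mul, add_zero, eval_sub, eval_X, eval_C]
      exact sub_ne_zero.mpr hx

end KV

end Pool.Agent.VM
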