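import Pool.Agent.Lib_VM.D3a_h27
import Pool.Agent.Lib_VM.KKC_h78

/-!
# MP_5582d1_ag, D3: the conjugate polynomial and the denominator
-/

set_option autoImplicit false

namespace Pool.Agent.VM.D3p

open scoped Classical
open Polynomial Pool.Agent.VM

attribute [-instance] Subtype.instDecidableEq

noncomputable section

variable {Λ : Type} [Field Λ]

lemma coeff_mul_mem (F : Subfield Λ) (f g : Λ[X]) (hf : ∀ j, f.coeff j ∈ F)
    (hg : ∀ j, g.coeff j ∈ F) (j : ℕ) : (f * g).coeff j ∈ F := by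
  rw [coeff_mul]
  exact sum_mem (fun i _ => mul_mem (hf _) (hg _))

/-- a polynomial with prescribed coefficients -/
def mkp (d : ℕ) (c : ℕ → Λ) : Λ[X] := ∑ j ∈ Finset.range (d + 1), C (c j) * X ^ j

lemma coeff_mkp (d : ℕ) (c : ℕ → Λ) (j : ℕ) : (mkp d c).coeff j = if j ≤ d then c j else 0 := by
  rw [mkp, finset_sum_coeff]
  simp only [coeff_C_mul, coeff_X_pow]
  split_ifs with h
  · rw [Finset.sum_eq_single j]
    · simp
    · intro i _ hi
      rw [if_neg (Ne.symm hi), mul_zero]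
    · intro hj
      exact absurd (Finset.mem_range.mpr (Nat.lt_succ_of_le h)) hj
  · apply Finset.sum_eq_zero
    intro i hi
    rw [if_neg, mul_zero]
    rintro rfl
    exact h (Nat.lt_succ_iff.mp (Finset.mem_range.mp hi))

/-- the conjugate and the denominator -/
lemma conj_pair [IsAlgClosed Λ] (K : Subfield Λ) (g : Pt E2 Λ) (hg : Transcendental K (xc g))
    (s : Multiset Λ) (hs : ∀ j, (pl s).coeff j ∈ fe K g) :
    ∃ (s' : Multiset Λ) (b : Λ), b ∈ fe K g ∧ b ≠ 0 ∧
      (∀ u : QV Λ, (∀ c ∈ K, c ≠ 0 → u.v c = 0) → xc g ∈ u.ring → u.v b = hh u s + hh u s') ∧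
      ∀ j, ∃ P Q R : K[X], R ≠ 0 ∧ (pl s).coeff j * aeval (xc g) R = kF g P Q ∧
        (pl s').coeff j * aeval (xc g) R = kF g P (-Q) := by
  set d := (pl s).natDegree with hd
  have hP : ∀ j, ∃ P Q R : K[X], R ≠ 0 ∧ (pl s).coeff j * aeval (xc g) R = kF g P Q ∧
      (j = d → P = 1 ∧ Q = 0 ∧ R = 1) := by
    intro j
    by_cases hj : j = d
    · refine ⟨1, 0, 1, one_ne_zero, ?_, fun _ => ⟨rfl, rfl, rfl⟩⟩
      rw [hj, hd, (pl_monic s).coeff_natDegree, kF]
      simp
    · obtain ⟨P, Q, R, hR, h⟩ := fe_mem hg (hs j)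
      exact ⟨P, Q, R, hR, h, fun h' => absurd h' hj⟩
  choose P Q R hR hc htop using hP
  have hRx : ∀ j, aeval (xc g) (R j) ≠ 0 := fun j => kk_pne hg (hR j)
  set A : Λ[X] := mkp d (fun j => aeval (xc g) (P j) / aeval (xc g) (R j)) with hA
  set B : Λ[X] := mkp d (fun j => aeval (xc g) (Q j) / aeval (xc g) (R j)) with hB
  have hχ : pl s = A + C (yc g) * B := by
    ext j
    rw [coeff_add, coeff_C_mul, hA, hB, coeff_mkp, coeff_mkp]
    by_cases hj : j ≤ d
    · rw [if_pos hj, if_pos hj]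
      have := hc j
      unfold kF at this
      field_simp [hRx j]
      linear_combination this
    · rw [if_neg hj, if_neg hj, coeff_eq_zero_of_natDegree_lt (not_le.mp hj)]; ring
  set χ' : Λ[X] := A - C (yc g) * B with hχ'
  have hcoef' : ∀ j, χ'.coeff j * aeval (xc g) (R j) = kF g (P j) (-(Q j)) := by
    intro j
    rw [hχ', coeff_sub, coeff_C_mul, hA, hB, coeff_mkp, coeff_mkp, kF_neg]
    by_cases hj : j ≤ d
    · rw [if_pos hj, if_pos hj]
      field_simp [hRx j]
    · rw [if_neg hj, if_neg hj]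
      have h1 := hc j
      rw [coeff_eq_zero_of_natDegree_lt (not_le.mp hj), zero_mul] at h1
      have h2 : P j = 0 ∧ Q j = 0 := by
        by_contra h
        exact kF_ne hg h h1.symm
      rw [h2.1, h2.2]; simp
  have hdeg : χ'.natDegree ≤ d := by
    rw [natDegree_le_iff_coeff_eq_zero]
    intro N hN
    rw [hχ', coeff_sub, coeff_C_mul, hA, hB, coeff_mkp, coeff_mkp, if_neg (not_le.mpr hN),
      if_neg (not_le.mpr hN)]
    ring
  have hmon : χ'.Monic := by
    apply monic_of_natDegree_le_of_coeff_eq_one d hdeg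
    obtain ⟨h1, h2, h3⟩ := htop d rfl
    have := hcoef' d
    rw [h1, h2, h3] at this
    simpa [kF] using this
  have hroots : pl χ'.roots = χ' := by
    rw [pl]
    exact ((IsAlgClosed.splits χ').eq_prod_roots_of_monic hmon).symm
  have hprod : pl (s + χ'.roots) = A * A - C (yc g ^ 2) * (B * B) := by
    rw [pl_add, hroots, hχ, hχ', C_pow]; ring
  have hAm : ∀ j, A.coeff j ∈ fs K (xc g) := by
    intro j
    rw [hA, coeff_mkp]
    split_ifs
    · exact div_mem (aeval_mem_fs K _ _) (aeval_mem_fs K _ _)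
    · exact zero_mem _
  have hBm : ∀ j, B.coeff j ∈ fs K (xc g) := by
    intro j
    rw [hB, coeff_mkp]
    split_ifs
    · exact div_mem (aeval_mem_fs K _ _) (aeval_mem_fs K _ _)
    · exact zero_mem _
  have hy2 : yc g ^ 2 ∈ fs K (xc g) := by
    rw [kk_ysq hg]; exact aeval_mem_fs K _ _
  have hcm : ∀ j, (pl (s + χ'.roots)).coeff j ∈ fs K (xc g) := by
    intro j
    rw [hprod, coeff_sub, coeff_C_mul]
    exact sub_mem (coeff_mul_mem _ _ _ hAm hAm j) (mul_mem hy2 (coeff_mul_mem _ _ _ hBm hBm j))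
  obtain ⟨b, hb, hb0, hbu⟩ := exists_b K (xc g) hg (pl (s + χ'.roots)) (pl_monic _) hcm
  refine ⟨χ'.roots, b, ?_, hb0, ?_, fun j => ⟨P j, Q j, R j, hR j, hc j, ?_⟩⟩
  · have hle : fs K (xc g) ≤ fe K g := by
      rw [fs, Subfield.closure_le]
      rintro x (hx | hx)
      · exact Subfield.subset_closure (Or.inl hx)
      · rw [Set.mem_singleton_iff] at hx
        rw [hx]; exact fe_x
    exact hle hb
  · intro u hu hg'
    have h1 := hbu u hu hg'
    have h2 := gn_unique u _ _ _ (gn_pl u b hb0 (s + χ'.roots)) h1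
    rw [hh_add] at h2
    linarith
  · rw [hroots]; exact hcoef' j

/-- polynomials over a larger field -/
lemma aeval_map_incl {K Kb : Subfield Λ} (h : K ≤ Kb) (x : Λ) (p : K[X]) :
    aeval x (p.map (Subfield.inclusion h)) = aeval x p := by
  rw [aeval_def, aeval_def, eval₂_map]
  rfl

/-- symmetry -/
lemma hh_symm [CharZero Λ] {K Kb : Subfield Λ} (hKK : K ≤ Kb) (g : Pt E2 Λ)
    (hgb : Transcendental Kb (xc g)) (s s' : Multiset Λ)
    (h : ∀ j, ∃ P Q R : K[X], R ≠ 0 ∧ (pl s).coeff j * aeval (xc g) R = kF g P Q ∧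
        (pl s').coeff j * aeval (xc g) R = kF g P (-Q)) (a : Pt E2 Kb) (u u' : QV Λ)
    (hu : AtPt Kb g a u) (hu' : AtPt Kb g (-a) u') : hh u s' = hh u' s := by
  have hinj : Function.Injective (Subfield.inclusion hKK) := (Subfield.inclusion hKK).injective
  have key : ∀ j, ∃ P Q R : Kb[X], R ≠ 0 ∧ (pl s).coeff j * aeval (xc g) R = kF g P Q ∧
        (pl s').coeff j * aeval (xc g) R = kF g P (-Q) := by
    intro j
    obtain ⟨P, Q, R, hR, h1, h2⟩ := h j
    refine ⟨P.map (Subfield.inclusion hKK), Q.map (Subfield.inclusion hKK),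
      R.map (Subfield.inclusion hKK), ?_, ?_, ?_⟩
    · exact (Polynomial.map_ne_zero_iff hinj).mpr hR
    · rw [aeval_map_incl, h1, kF, kF, aeval_map_incl, aeval_map_incl]
    · rw [aeval_map_incl, h2, kF_neg, kF_neg, aeval_map_incl, aeval_map_incl]
  have e2 : (2 : Λ) ≠ 0 := two_ne_zero
  have e3 : (3 : Λ) ≠ 0 := three_ne_zero
  have hz : ∀ j, (pl s').coeff j = 0 ↔ (pl s).coeff j = 0 := by
    intro j
    obtain ⟨P, Q, R, hR, h1, h2⟩ := key j
    have hRx := kk_pne hgb hR
    constructor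
    · intro h0
      rw [h0, zero_mul] at h2
      have : P = 0 ∧ -Q = 0 := by
        by_contra hn
        exact kF_ne hgb hn h2.symm
      rw [this.1, neg_eq_zero.mp this.2] at h1
      have h3 : kF g (0 : Kb[X]) 0 = 0 := by simp [kF]
      rw [h3] at h1
      exact (mul_eq_zero.mp h1).resolve_right hRx
    · intro h0
      rw [h0, zero_mul] at h1
      have : P = 0 ∧ Q = 0 := by
        by_contra hn
        exact kF_ne hgb hn h1.symm
      rw [this.1, this.2] at h2
      have h3 : kF g (0 : Kb[X]) (-0) = 0 := by simp [kF]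
      rw [h3] at h2
      exact (mul_eq_zero.mp h2).resolve_right hRx
  apply hh_congr u u' s' s hz
  intro j hj
  have hj' : (pl s).coeff j ≠ 0 := fun h' => hj ((hz j).mpr h')
  obtain ⟨P, Q, R, hR, h1, h2⟩ := key j
  have hRx := kk_pne hgb hR
  have hPQ : ¬(P = 0 ∧ -Q = 0) := by
    rintro ⟨h3, h4⟩
    rw [h3, h4] at h2
    have h5 : kF g (0 : Kb[X]) 0 = 0 := by simp [kF]
    rw [h5] at h2
    exact hj ((mul_eq_zero.mp h2).resolve_right hRx)
  have s1 := AtPt.symm hgb e2 e3 hu hu' P (-Q) hPQ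
  have s2 := AtPt.symm hgb e2 e3 hu hu' R 0 (fun h => hR h.1)
  rw [neg_neg] at s1
  have e4 : kF g R 0 = aeval (xc g) R := by simp [kF]
  have e5 : kF g R (-0) = aeval (xc g) R := by simp [kF]
  rw [e4, e5] at s2
  have t1 : u.v ((pl s').coeff j) + u.v (aeval (xc g) R) = u.v (kF g P (-Q)) := by
    rw [← u.mul hj hRx, h2]
  have t2 : u'.v ((pl s).coeff j) + u'.v (aeval (xc g) R) = u'.v (kF g P Q) := by
    rw [← u'.mul hj' hRx, h1]
  linarith

end

end Pool.Agent.VM.D3p
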