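import Pool.Agent.Lib_VM.D3b_h27
import Pool.Agent.Lib_helper15.VM.III

/-!
# MP_5582d1_ag, D3: points over subfields, denominators on the curve, choice of the translation
-/

set_option autoImplicit false

namespace Pool.Agent.VM.D3p

open scoped Classical
open Polynomial Pool.Agent.VM

attribute [-instance] Subtype.instDecidableEq

noncomputable section

section pts

variable {Λ : Type} [Field Λ] [CharZero Λ] (F0 : Subfield Λ)

lemma mem_of_pt (p0 : Pt E2 F0) : ∀ x ∈ cs (inc F0 p0), x ∈ F0 := by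
  rintro x (hx | hx)
  · rw [hx, kk_xc_inc]; exact (xc p0).2
  · rw [Set.mem_singleton_iff] at hx
    rw [hx, kk_yc_inc]; exact (yc p0).2

lemma pt_of_mem (p : Pt E2 Λ) (h : ∀ x ∈ cs p, x ∈ F0) : ∃ p0 : Pt E2 F0, inc F0 p0 = p := by
  by_cases hp : p = 0
  · exact ⟨0, by rw [hp, map_zero]⟩
  obtain ⟨b, hb, hx, hy⟩ := kk_mk (F := F0) three_ne_zero two_ne_zero
    ⟨xc p, h _ (Or.inl rfl)⟩ ⟨yc p, h _ (Or.inr rfl)⟩ (by
      apply Subtype.ext
      push_cast
      exact kk_sq hp)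
  refine ⟨b, kk_ext (kk_inc_ne hb) hp ?_ ?_⟩
  · rw [kk_xc_inc, hx]
  · rw [kk_yc_inc, hy]

variable {F0}

lemma cs_add_mem {p q : Pt E2 Λ} (hp : ∀ x ∈ cs p, x ∈ F0) (hq : ∀ x ∈ cs q, x ∈ F0) :
    ∀ x ∈ cs (p + q), x ∈ F0 := by
  obtain ⟨p0, rfl⟩ := pt_of_mem F0 p hp
  obtain ⟨q0, rfl⟩ := pt_of_mem F0 q hq
  rw [← map_add]
  exact mem_of_pt F0 _

lemma cs_neg_mem {p : Pt E2 Λ} (hp : ∀ x ∈ cs p, x ∈ F0) : ∀ x ∈ cs (-p), x ∈ F0 := by
  obtain ⟨p0, rfl⟩ := pt_of_mem F0 p hp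
  rw [← map_neg]
  exact mem_of_pt F0 _

lemma fe_add (K : Subfield Λ) (e c : Pt E2 Λ) (hc : ∀ x ∈ cs c, x ∈ K) :
    fe K (e + c) = fe K e := by
  have h1 : ∀ (e c : Pt E2 Λ), (∀ x ∈ cs c, x ∈ K) → fe K (e + c) ≤ fe K e := by
    intro e c hc
    rw [fe, Subfield.closure_le]
    rintro x (hx | hx)
    · exact Subfield.subset_closure (Or.inl hx)
    · exact cs_add_mem (F0 := fe K e) (fun y hy => Subfield.subset_closure (Or.inr hy))
        (fun y hy => Subfield.subset_closure (Or.inl (hc y hy))) x hx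
  apply le_antisymm (h1 e c hc)
  have := h1 (e + c) (-c) (cs_neg_mem hc)
  rwa [add_neg_cancel_right] at this

end pts

section curve

variable {Λ : Type} [Field Λ] [CharZero Λ] [IsAlgClosed Λ]

/-- denominators on the curve -/
lemma den_curve (K Kb : Subfield Λ) (hKK : K ≤ Kb) [IsAlgClosed Kb] (e : Pt E2 Λ)
    (he : Transcendental Kb (xc e)) (cb : Pt E2 Kb) (hc : ∀ x ∈ cs (inc Kb cb), x ∈ K)
    (s : Multiset Λ) (hs : ∀ j, (pl s).coeff j ∈ fe K e) :
    ∃ b ∈ fe K e, b ≠ 0 ∧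
      (∀ u : QV Λ, (∀ c ∈ K, c ≠ 0 → u.v c = 0) → xc (e + inc Kb cb) ∈ u.ring →
        hh u s ≤ u.v b) ∧
      ∀ a : Pt E2 Kb, a ≠ -cb → ∀ u u' : QV Λ, AtPt Kb e a u →
        AtPt Kb e (-a - (2 : ℤ) • cb) u' → u.v b = hh u s + hh u' s := by
  have htr := (tr_translate Kb e he cb).1
  have htrK : Transcendental K (xc (e + inc Kb cb)) := by
    intro h
    apply htr
    obtain ⟨p, hp, h0⟩ := h
    refine ⟨p.map (Subfield.inclusion hKK), ?_, ?_⟩
    · exact (Polynomial.map_ne_zero_iff (Subfield.inclusion hKK).injective).mpr hp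
    · rw [aeval_map_incl]; exact h0
  have hfe : fe K (e + inc Kb cb) = fe K e := fe_add K e _ hc
  obtain ⟨s', b, hb, hb0, h1, h2⟩ := conj_pair K (e + inc Kb cb) htrK s
    (fun j => by rw [hfe]; exact hs j)
  refine ⟨b, hfe ▸ hb, hb0, ?_, ?_⟩
  · intro u hu hg
    rw [h1 u hu hg]
    linarith [hh_nonneg u s']
  · intro a ha u u' hu hu'
    have t1 := atpt_translate Kb e he a cb u hu
    have t2 := atpt_translate Kb e he _ cb u' hu'
    have e1 : -a - (2 : ℤ) • cb + cb = -(a + cb) := by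
      rw [two_zsmul]; abel
    rw [e1] at t2
    have h3 := hh_symm hKK (e + inc Kb cb) htr s s' h2 (a + cb) u u' t1 t2
    have hne : a + cb ≠ 0 := fun h => ha (eq_neg_of_add_eq_zero_left h)
    have hring : xc (e + inc Kb cb) ∈ u.ring := by
      have h4 := (t1.ctr hne).1
      by_cases h5 : xc (e + inc Kb cb) - xc (inc Kb (a + cb)) = 0
      · rw [sub_eq_zero.mp h5]
        rw [kk_xc_inc]
        exact kk_mem t1.triv _
      · have h6 : xc (e + inc Kb cb) = (xc (e + inc Kb cb) - xc (inc Kb (a + cb))) +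
            xc (inc Kb (a + cb)) := by ring
        rw [h6]
        refine add_mem ?_ ?_
        · exact Or.inr h4.le
        · rw [kk_xc_inc]
          exact kk_mem t1.triv _
    rw [h1 u (fun c hc hc0 => t1.triv c (hKK hc) hc0) hring, h3]

/-- finiteness -/
lemma hh_finite (Kb : Subfield Λ) [IsAlgClosed Kb] (e : Pt E2 Λ) (he : Transcendental Kb (xc e))
    (U : Pt E2 Kb → QV Λ) (hU : ∀ a, AtPt Kb e a (U a)) (s : Multiset Λ)
    (hs : ∀ j, (pl s).coeff j ∈ fe Kb e) : {a | hh (U a) s ≠ 0}.Finite := by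
  have h1 : {a | hh (U a) s ≠ 0} ⊆ ⋃ j ∈ (pl s).support, {a | (U a).v ((pl s).coeff j) ≠ 0} := by
    intro a ha
    obtain ⟨_, j, hj, hj'⟩ := gn_pl_one (U a) s
    simp only [Set.mem_iUnion]
    refine ⟨j, Polynomial.mem_support_iff.mpr hj, ?_⟩
    show (U a).v ((pl s).coeff j) ≠ 0
    rw [hj']
    exact neg_ne_zero.mpr ha
  refine Set.Finite.subset (Set.Finite.biUnion (Finset.finite_toSet _) ?_) h1
  intro j hj
  exact C1F' Kb e he U hU _ (hs j) (Polynomial.mem_support_iff.mp hj)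

/-- the choice of the translation -/
lemma exists_c (P0 : Subfield Λ) [IsAlgClosed P0] (w : QV Λ) [CharZero w.κ]
    (hw : ∀ n : ℕ, n ≠ 0 → w.v (n : Λ) = 0) (red : Pt E2 Λ →+ Pt E2 w.κ) (hred : IsRed w red)
    (A : Set (Pt E2 w.κ)) (hA : A.Finite) :
    ∃ c : Pt E2 Λ, (∀ x ∈ cs c, x ∈ P0) ∧ red c ∉ A ∧ (2 : ℤ) • red c ∉ A := by
  have hpt : ∀ N : ℕ, ∃ c : Pt E2 Λ, c ≠ 0 ∧ (∀ x ∈ cs c, x ∈ P0) ∧ xc c = N := by
    intro N
    obtain ⟨y, hy⟩ := IsAlgClosed.exists_pow_nat_eq ((N : P0) ^ 3 + 1) (n := 2) (by norm_num)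
    obtain ⟨b, hb, hbx, hby⟩ := kk_mk (F := P0) three_ne_zero two_ne_zero (N : P0) y hy
    refine ⟨inc P0 b, kk_inc_ne hb, mem_of_pt P0 b, ?_⟩
    rw [kk_xc_inc, hbx]; simp
  choose c hc0 hcP hcx using hpt
  have hNring : ∀ N : ℕ, (N : Λ) ∈ w.ring := by
    intro N
    by_cases h : N = 0
    · rw [h, Nat.cast_zero]; exact w.ring.zero_mem
    · exact Or.inr (hw N h).ge
  have hresN : ∀ N : ℕ, w.res (N : Λ) = (N : w.κ) := by
    intro N
    rw [w.res_of_mem (hNring N)]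
    have : (⟨(N : Λ), hNring N⟩ : w.ring) = (N : w.ring) := by
      apply Subtype.ext; simp
    rw [this, map_natCast]
  have hr : ∀ N : ℕ, red (c N) ≠ 0 ∧ xc (red (c N)) = (N : w.κ) := by
    intro N
    obtain ⟨h1, h2, _⟩ := hred.fin (c N) (hc0 N) (by rw [hcx]; exact hNring N)
    exact ⟨h1, by rw [h2, hcx, hresN]⟩
  have hfin1 : {N : ℕ | red (c N) ∈ A}.Finite := by
    apply Set.Finite.preimage _ hA
    intro N _ M _ h
    have h' : red (c N) = red (c M) := h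
    have h7 := (hr N).2
    rw [h', (hr M).2] at h7
    exact_mod_cast h7.symm
  have hfin2 : {N : ℕ | (2 : ℤ) • red (c N) ∈ A}.Finite := by
    have hsub : {N : ℕ | (2 : ℤ) • red (c N) ∈ A} ⊆ ⋃ v ∈ A, {N : ℕ |
        (X ^ 4 - C 8 * X - C (4 * xc v) * (X ^ 3 + C 1) : w.κ[X]).IsRoot (N : w.κ)} := by
      intro N hN
      simp only [Set.mem_iUnion]
      refine ⟨_, hN, ?_⟩
      show IsRoot _ _
      have hN1 : ((N : w.κ)) ^ 3 + 1 ≠ 0 := by exact_mod_cast Nat.succ_ne_zero (N ^ 3)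
      have hy : yc (red (c N)) ≠ 0 := by
        intro h0
        have h9 : yc (red (c N)) ^ 2 = xc (red (c N)) ^ 3 + 1 := kk_sq (hr N).1
        have h8 := (hr N).2
        rw [h0, h8] at h9
        apply hN1
        rw [← h9]; ring
      have hdbl : red (c N) + red (c N) ≠ 0 :=
        (ptf_dbl_ne (hr N).1).mpr (mul_ne_zero two_ne_zero hy)
      have hx := ptf_xc_dbl hdbl
      rw [(hr N).2, map_zero, map_one] at hx
      have e1 : xc ((2 : ℤ) • red (c N)) = xc (red (c N) + red (c N)) := by rw [two_zsmul]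
      rw [IsRoot.def]
      simp only [eval_sub, eval_pow, eval_X, eval_mul, eval_C, eval_add]
      rw [e1, hx]
      have e2 : (4 : w.κ) * ((N : w.κ) ^ 3 + 0 * (N : w.κ) ^ 2 + 1) ≠ 0 := by
        rw [zero_mul, add_zero]; exact mul_ne_zero (by norm_num) hN1
      have e3 : 4 * (((N : w.κ) ^ 4 - 8 * 1 * (N : w.κ) - 4 * 0 * 1) /
          (4 * ((N : w.κ) ^ 3 + 0 * (N : w.κ) ^ 2 + 1))) * ((N : w.κ) ^ 3 + 1) =
          (N : w.κ) ^ 4 - 8 * (N : w.κ) := by
        rw [zero_mul, add_zero]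
        field_simp
        ring
      rw [e3]; ring
    refine Set.Finite.subset (Set.Finite.biUnion hA ?_) hsub
    intro v _
    have hne : (X ^ 4 - C 8 * X - C (4 * xc v) * (X ^ 3 + C 1) : w.κ[X]) ≠ 0 := by
      intro h
      have h9 := congrArg (fun p : w.κ[X] => p.coeff 4) h
      simp only [coeff_sub, coeff_X_pow, coeff_C_mul, coeff_X, coeff_add, coeff_C, coeff_zero] at h9
      norm_num at h9
    have := (X ^ 4 - C 8 * X - C (4 * xc v) * (X ^ 3 + C 1) : w.κ[X]).roots.toFinset.finite_toSet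
    refine Set.Finite.subset (Set.Finite.preimage (f := fun N : ℕ => (N : w.κ)) ?_ this) ?_
    · intro N _ M _ h
      exact Nat.cast_injective h
    · intro N hN
      rw [Set.mem_preimage, Finset.mem_coe, Multiset.mem_toFinset, mem_roots hne]
      exact hN
  obtain ⟨N, hN⟩ := (hfin1.union hfin2).infinite_compl.nonempty
  refine ⟨c N, hcP N, ?_, ?_⟩
  · intro h; exact hN (Or.inl h)
  · intro h; exact hN (Or.inr h)

end curve

end

end Pool.Agent.VM.D3p
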