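import Mathlib

/-!
MP_5582d1_ag, PART V (helper80): the generalised Choi form `F`, its positivity, its nine zeros, the
nine tensors, the functional, and positivity on products of positive semidefinite quadratic forms.
-/

set_option autoImplicit false

namespace Pool.Agent.VM.V

section ordered
variable {R : Type*} [Field R]

/-- the generalised Choi form (a biquadratic form in `x`, `y`) -/
def Fq (x y : Fin 3 → R) : R :=
  ((9 * x 0 ^ 2 + x 1 ^ 2 + 16 * x 2 ^ 2) * y 0 ^ 2 +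
    (9 * x 1 ^ 2 + x 2 ^ 2 + 16 * x 0 ^ 2) * y 1 ^ 2 +
    (9 * x 2 ^ 2 + x 0 ^ 2 + 16 * x 1 ^ 2) * y 2 ^ 2 -
    26 * (x 0 * x 1 * y 0 * y 1 + x 0 * x 2 * y 0 * y 2 + x 1 * x 2 * y 1 * y 2)) / 13

variable [LinearOrder R] [IsStrictOrderedRing R]

private theorem cyc_min (r u v : R) (hr : 0 ≤ r) (hu : 0 ≤ u) (hv : 0 ≤ v) :
    0 ≤ 144 * ((r + u) ^ 3 + (r + v) ^ 3 + r ^ 3) -
      1143 * ((r + u) ^ 2 * (r + v) + (r + v) ^ 2 * r + r ^ 2 * (r + u)) +
      2232 * ((r + u) ^ 2 * r + (r + v) ^ 2 * (r + u) + r ^ 2 * (r + v)) -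
      3699 * ((r + u) * (r + v) * r) := by
  have e : 144 * ((r + u) ^ 3 + (r + v) ^ 3 + r ^ 3) -
      1143 * ((r + u) ^ 2 * (r + v) + (r + v) ^ 2 * r + r ^ 2 * (r + u)) +
      2232 * ((r + u) ^ 2 * r + (r + v) ^ 2 * (r + u) + r ^ 2 * (r + v)) -
      3699 * ((r + u) * (r + v) * r) =
      1521 * (r * ((u - v) ^ 2 + u * v)) + (u - 4 * v) ^ 2 * (144 * u + 9 * v) := by ring
  rw [e]
  have h1 : 0 ≤ u * v := mul_nonneg hu hv
  have h2 : 0 ≤ r * ((u - v) ^ 2 + u * v) := mul_nonneg hr (by positivity)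
  have h3 : 0 ≤ (u - 4 * v) ^ 2 * (144 * u + 9 * v) := mul_nonneg (sq_nonneg _) (by positivity)
  linarith

/-- the cyclic cubic -/
theorem cyc_nonneg (p q r : R) (hp : 0 ≤ p) (hq : 0 ≤ q) (hr : 0 ≤ r) :
    0 ≤ 144 * (p ^ 3 + q ^ 3 + r ^ 3) - 1143 * (p ^ 2 * q + q ^ 2 * r + r ^ 2 * p) +
      2232 * (p ^ 2 * r + q ^ 2 * p + r ^ 2 * q) - 3699 * (p * q * r) := by
  rcases le_total p q with h1 | h1
  · rcases le_total p r with h2 | h2
    · -- `p` is the minimum: cyclic shift `(q, r, p)`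
      have h := cyc_min p (q - p) (r - p) hp (sub_nonneg.2 h1) (sub_nonneg.2 h2)
      rw [add_sub_cancel, add_sub_cancel] at h
      linarith
    · have h := cyc_min r (p - r) (q - r) hr (sub_nonneg.2 h2) (sub_nonneg.2 (h2.trans h1))
      rw [add_sub_cancel, add_sub_cancel] at h
      linarith
  · rcases le_total q r with h2 | h2
    · -- `q` is the minimum: `(r, p, q)`
      have h := cyc_min q (r - q) (p - q) hq (sub_nonneg.2 h2) (sub_nonneg.2 h1)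
      rw [add_sub_cancel, add_sub_cancel] at h
      linarith
    · have h := cyc_min r (p - r) (q - r) hr (sub_nonneg.2 (h2.trans h1)) (sub_nonneg.2 h2)
      rw [add_sub_cancel, add_sub_cancel] at h
      linarith

/-- a weighted Cauchy inequality in three variables -/
private theorem cauchy3 {a b c A B C x y z : R} (hA : 0 < A) (hB : 0 < B) (hC : 0 < C)
    (h : 13 * (a ^ 2 * B * C + b ^ 2 * A * C + c ^ 2 * A * B) ≤ A * B * C) :
    0 ≤ A * x ^ 2 + B * y ^ 2 + C * z ^ 2 - 13 * (a * x + b * y + c * z) ^ 2 := by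
  have hABC : 0 < A * B * C := by positivity
  -- multiply by `A B C`
  have key : 0 ≤ A * B * C * (A * x ^ 2 + B * y ^ 2 + C * z ^ 2) -
      13 * (a ^ 2 * B * C + b ^ 2 * A * C + c ^ 2 * A * B) *
        (A * x ^ 2 + B * y ^ 2 + C * z ^ 2) := by
    have h1 : 0 ≤ A * x ^ 2 + B * y ^ 2 + C * z ^ 2 := by positivity
    nlinarith [mul_nonneg (sub_nonneg.2 h) h1]
  have key2 : 0 ≤ (a ^ 2 * B * C + b ^ 2 * A * C + c ^ 2 * A * B) *
      (A * x ^ 2 + B * y ^ 2 + C * z ^ 2) - A * B * C * (a * x + b * y + c * z) ^ 2 := by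
    have e : (a ^ 2 * B * C + b ^ 2 * A * C + c ^ 2 * A * B) *
        (A * x ^ 2 + B * y ^ 2 + C * z ^ 2) - A * B * C * (a * x + b * y + c * z) ^ 2 =
        C * (a * B * y - b * A * x) ^ 2 + B * (a * C * z - c * A * x) ^ 2 +
          A * (b * C * z - c * B * y) ^ 2 := by ring
    rw [e]
    positivity
  have h3 : 0 ≤ A * B * C *
      (A * x ^ 2 + B * y ^ 2 + C * z ^ 2 - 13 * (a * x + b * y + c * z) ^ 2) := by
    nlinarith [key, key2]
  exact nonneg_of_mul_nonneg_right h3 hABC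

/-- the form is nonnegative -/
theorem Fq_nonneg (x y : Fin 3 → R) : 0 ≤ Fq x y := by
  unfold Fq
  apply div_nonneg _ (by norm_num)
  by_cases hx : x 0 = 0 ∧ x 1 = 0 ∧ x 2 = 0
  · obtain ⟨h0, h1, h2⟩ := hx
    rw [h0, h1, h2]
    simp
  have hpos : 0 < x 0 ^ 2 + x 1 ^ 2 + x 2 ^ 2 := by
    by_contra hn
    apply hx
    have a0 := sq_nonneg (x 0)
    have a1 := sq_nonneg (x 1)
    have a2 := sq_nonneg (x 2)
    refine ⟨?_, ?_, ?_⟩
    · exact pow_eq_zero_iff (two_ne_zero) |>.1 (by linarith)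
    · exact pow_eq_zero_iff (two_ne_zero) |>.1 (by linarith)
    · exact pow_eq_zero_iff (two_ne_zero) |>.1 (by linarith)
  have a0 := sq_nonneg (x 0)
  have a1 := sq_nonneg (x 1)
  have a2 := sq_nonneg (x 2)
  have hc := cyc_nonneg (x 0 ^ 2) (x 2 ^ 2) (x 1 ^ 2) a0 a2 a1
  have h := cauchy3 (a := x 0) (b := x 1) (c := x 2)
    (A := 22 * x 0 ^ 2 + x 1 ^ 2 + 16 * x 2 ^ 2)
    (B := 22 * x 1 ^ 2 + x 2 ^ 2 + 16 * x 0 ^ 2)
    (C := 22 * x 2 ^ 2 + x 0 ^ 2 + 16 * x 1 ^ 2)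
    (x := y 0) (y := y 1) (z := y 2) (by linarith) (by linarith) (by linarith) (by nlinarith [hc])
  have e : (9 * x 0 ^ 2 + x 1 ^ 2 + 16 * x 2 ^ 2) * y 0 ^ 2 +
      (9 * x 1 ^ 2 + x 2 ^ 2 + 16 * x 0 ^ 2) * y 1 ^ 2 +
      (9 * x 2 ^ 2 + x 0 ^ 2 + 16 * x 1 ^ 2) * y 2 ^ 2 -
      26 * (x 0 * x 1 * y 0 * y 1 + x 0 * x 2 * y 0 * y 2 + x 1 * x 2 * y 1 * y 2) =
      (22 * x 0 ^ 2 + x 1 ^ 2 + 16 * x 2 ^ 2) * y 0 ^ 2 +
      (22 * x 1 ^ 2 + x 2 ^ 2 + 16 * x 0 ^ 2) * y 1 ^ 2 +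
      (22 * x 2 ^ 2 + x 0 ^ 2 + 16 * x 1 ^ 2) * y 2 ^ 2 -
      13 * (x 0 * y 0 + x 1 * y 1 + x 2 * y 2) ^ 2 := by ring
  rw [e]
  exact h

end ordered

/-! ### the nine zeros and the nine tensors -/

/-- the first components `ρ_k` of the nine zeros -/
def rho : Fin 9 → Fin 3 → ℤ :=
  ![![1, 1, 1], ![1, 1, -1], ![1, -1, 1], ![1, 2, 0], ![1, -2, 0], ![0, 1, 2], ![0, 1, -2],
    ![2, 0, 1], ![-2, 0, 1]]

/-- the second components `l_k` of the nine zeros -/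
def ell : Fin 9 → Fin 3 → ℤ :=
  ![![1, 1, 1], ![1, 1, -1], ![1, -1, 1], ![2, 1, 0], ![2, -1, 0], ![0, 2, 1], ![0, 2, -1],
    ![1, 0, 2], ![-1, 0, 2]]

theorem Fq_zero {R : Type*} [Field R] (k : Fin 9) :
    Fq (fun i => (rho k i : R)) (fun i => (ell k i : R)) = 0 := by
  rw [Fq, div_eq_zero_iff]
  left
  fin_cases k <;> simp [rho, ell] <;> norm_num

/-- the `l_k` are pairwise not proportional -/
theorem ell_indep (j k : Fin 9) (h : j ≠ k) :
    ell j 1 * ell k 2 - ell j 2 * ell k 1 ≠ 0 ∨ ell j 2 * ell k 0 - ell j 0 * ell k 2 ≠ 0 ∨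
      ell j 0 * ell k 1 - ell j 1 * ell k 0 ≠ 0 := by
  revert h
  revert j k
  decide

theorem ell_primitive (k : Fin 9) : ∃ n : Fin 3 → ℤ,
    n 0 * ell k 0 + n 1 * ell k 1 + n 2 * ell k 2 = 1 := by
  fin_cases k
  · exact ⟨![1, 0, 0], by simp [ell]⟩
  · exact ⟨![1, 0, 0], by simp [ell]⟩
  · exact ⟨![1, 0, 0], by simp [ell]⟩
  · exact ⟨![0, 1, 0], by simp [ell]⟩
  · exact ⟨![0, -1, 0], by simp [ell]⟩
  · exact ⟨![0, 0, 1], by simp [ell]⟩
  · exact ⟨![0, 0, -1], by simp [ell]⟩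
  · exact ⟨![1, 0, 0], by simp [ell]⟩
  · exact ⟨![-1, 0, 0], by simp [ell]⟩

theorem rho_primitive (k : Fin 9) : ∃ n : Fin 3 → ℤ,
    n 0 * rho k 0 + n 1 * rho k 1 + n 2 * rho k 2 = 1 := by
  fin_cases k
  · exact ⟨![1, 0, 0], by simp [rho]⟩
  · exact ⟨![1, 0, 0], by simp [rho]⟩
  · exact ⟨![1, 0, 0], by simp [rho]⟩
  · exact ⟨![1, 0, 0], by simp [rho]⟩
  · exact ⟨![1, 0, 0], by simp [rho]⟩
  · exact ⟨![0, 1, 0], by simp [rho]⟩
  · exact ⟨![0, 1, 0], by simp [rho]⟩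
  · exact ⟨![0, 0, 1], by simp [rho]⟩
  · exact ⟨![0, 0, 1], by simp [rho]⟩

section tensors
variable {R : Type*} [Field R]

/-- the coordinates of a matrix `L` in the basis of the nine tensors `ρ_k ⊗ l_k` -/
def sc (L : Fin 3 → Fin 3 → R) : Fin 9 → R :=
  let α01 := (4 * L 0 1 - L 1 0) / 3
  let α02 := (4 * L 2 0 - L 0 2) / 3
  let α12 := (4 * L 1 2 - L 2 1) / 3
  let β01 := (L 1 0 - L 0 1) / 3
  let β02 := (L 0 2 - L 2 0) / 3
  let β12 := (L 2 1 - L 1 2) / 3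
  let A := α01 + α02 - α12
  let b01 := (L 0 0 + L 1 1 - L 2 2 - A) / 4
  let b12 := (L 1 1 + L 2 2 - L 0 0 - A) / 4
  let b02 := (L 0 0 + L 2 2 - L 1 1 - A) / 4
  ![(α01 + α02) / 2, (α01 - α12) / 2, (α02 - α12) / 2,
    (b01 + β01) / 2, (b01 - β01) / 2, (b12 + β12) / 2, (b12 - β12) / 2,
    (b02 + β02) / 2, (b02 - β02) / 2]

variable [CharZero R]

/-- every matrix is the combination of the nine tensors with the coordinates `sc L` -/
theorem sc_sum (L : Fin 3 → Fin 3 → R) (i j : Fin 3) :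
    L i j = ∑ k, sc L k * ((rho k i : R) * (ell k j : R)) := by
  fin_cases i <;> fin_cases j <;>
    simp [sc, rho, ell, Fin.sum_univ_succ] <;> ring

/-- the nine tensors are independent: `sc` is the dual basis -/
theorem sc_dual (j k : Fin 9) :
    sc (fun i i' => (rho j i : R) * (ell j i' : R)) k = if k = j then 1 else 0 := by
  fin_cases j <;> fin_cases k <;> simp [sc, rho, ell] <;> norm_num

theorem sc_add (L L' : Fin 3 → Fin 3 → R) (k : Fin 9) : sc (L + L') k = sc L k + sc L' k := by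
  fin_cases k <;> simp [sc] <;> ring

theorem sc_smul (c : R) (L : Fin 3 → Fin 3 → R) (k : Fin 9) : sc (c • L) k = c * sc L k := by
  fin_cases k <;> simp [sc] <;> ring

/-- the sum of the nine tensors: all its coordinates are `1` -/
theorem sc_all : ∀ k, sc (fun i i' => ∑ j, (rho j i : R) * (ell j i' : R)) k = 1 := by
  intro k
  fin_cases k <;> simp [sc, rho, ell, Fin.sum_univ_succ] <;> norm_num

end tensors

/-! ### the functional -/

/-- the functional on functions of `x, y ∈ ℤ³` -/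
def Ff {R : Type*} [Field R] (G : (Fin 3 → ℤ) → (Fin 3 → ℤ) → R) : R :=
  ((72 * G ![1, 0, 0] ![1, 0, 0] + 8 * G ![0, 1, 0] ![1, 0, 0] + 128 * G ![0, 0, 1] ![1, 0, 0]) +
    (72 * G ![0, 1, 0] ![0, 1, 0] + 8 * G ![0, 0, 1] ![0, 1, 0] + 128 * G ![1, 0, 0] ![0, 1, 0]) +
    (72 * G ![0, 0, 1] ![0, 0, 1] + 8 * G ![1, 0, 0] ![0, 0, 1] + 128 * G ![0, 1, 0] ![0, 0, 1]) -
    13 * ((G ![1, 1, 0] ![1, 1, 0] - G ![1, -1, 0] ![1, 1, 0] - G ![1, 1, 0] ![1, -1, 0] +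
        G ![1, -1, 0] ![1, -1, 0]) +
      (G ![1, 0, 1] ![1, 0, 1] - G ![1, 0, -1] ![1, 0, 1] - G ![1, 0, 1] ![1, 0, -1] +
        G ![1, 0, -1] ![1, 0, -1]) +
      (G ![0, 1, 1] ![0, 1, 1] - G ![0, 1, -1] ![0, 1, 1] - G ![0, 1, 1] ![0, 1, -1] +
        G ![0, 1, -1] ![0, 1, -1]))) / 104

/-- `x · ρ` -/
def dt {R : Type*} [Field R] (a : Fin 3 → ℤ) (r : Fin 3 → R) : R :=
  (a 0 : R) * r 0 + (a 1 : R) * r 1 + (a 2 : R) * r 2

theorem Ff_sq {R : Type*} [Field R] [CharZero R] (r l : Fin 3 → R) :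
    Ff (fun x y => dt x r ^ 2 * dt y l ^ 2) = Fq r l := by
  unfold Ff Fq dt
  simp
  ring

theorem Ff_add {R : Type*} [Field R] (G G' : (Fin 3 → ℤ) → (Fin 3 → ℤ) → R) :
    Ff (fun x y => G x y + G' x y) = Ff G + Ff G' := by
  unfold Ff; ring

theorem Ff_smul {R : Type*} [Field R] (c : R) (G : (Fin 3 → ℤ) → (Fin 3 → ℤ) → R) :
    Ff (fun x y => c * G x y) = c * Ff G := by
  unfold Ff; ring

theorem Ff_sum {R : Type*} [Field R] {ι : Type*} (s : Finset ι)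
    (G : ι → (Fin 3 → ℤ) → (Fin 3 → ℤ) → R) :
    Ff (fun x y => ∑ i ∈ s, G i x y) = ∑ i ∈ s, Ff (G i) := by
  classical
  induction s using Finset.induction_on with
  | empty => simp [Ff]
  | insert a s ha ih =>
    rw [Finset.sum_insert ha, ← ih, ← Ff_add]
    congr 1
    funext x y
    rw [Finset.sum_insert ha]

/-- the functional vanishes on the nine-term sum of squares of the zeros -/
theorem Ff_zeros {R : Type*} [Field R] [CharZero R] (c : R) :
    Ff (fun x y => c * ∑ k, dt x (fun i => (rho k i : R)) ^ 2 *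
      dt y (fun i => (ell k i : R)) ^ 2) = 0 := by
  rw [Ff_smul, Ff_sum]
  rw [Finset.sum_eq_zero, mul_zero]
  intro k _
  rw [Ff_sq, Fq_zero]

/-! ### positive semidefinite quadratic forms on `ℤ³` -/

/-- the parallelogram law -/
def Par (E : (Fin 3 → ℤ) → ℝ) : Prop := ∀ a b, E (a + b) + E (a - b) = 2 * E a + 2 * E b

section psd
variable {E : (Fin 3 → ℤ) → ℝ}

theorem Par.zero (h : Par E) : E 0 = 0 := by
  have := h 0 0
  rw [add_zero, sub_zero] at this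
  linarith

theorem Par.neg (h : Par E) (a : Fin 3 → ℤ) : E (-a) = E a := by
  have := h 0 a
  rw [zero_add, zero_sub, h.zero] at this
  linarith

/-- the polar form -/
noncomputable def pol (E : (Fin 3 → ℤ) → ℝ) (a b : Fin 3 → ℤ) : ℝ := (E (a + b) - E (a - b)) / 4

theorem Par.pol_add (h : Par E) (a b c : Fin 3 → ℤ) :
    pol E (a + b) c = pol E a c + pol E b c := by
  have h1 := h (a + c) b
  have h2 := h (a - c) b
  have h3 := h (b + c) a
  have h4 := h (b - c) a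
  have h5 := h.neg (a - c - b)
  have h6 := h.neg (a + c - b)
  have e1 : a + c + b = a + b + c := by abel
  have e2 : a - c + b = a + b - c := by abel
  have e3 : b + c + a = a + b + c := by abel
  have e4 : b - c + a = a + b - c := by abel
  have e5 : b + c - a = -(a - c - b) := by abel
  have e6 : b - c - a = -(a + c - b) := by abel
  rw [e1] at h1
  rw [e2] at h2
  rw [e3, e5, h5] at h3
  rw [e4, e6, h6] at h4
  unfold pol
  linarith

theorem pol_self (h : Par E) (a : Fin 3 → ℤ) : pol E a a = E a := by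
  have h1 := h a a
  rw [sub_self, h.zero] at h1
  unfold pol
  rw [sub_self, h.zero]
  linarith

theorem Par.pol_comm (h : Par E) (a b : Fin 3 → ℤ) : pol E a b = pol E b a := by
  unfold pol
  rw [add_comm a b, ← h.neg (a - b), neg_sub]

/-- `pol` as an additive map in the first variable -/
noncomputable def polHom (h : Par E) (c : Fin 3 → ℤ) : (Fin 3 → ℤ) →+ ℝ where
  toFun a := pol E a c
  map_zero' := by
    unfold pol
    rw [zero_add, zero_sub, h.neg, sub_self, zero_div]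
  map_add' a b := h.pol_add a b c

/-- the Gram matrix -/
noncomputable def gram (E : (Fin 3 → ℤ) → ℝ) : Matrix (Fin 3) (Fin 3) ℝ :=
  fun i j => pol E (Pi.single i 1) (Pi.single j 1)

theorem sum_single (a : Fin 3 → ℤ) : a = ∑ i, a i • (Pi.single i (1 : ℤ) : Fin 3 → ℤ) := by
  funext j
  simp [Finset.sum_apply, Pi.single_apply]

theorem pol_eq (h : Par E) (a b : Fin 3 → ℤ) :
    pol E a b = ∑ i, ∑ j, (a i : ℝ) * (b j : ℝ) * gram E i j := by
  have h1 : ∀ a c : Fin 3 → ℤ, pol E a c = ∑ i, (a i : ℝ) * pol E (Pi.single i 1) c := by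
    intro a c
    have : polHom h c a = ∑ i, (a i : ℝ) * polHom h c (Pi.single i 1) := by
      conv_lhs => rw [sum_single a]
      rw [map_sum]
      refine Finset.sum_congr rfl fun i _ => ?_
      rw [map_zsmul, zsmul_eq_mul]
    exact this
  rw [h1]
  refine Finset.sum_congr rfl fun i _ => ?_
  rw [h.pol_comm, h1, Finset.mul_sum]
  refine Finset.sum_congr rfl fun j _ => ?_
  rw [gram, h.pol_comm (Pi.single i 1)]
  ring

/-- the Gram matrix of a nonnegative form is positive semidefinite -/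
theorem gram_psd (h : Par E) (h0 : ∀ a, 0 ≤ E a) : (gram E).PosSemidef := by
  -- the quadratic form of the Gram matrix
  let Q : (Fin 3 → ℝ) → ℝ := fun v => ∑ i, ∑ j, v i * v j * gram E i j
  have hQint : ∀ a : Fin 3 → ℤ, 0 ≤ Q (fun i => (a i : ℝ)) := by
    intro a
    have : Q (fun i => (a i : ℝ)) = E a := by
      rw [← pol_self h a, pol_eq h]
    rw [this]
    exact h0 a
  have hQhom : ∀ (c : ℝ) (v : Fin 3 → ℝ), Q (fun i => c * v i) = c ^ 2 * Q v := by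
    intro c v
    change ∑ i, ∑ j, (c * v i) * (c * v j) * gram E i j = c ^ 2 * ∑ i, ∑ j, v i * v j * gram E i j
    rw [Finset.mul_sum]
    refine Finset.sum_congr rfl fun i _ => ?_
    rw [Finset.mul_sum]
    refine Finset.sum_congr rfl fun j _ => ?_
    ring
  have hQrat : ∀ a : Fin 3 → ℚ, 0 ≤ Q (fun i => (a i : ℝ)) := by
    intro a
    set N : ℕ := (a 0).den * (a 1).den * (a 2).den with hN
    have hN0 : (0 : ℝ) < (N : ℝ) := by
      have : 0 < N := by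
        rw [hN]; exact Nat.mul_pos (Nat.mul_pos (a 0).pos (a 1).pos) (a 2).pos
      exact_mod_cast this
    have hex : ∀ i, ∃ z : ℤ, (z : ℝ) = (N : ℝ) * (a i : ℝ) := by
      intro i
      have hd : ((a i).den : ℝ) * (a i : ℝ) = ((a i).num : ℝ) := by
        have := Rat.mul_den_eq_num (a i)
        have h2 : ((a i * (a i).den : ℚ) : ℝ) = (((a i).num : ℚ) : ℝ) := by rw [this]
        push_cast at h2
        rw [mul_comm] at h2
        exact h2
      fin_cases i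
      · refine ⟨(a 0).num * (a 1).den * (a 2).den, ?_⟩
        simp only [Fin.zero_eta] at hd ⊢
        rw [hN]; push_cast
        rw [← hd]; ring
      · refine ⟨(a 1).num * (a 0).den * (a 2).den, ?_⟩
        simp only [Fin.mk_one] at hd ⊢
        rw [hN]; push_cast
        rw [← hd]; ring
      · refine ⟨(a 2).num * (a 0).den * (a 1).den, ?_⟩
        simp only [Fin.reduceFinMk] at hd ⊢
        rw [hN]; push_cast
        rw [← hd]; ring
    choose z hz using hex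
    have h1 := hQint z
    have h2 : Q (fun i => (z i : ℝ)) = (N : ℝ) ^ 2 * Q (fun i => (a i : ℝ)) := by
      rw [← hQhom]
      congr 1
      funext i
      exact hz i
    rw [h2] at h1
    exact nonneg_of_mul_nonneg_right h1 (by positivity)
  have hQcont : Continuous Q := by
    refine continuous_finsetSum _ fun i _ => continuous_finsetSum _ fun j _ => ?_
    exact ((continuous_apply i).mul (continuous_apply j)).mul continuous_const
  have hQall : ∀ v, 0 ≤ Q v := by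
    have hd : DenseRange (fun (a : Fin 3 → ℚ) (i : Fin 3) => ((a i : ℚ) : ℝ)) := by
      have := DenseRange.piMap (ι := Fin 3) (f := fun _ => ((↑) : ℚ → ℝ))
        (fun _ => Rat.denseRange_cast)
      exact this
    intro v
    have hcl : IsClosed {v | 0 ≤ Q v} := isClosed_le continuous_const hQcont
    exact hd.induction_on v hcl hQrat
  rw [Matrix.posSemidef_iff_dotProduct_mulVec]
  refine ⟨?_, fun v => ?_⟩
  · ext i j
    simp only [Matrix.conjTranspose_apply, star_trivial]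
    exact h.pol_comm _ _
  · have : star v ⬝ᵥ (gram E).mulVec v = Q v := by
      simp only [star_trivial, dotProduct, Matrix.mulVec]
      refine Finset.sum_congr rfl fun i _ => ?_
      rw [Finset.mul_sum]
      refine Finset.sum_congr rfl fun j _ => ?_
      ring
    rw [this]
    exact hQall v

open scoped MatrixOrder in
/-- a nonnegative quadratic form on `ℤ³` is a sum of three squares of real linear forms -/
theorem sum_sq (h : Par E) (h0 : ∀ a, 0 ≤ E a) : ∃ B : Fin 3 → Fin 3 → ℝ,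
    ∀ a, E a = ∑ k, dt a (B k) ^ 2 := by
  obtain ⟨B, hB⟩ := CStarAlgebra.nonneg_iff_eq_star_mul_self.mp (gram_psd h h0).nonneg
  refine ⟨B, fun a => ?_⟩
  rw [← pol_self h a, pol_eq h]
  have e : ∀ i j, gram E i j = ∑ k, B k i * B k j := by
    intro i j
    rw [hB]
    simp [Matrix.mul_apply, Matrix.star_eq_conjTranspose]
  simp only [e, dt, Fin.sum_univ_three]
  ring

end psd

/-- **positivity of the functional on products of nonnegative quadratic forms** -/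
theorem Ff_psd {E q : (Fin 3 → ℤ) → ℝ} (hE : Par E) (hE0 : ∀ a, 0 ≤ E a) (hq : Par q)
    (hq0 : ∀ a, 0 ≤ q a) : 0 ≤ Ff (fun x y => E x * q y) := by
  obtain ⟨B, hB⟩ := sum_sq hE hE0
  obtain ⟨C, hC⟩ := sum_sq hq hq0
  have e : (fun x y => E x * q y) =
      fun x y => ∑ k, ∑ l, dt x (B k) ^ 2 * dt y (C l) ^ 2 := by
    funext x y
    rw [hB, hC, Finset.sum_mul]
    refine Finset.sum_congr rfl fun k _ => ?_
    rw [Finset.mul_sum]
  rw [e, Ff_sum]
  refine Finset.sum_nonneg fun k _ => ?_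
  rw [Ff_sum]
  refine Finset.sum_nonneg fun l _ => ?_
  rw [Ff_sq]
  exact Fq_nonneg _ _

/-- the rational version -/
theorem Ff_psd_rat {E q : (Fin 3 → ℤ) → ℚ}
    (hE : ∀ a b, E (a + b) + E (a - b) = 2 * E a + 2 * E b) (hE0 : ∀ a, 0 ≤ E a)
    (hq : ∀ a b, q (a + b) + q (a - b) = 2 * q a + 2 * q b) (hq0 : ∀ a, 0 ≤ q a) :
    0 ≤ Ff (fun x y => E x * q y) := by
  have h := Ff_psd (E := fun a => ((E a : ℚ) : ℝ)) (q := fun a => ((q a : ℚ) : ℝ))
    (fun a b => by beta_reduce; exact_mod_cast hE a b) (fun a => by exact_mod_cast hE0 a)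
    (fun a b => by beta_reduce; exact_mod_cast hq a b) (fun a => by exact_mod_cast hq0 a)
  have e : Ff (fun x y => ((E x : ℚ) : ℝ) * ((q y : ℚ) : ℝ)) =
      ((Ff (fun x y => E x * q y) : ℚ) : ℝ) := by
    unfold Ff
    push_cast
    ring
  rw [e] at h
  exact_mod_cast h

/-! ### unimodular pairs with a given cross product -/

/-- the cross product -/
def crs (m n : Fin 3 → ℤ) : Fin 3 → ℤ :=
  ![m 1 * n 2 - m 2 * n 1, m 2 * n 0 - m 0 * n 2, m 0 * n 1 - m 1 * n 0]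

/-- the functional on functions of `a ∈ ℤ³` and `(m, m') ∈ ℤ³ × ℤ³` -/
def Fp {R : Type*} [Field R] (G : (Fin 3 → ℤ) → (Fin 3 → ℤ) → (Fin 3 → ℤ) → R) : R :=
  ((72 * G ![1, 0, 0] ![0, 1, 0] ![0, 0, 1] + 8 * G ![0, 1, 0] ![0, 1, 0] ![0, 0, 1] +
      128 * G ![0, 0, 1] ![0, 1, 0] ![0, 0, 1]) +
    (72 * G ![0, 1, 0] ![0, 0, 1] ![1, 0, 0] + 8 * G ![0, 0, 1] ![0, 0, 1] ![1, 0, 0] +
      128 * G ![1, 0, 0] ![0, 0, 1] ![1, 0, 0]) +
    (72 * G ![0, 0, 1] ![1, 0, 0] ![0, 1, 0] + 8 * G ![1, 0, 0] ![1, 0, 0] ![0, 1, 0] +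
      128 * G ![0, 1, 0] ![1, 0, 0] ![0, 1, 0]) -
    13 * ((G ![1, 1, 0] ![0, 0, 1] ![1, -1, 0] - G ![1, -1, 0] ![0, 0, 1] ![1, -1, 0] -
        G ![1, 1, 0] ![0, 0, 1] ![-1, -1, 0] + G ![1, -1, 0] ![0, 0, 1] ![-1, -1, 0]) +
      (G ![1, 0, 1] ![1, 0, -1] ![0, 1, 0] - G ![1, 0, -1] ![1, 0, -1] ![0, 1, 0] -
        G ![1, 0, 1] ![-1, 0, -1] ![0, 1, 0] + G ![1, 0, -1] ![-1, 0, -1] ![0, 1, 0]) +
      (G ![0, 1, 1] ![1, 0, 0] ![0, 1, -1] - G ![0, 1, -1] ![1, 0, 0] ![0, 1, -1] -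
        G ![0, 1, 1] ![1, 0, 0] ![0, -1, -1] + G ![0, 1, -1] ![1, 0, 0] ![0, -1, -1]))) / 104

theorem Fp_crs {R : Type*} [Field R] (G : (Fin 3 → ℤ) → (Fin 3 → ℤ) → R) :
    Fp (fun a m n => G a (crs m n)) = Ff G := by
  have h0 : crs ![0, 1, 0] ![0, 0, 1] = ![1, 0, 0] := by decide
  have h1 : crs ![0, 0, 1] ![1, 0, 0] = ![0, 1, 0] := by decide
  have h2 : crs ![1, 0, 0] ![0, 1, 0] = ![0, 0, 1] := by decide
  have h3 : crs ![0, 0, 1] ![1, -1, 0] = ![1, 1, 0] := by decide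
  have h4 : crs ![0, 0, 1] ![-1, -1, 0] = ![1, -1, 0] := by decide
  have h5 : crs ![1, 0, -1] ![0, 1, 0] = ![1, 0, 1] := by decide
  have h6 : crs ![-1, 0, -1] ![0, 1, 0] = ![1, 0, -1] := by decide
  have h7 : crs ![1, 0, 0] ![0, 1, -1] = ![0, 1, 1] := by decide
  have h8 : crs ![1, 0, 0] ![0, -1, -1] = ![0, 1, -1] := by decide
  unfold Fp Ff
  simp only [h0, h1, h2, h3, h4, h5, h6, h7, h8]

theorem Fp_add {R : Type*} [Field R] (G G' : (Fin 3 → ℤ) → (Fin 3 → ℤ) → (Fin 3 → ℤ) → R) :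
    Fp (fun a m n => G a m n + G' a m n) = Fp G + Fp G' := by
  unfold Fp; ring

/-- **positivity, final form**: if `G` is a finite sum of products of a nonnegative quadratic form
in `a` and a nonnegative quadratic form in `m × n`, then `Fp G ≥ 0` -/
theorem Fp_nonneg {ι : Type*} (s : Finset ι) (E q : ι → (Fin 3 → ℤ) → ℚ)
    (hE : ∀ i ∈ s, ∀ a b, E i (a + b) + E i (a - b) = 2 * E i a + 2 * E i b)
    (hE0 : ∀ i ∈ s, ∀ a, 0 ≤ E i a)
    (hq : ∀ i ∈ s, ∀ a b, q i (a + b) + q i (a - b) = 2 * q i a + 2 * q i b)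
    (hq0 : ∀ i ∈ s, ∀ a, 0 ≤ q i a)
    (G : (Fin 3 → ℤ) → (Fin 3 → ℤ) → (Fin 3 → ℤ) → ℚ)
    (hG : ∀ a m n, G a m n = ∑ i ∈ s, E i a * q i (crs m n)) : 0 ≤ Fp G := by
  have e : G = fun a m n => ∑ i ∈ s, E i a * q i (crs m n) := by
    funext a m n
    exact hG a m n
  have h : Fp (fun a m n => ∑ i ∈ s, E i a * q i (crs m n)) =
      Ff (fun x y => ∑ i ∈ s, E i x * q i y) := Fp_crs fun x y => ∑ i ∈ s, E i x * q i y
  rw [e, h, Ff_sum]
  exact Finset.sum_nonneg fun i hi => Ff_psd_rat (hE i hi) (hE0 i hi) (hq i hi) (hq0 i hi)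

/-- the value of `Fp` on the class of the moving cycle: zero -/
theorem Fp_zeros (c : ℚ) (G : (Fin 3 → ℤ) → (Fin 3 → ℤ) → (Fin 3 → ℤ) → ℚ)
    (hG : ∀ a m n, G a m n = c * ∑ k, dt a (fun i => (rho k i : ℚ)) ^ 2 *
      dt (crs m n) (fun i => (ell k i : ℚ)) ^ 2) : Fp G = 0 := by
  have e : G = fun a m n => c * ∑ k, dt a (fun i => (rho k i : ℚ)) ^ 2 *
      dt (crs m n) (fun i => (ell k i : ℚ)) ^ 2 := by
    funext a m n
    exact hG a m n
  have h : Fp (fun a m n => c * ∑ k, dt a (fun i => (rho k i : ℚ)) ^ 2 *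
      dt (crs m n) (fun i => (ell k i : ℚ)) ^ 2) =
      Ff (fun x y => c * ∑ k, dt x (fun i => (rho k i : ℚ)) ^ 2 *
        dt y (fun i => (ell k i : ℚ)) ^ 2) :=
    Fp_crs fun x y => c * ∑ k, dt x (fun i => (rho k i : ℚ)) ^ 2 *
      dt y (fun i => (ell k i : ℚ)) ^ 2
  rw [e, h, Ff_zeros]

/-- the functional is not zero: the value at `G = a₀² (m × n)₀²` is `9 / 13` -/
theorem Fp_pos (G : (Fin 3 → ℤ) → (Fin 3 → ℤ) → (Fin 3 → ℤ) → ℚ)
    (hG : ∀ a m n, G a m n = (a 0 : ℚ) ^ 2 * (crs m n 0 : ℚ) ^ 2) : Fp G = 9 / 13 := by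
  have e : G = fun a m n => (a 0 : ℚ) ^ 2 * (crs m n 0 : ℚ) ^ 2 := by
    funext a m n
    exact hG a m n
  have h : Fp (fun a m n => (a 0 : ℚ) ^ 2 * (crs m n 0 : ℚ) ^ 2) =
      Ff (fun x y : Fin 3 → ℤ => (x 0 : ℚ) ^ 2 * (y 0 : ℚ) ^ 2) :=
    Fp_crs fun x y : Fin 3 → ℤ => (x 0 : ℚ) ^ 2 * (y 0 : ℚ) ^ 2
  rw [e, h]
  unfold Ff
  simp
  norm_num

/-! ### the functional as a list of `21` terms -/

def cf : Fin 21 → ℤ :=
  ![72, 8, 128, 72, 8, 128, 72, 8, 128, -13, 13, 13, -13, -13, 13, 13, -13, -13, 13, 13, -13]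

def av : Fin 21 → Fin 3 → ℤ :=
  ![![1, 0, 0], ![0, 1, 0], ![0, 0, 1], ![0, 1, 0], ![0, 0, 1], ![1, 0, 0], ![0, 0, 1],
    ![1, 0, 0], ![0, 1, 0], ![1, 1, 0], ![1, -1, 0], ![1, 1, 0], ![1, -1, 0], ![1, 0, 1],
    ![1, 0, -1], ![1, 0, 1], ![1, 0, -1], ![0, 1, 1], ![0, 1, -1], ![0, 1, 1], ![0, 1, -1]]

def mv : Fin 21 → Fin 3 → ℤ :=
  ![![0, 1, 0], ![0, 1, 0], ![0, 1, 0], ![0, 0, 1], ![0, 0, 1], ![0, 0, 1], ![1, 0, 0],
    ![1, 0, 0], ![1, 0, 0], ![0, 0, 1], ![0, 0, 1], ![0, 0, 1], ![0, 0, 1], ![1, 0, -1],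
    ![1, 0, -1], ![-1, 0, -1], ![-1, 0, -1], ![1, 0, 0], ![1, 0, 0], ![1, 0, 0], ![1, 0, 0]]

def nv : Fin 21 → Fin 3 → ℤ :=
  ![![0, 0, 1], ![0, 0, 1], ![0, 0, 1], ![1, 0, 0], ![1, 0, 0], ![1, 0, 0], ![0, 1, 0],
    ![0, 1, 0], ![0, 1, 0], ![1, -1, 0], ![1, -1, 0], ![-1, -1, 0], ![-1, -1, 0], ![0, 1, 0],
    ![0, 1, 0], ![0, 1, 0], ![0, 1, 0], ![0, 1, -1], ![0, 1, -1], ![0, -1, -1], ![0, -1, -1]]

theorem Fp_sum {R : Type*} [Field R] (G : (Fin 3 → ℤ) → (Fin 3 → ℤ) → (Fin 3 → ℤ) → R) :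
    Fp G = (∑ k, (cf k : R) * G (av k) (mv k) (nv k)) / 104 := by
  unfold Fp
  congr 1
  simp only [Fin.sum_univ_succ, Fin.sum_univ_zero, cf, av, mv, nv]
  simp
  ring

/-- a complement of a vector of the list -/
def cmp (a : Fin 3 → ℤ) : Fin 3 → ℤ :=
  if a 0 = 1 then ![1, 0, 0] else if a 1 = 1 then ![0, 1, 0] else ![0, 0, 1]

/-- each vector `a` of the list is part of a basis of `ℤ³` -/
theorem av_primitive (k : Fin 21) : ∃ n : Fin 3 → ℤ,
    n 0 * av k 0 + n 1 * av k 1 + n 2 * av k 2 = 1 := by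
  refine ⟨cmp (av k), ?_⟩
  revert k
  decide

/-- each pair `(m, n)` of the list is part of a basis of `ℤ³` -/
theorem mn_unimodular (k : Fin 21) : ∃ n : Fin 3 → ℤ,
    n 0 * crs (mv k) (nv k) 0 + n 1 * crs (mv k) (nv k) 1 + n 2 * crs (mv k) (nv k) 2 = 1 := by
  refine ⟨cmp (crs (mv k) (nv k)), ?_⟩
  revert k
  decide

end Pool.Agent.VM.V
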