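import Pool.Agent.Lib_helper85.VM.Defs
import Pool.Agent.Lib_VM.V_h80

/-!
# MP_5582d1_ag, block D6 (helper80)

A nonnegative function `Q m m'` on `ℤ³ × ℤ³`, quadratic in each variable, symmetric and invariant
under `m ↦ m + m'`, is a nonnegative quadratic form in the cross product `m × m'`.
-/

set_option autoImplicit false

namespace Pool.Agent.VM.D6p

open Pool.Agent.VM

/-- the coordinates of a quadratic form on `ℤ³` -/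
theorem expand {f : (Fin 3 → ℤ) → ℚ} (hf : Par f) (a : Fin 3 → ℤ) :
    f a = (a 0 : ℚ) ^ 2 * f ![1, 0, 0] + (a 1 : ℚ) ^ 2 * f ![0, 1, 0] +
      (a 2 : ℚ) ^ 2 * f ![0, 0, 1] +
      (a 0 : ℚ) * (a 1 : ℚ) * (f ![1, 1, 0] - f ![1, 0, 0] - f ![0, 1, 0]) +
      (a 0 : ℚ) * (a 2 : ℚ) * (f ![1, 0, 1] - f ![1, 0, 0] - f ![0, 0, 1]) +
      (a 1 : ℚ) * (a 2 : ℚ) * (f ![0, 1, 1] - f ![0, 1, 0] - f ![0, 0, 1]) := by
  set E : (Fin 3 → ℤ) → ℝ := fun a => ((f a : ℚ) : ℝ) with hE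
  have hP : V.Par E := fun a b => by
    rw [hE]; beta_reduce
    exact_mod_cast hf a b
  have s0 : (Pi.single 0 1 : Fin 3 → ℤ) = ![1, 0, 0] := by decide
  have s1 : (Pi.single 1 1 : Fin 3 → ℤ) = ![0, 1, 0] := by decide
  have s2 : (Pi.single 2 1 : Fin 3 → ℤ) = ![0, 0, 1] := by decide
  have p : ∀ u v : Fin 3 → ℤ, V.pol E u v = (E (u + v) - E u - E v) / 2 := by
    intro u v
    have := hP u v
    unfold V.pol
    linarith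
  have a01 : (![1, 0, 0] : Fin 3 → ℤ) + ![0, 1, 0] = ![1, 1, 0] := by decide
  have a02 : (![1, 0, 0] : Fin 3 → ℤ) + ![0, 0, 1] = ![1, 0, 1] := by decide
  have a12 : (![0, 1, 0] : Fin 3 → ℤ) + ![0, 0, 1] = ![0, 1, 1] := by decide
  have h := V.pol_eq hP a a
  rw [V.pol_self hP] at h
  simp only [Fin.sum_univ_three, V.gram, s0, s1, s2] at h
  rw [V.pol_self hP, V.pol_self hP, V.pol_self hP, hP.pol_comm ![0, 1, 0] ![1, 0, 0],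
    hP.pol_comm ![0, 0, 1] ![1, 0, 0], hP.pol_comm ![0, 0, 1] ![0, 1, 0], p, p, p, a01, a02,
    a12, hE] at h
  beta_reduce at h
  have h2 : ((f a : ℚ) : ℝ) = (((a 0 : ℚ) ^ 2 * f ![1, 0, 0] + (a 1 : ℚ) ^ 2 * f ![0, 1, 0] +
      (a 2 : ℚ) ^ 2 * f ![0, 0, 1] +
      (a 0 : ℚ) * (a 1 : ℚ) * (f ![1, 1, 0] - f ![1, 0, 0] - f ![0, 1, 0]) +
      (a 0 : ℚ) * (a 2 : ℚ) * (f ![1, 0, 1] - f ![1, 0, 0] - f ![0, 0, 1]) +
      (a 1 : ℚ) * (a 2 : ℚ) * (f ![0, 1, 1] - f ![0, 1, 0] - f ![0, 0, 1]) : ℚ) : ℝ) := by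
    rw [h]
    push_cast
    ring
  exact_mod_cast h2

/-- an explicit quadratic form satisfies the parallelogram law -/
theorem par_quad (A B C d e f : ℚ) : Par (fun y : Fin 3 → ℤ => A * (y 0 : ℚ) ^ 2 +
    B * (y 1 : ℚ) ^ 2 + C * (y 2 : ℚ) ^ 2 + d * ((y 0 : ℚ) * (y 1 : ℚ)) +
    e * ((y 0 : ℚ) * (y 2 : ℚ)) + f * ((y 1 : ℚ) * (y 2 : ℚ))) := by
  intro a b
  simp only [Pi.add_apply, Pi.sub_apply]
  push_cast
  ring

/-- **D6** -/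
theorem D6 (Q : (Fin 3 → ℤ) → (Fin 3 → ℤ) → ℚ) (hQ : ∀ m', Par (fun m => Q m m'))
    (hs : ∀ m m', Q m m' = Q m' m) (hinv : ∀ m m', Q (m + m') m' = Q m m')
    (h0 : ∀ m m', 0 ≤ Q m m') :
    ∃ q : (Fin 3 → ℤ) → ℚ, Par q ∧ (∀ y, 0 ≤ q y) ∧ ∀ m m', Q m m' = q (V.crs m m') := by
  -- `Q m m = 0`
  have hz : ∀ m', Q 0 m' = 0 := by
    intro m'
    have := hQ m' 0 0
    beta_reduce at this
    rw [add_zero, sub_zero] at this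
    linarith
  have hd : ∀ m, Q m m = 0 := by
    intro m
    have := hinv 0 m
    rw [zero_add] at this
    rw [this, hz]
  have hinv' : ∀ m m', Q (m - m') m' = Q m m' := by
    intro m m'
    have := hinv (m - m') m'
    rw [sub_add_cancel] at this
    exact this.symm
  obtain ⟨A, hA⟩ : ∃ A, A = Q ![0, 1, 0] ![0, 0, 1] := ⟨_, rfl⟩
  obtain ⟨B, hB⟩ : ∃ A, A = Q ![1, 0, 0] ![0, 0, 1] := ⟨_, rfl⟩
  obtain ⟨C, hC⟩ : ∃ A, A = Q ![1, 0, 0] ![0, 1, 0] := ⟨_, rfl⟩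
  obtain ⟨D, hD⟩ : ∃ A, A = Q ![0, 0, 1] ![1, 1, 0] := ⟨_, rfl⟩
  obtain ⟨E, hE⟩ : ∃ A, A = Q ![0, 1, 0] ![1, 0, 1] := ⟨_, rfl⟩
  obtain ⟨F, hF⟩ : ∃ A, A = Q ![1, 0, 0] ![0, 1, 1] := ⟨_, rfl⟩
  -- all the values
  have v00 : Q ![1, 0, 0] ![1, 0, 0] = 0 := hd _
  have v11 : Q ![0, 1, 0] ![0, 1, 0] = 0 := hd _
  have v22 : Q ![0, 0, 1] ![0, 0, 1] = 0 := hd _
  have v33 : Q ![1, 1, 0] ![1, 1, 0] = 0 := hd _
  have v44 : Q ![1, 0, 1] ![1, 0, 1] = 0 := hd _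
  have v55 : Q ![0, 1, 1] ![0, 1, 1] = 0 := hd _
  have v01 : Q ![1, 0, 0] ![0, 1, 0] = C := hC.symm
  have v10 : Q ![0, 1, 0] ![1, 0, 0] = C := by rw [hs, v01]
  have v02 : Q ![1, 0, 0] ![0, 0, 1] = B := hB.symm
  have v20 : Q ![0, 0, 1] ![1, 0, 0] = B := by rw [hs, v02]
  have v12 : Q ![0, 1, 0] ![0, 0, 1] = A := hA.symm
  have v21 : Q ![0, 0, 1] ![0, 1, 0] = A := by rw [hs, v12]
  have v23 : Q ![0, 0, 1] ![1, 1, 0] = D := hD.symm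
  have v32 : Q ![1, 1, 0] ![0, 0, 1] = D := by rw [hs, v23]
  have v14 : Q ![0, 1, 0] ![1, 0, 1] = E := hE.symm
  have v41 : Q ![1, 0, 1] ![0, 1, 0] = E := by rw [hs, v14]
  have v05 : Q ![1, 0, 0] ![0, 1, 1] = F := hF.symm
  have v50 : Q ![0, 1, 1] ![1, 0, 0] = F := by rw [hs, v05]
  have v30 : Q ![1, 1, 0] ![1, 0, 0] = C := by
    have h := hinv ![0, 1, 0] ![1, 0, 0]
    rw [show (![0, 1, 0] : Fin 3 → ℤ) + ![1, 0, 0] = ![1, 1, 0] by decide] at h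
    rw [h, v10]
  have v03 : Q ![1, 0, 0] ![1, 1, 0] = C := by rw [hs, v30]
  have v31 : Q ![1, 1, 0] ![0, 1, 0] = C := by
    have h := hinv ![1, 0, 0] ![0, 1, 0]
    rw [show (![1, 0, 0] : Fin 3 → ℤ) + ![0, 1, 0] = ![1, 1, 0] by decide] at h
    rw [h, v01]
  have v13 : Q ![0, 1, 0] ![1, 1, 0] = C := by rw [hs, v31]
  have v40 : Q ![1, 0, 1] ![1, 0, 0] = B := by
    have h := hinv ![0, 0, 1] ![1, 0, 0]
    rw [show (![0, 0, 1] : Fin 3 → ℤ) + ![1, 0, 0] = ![1, 0, 1] by decide] at h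
    rw [h, v20]
  have v04 : Q ![1, 0, 0] ![1, 0, 1] = B := by rw [hs, v40]
  have v42 : Q ![1, 0, 1] ![0, 0, 1] = B := by
    have h := hinv ![1, 0, 0] ![0, 0, 1]
    rw [show (![1, 0, 0] : Fin 3 → ℤ) + ![0, 0, 1] = ![1, 0, 1] by decide] at h
    rw [h, v02]
  have v24 : Q ![0, 0, 1] ![1, 0, 1] = B := by rw [hs, v42]
  have v51 : Q ![0, 1, 1] ![0, 1, 0] = A := by
    have h := hinv ![0, 0, 1] ![0, 1, 0]
    rw [show (![0, 0, 1] : Fin 3 → ℤ) + ![0, 1, 0] = ![0, 1, 1] by decide] at h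
    rw [h, v21]
  have v15 : Q ![0, 1, 0] ![0, 1, 1] = A := by rw [hs, v51]
  have v52 : Q ![0, 1, 1] ![0, 0, 1] = A := by
    have h := hinv ![0, 1, 0] ![0, 0, 1]
    rw [show (![0, 1, 0] : Fin 3 → ℤ) + ![0, 0, 1] = ![0, 1, 1] by decide] at h
    rw [h, v12]
  have v25 : Q ![0, 0, 1] ![0, 1, 1] = A := by rw [hs, v52]
  -- the three last values
  have r1 : Q ![1, 1, 0] ![1, 0, 1] + Q ![0, 1, 1] ![1, 0, 1] = 2 * E + 2 * B := by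
    have h := hinv' ![1, 1, 0] ![1, 0, 1]
    rw [show (![1, 1, 0] : Fin 3 → ℤ) - ![1, 0, 1] = ![0, 1, -1] by decide] at h
    have h2 := hQ ![1, 0, 1] ![0, 1, 0] ![0, 0, 1]
    beta_reduce at h2
    rw [show (![0, 1, 0] : Fin 3 → ℤ) + ![0, 0, 1] = ![0, 1, 1] by decide,
      show (![0, 1, 0] : Fin 3 → ℤ) - ![0, 0, 1] = ![0, 1, -1] by decide, v14, v24] at h2
    linarith
  have r2 : Q ![1, 0, 1] ![1, 1, 0] + Q ![0, 1, 1] ![1, 1, 0] = 2 * D + 2 * C := by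
    have h := hinv' ![1, 0, 1] ![1, 1, 0]
    rw [show (![1, 0, 1] : Fin 3 → ℤ) - ![1, 1, 0] = ![0, -1, 1] by decide] at h
    have h2 := hQ ![1, 1, 0] ![0, 0, 1] ![0, 1, 0]
    beta_reduce at h2
    rw [show (![0, 0, 1] : Fin 3 → ℤ) + ![0, 1, 0] = ![0, 1, 1] by decide,
      show (![0, 0, 1] : Fin 3 → ℤ) - ![0, 1, 0] = ![0, -1, 1] by decide, v23, v13] at h2
    linarith
  have r3 : Q ![1, 0, 1] ![0, 1, 1] + Q ![1, 1, 0] ![0, 1, 1] = 2 * F + 2 * A := by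
    have h := hinv' ![1, 0, 1] ![0, 1, 1]
    rw [show (![1, 0, 1] : Fin 3 → ℤ) - ![0, 1, 1] = ![1, -1, 0] by decide] at h
    have h2 := hQ ![0, 1, 1] ![1, 0, 0] ![0, 1, 0]
    beta_reduce at h2
    rw [show (![1, 0, 0] : Fin 3 → ℤ) + ![0, 1, 0] = ![1, 1, 0] by decide,
      show (![1, 0, 0] : Fin 3 → ℤ) - ![0, 1, 0] = ![1, -1, 0] by decide, v05, v15] at h2
    linarith
  have c34 := hs ![1, 1, 0] ![1, 0, 1]
  have c45 := hs ![1, 0, 1] ![0, 1, 1]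
  have c35 := hs ![1, 1, 0] ![0, 1, 1]
  have v34 : Q ![1, 1, 0] ![1, 0, 1] = E + B + D + C - F - A := by linarith
  have v43 : Q ![1, 0, 1] ![1, 1, 0] = E + B + D + C - F - A := by linarith
  have v45 : Q ![1, 0, 1] ![0, 1, 1] = E + B + F + A - D - C := by linarith
  have v54 : Q ![0, 1, 1] ![1, 0, 1] = E + B + F + A - D - C := by linarith
  have v35 : Q ![1, 1, 0] ![0, 1, 1] = D + C + F + A - E - B := by linarith
  have v53 : Q ![0, 1, 1] ![1, 1, 0] = D + C + F + A - E - B := by linarith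
  -- the form
  let q : (Fin 3 → ℤ) → ℚ := fun y => A * (y 0 : ℚ) ^ 2 +
    B * (y 1 : ℚ) ^ 2 + C * (y 2 : ℚ) ^ 2 + (A + B - D) * ((y 0 : ℚ) * (y 1 : ℚ)) +
    (A + C - E) * ((y 0 : ℚ) * (y 2 : ℚ)) + (B + C - F) * ((y 1 : ℚ) * (y 2 : ℚ))
  have hq : ∀ m m', Q m m' = q (V.crs m m') := by
    intro m m'
    have x : ∀ u, Q u m' = (m' 0 : ℚ) ^ 2 * Q u ![1, 0, 0] + (m' 1 : ℚ) ^ 2 * Q u ![0, 1, 0] +
      (m' 2 : ℚ) ^ 2 * Q u ![0, 0, 1] +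
      (m' 0 : ℚ) * (m' 1 : ℚ) * (Q u ![1, 1, 0] - Q u ![1, 0, 0] - Q u ![0, 1, 0]) +
      (m' 0 : ℚ) * (m' 2 : ℚ) * (Q u ![1, 0, 1] - Q u ![1, 0, 0] - Q u ![0, 0, 1]) +
      (m' 1 : ℚ) * (m' 2 : ℚ) * (Q u ![0, 1, 1] - Q u ![0, 1, 0] - Q u ![0, 0, 1]) := by
      intro u
      have h : Par (fun v => Q u v) := by
        intro a b
        have := hQ u a b
        beta_reduce at this ⊢
        rw [hs u, hs u, hs u, hs u]
        exact this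
      exact expand h m'
    have h1 := expand (hQ m') m
    beta_reduce at h1
    rw [h1, x, x, x, x, x, x, v00, v01, v02, v03, v04, v05, v10, v11, v12, v13, v14, v15, v20,
      v21, v22, v23, v24, v25, v30, v31, v32, v33, v34, v35, v40, v41, v42, v43, v44, v45, v50,
      v51, v52, v53, v54, v55]
    change _ = A * ((V.crs m m' 0 : ℤ) : ℚ) ^ 2 +
      B * ((V.crs m m' 1 : ℤ) : ℚ) ^ 2 + C * ((V.crs m m' 2 : ℤ) : ℚ) ^ 2 +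
      (A + B - D) * (((V.crs m m' 0 : ℤ) : ℚ) * ((V.crs m m' 1 : ℤ) : ℚ)) +
      (A + C - E) * (((V.crs m m' 0 : ℤ) : ℚ) * ((V.crs m m' 2 : ℤ) : ℚ)) +
      (B + C - F) * (((V.crs m m' 1 : ℤ) : ℚ) * ((V.crs m m' 2 : ℤ) : ℚ))
    have w0 : ((V.crs m m' 0 : ℤ) : ℚ) = (m 1 : ℚ) * m' 2 - (m 2 : ℚ) * m' 1 := by
      simp [V.crs]
    have w1 : ((V.crs m m' 1 : ℤ) : ℚ) = (m 2 : ℚ) * m' 0 - (m 0 : ℚ) * m' 2 := by
      simp [V.crs]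
    have w2 : ((V.crs m m' 2 : ℤ) : ℚ) = (m 0 : ℚ) * m' 1 - (m 1 : ℚ) * m' 0 := by
      simp [V.crs]
    rw [w0, w1, w2]
    ring
  refine ⟨q, par_quad A B C (A + B - D) (A + C - E) (B + C - F), ?_, hq⟩
  intro y
  have hhom : ∀ c : ℤ, q (fun i => c * y i) = (c : ℚ) ^ 2 * q y := by
    intro c
    change A * ((c * y 0 : ℤ) : ℚ) ^ 2 +
      B * ((c * y 1 : ℤ) : ℚ) ^ 2 + C * ((c * y 2 : ℤ) : ℚ) ^ 2 +
      (A + B - D) * (((c * y 0 : ℤ) : ℚ) * ((c * y 1 : ℤ) : ℚ)) +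
      (A + C - E) * (((c * y 0 : ℤ) : ℚ) * ((c * y 2 : ℤ) : ℚ)) +
      (B + C - F) * (((c * y 1 : ℤ) : ℚ) * ((c * y 2 : ℤ) : ℚ)) =
      (c : ℚ) ^ 2 * (A * (y 0 : ℚ) ^ 2 +
      B * (y 1 : ℚ) ^ 2 + C * (y 2 : ℚ) ^ 2 + (A + B - D) * ((y 0 : ℚ) * (y 1 : ℚ)) +
      (A + C - E) * ((y 0 : ℚ) * (y 2 : ℚ)) + (B + C - F) * ((y 1 : ℚ) * (y 2 : ℚ)))
    push_cast
    ring
  have fin : ∀ (c : ℤ) (m m' : Fin 3 → ℤ), c ≠ 0 → V.crs m m' = (fun i => c * y i) → 0 ≤ q y := by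
    intro c m m' hc h
    have h1 := h0 m m'
    rw [hq, h, hhom] at h1
    have hc' : (0 : ℚ) < (c : ℚ) ^ 2 := by
      have : (c : ℚ) ≠ 0 := by exact_mod_cast hc
      positivity
    exact nonneg_of_mul_nonneg_right h1 hc'
  by_cases y0 : y 0 = 0
  · by_cases y1 : y 1 = 0
    · by_cases y2 : y 2 = 0
      · have : q y = 0 := by
          change A * (y 0 : ℚ) ^ 2 +
            B * (y 1 : ℚ) ^ 2 + C * (y 2 : ℚ) ^ 2 + (A + B - D) * ((y 0 : ℚ) * (y 1 : ℚ)) +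
            (A + C - E) * ((y 0 : ℚ) * (y 2 : ℚ)) + (B + C - F) * ((y 1 : ℚ) * (y 2 : ℚ)) = 0
          rw [y0, y1, y2]
          simp
        rw [this]
      · refine fin (y 2) ![y 2, 0, -y 0] ![0, y 2, -y 1] y2 ?_
        funext i
        fin_cases i <;> simp [V.crs] <;> ring
    · refine fin (y 1) ![0, -y 2, y 1] ![y 1, -y 0, 0] y1 ?_
      funext i
      fin_cases i <;> simp [V.crs] <;> ring
  · refine fin (y 0) ![-y 1, y 0, 0] ![-y 2, 0, y 0] y0 ?_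
    funext i
    fin_cases i <;> simp [V.crs] <;> ring

end Pool.Agent.VM.D6p
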