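import Pool.Agent.Lib_helper85.VM.Defs2

/-!
# MP_5582d1_ag: the decomposition, definitions
-/

set_option autoImplicit false

namespace Pool.Agent.VM

open scoped Classical

attribute [-instance] Subtype.instDecidableEq

noncomputable section

/-- the residues of the integral elements of a subfield -/
def resF {Λ : Type} [Field Λ] (w : QV Λ) (K : Subfield Λ) : Subfield w.κ where
  carrier := {y | ∃ x ∈ K, x ∈ w.ring ∧ w.res x = y}
  mul_mem' := by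
    rintro _ _ ⟨x, hx, hx', rfl⟩ ⟨y, hy, hy', rfl⟩
    exact ⟨x * y, K.mul_mem hx hy, w.ring.mul_mem _ _ hx' hy', w.res_mul hx' hy'⟩
  one_mem' := ⟨1, K.one_mem, w.ring.one_mem, w.res_one⟩
  add_mem' := by
    rintro _ _ ⟨x, hx, hx', rfl⟩ ⟨y, hy, hy', rfl⟩
    exact ⟨x + y, K.add_mem hx hy, w.ring.add_mem _ _ hx' hy', w.res_add hx' hy'⟩
  zero_mem' := ⟨0, K.zero_mem, w.ring.zero_mem, w.res_zero⟩
  neg_mem' := by
    rintro _ ⟨x, hx, hx', rfl⟩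
    exact ⟨-x, K.neg_mem hx, w.ring.neg_mem _ hx', w.res_neg hx'⟩
  inv_mem' := by
    rintro _ ⟨x, hx, hx', rfl⟩
    by_cases h0 : w.res x = 0
    · rw [h0, inv_zero]; exact ⟨0, K.zero_mem, w.ring.zero_mem, w.res_zero⟩
    · have h1 := h0
      rw [w.res_eq_zero_iff hx'] at h1
      push Not at h1
      have hv : w.v x = 0 := le_antisymm h1.2 ((w.mem_ring_of h1.1).mp hx')
      have hi : x⁻¹ ∈ w.ring := by
        rw [w.mem_ring_of (inv_ne_zero h1.1), w.inv h1.1, hv, neg_zero]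
      refine ⟨x⁻¹, K.inv_mem hx, hi, ?_⟩
      have h2 := w.res_mul hx' hi
      rw [mul_inv_cancel₀ h1.1, w.res_one] at h2
      exact (inv_eq_of_mul_eq_one_right h2.symm).symm

/-- the elements algebraic over a subfield -/
def acl {Λ : Type} [Field Λ] (K : Subfield Λ) : Subfield Λ := (algebraicClosure K Λ).toSubfield

/-- the valuation with centre `a` (chosen) -/
def atp {Λ : Type} [Field Λ] (Kb : Subfield Λ) (e : Pt E2 Λ) (a : Pt E2 Kb) : QV Λ :=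
  if h : ∃ u : QV Λ, AtPt Kb e a u then h.choose
  else ⟨fun _ => 0, fun _ _ => by simp, fun _ _ _ => by simp⟩

/-- `m, m', n` is a basis of `ℤ³` -/
def Uni (m m' n : Fin 3 → ℤ) : Prop := ∀ x : Fin 3 → ℤ, ∃ a b c : ℤ, x = a • m + b • m' + c • n

/-- the cross product -/
def crs (m m' : Fin 3 → ℤ) : Fin 3 → ℤ :=
  ![m 1 * m' 2 - m 2 * m' 1, m 2 * m' 0 - m 0 * m' 2, m 0 * m' 1 - m 1 * m' 0]

/-- the data for a subvariety with generic `w` -/
structure Ctx {l : ℂ} (Z : SubVar l) where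
  /-- the big field -/
  Λ : Type
  [fld : Field Λ]
  [alg : Algebra ℂ Λ]
  [ac : IsAlgClosed Λ]
  /-- the embedding -/
  ι : Z.M →ₐ[ℂ] Λ
  hal : ∀ x : Λ, IsAlgebraic (Subfield.closure
    (Set.range (algebraMap ℂ Λ) ∪ ⋃ i, cs (mp (W := E2) ι (Z.w i)))) x
  /-- the embeddings over `ℂ(w)` -/
  T : Finset (Z.M →ₐ[ℂ] Λ)
  hT : ∀ τ, τ ∈ T ↔ ∀ i, mp (W := E2) τ (Z.w i) = mp ι (Z.w i)
  l0 : l ≠ 0
  /-- the valuation of `ℂ` -/
  v : QV ℂ
  vl : v.v l = 1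
  vn : ∀ n : ℕ, n ≠ 0 → v.v (n : ℂ) = 0
  /-- its extension -/
  w0 : QV Λ
  ext : ∀ c : ℂ, w0.v (algebraMap ℂ Λ c) = v.v c
  val : ∀ x : Λ, x ≠ 0 → ∃ c : ℂ, c ≠ 0 ∧ v.v c = w0.v x
  [kac : IsAlgClosed w0.κ]
  [kc0 : CharZero w0.κ]
  /-- reduction -/
  red : Pt E2 Λ →+ Pt E2 w0.κ
  hred : IsRed w0 red
  wint : ∀ i, xc (mp (W := E2) ι (Z.w i)) ∈ w0.ring
  gen : AlgebraicIndependent (resF w0 (algebraMap ℂ Λ).fieldRange)
    (fun i => xc (red (mp ι (Z.w i))))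

attribute [instance] Ctx.fld Ctx.alg Ctx.ac Ctx.kac Ctx.kc0

namespace Ctx

variable {l : ℂ} {Z : SubVar l} (C : Ctx Z)

instance : CharZero C.Λ := charZero_of_injective_algebraMap (algebraMap ℂ C.Λ).injective

/-- the point `w` over `Λ` -/
def W (i : Fin 3) : Pt E2 C.Λ := mp C.ι (Z.w i)

/-- the reduction of `w` -/
def wb (i : Fin 3) : Pt E2 C.w0.κ := C.red (C.W i)

/-- `ℂ(w)` -/
def L : Subfield C.Λ := Subfield.closure (Set.range (algebraMap ℂ C.Λ) ∪ ⋃ i, cs (C.W i))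

/-- `ℂ(m·w, m'·w)` -/
def K0 (m m' : Fin 3 → ℤ) : Subfield C.Λ :=
  Subfield.closure (Set.range (algebraMap ℂ C.Λ) ∪ (cs (comb m C.W) ∪ cs (comb m' C.W)))

/-- its algebraic closure -/
def Kb (m m' : Fin 3 → ℤ) : Subfield C.Λ := acl (C.K0 m m')

/-- the residue field of `ℂ` -/
def k : Subfield C.w0.κ := resF C.w0 (algebraMap ℂ C.Λ).fieldRange

/-- `k(w̄)` -/
def F : Subfield C.w0.κ := Subfield.closure ((C.k : Set C.w0.κ) ∪ ⋃ i, cs (C.wb i))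

/-- `k(m·w̄, m'·w̄)` -/
def k0 (m m' : Fin 3 → ℤ) : Subfield C.w0.κ :=
  Subfield.closure ((C.k : Set C.w0.κ) ∪ (cs (comb m C.wb) ∪ cs (comb m' C.wb)))

/-- its algebraic closure -/
def kb (m m' : Fin 3 → ℤ) : Subfield C.w0.κ := acl (C.k0 m m')

/-- the valuations of `Kb(n·w)` -/
def U (m m' n : Fin 3 → ℤ) (a : Pt E2 (C.Kb m m')) : QV C.Λ := atp (C.Kb m m') (comb n C.W) a

/-- the valuations of `kb(n·w̄)` -/
def nu (m m' n : Fin 3 → ℤ) (β : Pt E2 (C.kb m m')) : QV C.w0.κ := atp (C.kb m m') (comb n C.wb) β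

/-- `R` is the composite of `w0` and `ν` -/
def IsRk (ν : QV C.w0.κ) (R : Rk2 C.Λ) : Prop :=
  R.toQV = C.w0 ∧ ∀ x : C.Λ, x ≠ 0 → ∀ c : ℂ, c ≠ 0 → C.v.v c = C.w0.v x →
    R.o x = ν.v (C.w0.res (x / algebraMap ℂ C.Λ c))

/-- the composite of `w0` and `ν` (chosen) -/
def rk (ν : QV C.w0.κ) : Rk2 C.Λ :=
  if h : ∃ R, C.IsRk ν R then h.choose
  else ⟨C.w0, fun _ => 0, fun _ _ => by simp, by
    intro a b ha hb hab
    have := C.w0.add ha hb hab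
    rcases min_le_iff.mp this with h | h
    · exact min_le_of_left_le (by rw [Prod.Lex.toLex_le_toLex]; rcases h.lt_or_eq with h | h <;> simp [h])
    · exact min_le_of_right_le (by rw [Prod.Lex.toLex_le_toLex]; rcases h.lt_or_eq with h | h <;> simp [h])⟩

/-- the local contribution at `β` -/
def nn (m m' n : Fin 3 → ℤ) (β : Pt E2 (C.kb m m')) (P : Pt (E1 l) Z.M) : ℚ :=
  ∑ᶠ a : Pt E2 (C.Kb m m'), if C.red (inc (C.Kb m m') a) = inc (C.kb m m') β then ∑ τ ∈ C.T, lam (C.U m m' n a) (mp τ P) else 0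

/-- the correction term -/
def TT (ν : QV C.w0.κ) (P : Pt (E1 l) Z.M) : ℚ := ∑ τ ∈ C.T, Tf (C.rk ν) (mp τ P)

/-- the local form -/
def EE (m m' n : Fin 3 → ℤ) (β : Pt E2 (C.kb m m')) (P : Pt (E1 l) Z.M) : ℚ :=
  C.nn m m' n β P - C.TT (C.nu m m' n β) P

/-- the restriction of `ν` to `k(w̄)` -/
def Dof (ν : QV C.w0.κ) : C.w0.κ → ℚ := fun H => if H ∈ C.F ∧ H ≠ 0 then ν.v H else 0

end Ctx

end

end Pool.Agent.VM
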