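import Mathlib

/-!
MP_5582d1_ag. The tensor product of two domains over an algebraically closed field is a domain.
-/

set_option autoImplicit false
set_option linter.style.haveILetI false

namespace Pool.Agent.VM

open scoped TensorProduct

/-- a nonzero element of a finitely generated domain over an algebraically closed field is nonzero
at some closed point -/
theorem td_point {k A : Type*} [Field k] [IsAlgClosed k] [CommRing A] [IsDomain A] [Algebra k A]
    [Algebra.FiniteType k A] {c : A} (hc : c ≠ 0) : ∃ φ : A →ₐ[k] k, φ c ≠ 0 := by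
  let B := Localization.Away c
  haveI hB : Nontrivial B := by
    have h0 : (0 : A) ∉ Submonoid.powers c := by
      rintro ⟨n, hn⟩
      exact pow_ne_zero n hc hn
    have hle : Submonoid.powers c ≤ nonZeroDivisors A :=
      le_nonZeroDivisors_of_noZeroDivisors h0
    exact (IsLocalization.injective B hle).nontrivial
  obtain ⟨m, hm⟩ := Ideal.exists_maximal B
  letI := Ideal.Quotient.field m
  haveI : Module.Finite k (B ⧸ m) := finite_of_finite_type_of_isJacobsonRing k (B ⧸ m)
  have hb := IsAlgClosed.algebraMap_bijective_of_isIntegral (k := k) (K := B ⧸ m)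
  let e : k ≃ₐ[k] (B ⧸ m) := AlgEquiv.ofBijective (Algebra.ofId k (B ⧸ m)) hb
  refine ⟨(e.symm : (B ⧸ m) →ₐ[k] k).comp
    ((Ideal.Quotient.mkₐ k m).comp (IsScalarTower.toAlgHom k A B)), ?_⟩
  have hu : IsUnit (algebraMap A B c) := IsLocalization.Away.algebraMap_isUnit c
  exact ((hu.map (Ideal.Quotient.mkₐ k m)).map (e.symm : (B ⧸ m) →ₐ[k] k)).ne_zero

theorem td_fg {k A B : Type*} [Field k] [IsAlgClosed k] [CommRing A] [IsDomain A] [Algebra k A]
    [Algebra.FiniteType k A] [CommRing B] [IsDomain B] [Algebra k B] :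
    NoZeroDivisors (A ⊗[k] B) := by
  refine ⟨fun {x y} hxy => ?_⟩
  by_contra hcon
  push Not at hcon
  obtain ⟨hx, hy⟩ := hcon
  let 𝓑 := Module.Free.chooseBasis k B
  let 𝓒 := Algebra.TensorProduct.basis A 𝓑
  have hx' : 𝓒.repr x ≠ 0 := fun h => hx (by simpa using h)
  have hy' : 𝓒.repr y ≠ 0 := fun h => hy (by simpa using h)
  obtain ⟨i, hi⟩ := Finsupp.ne_iff.1 hx'
  obtain ⟨j, hj⟩ := Finsupp.ne_iff.1 hy'
  simp only [Finsupp.coe_zero, Pi.zero_apply] at hi hj
  obtain ⟨φ, hφ⟩ := td_point (k := k) (mul_ne_zero hi hj)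
  let ψ : A ⊗[k] B →ₐ[k] B := Algebra.TensorProduct.lift ((Algebra.ofId k B).comp φ)
    (AlgHom.id k B) (fun _ _ => Commute.all _ _)
  have key : ∀ (z : A ⊗[k] B) (i : _), 𝓑.repr (ψ z) i = φ (𝓒.repr z i) := by
    intro z i
    induction z using TensorProduct.induction_on with
    | zero => simp
    | tmul a b =>
      simp only [ψ, 𝓒, Algebra.TensorProduct.lift_tmul, AlgHom.coe_comp, Function.comp_apply,
        AlgHom.coe_id, id_eq, Algebra.TensorProduct.basis_repr_tmul, Finsupp.coe_smul,
        Pi.smul_apply, Finsupp.mapRange_apply, smul_eq_mul, map_mul, AlgHom.commutes,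
        Algebra.algebraMap_self, RingHom.id_apply]
      have : (Algebra.ofId k B) (φ a) * b = φ a • b := by
        rw [Algebra.smul_def]; rfl
      rw [this]
      simp
    | add z w hz hw => simp only [map_add, Finsupp.coe_add, Pi.add_apply, hz, hw]
  have h1 : ψ x * ψ y = 0 := by rw [← map_mul, hxy, map_zero]
  rcases mul_eq_zero.1 h1 with h | h
  · apply hφ
    rw [map_mul, ← key x i, h]; simp
  · apply hφ
    rw [map_mul, ← key y j, h]; simp

instance td_domain {k A B : Type*} [Field k] [IsAlgClosed k] [CommRing A] [IsDomain A]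
    [Algebra k A] [CommRing B] [IsDomain B] [Algebra k B] : IsDomain (A ⊗[k] B) := by
  haveI : Nontrivial (A ⊗[k] B) :=
    (Algebra.TensorProduct.includeLeft_injective (R := k) (S := k) (A := A) (B := B)
      (algebraMap k B).injective).nontrivial
  haveI : NoZeroDivisors (A ⊗[k] B) := by
    refine ⟨fun {x y} hxy => ?_⟩
    -- descend to a finitely generated subalgebra
    have hfg : ∀ z : A ⊗[k] B, ∃ s : Finset A, ∀ A₀ : Subalgebra k A, (s : Set A) ⊆ A₀ →
        ∃ z₀ : A₀ ⊗[k] B, Algebra.TensorProduct.map A₀.val (AlgHom.id k B) z₀ = z := by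
      intro z
      induction z using TensorProduct.induction_on with
      | zero => exact ⟨∅, fun A₀ _ => ⟨0, map_zero _⟩⟩
      | tmul a b =>
        refine ⟨{a}, fun A₀ h => ⟨(⟨a, h (by simp)⟩ : A₀) ⊗ₜ b, ?_⟩⟩
        simp
      | add z w hz hw =>
        classical
        obtain ⟨s, hs⟩ := hz
        obtain ⟨t, ht⟩ := hw
        refine ⟨s ∪ t, fun A₀ h => ?_⟩
        obtain ⟨z₀, hz₀⟩ := hs A₀ (fun u hu => h (by simp at hu ⊢; tauto))
        obtain ⟨w₀, hw₀⟩ := ht A₀ (fun u hu => h (by simp at hu ⊢; tauto))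
        exact ⟨z₀ + w₀, by rw [map_add, hz₀, hw₀]⟩
    obtain ⟨s, hs⟩ := hfg x
    obtain ⟨t, ht⟩ := hfg y
    classical
    let A₀ : Subalgebra k A := Algebra.adjoin k ((s ∪ t : Finset A) : Set A)
    haveI : Algebra.FiniteType k A₀ := by
      rw [← Subalgebra.fg_iff_finiteType]
      exact ⟨s ∪ t, rfl⟩
    obtain ⟨x₀, hx₀⟩ := hs A₀ (fun u hu => Algebra.subset_adjoin (by simp at hu ⊢; tauto))
    obtain ⟨y₀, hy₀⟩ := ht A₀ (fun u hu => Algebra.subset_adjoin (by simp at hu ⊢; tauto))
    have hinj : Function.Injective (Algebra.TensorProduct.map A₀.val (AlgHom.id k B)) := by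
      have := Module.Flat.rTensor_preserves_injective_linearMap (M := B) A₀.val.toLinearMap
        (Subtype.val_injective)
      exact this
    haveI := td_fg (k := k) (A := A₀) (B := B)
    have h0 : x₀ * y₀ = 0 := by
      apply hinj
      rw [map_mul, hx₀, hy₀, hxy, map_zero]
    rcases mul_eq_zero.1 h0 with h | h
    · left; rw [← hx₀, h, map_zero]
    · right; rw [← hy₀, h, map_zero]
  exact NoZeroDivisors.to_isDomain _

end Pool.Agent.VM
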