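import Pool.Agent.Lib_helper85.VM.Defs
import Pool.Agent.Lib_VM.TD_h71

/-!
# MP_5582d1_ag: definitions for the final statement

`X = E₁³ × E₂³` over `ℂ`. Intersection numbers of three-dimensional subvarieties, `N₃(X)_ℝ`, the
effective cone, points and tangent spaces of subvarieties.
-/

set_option autoImplicit false
set_option linter.style.haveILetI false

namespace Pool.Agent.VM

open scoped Classical TensorProduct

noncomputable section

/-! ## Points of `X` -/

/-- points of `X = E₁³ × E₂³` with coordinates in `M` -/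
abbrev XPt {P : Type} [Field P] (l : P) (M : Type*) [Field M] [Algebra P M] : Type _ :=
  (Fin 3 → Pt (E1 l) M) × (Fin 3 → Pt E2 M)

section
variable {P : Type} [Field P] {l : P} {M N : Type*} [Field M] [Algebra P M] [Field N] [Algebra P N]

/-- the coordinates of the six components -/
def XPt.cs (ξ : XPt l M) : Set M := (⋃ j, VM.cs (ξ.1 j)) ∪ ⋃ j, VM.cs (ξ.2 j)

/-- the image of a point under an embedding of fields -/
def XPt.map (f : M →ₐ[P] N) (ξ : XPt l M) : XPt l N :=
  (fun j => mp f (ξ.1 j), fun j => mp f (ξ.2 j))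

end

/-! ## Intersection numbers -/

/-- the degree of the difference `ξ - η` of two points of `X`, considered over a common field
`Ω` -/
def diffDeg {P : Type} [Field P] {l : P} {M N Ω : Type} [Field M] [Field N] [Field Ω]
    [Algebra P M] [Algebra P N] [Algebra P Ω] (f : M →ₐ[P] Ω) (g : N →ₐ[P] Ω)
    (ξ : XPt l M) (η : XPt l N) : ℕ := dg P (ξ.map f - η.map g).cs

section
variable {P : Type} [Field P] [IsAlgClosed P] {l : P}

/-- the generic point of a subvariety -/
def SubVar.pt (Z : SubVar l) : XPt l Z.M := (Z.z, Z.w)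

/-- the function field of `Z × W` -/
abbrev SubVar.J (Z W : SubVar l) : Type := FractionRing (Z.M ⊗[P] W.M)

/-- functions on `Z` as functions on `Z × W` -/
def SubVar.inl (Z W : SubVar l) : Z.M →ₐ[P] Z.J W :=
  (IsScalarTower.toAlgHom P (Z.M ⊗[P] W.M) (Z.J W)).comp Algebra.TensorProduct.includeLeft

/-- functions on `W` as functions on `Z × W` -/
def SubVar.inr (Z W : SubVar l) : W.M →ₐ[P] Z.J W :=
  (IsScalarTower.toAlgHom P (Z.M ⊗[P] W.M) (Z.J W)).comp Algebra.TensorProduct.includeRight

/-- the intersection number of `Z` and `W`: the degree of the difference map `Z × W → X`,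
`(ξ, η) ↦ ξ - η`, which is the number of points of `Z ∩ (W + t)` for general `t` -/
def inter (Z W : SubVar l) : ℕ := diffDeg (Z.inl W) (Z.inr W) Z.pt W.pt

end

/-! ## The space `N₃(X)_ℝ` and the effective cone -/

/-- `Z` as a function on the subvarieties -/
def cl₀ {l : ℂ} (Z : SubVar l) : SubVar l → ℝ := fun W => inter Z W

/-- `N₃(X)_ℝ`: real cycles of dimension 3 modulo numerical equivalence, with the weakest topology
for which the intersection numbers with the subvarieties are continuous -/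
abbrev N₃ (l : ℂ) : Submodule ℝ (SubVar l → ℝ) := Submodule.span ℝ (Set.range (cl₀ (l := l)))

/-- the class of a subvariety -/
def cl {l : ℂ} (Z : SubVar l) : N₃ l := ⟨cl₀ Z, Submodule.subset_span ⟨Z, rfl⟩⟩

/-- the effective cone: the closure of the convex cone spanned by the classes of the
subvarieties -/
def Eff (l : ℂ) : Set (N₃ l) :=
  closure {v | ∃ (n : ℕ) (a : Fin n → ℝ) (Z : Fin n → SubVar l), (∀ i, 0 ≤ a i) ∧
    v = ∑ i, a i • cl (Z i)}

/-! ## Tangent spaces -/

/-- indices of the 12 affine coordinates: the curve, and 0 for `x`, 1 for `y` -/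
abbrev Ix : Type := (Fin 3 ⊕ Fin 3) × Fin 2

/-- the 12 coordinates of a point of `X` (`0, 0` for a component at infinity) -/
def XPt.co {P : Type} [Field P] {l : P} {M : Type*} [Field M] [Algebra P M] (ξ : XPt l M) :
    Ix → M :=
  fun i => ![Sum.elim (fun j => xc (ξ.1 j)) (fun j => xc (ξ.2 j)) i.1,
    Sum.elim (fun j => yc (ξ.1 j)) (fun j => yc (ξ.2 j)) i.1] i.2

/-- all six components are affine points -/
def XPt.Aff {P : Type} [Field P] {l : P} {M : Type*} [Field M] [Algebra P M] (ξ : XPt l M) :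
    Prop :=
  (∀ j, ξ.1 j ≠ 0) ∧ ∀ j, ξ.2 j ≠ 0

/-- the affine part of `X`, where all six components are affine points -/
def Xa (l : ℂ) : Set (Ix → ℂ) :=
  {x | (∀ j, x (.inl j, 1) ^ 2 = x (.inl j, 0) ^ 3 + x (.inl j, 0) ^ 2 + l) ∧
    ∀ j, x (.inr j, 1) ^ 2 = x (.inr j, 0) ^ 3 + 1}

/-- the tangent space of `X` at a point of its affine part -/
def TX (x : Ix → ℂ) : Submodule ℂ (Ix → ℂ) where
  carrier := {v | (∀ j, 2 * x (.inl j, 1) * v (.inl j, 1) =
      (3 * x (.inl j, 0) ^ 2 + 2 * x (.inl j, 0)) * v (.inl j, 0)) ∧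
    ∀ j, 2 * x (.inr j, 1) * v (.inr j, 1) = 3 * x (.inr j, 0) ^ 2 * v (.inr j, 0)}
  add_mem' := by
    rintro a b ⟨h1, h2⟩ ⟨h3, h4⟩
    refine ⟨fun j => ?_, fun j => ?_⟩
    · simp only [Pi.add_apply]; linear_combination h1 j + h3 j
    · simp only [Pi.add_apply]; linear_combination h2 j + h4 j
  zero_mem' := by simp
  smul_mem' := by
    rintro c a ⟨h1, h2⟩
    refine ⟨fun j => ?_, fun j => ?_⟩
    · simp only [Pi.smul_apply, smul_eq_mul]; linear_combination c * h1 j
    · simp only [Pi.smul_apply, smul_eq_mul]; linear_combination c * h2 j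

/-- the polynomials in the 12 coordinates which vanish on `Y` -/
def SubVar.I {l : ℂ} (Y : SubVar l) : Set (MvPolynomial Ix ℂ) :=
  {f | MvPolynomial.aeval Y.pt.co f = 0}

/-- the point `x` of the affine part of `X` lies on `Y` -/
def SubVar.Mem {l : ℂ} (Y : SubVar l) (x : Ix → ℂ) : Prop :=
  Y.pt.Aff ∧ ∀ f ∈ Y.I, MvPolynomial.eval x f = 0

/-- the Zariski tangent space of `Y` at `x` -/
def SubVar.T {l : ℂ} (Y : SubVar l) (x : Ix → ℂ) : Submodule ℂ (Ix → ℂ) where
  carrier := {v | ∀ f ∈ Y.I, ∑ i, MvPolynomial.eval x (MvPolynomial.pderiv i f) * v i = 0}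
  add_mem' := by
    intro a b ha hb f hf
    simp only [Pi.add_apply, mul_add, Finset.sum_add_distrib, ha f hf, hb f hf, add_zero]
  zero_mem' := by intro f _; simp
  smul_mem' := by
    intro c a ha f hf
    simp only [Pi.smul_apply, smul_eq_mul, mul_left_comm _ c, ← Finset.mul_sum, ha f hf, mul_zero]

/-- the class `α` realises general tangent 3-planes: there is a Zariski open condition
`Q(x, v₁, v₂, v₃) ≠ 0`, satisfied for some point `x` of the affine part of `X` and some
`v₁, v₂, v₃ ∈ T_x X`, under which `v₁, v₂, v₃` span a 3-plane which is the tangent space at `x` of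
a subvariety through `x` with class `α` -/
def Realises {l : ℂ} (α : N₃ l) : Prop :=
  ∃ Q : MvPolynomial (Ix ⊕ Fin 3 × Ix) ℂ,
    (∃ x ∈ Xa l, ∃ v : Fin 3 → Ix → ℂ, (∀ i, v i ∈ TX x) ∧
      MvPolynomial.eval (Sum.elim x fun i => v i.1 i.2) Q ≠ 0) ∧
    ∀ x ∈ Xa l, ∀ v : Fin 3 → Ix → ℂ, (∀ i, v i ∈ TX x) →
      MvPolynomial.eval (Sum.elim x fun i => v i.1 i.2) Q ≠ 0 →
      LinearIndependent ℂ v ∧
      ∃ Y : SubVar l, Y.Mem x ∧ cl Y = α ∧ Y.T x = Submodule.span ℂ (Set.range v)

end

end Pool.Agent.VM
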