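import Pool.Agent.Lib_helper4.VM.IDefs

/-!
# MP_5582d1_ag: elementary symmetric functions and valuations of rank 2 (helper81)

`EZ`: the leading term of an elementary symmetric function; `ABEL`: the sum of the second components
of the local heights is a combination of the values of elementary symmetric functions, with
coefficients which depend only on the first component; `NEG`, `NEGT`: the sum over the elements with
negative value.
-/

set_option autoImplicit false

namespace Pool.Agent.VM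

open scoped Classical

noncomputable section

/-- the elementary symmetric functions of a finite family -/
def es {ι K : Type*} [Fintype ι] [Field K] (x : ι → K) (j : ℕ) : K :=
  ∑ A ∈ Finset.univ.powersetCard j, ∏ i ∈ A, x i

/-- `0 ≤ t ≤ 1/2` -/
def clamp (t : ℚ) : ℚ := max 0 (min t (1 / 2))

namespace Rk2

variable {K : Type*} [Field K] (v : Rk2 K)

theorem o_one : v.o 1 = 0 := by
  have h := v.omul (a := 1) (b := 1) one_ne_zero one_ne_zero
  rw [mul_one] at h; linarith

theorem o_neg_one : v.o (-1) = 0 := by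
  have h := v.omul (a := -1) (b := -1) (by simp) (by simp)
  rw [neg_mul_neg, mul_one, v.o_one] at h; linarith

theorem o_neg (a : K) : v.o (-a) = v.o a := by
  rcases eq_or_ne a 0 with rfl | ha
  · rw [neg_zero]
  · rw [← neg_one_mul, v.omul (by simp) ha, v.o_neg_one, zero_add]

/-- the value of rank 2 -/
def lx (a : K) : ℚ ×ₗ ℚ := toLex (v.v a, v.o a)

theorem lx_neg (a : K) : v.lx (-a) = v.lx a := by
  rw [lx, lx, v.o_neg, v.toQV.neg]

theorem lx_add {a b : K} (ha : a ≠ 0) (hb : b ≠ 0) (hab : a + b ≠ 0) :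
    min (v.lx a) (v.lx b) ≤ v.lx (a + b) := v.oadd ha hb hab

theorem lx_add_of_lt {a b : K} (ha : a ≠ 0) (hb : b ≠ 0) (h : v.lx a < v.lx b) :
    a + b ≠ 0 ∧ v.lx (a + b) = v.lx a := by
  have hab : a + b ≠ 0 := by
    intro h0
    have : a = -b := eq_neg_of_add_eq_zero_left h0
    rw [this, v.lx_neg] at h
    exact lt_irrefl _ h
  refine ⟨hab, le_antisymm ?_ ?_⟩
  · have h1 := v.lx_add (a := a + b) (b := -b) hab (neg_ne_zero.2 hb) (by simpa using ha)
    rw [add_neg_cancel_right, v.lx_neg] at h1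
    rcases min_le_iff.1 h1 with h2 | h2
    · exact h2
    · exact absurd h2 (not_le.2 h)
  · have h1 := v.lx_add ha hb hab
    rwa [min_eq_left h.le] at h1

/-- a sum of elements of larger value -/
theorem lx_sum {α : Type*} (s : Finset α) (t : α → K) (m : ℚ ×ₗ ℚ)
    (h : ∀ a ∈ s, t a ≠ 0 → m < v.lx (t a)) (h0 : ∑ a ∈ s, t a ≠ 0) :
    m < v.lx (∑ a ∈ s, t a) := by
  induction s using Finset.induction_on with
  | empty => simp at h0
  | insert a s ha ih =>
    rw [Finset.sum_insert ha] at h0 ⊢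
    by_cases h1 : t a = 0
    · rw [h1, zero_add] at h0 ⊢
      exact ih (fun b hb => h b (Finset.mem_insert_of_mem hb)) h0
    by_cases h2 : ∑ b ∈ s, t b = 0
    · rw [h2, add_zero]
      exact h a (Finset.mem_insert_self _ _) h1
    · refine lt_of_lt_of_le (lt_min (h a (Finset.mem_insert_self _ _) h1)
        (ih (fun b hb => h b (Finset.mem_insert_of_mem hb)) h2)) (v.lx_add h1 h2 h0)

theorem v_prod {α : Type*} (s : Finset α) (t : α → K) (h : ∀ a ∈ s, t a ≠ 0) :
    v.v (∏ a ∈ s, t a) = ∑ a ∈ s, v.v (t a) := by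
  induction s using Finset.induction_on with
  | empty => simpa using v.toQV.one
  | insert a s ha ih =>
    rw [Finset.prod_insert ha, Finset.sum_insert ha, v.mul (h a (Finset.mem_insert_self _ _))
      (Finset.prod_ne_zero_iff.2 fun b hb => h b (Finset.mem_insert_of_mem hb)),
      ih fun b hb => h b (Finset.mem_insert_of_mem hb)]

theorem o_prod {α : Type*} (s : Finset α) (t : α → K) (h : ∀ a ∈ s, t a ≠ 0) :
    v.o (∏ a ∈ s, t a) = ∑ a ∈ s, v.o (t a) := by
  induction s using Finset.induction_on with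
  | empty => simpa using v.o_one
  | insert a s ha ih =>
    rw [Finset.prod_insert ha, Finset.sum_insert ha, v.omul (h a (Finset.mem_insert_self _ _))
      (Finset.prod_ne_zero_iff.2 fun b hb => h b (Finset.mem_insert_of_mem hb)),
      ih fun b hb => h b (Finset.mem_insert_of_mem hb)]

end Rk2

/-- comparing two sums of pairs -/
private theorem es_lex {ι : Type*} (f g : ι → ℚ) (S A : Finset ι) (hc : A.card = S.card) (hne : A ≠ S)
    (hS : ∀ i ∈ S, ∀ j, j ∉ S → toLex (f i, g i) < toLex (f j, g j)) :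
    toLex (∑ i ∈ S, f i, ∑ i ∈ S, g i) < toLex (∑ i ∈ A, f i, ∑ i ∈ A, g i) := by
  have hc' : (S \ A).card = (A \ S).card := by
    have h1 := Finset.card_sdiff_add_card_inter S A
    have h2 := Finset.card_sdiff_add_card_inter A S
    rw [Finset.inter_comm] at h2
    omega
  have hne' : (S \ A).Nonempty := by
    rw [Finset.nonempty_iff_ne_empty]
    intro h
    have h1 : S ⊆ A := Finset.sdiff_eq_empty_iff_subset.1 h
    exact hne (Finset.eq_of_subset_of_card_le h1 hc.le).symm
  obtain ⟨e⟩ : Nonempty (↥(S \ A) ≃ ↥(A \ S)) := ⟨Finset.equivOfCardEq hc'⟩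
  have key : ∀ i : ↥(S \ A), toLex (f i, g i) < toLex (f (e i), g (e i)) := fun i =>
    hS _ (Finset.mem_sdiff.1 i.2).1 _ (Finset.mem_sdiff.1 (e i).2).2
  have hsum : ∀ h : ι → ℚ, ∑ i ∈ S, h i = ∑ i ∈ S ∩ A, h i + ∑ i : ↥(S \ A), h i := by
    intro h
    rw [Finset.sum_coe_sort (S \ A) h, add_comm, ← Finset.sum_union (Finset.disjoint_sdiff_inter S A),
      Finset.sdiff_union_inter]
  have hsum' : ∀ h : ι → ℚ, ∑ i ∈ A, h i = ∑ i ∈ S ∩ A, h i + ∑ i : ↥(S \ A), h (e i) := by
    intro h
    have h1 : ∑ i : ↥(S \ A), h (e i) = ∑ i : ↥(A \ S), h i :=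
      Fintype.sum_equiv e _ _ fun _ => rfl
    rw [h1, Finset.sum_coe_sort (A \ S) h, add_comm, Finset.inter_comm,
      ← Finset.sum_union (Finset.disjoint_sdiff_inter A S), Finset.sdiff_union_inter]
  rw [hsum f, hsum g, hsum' f, hsum' g, Prod.Lex.toLex_lt_toLex]
  have k1 : ∀ i : ↥(S \ A), f i ≤ f (e i) := fun i => by
    have := key i
    rw [Prod.Lex.toLex_lt_toLex] at this
    rcases this with h | h
    · exact h.le
    · exact h.1.le
  rcases (Finset.sum_le_sum fun i (_ : i ∈ (Finset.univ : Finset ↥(S \ A))) => k1 i).lt_or_eq with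
    h | h
  · left
    exact add_lt_add_right h _
  · right
    refine ⟨by rw [h], add_lt_add_right ?_ _⟩
    have k2 : ∀ i : ↥(S \ A), f i = f (e i) := fun i =>
      (Finset.sum_eq_sum_iff_of_le fun i _ => k1 i).1 h i (Finset.mem_univ _)
    obtain ⟨i0, hi0⟩ := hne'
    refine Finset.sum_lt_sum (fun i _ => ?_) ⟨⟨i0, hi0⟩, Finset.mem_univ _, ?_⟩
    · have := key i
      rw [Prod.Lex.toLex_lt_toLex] at this
      rcases this with h | h
      · exact absurd (k2 i) h.ne
      · exact h.2.le
    · have := key ⟨i0, hi0⟩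
      rw [Prod.Lex.toLex_lt_toLex] at this
      rcases this with h | h
      · exact absurd (k2 _) h.ne
      · exact h.2

/-- EZ: the leading term of an elementary symmetric function -/
theorem EZ {ι K : Type*} [Fintype ι] [Field K] (v : Rk2 K) (x : ι → K) (hx : ∀ i, x i ≠ 0)
    (S : Finset ι)
    (hS : ∀ i ∈ S, ∀ j, j ∉ S → toLex (v.v (x i), v.o (x i)) < toLex (v.v (x j), v.o (x j))) :
    es x S.card ≠ 0 ∧ v.v (es x S.card) = ∑ i ∈ S, v.v (x i) ∧
      v.o (es x S.card) = ∑ i ∈ S, v.o (x i) := by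
  have hlx : ∀ A : Finset ι, v.lx (∏ i ∈ A, x i) = toLex (∑ i ∈ A, v.v (x i), ∑ i ∈ A, v.o (x i)) :=
    fun A => by rw [Rk2.lx, v.v_prod _ _ fun i _ => hx i, v.o_prod _ _ fun i _ => hx i]
  have hmem : S ∈ Finset.univ.powersetCard S.card := by simp
  have hsplit : es x S.card = ∏ i ∈ S, x i +
      ∑ A ∈ (Finset.univ.powersetCard S.card).erase S, ∏ i ∈ A, x i := by
    rw [es, ← Finset.add_sum_erase _ _ hmem]
  have h0 : ∏ i ∈ S, x i ≠ 0 := Finset.prod_ne_zero_iff.2 fun i _ => hx i
  have hmain : es x S.card ≠ 0 ∧ v.lx (es x S.card) = v.lx (∏ i ∈ S, x i) := by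
    rw [hsplit]
    by_cases h1 : ∑ A ∈ (Finset.univ.powersetCard S.card).erase S, ∏ i ∈ A, x i = 0
    · rw [h1, add_zero]
      exact ⟨h0, rfl⟩
    · refine v.lx_add_of_lt h0 h1 (v.lx_sum _ _ _ (fun A hA _ => ?_) h1)
      rw [Finset.mem_erase, Finset.mem_powersetCard] at hA
      rw [hlx, hlx]
      exact es_lex _ _ _ _ hA.2.2 hA.1 hS
  refine ⟨hmain.1, ?_⟩
  have h2 := hmain.2
  rw [hlx, Rk2.lx] at h2
  have h3 := toLex.injective h2
  exact ⟨congrArg Prod.fst h3, congrArg Prod.snd h3⟩

theorem es_reindex {ι κ K : Type*} [Fintype ι] [Fintype κ] [Field K] (e : κ ≃ ι) (x : ι → K) (j : ℕ) :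
    es (fun i => x (e i)) j = es x j := by
  rw [es, es]
  refine Finset.sum_bij (fun A _ => A.map e.toEmbedding) ?_ ?_ ?_ ?_
  · intro A hA
    rw [Finset.mem_powersetCard] at hA ⊢
    exact ⟨Finset.subset_univ _, by rw [Finset.card_map]; exact hA.2⟩
  · intro A _ B _ h
    exact Finset.map_injective _ h
  · intro B hB
    rw [Finset.mem_powersetCard] at hB
    refine ⟨B.map e.symm.toEmbedding, ?_, ?_⟩
    · rw [Finset.mem_powersetCard]
      exact ⟨Finset.subset_univ _, by rw [Finset.card_map]; exact hB.2⟩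
    · ext i
      simp
  · intro A _
    rw [Finset.prod_map]
    rfl

/-- summation by parts -/
private theorem abel_nat (c o : ℕ → ℚ) (n : ℕ) :
    ∑ i ∈ Finset.range n, (c i - c n) * o i =
      -∑ j ∈ Finset.range n, (c (j + 1) - c j) * ∑ i ∈ Finset.range (j + 1), o i := by
  induction n with
  | zero => simp
  | succ n ih =>
    rw [Finset.sum_range_succ (fun j => (c (j + 1) - c j) * ∑ i ∈ Finset.range (j + 1), o i), neg_add,
      ← ih, Finset.sum_range_succ, Finset.sum_range_succ o, mul_add, neg_add, Finset.mul_sum,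
      ← Finset.sum_neg_distrib, ← add_assoc, ← Finset.sum_add_distrib]
    congr 1
    · refine Finset.sum_congr rfl fun i _ => ?_
      ring
    · ring

/-- ABEL: the second components of the local heights add up to a combination of the values of the
elementary symmetric functions; the coefficients depend only on the first component. -/
theorem ABEL {ι K : Type*} [Fintype ι] [Field K] (w : QV K) (x : ι → K) (hx : ∀ i, x i ≠ 0) :
    ∃ c : ℕ → ℚ, ∀ v : Rk2 K, v.toQV = w →
      (∀ j, c j ≠ 0 → es x j ≠ 0) ∧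
      ∑ i, (clamp (w.v (x i)) - 1 / 2) * v.o (x i) =
        -∑ j ∈ Finset.range (Fintype.card ι + 1), c j * v.o (es x j) := by
  obtain ⟨n, hn⟩ : ∃ n, Fintype.card ι = n := ⟨_, rfl⟩
  obtain ⟨e0⟩ : Nonempty (Fin n ≃ ι) := ⟨(Fintype.equivFinOfCardEq hn).symm⟩
  set e : Fin n ≃ ι := (Tuple.sort fun i => w.v (x (e0 i))).trans e0 with he
  have hmono : Monotone fun i : Fin n => w.v (x (e i)) := Tuple.monotone_sort fun i => w.v (x (e0 i))
  -- the sorted clamped values
  set d : ℕ → ℚ := fun i => if h : i < n then clamp (w.v (x (e ⟨i, h⟩))) else 1 / 2 with hd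
  have hdn : d n = 1 / 2 := by simp [hd]
  have hcl : ∀ s t : ℚ, s ≤ t → clamp s ≤ clamp t := fun s t h =>
    max_le_max le_rfl (min_le_min h le_rfl)
  refine ⟨fun j => if 1 ≤ j ∧ j ≤ n then d j - d (j - 1) else 0, fun v hv => ?_⟩
  subst hv
  have hEZ : ∀ j, 1 ≤ j → j ≤ n → d j - d (j - 1) ≠ 0 →
      es x j ≠ 0 ∧ v.o (es x j) = ∑ i ∈ Finset.range j, (if h : i < n then v.o (x (e ⟨i, h⟩)) else 0) := by
    intro j h1 h2 h3
    set S : Finset (Fin n) := Finset.univ.filter fun i => i.1 < j with hS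
    have hcard : S.card = j := by
      rw [hS]
      have : (Finset.univ.filter fun i : Fin n => i.1 < j) = (Finset.univ : Finset (Fin j)).map
          ⟨fun i => ⟨i.1, lt_of_lt_of_le i.2 h2⟩, fun a b h => Fin.ext (by simpa using h)⟩ := by
        ext i
        simp only [Finset.mem_filter, Finset.mem_univ, true_and, Finset.mem_map,
          Function.Embedding.coeFn_mk]
        constructor
        · intro h
          exact ⟨⟨i.1, h⟩, rfl⟩
        · rintro ⟨a, rfl⟩
          exact a.2
      rw [this, Finset.card_map, Finset.card_univ, Fintype.card_fin]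
    have hstrict : ∀ i ∈ S, ∀ i', i' ∉ S → v.v (x (e i)) < v.v (x (e i')) := by
      intro i hi i' hi'
      have hi1 : i.1 < j := (Finset.mem_filter.1 hi).2
      have hi2 : j ≤ i'.1 := by
        by_contra h
        exact hi' (Finset.mem_filter.2 ⟨Finset.mem_univ _, not_le.1 h⟩)
      have hjn : j < n := lt_of_le_of_lt hi2 i'.2
      have a1 : v.v (x (e i)) ≤ v.v (x (e ⟨j - 1, by omega⟩)) := hmono (Fin.le_def.2 (by
        simp only
        omega))
      have a2 : v.v (x (e ⟨j, hjn⟩)) ≤ v.v (x (e i')) := hmono (Fin.le_def.2 (by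
        simp only
        omega))
      have a3 : v.v (x (e ⟨j - 1, by omega⟩)) ≤ v.v (x (e ⟨j, hjn⟩)) := hmono (Fin.le_def.2 (by
        simp only
        omega))
      have a4 : v.v (x (e ⟨j - 1, by omega⟩)) ≠ v.v (x (e ⟨j, hjn⟩)) := by
        intro h
        apply h3
        have b1 : d j = clamp (v.v (x (e ⟨j, hjn⟩))) := by simp [hd, hjn]
        have b2 : d (j - 1) = clamp (v.v (x (e ⟨j - 1, by omega⟩))) := by
          simp [hd, show j - 1 < n by omega]
        rw [b1, b2, h, sub_self]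
      exact lt_of_le_of_lt a1 (lt_of_lt_of_le (lt_of_le_of_ne a3 a4) a2)
    obtain ⟨c1, -, c3⟩ := EZ v (fun i => x (e i)) (fun i => hx _) S fun i hi i' hi' => by
      rw [Prod.Lex.toLex_lt_toLex]
      exact Or.inl (hstrict i hi i' hi')
    rw [hcard, es_reindex] at c1 c3
    refine ⟨c1, c3.trans ?_⟩
    rw [hS, Finset.sum_filter, Finset.sum_range]
    have hsub : ∑ i : Fin j, (if h : i.1 < n then v.o (x (e ⟨i.1, h⟩)) else 0) =
        ∑ i ∈ (Finset.univ : Finset (Fin j)).map
          ⟨fun i => (⟨i.1, lt_of_lt_of_le i.2 h2⟩ : Fin n), fun a b h => Fin.ext (by simpa using h)⟩,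
          v.o (x (e i)) := by
      rw [Finset.sum_map]
      refine Finset.sum_congr rfl fun i _ => ?_
      rw [dif_pos (lt_of_lt_of_le i.2 h2)]
      rfl
    rw [hsub, ← Finset.sum_filter]
    refine Finset.sum_congr ?_ fun _ _ => rfl
    ext i
    simp only [Finset.mem_filter, Finset.mem_univ, true_and, Finset.mem_map,
      Function.Embedding.coeFn_mk]
    constructor
    · intro h
      exact ⟨⟨i.1, h⟩, rfl⟩
    · rintro ⟨a, rfl⟩
      exact a.2
  constructor
  · intro j hj
    by_cases h : 1 ≤ j ∧ j ≤ n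
    · simp only [h, and_self, if_true] at hj
      exact (hEZ j h.1 h.2 hj).1
    · simp only [h, if_false, ne_eq, not_true_eq_false] at hj
  · set o' : ℕ → ℚ := fun i => if h : i < n then v.o (x (e ⟨i, h⟩)) else 0 with ho'
    have hL : ∑ i, (clamp (v.v (x i)) - 1 / 2) * v.o (x i) =
        ∑ i ∈ Finset.range n, (d i - d n) * o' i := by
      rw [hdn, Finset.sum_range, ← Equiv.sum_comp e]
      refine Finset.sum_congr rfl fun i _ => ?_
      simp [hd, ho', i.2]
    rw [hL, abel_nat, hn, Finset.sum_range_succ']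
    simp only [show ¬(1 ≤ 0 ∧ 0 ≤ n) by omega, if_false, zero_mul, add_zero]
    congr 1
    refine Finset.sum_congr rfl fun j hj => ?_
    have hjn := Finset.mem_range.1 hj
    rw [if_pos ⟨by omega, by omega⟩, Nat.add_sub_cancel]
    by_cases h : d (j + 1) - d j = 0
    · rw [h, zero_mul, zero_mul]
    · rw [(hEZ (j + 1) (by omega) (by omega) (by simpa using h)).2]

/-- NEG: the elements of negative value -/
theorem NEG {ι K : Type*} [Fintype ι] [Field K] (v : Rk2 K) (x : ι → K) (hx : ∀ i, x i ≠ 0)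
    (I : Finset ι) (hI : ∀ i, i ∈ I ↔ toLex (v.v (x i), v.o (x i)) < 0) :
    es x I.card ≠ 0 ∧ v.o (es x I.card) = ∑ i ∈ I, v.o (x i) := by
  obtain ⟨h1, -, h3⟩ := EZ v x hx I fun i hi j hj =>
    lt_of_lt_of_le ((hI i).1 hi) (not_lt.1 fun h => hj ((hI j).2 h))
  exact ⟨h1, h3⟩

/-- NEGT: the lower bound for the local term -/
theorem NEGT {ι K : Type*} [Fintype ι] [Field K] (v : Rk2 K) (x : ι → K) (n : ℚ)
    (I : Finset ι) (hI : ∀ i, i ∈ I ↔ toLex (v.v (x i), v.o (x i)) < 0)
    (hn : -(2 * n) ≤ ∑ i ∈ I, v.o (x i)) :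
    -(∑ i, if 0 < v.v (x i) ∧ v.v (x i) < 1 / 2 then |v.o (x i)| else 0) / 2 ≤
      n - ∑ i, (clamp (v.v (x i)) - 1 / 2) * v.o (x i) := by
  have h1 : ∑ i ∈ I, v.o (x i) = ∑ i, if i ∈ I then v.o (x i) else 0 := by
    rw [Finset.sum_ite_mem, Finset.univ_inter]
  have h2 : ∑ i, (clamp (v.v (x i)) - 1 / 2) * v.o (x i) ≤
      ∑ i, ((if 0 < v.v (x i) ∧ v.v (x i) < 1 / 2 then |v.o (x i)| else 0) / 2 -
        (if i ∈ I then v.o (x i) else 0) / 2) := by
    refine Finset.sum_le_sum fun i _ => ?_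
    have hz : (0 : ℚ ×ₗ ℚ) = toLex ((0 : ℚ), (0 : ℚ)) := rfl
    have hi := hI i
    rw [hz, Prod.Lex.toLex_lt_toLex] at hi
    rcases lt_trichotomy (v.v (x i)) 0 with h | h | h
    · have a1 : clamp (v.v (x i)) = 0 := by
        rw [clamp, max_eq_left]
        exact (min_le_left _ _).trans h.le
      rw [if_neg (fun h' => absurd h'.1 (not_lt.2 h.le)), if_pos (hi.2 (Or.inl h)), a1]
      linarith
    · have a1 : clamp (v.v (x i)) = 0 := by
        rw [clamp, max_eq_left]
        exact (min_le_left _ _).trans h.le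
      rw [if_neg (fun h' => absurd h'.1 (not_lt.2 h.le)), a1]
      by_cases h3 : v.o (x i) < 0
      · rw [if_pos (hi.2 (Or.inr ⟨h, h3⟩))]
        linarith
      · have h4 : i ∉ I := fun h' => by
          rcases hi.1 h' with h5 | h5
          · exact absurd h h5.ne
          · exact h3 h5.2
        rw [if_neg h4]
        have := not_lt.1 h3
        linarith
    · have h4 : i ∉ I := fun h' => by
        rcases hi.1 h' with h5 | h5
        · exact absurd h5 (not_lt.2 h.le)
        · exact absurd h5.1 h.ne'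
      rw [if_neg h4]
      by_cases h3 : v.v (x i) < 1 / 2
      · have a1 : clamp (v.v (x i)) = v.v (x i) := by
          rw [clamp, min_eq_left h3.le, max_eq_right h.le]
        rw [if_pos ⟨h, h3⟩, a1]
        have h5 : -|v.o (x i)| ≤ v.o (x i) := neg_abs_le _
        have h6 := abs_nonneg (v.o (x i))
        nlinarith
      · have a1 : clamp (v.v (x i)) = 1 / 2 := by
          rw [clamp, min_eq_right (not_lt.1 h3), max_eq_right (by norm_num)]
        rw [if_neg (fun h' => h3 h'.2), a1]
        linarith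
  rw [Finset.sum_sub_distrib, ← Finset.sum_div, ← Finset.sum_div, ← h1] at h2
  linarith

end

end Pool.Agent.VM
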