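import Pool.Agent.Lib_helper85.VM.Defs
import Pool.Agent.Lib_helper4.VM.EXT

/-!
# MP_5582d1_ag: a valuation of `ℂ` over a transcendental number
-/

set_option autoImplicit false

namespace Pool.Agent.VM

open scoped Classical

section
open scoped RatFunc

/-- the order at `X = 0` on `RatFunc k` -/
private noncomputable def excOrd (k : Type) [Field k] : QV (RatFunc k) where
  v f := ((algebraMap (RatFunc k) (LaurentSeries k) f).order : ℤ)
  mul := by
    intro a b ha hb
    have ha' : algebraMap (RatFunc k) (LaurentSeries k) a ≠ 0 := (map_ne_zero _).2 ha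
    have hb' : algebraMap (RatFunc k) (LaurentSeries k) b ≠ 0 := (map_ne_zero _).2 hb
    rw [map_mul, HahnSeries.order_mul ha' hb']
    push_cast; ring
  add := by
    intro a b ha hb hab
    have hab' : algebraMap (RatFunc k) (LaurentSeries k) a +
        algebraMap (RatFunc k) (LaurentSeries k) b ≠ 0 := by
      rw [← map_add]; exact (map_ne_zero _).2 hab
    have := HahnSeries.min_order_le_order_add hab'
    rw [map_add]
    exact_mod_cast this

private theorem excOrd_X (k : Type) [Field k] : (excOrd k).v RatFunc.X = 1 := by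
  show ((algebraMap (RatFunc k) (LaurentSeries k) RatFunc.X).order : ℚ) = 1
  rw [RatFunc.coe_X, HahnSeries.order_single one_ne_zero]
  norm_num

private theorem excOrd_nat (k : Type) [Field k] (n : ℕ) : (excOrd k).v (n : RatFunc k) = 0 := by
  show ((algebraMap (RatFunc k) (LaurentSeries k) (n : RatFunc k)).order : ℚ) = 0
  rw [map_natCast]
  have : ((n : ℕ) : LaurentSeries k) = HahnSeries.C (n : k) := by rw [map_natCast]
  rw [this, HahnSeries.order_C]
  norm_num

end

/-- EXC: a valuation of `ℂ` over a transcendental number -/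
theorem EXC (l : ℂ) (hl : Transcendental ℚ l) :
    ∃ v : QV ℂ, v.v l = 1 ∧ (∀ n : ℕ, n ≠ 0 → v.v (n : ℂ) = 0) := by
  have hs : AlgebraicIndepOn ℚ id ({l} : Set ℂ) := by
    exact (algebraicIndependent_singleton_iff (x := fun i : ({l} : Set ℂ) => (i : ℂ))
      (⟨l, rfl⟩ : ({l} : Set ℂ))).2 hl
  obtain ⟨t, hlt, ht⟩ := exists_isTranscendenceBasis_superset hs
  have hlt : l ∈ t := hlt rfl
  -- the base field
  set k : IntermediateField ℚ ℂ := IntermediateField.adjoin ℚ (t \ {l}) with hk
  have htr : Transcendental k l := by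
    have h1 := ht.1.transcendental_adjoin (s := {i : t | (i : ℂ) ≠ l}) (i := ⟨l, hlt⟩) (by simp)
    have himg : ((↑) : t → ℂ) '' {i : t | (i : ℂ) ≠ l} = t \ {l} := by
      ext z
      simp only [Set.mem_image, Set.mem_ofPred_eq, Subtype.exists, exists_and_right, exists_eq_right,
        Set.mem_sdiff, Set.mem_singleton_iff]
      constructor
      · rintro ⟨h, h'⟩; exact ⟨h, h'⟩
      · rintro ⟨h, h'⟩; exact ⟨h, h'⟩
    rw [himg] at h1
    open scoped IntermediateField.algebraAdjoinAdjoin in
    intro halg
    apply h1
    exact (IsFractionRing.isAlgebraic_iff (Algebra.adjoin ℚ (t \ {l}))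
      (IntermediateField.adjoin ℚ (t \ {l})) ℂ).2 halg
  have halg : Algebra.IsAlgebraic (IntermediateField.adjoin k {l}) ℂ := by
    have h1 := ht.isAlgebraic_field
    rw [Subtype.range_coe] at h1
    have hle : IntermediateField.adjoin ℚ t ≤
        (IntermediateField.adjoin k {l}).restrictScalars ℚ := by
      rw [IntermediateField.adjoin_le_iff]
      intro z hz
      by_cases hzl : z = l
      · rw [hzl]
        exact IntermediateField.subset_adjoin k {l} rfl
      · have : z ∈ k := IntermediateField.subset_adjoin ℚ (t \ {l}) ⟨hz, hzl⟩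
        exact IntermediateField.algebraMap_mem (IntermediateField.adjoin k {l}) (⟨z, this⟩ : k)
    exact Algebra.IsAlgebraic.ringHom_of_comp_eq (R := IntermediateField.adjoin ℚ t) (A := ℂ)
      (S := IntermediateField.adjoin k {l}) (B := ℂ)
      (IntermediateField.inclusion hle : IntermediateField.adjoin ℚ t →ₐ[ℚ] _) (RingHom.id ℂ)
      (IntermediateField.inclusion hle).injective Function.surjective_id rfl
  let e := RatFunc.algEquivOfTranscendental l htr
  obtain ⟨v, hv⟩ := EXT (L := ℂ) (QV.comap (e.symm.toAlgHom.toRingHom) (excOrd k))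
  refine ⟨v, ?_, ?_⟩
  · have h1 := hv (IntermediateField.AdjoinSimple.gen k l)
    have h2 : algebraMap (IntermediateField.adjoin k {l}) ℂ
      (IntermediateField.AdjoinSimple.gen k l) = l := rfl
    rw [h2] at h1
    rw [h1]
    show (excOrd k).v (e.symm (IntermediateField.AdjoinSimple.gen k l)) = 1
    have h3 : e.symm (IntermediateField.AdjoinSimple.gen k l) = RatFunc.X := by
      rw [AlgEquiv.symm_apply_eq]
      apply Subtype.ext
      rw [RatFunc.algEquivOfTranscendental_X]
      rfl
    rw [h3, excOrd_X]
  · intro n _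
    have h1 := hv (n : IntermediateField.adjoin k {l})
    rw [map_natCast] at h1
    rw [h1]
    show (excOrd k).v (e.symm (n : IntermediateField.adjoin k {l})) = 0
    rw [map_natCast, excOrd_nat]

end Pool.Agent.VM
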