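import Pool.Agent.Lib_VM.CONS4_h71
import Pool.Agent.Lib_VM.A_CONS
import Pool.Agent.Lib_VM.A_KER
import Pool.Agent.Lib_VM.A_REAL
import Pool.Agent.Lib_VM.A_ThmA
import Pool.Agent.Lib_VM.A_YEX
import Pool.Agent.Lib_VM.A_YG
import Pool.Agent.Lib_VM.A_Z0

/-!
# MP_5582d1_ag: the final theorem
-/

set_option autoImplicit false
set_option linter.style.haveILetI false

namespace Pool.Agent.VM.FINp

open scoped Classical TensorProduct
open IntermediateField

attribute [-instance] Subtype.instDecidableEq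

/-- unimodular completions -/
theorem unimod (k : Fin 21) : ∃ A B : Matrix (Fin 3) (Fin 3) ℤ, IsUnit A.det ∧ IsUnit B.det ∧
    A 0 = V.av k ∧ B 0 = V.mv k ∧ B 1 = V.nv k := by
  have ha : V.av k 0 = 1 ∨ V.av k 1 = 1 ∨ V.av k 2 = 1 := by revert k; decide
  obtain ⟨n, hn⟩ := V.mn_unimodular k
  have hA : ∃ A : Matrix (Fin 3) (Fin 3) ℤ, IsUnit A.det ∧ A 0 = V.av k := by
    rcases ha with h | h | h
    · refine ⟨![V.av k, ![0, 1, 0], ![0, 0, 1]], ?_, rfl⟩
      rw [Matrix.det_fin_three]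
      simp [h]
    · refine ⟨![V.av k, ![0, 0, 1], ![1, 0, 0]], ?_, rfl⟩
      rw [Matrix.det_fin_three]
      simp [h]
    · refine ⟨![V.av k, ![1, 0, 0], ![0, 1, 0]], ?_, rfl⟩
      rw [Matrix.det_fin_three]
      simp [h]
  obtain ⟨A, hA, hA0⟩ := hA
  refine ⟨A, ![V.mv k, V.nv k, n], hA, ?_, hA0, rfl, rfl⟩
  have : Matrix.det ![V.mv k, V.nv k, n] = 1 := by
    rw [Matrix.det_fin_three]
    simp only [V.crs, Matrix.cons_val_zero, Matrix.cons_val_one, Matrix.cons_val] at hn ⊢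
    linear_combination hn
  rw [this]
  exact isUnit_one

/-- a point of the affine part with nonzero `y`-coordinates -/
theorem exists_x (l : ℂ) (hl : l ≠ 0) : ∃ x ∈ Xa l, ∀ i, x (i, 1) ≠ 0 := by
  obtain ⟨y, hy⟩ := IsAlgClosed.exists_pow_nat_eq l (n := 2) (by norm_num)
  have hy0 : y ≠ 0 := by
    rintro rfl
    apply hl
    rw [← hy]; norm_num
  refine ⟨fun i => Sum.elim (fun _ => ![0, y] i.2) (fun _ => ![0, 1] i.2) i.1, ⟨fun j => ?_,
    fun j => ?_⟩, ?_⟩
  · simp [hy]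
  · simp
  · rintro (j | j)
    · simpa using hy0
    · simp

/-- the functional -/
noncomputable def Φ {l : ℂ} (K : Fin 21 → SubVar l) : N₃ l →ₗ[ℝ] ℝ where
  toFun v := (∑ k, (V.cf k : ℝ) * v.1 (K k)) / 104
  map_add' v w := by
    simp only [Submodule.coe_add, Pi.add_apply, mul_add, Finset.sum_add_distrib, add_div]
  map_smul' c v := by
    simp only [Submodule.coe_smul, Pi.smul_apply, smul_eq_mul, RingHom.id_apply,
      mul_left_comm _ c, ← Finset.mul_sum, mul_div_assoc]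

theorem Φ_cont {l : ℂ} (K : Fin 21 → SubVar l) : Continuous (Φ K) := by
  have : Continuous fun v : N₃ l => (∑ k, (V.cf k : ℝ) * v.1 (K k)) / 104 := by
    refine Continuous.div_const (continuous_finsetSum _ fun k _ => ?_) _
    exact continuous_const.mul ((continuous_apply (K k)).comp continuous_subtype_val)
  exact this

theorem Φ_cl {l : ℂ} (K : Fin 21 → SubVar l)
    (hK : ∀ k, ∀ Z : SubVar l, inter Z (K k) = Z.G (V.av k) (V.mv k) (V.nv k)) (Z : SubVar l) :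
    Φ K (cl Z) = ((V.Fp (fun a m m' => (Z.G a m m' : ℚ)) : ℚ) : ℝ) := by
  rw [V.Fp_sum]
  have : Φ K (cl Z) = (∑ k, (V.cf k : ℝ) * (inter Z (K k) : ℝ)) / 104 := rfl
  rw [this]
  simp only [hK]
  push_cast
  rfl

/-- **very moving does not imply big**, with a nef functional which vanishes on the class -/
theorem main (l : ℂ) (hl : Transcendental ℚ l) : ∃ Y : SubVar l,
    Realises (cl Y) ∧ cl Y ∈ Eff l ∧ cl Y ∉ interior (Eff l) ∧
    ∃ (n : ℕ) (c : Fin n → ℝ) (K : Fin n → SubVar l),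
      (∀ Z : SubVar l, 0 ≤ ∑ i, c i * inter Z (K i)) ∧
      (∃ Z : SubVar l, 0 < ∑ i, c i * inter Z (K i)) ∧
      ∑ i, c i * inter Y (K i) = 0 := by
  have hl0 : l ≠ 0 := by
    rintro rfl
    exact hl isAlgebraic_zero
  obtain ⟨x₀, hx₀, hy₀⟩ := exists_x l hl0
  obtain ⟨Y, hY, -, -⟩ := YEX l hl x₀ hx₀ hy₀
    (fun i i' => ∑ j, (V.rho j i : ℂ) * (V.ell j i' : ℂ)) (fun k => by
      rw [V.sc_all]; exact one_ne_zero)
  have hcl : ∀ Y' : SubVar l, IsY Y' → cl Y' = cl Y := by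
    intro Y' hY'
    apply Subtype.ext
    funext W
    change (inter Y' W : ℝ) = (inter Y W : ℝ)
    rw [CONSp.CONS hl Y' Y W hY' hY]
  choose A B hA hB hA0 hB0 hB1 using unimod
  choose K hK using fun k => KER l (A k) (B k) (hA k) (hB k)
  have hK' : ∀ k, ∀ Z : SubVar l, inter Z (K k) = Z.G (V.av k) (V.mv k) (V.nv k) := by
    intro k Z
    rw [hK k Z, hA0, hB0, hB1]
  have hpos : ∀ v ∈ Eff l, 0 ≤ Φ K v := by
    intro v hv
    have hc : IsClosed {v | 0 ≤ Φ K v} := isClosed_le continuous_const (Φ_cont K)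
    refine closure_minimal ?_ hc hv
    rintro _ ⟨n, a, Z, ha, rfl⟩
    change 0 ≤ Φ K (∑ i, a i • cl (Z i))
    rw [map_sum]
    refine Finset.sum_nonneg fun i _ => ?_
    rw [map_smul, smul_eq_mul, Φ_cl K hK']
    exact mul_nonneg (ha i) (by exact_mod_cast ThmA l hl (Z i))
  obtain ⟨Z, hZ⟩ := Z0 l
  have hZ' : 0 < Φ K (cl Z) := by rw [Φ_cl K hK']; exact_mod_cast hZ
  have hY0 : Φ K (cl Y) = 0 := by rw [Φ_cl K hK', YG hl Y hY]; simp
  have hΦ : ∀ Z : SubVar l, Φ K (cl Z) = (∑ k, (V.cf k : ℝ) * (inter Z (K k) : ℝ)) / 104 :=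
    fun _ => rfl
  refine ⟨Y, REAL l (cl Y) ?_, ?_, ?_, 21, fun k => (V.cf k : ℝ), K, fun W => ?_, ⟨Z, ?_⟩, ?_⟩
  · intro x hx hy L hL
    obtain ⟨Y', hY', hm, hT⟩ := YEX l hl x hx hy L hL
    exact ⟨Y', hm, hcl Y' hY', hT⟩
  · apply subset_closure
    exact ⟨1, fun _ => 1, fun _ => Y, fun _ => zero_le_one, by simp⟩
  · intro hint
    have hcont : Continuous fun t : ℝ => cl Y - t • cl Z := by
      exact continuous_const.sub (continuous_id.smul continuous_const)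
    have h0 : (fun t : ℝ => cl Y - t • cl Z) 0 ∈ interior (Eff l) := by simpa using hint
    have hnhds : ∀ᶠ t in nhds (0 : ℝ), cl Y - t • cl Z ∈ interior (Eff l) :=
      hcont.continuousAt.eventually_mem (isOpen_interior.mem_nhds h0)
    have h2 : ∀ᶠ t in nhdsWithin (0 : ℝ) (Set.Ioi 0), cl Y - t • cl Z ∈ interior (Eff l) :=
      hnhds.filter_mono nhdsWithin_le_nhds
    obtain ⟨t, ht, ht0⟩ := (h2.and self_mem_nhdsWithin).exists
    have h3 := hpos _ (interior_subset ht)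
    rw [map_sub, map_smul, hY0, smul_eq_mul] at h3
    have : 0 < t * Φ K (cl Z) := mul_pos ht0 hZ'
    linarith
  · have h1 : 0 ≤ Φ K (cl W) := by
      rw [Φ_cl K hK']
      exact_mod_cast ThmA l hl W
    rw [hΦ] at h1
    linarith
  · rw [hΦ] at hZ'
    linarith
  · rw [hΦ] at hY0
    linarith

end Pool.Agent.VM.FINp
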