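import Pool.Agent.Lib_VM.StubsVI_h71
import Pool.Agent.Lib_helper15.VM.L9
import Pool.Agent.Lib_helper15.VM.III

/-!
# MP_5582d1_ag, part VI: FLIP

Cites `HQ` (`StubsA`) and `L9p.dg_xc`.
-/

set_option autoImplicit false
set_option linter.style.haveILetI false
set_option linter.unusedVariables false

namespace Pool.Agent.VM.FLIPp

open Pool.Agent.VM
open scoped Classical

noncomputable section

section pts
variable {R P M : Type} [CommRing R] [Field P] [Field M] [Algebra R P] [Algebra R M]
  [Algebra P M] [IsScalarTower R P M] {W : WeierstrassCurve R}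

/-- coordinates of the image -/
theorem cs_mp {N : Type} [Field N] [Algebra R N] [Algebra P N] [IsScalarTower R P N]
    (f : M →ₐ[P] N) (T : Pt W M) : cs (mp f T) = f '' cs T := by
  cases T with
  | zero => simp [mp, cs, xc, yc, WeierstrassCurve.Affine.Point.map]
  | some x y h =>
    simp [mp, cs, xc, yc, WeierstrassCurve.Affine.Point.map, Set.image_insert_eq]

theorem xc_mp {N : Type} [Field N] [Algebra R N] [Algebra P N] [IsScalarTower R P N]
    (f : M →ₐ[P] N) (T : Pt W M) : xc (mp f T) = f (xc T) := by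
  cases T with
  | zero => simp [mp, xc, WeierstrassCurve.Affine.Point.map]
  | some x y h => simp [mp, xc, WeierstrassCurve.Affine.Point.map]

theorem yc_mp {N : Type} [Field N] [Algebra R N] [Algebra P N] [IsScalarTower R P N]
    (f : M →ₐ[P] N) (T : Pt W M) : yc (mp f T) = f (yc T) := by
  cases T with
  | zero => simp [mp, yc, WeierstrassCurve.Affine.Point.map]
  | some x y h => simp [mp, yc, WeierstrassCurve.Affine.Point.map]

section img
variable {F : Type} [Field F] [Algebra R F] [Algebra P F] [IsScalarTower R P F] (f : F →ₐ[P] M)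
  {S T : Pt W M}

theorem img_add (hS : S ∈ Set.range (mp (W := W) f)) (hT : T ∈ Set.range (mp (W := W) f)) :
    S + T ∈ Set.range (mp (W := W) f) := by
  obtain ⟨S', rfl⟩ := hS
  obtain ⟨T', rfl⟩ := hT
  exact ⟨S' + T', map_add _ _ _⟩

theorem img_neg (hS : S ∈ Set.range (mp (W := W) f)) : -S ∈ Set.range (mp (W := W) f) := by
  obtain ⟨S', rfl⟩ := hS
  exact ⟨-S', map_neg _ _⟩

theorem img_zsmul (n : ℤ) (hS : S ∈ Set.range (mp (W := W) f)) :
    n • S ∈ Set.range (mp (W := W) f) := by
  obtain ⟨S', rfl⟩ := hS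
  exact ⟨n • S', map_zsmul _ _ _⟩

theorem img_zero : (0 : Pt W M) ∈ Set.range (mp (W := W) f) := ⟨0, map_zero _⟩

end img

/-- points over an intermediate field -/
theorem mem_iff (L : IntermediateField P M) (T : Pt W M) :
    cs T ⊆ (L : Set M) ↔ T ∈ Set.range (mp (W := W) L.val) := by
  constructor
  · intro h
    cases T with
    | zero => exact ⟨.zero, rfl⟩
    | some x y hT =>
      have hx : x ∈ L := h (Set.mem_insert _ _)
      have hy : y ∈ L := h (Set.mem_insert_of_mem _ rfl)
      have h1 : (W.baseChange L).toAffine.Nonsingular (⟨x, hx⟩ : L) ⟨y, hy⟩ :=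
        (W.toAffine.baseChange_nonsingular (f := L.val.restrictScalars R)
          L.val.injective _ _).mp hT
      exact ⟨.some _ _ h1, rfl⟩
  · rintro ⟨T', rfl⟩
    rw [cs_mp]
    rintro _ ⟨z, -, rfl⟩
    exact z.2

variable {L : IntermediateField P M} {S T : Pt W M}

theorem cs_add (hS : cs S ⊆ (L : Set M)) (hT : cs T ⊆ (L : Set M)) :
    cs (S + T) ⊆ (L : Set M) :=
  (mem_iff L _).mpr (img_add _ ((mem_iff L _).mp hS) ((mem_iff L _).mp hT))

theorem cs_neg (hS : cs S ⊆ (L : Set M)) : cs (-S) ⊆ (L : Set M) :=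
  (mem_iff L _).mpr (img_neg _ ((mem_iff L _).mp hS))

theorem cs_sub (hS : cs S ⊆ (L : Set M)) (hT : cs T ⊆ (L : Set M)) :
    cs (S - T) ⊆ (L : Set M) := by
  rw [sub_eq_add_neg]
  exact cs_add hS (cs_neg hT)

theorem cs_zsmul (n : ℤ) (hS : cs S ⊆ (L : Set M)) : cs (n • S) ⊆ (L : Set M) :=
  (mem_iff L _).mpr (img_zsmul _ n ((mem_iff L _).mp hS))

theorem cs_zero : cs (0 : Pt W M) ⊆ (L : Set M) :=
  (mem_iff L _).mpr (img_zero _)

theorem cs_sum {ι : Type} (s : Finset ι) (a : ι → ℤ) (X : ι → Pt W M)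
    (h : ∀ i ∈ s, cs (X i) ⊆ (L : Set M)) : cs (∑ i ∈ s, a i • X i) ⊆ (L : Set M) := by
  induction s using Finset.induction_on with
  | empty => simpa using cs_zero
  | insert i s hi ih =>
    rw [Finset.sum_insert hi]
    exact cs_add (cs_zsmul _ (h i (Finset.mem_insert_self _ _)))
      (ih fun j hj => h j (Finset.mem_insert_of_mem hj))

/-- change of generators -/
theorem adjoin_mat (S : Set M) (X : Fin 3 → Pt W M) (A : Matrix (Fin 3) (Fin 3) ℤ)
    (hA : IsUnit A.det) :
    IntermediateField.adjoin P (S ∪ ⋃ j, cs (∑ k, A j k • X k)) =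
      IntermediateField.adjoin P (S ∪ ⋃ j, cs (X j)) := by
  apply le_antisymm
  · rw [IntermediateField.adjoin_le_iff]
    refine Set.union_subset ?_ (Set.iUnion_subset fun j => cs_sum _ _ _ fun k _ => ?_)
    · exact Set.subset_union_left.trans (IntermediateField.subset_adjoin _ _)
    · refine Set.Subset.trans ?_ (IntermediateField.subset_adjoin _ _)
      exact (Set.subset_iUnion (fun j => cs (X j)) k).trans Set.subset_union_right
  · rw [IntermediateField.adjoin_le_iff]
    refine Set.union_subset ?_ (Set.iUnion_subset fun j => ?_)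
    · exact Set.subset_union_left.trans (IntermediateField.subset_adjoin _ _)
    · have h1 : X j = ∑ k, A⁻¹ j k • ∑ m, A k m • X m := by
        have h2 : A⁻¹ * A = 1 := Matrix.nonsing_inv_mul A hA
        simp only [Finset.smul_sum, smul_smul]
        rw [Finset.sum_comm]
        simp only [← Finset.sum_smul]
        have h3 : ∀ m, ∑ k, A⁻¹ j k * A k m = (1 : Matrix (Fin 3) (Fin 3) ℤ) j m := by
          intro m
          rw [← h2, Matrix.mul_apply]
        simp only [h3, Matrix.one_apply]
        simp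
      rw [h1]
      refine cs_sum _ _ _ fun k _ => ?_
      refine Set.Subset.trans ?_ (IntermediateField.subset_adjoin _ _)
      exact (Set.subset_iUnion (fun j => cs (∑ k, A j k • X k)) k).trans Set.subset_union_right

end pts

/-- completion of a unimodular vector -/
theorem complete (ρ n : Fin 3 → ℤ) (h : n 0 * ρ 0 + n 1 * ρ 1 + n 2 * ρ 2 = 1) :
    ∃ A : Matrix (Fin 3) (Fin 3) ℤ, IsUnit A.det ∧
      ∀ i, ∑ j, A i j * ρ j = if i = 0 then 1 else 0 := by
  obtain ⟨g, p, q, u, v, hp, hq, huv⟩ : ∃ g p q u v : ℤ, ρ 0 = g * p ∧ ρ 1 = g * q ∧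
      u * p + v * q = 1 := by
    by_cases hg : Int.gcd (ρ 0) (ρ 1) = 0
    · rw [Int.gcd_eq_zero_iff] at hg
      exact ⟨0, 1, 0, 1, 0, by simp [hg.1], by simp [hg.2], by norm_num⟩
    · obtain ⟨p, hp⟩ := Int.gcd_dvd_left (a := ρ 0) (b := ρ 1)
      obtain ⟨q, hq⟩ := Int.gcd_dvd_right (a := ρ 0) (b := ρ 1)
      refine ⟨Int.gcd (ρ 0) (ρ 1), p, q, Int.gcdA (ρ 0) (ρ 1), Int.gcdB (ρ 0) (ρ 1), hp, hq, ?_⟩
      have h1 := Int.gcd_eq_gcd_ab (ρ 0) (ρ 1)
      have h2 : (Int.gcd (ρ 0) (ρ 1) : ℤ) ≠ 0 := by exact_mod_cast hg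
      apply mul_left_cancel₀ h2
      linear_combination -h1 - Int.gcdA (ρ 0) (ρ 1) * hp - Int.gcdB (ρ 0) (ρ 1) * hq
  set x := n 0 * p + n 1 * q with hx
  have h1 : x * g + n 2 * ρ 2 = 1 := by
    rw [hx]
    linear_combination h - n 0 * hp - n 1 * hq
  refine ⟨!![x * u, x * v, n 2; q, -p, 0; -(ρ 2 * u), -(ρ 2 * v), g], ?_, ?_⟩
  · rw [Matrix.det_fin_three]
    have : IsUnit (-1 : ℤ) := isUnit_one.neg
    refine (congrArg IsUnit ?_).mpr this
    simp
    linear_combination (-x * g - n 2 * ρ 2) * huv - h1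
  · intro i
    fin_cases i
    · simp [Fin.sum_univ_three, hp, hq]
      linear_combination x * g * huv + h1
    · simp [Fin.sum_univ_three, hp, hq]
      ring
    · simp [Fin.sum_univ_three, hp, hq]
      linear_combination -(ρ 2) * g * huv

section deg
variable {P M : Type} [Field P] [Field M] [Algebra P M]

/-- the degree over a generated field -/
theorem dg_adj (S s : Set M) : dg (IntermediateField.adjoin P S) s = dg P (S ∪ s) := by
  have heq : (IntermediateField.adjoin (IntermediateField.adjoin P S) s).restrictScalars P =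
      IntermediateField.adjoin P (S ∪ s) := IntermediateField.adjoin_adjoin_left P S s
  unfold dg
  rw [← heq]
  rfl

theorem dg_congr {s t : Set M} (h : IntermediateField.adjoin P s = IntermediateField.adjoin P t) :
    dg P s = dg P t := by
  unfold dg
  rw [h]

/-- the degree is invariant under automorphisms -/
theorem dg_image (τ : M ≃ₐ[P] M) (s : Set M) : dg P (τ '' s) = dg P s := by
  have h1 : IntermediateField.adjoin P (τ '' s) =
      (IntermediateField.adjoin P s).map (τ : M →ₐ[P] M) := by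
    rw [IntermediateField.adjoin_map]
    rfl
  unfold dg
  rw [h1]
  refine (Algebra.finrank_eq_of_equiv_equiv
    (IntermediateField.equivMap (IntermediateField.adjoin P s) (τ : M →ₐ[P] M)).toRingEquiv
    τ.toRingEquiv ?_).symm
  ext x
  rfl

/-- adding the coordinates of a point -/
theorem alg_of_basis {S : Set M} {x y : M} (B : Set M)
    (hy : IsAlgebraic (IntermediateField.adjoin P (S ∪ {x})) y)
    (hB : Algebra.IsAlgebraic (IntermediateField.adjoin (IntermediateField.adjoin P (S ∪ {x, y})) B)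
      M) :
    Algebra.IsAlgebraic (IntermediateField.adjoin (IntermediateField.adjoin P S) ({x} ∪ B)) M := by
  set F := IntermediateField.adjoin (IntermediateField.adjoin P S) ({x} ∪ B) with hF
  set E := algebraicClosure F M with hE
  haveI hst : IsScalarTower P F M := IsScalarTower.of_algebraMap_eq fun _ => rfl
  have hFP : F.restrictScalars P = IntermediateField.adjoin P (S ∪ ({x} ∪ B)) :=
    IntermediateField.adjoin_adjoin_left P S _
  have h0 : ∀ m ∈ IntermediateField.adjoin P (S ∪ ({x} ∪ B)), m ∈ E := by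
    intro m hm
    rw [← hFP] at hm
    exact E.algebraMap_mem ⟨m, hm⟩
  have hyE : y ∈ E := by
    rw [hE, mem_algebraicClosure_iff]
    have h1 : IntermediateField.adjoin P (S ∪ {x}) ≤ F.restrictScalars P := by
      rw [hFP]
      apply IntermediateField.adjoin.mono
      rintro z (hz | hz)
      · exact Or.inl hz
      · exact Or.inr (Or.inl hz)
    exact IsAlgebraic.tower_top_of_subalgebra_le (A := (IntermediateField.adjoin P (S ∪ {x})).toSubalgebra) (B := (F.restrictScalars P).toSubalgebra) h1 hy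
  have h2 : IntermediateField.adjoin P ((S ∪ {x, y}) ∪ B) ≤ E.restrictScalars P := by
    rw [IntermediateField.adjoin_le_iff]
    have h3 := IntermediateField.subset_adjoin P (S ∪ ({x} ∪ B))
    rintro z ((hz | hz | hz) | hz)
    · exact h0 z (h3 (Or.inl hz))
    · exact h0 z (h3 (Or.inr (Or.inl hz)))
    · rw [Set.mem_singleton_iff] at hz
      rw [hz]
      exact hyE
    · exact h0 z (h3 (Or.inr (Or.inr hz)))
  have h4 : Algebra.IsAlgebraic E M := by
    refine ⟨fun m => ?_⟩
    have h5 := hB.isAlgebraic m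
    have h6 : (IntermediateField.adjoin (IntermediateField.adjoin P (S ∪ {x, y})) B).restrictScalars
      P = IntermediateField.adjoin P ((S ∪ {x, y}) ∪ B) := IntermediateField.adjoin_adjoin_left P _ _
    rw [← h6] at h2
    exact IsAlgebraic.tower_top_of_subalgebra_le (A := (IntermediateField.restrictScalars P (IntermediateField.adjoin (IntermediateField.adjoin P (S ∪ {x, y})) B)).toSubalgebra) (B := (E.restrictScalars P).toSubalgebra) h2 h5
  exact Algebra.IsAlgebraic.trans F E M

theorem trdeg_adj {S : Set M} {x y : M}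
    (hy : IsAlgebraic (IntermediateField.adjoin P (S ∪ {x})) y) :
    Algebra.trdeg (IntermediateField.adjoin P S) M ≤
      Algebra.trdeg (IntermediateField.adjoin P (S ∪ {x, y})) M + 1 := by
  obtain ⟨B, hB⟩ := exists_isTranscendenceBasis (IntermediateField.adjoin P (S ∪ {x, y})) M
  have h1 := hB.isAlgebraic_field
  rw [Subtype.range_coe] at h1
  have h2 := alg_of_basis B hy h1
  have h3 : Algebra.IsAlgebraic (Algebra.adjoin (IntermediateField.adjoin P S) ({x} ∪ B)) M := by
    open scoped IntermediateField.algebraAdjoinAdjoin in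
    exact Algebra.IsAlgebraic.trans (Algebra.adjoin (IntermediateField.adjoin P S) ({x} ∪ B))
      (IntermediateField.adjoin (IntermediateField.adjoin P S) ({x} ∪ B)) M
  refine (Algebra.IsAlgebraic.trdeg_le_cardinalMk _ ({x} ∪ B)).trans ?_
  rw [← hB.cardinalMk_eq_trdeg, add_comm]
  refine (Cardinal.mk_union_le _ _).trans ?_
  rw [Cardinal.mk_singleton]

end deg

section pts
variable {P M : Type} [Field P] [Field M] [Algebra P M]

/-- the coordinates of a point of `E₁` add at most one to the transcendence degree -/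
theorem trdeg_cs {l : P} (S : Set M) (T : Pt (E1 l) M) :
    Algebra.trdeg (IntermediateField.adjoin P S) M ≤
      Algebra.trdeg (IntermediateField.adjoin P (S ∪ cs T)) M + 1 := by
  apply trdeg_adj
  cases T with
  | zero => exact isAlgebraic_zero
  | some x y hT =>
    have heq : y ^ 2 = x ^ 3 + x ^ 2 + algebraMap P M l := by
      have h1 := hT.1
      rw [WeierstrassCurve.Affine.equation_iff] at h1
      simpa [SW, WeierstrassCurve.baseChange] using h1
    have hx : x ∈ IntermediateField.adjoin P (S ∪ {x}) :=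
      IntermediateField.subset_adjoin _ _ (Or.inr rfl)
    have hc : x ^ 3 + x ^ 2 + algebraMap P M l ∈ IntermediateField.adjoin P (S ∪ {x}) :=
      add_mem (add_mem (pow_mem hx 3) (pow_mem hx 2)) (IntermediateField.algebraMap_mem _ _)
    refine IsAlgebraic.of_pow two_pos ?_
    show IsAlgebraic (IntermediateField.adjoin P (S ∪ {x})) (y ^ 2)
    rw [heq]
    exact isAlgebraic_algebraMap (⟨_, hc⟩ : IntermediateField.adjoin P (S ∪ {x}))

end pts

theorem disc1 {l : ℂ} (hl : Transcendental ℚ l) : (SW 1 l : WeierstrassCurve ℂ).Δ ≠ 0 := by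
  have h1 : (SW 1 l : WeierstrassCurve ℂ).Δ = -16 * l * (4 + 27 * l) := by
    simp only [SW, WeierstrassCurve.Δ, WeierstrassCurve.b₂, WeierstrassCurve.b₄,
      WeierstrassCurve.b₆, WeierstrassCurve.b₈]
    ring
  intro h0
  rw [h1] at h0
  rcases mul_eq_zero.mp h0 with h2 | h2
  · rcases mul_eq_zero.mp h2 with h3 | h3
    · norm_num at h3
    · exact hl (h3 ▸ isAlgebraic_zero)
  · have h3 : l = algebraMap ℚ ℂ (-4 / 27) := by
      rw [map_div₀, map_neg]
      simp only [map_ofNat]
      linear_combination h2 / 27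
    exact hl (h3 ▸ isAlgebraic_algebraMap _)

section main
variable {M : Type} [Field M] [Algebra ℂ M]

/-- the two properties of the height over `K` -/
theorem height {l : ℂ} (hl : Transcendental ℚ l) (S : Set M)
    (hfg : (⊤ : IntermediateField ℂ M).FG)
    (htr : Algebra.trdeg (IntermediateField.adjoin ℂ S) M = 1) (Q : Pt E2 M) (r P : Pt (E1 l) M)
    (c : Pt E2 ℂ) (al be : ℂ) (hal : al ≠ 0)
    (hP : xc P = algebraMap ℂ M al * xc (Q + kc c) + algebraMap ℂ M be)
    (σ : M ≃ₐ[ℂ] M) (hσS : ∀ s ∈ S, σ s = s)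
    (hσr : mp (σ : M →ₐ[ℂ] M) r = r) (hσP : mp (σ : M →ₐ[ℂ] M) P = -P) :
    dg ℂ (S ∪ cs (P + r)) = dg ℂ (S ∪ cs Q) + dg ℂ (S ∪ cs r) := by
  have hch : CharZero M := charZero_of_injective_algebraMap (algebraMap ℂ M).injective
  set K := IntermediateField.adjoin ℂ S with hK
  have hess : Algebra.EssFiniteType ℂ M := IntermediateField.fg_top_iff.mp hfg
  have hess' : Algebra.EssFiniteType K M := Algebra.EssFiniteType.of_comp ℂ K M
  have hfgK : (⊤ : IntermediateField K M).FG := IntermediateField.fg_top_iff.mpr hess'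
  have hΔK : algebraMap ℂ K (SW 1 l : WeierstrassCurve ℂ).Δ ≠ 0 := by
    rw [Ne, map_eq_zero]
    exact disc1 hl
  have hΔ2 : algebraMap ℤ K (SW 0 1 : WeierstrassCurve ℤ).Δ ≠ 0 := by
    have h1 : (SW 0 1 : WeierstrassCurve ℤ).Δ = -432 := by
      simp only [SW, WeierstrassCurve.Δ, WeierstrassCurve.b₂, WeierstrassCurve.b₄,
        WeierstrassCurve.b₆, WeierstrassCurve.b₈]
      norm_num
    rw [h1]
    simp
  have hq := HQ 1 l hΔK hfgK htr P r
  -- the automorphism
  have h1 : dg ℂ (S ∪ cs (P + r)) = dg ℂ (S ∪ cs (P - r)) := by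
    rw [← dg_image σ (S ∪ cs (P + r)), Set.image_union]
    have h2 : σ '' S = S := by
      ext z
      constructor
      · rintro ⟨s, hs, rfl⟩
        rw [hσS s hs]
        exact hs
      · intro hz
        exact ⟨z, hz, hσS z hz⟩
    have h3 : σ '' cs (P + r) = cs (-(P - r)) := by
      have h4 := cs_mp (σ : M →ₐ[ℂ] M) (P + r)
      rw [map_add, hσP, hσr] at h4
      rw [neg_sub, sub_eq_add_neg, add_comm r (-P)]
      exact h4.symm
    rw [h2, h3]
    apply dg_congr
    apply le_antisymm
    · rw [IntermediateField.adjoin_le_iff]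
      refine Set.union_subset ?_ ?_
      · exact Set.subset_union_left.trans (IntermediateField.subset_adjoin _ _)
      · exact cs_neg (Set.subset_union_right.trans (IntermediateField.subset_adjoin _ _))
    · rw [IntermediateField.adjoin_le_iff]
      refine Set.union_subset ?_ ?_
      · exact Set.subset_union_left.trans (IntermediateField.subset_adjoin _ _)
      · have h5 : cs (-(-(P - r))) ⊆
            (IntermediateField.adjoin ℂ (S ∪ cs (-(P - r))) : Set M) :=
          cs_neg (Set.subset_union_right.trans (IntermediateField.subset_adjoin _ _))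
        rwa [neg_neg] at h5
  -- the height of `P`
  have h2 : dg K (cs P) = dg K (cs Q) := by
    have h3 := L9p.dg_xc 1 l hΔK htr P
    have h4 := L9p.dg_xc 0 1 hΔ2 htr (Q + kc c)
    have h5 : dg K {xc P} = dg K {xc (Q + kc c)} := by
      apply dg_congr
      have ha : ∀ z : ℂ, algebraMap ℂ M z = algebraMap K M (algebraMap ℂ K z) := fun z => rfl
      apply le_antisymm
      · rw [IntermediateField.adjoin_le_iff, Set.singleton_subset_iff, hP, ha, ha]
        exact add_mem (mul_mem (IntermediateField.algebraMap_mem _ _)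
          (IntermediateField.mem_adjoin_simple_self _ _)) (IntermediateField.algebraMap_mem _ _)
      · rw [IntermediateField.adjoin_le_iff, Set.singleton_subset_iff]
        have h6 : xc (Q + kc c) = (xc P - algebraMap ℂ M be) * (algebraMap ℂ M al)⁻¹ := by
          rw [hP, eq_mul_inv_iff_mul_eq₀ (by rwa [Ne, map_eq_zero])]
          ring
        rw [h6, ha, ha]
        exact mul_mem (sub_mem (IntermediateField.mem_adjoin_simple_self _ _)
          (IntermediateField.algebraMap_mem _ _)) (inv_mem (IntermediateField.algebraMap_mem _ _))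
    have h6 : dg K (cs (Q + kc c)) = dg K (cs Q) := by
      apply dg_congr
      have h7 : ∀ (L : IntermediateField K M) (c : Pt E2 ℂ), cs (kc c : Pt E2 M) ⊆ (L : Set M) := by
        intro L c
        unfold kc
        rw [cs_mp]
        rintro _ ⟨z, -, rfl⟩
        exact L.algebraMap_mem (algebraMap ℂ K z)
      apply le_antisymm
      · rw [IntermediateField.adjoin_le_iff]
        exact cs_add (IntermediateField.subset_adjoin _ _) (h7 _ c)
      · rw [IntermediateField.adjoin_le_iff]
        have h8 : cs ((Q + kc c) - kc c) ⊆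
            (IntermediateField.adjoin K (cs (Q + kc c)) : Set M) :=
          cs_sub (IntermediateField.subset_adjoin _ _) (h7 _ c)
        rwa [add_sub_cancel_right] at h8
    omega
  rw [dg_adj, dg_adj, dg_adj, dg_adj] at hq
  rw [dg_adj, dg_adj] at h2
  omega

/-- FLIP: the degree of `S, ρP + r` does not see the affine map `al, be` and the constant `c` -/
theorem FLIP {l : ℂ} (hl : Transcendental ℚ l) {M : Type} [Field M] [Algebra ℂ M]
    (hfg : (⊤ : IntermediateField ℂ M).FG) (htr : Algebra.trdeg ℂ M = 6) (S : Set M)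
    (hS : Algebra.trdeg ℂ (IntermediateField.adjoin ℂ S) ≤ 3) (ρ : Fin 3 → ℤ)
    (hρ : ∃ n : Fin 3 → ℤ, n 0 * ρ 0 + n 1 * ρ 1 + n 2 * ρ 2 = 1)
    (r : Fin 3 → Pt (E1 l) M) (Q : Pt E2 M) (P P' : Pt (E1 l) M) (c c' : Pt E2 ℂ)
    (al be al' be' : ℂ) (hal : al ≠ 0) (hal' : al' ≠ 0)
    (hP : xc P = algebraMap ℂ M al * xc (Q + kc c) + algebraMap ℂ M be)
    (hP' : xc P' = algebraMap ℂ M al' * xc (Q + kc c') + algebraMap ℂ M be')
    (hP0 : P ≠ 0) (hP0' : P' ≠ 0)
    (σ σ' : M ≃ₐ[ℂ] M) (hσS : ∀ s ∈ S, σ s = s) (hσS' : ∀ s ∈ S, σ' s = s)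
    (hσr : ∀ j, mp (σ : M →ₐ[ℂ] M) (r j) = r j) (hσr' : ∀ j, mp (σ' : M →ₐ[ℂ] M) (r j) = r j)
    (hσP : mp (σ : M →ₐ[ℂ] M) P = -P) (hσP' : mp (σ' : M →ₐ[ℂ] M) P' = -P') :
    dg ℂ (S ∪ ⋃ j, cs (ρ j • P + r j)) = dg ℂ (S ∪ ⋃ j, cs (ρ j • P' + r j)) := by
  obtain ⟨n, hn⟩ := hρ
  obtain ⟨A, hA, hAρ⟩ := complete ρ n hn
  set r' : Fin 3 → Pt (E1 l) M := fun i => ∑ j, A i j • r j with hr'
  set S' : Set M := (S ∪ cs (r' 1)) ∪ cs (r' 2) with hS'
  -- change of generators
  have h1 : ∀ T : Pt (E1 l) M, dg ℂ (S ∪ ⋃ j, cs (ρ j • T + r j)) = dg ℂ (S' ∪ cs (T + r' 0)) := by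
    intro T
    have h2 : ∀ i, ∑ k, A i k • (ρ k • T + r k) = (if i = 0 then (1 : ℤ) else 0) • T + r' i := by
      intro i
      rw [← hAρ i]
      simp only [smul_add, Finset.sum_add_distrib, Finset.sum_smul, smul_smul, hr']
    rw [dg_congr (adjoin_mat S (fun j => ρ j • T + r j) A hA).symm]
    apply dg_congr
    congr 1
    simp only [h2]
    ext z
    simp only [Set.mem_union, Set.mem_iUnion, Fin.exists_fin_succ, hS']
    simp
    tauto
  rw [h1, h1]
  -- the transcendence degrees
  have hnat : ∀ s : Set M, ∃ m : ℕ, Algebra.trdeg (IntermediateField.adjoin ℂ s) M = m := by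
    intro s
    have h4 := trdeg_add_eq ℂ (IntermediateField.adjoin ℂ s) (A := M)
    have h5 : Algebra.trdeg (IntermediateField.adjoin ℂ s) M ≤ ((6 : ℕ) : Cardinal) := by
      calc Algebra.trdeg (IntermediateField.adjoin ℂ s) M ≤
          Algebra.trdeg ℂ (IntermediateField.adjoin ℂ s) +
            Algebra.trdeg (IntermediateField.adjoin ℂ s) M := self_le_add_left _ _
        _ = ((6 : ℕ) : Cardinal) := by rw [h4, htr]; norm_num
    obtain ⟨m, -, hm⟩ := Cardinal.exists_nat_eq_of_le_nat h5
    exact ⟨m, hm⟩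
  obtain ⟨d0, hd0⟩ := hnat S
  obtain ⟨d1, hd1⟩ := hnat (S ∪ cs (r' 1))
  obtain ⟨d2, hd2⟩ := hnat S'
  have e0 : 3 ≤ d0 := by
    have h4 := trdeg_add_eq ℂ (IntermediateField.adjoin ℂ S) (A := M)
    rw [htr, hd0] at h4
    have hS3 : Algebra.trdeg ℂ (IntermediateField.adjoin ℂ S) ≤ ((3 : ℕ) : Cardinal) := by
      exact_mod_cast hS
    obtain ⟨m, hm3, hm⟩ := Cardinal.exists_nat_eq_of_le_nat hS3
    rw [hm] at h4
    have h5 : m + d0 = 6 := by exact_mod_cast h4
    omega
  have e1 : d0 ≤ d1 + 1 := by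
    have h4 := trdeg_cs S (r' 1)
    rw [hd0, hd1] at h4
    exact_mod_cast h4
  have e2 : d1 ≤ d2 + 1 := by
    have h4 := trdeg_cs (S ∪ cs (r' 1)) (r' 2)
    rw [hd1, hd2] at h4
    exact_mod_cast h4
  rcases Nat.lt_or_ge 1 d2 with h2 | h2
  · have h4 : ∀ T : Pt (E1 l) M, dg ℂ (S' ∪ cs T) = 0 := by
      intro T
      obtain ⟨d3, hd3⟩ := hnat (S' ∪ cs T)
      have e3 : d2 ≤ d3 + 1 := by
        have h5 := trdeg_cs S' T
        rw [hd2, hd3] at h5
        exact_mod_cast h5
      unfold dg
      by_contra hne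
      have hfin : Module.Finite (IntermediateField.adjoin ℂ (S' ∪ cs T)) M :=
        Module.finite_of_finrank_pos (Nat.pos_of_ne_zero hne)
      have h5 : Algebra.trdeg (IntermediateField.adjoin ℂ (S' ∪ cs T)) M = 0 :=
        _root_.trdeg_eq_zero
      rw [hd3] at h5
      have h6 : d3 = 0 := by exact_mod_cast h5
      omega
    rw [h4, h4]
  · have h4 : d2 = 1 := by omega
    have h5 : Algebra.trdeg (IntermediateField.adjoin ℂ S') M = 1 := by
      rw [hd2, h4]
      norm_num
    have hfix : ∀ (τ : M ≃ₐ[ℂ] M), (∀ s ∈ S, τ s = s) →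
        (∀ j, mp (τ : M →ₐ[ℂ] M) (r j) = r j) →
        (∀ i, mp (τ : M →ₐ[ℂ] M) (r' i) = r' i) ∧ ∀ s ∈ S', τ s = s := by
      intro τ hτS hτr
      have h6 : ∀ i, mp (τ : M →ₐ[ℂ] M) (r' i) = r' i := by
        intro i
        simp only [hr', map_sum, map_zsmul, hτr]
      have h7 : ∀ i, ∀ z ∈ cs (r' i), τ z = z := by
        intro i z hz
        rcases hz with hz | hz
        · rw [hz]
          have h8 := xc_mp (τ : M →ₐ[ℂ] M) (r' i)
          rw [h6] at h8
          exact h8.symm
        · rw [Set.mem_singleton_iff] at hz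
          rw [hz]
          have h8 := yc_mp (τ : M →ₐ[ℂ] M) (r' i)
          rw [h6] at h8
          exact h8.symm
      refine ⟨h6, ?_⟩
      rintro s ((hs | hs) | hs)
      · exact hτS s hs
      · exact h7 1 s hs
      · exact h7 2 s hs
    obtain ⟨ha, hb⟩ := hfix σ hσS hσr
    obtain ⟨ha', hb'⟩ := hfix σ' hσS' hσr'
    rw [height hl S' hfg h5 Q (r' 0) P c al be hal hP σ hb (ha 0) hσP,
      height hl S' hfg h5 Q (r' 0) P' c' al' be' hal' hP' σ' hb' (ha' 0) hσP']

end main

end

end Pool.Agent.VM.FLIPp
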