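import Pool.Agent.Lib_helper4.VM.IDefs

/-! helper4, VM block RKV: a rank two valuation from `w₀` and a valuation of its residue field. -/

namespace Pool.Agent.VM

namespace QV

/-- divisibility of the value group of an algebraically closed field -/
lemma exists_value {P : Type*} [Field P] [IsAlgClosed P] (v : QV P) {l : P} (hl0 : l ≠ 0)
    (hl : v.v l = 1) (q : ℚ) : ∃ c : P, c ≠ 0 ∧ v.v c = q := by
  have hd : (0 : ℕ) < q.den := q.den_pos
  obtain ⟨d, hd'⟩ := IsAlgClosed.exists_pow_nat_eq l hd
  have hd0 : d ≠ 0 := by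
    rintro rfl
    rw [zero_pow hd.ne'] at hd'
    exact hl0 hd'.symm
  have hvd : v.v d = 1 / q.den := by
    have h := v.pow hd0 q.den
    rw [hd', hl] at h
    have : (q.den : ℚ) ≠ 0 := by exact_mod_cast hd.ne'
    field_simp
    linarith
  have hden : (q.den : ℚ) ≠ 0 := by exact_mod_cast hd.ne'
  have hnum : (q.num : ℚ) / q.den = q := Rat.num_div_den q
  rcases Int.eq_nat_or_neg q.num with ⟨n, hn | hn⟩
  · refine ⟨d ^ n, pow_ne_zero _ hd0, ?_⟩
    rw [v.pow hd0, hvd]
    rw [hn] at hnum
    push_cast at hnum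
    refine Eq.trans ?_ hnum; ring
  · refine ⟨(d ^ n)⁻¹, inv_ne_zero (pow_ne_zero _ hd0), ?_⟩
    rw [v.inv (pow_ne_zero _ hd0), v.pow hd0, hvd]
    rw [hn] at hnum
    push_cast at hnum
    refine Eq.trans ?_ hnum; ring

variable {P F : Type*} [Field P] [Field F] [Algebra P F]

lemma div_mem (w : QV F) {a c : F} (ha : a ≠ 0) (hc : c ≠ 0) (h : w.v c ≤ w.v a) :
    a / c ∈ w.ring := by
  rw [w.mem_ring_of (div_ne_zero ha hc), w.div ha hc]; linarith

lemma res_div_ne_zero (w : QV F) {a c : F} (ha : a ≠ 0) (hc : c ≠ 0) (h : w.v c = w.v a) :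
    w.res (a / c) ≠ 0 := by
  intro h0
  rw [w.res_eq_zero_iff (w.div_mem ha hc h.le), w.div ha hc] at h0
  rcases h0 with h0 | h0
  · exact div_ne_zero ha hc h0
  · linarith

/-- **RKV** the rank two valuation composed of `w₀` and a valuation `ν` of the residue field, trivial
on the residues of `P` -/
theorem exists_rk2 (v : QV P) (w₀ : QV F) (hext : ∀ c : P, c ≠ 0 → w₀.v (algebraMap P F c) = v.v c)
    (hval : ∀ a : F, a ≠ 0 → ∃ c : P, c ≠ 0 ∧ v.v c = w₀.v a) (ν : QV w₀.κ)
    (hν : ∀ c : P, c ≠ 0 → v.v c = 0 → ν.v (w₀.res (algebraMap P F c)) = 0) :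
    ∃ V : Rk2 F, V.toQV = w₀ ∧ (∀ c : P, c ≠ 0 → V.o (algebraMap P F c) = 0) ∧
      ∀ (a : F) (c : P), a ≠ 0 → c ≠ 0 → v.v c = w₀.v a →
        V.o a = ν.v (w₀.res (a / algebraMap P F c)) := by
  choose! c hc0 hc using hval
  have hm0 : ∀ d : P, d ≠ 0 → algebraMap P F d ≠ 0 := fun d hd => (map_ne_zero _).mpr hd
  -- independence of the choice
  have key : ∀ (a : F) (d e : P), a ≠ 0 → d ≠ 0 → e ≠ 0 → v.v d = w₀.v a → v.v e = w₀.v a →
      ν.v (w₀.res (a / algebraMap P F d)) = ν.v (w₀.res (a / algebraMap P F e)) := by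
    intro a d e ha hd he hda hea
    have hde : v.v (e / d) = 0 := by rw [v.div he hd]; linarith
    have hde0 : e / d ≠ 0 := div_ne_zero he hd
    have e1 : a / algebraMap P F d = a / algebraMap P F e * algebraMap P F (e / d) := by
      rw [map_div₀]
      have := hm0 d hd
      have := hm0 e he
      field_simp
    have hmem1 : a / algebraMap P F e ∈ w₀.ring :=
      w₀.div_mem ha (hm0 e he) (by rw [hext e he, hea])
    have hmem2 : algebraMap P F (e / d) ∈ w₀.ring := by
      rw [w₀.mem_ring_of (hm0 _ hde0), hext _ hde0, hde]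
    have hne1 : w₀.res (a / algebraMap P F e) ≠ 0 :=
      w₀.res_div_ne_zero ha (hm0 e he) (by rw [hext e he, hea])
    have hne2 : w₀.res (algebraMap P F (e / d)) ≠ 0 := by
      intro h0
      rw [w₀.res_eq_zero_iff hmem2, hext _ hde0, hde] at h0
      rcases h0 with h0 | h0
      · exact hm0 _ hde0 h0
      · exact lt_irrefl _ h0
    rw [e1, w₀.res_mul hmem1 hmem2, ν.mul hne1 hne2, hν _ hde0 hde, add_zero]
  refine ⟨⟨w₀, fun a => ν.v (w₀.res (a / algebraMap P F (c a))), ?_, ?_⟩, rfl, ?_, ?_⟩
  · intro a b ha hb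
    show ν.v (w₀.res (a * b / algebraMap P F (c (a * b)))) =
      ν.v (w₀.res (a / algebraMap P F (c a))) + ν.v (w₀.res (b / algebraMap P F (c b)))
    have hab := mul_ne_zero ha hb
    have hca := hc0 a ha
    have hcb := hc0 b hb
    have h1 : v.v (c a * c b) = w₀.v (a * b) := by
      rw [v.mul hca hcb, hc a ha, hc b hb, w₀.mul ha hb]
    rw [key (a * b) (c (a * b)) (c a * c b) hab (hc0 _ hab) (mul_ne_zero hca hcb) (hc _ hab) h1]
    have e1 : a * b / algebraMap P F (c a * c b) =
        a / algebraMap P F (c a) * (b / algebraMap P F (c b)) := by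
      rw [map_mul, mul_div_mul_comm]
    rw [e1, w₀.res_mul (w₀.div_mem ha (hm0 _ hca) (by rw [hext _ hca, hc a ha]))
      (w₀.div_mem hb (hm0 _ hcb) (by rw [hext _ hcb, hc b hb])),
      ν.mul (w₀.res_div_ne_zero ha (hm0 _ hca) (by rw [hext _ hca, hc a ha]))
        (w₀.res_div_ne_zero hb (hm0 _ hcb) (by rw [hext _ hcb, hc b hb]))]
  · -- the lexicographic ultrametric inequality, first when `v a ≤ v b`
    have main : ∀ {a b : F}, a ≠ 0 → b ≠ 0 → a + b ≠ 0 → w₀.v a ≤ w₀.v b →
        min (toLex (w₀.v a, ν.v (w₀.res (a / algebraMap P F (c a)))))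
          (toLex (w₀.v b, ν.v (w₀.res (b / algebraMap P F (c b))))) ≤
        toLex (w₀.v (a + b), ν.v (w₀.res ((a + b) / algebraMap P F (c (a + b))))) := by
      intro a b ha hb hab hle
      have hge : w₀.v a ≤ w₀.v (a + b) := by
        have := w₀.add ha hb hab
        rwa [min_eq_left hle] at this
      rcases hge.lt_or_eq with hlt | heq
      · refine le_trans (min_le_left _ _) ?_
        rw [Prod.Lex.toLex_le_toLex]
        left; exact hlt
      · -- equality of the first components
        have hca := hc0 a ha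
        have hmem1 := w₀.div_mem ha (hm0 _ hca) (by rw [hext _ hca, hc a ha])
        have hmem2 : b / algebraMap P F (c a) ∈ w₀.ring :=
          w₀.div_mem hb (hm0 _ hca) (by rw [hext _ hca, hc a ha]; exact hle)
        have e1 : (a + b) / algebraMap P F (c a) =
            a / algebraMap P F (c a) + b / algebraMap P F (c a) := add_div _ _ _
        have hk := key (a + b) (c (a + b)) (c a) hab (hc0 _ hab) hca (hc _ hab)
          (by rw [hc a ha, heq])
        rw [hk]
        have hne : w₀.res ((a + b) / algebraMap P F (c a)) ≠ 0 :=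
          w₀.res_div_ne_zero hab (hm0 _ hca) (by rw [hext _ hca, hc a ha, heq])
        rcases hle.lt_or_eq with hlt' | heq'
        · refine le_trans (min_le_left _ _) (le_of_eq ?_)
          have hb0 : w₀.res (b / algebraMap P F (c a)) = 0 := by
            rw [w₀.res_eq_zero_iff hmem2]
            right
            rw [w₀.div hb (hm0 _ hca), hext _ hca, hc a ha]; linarith
          rw [e1, w₀.res_add hmem1 hmem2, hb0, add_zero, heq]
        · have hkb := key b (c b) (c a) hb (hc0 _ hb) hca (hc _ hb) (by rw [hc a ha, heq'])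
          rw [hkb]
          have hane : w₀.res (a / algebraMap P F (c a)) ≠ 0 :=
            w₀.res_div_ne_zero ha (hm0 _ hca) (by rw [hext _ hca, hc a ha])
          have hbne : w₀.res (b / algebraMap P F (c a)) ≠ 0 :=
            w₀.res_div_ne_zero hb (hm0 _ hca) (by rw [hext _ hca, hc a ha, heq'])
          rw [e1, w₀.res_add hmem1 hmem2] at hne ⊢
          have h2 := ν.add hane hbne hne
          rcases min_le_iff.mp h2 with h3 | h3
          · refine le_trans (min_le_left _ _) ?_
            rw [Prod.Lex.toLex_le_toLex]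
            right; exact ⟨heq, h3⟩
          · refine le_trans (min_le_right _ _) ?_
            rw [Prod.Lex.toLex_le_toLex]
            right; exact ⟨by rw [← heq', heq], h3⟩
    intro a b ha hb hab
    rcases le_total (w₀.v a) (w₀.v b) with h | h
    · exact main ha hb hab h
    · have := main hb ha (by rwa [add_comm]) h
      rw [add_comm b a, min_comm] at this
      exact this
  · intro d hd
    show ν.v (w₀.res (algebraMap P F d / algebraMap P F (c (algebraMap P F d)))) = 0
    rw [key (algebraMap P F d) (c (algebraMap P F d)) d (hm0 d hd) (hc0 _ (hm0 d hd)) hd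
      (hc _ (hm0 d hd)) (hext d hd).symm, div_self (hm0 d hd), w₀.res_one, ν.one]
  · intro a d ha hd hda
    exact key a (c a) d ha (hc0 a ha) hd (hc a ha) hda

end QV

end Pool.Agent.VM
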