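import Pool.Agent.Lib_VM.GAU_h4
import Pool.Agent.Lib_VM.RKV_h4
import Pool.Agent.Lib_helper85.VM.Defs2
import Pool.Agent.Lib_helper58.VM.RED

/-! helper4, VM block GAU3: residue subfields, residual algebraic independence, existence of the
reduction of points. -/

set_option autoImplicit false

namespace Pool.Agent.VM

open scoped Classical

attribute [-instance] Subtype.instDecidableEq

namespace QV

variable {F : Type*} [Field F] (w : QV F)

/-- the residues of the integral elements of a subfield -/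
def resSub (K : Subfield F) : Subfield w.κ where
  carrier := {y | ∃ x ∈ K, x ∈ w.ring ∧ w.res x = y}
  mul_mem' := by
    rintro _ _ ⟨x, hx, hx', rfl⟩ ⟨y, hy, hy', rfl⟩
    exact ⟨x * y, K.mul_mem hx hy, w.ring.mul_mem _ _ hx' hy', w.res_mul hx' hy'⟩
  one_mem' := ⟨1, K.one_mem, w.ring.one_mem, w.res_one⟩
  add_mem' := by
    rintro _ _ ⟨x, hx, hx', rfl⟩ ⟨y, hy, hy', rfl⟩
    exact ⟨x + y, K.add_mem hx hy, w.ring.add_mem _ _ hx' hy', w.res_add hx' hy'⟩
  zero_mem' := ⟨0, K.zero_mem, w.ring.zero_mem, w.res_zero⟩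
  neg_mem' := by
    rintro _ ⟨x, hx, hx', rfl⟩
    exact ⟨-x, K.neg_mem hx, w.ring.neg_mem _ hx', w.res_neg hx'⟩
  inv_mem' := by
    rintro _ ⟨x, hx, hx', rfl⟩
    by_cases h0 : w.res x = 0
    · rw [h0, inv_zero]
      exact ⟨0, K.zero_mem, w.ring.zero_mem, w.res_zero⟩
    · have h1 := h0
      rw [w.res_eq_zero_iff hx', not_or] at h1
      have hx0 : x ≠ 0 := h1.1
      have hv : w.v x = 0 := le_antisymm (not_lt.mp h1.2) ((w.mem_ring_of hx0).mp hx')
      have hmem : x⁻¹ ∈ w.ring := by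
        rw [w.mem_ring_of (inv_ne_zero hx0), w.inv hx0, hv, neg_zero]
      refine ⟨x⁻¹, K.inv_mem hx, hmem, ?_⟩
      apply eq_inv_of_mul_eq_one_left
      rw [← w.res_mul hmem hx', inv_mul_cancel₀ hx0, w.res_one]

lemma mem_resSub {K : Subfield F} {y : w.κ} :
    y ∈ w.resSub K ↔ ∃ x ∈ K, x ∈ w.ring ∧ w.res x = y := Iff.rfl

lemma res_natCast (n : ℕ) : w.res (n : F) = (n : w.κ) := by
  have hmem : ((n : F)) ∈ w.ring := natCast_mem w.ring n
  rw [w.res_of_mem hmem]
  have : (⟨(n : F), hmem⟩ : w.ring) = (n : w.ring) := rfl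
  rw [this, map_natCast]

lemma res_intCast (n : ℤ) : w.res (n : F) = (n : w.κ) := by
  have hmem : ((n : F)) ∈ w.ring := intCast_mem w.ring n
  rw [w.res_of_mem hmem]
  have : (⟨(n : F), hmem⟩ : w.ring) = (n : w.ring) := rfl
  rw [this, map_intCast]

/-- residue characteristic zero -/
lemma charZero_κ [CharZero F] (hw : ∀ n : ℕ, n ≠ 0 → w.v (n : F) = 0) : CharZero w.κ := by
  refine charZero_of_inj_zero ?_
  intro n hn
  by_contra h0
  have hmem : ((n : F)) ∈ w.ring := natCast_mem w.ring n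
  rw [← w.res_natCast, w.res_eq_zero_iff hmem, hw n h0] at hn
  rcases hn with hn | hn
  · exact h0 (by exact_mod_cast hn)
  · exact lt_irrefl _ hn

end QV

/-- **REDE** the reduction of points of `E₂` exists -/
theorem REDE {Λ : Type} [Field Λ] [CharZero Λ] (w : QV Λ)
    (hw : ∀ n : ℕ, n ≠ 0 → w.v (n : Λ) = 0) : ∃ red : Pt E2 Λ →+ Pt E2 w.κ, IsRed w red := by
  have := w.charZero_κ hw
  obtain ⟨red, h1, h2⟩ := RED (R := ℤ) 0 1 w (by
      intro r
      refine ⟨?_, ?_⟩
      · rw [eq_intCast]; exact intCast_mem w.ring r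
      · rw [eq_intCast, eq_intCast, w.res_intCast]) two_ne_zero (by
      have : (SW (0 : ℤ) 1).Δ = -432 := by
        simp [SW, WeierstrassCurve.Δ, WeierstrassCurve.b₂, WeierstrassCurve.b₄,
          WeierstrassCurve.b₆, WeierstrassCurve.b₈]
      rw [this, eq_intCast]
      norm_num)
  exact ⟨red, ⟨h1, h2⟩⟩

section

open MvPolynomial

/-- the residues of algebraically independent elements for the Gauss extension -/
lemma QV.algInd_res {P Λ : Type*} [Field P] [Field Λ] [Algebra P Λ] (v : QV P) (w : QV Λ)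
    (hext : ∀ c : P, c ≠ 0 → w.v (algebraMap P Λ c) = v.v c) {ι : Type*} (x : ι → Λ)
    (hx : ∀ p : MvPolynomial ι P, p ≠ 0 → aeval x p ≠ 0 ∧ w.v (aeval x p) = v.gval p) :
    (∀ i, x i ∈ w.ring) ∧
      AlgebraicIndependent (w.resSub (algebraMap P Λ).fieldRange) (fun i => w.res (x i)) := by
  have hmem : ∀ c : P, algebraMap P Λ c ∈ w.ring ↔ c ∈ v.ring := by
    intro c
    rcases eq_or_ne c 0 with rfl | hc
    · rw [map_zero]
      exact ⟨fun _ => v.ring.zero_mem, fun _ => w.ring.zero_mem⟩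
    · rw [w.mem_ring_of ((map_ne_zero _).mpr hc), hext c hc, v.mem_ring_of hc]
  have hxm : ∀ i, x i ∈ w.ring := by
    intro i
    have := hx (X i) (MvPolynomial.X_ne_zero i)
    rw [MvPolynomial.aeval_X, v.gval_X] at this
    rw [w.mem_ring_of this.1, this.2]
  refine ⟨hxm, ?_⟩
  set κP := w.resSub (algebraMap P Λ).fieldRange with hκP
  let j : v.ring →+* w.ring := ((algebraMap P Λ).comp (algebraMap v.ring P)).codRestrict w.ring
    (fun c => (hmem _).mpr c.2)
  let φ : v.ring →+* κP := ((IsLocalRing.residue w.ring).comp j).codRestrict κP (by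
    intro c
    rw [hκP, w.mem_resSub]
    refine ⟨algebraMap P Λ c, ⟨_, rfl⟩, (hmem _).mpr c.2, ?_⟩
    rw [w.res_of_mem ((hmem _).mpr c.2)]
    rfl)
  have hφs : Function.Surjective φ := by
    rintro ⟨y, hy⟩
    rw [hκP, w.mem_resSub] at hy
    obtain ⟨z, ⟨c, rfl⟩, hz, rfl⟩ := hy
    exact ⟨⟨c, (hmem c).mp hz⟩, Subtype.ext (w.res_of_mem hz).symm⟩
  have hφ0 : ∀ c : v.ring, IsLocalRing.residue v.ring c = 0 → φ c = 0 := by
    intro c hc
    apply Subtype.ext
    show IsLocalRing.residue w.ring (j c) = 0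
    have h1 : v.res (c : P) = 0 := by rw [v.res_of_mem c.2]; exact hc
    rw [v.res_eq_zero_iff c.2] at h1
    have h2 : w.res ((j c : w.ring) : Λ) = 0 := by
      rw [w.res_eq_zero_iff (j c).2]
      show algebraMap P Λ c = 0 ∨ 0 < w.v (algebraMap P Λ c)
      rcases h1 with h1 | h1
      · left; rw [h1, map_zero]
      · by_cases h0 : (c : P) = 0
        · left; rw [h0, map_zero]
        · right; rw [hext _ h0]; exact h1
    rwa [w.res_of_mem (j c).2] at h2
  rw [algebraicIndependent_iff_injective_aeval, injective_iff_map_eq_zero]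
  intro q hq
  by_contra hq0
  obtain ⟨q₀, rfl⟩ := MvPolynomial.map_surjective φ hφs q
  have hred : v.redPoly ι q₀ ≠ 0 := by
    intro h0
    apply hq0
    ext m
    rw [MvPolynomial.coeff_map, MvPolynomial.coeff_zero]
    have h1 := congrArg (MvPolynomial.coeff m) h0
    rw [MvPolynomial.coeff_zero] at h1
    rw [show MvPolynomial.coeff m (v.redPoly ι q₀) =
      IsLocalRing.residue v.ring (MvPolynomial.coeff m q₀) from MvPolynomial.coeff_map _ _ _] at h1
    rw [hφ0 _ h1]
  have hne : v.incPoly ι q₀ ≠ 0 := v.gRel_ne_zero (v.gRel_one hred)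
  have hval := hx _ hne
  rw [v.gval_inc hred] at hval
  let xr : ι → w.ring := fun i => ⟨x i, hxm i⟩
  let A : MvPolynomial ι v.ring →+* w.ring := eval₂Hom j xr
  have hA1 : ((A q₀ : w.ring) : Λ) = aeval x (v.incPoly ι q₀) := by
    have : (w.ring.subtype).comp A = ((aeval x : MvPolynomial ι P →ₐ[P] Λ).toRingHom).comp
        (v.incPoly ι) := by
      apply MvPolynomial.ringHom_ext
      · intro c
        show ((A (C c) : w.ring) : Λ) = aeval x (MvPolynomial.map (algebraMap v.ring P) (C c))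
        rw [MvPolynomial.map_C, MvPolynomial.aeval_C]
        show ((eval₂Hom j xr (C c) : w.ring) : Λ) = _
        rw [MvPolynomial.eval₂Hom_C]
        rfl
      · intro i
        show ((A (X i) : w.ring) : Λ) = aeval x (MvPolynomial.map (algebraMap v.ring P) (X i))
        rw [MvPolynomial.map_X, MvPolynomial.aeval_X]
        show ((eval₂Hom j xr (X i) : w.ring) : Λ) = _
        rw [MvPolynomial.eval₂Hom_X']
    exact congrArg (fun f : MvPolynomial ι v.ring →+* Λ => f q₀) this
  have hA2 : IsLocalRing.residue w.ring (A q₀) = aeval (fun i => w.res (x i)) (MvPolynomial.map φ q₀) := by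
    have : (IsLocalRing.residue w.ring).comp A =
        ((aeval (fun i => w.res (x i)) : MvPolynomial ι κP →ₐ[κP] w.κ).toRingHom).comp
          (MvPolynomial.map φ) := by
      apply MvPolynomial.ringHom_ext
      · intro c
        show IsLocalRing.residue w.ring (eval₂Hom j xr (C c)) =
          aeval (fun i => w.res (x i)) (MvPolynomial.map φ (C c))
        rw [MvPolynomial.map_C, MvPolynomial.aeval_C, MvPolynomial.eval₂Hom_C]
        rfl
      · intro i
        show IsLocalRing.residue w.ring (eval₂Hom j xr (X i)) =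
          aeval (fun i => w.res (x i)) (MvPolynomial.map φ (X i))
        rw [MvPolynomial.map_X, MvPolynomial.aeval_X, MvPolynomial.eval₂Hom_X',
          w.res_of_mem (hxm i)]
    exact congrArg (fun f : MvPolynomial ι v.ring →+* w.κ => f q₀) this
  have h3 : w.res (aeval x (v.incPoly ι q₀)) = 0 := by
    rw [← hA1, w.res_of_mem (A q₀).2]
    exact hA2.trans hq
  rw [w.res_eq_zero_iff (by rw [← hA1]; exact (A q₀).2)] at h3
  rcases h3 with h3 | h3
  · exact hval.1 h3
  · rw [hval.2] at h3; exact lt_irrefl _ h3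

end

/-- **GAU3** -/
theorem GAU3 {P Λ : Type} [Field P] [IsAlgClosed P] [Field Λ] [Algebra P Λ] (v : QV P) {l : P}
    (hl0 : l ≠ 0) (hl : v.v l = 1) {ι : Type} (x : ι → Λ) (hx : IsTranscendenceBasis P x) :
    ∃ w : QV Λ, (∀ c : P, c ≠ 0 → w.v (algebraMap P Λ c) = v.v c) ∧ (∀ i, x i ∈ w.ring) ∧
      AlgebraicIndependent (w.resSub (algebraMap P Λ).fieldRange) (fun i => w.res (x i)) ∧
      ∀ H : Λ, H ≠ 0 → ∃ c : P, c ≠ 0 ∧ v.v c = w.v H := by
  obtain ⟨w, hw, hx'⟩ := v.exists_gauss hx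
  obtain ⟨h1, h2⟩ := QV.algInd_res v w hw x hx'
  exact ⟨w, hw, h1, h2, fun H _ => v.exists_value hl0 hl (w.v H)⟩

end Pool.Agent.VM
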