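import Pool.Agent.Lib_helper4.VM.EXT

/-! helper4, VM block GAU: the Gauss valuation; extension of a valuation to any field extension. -/

namespace Pool.Agent.VM

namespace QV

/-- a valuation of a domain extends to the fraction field -/
theorem ofDomain {R K : Type*} [CommRing R] [IsDomain R] [Field K] [Algebra R K]
    [IsFractionRing R K] (f : R → ℚ)
    (hmul : ∀ a b : R, a ≠ 0 → b ≠ 0 → f (a * b) = f a + f b)
    (hadd : ∀ a b : R, a ≠ 0 → b ≠ 0 → a + b ≠ 0 → min (f a) (f b) ≤ f (a + b)) :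
    ∃ w : QV K, ∀ a : R, a ≠ 0 → w.v (algebraMap R K a) = f a := by
  have hinj : Function.Injective (algebraMap R K) := IsFractionRing.injective R K
  have h0 : ∀ a : R, a ≠ 0 → algebraMap R K a ≠ 0 := fun a ha h =>
    ha (hinj (by rw [h, map_zero]))
  have hdiv : ∀ x : K, ∃ a b : R, b ≠ 0 ∧ algebraMap R K a / algebraMap R K b = x := by
    intro x
    obtain ⟨a, b, hb, h⟩ := IsFractionRing.div_surjective (A := R) x
    exact ⟨a, b, nonZeroDivisors.ne_zero hb, h⟩
  choose n d hd hx using hdiv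
  have hn : ∀ x : K, x ≠ 0 → n x ≠ 0 := by
    intro x hx0 h
    have := hx x
    rw [h, map_zero, zero_div] at this
    exact hx0 this.symm
  have key : ∀ (x : K) (a b : R), x ≠ 0 → a ≠ 0 → b ≠ 0 →
      algebraMap R K a / algebraMap R K b = x → f (n x) - f (d x) = f a - f b := by
    intro x a b hx0 ha hb h
    have h1 : n x * b = a * d x := by
      apply hinj
      rw [map_mul, map_mul]
      have e := (hx x).trans h.symm
      rw [div_eq_div_iff (h0 _ (hd x)) (h0 _ hb)] at e
      exact e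
    have h2 := congrArg f h1
    rw [hmul _ _ (hn x hx0) hb, hmul _ _ ha (hd x)] at h2
    linarith
  refine ⟨⟨fun x => f (n x) - f (d x), ?_, ?_⟩, ?_⟩
  · intro x y hx0 hy0
    show f (n (x * y)) - f (d (x * y)) = f (n x) - f (d x) + (f (n y) - f (d y))
    rw [key (x * y) (n x * n y) (d x * d y) (mul_ne_zero hx0 hy0)
      (mul_ne_zero (hn x hx0) (hn y hy0)) (mul_ne_zero (hd x) (hd y)),
      hmul _ _ (hn x hx0) (hn y hy0), hmul _ _ (hd x) (hd y)]
    · ring
    · rw [map_mul, map_mul, mul_div_mul_comm, hx, hx]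
  · intro x y hx0 hy0 hxy
    show min (f (n x) - f (d x)) (f (n y) - f (d y)) ≤ f (n (x + y)) - f (d (x + y))
    have hN : algebraMap R K (n x * d y + n y * d x) / algebraMap R K (d x * d y) = x + y := by
      conv_rhs => rw [← hx x, ← hx y]
      rw [map_add, map_mul, map_mul, map_mul]
      have := h0 _ (hd x)
      have := h0 _ (hd y)
      field_simp
    have hN0 : n x * d y + n y * d x ≠ 0 := by
      intro h
      rw [h, map_zero, zero_div] at hN
      exact hxy hN.symm
    rw [key (x + y) _ _ hxy hN0 (mul_ne_zero (hd x) (hd y)) hN, hmul _ _ (hd x) (hd y)]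
    have h1 := hadd _ _ (mul_ne_zero (hn x hx0) (hd y)) (mul_ne_zero (hn y hy0) (hd x)) hN0
    rw [hmul _ _ (hn x hx0) (hd y), hmul _ _ (hn y hy0) (hd x)] at h1
    rcases min_le_iff.mp h1 with h2 | h2
    · refine le_trans (min_le_left _ _) ?_; linarith
    · refine le_trans (min_le_right _ _) ?_; linarith
  · intro a ha
    show f (n (algebraMap R K a)) - f (d (algebraMap R K a)) = f a
    rw [key (algebraMap R K a) a 1 (h0 a ha) ha one_ne_zero (by rw [map_one, div_one])]
    have h1 := hmul 1 1 one_ne_zero one_ne_zero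
    rw [mul_one] at h1
    linarith

section Gauss

open MvPolynomial

variable {P : Type*} [Field P] (v : QV P) (ι : Type*)

/-- the coefficientwise reduction -/
noncomputable abbrev redPoly : MvPolynomial ι v.ring →+* MvPolynomial ι v.κ :=
  MvPolynomial.map (IsLocalRing.residue v.ring)

/-- the inclusion of integral polynomials -/
noncomputable abbrev incPoly : MvPolynomial ι v.ring →+* MvPolynomial ι P :=
  MvPolynomial.map (algebraMap v.ring P)

variable {ι}

/-- `p = c • p₀` with `p₀` primitive -/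
def GRel (p : MvPolynomial ι P) (c : P) : Prop :=
  c ≠ 0 ∧ ∃ p₀ : MvPolynomial ι v.ring, C c * v.incPoly ι p₀ = p ∧ v.redPoly ι p₀ ≠ 0

lemma gRel_exists {p : MvPolynomial ι P} (hp : p ≠ 0) : ∃ c, v.GRel p c := by
  classical
  have hne : p.support.Nonempty := by
    rw [Finset.nonempty_iff_ne_empty, Ne, MvPolynomial.support_eq_empty]
    exact hp
  obtain ⟨m, hm, hmin⟩ := Finset.exists_min_image p.support (fun m => v.v (p.coeff m)) hne
  have hc : p.coeff m ≠ 0 := MvPolynomial.mem_support_iff.mp hm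
  refine ⟨p.coeff m, hc, ?_⟩
  have hrange : C (p.coeff m)⁻¹ * p ∈ Set.range (MvPolynomial.map (σ := ι) (algebraMap v.ring P)) := by
    rw [MvPolynomial.mem_range_map_iff_coeffs_subset]
    intro a ha
    rw [Finset.mem_coe, MvPolynomial.mem_coeffs_iff] at ha
    obtain ⟨k, hk, rfl⟩ := ha
    rw [MvPolynomial.coeff_C_mul]
    have hk0 : p.coeff k ≠ 0 := by
      intro h0
      rw [MvPolynomial.mem_support_iff, MvPolynomial.coeff_C_mul, h0, mul_zero] at hk
      exact hk rfl
    have hle := hmin k (MvPolynomial.mem_support_iff.mpr hk0)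
    refine ⟨⟨(p.coeff m)⁻¹ * p.coeff k, ?_⟩, rfl⟩
    rw [v.mem_ring_of (mul_ne_zero (inv_ne_zero hc) hk0), v.mul (inv_ne_zero hc) hk0, v.inv hc]
    linarith
  obtain ⟨p₀, hp₀⟩ := hrange
  refine ⟨p₀, ?_, ?_⟩
  · show C (p.coeff m) * MvPolynomial.map (algebraMap v.ring P) p₀ = p
    rw [hp₀, ← mul_assoc, ← C_mul, mul_inv_cancel₀ hc, C_1, one_mul]
  · intro h0
    have h1 : algebraMap v.ring P (MvPolynomial.coeff m p₀) = 1 := by
      have : algebraMap v.ring P (MvPolynomial.coeff m p₀) =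
          MvPolynomial.coeff m (C (p.coeff m)⁻¹ * p) := by
        rw [← hp₀, MvPolynomial.coeff_map]
      rw [MvPolynomial.coeff_C_mul, inv_mul_cancel₀ hc] at this
      exact this
    have h2 : MvPolynomial.coeff m p₀ = 1 := Subtype.ext h1
    have h3 : IsLocalRing.residue v.ring (MvPolynomial.coeff m p₀) = 0 := by
      rw [← MvPolynomial.coeff_map, show MvPolynomial.map (IsLocalRing.residue v.ring) p₀ = 0 from h0,
        MvPolynomial.coeff_zero]
    rw [h2, map_one] at h3
    exact one_ne_zero h3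

lemma gRel_ne_zero {p : MvPolynomial ι P} {c : P} (h : v.GRel p c) : p ≠ 0 := by
  obtain ⟨hc, p₀, hp, hr⟩ := h
  rintro rfl
  have h1 : v.incPoly ι p₀ = 0 := by
    rcases mul_eq_zero.mp hp with h | h
    · exact absurd (MvPolynomial.C_eq_zero.mp h) hc
    · exact h
  have hinj : Function.Injective (v.incPoly ι) :=
    MvPolynomial.map_injective _ (FaithfulSMul.algebraMap_injective v.ring P)
  have h2 : p₀ = 0 := hinj (by rw [h1, map_zero])
  exact hr (by rw [h2, map_zero])

lemma gRel_le {p : MvPolynomial ι P} {c d : P} (hc : v.GRel p c) (hd : d ≠ 0)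
    {q : MvPolynomial ι v.ring} (hq : C d * v.incPoly ι q = p) : v.v d ≤ v.v c := by
  obtain ⟨hc0, p₀, hp, hr⟩ := hc
  by_contra hlt
  push Not at hlt
  -- `p₀ = (d/c) q`, residue zero
  have hmem : d / c ∈ v.ring := by
    rw [v.mem_ring_of (div_ne_zero hd hc0), v.div hd hc0]; linarith
  have hres : IsLocalRing.residue v.ring ⟨d / c, hmem⟩ = 0 := by
    have := (v.res_eq_zero_iff hmem).mpr (Or.inr (by rw [v.div hd hc0]; linarith))
    rwa [v.res_of_mem hmem] at this
  have hinj : Function.Injective (v.incPoly ι) :=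
    MvPolynomial.map_injective _ (FaithfulSMul.algebraMap_injective v.ring P)
  have heq : p₀ = C ⟨d / c, hmem⟩ * q := by
    apply hinj
    have hC : (C c : MvPolynomial ι P) ≠ 0 := by
      rw [Ne, MvPolynomial.C_eq_zero]; exact hc0
    apply mul_left_cancel₀ hC
    rw [hp, ← hq, map_mul]
    have h1 : v.incPoly ι (C ⟨d / c, hmem⟩) = C (d / c) := by
      show MvPolynomial.map (algebraMap v.ring P) (C _) = _
      rw [MvPolynomial.map_C]; rfl
    rw [h1, ← mul_assoc, ← C_mul, mul_div_cancel₀ _ hc0]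
  apply hr
  rw [heq, map_mul]
  have h2 : v.redPoly ι (C ⟨d / c, hmem⟩) = 0 := by
    show MvPolynomial.map (IsLocalRing.residue v.ring) (C _) = _
    rw [MvPolynomial.map_C, hres, C_0]
  rw [h2, zero_mul]

lemma gRel_mul {p q : MvPolynomial ι P} {c d : P} (hp : v.GRel p c) (hq : v.GRel q d) :
    v.GRel (p * q) (c * d) := by
  obtain ⟨hc0, p₀, hp, hr⟩ := hp
  obtain ⟨hd0, q₀, hq, hs⟩ := hq
  refine ⟨mul_ne_zero hc0 hd0, p₀ * q₀, ?_, ?_⟩
  · rw [map_mul (v.incPoly ι), C_mul, ← hp, ← hq]; ring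
  · rw [map_mul]; exact mul_ne_zero hr hs

/-- the Gauss valuation on polynomials -/
noncomputable def gval (p : MvPolynomial ι P) : ℚ := by
  classical exact if h : p ≠ 0 then v.v (v.gRel_exists h).choose else 0

lemma gval_eq {p : MvPolynomial ι P} {c : P} (h : v.GRel p c) : v.gval p = v.v c := by
  have hp := v.gRel_ne_zero h
  rw [gval, dif_pos hp]
  have h' := (v.gRel_exists hp).choose_spec
  obtain ⟨hc0, p₀, hp₀, hr⟩ := h
  obtain ⟨hd0, q₀, hq₀, hs⟩ := h'
  exact le_antisymm (v.gRel_le ⟨hc0, p₀, hp₀, hr⟩ hd0 hq₀) (v.gRel_le ⟨hd0, q₀, hq₀, hs⟩ hc0 hp₀)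

lemma gval_mul {p q : MvPolynomial ι P} (hp : p ≠ 0) (hq : q ≠ 0) :
    v.gval (p * q) = v.gval p + v.gval q := by
  obtain ⟨c, hc⟩ := v.gRel_exists hp
  obtain ⟨d, hd⟩ := v.gRel_exists hq
  rw [v.gval_eq (v.gRel_mul hc hd), v.gval_eq hc, v.gval_eq hd, v.mul hc.1 hd.1]

lemma gval_add {p q : MvPolynomial ι P} (hp : p ≠ 0) (hq : q ≠ 0) (hpq : p + q ≠ 0) :
    min (v.gval p) (v.gval q) ≤ v.gval (p + q) := by
  have main : ∀ {p q : MvPolynomial ι P}, p ≠ 0 → q ≠ 0 → p + q ≠ 0 → v.gval p ≤ v.gval q →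
      v.gval p ≤ v.gval (p + q) := by
    intro p q hp hq hpq hle
    obtain ⟨c, hc⟩ := v.gRel_exists hp
    obtain ⟨d, hd⟩ := v.gRel_exists hq
    obtain ⟨e, he⟩ := v.gRel_exists hpq
    rw [v.gval_eq hc, v.gval_eq hd] at hle
    rw [v.gval_eq hc, v.gval_eq he]
    obtain ⟨hc0, p₀, hp₀, hr⟩ := hc
    obtain ⟨hd0, q₀, hq₀, hs⟩ := hd
    have hmem : d / c ∈ v.ring := by
      rw [v.mem_ring_of (div_ne_zero hd0 hc0), v.div hd0 hc0]; linarith
    refine v.gRel_le he hc0 (q := p₀ + C ⟨d / c, hmem⟩ * q₀) ?_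
    have h1 : v.incPoly ι (C ⟨d / c, hmem⟩) = C (d / c) := by
      show MvPolynomial.map (algebraMap v.ring P) (C _) = _
      rw [MvPolynomial.map_C]; rfl
    rw [map_add, map_mul, h1, mul_add, hp₀, ← mul_assoc, ← C_mul, mul_div_cancel₀ _ hc0, hq₀]
  rcases le_total (v.gval p) (v.gval q) with h | h
  · exact le_trans (min_le_left _ _) (main hp hq hpq h)
  · refine le_trans (min_le_right _ _) ?_
    rw [add_comm] at hpq ⊢
    exact main hq hp hpq h

lemma gRel_one {p₀ : MvPolynomial ι v.ring} (h : v.redPoly ι p₀ ≠ 0) :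
    v.GRel (v.incPoly ι p₀) 1 :=
  ⟨one_ne_zero, p₀, by rw [C_1, one_mul], h⟩

lemma gval_inc {p₀ : MvPolynomial ι v.ring} (h : v.redPoly ι p₀ ≠ 0) :
    v.gval (v.incPoly ι p₀) = 0 := by
  rw [v.gval_eq (v.gRel_one h), v.one]

lemma gval_C {c : P} (hc : c ≠ 0) : v.gval (C c : MvPolynomial ι P) = v.v c := by
  refine v.gval_eq ⟨hc, 1, by rw [map_one, mul_one], ?_⟩
  rw [map_one]; exact one_ne_zero

lemma gval_X (i : ι) : v.gval (X i : MvPolynomial ι P) = 0 := by
  have : v.incPoly ι (X i) = X i := by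
    show MvPolynomial.map (algebraMap v.ring P) (X i) = X i
    rw [MvPolynomial.map_X]
  rw [← this]
  apply v.gval_inc
  show MvPolynomial.map (IsLocalRing.residue v.ring) (X i) ≠ 0
  rw [MvPolynomial.map_X]
  exact MvPolynomial.X_ne_zero i

/-- **the Gauss extension** along a transcendence basis -/
theorem exists_gauss {Lam : Type*} [Field Lam] [Algebra P Lam] {x : ι → Lam}
    (hx : IsTranscendenceBasis P x) :
    ∃ w : QV Lam, (∀ c : P, c ≠ 0 → w.v (algebraMap P Lam c) = v.v c) ∧
      ∀ p : MvPolynomial ι P, p ≠ 0 → aeval x p ≠ 0 ∧ w.v (aeval x p) = v.gval p := by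
  have hinj : Function.Injective (aeval x : MvPolynomial ι P →ₐ[P] Lam) := hx.1
  obtain ⟨w₁, hw₁⟩ := ofDomain (R := MvPolynomial ι P) (K := FractionRing (MvPolynomial ι P))
    v.gval (fun a b ha hb => v.gval_mul ha hb) (fun a b ha hb hab => v.gval_add ha hb hab)
  let φ : FractionRing (MvPolynomial ι P) →+* Lam :=
    IsFractionRing.lift (A := MvPolynomial ι P) (g := (aeval x : MvPolynomial ι P →ₐ[P] Lam).toRingHom)
      hinj
  let _ : Algebra (FractionRing (MvPolynomial ι P)) Lam := φ.toAlgebra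
  have hφ : ∀ p : MvPolynomial ι P, algebraMap (FractionRing (MvPolynomial ι P)) Lam
      (algebraMap (MvPolynomial ι P) (FractionRing (MvPolynomial ι P)) p) = aeval x p := by
    intro p
    exact IsFractionRing.lift_algebraMap (A := MvPolynomial ι P) hinj p
  have _ : Algebra.IsAlgebraic (FractionRing (MvPolynomial ι P)) Lam := by
    constructor
    intro y
    have hy := hx.isAlgebraic.isAlgebraic y
    obtain ⟨q, hq0, hq⟩ := hy
    -- transport the coefficients
    let e : Algebra.adjoin P (Set.range x) →+* FractionRing (MvPolynomial ι P) :=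
      (algebraMap (MvPolynomial ι P) (FractionRing (MvPolynomial ι P))).comp
        (hx.1.aevalEquiv.symm : Algebra.adjoin P (Set.range x) ≃ₐ[P] MvPolynomial ι P).toRingHom
    have he : ∀ a : Algebra.adjoin P (Set.range x),
        algebraMap (FractionRing (MvPolynomial ι P)) Lam (e a) = (a : Lam) := by
      intro a
      show algebraMap (FractionRing (MvPolynomial ι P)) Lam
        (algebraMap (MvPolynomial ι P) (FractionRing (MvPolynomial ι P)) (hx.1.aevalEquiv.symm a)) = _
      rw [hφ]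
      have := hx.1.algebraMap_aevalEquiv (hx.1.aevalEquiv.symm a)
      rw [AlgEquiv.apply_symm_apply] at this
      rw [← this]; rfl
    have heinj : Function.Injective e := by
      intro a b hab
      have := congrArg (algebraMap (FractionRing (MvPolynomial ι P)) Lam) hab
      rw [he, he] at this
      exact Subtype.ext this
    refine ⟨q.map e, (Polynomial.map_ne_zero_iff heinj).mpr hq0, ?_⟩
    rw [Polynomial.aeval_def, Polynomial.eval₂_map]
    rw [Polynomial.aeval_def] at hq
    have hcomp : (algebraMap (FractionRing (MvPolynomial ι P)) Lam).comp e =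
        algebraMap (Algebra.adjoin P (Set.range x)) Lam := RingHom.ext he
    rw [hcomp]; exact hq
  obtain ⟨w, hw⟩ := exists_extend (L := Lam) w₁
  have key : ∀ p : MvPolynomial ι P, p ≠ 0 → aeval x p ≠ 0 ∧ w.v (aeval x p) = v.gval p := by
    intro p hp
    have h0 : algebraMap (MvPolynomial ι P) (FractionRing (MvPolynomial ι P)) p ≠ 0 := by
      intro h
      exact hp (IsFractionRing.injective (MvPolynomial ι P) (FractionRing (MvPolynomial ι P))
        (by rw [h, map_zero]))
    refine ⟨?_, ?_⟩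
    · intro h
      exact hp (hinj (by rw [h, map_zero]))
    · rw [← hφ, hw _ h0, hw₁ p hp]
  refine ⟨w, fun c hc => ?_, key⟩
  have h1 : (C c : MvPolynomial ι P) ≠ 0 := by rw [Ne, MvPolynomial.C_eq_zero]; exact hc
  have h2 := (key (C c) h1).2
  rw [v.gval_C hc] at h2
  rw [← h2, MvPolynomial.aeval_C]

end Gauss

/-- **a valuation extends to an arbitrary field extension** -/
theorem exists_extend_any {K L : Type*} [Field K] [Field L] [Algebra K L] (v : QV K) :
    ∃ w : QV L, ∀ a : K, a ≠ 0 → w.v (algebraMap K L a) = v.v a := by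
  obtain ⟨s, hs⟩ := exists_isTranscendenceBasis K L
  obtain ⟨w, hw, _⟩ := v.exists_gauss hs
  exact ⟨w, hw⟩

end QV

end Pool.Agent.VM
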