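import Pool.Agent.Lib_helper85.VM.Defs

/-! helper73, VM part VI: fields generated by generic triples of points. -/

set_option autoImplicit false

namespace Pool.Agent.VM

open scoped Classical

theorem gen3_core (a b : Fin 3 → ℂ) : ∃ (M : Type) (_ : Field M) (_ : Algebra ℂ M) (x y : Fin 3 → M),
    AlgebraicIndependent ℂ x ∧
    (∀ i, y i ^ 2 = x i ^ 3 + algebraMap ℂ M (a i) * x i ^ 2 + algebraMap ℂ M (b i)) ∧
    (∀ i, y i ≠ 0) ∧ IntermediateField.adjoin ℂ (Set.range x ∪ Set.range y) = ⊤ ∧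
    Algebra.trdeg ℂ M = 3 := by
  classical
  let K := FractionRing (MvPolynomial (Fin 3) ℂ)
  let Ω := AlgebraicClosure K
  let X : Fin 3 → Ω := (IsScalarTower.toAlgHom ℂ (MvPolynomial (Fin 3) ℂ) Ω) ∘ MvPolynomial.X
  have hX : AlgebraicIndependent ℂ X := by
    have h1 : AlgebraicIndependent ℂ (MvPolynomial.X : Fin 3 → MvPolynomial (Fin 3) ℂ) :=
      MvPolynomial.algebraicIndependent_X _ _
    refine h1.map' (f := IsScalarTower.toAlgHom ℂ (MvPolynomial (Fin 3) ℂ) Ω) ?_
    intro u v huv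
    have : algebraMap (MvPolynomial (Fin 3) ℂ) Ω u = algebraMap (MvPolynomial (Fin 3) ℂ) Ω v := huv
    rw [IsScalarTower.algebraMap_apply (MvPolynomial (Fin 3) ℂ) K Ω,
      IsScalarTower.algebraMap_apply (MvPolynomial (Fin 3) ℂ) K Ω] at this
    exact IsFractionRing.injective (MvPolynomial (Fin 3) ℂ) K ((algebraMap K Ω).injective this)
  have hsq : ∀ i, ∃ y : Ω, y ^ 2 = X i ^ 3 + algebraMap ℂ Ω (a i) * X i ^ 2 + algebraMap ℂ Ω (b i) :=
    fun i => IsAlgClosed.exists_pow_nat_eq _ (by norm_num)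
  choose Y hY using hsq
  let S : Set Ω := Set.range X ∪ Set.range Y
  let M := IntermediateField.adjoin ℂ S
  have hxM : ∀ i, X i ∈ M := fun i => IntermediateField.subset_adjoin _ _ (Or.inl ⟨i, rfl⟩)
  have hyM : ∀ i, Y i ∈ M := fun i => IntermediateField.subset_adjoin _ _ (Or.inr ⟨i, rfl⟩)
  let x : Fin 3 → M := fun i => ⟨X i, hxM i⟩
  let y : Fin 3 → M := fun i => ⟨Y i, hyM i⟩
  have hx : AlgebraicIndependent ℂ x := by
    have h2 : AlgebraicIndependent ℂ (M.val ∘ x) := hX
    exact AlgebraicIndependent.of_comp M.val h2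
  have hxy : ∀ i, y i ^ 2 = x i ^ 3 + algebraMap ℂ M (a i) * x i ^ 2 + algebraMap ℂ M (b i) := by
    intro i
    apply M.val.injective
    simpa using hY i
  have htr : ∀ i, Transcendental ℂ (x i) := fun i => hx.transcendental i
  have hy0 : ∀ i, y i ≠ 0 := by
    intro i h0
    have h1 := hxy i
    rw [h0] at h1
    apply htr i
    refine ⟨Polynomial.X ^ 3 + Polynomial.C (a i) * Polynomial.X ^ 2 + Polynomial.C (b i), ?_, ?_⟩
    · intro h2
      have h3 := congrArg (fun p => Polynomial.coeff p 3) h2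
      simp [Polynomial.coeff_X_pow] at h3
    · simp only [map_add, map_mul, map_pow, Polynomial.aeval_X, Polynomial.aeval_C]
      rw [← h1]; ring
  have htop : IntermediateField.adjoin ℂ (Set.range x ∪ Set.range y) = ⊤ := by
    apply IntermediateField.map_injective M.val
    rw [IntermediateField.adjoin_map, Set.image_union, ← Set.range_comp, ← Set.range_comp]
    have : IntermediateField.map M.val (⊤ : IntermediateField ℂ M) = M := by
      ext z
      simp
    rw [this]
    rfl
  refine ⟨M, inferInstance, inferInstance, x, y, hx, hxy, hy0, htop, ?_⟩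
  have halg : Algebra.IsAlgebraic (Algebra.adjoin ℂ (Set.range x)) M := by
    rw [← IntermediateField.isAlgebraic_adjoin_iff_top]
    have h1 : Algebra.IsAlgebraic (IntermediateField.adjoin ℂ (Set.range x))
        (IntermediateField.adjoin (IntermediateField.adjoin ℂ (Set.range x)) (Set.range y)) := by
      apply IntermediateField.isAlgebraic_adjoin
      rintro _ ⟨i, rfl⟩
      have hxi : x i ∈ IntermediateField.adjoin ℂ (Set.range x) :=
        IntermediateField.subset_adjoin _ _ ⟨i, rfl⟩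
      refine ⟨Polynomial.X ^ 2 - Polynomial.C ((⟨x i, hxi⟩ : IntermediateField.adjoin ℂ (Set.range x)) ^ 3 +
        algebraMap ℂ _ (a i) * ⟨x i, hxi⟩ ^ 2 + algebraMap ℂ _ (b i)),
        Polynomial.monic_X_pow_sub_C _ (by norm_num), ?_⟩
      rw [Polynomial.eval₂_sub, Polynomial.eval₂_pow, Polynomial.eval₂_X, Polynomial.eval₂_C, map_add,
        map_add, map_mul, map_pow, map_pow]
      exact sub_eq_zero.mpr (hxy i)
    constructor
    intro z
    have h2 : z ∈ IntermediateField.adjoin (IntermediateField.adjoin ℂ (Set.range x)) (Set.range y) := by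
      have h3 := IntermediateField.adjoin_adjoin_left ℂ (Set.range x) (Set.range y)
      rw [htop] at h3
      have h4 : z ∈ (IntermediateField.adjoin (IntermediateField.adjoin ℂ (Set.range x))
          (Set.range y)).restrictScalars ℂ := by
        rw [h3]; trivial
      exact h4
    have h5 := h1.isAlgebraic ⟨z, h2⟩
    rw [IntermediateField.isAlgebraic_iff] at h5
    exact h5
  have hb : IsTranscendenceBasis ℂ x := by
    rw [hx.isTranscendenceBasis_iff_isAlgebraic]
    exact halg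
  have := hb.lift_cardinalMk_eq_trdeg
  simpa using this.symm

theorem gen3_nonsing {R F : Type} [CommRing R] [Field F] [CharZero F] [Algebra R F] (a b : R) (x y : F)
    (h : y ^ 2 = x ^ 3 + algebraMap R F a * x ^ 2 + algebraMap R F b) (hy : y ≠ 0) :
    ((SW a b).baseChange F).toAffine.Nonsingular x y := by
  rw [WeierstrassCurve.Affine.nonsingular_iff']
  refine ⟨?_, Or.inr ?_⟩
  · rw [WeierstrassCurve.Affine.equation_iff]
    simp only [WeierstrassCurve.baseChange, WeierstrassCurve.map, SW, map_zero, zero_mul, add_zero]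
    exact h
  · simp only [WeierstrassCurve.baseChange, WeierstrassCurve.map, SW, map_zero, zero_mul, add_zero]
    exact mul_ne_zero two_ne_zero hy

theorem gen3_set {M : Type} (x y : Fin 3 → M) :
    ({x 0, y 0} ∪ {x 1, y 1} ∪ {x 2, y 2} : Set M) = Set.range x ∪ Set.range y := by
  ext t
  simp only [Set.mem_union, Set.mem_insert_iff, Set.mem_singleton_iff, Set.mem_range]
  constructor
  · rintro (((h | h) | (h | h)) | (h | h))
    · exact Or.inl ⟨0, h.symm⟩
    · exact Or.inr ⟨0, h.symm⟩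
    · exact Or.inl ⟨1, h.symm⟩
    · exact Or.inr ⟨1, h.symm⟩
    · exact Or.inl ⟨2, h.symm⟩
    · exact Or.inr ⟨2, h.symm⟩
  · rintro (⟨i, rfl⟩ | ⟨i, rfl⟩) <;> fin_cases i <;> simp

/-- GEN3: a field generated by a generic triple on `E₁ × E₁ × E₂` -/
theorem GEN3 (l : ℂ) : ∃ (M : Type) (_ : Field M) (_ : Algebra ℂ M) (p q : Pt (E1 l) M)
    (r : Pt E2 M), p ≠ 0 ∧ q ≠ 0 ∧ r ≠ 0 ∧ AlgebraicIndependent ℂ ![xc p, xc q, xc r] ∧
      IntermediateField.adjoin ℂ (cs p ∪ cs q ∪ cs r) = ⊤ ∧ Algebra.trdeg ℂ M = 3 := by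
  obtain ⟨M, fM, aM, x, y, hx, hxy, hy0, htop, h3⟩ := gen3_core ![1, 1, 0] ![l, l, 1]
  have : CharZero M := charZero_of_injective_algebraMap (algebraMap ℂ M).injective
  have n0 : ((E1 l).baseChange M).toAffine.Nonsingular (x 0) (y 0) :=
    gen3_nonsing 1 l _ _ (by simpa using hxy 0) (hy0 0)
  have n1 : ((E1 l).baseChange M).toAffine.Nonsingular (x 1) (y 1) :=
    gen3_nonsing 1 l _ _ (by simpa using hxy 1) (hy0 1)
  have n2 : (E2.baseChange M).toAffine.Nonsingular (x 2) (y 2) :=
    gen3_nonsing 0 1 _ _ (by simpa using hxy 2) (hy0 2)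
  refine ⟨M, fM, aM, .some (x 0) (y 0) n0, .some (x 1) (y 1) n1, .some (x 2) (y 2) n2,
    WeierstrassCurve.Affine.Point.some_ne_zero _, WeierstrassCurve.Affine.Point.some_ne_zero _,
    WeierstrassCurve.Affine.Point.some_ne_zero _, ?_, ?_, h3⟩
  · convert hx using 1
    funext i
    fin_cases i <;> rfl
  · rw [← htop, ← gen3_set]
    rfl

/-- GEN3b: a field generated by a generic triple on `E₁ × E₂ × E₂` -/
theorem GEN3b (l : ℂ) : ∃ (M : Type) (_ : Field M) (_ : Algebra ℂ M) (p : Pt (E1 l) M)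
    (q r : Pt E2 M), p ≠ 0 ∧ q ≠ 0 ∧ r ≠ 0 ∧ AlgebraicIndependent ℂ ![xc p, xc q, xc r] ∧
      IntermediateField.adjoin ℂ (cs p ∪ cs q ∪ cs r) = ⊤ ∧ Algebra.trdeg ℂ M = 3 := by
  obtain ⟨M, fM, aM, x, y, hx, hxy, hy0, htop, h3⟩ := gen3_core ![1, 0, 0] ![l, 1, 1]
  have : CharZero M := charZero_of_injective_algebraMap (algebraMap ℂ M).injective
  have n0 : ((E1 l).baseChange M).toAffine.Nonsingular (x 0) (y 0) :=
    gen3_nonsing 1 l _ _ (by simpa using hxy 0) (hy0 0)
  have n1 : (E2.baseChange M).toAffine.Nonsingular (x 1) (y 1) :=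
    gen3_nonsing 0 1 _ _ (by simpa using hxy 1) (hy0 1)
  have n2 : (E2.baseChange M).toAffine.Nonsingular (x 2) (y 2) :=
    gen3_nonsing 0 1 _ _ (by simpa using hxy 2) (hy0 2)
  refine ⟨M, fM, aM, .some (x 0) (y 0) n0, .some (x 1) (y 1) n1, .some (x 2) (y 2) n2,
    WeierstrassCurve.Affine.Point.some_ne_zero _, WeierstrassCurve.Affine.Point.some_ne_zero _,
    WeierstrassCurve.Affine.Point.some_ne_zero _, ?_, ?_, h3⟩
  · convert hx using 1
    funext i
    fin_cases i <;> rfl
  · rw [← htop, ← gen3_set]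
    rfl

end Pool.Agent.VM
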