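import Pool.Agent.Lib_VM.StubsVI_h71

/-!
# MP_5582d1_ag, VI: J1 (joint_J, inter_eq)
-/

set_option autoImplicit false
set_option linter.style.haveILetI false

namespace Pool.Agent.VM.J1p

open Pool.Agent.VM

open scoped Classical TensorProduct

/-- J1 -/
theorem joint_J {P : Type} [Field P] [IsAlgClosed P] {l : P} (Z W : SubVar l) :
    Joint (Z.inl W) (Z.inr W) := by
  have hlift : (Algebra.TensorProduct.lift (Z.inl W) (Z.inr W) fun _ _ => Commute.all _ _) =
      IsScalarTower.toAlgHom P (Z.M ⊗[P] W.M) (Z.J W) := by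
    apply Algebra.TensorProduct.ext'
    intro a b
    rw [Algebra.TensorProduct.lift_tmul]
    show algebraMap (Z.M ⊗[P] W.M) (Z.J W) (a ⊗ₜ 1) * algebraMap (Z.M ⊗[P] W.M) (Z.J W) (1 ⊗ₜ b) =
      algebraMap (Z.M ⊗[P] W.M) (Z.J W) (a ⊗ₜ b)
    rw [← map_mul, Algebra.TensorProduct.tmul_mul_tmul, one_mul, mul_one]
  refine ⟨?_, ?_⟩
  · rw [hlift]
    exact IsFractionRing.injective (Z.M ⊗[P] W.M) (Z.J W)
  · rw [eq_top_iff]
    intro x _
    obtain ⟨a, b, hb, rfl⟩ := IsFractionRing.div_surjective (A := Z.M ⊗[P] W.M) x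
    have key : ∀ t : Z.M ⊗[P] W.M, algebraMap (Z.M ⊗[P] W.M) (Z.J W) t ∈
        IntermediateField.adjoin P (Set.range (Z.inl W) ∪ Set.range (Z.inr W)) := by
      intro t
      induction t using TensorProduct.induction_on with
      | zero => rw [map_zero]; exact zero_mem _
      | tmul a b =>
        have : (a ⊗ₜ[P] b : Z.M ⊗[P] W.M) = (a ⊗ₜ 1) * (1 ⊗ₜ b) := by
          rw [Algebra.TensorProduct.tmul_mul_tmul, one_mul, mul_one]
        rw [this, map_mul]
        exact mul_mem (IntermediateField.subset_adjoin _ _ (Or.inl ⟨a, rfl⟩))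
          (IntermediateField.subset_adjoin _ _ (Or.inr ⟨b, rfl⟩))
      | add x y hx hy => rw [map_add]; exact add_mem hx hy
    exact div_mem (key a) (key b)

/-- the degree is invariant under isomorphisms -/
private theorem dg_equiv {P M M' : Type} [Field P] [Field M] [Field M'] [Algebra P M]
    [Algebra P M'] (e : M ≃ₐ[P] M') (S : Set M) : dg P (e '' S) = dg P S := by
  have hmap : (IntermediateField.adjoin P S).map (e : M →ₐ[P] M') =
      IntermediateField.adjoin P (e '' S) := IntermediateField.adjoin_map P S (e : M →ₐ[P] M')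
  unfold dg
  rw [← hmap]
  symm
  exact Algebra.finrank_eq_of_equiv_equiv
    ((IntermediateField.intermediateFieldMap e (IntermediateField.adjoin P S)).toRingEquiv)
    e.toRingEquiv (by ext x; rfl)

/-- any model of the function field of the product is isomorphic to `J` -/
private theorem exists_equiv {P : Type} [Field P] [IsAlgClosed P] {Ω : Type} [Field Ω]
    [Algebra P Ω] {l : P} (Z W : SubVar l) (f : Z.M →ₐ[P] Ω) (g : W.M →ₐ[P] Ω) (h : Joint f g) :
    ∃ e : Z.J W ≃ₐ[P] Ω, (∀ a, e (Z.inl W a) = f a) ∧ ∀ b, e (Z.inr W b) = g b := by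
  let φ : Z.J W →ₐ[P] Ω := IsFractionRing.liftAlgHom (K := Z.J W) h.inj
  have hφ : ∀ t : Z.M ⊗[P] W.M, φ (algebraMap (Z.M ⊗[P] W.M) (Z.J W) t) =
      Algebra.TensorProduct.lift f g (fun _ _ => Commute.all _ _) t := fun t =>
    IsFractionRing.lift_algebraMap h.inj t
  have h1 : ∀ a, φ (Z.inl W a) = f a := by
    intro a
    have := hφ (a ⊗ₜ 1)
    rw [Algebra.TensorProduct.lift_tmul, map_one, mul_one] at this
    exact this
  have h2 : ∀ b, φ (Z.inr W b) = g b := by
    intro b
    have := hφ (1 ⊗ₜ b)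
    rw [Algebra.TensorProduct.lift_tmul, map_one, one_mul] at this
    exact this
  have hsurj : Function.Surjective φ := by
    have hle : IntermediateField.adjoin P (Set.range f ∪ Set.range g) ≤ φ.fieldRange := by
      rw [IntermediateField.adjoin_le_iff]
      rintro x (⟨a, rfl⟩ | ⟨b, rfl⟩)
      · exact ⟨Z.inl W a, h1 a⟩
      · exact ⟨Z.inr W b, h2 b⟩
    intro x
    have hx : x ∈ φ.fieldRange := hle (by rw [h.gen]; trivial)
    exact hx
  exact ⟨AlgEquiv.ofBijective φ ⟨φ.toRingHom.injective, hsurj⟩, h1, h2⟩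

private theorem mp_comp {R P F K L : Type} [CommRing R] [CommRing P] [Field F] [Field K]
    [Field L] [Algebra R P]
    [Algebra R F] [Algebra R K] [Algebra R L] [Algebra P F] [Algebra P K] [Algebra P L]
    [IsScalarTower R P F] [IsScalarTower R P K] [IsScalarTower R P L]
    {W : WeierstrassCurve R} (f : F →ₐ[P] K) (g : K →ₐ[P] L) (p : Pt W F) :
    mp g (mp f p) = mp (g.comp f) p :=
  WeierstrassCurve.Affine.Point.map_map f g p

private theorem xc_mp {R P F K : Type} [CommRing R] [CommRing P] [Field F] [Field K]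
    [Algebra R P] [Algebra R F] [Algebra R K] [Algebra P F] [Algebra P K]
    [IsScalarTower R P F] [IsScalarTower R P K]
    {W : WeierstrassCurve R} (f : F →ₐ[P] K) (p : Pt W F) : xc (mp f p) = f (xc p) := by
  rcases p with _ | ⟨x, y, h⟩
  · exact (map_zero f).symm
  · rfl

private theorem yc_mp {R P F K : Type} [CommRing R] [CommRing P] [Field F] [Field K]
    [Algebra R P] [Algebra R F] [Algebra R K] [Algebra P F] [Algebra P K]
    [IsScalarTower R P F] [IsScalarTower R P K]
    {W : WeierstrassCurve R} (f : F →ₐ[P] K) (p : Pt W F) : yc (mp f p) = f (yc p) := by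
  rcases p with _ | ⟨x, y, h⟩
  · exact (map_zero f).symm
  · rfl

private theorem cs_mp {R P F K : Type} [CommRing R] [CommRing P] [Field F] [Field K]
    [Algebra R P] [Algebra R F] [Algebra R K] [Algebra P F] [Algebra P K]
    [IsScalarTower R P F] [IsScalarTower R P K]
    {W : WeierstrassCurve R} (f : F →ₐ[P] K) (p : Pt W F) : cs (mp f p) = f '' cs p := by
  unfold cs
  rw [xc_mp, yc_mp, Set.image_pair]

section
variable {P : Type} [Field P] {l : P} {M N L : Type} [Field M] [Algebra P M] [Field N]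
  [Algebra P N] [Field L] [Algebra P L]

private theorem xpt_map_sub (f : M →ₐ[P] N) (ξ η : XPt l M) :
    (ξ - η).map f = ξ.map f - η.map f := by
  refine Prod.ext (funext fun j => ?_) (funext fun j => ?_)
  · exact map_sub (mp f) (ξ.1 j) (η.1 j)
  · exact map_sub (mp (f.restrictScalars ℤ)) (ξ.2 j) (η.2 j)

private theorem xpt_map_map (f : M →ₐ[P] N) (g : N →ₐ[P] L) (ξ : XPt l M) :
    (ξ.map f).map g = ξ.map (g.comp f) := by
  refine Prod.ext (funext fun j => ?_) (funext fun j => ?_)
  · exact mp_comp f g (ξ.1 j)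
  · exact mp_comp (f.restrictScalars ℤ) (g.restrictScalars ℤ) (ξ.2 j)

private theorem xpt_cs_map (f : M →ₐ[P] N) (ξ : XPt l M) : (ξ.map f).cs = f '' ξ.cs := by
  unfold XPt.cs
  rw [Set.image_union, Set.image_iUnion, Set.image_iUnion]
  congr 1
  · exact Set.iUnion_congr fun j => cs_mp f (ξ.1 j)
  · exact Set.iUnion_congr fun j => cs_mp (f.restrictScalars ℤ) (ξ.2 j)

private theorem xpt_key (e : M ≃ₐ[P] N) (ξ η : XPt l M) :
    dg P (ξ.map (e : M →ₐ[P] N) - η.map (e : M →ₐ[P] N)).cs = dg P (ξ - η).cs := by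
  rw [← xpt_map_sub, xpt_cs_map]
  exact dg_equiv e _

end

/-- J4: the intersection number in any model of the function field of the product -/
theorem inter_eq {P : Type} [Field P] [IsAlgClosed P] {Ω : Type} [Field Ω] [Algebra P Ω]
    {l : P} (Z W : SubVar l) (f : Z.M →ₐ[P] Ω) (g : W.M →ₐ[P] Ω) (h : Joint f g) :
    inter Z W = dg P ((Z.pt.map f - W.pt.map g : XPt l Ω)).cs := by
  obtain ⟨e, h1, h2⟩ := exists_equiv Z W f g h
  have hf : (e : Z.J W →ₐ[P] Ω).comp (Z.inl W) = f := by ext a; exact h1 a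
  have hg : (e : Z.J W →ₐ[P] Ω).comp (Z.inr W) = g := by ext a; exact h2 a
  rw [← hf, ← hg, ← xpt_map_map, ← xpt_map_map, xpt_key]
  rfl

end Pool.Agent.VM.J1p
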