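import Pool.Agent.Lib_VM.StubsVI_h71

/-! MP_5582d1_ag, part VI, block J2. -/

set_option autoImplicit false
set_option linter.style.haveILetI false

namespace Pool.Agent.VM.J2p

open scoped Classical TensorProduct
open Set

section gen
variable {P : Type} [Field P] {M N : Type} [Field M] [Field N] [Algebra P M] [Algebra P N]

/-- elements of `M` stay algebraic -/
private lemma alg_of_basis {T : Type} [CommRing T] [IsDomain T] [Algebra P T] (f : M →ₐ[P] T)
    {ι : Type} {s : ι → M} (hs : IsTranscendenceBasis P s) (U : Set T)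
    (hU : ∀ i, f (s i) ∈ U) (a : M) : IsAlgebraic (Algebra.adjoin P U) (f a) := by
  haveI := hs.isAlgebraic
  obtain ⟨p, hp0, hp⟩ := (Algebra.IsAlgebraic.isAlgebraic (R := Algebra.adjoin P (range s)) a)
  have hmem : ∀ x : Algebra.adjoin P (range s),
      (f.comp (Algebra.adjoin P (range s)).val) x ∈ Algebra.adjoin P U := by
    rintro ⟨x, hx⟩
    show f x ∈ Algebra.adjoin P U
    have h1 : f x ∈ (Algebra.adjoin P (range s)).map f := ⟨x, hx, rfl⟩
    rw [AlgHom.map_adjoin] at h1
    refine Algebra.adjoin_mono ?_ h1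
    rintro _ ⟨_, ⟨i, rfl⟩, rfl⟩
    exact hU i
  set θ : Algebra.adjoin P (range s) →ₐ[P] Algebra.adjoin P U :=
    (f.comp (Algebra.adjoin P (range s)).val).codRestrict _ hmem with hθ
  have hθi : Function.Injective θ := by
    intro x y hxy
    have h1 : f (x : M) = f (y : M) := congrArg Subtype.val hxy
    exact Subtype.ext (f.toRingHom.injective h1)
  refine ⟨p.map (θ : _ →+* Algebra.adjoin P U), ?_, ?_⟩
  · intro h0
    exact hp0 ((Polynomial.map_eq_zero_iff (f := (θ : _ →+* Algebra.adjoin P U)) hθi).1 h0)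
  · rw [Polynomial.aeval_def, Polynomial.eval₂_map]
    have hc : (algebraMap (Algebra.adjoin P U) T).comp (θ : _ →+* Algebra.adjoin P U) =
        (f : M →+* T).comp (algebraMap (Algebra.adjoin P (range s)) M) := by
      ext x
      rfl
    rw [hc]
    have h2 := Polynomial.hom_eval₂ p (algebraMap (Algebra.adjoin P (range s)) M) (f : M →+* T) a
    have h3 : f (a : M) = (f : M →+* T) a := rfl
    rw [h3, ← h2, ← Polynomial.aeval_def, hp, map_zero]

end gen

section tens
variable {P : Type} [Field P] [IsAlgClosed P]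
variable {M N Ω : Type} [Field M] [Field N] [Field Ω] [Algebra P M] [Algebra P N] [Algebra P Ω]

/-- the two families together -/
private noncomputable def zz {ι κ : Type} (T : Type) [CommRing T] [Algebra P T] (f : M →ₐ[P] T)
    (g : N →ₐ[P] T) (s : ι → M) (t : κ → N) : κ ⊕ ι → T :=
  Sum.elim (fun j => g (t j)) (fun i => f (s i))

private lemma alg_T {ι κ : Type} {s : ι → M} {t : κ → N} (hs : IsTranscendenceBasis P s)
    (ht : IsTranscendenceBasis P t) :
    Algebra.IsAlgebraic (Algebra.adjoin P (range (zz (M ⊗[P] N)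
      (Algebra.TensorProduct.includeLeft : M →ₐ[P] M ⊗[P] N)
      (Algebra.TensorProduct.includeRight : N →ₐ[P] M ⊗[P] N) s t))) (M ⊗[P] N) := by
  refine ⟨fun x => ?_⟩
  induction x using TensorProduct.induction_on with
  | zero => exact isAlgebraic_zero
  | tmul a b =>
    have h1 := alg_of_basis (Algebra.TensorProduct.includeLeft : M →ₐ[P] M ⊗[P] N) hs
      (range (zz (M ⊗[P] N) (Algebra.TensorProduct.includeLeft : M →ₐ[P] M ⊗[P] N)
      (Algebra.TensorProduct.includeRight : N →ₐ[P] M ⊗[P] N) s t))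
      (fun i => ⟨Sum.inr i, rfl⟩) a
    have h2 := alg_of_basis (Algebra.TensorProduct.includeRight : N →ₐ[P] M ⊗[P] N) ht
      (range (zz (M ⊗[P] N) (Algebra.TensorProduct.includeLeft : M →ₐ[P] M ⊗[P] N)
      (Algebra.TensorProduct.includeRight : N →ₐ[P] M ⊗[P] N) s t))
      (fun i => ⟨Sum.inl i, rfl⟩) b
    have h3 := h1.mul h2
    simpa using h3
  | add x y hx hy => exact hx.add hy

omit [IsAlgClosed P] in
private lemma alg_Ω (f : M →ₐ[P] Ω) (g : N →ₐ[P] Ω)
    (hgen : IntermediateField.adjoin P (Set.range f ∪ Set.range g) = ⊤)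
    {ι κ : Type} {s : ι → M} {t : κ → N} (hs : IsTranscendenceBasis P s)
    (ht : IsTranscendenceBasis P t) :
    Algebra.IsAlgebraic (Algebra.adjoin P (range (zz Ω f g s t))) Ω := by
  refine ⟨fun x => ?_⟩
  have hx : x ∈ IntermediateField.adjoin P (Set.range f ∪ Set.range g) := by
    rw [hgen]; trivial
  induction hx using IntermediateField.adjoin_induction with
  | mem x hx =>
    rcases hx with ⟨a, rfl⟩ | ⟨b, rfl⟩
    · exact alg_of_basis f hs (range (zz Ω f g s t)) (fun i => ⟨Sum.inr i, rfl⟩) a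
    · exact alg_of_basis g ht (range (zz Ω f g s t)) (fun i => ⟨Sum.inl i, rfl⟩) b
  | algebraMap x =>
    rw [IsScalarTower.algebraMap_apply P (Algebra.adjoin P (range (zz Ω f g s t))) Ω]
    exact isAlgebraic_algebraMap _
  | add x y _ _ hx hy => exact hx.add hy
  | inv x _ hx => exact hx.inv
  | mul x y _ _ hx hy => exact hx.mul hy

omit [IsAlgClosed P] in
private lemma lift_zz (f : M →ₐ[P] Ω) (g : N →ₐ[P] Ω) {ι κ : Type} (s : ι → M) (t : κ → N)
    (i : κ ⊕ ι) :
    (Algebra.TensorProduct.lift f g fun _ _ => Commute.all _ _ : M ⊗[P] N →ₐ[P] Ω)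
      (zz (M ⊗[P] N) (Algebra.TensorProduct.includeLeft : M →ₐ[P] M ⊗[P] N)
      (Algebra.TensorProduct.includeRight : N →ₐ[P] M ⊗[P] N) s t i) = zz Ω f g s t i := by
  rcases i with i | i <;> simp [zz]

omit [IsAlgClosed P] in
private lemma basis_exists (m : ℕ) (hM : Algebra.trdeg P M = m) :
    ∃ (ι : Type) (s : ι → M), IsTranscendenceBasis P s ∧ Cardinal.mk ι = m := by
  obtain ⟨ι, s, hs⟩ := exists_isTranscendenceBasis' P M
  exact ⟨ι, s, hs, by rw [hs.cardinalMk_eq_trdeg, hM]⟩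

/-- J2 -/
theorem joint_of_trdeg (f : M →ₐ[P] Ω) (g : N →ₐ[P] Ω)
    (hgen : IntermediateField.adjoin P (Set.range f ∪ Set.range g) = ⊤) (m n : ℕ)
    (hM : Algebra.trdeg P M = m) (hN : Algebra.trdeg P N = n)
    (hΩ : Algebra.trdeg P Ω = (m + n : ℕ)) : Joint f g := by
  refine ⟨?_, hgen⟩
  obtain ⟨ι, s, hs, hι⟩ := basis_exists (P := P) m hM
  obtain ⟨κ, t, ht, hκ⟩ := basis_exists (P := P) n hN
  haveI : Finite ι := Cardinal.mk_lt_aleph0_iff.1 (hι ▸ Cardinal.natCast_lt_aleph0)
  haveI : Finite κ := Cardinal.mk_lt_aleph0_iff.1 (hκ ▸ Cardinal.natCast_lt_aleph0)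
  haveI := alg_Ω f g hgen hs ht
  have hz : IsTranscendenceBasis P (zz Ω f g s t) := by
    refine Algebra.IsAlgebraic.isTranscendenceBasis_of_le_trdeg_of_finite P _ ?_
    rw [Cardinal.mk_sum, Cardinal.lift_id, Cardinal.lift_id, hι, hκ, hΩ]
    push_cast
    rw [add_comm]
  haveI := alg_T hs ht
  set φ : M ⊗[P] N →ₐ[P] Ω := Algebra.TensorProduct.lift f g fun _ _ => Commute.all _ _ with hφ
  set zT := zz (M ⊗[P] N) (Algebra.TensorProduct.includeLeft : M →ₐ[P] M ⊗[P] N)
      (Algebra.TensorProduct.includeRight : N →ₐ[P] M ⊗[P] N) s t with hzT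
  have hφz : (φ : M ⊗[P] N → Ω) ∘ zT = zz Ω f g s t := by
    funext i
    exact lift_zz f g s t i
  rw [injective_iff_map_eq_zero]
  intro x hx
  by_contra hx0
  obtain ⟨r, hr0, c, hc⟩ := (Algebra.IsAlgebraic.isAlgebraic
    (R := Algebra.adjoin P (range zT)) x).exists_nonzero_dvd (mem_nonZeroDivisors_of_ne_zero hx0)
  apply hr0
  obtain ⟨r, hr⟩ := r
  have hr' := hr
  rw [Algebra.adjoin_range_eq_range_aeval] at hr'
  obtain ⟨p, hp⟩ := hr'
  have h1 : φ r = 0 := by
    have : r = x * c := hc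
    rw [this, map_mul, hx, zero_mul]
  have h2 : MvPolynomial.aeval (zz Ω f g s t) p = 0 := by
    rw [← hφz]
    have h3 := MvPolynomial.map_aeval zT φ.toRingHom p
    have h4 : φ (MvPolynomial.aeval zT p) = 0 := by
      have : (MvPolynomial.aeval zT p : M ⊗[P] N) = r := hp
      rw [this, h1]
    rw [← h4]
    exact (MvPolynomial.comp_aeval_apply zT φ p).symm
  have h5 : p = 0 := (injective_iff_map_eq_zero _).1 hz.1 p h2
  have h6 : r = 0 := by
    have : (MvPolynomial.aeval zT p : M ⊗[P] N) = r := hp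
    rw [← this, h5, map_zero]
  exact Subtype.ext h6

omit [IsAlgClosed P] in
private lemma indep_right {κ : Type} {t : κ → N} (ht : AlgebraicIndependent P t) :
    AlgebraicIndependent M (fun j => ((1 : M) ⊗ₜ[P] t j : M ⊗[P] N)) := by
  set e := MvPolynomial.algebraTensorAlgEquiv (σ := κ) P M with he
  have key : (MvPolynomial.aeval (fun j => ((1 : M) ⊗ₜ[P] t j : M ⊗[P] N)) :
      MvPolynomial κ M →ₐ[M] M ⊗[P] N).comp e.toAlgHom =
      Algebra.TensorProduct.map (AlgHom.id M M) (MvPolynomial.aeval t) := by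
    apply Algebra.TensorProduct.ext
    · ext
    · apply MvPolynomial.algHom_ext
      intro j
      simp [he]
  rw [AlgebraicIndependent, injective_iff_map_eq_zero]
  intro q hq
  obtain ⟨r, rfl⟩ := e.surjective q
  have h1 : Algebra.TensorProduct.map (AlgHom.id M M) (MvPolynomial.aeval t) r = 0 := by
    rw [← key]
    exact hq
  have hinj : Function.Injective (LinearMap.lTensor M
      (MvPolynomial.aeval t : MvPolynomial κ P →ₐ[P] N).toLinearMap) :=
    Module.Flat.lTensor_preserves_injective_linearMap _ ht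
  have h2 : LinearMap.lTensor M
      (MvPolynomial.aeval t : MvPolynomial κ P →ₐ[P] N).toLinearMap r = 0 := h1
  have h3 : r = 0 := (injective_iff_map_eq_zero _).1 hinj r h2
  rw [h3, map_zero]

/-- J3 -/
theorem joint_trdeg (f : M →ₐ[P] Ω) (g : N →ₐ[P] Ω) (h : Joint f g) (m n : ℕ)
    (hM : Algebra.trdeg P M = m) (hN : Algebra.trdeg P N = n) :
    Algebra.trdeg P Ω = (m + n : ℕ) := by
  obtain ⟨ι, s, hs, hι⟩ := basis_exists (P := P) m hM
  obtain ⟨κ, t, ht, hκ⟩ := basis_exists (P := P) n hN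
  haveI := alg_Ω f g h.gen hs ht
  have hT : AlgebraicIndependent P (Sum.elim (fun j => ((1 : M) ⊗ₜ[P] t j : M ⊗[P] N))
      (algebraMap M (M ⊗[P] N) ∘ s)) := hs.1.sumElim_comp (indep_right ht.1)
  set φ : M ⊗[P] N →ₐ[P] Ω := Algebra.TensorProduct.lift f g fun _ _ => Commute.all _ _ with hφ
  have hΩ : AlgebraicIndependent P (zz Ω f g s t) := by
    have h1 := hT.map' (f := φ) h.inj
    have h2 : (φ : M ⊗[P] N → Ω) ∘ (Sum.elim (fun j => ((1 : M) ⊗ₜ[P] t j : M ⊗[P] N))
      (algebraMap M (M ⊗[P] N) ∘ s)) = zz Ω f g s t := by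
      funext i
      rcases i with i | i <;> simp [zz, hφ]
    rwa [h2] at h1
  have hB : IsTranscendenceBasis P (zz Ω f g s t) :=
    hΩ.isTranscendenceBasis_iff_isAlgebraic.2 ‹_›
  rw [← hB.cardinalMk_eq_trdeg, Cardinal.mk_sum, Cardinal.lift_id, Cardinal.lift_id, hι, hκ]
  push_cast
  rw [add_comm]

end tens

end Pool.Agent.VM.J2p
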