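import Pool.Agent.Lib_VM.StubsVI_h71
import Pool.Agent.Lib_helper67.VM.PtF
import Pool.Agent.Lib_VM.A_BC
import Pool.Agent.Lib_VM.A_GEN3
import Pool.Agent.Lib_VM.A_inter_eq
import Pool.Agent.Lib_VM.A_joint_J
import Pool.Agent.Lib_VM.A_joint_of_trdeg
import Pool.Agent.Lib_VM.A_joint_trdeg

/-!
# MP_5582d1_ag: block KER of part VI
-/

set_option autoImplicit false
set_option linter.style.haveILetI false

namespace Pool.Agent.VM.KERp

open scoped Classical TensorProduct

attribute [-instance] Subtype.instDecidableEq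

/-! ### Points with coordinates in an intermediate field -/

section pts
variable {R P Ω : Type} [CommRing R] [Field P] [Field Ω] [Algebra R P] [Algebra P Ω] [Algebra R Ω]
  [IsScalarTower R P Ω] {W : WeierstrassCurve R}

private theorem cs_mp {F : Type} [Field F] [Algebra P F] [Algebra R F] [IsScalarTower R P F]
    (f : F →ₐ[P] Ω) (p : Pt W F) : cs (mp (W := W) f p) = f '' cs p := by
  rcases p with _ | ⟨x, y, h⟩
  · show ({0, 0} : Set Ω) = f '' {0, 0}
    simp
  · show ({f x, f y} : Set Ω) = f '' {x, y}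
    rw [Set.image_pair]

private theorem cs_lift (F : IntermediateField P Ω) (p : Pt W Ω) (h : cs p ⊆ F) :
    ∃ q : Pt W F, mp (W := W) F.val q = p := by
  rcases p with _ | ⟨x, y, hxy⟩
  · exact ⟨0, rfl⟩
  · have hx : x ∈ F := h (Set.mem_insert _ _)
    have hy : y ∈ F := h (Set.mem_insert_of_mem _ rfl)
    have h2 := (WeierstrassCurve.Affine.baseChange_nonsingular W (f := F.val)
      F.val.injective (⟨x, hx⟩ : F) (⟨y, hy⟩ : F)).mp hxy
    exact ⟨WeierstrassCurve.Affine.Point.some _ _ h2, rfl⟩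

/-- the points with coordinates in `F` -/
private noncomputable def sg (W : WeierstrassCurve R) (F : IntermediateField P Ω) :
    AddSubgroup (Pt W Ω) := (mp (W := W) F.val).range

private theorem mem_sg (F : IntermediateField P Ω) (p : Pt W Ω) : p ∈ sg W F ↔ cs p ⊆ F := by
  constructor
  · rintro ⟨q, rfl⟩
    rw [cs_mp]
    rintro _ ⟨z, -, rfl⟩
    exact z.2
  · intro h
    exact cs_lift F p h

private theorem comb_mem (F : IntermediateField P Ω) (a : Fin 3 → ℤ) (p : Fin 3 → Pt W Ω)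
    (h : ∀ i, p i ∈ sg W F) : comb a p ∈ sg W F :=
  AddSubgroup.sum_mem _ fun i _ => AddSubgroup.zsmul_mem _ (h i) _

end pts

/-! ### Integer matrices -/

section mat
variable {R F : Type} [CommRing R] [Field F] [Algebra R F] {W : WeierstrassCurve R}

private theorem comb_comb (C D : Matrix (Fin 3) (Fin 3) ℤ) (t : Fin 3 → Pt W F) (i : Fin 3) :
    comb (C i) (fun j => comb (D j) t) = comb ((C * D) i) t := by
  unfold comb
  simp only [Finset.smul_sum, Matrix.mul_apply, Finset.sum_smul, mul_smul]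
  rw [Finset.sum_comm]

private theorem comb_one (t : Fin 3 → Pt W F) (i : Fin 3) :
    comb ((1 : Matrix (Fin 3) (Fin 3) ℤ) i) t = t i := by
  unfold comb
  simp [Matrix.one_apply, ite_smul]

private theorem comb_sub (a : Fin 3 → ℤ) (s t : Fin 3 → Pt W F) :
    comb a (fun j => s j - t j) = comb a s - comb a t := by
  unfold comb
  simp only [smul_sub, Finset.sum_sub_distrib]

private theorem comb_mp {P K : Type} [Field P] [Field K] [Algebra R P] [Algebra P F] [Algebra P K]
    [Algebra R K] [IsScalarTower R P F] [IsScalarTower R P K] (f : F →ₐ[P] K) (a : Fin 3 → ℤ)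
    (t : Fin 3 → Pt W F) : mp (W := W) f (comb a t) = comb a (fun j => mp (W := W) f (t j)) := by
  unfold comb
  rw [map_sum]
  simp only [map_zsmul]

end mat

private theorem dg_congr {P M : Type} [Field P] [Field M] [Algebra P M] {S T : Set M}
    (h : IntermediateField.adjoin P S = IntermediateField.adjoin P T) : dg P S = dg P T := by
  unfold dg
  rw [h]


/-! ### Transcendence degrees -/

section trd
variable {P Ω : Type} [Field P] [Field Ω] [Algebra P Ω]

open scoped IntermediateField.algebraAdjoinAdjoin in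
private theorem alg_of_gen (S T : Set Ω) (hT : IntermediateField.adjoin P T = ⊤)
    (h : ∀ x ∈ T, IsAlgebraic (IntermediateField.adjoin P S) x) :
    Algebra.IsAlgebraic (Algebra.adjoin P S) Ω := by
  have h1 : ∀ x : Ω, IsAlgebraic (IntermediateField.adjoin P S) x := by
    have h2 : (⊤ : IntermediateField P Ω) ≤
        (algebraicClosure (IntermediateField.adjoin P S) Ω).restrictScalars P := by
      rw [← hT, IntermediateField.adjoin_le_iff]
      intro x hx
      exact mem_algebraicClosure_iff.2 (h x hx)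
    intro x
    exact mem_algebraicClosure_iff.1 (h2 (IntermediateField.mem_top (x := x)))
  exact ⟨fun x => (IsFractionRing.isAlgebraic_iff (Algebra.adjoin P S)
    (IntermediateField.adjoin P S) Ω).2 (h1 x)⟩

private theorem trd_le (S T : Set Ω) (hT : IntermediateField.adjoin P T = ⊤)
    (h : ∀ x ∈ T, IsAlgebraic (IntermediateField.adjoin P S) x) :
    Algebra.trdeg P Ω ≤ Cardinal.mk S := by
  have := alg_of_gen S T hT h
  exact Algebra.IsAlgebraic.trdeg_le_cardinalMk P S

private theorem alg_map {M : Type} [Field M] [Algebra P M] (f : M →ₐ[P] Ω) (b : Set M)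
    [Algebra.IsAlgebraic (Algebra.adjoin P b) M] (F : IntermediateField P Ω) (hF : f '' b ⊆ F)
    (m : M) : IsAlgebraic F (f m) := by
  have hle : ∀ x : Algebra.adjoin P b, f x ∈ F := by
    intro x
    have : Algebra.adjoin P b ≤ F.toSubalgebra.comap f := by
      rw [Algebra.adjoin_le_iff]
      intro y hy
      exact hF ⟨y, hy, rfl⟩
    exact this x.2
  let f₀ : Algebra.adjoin P b →ₐ[P] F.toSubalgebra :=
    (f.comp (Algebra.adjoin P b).val).codRestrict F.toSubalgebra hle
  have h1 : IsAlgebraic (Algebra.adjoin P b) m := Algebra.IsAlgebraic.isAlgebraic m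
  refine IsAlgebraic.ringHom_of_comp_eq (S := F) (f₀ : Algebra.adjoin P b →+* F)
    (f : M →+* Ω) h1 ?_ ?_
  · intro x y hxy
    apply Subtype.ext
    apply f.injective
    exact congrArg (fun z : F => (z : Ω)) hxy
  · ext x
    rfl

private theorem trd_add {M N : Type} [Field M] [Field N] [Algebra P M] [Algebra P N]
    (f : M →ₐ[P] Ω) (g : N →ₐ[P] Ω)
    (hgen : IntermediateField.adjoin P (Set.range f ∪ Set.range g) = ⊤) :
    Algebra.trdeg P Ω ≤ Algebra.trdeg P M + Algebra.trdeg P N := by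
  obtain ⟨b, hb⟩ := exists_isTranscendenceBasis P M
  obtain ⟨b', hb'⟩ := exists_isTranscendenceBasis P N
  have h1 := hb.isAlgebraic
  have h2 := hb'.isAlgebraic
  rw [Subtype.range_coe] at h1 h2
  rw [← hb.cardinalMk_eq_trdeg, ← hb'.cardinalMk_eq_trdeg]
  refine (trd_le (f '' b ∪ g '' b') _ hgen ?_).trans
    ((Cardinal.mk_union_le _ _).trans (add_le_add Cardinal.mk_image_le Cardinal.mk_image_le))
  rintro x (⟨m, rfl⟩ | ⟨m, rfl⟩)
  · exact alg_map f b _ (Set.subset_union_left.trans (IntermediateField.subset_adjoin _ _)) m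
  · exact alg_map g b' _ (Set.subset_union_right.trans (IntermediateField.subset_adjoin _ _)) m

private theorem yc_alg {R : Type} [CommRing R] [Algebra R P] [Algebra R Ω] [IsScalarTower R P Ω]
    (a b : R) (F : IntermediateField P Ω) (p : Pt (SW a b) Ω) (h : xc p ∈ F) :
    IsAlgebraic F (yc p) := by
  by_cases hp : p = 0
  · rw [hp]
    exact isAlgebraic_zero
  · apply IsAlgebraic.of_pow (n := 2) (by norm_num)
    rw [ptf_sq hp]
    have h1 : ∀ r : R, algebraMap R Ω r ∈ F := by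
      intro r
      rw [IsScalarTower.algebraMap_apply R P Ω]
      exact F.algebraMap_mem _
    have h2 : xc p ^ 3 + algebraMap R Ω a * xc p ^ 2 + algebraMap R Ω b ∈ F :=
      F.add_mem (F.add_mem (pow_mem h 3) (F.mul_mem (h1 a) (pow_mem h 2))) (h1 b)
    exact isAlgebraic_algebraMap (A := Ω) (⟨_, h2⟩ : F)

end trd


/-- a field generated by three points has transcendence degree at most 3 -/
private theorem trd_three {P Ω : Type} [Field P] [Field Ω] [Algebra P Ω] {l : P}
    (p q : Pt (E1 l) Ω) (r : Pt E2 Ω) :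
    Algebra.trdeg P (IntermediateField.adjoin P (cs p ∪ cs q ∪ cs r)) ≤ 3 := by
  set N := IntermediateField.adjoin P (cs p ∪ cs q ∪ cs r) with hN
  have hsub := IntermediateField.subset_adjoin P (cs p ∪ cs q ∪ cs r)
  obtain ⟨p₁, hp₁⟩ := cs_lift N p (((Set.subset_union_left).trans Set.subset_union_left).trans hsub)
  obtain ⟨q₁, hq₁⟩ := cs_lift N q (((Set.subset_union_right).trans Set.subset_union_left).trans hsub)
  obtain ⟨r₁, hr₁⟩ := cs_lift N r ((Set.subset_union_right).trans hsub)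
  have hT : IntermediateField.adjoin P (cs p₁ ∪ cs q₁ ∪ cs r₁) = ⊤ := by
    apply IntermediateField.map_injective N.val
    rw [IntermediateField.adjoin_map, Set.image_union, Set.image_union, ← cs_mp, ← cs_mp, ← cs_mp,
      hp₁, hq₁, hr₁, ← AlgHom.fieldRange_eq_map, IntermediateField.fieldRange_val]
  let x : Fin 3 → N := ![xc p₁, xc q₁, xc r₁]
  have hx : ∀ i, x i ∈ IntermediateField.adjoin P (Set.range x) := fun i =>
    IntermediateField.subset_adjoin _ _ ⟨i, rfl⟩
  refine (trd_le (Set.range x) _ hT ?_).trans (Cardinal.mk_range_le.trans (by simp))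
  have key : ∀ z ∈ IntermediateField.adjoin P (Set.range x),
      IsAlgebraic (IntermediateField.adjoin P (Set.range x)) z := fun z hz =>
    isAlgebraic_algebraMap (A := N) (⟨z, hz⟩ : IntermediateField.adjoin P (Set.range x))
  rintro z ((hz | hz) | hz)
  · rcases hz with rfl | rfl
    · exact key _ (hx 0)
    · exact yc_alg 1 l _ p₁ (hx 0)
  · rcases hz with rfl | rfl
    · exact key _ (hx 1)
    · exact yc_alg 1 l _ q₁ (hx 1)
  · rcases hz with rfl | rfl
    · exact key _ (hx 2)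
    · exact yc_alg 0 1 _ r₁ (hx 2)


/-- the statement for any model of the function field of the product -/
private theorem core {l : ℂ} {M N Ω : Type} [Field M] [Field N] [Field Ω] [Algebra ℂ M]
    [Algebra ℂ N] [Algebra ℂ Ω] (f : M →ₐ[ℂ] Ω) (g : N →ₐ[ℂ] Ω) (hJ : Joint f g)
    (hM3 : Algebra.trdeg ℂ M = ((3 : ℕ) : Cardinal)) (hN3 : Algebra.trdeg ℂ N = ((3 : ℕ) : Cardinal))
    (z : Fin 3 → Pt (E1 l) M) (w : Fin 3 → Pt E2 M) (p q : Pt (E1 l) N) (r : Pt E2 N)
    (hgen : IntermediateField.adjoin ℂ (cs p ∪ cs q ∪ cs r) = ⊤)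
    (zK : Fin 3 → Pt (E1 l) N) (wK : Fin 3 → Pt E2 N) (A A' B B' : Fin 3 → Fin 3 → ℤ)
    (hA : ∀ (t : Fin 3 → Pt (E1 l) Ω) (j : Fin 3), comb (A' j) (fun i => comb (A i) t) = t j)
    (hB : ∀ (t : Fin 3 → Pt E2 Ω) (j : Fin 3), comb (B' j) (fun i => comb (B i) t) = t j)
    (hz0 : comb (A 0) zK = 0) (hz1 : comb (A 1) zK = p) (hz2 : comb (A 2) zK = q)
    (hw0 : comb (B 0) wK = 0) (hw1 : comb (B 1) wK = 0) (hw2 : comb (B 2) wK = r) :
    dg ℂ ((⋃ j, cs (mp f (z j) - mp g (zK j))) ∪ ⋃ j, cs (mp f (w j) - mp g (wK j))) =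
      dg ℂ (cs (comb (A 0) z) ∪ cs (comb (B 0) w) ∪ cs (comb (B 1) w)) := by
  -- the generic point of the difference
  obtain ⟨t, htdef⟩ : ∃ t : Fin 3 → Pt (E1 l) Ω, t = fun j => mp f (z j) - mp g (zK j) := ⟨_, rfl⟩
  obtain ⟨s, hsdef⟩ : ∃ s : Fin 3 → Pt E2 Ω, s = fun j => mp f (w j) - mp g (wK j) := ⟨_, rfl⟩
  have ht : ∀ i, comb (A i) t = mp f (comb (A i) z) - mp g (comb (A i) zK) := by
    intro i
    rw [htdef, comb_sub, ← comb_mp, ← comb_mp]
  have hs : ∀ i, comb (B i) s = mp f (comb (B i) w) - mp g (comb (B i) wK) := by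
    intro i
    rw [hsdef, comb_sub, ← comb_mp, ← comb_mp]
  have ht0 : comb (A 0) t = mp f (comb (A 0) z) := by
    rw [ht 0, hz0, map_zero, sub_zero]
  have hs0 : comb (B 0) s = mp f (comb (B 0) w) := by
    rw [hs 0, hw0, map_zero, sub_zero]
  have hs1 : comb (B 1) s = mp f (comb (B 1) w) := by
    rw [hs 1, hw1, map_zero, sub_zero]
  have hp : mp g p = mp f (comb (A 1) z) - comb (A 1) t := by
    rw [ht 1, hz1, sub_sub_cancel]
  have hq : mp g q = mp f (comb (A 2) z) - comb (A 2) t := by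
    rw [ht 2, hz2, sub_sub_cancel]
  have hr : mp g r = mp f (comb (B 2) w) - comb (B 2) s := by
    rw [hs 2, hw2, sub_sub_cancel]
  have ht' := hA t
  have hs' := hB s
  have e1 : (⋃ j, cs (mp f (z j) - mp g (zK j))) = ⋃ j, cs (t j) := by rw [htdef]
  have e2 : (⋃ j, cs (mp f (w j) - mp g (wK j))) = ⋃ j, cs (s j) := by rw [hsdef]
  rw [e1, e2]
  obtain ⟨p', hp'⟩ : ∃ p', p' = comb (A 1) t := ⟨_, rfl⟩
  obtain ⟨q', hq'⟩ : ∃ q', q' = comb (A 2) t := ⟨_, rfl⟩
  obtain ⟨r', hr'⟩ : ∃ r', r' = comb (B 2) s := ⟨_, rfl⟩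
  obtain ⟨S, hS⟩ : ∃ S, S = cs (comb (A 0) z) ∪ cs (comb (B 0) w) ∪ cs (comb (B 1) w) := ⟨_, rfl⟩
  obtain ⟨N', hN'⟩ : ∃ N', N' = IntermediateField.adjoin ℂ (cs p' ∪ cs q' ∪ cs r') := ⟨_, rfl⟩
  have hN'sub : cs p' ∪ cs q' ∪ cs r' ⊆ N' := by
    rw [hN']
    exact IntermediateField.subset_adjoin _ _
  have hfS : f '' S = cs (comb (A 0) t) ∪ cs (comb (B 0) s) ∪ cs (comb (B 1) s) := by
    rw [hS, Set.image_union, Set.image_union, ht0, hs0, hs1, cs_mp, cs_mp, cs_mp]
  have hrange : Set.range N'.val = (N' : Set Ω) := Subtype.range_coe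
  -- the field generated by the coordinates
  have hadj : IntermediateField.adjoin ℂ ((⋃ j, cs (t j)) ∪ ⋃ j, cs (s j)) =
      IntermediateField.adjoin ℂ (f '' S ∪ Set.range N'.val) := by
    apply le_antisymm
    · rw [IntermediateField.adjoin_le_iff]
      have hsub := IntermediateField.subset_adjoin ℂ (f '' S ∪ Set.range N'.val)
      generalize IntermediateField.adjoin ℂ (f '' S ∪ Set.range N'.val) = F at hsub ⊢
      have hN : (N' : Set Ω) ⊆ F := by
        rw [← hrange]
        exact Set.subset_union_right.trans hsub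
      have h1 : f '' S ⊆ F := Set.subset_union_left.trans hsub
      rw [hfS] at h1
      have h2 := hN'sub.trans hN
      rw [hp', hq', hr'] at h2
      have hta : ∀ i, comb (A i) t ∈ sg (E1 l) F := by
        intro i
        rw [mem_sg]
        fin_cases i
        · exact (Set.subset_union_left.trans Set.subset_union_left).trans h1
        · exact (Set.subset_union_left.trans Set.subset_union_left).trans h2
        · exact (Set.subset_union_right.trans Set.subset_union_left).trans h2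
      have hsa : ∀ i, comb (B i) s ∈ sg E2 F := by
        intro i
        rw [mem_sg]
        fin_cases i
        · exact (Set.subset_union_right.trans Set.subset_union_left).trans h1
        · exact Set.subset_union_right.trans h1
        · exact Set.subset_union_right.trans h2
      refine Set.union_subset (Set.iUnion_subset fun j => ?_) (Set.iUnion_subset fun j => ?_)
      · rw [← mem_sg, ← ht' j]
        exact comb_mem F _ _ hta
      · rw [← mem_sg, ← hs' j]
        exact comb_mem F _ _ hsa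
    · rw [IntermediateField.adjoin_le_iff]
      have hsub := IntermediateField.subset_adjoin ℂ ((⋃ j, cs (t j)) ∪ ⋃ j, cs (s j))
      generalize IntermediateField.adjoin ℂ ((⋃ j, cs (t j)) ∪ ⋃ j, cs (s j)) = F at hsub ⊢
      have hta : ∀ j, t j ∈ sg (E1 l) F := fun j => (mem_sg F _).2
        ((Set.subset_iUnion (fun i => cs (t i)) j).trans (Set.subset_union_left.trans hsub))
      have hsa : ∀ j, s j ∈ sg E2 F := fun j => (mem_sg F _).2
        ((Set.subset_iUnion (fun i => cs (s i)) j).trans (Set.subset_union_right.trans hsub))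
      have hta' : ∀ i, cs (comb (A i) t) ⊆ F := fun i => (mem_sg F _).1 (comb_mem F _ _ hta)
      have hsa' : ∀ i, cs (comb (B i) s) ⊆ F := fun i => (mem_sg F _).1 (comb_mem F _ _ hsa)
      refine Set.union_subset ?_ ?_
      · rw [hfS]
        exact Set.union_subset (Set.union_subset (hta' 0) (hsa' 0)) (hsa' 1)
      · rw [hrange]
        have : N' ≤ F := by
          rw [hN', IntermediateField.adjoin_le_iff, hp', hq', hr']
          exact Set.union_subset (Set.union_subset (hta' 1) (hta' 2)) (hsa' 2)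
        exact this
  -- `M` and `N'` are again a product
  have hgen' : IntermediateField.adjoin ℂ (Set.range f ∪ Set.range N'.val) = ⊤ := by
    rw [← top_le_iff, ← hJ.gen, IntermediateField.adjoin_le_iff]
    have hsub := IntermediateField.subset_adjoin ℂ (Set.range f ∪ Set.range N'.val)
    generalize IntermediateField.adjoin ℂ (Set.range f ∪ Set.range N'.val) = F at hsub ⊢
    have hN : (N' : Set Ω) ⊆ F := by
      rw [← hrange]
      exact Set.subset_union_right.trans hsub
    have hfF : Set.range f ⊆ F := Set.subset_union_left.trans hsub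
    refine Set.union_subset hfF ?_
    have hfz : ∀ x : Pt (E1 l) M, mp f x ∈ sg (E1 l) F := by
      intro x
      rw [mem_sg, cs_mp]
      exact (Set.image_subset_range _ _).trans hfF
    have hfw : ∀ x : Pt E2 M, mp f x ∈ sg E2 F := by
      intro x
      rw [mem_sg, cs_mp]
      exact (Set.image_subset_range _ _).trans hfF
    have h2 := hN'sub.trans hN
    rw [hp', hq', hr'] at h2
    have hp2 : mp g p ∈ sg (E1 l) F := by
      rw [hp]
      exact AddSubgroup.sub_mem _ (hfz _) ((mem_sg F _).2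
        ((Set.subset_union_left.trans Set.subset_union_left).trans h2))
    have hq2 : mp g q ∈ sg (E1 l) F := by
      rw [hq]
      exact AddSubgroup.sub_mem _ (hfz _) ((mem_sg F _).2
        ((Set.subset_union_right.trans Set.subset_union_left).trans h2))
    have hr2 : mp g r ∈ sg E2 F := by
      rw [hr]
      exact AddSubgroup.sub_mem _ (hfw _) ((mem_sg F _).2 (Set.subset_union_right.trans h2))
    rw [mem_sg, cs_mp] at hp2 hq2 hr2
    have h4 : (⊤ : IntermediateField ℂ N) ≤ F.comap g := by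
      rw [← hgen, IntermediateField.adjoin_le_iff]
      rintro x ((hx | hx) | hx)
      · exact hp2 ⟨x, hx, rfl⟩
      · exact hq2 ⟨x, hx, rfl⟩
      · exact hr2 ⟨x, hx, rfl⟩
    rintro _ ⟨x, rfl⟩
    exact h4 (IntermediateField.mem_top (x := x))
  have htrΩ : Algebra.trdeg ℂ Ω = ((3 + 3 : ℕ) : Cardinal) := joint_trdeg f g hJ 3 3 hM3 hN3
  have htrN : Algebra.trdeg ℂ N' = ((3 : ℕ) : Cardinal) := by
    apply le_antisymm
    · rw [hN']
      exact trd_three p' q' r'
    · have h1 := trd_add f N'.val hgen'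
      rw [htrΩ, hM3] at h1
      by_contra h2
      rw [not_le] at h2
      obtain ⟨n, hn⟩ := Cardinal.lt_aleph0.1 (h2.trans (Cardinal.natCast_lt_aleph0))
      rw [hn] at h1 h2
      have h3 : 3 + 3 ≤ 3 + n := by exact_mod_cast h1
      have h4 : n < 3 := by exact_mod_cast h2
      omega
  have hJ' : Joint f N'.val := joint_of_trdeg f N'.val hgen' 3 3 hM3 htrN htrΩ
  have hBC := BC f N'.val hJ' S
  rw [← hS, ← hBC]
  exact dg_congr hadj

private theorem xcs {l : ℂ} {M N Ω : Type} [Field M] [Field N] [Field Ω] [Algebra ℂ M]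
    [Algebra ℂ N] [Algebra ℂ Ω] (f : M →ₐ[ℂ] Ω) (g : N →ₐ[ℂ] Ω) (ξ : XPt l M) (η : XPt l N) :
    (ξ.map f - η.map g : XPt l Ω).cs =
      (⋃ j, cs (mp f (ξ.1 j) - mp g (η.1 j))) ∪ ⋃ j, cs (mp f (ξ.2 j) - mp g (η.2 j)) := rfl

private theorem core' {l : ℂ} (K : SubVar l) (p q : Pt (E1 l) K.M) (r : Pt E2 K.M)
    (hgen : IntermediateField.adjoin ℂ (cs p ∪ cs q ∪ cs r) = ⊤)
    (A A' B B' : Fin 3 → Fin 3 → ℤ) (Z : SubVar l)
    (hA : ∀ (Ω : Type) [Field Ω] [Algebra ℂ Ω] (t : Fin 3 → Pt (E1 l) Ω) (j : Fin 3),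
      comb (A' j) (fun i => comb (A i) t) = t j)
    (hB : ∀ (Ω : Type) [Field Ω] [Algebra ℂ Ω] (t : Fin 3 → Pt E2 Ω) (j : Fin 3),
      comb (B' j) (fun i => comb (B i) t) = t j)
    (hz0 : comb (A 0) K.z = 0) (hz1 : comb (A 1) K.z = p) (hz2 : comb (A 2) K.z = q)
    (hw0 : comb (B 0) K.w = 0) (hw1 : comb (B 1) K.w = 0) (hw2 : comb (B 2) K.w = r) :
    inter Z K = Z.G (A 0) (B 0) (B 1) := by
  obtain ⟨Ω, _, _, f, g, hJ⟩ : ∃ (Ω : Type) (_ : Field Ω) (_ : Algebra ℂ Ω) (f : Z.M →ₐ[ℂ] Ω)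
      (g : K.M →ₐ[ℂ] Ω), Joint f g := ⟨Z.J K, _, _, Z.inl K, Z.inr K, joint_J Z K⟩
  have key := core f g hJ Z.dim3 K.dim3 Z.z Z.w p q r hgen K.z K.w
    A A' B B' (hA _) (hB _) hz0 hz1 hz2 hw0 hw1 hw2
  rw [inter_eq Z K f g hJ, xcs]
  exact key

/-- KER: `K = {a·z = 0, m·w = m'·w = 0}`, `a`, `m`, `m'` rows of the unimodular `A`, `B`:
generic point `z = A⁻¹ (0, p, q)`, `w = B⁻¹ (0, 0, r)`. In `Frac (M_Z ⊗ M_K)` the points
`(A ζ)₂ - p`, `(A ζ)₃ - q`, `(B θ)₃ - r` generate a field `N'`, and `M_Z`, `N'` are again a product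
(J2), then BC. -/
theorem KER (l : ℂ) (A B : Matrix (Fin 3) (Fin 3) ℤ) (hA : IsUnit A.det) (hB : IsUnit B.det) :
    ∃ K : SubVar l, ∀ Z : SubVar l, inter Z K = Z.G (A 0) (B 0) (B 1) := by
  obtain ⟨M, _, _, p, q, r, -, -, -, -, hgen, htr⟩ := GEN3 l
  have hA1 : A * A⁻¹ = 1 := Matrix.mul_nonsing_inv A hA
  have hA2 : A⁻¹ * A = 1 := Matrix.nonsing_inv_mul A hA
  have hB1 : B * B⁻¹ = 1 := Matrix.mul_nonsing_inv B hB
  have hB2 : B⁻¹ * B = 1 := Matrix.nonsing_inv_mul B hB
  obtain ⟨zK, hzdef⟩ : ∃ zK : Fin 3 → Pt (E1 l) M, zK = fun j => comb (A⁻¹ j) ![0, p, q] :=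
    ⟨_, rfl⟩
  obtain ⟨wK, hwdef⟩ : ∃ wK : Fin 3 → Pt E2 M, wK = fun j => comb (B⁻¹ j) ![0, 0, r] := ⟨_, rfl⟩
  have hzK : ∀ i, comb (A i) zK = (![0, p, q] : Fin 3 → Pt (E1 l) M) i := by
    intro i
    rw [hzdef, comb_comb, hA1, comb_one]
  have hwK : ∀ i, comb (B i) wK = (![0, 0, r] : Fin 3 → Pt E2 M) i := by
    intro i
    rw [hwdef, comb_comb, hB1, comb_one]
  have hz0 : comb (A 0) zK = 0 := hzK 0
  have hz1 : comb (A 1) zK = p := hzK 1
  have hz2 : comb (A 2) zK = q := hzK 2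
  have hw0 : comb (B 0) wK = 0 := hwK 0
  have hw1 : comb (B 1) wK = 0 := hwK 1
  have hw2 : comb (B 2) wK = r := hwK 2
  have hgenK : IntermediateField.adjoin ℂ ((⋃ i, cs (zK i)) ∪ ⋃ i, cs (wK i)) = ⊤ := by
    rw [← top_le_iff, ← hgen, IntermediateField.adjoin_le_iff]
    have hsub := IntermediateField.subset_adjoin ℂ ((⋃ i, cs (zK i)) ∪ ⋃ i, cs (wK i))
    generalize IntermediateField.adjoin ℂ ((⋃ i, cs (zK i)) ∪ ⋃ i, cs (wK i)) = F at hsub ⊢
    have hz : ∀ i, zK i ∈ sg (E1 l) F := fun i => (mem_sg F _).2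
      ((Set.subset_iUnion (fun i => cs (zK i)) i).trans (Set.subset_union_left.trans hsub))
    have hw : ∀ i, wK i ∈ sg E2 F := fun i => (mem_sg F _).2
      ((Set.subset_iUnion (fun i => cs (wK i)) i).trans (Set.subset_union_right.trans hsub))
    have h1 := (mem_sg F _).1 (comb_mem F (A 1) zK hz)
    have h2 := (mem_sg F _).1 (comb_mem F (A 2) zK hz)
    have h3 := (mem_sg F _).1 (comb_mem F (B 2) wK hw)
    rw [hz1] at h1
    rw [hz2] at h2
    rw [hw2] at h3
    exact Set.union_subset (Set.union_subset h1 h2) h3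
  refine ⟨{ M := M, z := zK, w := wK, gen := hgenK, dim3 := htr }, fun Z => ?_⟩
  have hA3 : ∀ (Ω : Type) [Field Ω] [Algebra ℂ Ω] (t : Fin 3 → Pt (E1 l) Ω) (j : Fin 3),
      comb ((A⁻¹ : Matrix (Fin 3) (Fin 3) ℤ) j) (fun i => comb (A i) t) = t j := by
    intro Ω _ _ t j
    rw [comb_comb, hA2, comb_one]
  have hB3 : ∀ (Ω : Type) [Field Ω] [Algebra ℂ Ω] (t : Fin 3 → Pt E2 Ω) (j : Fin 3),
      comb ((B⁻¹ : Matrix (Fin 3) (Fin 3) ℤ) j) (fun i => comb (B i) t) = t j := by
    intro Ω _ _ t j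
    rw [comb_comb, hB2, comb_one]
  exact core' { M := M, z := zK, w := wK, gen := hgenK, dim3 := htr } p q r hgen A
    (A⁻¹ : Matrix (Fin 3) (Fin 3) ℤ) B (B⁻¹ : Matrix (Fin 3) (Fin 3) ℤ) Z hA3 hB3
    hz0 hz1 hz2 hw0 hw1 hw2

end Pool.Agent.VM.KERp
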