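import Pool.Agent.Lib_helper85.VM.Defs2
import Pool.Agent.Lib_helper67.VM.PtF

/-!
# MP_5582d1_ag: blocks KB1, KK: valuations centred at a point of `E₂`, explicit formulas
-/

set_option autoImplicit false

namespace Pool.Agent.VM

open scoped Classical
open Polynomial

attribute [-instance] Subtype.instDecidableEq

/-! ### points of `E₂` -/

theorem kk_sq {F : Type*} [Field F] {p : Pt E2 F} (hp : p ≠ 0) : yc p ^ 2 = xc p ^ 3 + 1 := by
  have h := ptf_sq (a := (0 : ℤ)) (b := 1) (p := p) hp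
  simpa using h

theorem kk_ext {F : Type*} [Field F] {p q : Pt E2 F} (hp : p ≠ 0) (hq : q ≠ 0) (hx : xc p = xc q)
    (hy : yc p = yc q) : p = q := by
  rcases ptf_cases p with h | ⟨x, y, h, rfl⟩
  · exact absurd h hp
  rcases ptf_cases q with h' | ⟨x', y', h', rfl⟩
  · exact absurd h' hq
  change x = x' at hx
  change y = y' at hy
  subst hx; subst hy; rfl

theorem kk_mk {F : Type*} [Field F] (h3 : (3 : F) ≠ 0) (h2 : (2 : F) ≠ 0) (r s : F)
    (h : s ^ 2 = r ^ 3 + 1) : ∃ b : Pt E2 F, b ≠ 0 ∧ xc b = r ∧ yc b = s := by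
  have hn : (E2.baseChange F).toAffine.Nonsingular r s := by
    rw [WeierstrassCurve.Affine.nonsingular_iff']
    have a1 : (E2.baseChange F).toAffine.a₁ = 0 := ptf_a₁
    have a2 : (E2.baseChange F).toAffine.a₂ = 0 := by
      have := ptf_a₂ (a := (0 : ℤ)) (b := 1) (F := F); rwa [map_zero] at this
    have a3 : (E2.baseChange F).toAffine.a₃ = 0 := ptf_a₃
    have a4 : (E2.baseChange F).toAffine.a₄ = 0 := ptf_a₄
    have a6 : (E2.baseChange F).toAffine.a₆ = 1 := by
      have := ptf_a₆ (a := (0 : ℤ)) (b := 1) (F := F); rwa [map_one] at this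
    rw [WeierstrassCurve.Affine.equation_iff, a1, a2, a3, a4, a6]
    refine ⟨by linear_combination h, ?_⟩
    by_cases hs : s = 0
    · left
      have hr : r ≠ 0 := by
        intro hr
        rw [hs, hr] at h
        norm_num at h
      have : 3 * r ^ 2 ≠ 0 := mul_ne_zero h3 (pow_ne_zero 2 hr)
      intro h0
      apply this
      linear_combination -h0
    · right
      have : 2 * s ≠ 0 := mul_ne_zero h2 hs
      intro h0
      apply this
      linear_combination h0
  exact ⟨.some r s hn, WeierstrassCurve.Affine.Point.some_ne_zero hn, rfl, rfl⟩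

section KG

variable {Λ : Type} [Field Λ] {k : Subfield Λ} {e : Pt E2 Λ}

theorem kk_xc_inc (a : Pt E2 k) : xc (inc k a) = ((xc a : k) : Λ) := by
  rcases a with _ | ⟨x, y, h⟩
  · change xc (inc k 0) = _
    rw [map_zero]; rfl
  · rfl

theorem kk_yc_inc (a : Pt E2 k) : yc (inc k a) = ((yc a : k) : Λ) := by
  rcases a with _ | ⟨x, y, h⟩
  · change yc (inc k 0) = _
    rw [map_zero]; rfl
  · rfl

theorem kk_inc_ne {a : Pt E2 k} (ha : a ≠ 0) : inc k a ≠ 0 := by
  rcases a with _ | ⟨x, y, h⟩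
  · exact absurd rfl ha
  · intro h0
    cases h0

/-- `P(x) + Q(x) y` -/
noncomputable def kF (e : Pt E2 Λ) (P Q : k[X]) : Λ := aeval (xc e) P + aeval (xc e) Q * yc e

/-- the norm -/
noncomputable def kN (P Q : k[X]) : k[X] := P ^ 2 - Q ^ 2 * (X ^ 3 + 1)

theorem kk_ne (he : Transcendental k (xc e)) : e ≠ 0 := by
  rintro rfl
  apply he
  change IsAlgebraic k (0 : Λ)
  exact isAlgebraic_zero

theorem kk_pne (he : Transcendental k (xc e)) {P : k[X]} (hP : P ≠ 0) : aeval (xc e) P ≠ 0 :=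
  fun h => hP ((transcendental_iff.mp he) P h)

theorem kk_norm (he : Transcendental k (xc e)) (P Q : k[X]) :
    kF e P Q * kF e P (-Q) = aeval (xc e) (kN P Q) := by
  have h := kk_sq (kk_ne he)
  unfold kF kN
  simp only [map_neg, map_sub, map_add, map_mul, map_pow, aeval_X, map_one]
  linear_combination (-(aeval (xc e) Q) ^ 2) * h

theorem kN_ne {P Q : k[X]} (h : ¬(P = 0 ∧ Q = 0)) : kN P Q ≠ 0 := by
  intro h0
  unfold kN at h0
  have h1 : P ^ 2 = Q ^ 2 * (X ^ 3 + 1) := sub_eq_zero.mp h0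
  by_cases hQ : Q = 0
  · rw [hQ] at h1
    have : P = 0 := by
      have h2 : P ^ 2 = 0 := by rw [h1]; ring
      exact pow_eq_zero_iff (two_ne_zero) |>.mp h2
    exact h ⟨this, hQ⟩
  · have hP : P ≠ 0 := by
      rintro rfl
      have h2 : Q ^ 2 * (X ^ 3 + 1) = 0 := by rw [← h1]; ring
      have h3 : (X ^ 3 + 1 : k[X]) ≠ 0 := by
        have := (monic_X_pow_add_C (1 : k) (n := 3) (by norm_num)).ne_zero
        simpa using this
      exact (mul_ne_zero (pow_ne_zero 2 hQ) h3) h2
    have hd : (X ^ 3 + 1 : k[X]).natDegree = 3 := by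
      have := natDegree_X_pow_add_C (n := 3) (r := (1 : k))
      simpa using this
    have h3 : (X ^ 3 + 1 : k[X]) ≠ 0 := by
      intro h4
      rw [h4] at hd
      simp at hd
    have h5 := congrArg natDegree h1
    rw [natDegree_mul (pow_ne_zero 2 hQ) h3, natDegree_pow, natDegree_pow, hd] at h5
    omega

theorem kF_ne (he : Transcendental k (xc e)) {P Q : k[X]} (h : ¬(P = 0 ∧ Q = 0)) : kF e P Q ≠ 0 := by
  intro h0
  have := kk_norm he P Q
  rw [h0, zero_mul] at this
  exact kk_pne he (kN_ne h) this.symm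

theorem kF_neg (e : Pt E2 Λ) (P Q : k[X]) : kF e P (-Q) = aeval (xc e) P - aeval (xc e) Q * yc e := by
  unfold kF
  rw [map_neg]; ring

theorem kF_mul (he : Transcendental k (xc e)) (P Q P' Q' : k[X]) :
    kF e P Q * kF e P' Q' = kF e (P * P' + Q * Q' * (X ^ 3 + 1)) (P * Q' + Q * P') := by
  have h := kk_sq (kk_ne he)
  unfold kF
  simp only [map_add, map_mul, map_pow, aeval_X, map_one]
  linear_combination (aeval (xc e) Q) * (aeval (xc e) Q') * h

/-- elements of `k(e)` -/
theorem fe_mem (he : Transcendental k (xc e)) {H : Λ} (hH : H ∈ fe k e) :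
    ∃ P Q R : k[X], R ≠ 0 ∧ H * aeval (xc e) R = kF e P Q := by
  unfold fe at hH
  induction hH using Subfield.closure_induction with
  | mem x hx =>
    rcases hx with hx | hx
    · refine ⟨C ⟨x, hx⟩, 0, 1, one_ne_zero, ?_⟩
      unfold kF
      simp only [map_one, mul_one, map_zero, zero_mul, add_zero, aeval_C]
      rfl
    · rcases hx with hx | hx
      · refine ⟨X, 0, 1, one_ne_zero, ?_⟩
        rw [hx]; unfold kF; simp
      · refine ⟨0, 1, 1, one_ne_zero, ?_⟩
        rw [Set.mem_singleton_iff] at hx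
        rw [hx]; unfold kF; simp
  | one => exact ⟨1, 0, 1, one_ne_zero, by unfold kF; simp⟩
  | add x y _ _ hx hy =>
    obtain ⟨P, Q, R, hR, h⟩ := hx
    obtain ⟨P', Q', R', hR', h'⟩ := hy
    refine ⟨P * R' + P' * R, Q * R' + Q' * R, R * R', mul_ne_zero hR hR', ?_⟩
    have e1 : (x + y) * aeval (xc e) (R * R') = (x * aeval (xc e) R) * aeval (xc e) R' +
        (y * aeval (xc e) R') * aeval (xc e) R := by rw [map_mul]; ring
    rw [e1, h, h']
    unfold kF
    simp only [map_add, map_mul]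
    ring
  | neg x _ hx =>
    obtain ⟨P, Q, R, hR, h⟩ := hx
    refine ⟨-P, -Q, R, hR, ?_⟩
    rw [neg_mul, h]
    unfold kF
    simp only [map_neg]
    ring
  | inv x _ hx =>
    obtain ⟨P, Q, R, hR, h⟩ := hx
    by_cases hx0 : x = 0
    · exact ⟨0, 0, 1, one_ne_zero, by rw [hx0]; unfold kF; simp⟩
    · have hF : kF e P Q ≠ 0 := by rw [← h]; exact mul_ne_zero hx0 (kk_pne he hR)
      have hPQ : ¬(P = 0 ∧ Q = 0) := by
        rintro ⟨rfl, rfl⟩
        apply hF
        unfold kF; simp
      refine ⟨R * P, R * (-Q), kN P Q, kN_ne hPQ, ?_⟩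
      rw [← kk_norm he, ← h]
      have : kF e (R * P) (R * -Q) = aeval (xc e) R * kF e P (-Q) := by
        unfold kF; simp only [map_mul]; ring
      rw [this]
      field_simp
  | mul x y _ _ hx hy =>
    obtain ⟨P, Q, R, hR, h⟩ := hx
    obtain ⟨P', Q', R', hR', h'⟩ := hy
    refine ⟨P * P' + Q * Q' * (X ^ 3 + 1), P * Q' + Q * P', R * R', mul_ne_zero hR hR', ?_⟩
    rw [← kF_mul he, ← h, ← h', map_mul]
    ring

theorem fe_aeval (P : k[X]) : aeval (xc e) P ∈ fe k e := by
  induction P using Polynomial.induction_on' with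
  | add p q hp hq => rw [map_add]; exact add_mem hp hq
  | monomial n a =>
    rw [aeval_monomial]
    refine mul_mem ?_ (pow_mem ?_ n)
    · exact Subfield.subset_closure (Or.inl a.2)
    · exact Subfield.subset_closure (Or.inr (Or.inl rfl))

theorem fe_y : yc e ∈ fe k e := Subfield.subset_closure (Or.inr (Or.inr rfl))

theorem fe_x : xc e ∈ fe k e := Subfield.subset_closure (Or.inr (Or.inl rfl))

theorem fe_c (c : k) : (c : Λ) ∈ fe k e := Subfield.subset_closure (Or.inl c.2)

theorem fe_kF (P Q : k[X]) : kF e P Q ∈ fe k e :=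
  add_mem (fe_aeval P) (mul_mem (fe_aeval Q) fe_y)

end KG

end Pool.Agent.VM
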