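import Pool.Agent.Lib_VM.KKA_h78

/-!
# MP_5582d1_ag: block KK: valuations centred at a point of `E₂`, explicit formulas
-/

set_option autoImplicit false

namespace Pool.Agent.VM

open scoped Classical
open Polynomial

attribute [-instance] Subtype.instDecidableEq

section KV

variable {Λ : Type} [Field Λ] {k : Subfield Λ} {e : Pt E2 Λ} {u : QV Λ}

theorem kk_mem (ht : ∀ c ∈ k, c ≠ 0 → u.v c = 0) (c : k) : (c : Λ) ∈ u.ring := by
  rw [u.mem_ring]
  by_cases h : (c : Λ) = 0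
  · exact Or.inl h
  · exact Or.inr (ht _ c.2 h).ge

theorem kk_res_inj (ht : ∀ c ∈ k, c ≠ 0 → u.v c = 0) {c : k} (h : u.res (c : Λ) = 0) : c = 0 := by
  rw [u.res_eq_zero_iff (kk_mem ht c)] at h
  rcases h with h | h
  · exact Subtype.ext h
  · by_contra hc
    rw [ht _ c.2 (fun h' => hc (Subtype.ext h'))] at h
    exact lt_irrefl _ h

/-- evaluation and residues -/
theorem kk_ev (ht : ∀ c ∈ k, c ≠ 0 → u.v c = 0) {x : Λ} (hx : x ∈ u.ring) {z : k}
    (hz : u.res x = u.res (z : Λ)) (P : k[X]) :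
    aeval x P ∈ u.ring ∧ u.res (aeval x P) = u.res ((P.eval z : k) : Λ) := by
  have hc := kk_mem (u := u) ht
  induction P using Polynomial.induction_on with
  | C a =>
    rw [aeval_C, eval_C]
    exact ⟨hc a, rfl⟩
  | add p q hp hq =>
    rw [map_add, eval_add]
    refine ⟨u.ring.add_mem _ _ hp.1 hq.1, ?_⟩
    rw [u.res_add hp.1 hq.1, hp.2, hq.2, ← u.res_add (hc _) (hc _)]
    rfl
  | monomial n a ih =>
    rw [pow_succ, ← mul_assoc, map_mul, aeval_X, eval_mul, eval_X]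
    refine ⟨u.ring.mul_mem _ _ ih.1 hx, ?_⟩
    rw [u.res_mul ih.1 hx, ih.2, hz, ← u.res_mul (hc _) (hc _)]
    rfl

/-- `u` is centred at `a` -/
structure Cen (k : Subfield Λ) (e : Pt E2 Λ) (a : Pt E2 k) (u : QV Λ) : Prop where
  triv : ∀ c ∈ k, c ≠ 0 → u.v c = 0
  fin : a ≠ 0 → xc e ∈ u.ring ∧ yc e ∈ u.ring ∧ u.res (xc e) = u.res ((xc a : k) : Λ) ∧
    u.res (yc e) = u.res ((yc a : k) : Λ)
  inf : a = 0 → u.v (xc e) < 0

theorem AtPt.cen {a : Pt E2 k} (h : AtPt k e a u) : Cen k e a u where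
  triv := h.triv
  inf := h.ctr0
  fin := by
    intro ha
    obtain ⟨h1, h2⟩ := h.ctr ha
    rw [kk_xc_inc] at h1
    rw [kk_yc_inc] at h2
    have key : ∀ (x : Λ) (c : k), 0 < u.v (x - (c : Λ)) →
        x ∈ u.ring ∧ u.res x = u.res (c : Λ) := by
      intro x c hxc
      have hm : x - (c : Λ) ∈ u.ring := by
        rw [u.mem_ring]; exact Or.inr hxc.le
      have hr : u.res (x - (c : Λ)) = 0 := by
        rw [u.res_eq_zero_iff hm]; exact Or.inr hxc
      have hc := kk_mem (u := u) h.triv c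
      have hx : x = (x - (c : Λ)) + c := by ring
      constructor
      · rw [hx]; exact u.ring.add_mem _ _ hm hc
      · conv_lhs => rw [hx]
        rw [u.res_add hm hc, hr, zero_add]
    obtain ⟨a1, a2⟩ := key _ _ h1
    obtain ⟨b1, b2⟩ := key _ _ h2
    exact ⟨a1, b1, a2, b2⟩

variable {a : Pt E2 k}

theorem Cen.evF (h : Cen k e a u) (ha : a ≠ 0) (P Q : k[X]) :
    kF e P Q ∈ u.ring ∧ u.res (kF e P Q) =
      u.res ((P.eval (xc a) + Q.eval (xc a) * yc a : k) : Λ) := by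
  obtain ⟨h1, h2, h3, h4⟩ := h.fin ha
  obtain ⟨p1, p2⟩ := kk_ev h.triv h1 h3 P
  obtain ⟨q1, q2⟩ := kk_ev h.triv h1 h3 Q
  have hc := kk_mem (u := u) h.triv
  unfold kF
  refine ⟨u.ring.add_mem _ _ p1 (u.ring.mul_mem _ _ q1 h2), ?_⟩
  rw [u.res_add p1 (u.ring.mul_mem _ _ q1 h2), u.res_mul q1 h2, p2, q2, h4,
    ← u.res_mul (hc _) (hc _), ← u.res_add (hc _) (u.ring.mul_mem _ _ (hc _) (hc _))]
  rfl

theorem Cen.zero (h : Cen k e a u) (ha : a ≠ 0) {P Q : k[X]} (h0 : kF e P Q ≠ 0)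
    (hv : P.eval (xc a) + Q.eval (xc a) * yc a ≠ 0) : u.v (kF e P Q) = 0 := by
  obtain ⟨h1, h2⟩ := h.evF ha P Q
  have h3 := (u.mem_ring_of h0).mp h1
  by_contra h4
  have h5 : 0 < u.v (kF e P Q) := lt_of_le_of_ne h3 (Ne.symm h4)
  have h6 : u.res (kF e P Q) = 0 := by
    rw [u.res_eq_zero_iff h1]; exact Or.inr h5
  rw [h2] at h6
  exact hv (kk_res_inj h.triv h6)

theorem Cen.pos (h : Cen k e a u) (ha : a ≠ 0) {P Q : k[X]} (h0 : kF e P Q ≠ 0)
    (hv : P.eval (xc a) + Q.eval (xc a) * yc a = 0) : 0 < u.v (kF e P Q) := by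
  obtain ⟨h1, h2⟩ := h.evF ha P Q
  rw [hv] at h2
  have h3 : u.res (kF e P Q) = 0 := by rw [h2]; exact u.res_zero
  rw [u.res_eq_zero_iff h1] at h3
  exact h3.resolve_left h0

theorem Cen.nonneg (h : Cen k e a u) (ha : a ≠ 0) {P Q : k[X]} (h0 : kF e P Q ≠ 0) :
    0 ≤ u.v (kF e P Q) := (u.mem_ring_of h0).mp (h.evF ha P Q).1

theorem kF_zero (e : Pt E2 Λ) (P : k[X]) : kF e P 0 = aeval (xc e) P := by unfold kF; simp

theorem aeval_sub_C (e : Pt E2 Λ) (c : k) : aeval (xc e) (X - C c) = xc e - (c : Λ) := by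
  rw [map_sub, aeval_X, aeval_C]; rfl

/-- polynomials at a finite point -/
theorem Cen.poly (he : Transcendental k (xc e)) (h : Cen k e a u) (ha : a ≠ 0) {P : k[X]}
    (hP : P ≠ 0) :
    u.v (aeval (xc e) P) = (P.rootMultiplicity (xc a) : ℚ) * u.v (xc e - ((xc a : k) : Λ)) := by
  obtain ⟨q, hq, hq'⟩ := exists_eq_pow_rootMultiplicity_mul_and_not_dvd P hP (xc a)
  have hq0 : q ≠ 0 := by rintro rfl; exact hq' (dvd_zero _)
  have hx0 : aeval (xc e) (X - C (xc a : k)) ≠ 0 := kk_pne he (X_sub_C_ne_zero _)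
  conv_lhs => rw [hq]
  rw [map_mul, map_pow, u.mul (pow_ne_zero _ hx0) (kk_pne he hq0), u.pow hx0, aeval_sub_C]
  have : u.v (aeval (xc e) q) = 0 := by
    rw [← kF_zero]
    apply h.zero ha
    · rw [kF_zero]; exact kk_pne he hq0
    · rw [eval_zero, zero_mul, add_zero]
      intro h0
      exact hq' (dvd_iff_isRoot.mpr h0)
  rw [this, add_zero]

/-- polynomials at infinity -/
theorem Cen.polyInf (he : Transcendental k (xc e)) (h : Cen k e a u) (ha : a = 0) {P : k[X]}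
    (hP : P ≠ 0) : u.v (aeval (xc e) P) = (P.natDegree : ℚ) * u.v (xc e) := by
  have hx := h.inf ha
  have hx0 : xc e ≠ 0 := by
    have := kk_pne he (X_ne_zero : (X : k[X]) ≠ 0)
    rwa [aeval_X] at this
  induction hn : P.natDegree using Nat.strong_induction_on generalizing P with
  | _ n ih =>
    have hl : (P.leadingCoeff : Λ) ≠ 0 := fun h0 => hP (leadingCoeff_eq_zero.mp (Subtype.ext h0))
    have hm : aeval (xc e) (C P.leadingCoeff * X ^ n) ≠ 0 :=
      kk_pne he (mul_ne_zero (C_ne_zero.mpr (leadingCoeff_ne_zero.mpr hP)) (pow_ne_zero _ X_ne_zero))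
    have hv : u.v (aeval (xc e) (C P.leadingCoeff * X ^ n)) = (n : ℚ) * u.v (xc e) := by
      rw [map_mul, map_pow, aeval_X, aeval_C]
      change u.v ((P.leadingCoeff : Λ) * xc e ^ n) = _
      rw [u.mul hl (pow_ne_zero _ hx0), h.triv _ P.leadingCoeff.2 hl, u.pow hx0, zero_add]
    have hP' := P.eraseLead_add_C_mul_X_pow
    rw [hn] at hP'
    rcases P.eraseLead_natDegree_lt_or_eraseLead_eq_zero with h1 | h1
    · by_cases h2 : P.eraseLead = 0
      · rw [h2, zero_add] at hP'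
        rw [← hP']; exact hv
      · have h3 := ih _ (hn ▸ h1) h2 rfl
        rw [← hP', map_add, add_comm]
        have h4 : u.v (aeval (xc e) (C P.leadingCoeff * X ^ n)) < u.v (aeval (xc e) P.eraseLead) := by
          rw [hv, h3]
          have : (P.eraseLead.natDegree : ℚ) < n := by exact_mod_cast (hn ▸ h1)
          nlinarith
        rw [(u.add_eq_of_lt hm (kk_pne he h2) h4).2, hv]
    · rw [h1, zero_add] at hP'
      rw [← hP']; exact hv

end KV

end Pool.Agent.VM
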