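import Pool.Agent.Lib_VM.StubsIV_h38
import Pool.Agent.Lib_VM.A_adjoin_unimod
import Pool.Agent.Lib_VM.A_alg_add
import Pool.Agent.Lib_VM.A_alg_of_smul
import Pool.Agent.Lib_VM.A_cs_add_sub
import Pool.Agent.Lib_VM.A_cs_kc_sub
import Pool.Agent.Lib_VM.A_cs_smul_sub
import Pool.Agent.Lib_VM.A_ell_unimod
import Pool.Agent.Lib_VM.A_gen_unimod
import Pool.Agent.Lib_VM.A_nsq_core
import Pool.Agent.Lib_VM.A_pt_descend
import Pool.Agent.Lib_VM.A_q_exists
import Pool.Agent.Lib_VM.A_xc_mp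

/-! MP_5582d1_ag, part IV, block NSQ: the products of the `F_i` are not squares. -/

set_option autoImplicit false
set_option linter.style.haveILetI false

namespace Pool.Agent.VM.NSQp

open scoped Classical
open IntermediateField

attribute [-instance] Subtype.instDecidableEq

private theorem nsq_trans {P M : Type} [Field P] [Field M] [Algebra P M]
    (F E : IntermediateField P M) (h : ∀ x ∈ E, IsAlgebraic F x) {v : M}
    (hv : IsAlgebraic E v) : IsAlgebraic F v := by
  let f : E →+* algebraicClosure F M :=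
    { toFun := fun x => ⟨x, mem_algebraicClosure_iff.2 (h x x.2)⟩
      map_one' := rfl
      map_mul' := fun _ _ => rfl
      map_zero' := rfl
      map_add' := fun _ _ => rfl }
  have hC : IsAlgebraic (algebraicClosure F M) v := by
    obtain ⟨p, hp, hpv⟩ := hv
    refine ⟨p.map f, (Polynomial.map_ne_zero_iff f.injective).2 hp, ?_⟩
    rw [Polynomial.aeval_def, Polynomial.eval₂_map]
    exact hpv
  exact hC.restrictScalars F

private theorem nsq_yc {F : Type} {M : Type} [Field F] [Field M] [Algebra F M] (Q : Pt E2 M)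
    (h : IsAlgebraic F (xc Q)) : IsAlgebraic F (yc Q) := by
  by_cases h0 : Q = 0
  · rw [h0]
    exact isAlgebraic_zero
  · have h1 := ptf_sq (a := (0 : ℤ)) (b := 1) h0
    have h2 : IsAlgebraic F (yc Q ^ 2) := by
      rw [h1]
      refine IsAlgebraic.add (IsAlgebraic.add (h.pow 3) ?_) ?_
      · rw [map_zero, zero_mul]
        exact isAlgebraic_zero
      · rw [map_one]
        exact isAlgebraic_one
    exact h2.of_pow (by norm_num)

private theorem nsq_gen {M : Type} [Field M] [Algebra ℂ M] (u : Fin 3 → Pt E2 M)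
    (hu : AlgebraicIndependent ℂ fun r => xc (u r)) (s : Set (Fin 3)) (i : Fin 3) (hi : i ∉ s)
    (E : IntermediateField ℂ M) (hE : E ≤ adjoin ℂ (⋃ r ∈ s, cs (u r))) :
    Transcendental E (xc (u i)) := by
  intro hal
  have h1 : Transcendental (adjoin ℂ ((fun r => xc (u r)) '' s)) (xc (u i)) :=
    transcendental_adjoin_iff.2 (hu.transcendental_adjoin hi)
  apply h1
  refine nsq_trans _ E (fun x hx => ?_) hal
  have h2 : adjoin ℂ (⋃ r ∈ s, cs (u r)) ≤ IntermediateField.restrictScalars ℂ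
      (algebraicClosure (adjoin ℂ ((fun r => xc (u r)) '' s)) M) := by
    rw [adjoin_le_iff]
    refine Set.iUnion₂_subset fun r hr => ?_
    have hx : IsAlgebraic (adjoin ℂ ((fun r => xc (u r)) '' s)) (xc (u r)) :=
      isAlgebraic_algebraMap (⟨xc (u r), subset_adjoin _ _ ⟨r, hr, rfl⟩⟩ :
        adjoin ℂ ((fun r => xc (u r)) '' s))
    rintro _ (rfl | rfl)
    · exact mem_algebraicClosure_iff.2 hx
    · exact mem_algebraicClosure_iff.2 (nsq_yc _ hx)
  exact mem_algebraicClosure_iff.1 (h2 (hE hx))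

private theorem nsq_in {M : Type} [Field M] [Algebra ℂ M] (F : IntermediateField ℂ M)
    (Q : Pt E2 M) (h : cs Q ⊆ (F : Set M)) : IsAlgebraic F (xc Q) :=
  isAlgebraic_algebraMap (⟨xc Q, h (Or.inl rfl)⟩ : F)

private theorem nsq_Δ {K : Type} [Field K] [CharZero K] : algebraMap ℤ K (SW 0 1).Δ ≠ 0 := by
  have h : (SW (0 : ℤ) 1).Δ = -432 := by
    simp [SW, WeierstrassCurve.Δ, WeierstrassCurve.b₂, WeierstrassCurve.b₄, WeierstrassCurve.b₆,
      WeierstrassCurve.b₈]
  rw [h]
  simp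

private theorem nsq_add {M : Type} [Field M] [Algebra ℂ M] (F : IntermediateField ℂ M)
    (Q Q' : Pt E2 M) (h : IsAlgebraic F (xc Q)) (h' : IsAlgebraic F (xc Q')) :
    IsAlgebraic F (xc (Q + Q')) := alg_add (K := F) (0 : ℤ) 1 Q Q' h h'

private theorem nsq_indep {M : Type} [Field M] [Algebra ℂ M] (u : Fin 3 → Pt E2 M)
    (hu : AlgebraicIndependent ℂ fun r => xc (u r)) (i j : Fin 3) (hij : i ≠ j) (a b : ℤ)
    (ha : a ≠ 0) (c : Pt E2 ℂ) (h : IsAlgebraic ℂ (xc (a • u i + b • u j + kc c))) : False := by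
  set F : IntermediateField ℂ M := adjoin ℂ (cs (u j)) with hF
  have h1 : cs (-(b • u j)) ⊆ (F : Set M) := by
    rw [← neg_smul]
    exact cs_smul_sub (0 : ℤ) 1 F (-b) (u j) (subset_adjoin _ _)
  have h2 : cs (-(kc c : Pt E2 M)) ⊆ (F : Set M) := by
    rw [← map_neg]
    exact cs_kc_sub (0 : ℤ) 1 F (-c)
  have h3 : IsAlgebraic F (xc (a • u i)) := by
    have h4 := nsq_add F _ _ (nsq_add F _ _ (h.tower_top F) (nsq_in F _ h2)) (nsq_in F _ h1)
    have e : a • u i + b • u j + kc c + -(kc c : Pt E2 M) + -(b • u j) = a • u i := by abel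
    rwa [e] at h4
  have h5 : IsAlgebraic F (xc (u i)) := alg_of_smul (K := F) (0 : ℤ) 1 nsq_Δ a ha (u i) h3
  exact nsq_gen u hu {j} i (by simpa using hij) F (by
    rw [hF, adjoin_le_iff]
    refine (Set.Subset.trans ?_ (subset_adjoin _ _))
    exact Set.subset_iUnion₂_of_subset j rfl (Set.Subset.refl _)) h5

private theorem nsq_kc {M : Type} [Field M] [Algebra ℂ M] (F : IntermediateField ℂ M)
    (d : Pt E2 F) : (kc d : Pt E2 M) = mp F.val d := by
  cases d with
  | zero => rfl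
  | some x y h => rfl

/-- NSQ (IV2): products of the `F_i` are not squares in `ℂ(w)` -/
theorem NSQ (l : ℂ) (hl : Transcendental ℚ l) {M : Type} [Field M] [Algebra ℂ M]
    (w : Fin 3 → Pt E2 M) (hw : AlgebraicIndependent ℂ fun j => xc (w j))
    (c : Fin 9 → Pt E2 ℂ) (al be : Fin 9 → ℂ) (hal : ∀ i, al i ≠ 0) (F : Fin 9 → M)
    (hF : ∀ i, ∀ t, t = algebraMap ℂ M (al i) * xc (comb (V.ell i) w + kc (c i)) +
      algebraMap ℂ M (be i) → F i = t ^ 3 + t ^ 2 + algebraMap ℂ M l)
    (I : Finset (Fin 9)) (hI : I.Nonempty) (s : M)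
    (hs : s ∈ IntermediateField.adjoin ℂ (⋃ j, cs (w j))) : s ^ 2 ≠ ∏ i ∈ I, F i := by
  obtain ⟨i, hi⟩ := hI
  obtain ⟨A, hdet, hA2, hA⟩ := ell_unimod i
  have hAu : IsUnit A.det := by rw [hdet]; exact isUnit_one
  choose a b k hell hab using hA
  set u : Fin 3 → Pt E2 M := fun r => comb (A r) w with hudef
  have hu : AlgebraicIndependent ℂ fun r => xc (u r) := gen_unimod w hw A hAu
  have hadj : adjoin ℂ (⋃ r, cs (u r)) = adjoin ℂ (⋃ j, cs (w j)) := adjoin_unimod w A hAu
  obtain ⟨q, hq, hqy, hroot, hsimple⟩ := q_exists l hl (al i) (be i) (hal i)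
  set K : IntermediateField ℂ M := adjoin ℂ (cs (u 0) ∪ cs (u 1)) with hK
  have hu0 : cs (u 0) ⊆ (K : Set M) := Set.subset_union_left.trans (subset_adjoin _ _)
  have hu1 : cs (u 1) ⊆ (K : Set M) := Set.subset_union_right.trans (subset_adjoin _ _)
  set e : Pt E2 M := u 2 + kc (c i) with he
  have hcomb : ∀ j, comb (V.ell j) w = a j • u 0 + b j • u 1 + k j • u 2 := by
    intro j
    rw [hell j]
    simp only [hudef, comb, Finset.smul_sum, ← Finset.sum_add_distrib, ← mul_smul, ← add_smul]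
    refine Finset.sum_congr rfl fun x _ => ?_
    congr 1
  have hei : comb (V.ell i) w + kc (c i) = e := by
    rw [he, ← hA2]
  -- `e` is generic over `K`
  have hcK : ∀ c' : Pt E2 ℂ, cs (kc c' : Pt E2 M) ⊆ (K : Set M) := fun c' =>
    cs_kc_sub (0 : ℤ) 1 K c'
  have heK : Transcendental K (xc e) := by
    intro hal
    have h1 : IsAlgebraic K (xc (u 2)) := by
      have h2 := nsq_add K _ _ hal (nsq_in K _ (hcK (-c i)))
      have e1 : e + (kc (-c i) : Pt E2 M) = u 2 := by
        rw [he, map_neg]; abel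
      rwa [e1] at h2
    refine nsq_gen u hu {0, 1} 2 (by simp) K ?_ h1
    rw [hK, adjoin_le_iff]
    refine Set.union_subset ?_ ?_
    · exact (Set.subset_iUnion₂ (s := fun (r : Fin 3) (_ : r ∈ ({0, 1} : Set (Fin 3))) => cs (u r))
        0 (Or.inl rfl)).trans (subset_adjoin _ _)
    · exact (Set.subset_iUnion₂ (s := fun (r : Fin 3) (_ : r ∈ ({0, 1} : Set (Fin 3))) => cs (u r))
        1 (Or.inr rfl)).trans (subset_adjoin _ _)
  -- the points `d j`
  have hD : ∀ j, cs (a j • u 0 + b j • u 1 + kc (c j - k j • c i)) ⊆ (K : Set M) := fun j =>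
    cs_add_sub (0 : ℤ) 1 K _ _ (cs_add_sub (0 : ℤ) 1 K _ _ (cs_smul_sub (0 : ℤ) 1 K _ _ hu0)
      (cs_smul_sub (0 : ℤ) 1 K _ _ hu1)) (hcK _)
  choose d hd using fun j => pt_descend (0 : ℤ) 1 K _ (hD j)
  have hkd : ∀ j, (kc (d j) : Pt E2 M) = a j • u 0 + b j • u 1 + kc (c j - k j • c i) := by
    intro j
    rw [nsq_kc, hd]
  have hpt : ∀ j, comb (V.ell j) w + kc (c j) = k j • e + kc (d j) := by
    intro j
    rw [hcomb, hkd, he, map_sub, map_zsmul, smul_add]
    abel
  have hdt : ∀ j : {j // j ∈ I.erase i}, Transcendental ℂ (xc (d j.1)) := by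
    intro j hj
    have h1 : IsAlgebraic ℂ (xc (a j.1 • u 0 + b j.1 • u 1 + kc (c j.1 - k j.1 • c i))) := by
      rw [← hd j.1, xc_mp]
      exact hj.algHom K.val
    rcases hab j.1 (Finset.ne_of_mem_erase j.2) with h2 | h2
    · exact nsq_indep u hu 0 1 (by decide) _ _ h2 _ h1
    · rw [add_comm (a j.1 • u 0)] at h1
      exact nsq_indep u hu 1 0 (by decide) _ _ h2 _ h1
  have hs' : s ∈ adjoin K (cs e) := by
    have h1 : adjoin ℂ (⋃ r, cs (u r)) ≤
        IntermediateField.restrictScalars ℂ (adjoin K (cs e)) := by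
      rw [adjoin_le_iff]
      refine Set.iUnion_subset fun r => ?_
      have hin : ∀ Q : Pt E2 M, cs Q ⊆ (K : Set M) → cs Q ⊆ (adjoin K (cs e) : Set M) := by
        intro Q hQ x hx
        exact (adjoin K (cs e)).algebraMap_mem (⟨x, hQ hx⟩ : K)
      have h2 : cs (u 2) ⊆ (adjoin K (cs e) : Set M) := by
        have h3 := cs_add_sub (K := K) (0 : ℤ) 1 (adjoin K (cs e)) e (kc (-c i))
          (subset_adjoin _ _) (hin _ (hcK _))
        have e1 : e + (kc (-c i) : Pt E2 M) = u 2 := by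
          rw [he, map_neg]; abel
        rwa [e1] at h3
      fin_cases r
      · exact hin _ hu0
      · exact hin _ hu1
      · exact h2
    exact h1 (hadj ▸ hs)
  have hfin := nsq_core l (K := K) (L := M) (ι := {j // j ∈ I.erase i}) e heK q hq hqy (al i)
    (be i) (hal i) hroot hsimple (fun j => k j.1) (fun j => d j.1) hdt (fun j => al j.1)
    (fun j => be j.1) (fun j => hal j.1) (fun j => F j.1) (fun j t ht => hF j.1 t (by
      rw [hpt]; exact ht)) s hs'
  have h4 : (algebraMap ℂ M (al i) * xc e + algebraMap ℂ M (be i)) ^ 3 +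
      (algebraMap ℂ M (al i) * xc e + algebraMap ℂ M (be i)) ^ 2 + algebraMap ℂ M l = F i := by
    rw [hF i _ rfl, hei]
  rw [h4, Finset.prod_coe_sort (I.erase i) F, Finset.mul_prod_erase I F hi] at hfin
  exact hfin

end Pool.Agent.VM.NSQp
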