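import Pool.Agent.Lib_VM.StubsVI_h71

/-! MP_5582d1_ag, part VI, block REAL: general tangent planes. -/

set_option autoImplicit false

namespace Pool.Agent.VM.REALp

open scoped Classical TensorProduct Matrix

noncomputable section

/-- the polynomials in `x`, `v₁`, `v₂`, `v₃` -/
abbrev RP : Type := MvPolynomial (Ix ⊕ Fin 3 × Ix) ℂ

/-- the variable `y` of the component `i` of `x` -/
def yv (i : Fin 3 ⊕ Fin 3) : RP := MvPolynomial.X (.inl (i, 1))

/-- the variable `x` of the component `i` of the vector `a` -/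
def vv (a : Fin 3) (i : Fin 3 ⊕ Fin 3) : RP := MvPolynomial.X (.inr (a, (i, 0)))

/-- the product of the other `y` -/
def Dv (i : Fin 3 ⊕ Fin 3) : RP := ∏ i' ∈ Finset.univ.erase i, yv i'

/-- the product of the `y` -/
def DD : RP := ∏ i, yv i

/-- the matrix of the second half -/
def Wp : Matrix (Fin 3) (Fin 3) RP := fun k a => vv a (.inr k) * Dv (.inr k)

/-- the matrix of the first half -/
def Up : Matrix (Fin 3) (Fin 3) RP := fun j a => vv a (.inl j) * Dv (.inl j)

/-- the coordinate number `k` -/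
def Sk (k : Fin 9) : RP :=
  ∑ i, ∑ j, MvPolynomial.C (V.sc (fun a b => if a = i ∧ b = j then (1 : ℂ) else 0) k) *
    (Up * Wp.adjugate) i j

/-- the polynomial -/
def Qp : RP := DD * Wp.det * ∏ k, Sk k

theorem real_sc (L : Fin 3 → Fin 3 → ℂ) (k : Fin 9) :
    V.sc L k = ∑ i, ∑ j, V.sc (fun a b => if a = i ∧ b = j then (1 : ℂ) else 0) k * L i j := by
  fin_cases k <;> simp [V.sc, Fin.sum_univ_three] <;> ring

section
variable (x : Ix → ℂ) (v : Fin 3 → Ix → ℂ)

/-- evaluation -/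
def ev : RP →+* ℂ := MvPolynomial.eval (Sum.elim x fun i => v i.1 i.2)

/-- the normalised second half -/
def Wn : Matrix (Fin 3) (Fin 3) ℂ := fun k a => v a (.inr k, 0) / (2 * x (.inr k, 1))

/-- the normalised first half -/
def Un : Matrix (Fin 3) (Fin 3) ℂ := fun j a => v a (.inl j, 0) / (2 * x (.inl j, 1))

/-- the product of the `y` -/
def dn : ℂ := ∏ i, x (i, 1)

variable {x v}

theorem ev_yv (i : Fin 3 ⊕ Fin 3) : ev x v (yv i) = x (i, 1) := by
  simp [ev, yv]

theorem ev_vv (a : Fin 3) (i : Fin 3 ⊕ Fin 3) : ev x v (vv a i) = v a (i, 0) := by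
  simp [ev, vv]

theorem ev_DD : ev x v DD = dn x := by
  rw [DD, map_prod, dn]
  exact Finset.prod_congr rfl fun i _ => ev_yv i

theorem ev_Dv (i : Fin 3 ⊕ Fin 3) : x (i, 1) * ev x v (Dv i) = dn x := by
  rw [Dv, map_prod, dn, ← Finset.mul_prod_erase Finset.univ _ (Finset.mem_univ i)]
  congr 1
  exact Finset.prod_congr rfl fun i _ => ev_yv i

theorem ev_Wp (hx : ∀ i, x (i, 1) ≠ 0) : (ev x v).mapMatrix Wp = (2 * dn x) • Wn x v := by
  ext k a
  have h := ev_Dv (x := x) (v := v) (.inr k)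
  rw [RingHom.mapMatrix_apply, Matrix.map_apply, Wp, map_mul, ev_vv, Matrix.smul_apply, Wn,
    smul_eq_mul, ← h]
  field_simp [hx (.inr k)]

theorem ev_Up (hx : ∀ i, x (i, 1) ≠ 0) : (ev x v).mapMatrix Up = (2 * dn x) • Un x v := by
  ext k a
  have h := ev_Dv (x := x) (v := v) (.inl k)
  rw [RingHom.mapMatrix_apply, Matrix.map_apply, Up, map_mul, ev_vv, Matrix.smul_apply, Un,
    smul_eq_mul, ← h]
  field_simp [hx (.inl k)]

theorem ev_det (hx : ∀ i, x (i, 1) ≠ 0) :
    ev x v Wp.det = (2 * dn x) ^ 3 * (Wn x v).det := by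
  rw [RingHom.map_det, ev_Wp hx, Matrix.det_smul, Fintype.card_fin]

theorem ev_Lp (hx : ∀ i, x (i, 1) ≠ 0) (i j : Fin 3) :
    ev x v ((Up * Wp.adjugate) i j) = (2 * dn x) ^ 3 * (Un x v * (Wn x v).adjugate) i j := by
  have h : (ev x v).mapMatrix (Up * Wp.adjugate) =
      (2 * dn x) ^ 3 • (Un x v * (Wn x v).adjugate) := by
    rw [map_mul, RingHom.map_adjugate, ev_Wp hx, ev_Up hx, Matrix.adjugate_smul,
      Fintype.card_fin, Matrix.smul_mul, Matrix.mul_smul, smul_smul]
    congr 1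
    ring
  have h2 := congrFun (congrFun h i) j
  rw [RingHom.mapMatrix_apply, Matrix.map_apply, Matrix.smul_apply, smul_eq_mul] at h2
  exact h2

theorem ev_Sk (hx : ∀ i, x (i, 1) ≠ 0) (k : Fin 9) :
    ev x v (Sk k) = (2 * dn x) ^ 3 * V.sc (fun i j => (Un x v * (Wn x v).adjugate) i j) k := by
  rw [real_sc, Sk, map_sum, Finset.mul_sum]
  refine Finset.sum_congr rfl fun i _ => ?_
  rw [map_sum, Finset.mul_sum]
  refine Finset.sum_congr rfl fun j _ => ?_
  rw [map_mul, ev_Lp hx]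
  have : ev x v (MvPolynomial.C (V.sc (fun a b => if a = i ∧ b = j then (1 : ℂ) else 0) k)) =
      V.sc (fun a b => if a = i ∧ b = j then (1 : ℂ) else 0) k := by
    rw [ev, MvPolynomial.eval_C]
  rw [this]
  ring

theorem ev_Qp (hx : ∀ i, x (i, 1) ≠ 0) :
    ev x v Qp = dn x * ((2 * dn x) ^ 3 * (Wn x v).det) *
      ∏ k, ((2 * dn x) ^ 3 * V.sc (fun i j => (Un x v * (Wn x v).adjugate) i j) k) := by
  rw [Qp, map_mul, map_mul, ev_DD, ev_det hx, map_prod]
  congr 1
  exact Finset.prod_congr rfl fun k _ => ev_Sk hx k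

end

theorem real_point (l : ℂ) : ∃ a b : ℂ, b ≠ 0 ∧ b ^ 2 = a ^ 3 + a ^ 2 + l := by
  have h : ∃ a : ℂ, a ^ 3 + a ^ 2 + l ≠ 0 := by
    by_cases hl : l = 0
    · exact ⟨1, by rw [hl]; norm_num⟩
    · exact ⟨0, by simpa using hl⟩
  obtain ⟨a, ha⟩ := h
  obtain ⟨b, hb⟩ := IsAlgClosed.exists_pow_nat_eq (a ^ 3 + a ^ 2 + l) (n := 2) (by norm_num)
  refine ⟨a, b, ?_, hb⟩
  rintro rfl
  apply ha
  rw [← hb]
  norm_num

/-- existence of one point -/
theorem real_exists (l : ℂ) : ∃ x ∈ Xa l, ∃ v : Fin 3 → Ix → ℂ, (∀ i, v i ∈ TX x) ∧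
    MvPolynomial.eval (Sum.elim x fun i => v i.1 i.2) Qp ≠ 0 := by
  obtain ⟨a, b, hb, hab⟩ := real_point l
  let L : Fin 3 → Fin 3 → ℂ := fun i i' => ∑ j, ((V.rho j i : ℤ) : ℂ) * ((V.ell j i' : ℤ) : ℂ)
  let x : Ix → ℂ := fun i => ![Sum.elim (fun _ => a) (fun _ => 0) i.1,
    Sum.elim (fun _ => b) (fun _ => 1) i.1] i.2
  let v : Fin 3 → Ix → ℂ := fun c i => ![Sum.elim (fun j => 2 * b * L j c)
    (fun k => if k = c then 2 else 0) i.1,
    Sum.elim (fun j => (3 * a ^ 2 + 2 * a) * L j c) (fun _ => 0) i.1] i.2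
  have x0 : ∀ j : Fin 3, x (.inl j, 0) = a := fun _ => rfl
  have x1 : ∀ j : Fin 3, x (.inl j, 1) = b := fun _ => rfl
  have x2 : ∀ j : Fin 3, x (.inr j, 0) = 0 := fun _ => rfl
  have x3 : ∀ j : Fin 3, x (.inr j, 1) = 1 := fun _ => rfl
  have v0 : ∀ (c j : Fin 3), v c (.inl j, 0) = 2 * b * L j c := fun _ _ => rfl
  have v1 : ∀ (c j : Fin 3), v c (.inl j, 1) = (3 * a ^ 2 + 2 * a) * L j c := fun _ _ => rfl
  have v2 : ∀ (c j : Fin 3), v c (.inr j, 0) = if j = c then 2 else 0 := fun _ _ => rfl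
  have v3 : ∀ (c j : Fin 3), v c (.inr j, 1) = 0 := fun _ _ => rfl
  have hx : ∀ i, x (i, 1) ≠ 0 := by
    rintro (j | j)
    · rw [x1]; exact hb
    · rw [x3]; exact one_ne_zero
  refine ⟨x, ⟨fun j => ?_, fun j => ?_⟩, v, fun c => ⟨fun j => ?_, fun j => ?_⟩, ?_⟩
  · rw [x0, x1, hab]
  · rw [x2, x3]; norm_num
  · rw [x0, x1, v0, v1]; ring
  · rw [x2, x3, v3]; ring
  have hd : dn x ≠ 0 := by
    rw [dn, Finset.prod_ne_zero_iff]
    exact fun i _ => hx i
  have hW : Wn x v = 1 := by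
    ext k c
    rw [Wn, v2, x3, Matrix.one_apply]
    split_ifs <;> norm_num
  have hU : ∀ j c, Un x v j c = L j c := by
    intro j c
    rw [Un, v0, x1]
    field_simp
  change ev x v Qp ≠ 0
  rw [ev_Qp hx, hW, Matrix.adjugate_one, mul_one, Matrix.det_one]
  refine mul_ne_zero (mul_ne_zero hd (mul_ne_zero (pow_ne_zero _ (mul_ne_zero two_ne_zero hd))
    one_ne_zero)) ?_
  rw [Finset.prod_ne_zero_iff]
  intro k _
  refine mul_ne_zero (pow_ne_zero _ (mul_ne_zero two_ne_zero hd)) ?_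
  have e : (fun i j => Un x v i j) = L := by
    funext i j
    exact hU i j
  rw [e, V.sc_all k]
  exact one_ne_zero

/-- REAL: the explicit open set -/
theorem REAL (l : ℂ) (α : N₃ l) (h : ∀ x ∈ Xa l, (∀ i, x (i, 1) ≠ 0) → ∀ L : Fin 3 → Fin 3 → ℂ,
    (∀ k, V.sc L k ≠ 0) → ∃ Y : SubVar l, Y.Mem x ∧ cl Y = α ∧
      (Y.T x : Set (Ix → ℂ)) = graphT x L) : Realises α := by
  refine ⟨Qp, real_exists l, ?_⟩
  intro x hxa v hv hQ
  change ev x v Qp ≠ 0 at hQ
  have hd : dn x ≠ 0 := by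
    intro h0
    apply hQ
    rw [Qp, map_mul, map_mul, ev_DD, h0, zero_mul, zero_mul]
  have hx : ∀ i, x (i, 1) ≠ 0 := by
    rw [dn, Finset.prod_ne_zero_iff] at hd
    exact fun i => hd i (Finset.mem_univ i)
  rw [ev_Qp hx] at hQ
  have hdet : (Wn x v).det ≠ 0 := by
    intro h0
    apply hQ
    rw [h0, mul_zero, mul_zero, zero_mul]
  have hsc : ∀ k, V.sc (fun i j => (Un x v * (Wn x v).adjugate) i j) k ≠ 0 := by
    intro k h0
    apply hQ
    rw [Finset.prod_eq_zero (Finset.mem_univ k) (by rw [h0, mul_zero]), mul_zero]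
  -- the matrix
  let L : Matrix (Fin 3) (Fin 3) ℂ := ((Wn x v).det)⁻¹ • (Un x v * (Wn x v).adjugate)
  have hLW : L * Wn x v = Un x v := by
    change ((Wn x v).det)⁻¹ • (Un x v * (Wn x v).adjugate) * Wn x v = Un x v
    rw [Matrix.smul_mul, Matrix.mul_assoc, Matrix.adjugate_mul, Matrix.mul_smul, smul_smul,
      inv_mul_cancel₀ hdet, one_smul, Matrix.mul_one]
  have hL : ∀ k, V.sc (fun i j => L i j) k ≠ 0 := by
    intro k
    have e : (fun i j => L i j) = ((Wn x v).det)⁻¹ •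
        (fun i j => (Un x v * (Wn x v).adjugate) i j) := rfl
    rw [e, V.sc_smul]
    exact mul_ne_zero (inv_ne_zero hdet) (hsc k)
  obtain ⟨Y, hY1, hY2, hY3⟩ := h x hxa hx (fun i j => L i j) hL
  have hmem : ∀ u, u ∈ Y.T x ↔ u ∈ graphT x (fun i j => L i j) := by
    intro u
    rw [← hY3]
    rfl
  refine ⟨?_, Y, hY1, hY2, ?_⟩
  · rw [Fintype.linearIndependent_iff]
    intro c hc
    have h1 : Wn x v *ᵥ c = 0 := by
      funext k
      have h2 := congrFun hc (.inr k, 0)
      simp only [Finset.sum_apply, Pi.smul_apply, smul_eq_mul, Pi.zero_apply] at h2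
      rw [Matrix.mulVec, dotProduct]
      have h3 : ∑ a, Wn x v k a * c a = (∑ a, c a * v a (.inr k, 0)) / (2 * x (.inr k, 1)) := by
        rw [Finset.sum_div]
        refine Finset.sum_congr rfl fun a _ => ?_
        rw [Wn]; ring
      rw [h3, h2, zero_div]
      rfl
    exact congrFun (Matrix.eq_zero_of_mulVec_eq_zero hdet h1)
  · have hvT : ∀ a, v a ∈ Y.T x := by
      intro a
      rw [hmem]
      refine ⟨hv a, fun j => ?_⟩
      have h1 := congrFun (congrFun hLW j) a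
      rw [Matrix.mul_apply] at h1
      exact h1.symm
    apply le_antisymm
    · intro u hu
      rw [hmem] at hu
      obtain ⟨hu1, hu2⟩ := hu
      rw [Submodule.mem_span_range_iff_exists_fun]
      let t : Fin 3 → ℂ := fun k => u (.inr k, 0) / (2 * x (.inr k, 1))
      let c : Fin 3 → ℂ := (Wn x v)⁻¹ *ᵥ t
      have hWc : Wn x v *ᵥ c = t := by
        change Wn x v *ᵥ ((Wn x v)⁻¹ *ᵥ t) = t
        rw [Matrix.mulVec_mulVec, Matrix.mul_nonsing_inv _ (isUnit_iff_ne_zero.2 hdet),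
          Matrix.one_mulVec]
      refine ⟨c, ?_⟩
      set s : Ix → ℂ := ∑ a, c a • v a with hs
      have hsT : s ∈ TX x := Submodule.sum_mem _ fun a _ => Submodule.smul_mem _ _ (hv a)
      have hsi : ∀ i, s i = ∑ a, c a * v a i := by
        intro i
        rw [hs]
        simp only [Finset.sum_apply, Pi.smul_apply, smul_eq_mul]
      have e1 : ∀ k, s (.inr k, 0) = u (.inr k, 0) := by
        intro k
        have h1 := congrFun hWc k
        rw [Matrix.mulVec, dotProduct] at h1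
        have h3 : ∑ a, Wn x v k a * c a = s (.inr k, 0) / (2 * x (.inr k, 1)) := by
          rw [hsi, Finset.sum_div]
          refine Finset.sum_congr rfl fun a _ => ?_
          rw [Wn]; ring
        rw [h3] at h1
        change s (.inr k, 0) / (2 * x (.inr k, 1)) = u (.inr k, 0) / (2 * x (.inr k, 1)) at h1
        have h4 : (2 * x (.inr k, 1)) ≠ 0 := mul_ne_zero two_ne_zero (hx _)
        exact (div_left_inj' h4).1 h1
      have e0 : ∀ j, s (.inl j, 0) = u (.inl j, 0) := by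
        intro j
        have h3 : s (.inl j, 0) / (2 * x (.inl j, 1)) = (Un x v *ᵥ c) j := by
          rw [Matrix.mulVec, dotProduct, hsi, Finset.sum_div]
          refine Finset.sum_congr rfl fun a _ => ?_
          rw [Un]; ring
        have h4 : Un x v *ᵥ c = L *ᵥ t := by
          rw [← hLW, ← Matrix.mulVec_mulVec, hWc]
        have h5 : (L *ᵥ t) j = u (.inl j, 0) / (2 * x (.inl j, 1)) := by
          rw [Matrix.mulVec, dotProduct]
          exact (hu2 j).symm
        rw [h4, h5] at h3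
        have h6 : (2 * x (.inl j, 1)) ≠ 0 := mul_ne_zero two_ne_zero (hx _)
        exact (div_left_inj' h6).1 h3
      funext ⟨i, e⟩
      fin_cases e
      · rcases i with j | k
        · exact e0 j
        · exact e1 k
      · rcases i with j | k
        · have a1 := hsT.1 j
          have a2 := hu1.1 j
          rw [e0 j, ← a2] at a1
          exact mul_left_cancel₀ (mul_ne_zero two_ne_zero (hx (.inl j))) a1
        · have a1 := hsT.2 k
          have a2 := hu1.2 k
          rw [e1 k, ← a2] at a1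
          exact mul_left_cancel₀ (mul_ne_zero two_ne_zero (hx (.inr k))) a1
    · rw [Submodule.span_le]
      rintro _ ⟨a, rfl⟩
      exact hvT a

end

end Pool.Agent.VM.REALp
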