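import Pool.Agent.Lib_helper85.VM.Defs
import Pool.Agent.Lib_VM.TD_h71

/-!
# MP_5582d1_ag: very moving classes need not be big. The definitions of the statement

`X = E₁³ × E₂³` over `ℂ` with `E₁ : y² = x³ + x² + l` and `E₂ : y² = x³ + 1`; `n = 6`, `k = 3`.
From the file `Defs` only the following is used: the curves `SW`, `E1`, `E2`, their points `Pt` and
the coordinates `xc`, `yc`, `cs` of a point, the degree `dg` and the subvarieties `SubVar`: an
irreducible subvariety of dimension 3 of `X` is given by its generic point `(z, w)`, with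
coordinates in its function field `M`.
-/

set_option autoImplicit false

namespace Pool.Agent.VMS

open Pool.Agent.VM
open scoped Classical TensorProduct

noncomputable section

/-! ## The function field of a product -/

/-- a domain as a part of its field of fractions -/
def fr (R : Type) [CommRing R] [IsDomain R] [Algebra ℂ R] : R →ₐ[ℂ] FractionRing R :=
  IsScalarTower.toAlgHom ℂ R (FractionRing R)

section
variable (A B : Type) [Field A] [Field B] [Algebra ℂ A] [Algebra ℂ B]

/-- the tensor product of two fields over `ℂ` -/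
def Ten : Type := A ⊗[ℂ] B

/-- its ring structure -/
instance Ten.ring : CommRing (Ten A B) := Algebra.TensorProduct.instCommRing

/-- its algebra structure -/
instance Ten.alg : Algebra ℂ (Ten A B) := Algebra.TensorProduct.instAlgebra

/-- it is a domain -/
instance Ten.dom : IsDomain (Ten A B) := (td_domain : IsDomain (A ⊗[ℂ] B))

/-- `a ↦ a ⊗ 1` -/
def Ten.inl : A →ₐ[ℂ] Ten A B :=
  Algebra.TensorProduct.includeLeft (R := ℂ) (S := ℂ) (A := A) (B := B)

/-- `b ↦ 1 ⊗ b` -/
def Ten.inr : B →ₐ[ℂ] Ten A B := Algebra.TensorProduct.includeRight (R := ℂ) (A := A) (B := B)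

/-- the field of fractions of the tensor product: the function field of the product of two
varieties with function fields `A`, `B` -/
def Jf : Type := FractionRing (Ten A B)

/-- its field structure -/
instance Jf.fld : Field (Jf A B) := FractionRing.field (Ten A B)

/-- its algebra structure -/
instance Jf.alg : Algebra ℂ (Jf A B) :=
  OreLocalization.instAlgebra (R := Ten A B) (S := nonZeroDivisors (Ten A B)) (R₀ := ℂ)

/-- the embedding of `A` -/
def Jf.inl : A →ₐ[ℂ] Jf A B := (fr (Ten A B)).comp (Ten.inl A B)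

/-- the embedding of `B` -/
def Jf.inr : B →ₐ[ℂ] Jf A B := (fr (Ten A B)).comp (Ten.inr A B)

end

/-! ## Intersection numbers -/

section
variable {l : ℂ}

/-- the image of a point under an embedding of fields -/
def mv {R P F K : Type} [CommRing R] [CommRing P] [Field F] [Field K] [Algebra R P] [Algebra R F]
    [Algebra R K] [Algebra P F] [Algebra P K] [IsScalarTower R P F] [IsScalarTower R P K]
    {W : WeierstrassCurve R} (f : F →ₐ[P] K) (p : Pt W F) : Pt W K :=
  WeierstrassCurve.Affine.Point.map f p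

/-- the degree of the difference of two points `(z, w)` and `(z', w')` of `X` over a common field
`Ω`: the degree of `Ω` over the field generated by its coordinates (`0` if infinite) -/
def diff {A B Ω : Type} [Field A] [Field B] [Field Ω] [Algebra ℂ A] [Algebra ℂ B] [Algebra ℂ Ω]
    (f : A →ₐ[ℂ] Ω) (g : B →ₐ[ℂ] Ω) (z : Fin 3 → Pt (E1 l) A) (w : Fin 3 → Pt E2 A)
    (z' : Fin 3 → Pt (E1 l) B) (w' : Fin 3 → Pt E2 B) : ℕ :=
  dg ℂ ((⋃ j, cs (mv f (z j) - mv g (z' j))) ∪ ⋃ j, cs (mv f (w j) - mv g (w' j)))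

/-- the intersection number of `Z` and `W`: the degree of the difference map `Z × W → X`,
`(ξ, η) ↦ ξ - η`, which is the number of points of `Z ∩ (W + t)` for general `t` -/
def inter (Z W : SubVar l) : ℕ :=
  diff (Jf.inl Z.M W.M) (Jf.inr Z.M W.M) Z.z Z.w W.z W.w

/-! ## The space `N₃(X)_ℝ` and the effective cone -/

/-- `Z` as a function on the subvarieties -/
def cl₀ (Z : SubVar l) : SubVar l → ℝ := fun W => inter Z W

end

/-- the real vector space spanned by the functions `cl₀ Z` -/
def V (l : ℂ) : Set (SubVar l → ℝ) := Submodule.span ℝ (Set.range (cl₀ (l := l)))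

/-- `N₃(X)_ℝ`: real cycles of dimension 3 modulo numerical equivalence -/
def N₃ (l : ℂ) : Type 1 := V l

/-- the weakest topology for which the intersection numbers with the subvarieties are
continuous -/
instance N₃.top (l : ℂ) : TopologicalSpace (N₃ l) := instTopologicalSpaceSubtype

variable {l : ℂ}

/-- the intersection numbers of a class with the subvarieties -/
def N₃.val (α : N₃ l) : SubVar l → ℝ := Subtype.val α

/-- the class of a subvariety -/
def cl (Z : SubVar l) : N₃ l := ⟨cl₀ Z, Submodule.subset_span ⟨Z, rfl⟩⟩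

/-- the effective cone: the closure of the convex cone spanned by the classes of the
subvarieties -/
def Eff (l : ℂ) : Set (N₃ l) :=
  closure {α | ∃ (n : ℕ) (a : Fin n → ℝ) (Z : Fin n → SubVar l), (∀ i, 0 ≤ a i) ∧
    ∀ W, α.val W = ∑ i, a i * inter (Z i) W}

/-- some real combination of intersection numbers with subvarieties is nonnegative on all
subvarieties, positive on one of them, and zero on `Y` -/
def Supported (Y : SubVar l) : Prop :=
  ∃ (n : ℕ) (c : Fin n → ℝ) (K : Fin n → SubVar l),
    (∀ Z : SubVar l, 0 ≤ ∑ i, c i * inter Z (K i)) ∧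
    (∃ Z : SubVar l, 0 < ∑ i, c i * inter Z (K i)) ∧
    ∑ i, c i * inter Y (K i) = 0

/-! ## Tangent spaces -/

/-- indices of the 12 affine coordinates: the curve, and 0 for `x`, 1 for `y` -/
abbrev Ix : Type := (Fin 3 ⊕ Fin 3) × Fin 2

/-- the value of a polynomial -/
def ev {σ : Type} (f : MvPolynomial σ ℂ) (x : σ → ℂ) : ℂ := MvPolynomial.eval x f

/-- the affine part of `X`, where all six components are affine points -/
def Xa (l : ℂ) : Set (Ix → ℂ) :=
  {x | (∀ j, x (.inl j, 1) ^ 2 = x (.inl j, 0) ^ 3 + x (.inl j, 0) ^ 2 + l) ∧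
    ∀ j, x (.inr j, 1) ^ 2 = x (.inr j, 0) ^ 3 + 1}

/-- the tangent space of `X` at a point of its affine part -/
def TX (x : Ix → ℂ) : Set (Ix → ℂ) :=
  {v | (∀ j, 2 * x (.inl j, 1) * v (.inl j, 1) =
      (3 * x (.inl j, 0) ^ 2 + 2 * x (.inl j, 0)) * v (.inl j, 0)) ∧
    ∀ j, 2 * x (.inr j, 1) * v (.inr j, 1) = 3 * x (.inr j, 0) ^ 2 * v (.inr j, 0)}

/-- the 12 coordinates of the generic point of `Y` (`0, 0` for a component at infinity) -/
def co (Y : SubVar l) : Ix → Y.M :=
  fun i => ![Sum.elim (fun j => xc (Y.z j)) (fun j => xc (Y.w j)) i.1,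
    Sum.elim (fun j => yc (Y.z j)) (fun j => yc (Y.w j)) i.1] i.2

/-- the polynomials in the 12 coordinates which vanish on `Y` -/
def I (Y : SubVar l) : Set (MvPolynomial Ix ℂ) := {f | MvPolynomial.aeval (co Y) f = 0}

/-- the point `x` of the affine part of `X` lies on `Y` (and `Y` meets the affine part) -/
def Mem (Y : SubVar l) (x : Ix → ℂ) : Prop :=
  (∀ j, Y.z j ≠ .zero) ∧ (∀ j, Y.w j ≠ .zero) ∧ ∀ f ∈ I Y, ev f x = 0

/-- the Zariski tangent space of `Y` at `x` -/
def T (Y : SubVar l) (x : Ix → ℂ) : Set (Ix → ℂ) :=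
  {v | ∀ f ∈ I Y, ∑ i, ev (MvPolynomial.pderiv i f) x * v i = 0}

/-- the class `α` realises general tangent 3-planes: there is a Zariski open condition
`Q(x, v₁, v₂, v₃) ≠ 0`, satisfied for some point `x` of the affine part of `X` and some
`v₁, v₂, v₃ ∈ T_x X`, under which `v₁, v₂, v₃` are linearly independent and span the tangent space
at `x` of a subvariety through `x` with class `α` -/
def Realises (α : N₃ l) : Prop :=
  ∃ Q : MvPolynomial (Ix ⊕ Fin 3 × Ix) ℂ,
    (∃ x ∈ Xa l, ∃ v : Fin 3 → Ix → ℂ, (∀ i, v i ∈ TX x) ∧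
      ev Q (Sum.elim x fun i => v i.1 i.2) ≠ 0) ∧
    ∀ x ∈ Xa l, ∀ v : Fin 3 → Ix → ℂ, (∀ i, v i ∈ TX x) →
      ev Q (Sum.elim x fun i => v i.1 i.2) ≠ 0 →
      LinearIndependent ℂ v ∧
      ∃ Y : SubVar l, Mem Y x ∧ cl Y = α ∧ T Y x = Submodule.span ℂ (Set.range v)

end

end Pool.Agent.VMS
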