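import Pool.Agent.Lib_VM.FIN_h71
import Pool.Agent.Lib_VM.SDefs

/-!
# MP_5582d1_ag: the main theorem for the definitions of `SDefs`
-/

set_option autoImplicit false

namespace Pool.Agent.VMS.SMain

open Pool.Agent.VM (SubVar)

noncomputable section

section
variable {l : ℂ} (J : SubVar l → SubVar l → ℕ)

/-- `cl₀` for any pairing -/
def clI₀ (Z : SubVar l) : SubVar l → ℝ := fun W => J Z W

/-- `N₃` for any pairing -/
abbrev NI : Submodule ℝ (SubVar l → ℝ) := Submodule.span ℝ (Set.range (clI₀ J))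

/-- `cl` for any pairing -/
def clI (Z : SubVar l) : NI J := ⟨clI₀ J Z, Submodule.subset_span ⟨Z, rfl⟩⟩

/-- the old `Eff` for any pairing -/
def EffO : Set (NI J) :=
  closure {v | ∃ (n : ℕ) (a : Fin n → ℝ) (Z : Fin n → SubVar l), (∀ i, 0 ≤ a i) ∧
    v = ∑ i, a i • clI J (Z i)}

/-- the new `Eff` for any pairing -/
def EffN : Set (NI J) :=
  closure {α | ∃ (n : ℕ) (a : Fin n → ℝ) (Z : Fin n → SubVar l), (∀ i, 0 ≤ a i) ∧
    ∀ W, α.val W = ∑ i, a i * J (Z i) W}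

theorem eff_eq : EffO J = EffN J := by
  unfold EffO EffN
  congr 1
  ext α
  simp only [Set.mem_ofPred_eq]
  refine exists_congr fun n => exists_congr fun a => exists_congr fun Z => and_congr_right fun _ => ?_
  constructor
  · rintro rfl W
    simp [clI, clI₀, Finset.sum_apply]
  · intro h
    apply Subtype.ext
    funext W
    rw [h W]
    simp [clI, clI₀, Finset.sum_apply]

theorem mem_iff (Y : SubVar l) (x : Ix → ℂ) : Mem Y x ↔ Y.Mem x := by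
  constructor
  · rintro ⟨h1, h2, h3⟩
    exact ⟨⟨h1, h2⟩, h3⟩
  · rintro ⟨⟨h1, h2⟩, h3⟩
    exact ⟨h1, h2, h3⟩

theorem T_iff (Y : SubVar l) (x : Ix → ℂ) (S : Submodule ℂ (Ix → ℂ)) :
    T Y x = S ↔ Y.T x = S := by
  have : T Y x = (Y.T x : Set (Ix → ℂ)) := rfl
  rw [this, SetLike.coe_set_eq]

/-- the old `Realises` for any pairing -/
def RealO (α : NI J) : Prop :=
  ∃ Q : MvPolynomial (VM.Ix ⊕ Fin 3 × VM.Ix) ℂ,
    (∃ x ∈ VM.Xa l, ∃ v : Fin 3 → VM.Ix → ℂ, (∀ i, v i ∈ VM.TX x) ∧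
      MvPolynomial.eval (Sum.elim x fun i => v i.1 i.2) Q ≠ 0) ∧
    ∀ x ∈ VM.Xa l, ∀ v : Fin 3 → VM.Ix → ℂ, (∀ i, v i ∈ VM.TX x) →
      MvPolynomial.eval (Sum.elim x fun i => v i.1 i.2) Q ≠ 0 →
      LinearIndependent ℂ v ∧
      ∃ Y : SubVar l, Y.Mem x ∧ clI J Y = α ∧ Y.T x = Submodule.span ℂ (Set.range v)

/-- the new `Realises` for any pairing -/
def RealN (α : NI J) : Prop :=
  ∃ Q : MvPolynomial (Ix ⊕ Fin 3 × Ix) ℂ,
    (∃ x ∈ Xa l, ∃ v : Fin 3 → Ix → ℂ, (∀ i, v i ∈ TX x) ∧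
      MvPolynomial.eval (Sum.elim x fun i => v i.1 i.2) Q ≠ 0) ∧
    ∀ x ∈ Xa l, ∀ v : Fin 3 → Ix → ℂ, (∀ i, v i ∈ TX x) →
      MvPolynomial.eval (Sum.elim x fun i => v i.1 i.2) Q ≠ 0 →
      LinearIndependent ℂ v ∧
      ∃ Y : SubVar l, Mem Y x ∧ clI J Y = α ∧ T Y x = Submodule.span ℂ (Set.range v)

theorem real_mp (α : NI J) (h : RealO J α) : RealN J α := by
  obtain ⟨Q, h1, h2⟩ := h
  refine ⟨Q, h1, fun x hx v hv hQ => ?_⟩
  obtain ⟨h3, Y, h4, h5, h6⟩ := h2 x hx v hv hQ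
  exact ⟨h3, Y, (mem_iff Y x).2 h4, h5, (T_iff Y x _).2 h6⟩

/-- the old statement for any pairing -/
def StO : Prop :=
  ∃ Y : SubVar l, RealO J (clI J Y) ∧ clI J Y ∈ EffO J ∧ clI J Y ∉ interior (EffO J) ∧
    ∃ (n : ℕ) (c : Fin n → ℝ) (K : Fin n → SubVar l),
      (∀ Z : SubVar l, 0 ≤ ∑ i, c i * J Z (K i)) ∧
      (∃ Z : SubVar l, 0 < ∑ i, c i * J Z (K i)) ∧
      ∑ i, c i * J Y (K i) = 0

/-- the new statement for any pairing -/
def StN : Prop :=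
  ∃ Y : SubVar l, RealN J (clI J Y) ∧ clI J Y ∈ EffN J ∧ clI J Y ∉ interior (EffN J) ∧
    ∃ (n : ℕ) (c : Fin n → ℝ) (K : Fin n → SubVar l),
      (∀ Z : SubVar l, 0 ≤ ∑ i, c i * J Z (K i)) ∧
      (∃ Z : SubVar l, 0 < ∑ i, c i * J Z (K i)) ∧
      ∑ i, c i * J Y (K i) = 0

theorem st_mp (h : StO J) : StN J := by
  obtain ⟨Y, h1, h2, h3, h4⟩ := h
  rw [eff_eq] at h2 h3
  exact ⟨Y, real_mp J _ h1, h2, h3, h4⟩

end

/-- the two definitions of the intersection number agree -/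
theorem inter_eq (l : ℂ) :
    (VM.inter : SubVar l → SubVar l → ℕ) = (inter : SubVar l → SubVar l → ℕ) := by
  funext Z W
  rfl

theorem st_old (l : ℂ) (hl : Transcendental ℚ l) : StO (VM.inter : SubVar l → SubVar l → ℕ) :=
  VM.FINp.main l hl

theorem st_new (l : ℂ) (hl : Transcendental ℚ l) : StN (inter : SubVar l → SubVar l → ℕ) := by
  rw [← inter_eq]
  exact st_mp _ (st_old l hl)

theorem main (l : ℂ) (hl : Transcendental ℚ l) : ∃ Y : SubVar l,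
    Realises (cl Y) ∧ cl Y ∈ Eff l ∧ cl Y ∉ interior (Eff l) ∧ Supported Y :=
  st_new l hl

end

end Pool.Agent.VMS.SMain
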