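import Pool.Agent.Lib_VM.StubsVI_h71
import Pool.Agent.Lib_helper67.VM.PtF
import Pool.Agent.Lib_VM.MQ_h38

/-!
# MP_5582d1_ag, SPW: two generic triples on `E₂` are conjugate (helper75)
-/

set_option autoImplicit false
set_option linter.style.haveILetI false

namespace Pool.Agent.VM.SPWp

open scoped Classical
open MvPolynomial

/-- products of `X_i³ + 1` are not squares, not even up to squares -/
private theorem nsq (I : Finset (Fin 3)) (hI : I.Nonempty) (a b : MvPolynomial (Fin 3) ℂ)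
    (hb : b ≠ 0) (h : a ^ 2 = (∏ i ∈ I, (X i ^ 3 + 1)) * b ^ 2) : False := by
  have hdvd : b ∣ a := by
    rw [← UniqueFactorizationMonoid.pow_dvd_pow_iff_dvd (n := 2) two_ne_zero]
    exact ⟨_, by rw [h, mul_comm]⟩
  obtain ⟨q, rfl⟩ := hdvd
  have h1 : q ^ 2 = ∏ i ∈ I, ((X i : MvPolynomial (Fin 3) ℂ) ^ 3 + 1) := by
    have hb2 : b ^ 2 ≠ 0 := pow_ne_zero 2 hb
    apply mul_right_cancel₀ hb2
    rw [← h]; ring
  obtain ⟨j, hj⟩ := hI
  have h2 := congrArg (MvPolynomial.aeval (fun i => if i = j then (Polynomial.X : Polynomial ℂ) else 0)) h1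
  rw [map_pow, map_prod] at h2
  have h3 : ∏ i ∈ I, (MvPolynomial.aeval (fun i => if i = j then (Polynomial.X : Polynomial ℂ) else 0))
      ((X i : MvPolynomial (Fin 3) ℂ) ^ 3 + 1) = Polynomial.X ^ 3 + 1 := by
    rw [Finset.prod_eq_single j]
    · simp
    · intro i _ hij
      simp [hij]
    · intro h; exact absurd hj h
  rw [h3] at h2
  have h4 := congrArg Polynomial.natDegree h2
  have hm : (Polynomial.X ^ 3 + 1 : Polynomial ℂ).natDegree = 3 := by
    rw [show (Polynomial.X ^ 3 + 1 : Polynomial ℂ) = Polynomial.X ^ 3 + Polynomial.C 1 by simp]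
    exact Polynomial.natDegree_X_pow_add_C
  rw [hm, Polynomial.natDegree_pow] at h4
  omega

/-- SPW: two generic triples are conjugate -/
theorem SPW {M Ω : Type} [Field M] [Algebra ℂ M] [Field Ω] [Algebra ℂ Ω] (w : Fin 3 → Pt E2 M)
    (w' : Fin 3 → Pt E2 Ω) (hw : AlgebraicIndependent ℂ fun j => xc (w j))
    (hw' : AlgebraicIndependent ℂ fun j => xc (w' j)) :
    ∃ σ : IntermediateField.adjoin ℂ (⋃ j, cs (w j)) →ₐ[ℂ] Ω,
      ∀ j (hx : xc (w j) ∈ IntermediateField.adjoin ℂ (⋃ j, cs (w j)))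
        (hy : yc (w j) ∈ IntermediateField.adjoin ℂ (⋃ j, cs (w j))),
        σ ⟨xc (w j), hx⟩ = xc (w' j) ∧ σ ⟨yc (w j), hy⟩ = yc (w' j) := by
  -- the points are not zero
  have hw0 : ∀ j, w j ≠ 0 := by
    intro j h
    have h1 := hw.ne_zero j
    rw [h] at h1
    exact h1 rfl
  have hw0' : ∀ j, w' j ≠ 0 := by
    intro j h
    have h1 := hw'.ne_zero j
    rw [h] at h1
    exact h1 rfl
  have hy : ∀ j, yc (w j) ^ 2 = xc (w j) ^ 3 + 1 := fun j => by
    have := ptf_sq (hw0 j); simpa using this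
  have hy' : ∀ j, yc (w' j) ^ 2 = xc (w' j) ^ 3 + 1 := fun j => by
    have := ptf_sq (hw0' j); simpa using this
  set x : Fin 3 → M := fun j => xc (w j) with hxdef
  set x' : Fin 3 → Ω := fun j => xc (w' j) with hxdef'
  set K0 := IntermediateField.adjoin ℂ (Set.range x) with hK0
  have hxK : ∀ j, x j ∈ K0 := fun j => IntermediateField.subset_adjoin _ _ ⟨j, rfl⟩
  -- the map on `ℂ(x)`
  let f : K0 →ₐ[ℂ] Ω := (IntermediateField.val _).comp
    (hw'.aevalEquivField.toAlgHom.comp hw.aevalEquivField.symm.toAlgHom)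
  have hfx : ∀ j, f ⟨x j, hxK j⟩ = x' j := by
    intro j
    have h1 : hw.aevalEquivField (algebraMap (MvPolynomial (Fin 3) ℂ) (FractionRing (MvPolynomial (Fin 3) ℂ)) (X j)) = (⟨x j, hxK j⟩ : K0) := by
      apply Subtype.ext
      rw [hw.aevalEquivField_algebraMap_apply_coe, aeval_X]
    have h2 : hw.aevalEquivField.symm (⟨x j, hxK j⟩ : K0) =
        algebraMap (MvPolynomial (Fin 3) ℂ) (FractionRing (MvPolynomial (Fin 3) ℂ)) (X j) := by
      rw [← h1, AlgEquiv.symm_apply_apply]
    change ((hw'.aevalEquivField (hw.aevalEquivField.symm (⟨x j, hxK j⟩ : K0)) :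
      IntermediateField.adjoin ℂ (Set.range x')) : Ω) = x' j
    rw [h2, hw'.aevalEquivField_algebraMap_apply_coe, aeval_X]
  let F : Fin 3 → K0 := fun j => ⟨x j, hxK j⟩ ^ 3 + 1
  have hF : ∀ j, yc (w j) ^ 2 = algebraMap K0 M (F j) := fun j => hy j
  -- nonsquares
  have hns : ∀ I : Finset (Fin 3), I.Nonempty → ¬ IsSquare (∏ i ∈ I, F i) := by
    rintro I hI ⟨s, hs⟩
    obtain ⟨a, b, hb, hab⟩ : ∃ a b : MvPolynomial (Fin 3) ℂ, b ≠ 0 ∧
        (s : M) = aeval x a / aeval x b := by
      obtain ⟨a, b, hb, hab⟩ := IsFractionRing.div_surjective (A := MvPolynomial (Fin 3) ℂ)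
        (hw.aevalEquivField.symm s)
      refine ⟨a, b, nonZeroDivisors.ne_zero hb, ?_⟩
      have h3 := congrArg hw.aevalEquivField hab
      rw [AlgEquiv.apply_symm_apply, map_div₀] at h3
      rw [← h3]
      push_cast
      rw [hw.aevalEquivField_algebraMap_apply_coe, hw.aevalEquivField_algebraMap_apply_coe]
    have hinj := algebraicIndependent_iff_injective_aeval.1 hw
    have hbx : aeval x b ≠ 0 := by
      intro h0
      exact hb (hinj (by rw [h0, map_zero]))
    have h4 : (aeval x) (a ^ 2) = (aeval x) ((∏ i ∈ I, (X i ^ 3 + 1)) * b ^ 2) := by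
      have h5 := congrArg (Subtype.val) hs
      have h6 : ((∏ i ∈ I, F i : K0) : M) = aeval x (∏ i ∈ I, ((X i : MvPolynomial (Fin 3) ℂ) ^ 3 + 1)) := by
        rw [map_prod]
        have : ((∏ i ∈ I, F i : K0) : M) = ∏ i ∈ I, ((F i : K0) : M) := by
          exact map_prod (algebraMap K0 M) _ _
        rw [this]
        refine Finset.prod_congr rfl fun i _ => ?_
        simp [F]
      rw [h6] at h5
      rw [map_mul, h5, map_pow, map_pow]
      have h7 : ((s * s : K0) : M) = (s : M) * (s : M) := rfl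
      rw [h7, hab]
      field_simp
    exact nsq I hI a b hb (hinj h4)
  obtain ⟨-, hsig⟩ := IV.mq_main (fun j => yc (w j)) F hF hns
  set S : Set M := Set.range (fun j => yc (w j)) with hS
  -- extend `f`
  obtain ⟨φ, hφ⟩ := IntermediateField.exists_algHom_adjoin_of_splits' (E := M) (S := S) f (by
    rintro _ ⟨j, rfl⟩
    have hmon : (Polynomial.X ^ 2 - Polynomial.C (F j)).Monic :=
      Polynomial.monic_X_pow_sub_C _ two_ne_zero
    have hroot : Polynomial.aeval (yc (w j)) (Polynomial.X ^ 2 - Polynomial.C (F j)) = 0 := by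
      rw [map_sub, map_pow, Polynomial.aeval_X, Polynomial.aeval_C, hF, sub_self]
    refine ⟨⟨_, hmon, hroot⟩, ?_⟩
    have hsp : ((Polynomial.X ^ 2 - Polynomial.C (F j)).map f.toRingHom).Splits := by
      have : (Polynomial.X ^ 2 - Polynomial.C (F j)).map f.toRingHom =
          (Polynomial.X - Polynomial.C (yc (w' j))) * (Polynomial.X - Polynomial.C (-(yc (w' j)))) := by
        have h8 : f (F j) = yc (w' j) ^ 2 := by
          simp only [F, map_add, map_pow, map_one, hfx]
          exact (hy' j).symm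
        have h9 : f.toRingHom (F j) = yc (w' j) ^ 2 := h8
        rw [Polynomial.map_sub, Polynomial.map_pow, Polynomial.map_X, Polynomial.map_C, h9,
          map_pow, map_neg]
        ring
      rw [this]
      exact (Polynomial.Splits.X_sub_C _).mul (Polynomial.Splits.X_sub_C _)
    refine hsp.of_dvd ?_ (Polynomial.map_dvd _ (minpoly.dvd _ _ hroot))
    exact (hmon.map _).ne_zero)
  have hφf : ∀ a : K0, φ (algebraMap K0 _ a) = f a := fun a => congr($hφ a)
  let yL : Fin 3 → IntermediateField.adjoin K0 S := fun j =>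
    ⟨yc (w j), IntermediateField.subset_adjoin _ _ ⟨j, rfl⟩⟩
  have hyφ : ∀ j, φ (yL j) = yc (w' j) ∨ φ (yL j) = -yc (w' j) := by
    intro j
    have h1 : yL j ^ 2 = algebraMap K0 _ (F j) := Subtype.ext (hF j)
    have h2 : φ (yL j) ^ 2 = yc (w' j) ^ 2 := by
      rw [← map_pow, h1, hφf]
      simp only [F, map_add, map_pow, map_one, hfx]
      exact (hy' j).symm
    exact sq_eq_sq_iff_eq_or_eq_neg.1 h2
  obtain ⟨τ, hτ⟩ := hsig (Finset.univ.filter fun j => φ (yL j) ≠ yc (w' j))
  let ψ : IntermediateField.adjoin K0 S →ₐ[ℂ] Ω := φ.comp ((τ : _ →ₐ[K0] _).restrictScalars ℂ)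
  have hψx : ∀ j, ψ (algebraMap K0 _ ⟨x j, hxK j⟩) = x' j := by
    intro j
    change φ (τ (algebraMap K0 _ ⟨x j, hxK j⟩)) = x' j
    rw [AlgEquiv.commutes, hφf, hfx]
  have hψy : ∀ j, ψ (yL j) = yc (w' j) := by
    intro j
    change φ (τ (yL j)) = yc (w' j)
    have h1 := hτ j
    by_cases hj : φ (yL j) = yc (w' j)
    · rw [if_neg (by simp [hj])] at h1
      have h2 : τ (yL j) = yL j := Subtype.ext h1
      rw [h2, hj]
    · rw [if_pos (by simp [hj])] at h1
      have h2 : τ (yL j) = - yL j := Subtype.ext h1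
      rw [h2, map_neg, (hyφ j).resolve_left hj, neg_neg]
  have hle : IntermediateField.adjoin ℂ (⋃ j, cs (w j)) ≤
      (IntermediateField.adjoin K0 S).restrictScalars ℂ := by
    rw [IntermediateField.adjoin_le_iff]
    intro z hz
    obtain ⟨j, hj⟩ := Set.mem_iUnion.1 hz
    rcases hj with rfl | hj
    · exact (algebraMap K0 (IntermediateField.adjoin K0 S) ⟨x j, hxK j⟩).2
    · rw [Set.mem_singleton_iff] at hj
      subst hj
      exact (yL j).2
  refine ⟨ψ.comp (IntermediateField.inclusion hle), fun j hx hy => ⟨?_, ?_⟩⟩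
  · have h1 := hψx j
    exact h1
  · have h1 := hψy j
    exact h1

end Pool.Agent.VM.SPWp
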