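import Pool.Agent.Lib_helper85.VM.Defs

/-!
# MP_5582d1_ag: stubs, general part
-/

set_option autoImplicit false

namespace Pool.Agent.VM

open scoped Classical TensorProduct

/-! ### FORM (helper83, helper80) -/

/-! ### Valuations (part I: helper4) -/

/-! ### Local heights (part II: helper67, helper5) -/

/-! ### Tensor products -/

/-! ### Heights (part III: helper15) -/

end Pool.Agent.VM
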