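import Pool.Agent.Lib_VM.StubsVI_h71
import Pool.Agent.Lib_helper67.VM.PtF
import Pool.Agent.Lib_VM.MQ_h38

/-!
# MP_5582d1_ag: stubs, part IV (the very moving varieties `Y`)

TARGETS: `NSQ`, `YG`, `YEX` of `StubsVI` (helper71).
-/

set_option autoImplicit false
set_option linter.style.haveILetI false

namespace Pool.Agent.VM

open scoped Classical

/-! ### Y1: the chord law in a ring -/

section chord

/-- the point `Q` has the coordinates `g x`, `g y` -/
def Sp {R F O : Type} [CommRing R] {W : WeierstrassCurve R} [Field F] [Algebra R F]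
    (g : O → F) (x y : O) (Q : Pt W F) : Prop := Q ≠ 0 ∧ xc Q = g x ∧ yc Q = g y

/-- a derivation over `g` -/
structure Der {R F O : Type} [CommRing R] [CommRing O] [Algebra R O] [Field F] [Algebra R F]
    (g : O →ₐ[R] F) (δ : O → F) : Prop where
  add : ∀ x y, δ (x + y) = δ x + δ y
  mul : ∀ x y, δ (x * y) = g x * δ y + g y * δ x
  alg : ∀ r : R, δ (algebraMap R O r) = 0

/-- `(x, y)` moves with the invariant velocity `ω` -/
def Mv {R F O : Type} [CommRing R] [CommRing O] [Algebra R O] [Field F] [Algebra R F]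
    (a : R) (g : O →ₐ[R] F) (δ : O → F) (x y : O) (ω : F) : Prop :=
  δ x = 2 * g y * ω ∧ δ y = (3 * g x ^ 2 + 2 * algebraMap R F a * g x) * ω

variable {R O F : Type} [CommRing R] [CommRing O] [Algebra R O] [Field F] [Algebra R F]

/-- chord law, `x`-coordinate, `u = 1 / (x₁ - x₂)` -/
def chx (a : R) (x₁ y₁ x₂ y₂ u : O) : O := ((y₁ - y₂) * u) ^ 2 - algebraMap R O a - x₁ - x₂

/-- chord law, `y`-coordinate -/
def chy (a : R) (x₁ y₁ x₂ y₂ u : O) : O :=
  -((y₁ - y₂) * u * (chx a x₁ y₁ x₂ y₂ u - x₁) + y₁)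

/-! ### Y2: linear combinations -/

end chord

/-! ### Y3: Nakayama for the sheets -/

/-! ### Y4: points and subfields -/

section pts
variable {R K M N : Type} [CommRing R] [Field K] [Field M] [Field N] [Algebra R K] [Algebra R M]
  [Algebra R N] [Algebra K M] [Algebra K N] [IsScalarTower R K M] [IsScalarTower R K N]
  {W : WeierstrassCurve R}

end pts

/-! ### Y5: algebraic points form a pure subgroup -/

section pure
variable {R K M : Type} [CommRing R] [Field K] [CharZero K] [Field M] [Algebra R K] [Algebra R M]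
  [Algebra K M] [IsScalarTower R K M]

end pure

/-! ### Y6: two generic points are conjugate, square roots of power series -/

/-! ### Y7: generic triples -/

section gen
variable {M : Type} [Field M] [Algebra ℂ M] (w : Fin 3 → Pt E2 M)

end gen

/-! ### Y8: NSQ -/

/-! ### Y9: quadratic functions with sign symmetries -/

/-! ### Y10: the family -/

/-- the data of the family: `w` generic, `xc (P_i) = al_i xc (ell_i · w + c_i) + be_i` -/
structure YD {M : Type} [Field M] [Algebra ℂ M] (l : ℂ) (w : Fin 3 → Pt E2 M)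
    (P : Fin 9 → Pt (E1 l) M) (c : Fin 9 → Pt E2 ℂ) (al be : Fin 9 → ℂ) : Prop where
  gen : AlgebraicIndependent ℂ fun j => xc (w j)
  al0 : ∀ i, al i ≠ 0
  P0 : ∀ i, P i ≠ 0
  xP : ∀ i, xc (P i) = algebraMap ℂ M (al i) * xc (comb (V.ell i) w + kc (c i)) +
      algebraMap ℂ M (be i)
  top : IntermediateField.adjoin ℂ ((⋃ i, cs (P i)) ∪ ⋃ j, cs (w j)) = ⊤

section YD
variable {M : Type} [Field M] [Algebra ℂ M] {l : ℂ} {w : Fin 3 → Pt E2 M}
  {P : Fin 9 → Pt (E1 l) M} {c : Fin 9 → Pt E2 ℂ} {al be : Fin 9 → ℂ}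

end YD

/-! ### Y11: arcs -/

/-! ### Y12: independent points -/

end Pool.Agent.VM
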