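import Pool.Agent.Lib_VM.DefsVI_h71
import Pool.Agent.Lib_VM.StubsA_h85
import Pool.Agent.Lib_VM.V_h80

/-!
# MP_5582d1_ag: stubs, part VI (numerical equivalence and the final statement)
-/

set_option autoImplicit false
set_option linter.style.haveILetI false

namespace Pool.Agent.VM

open scoped Classical TensorProduct

/-! ### VI-J: products of function fields -/

/-- `Ω` is the function field of the product of the varieties with function fields `M`, `N` -/
structure Joint {P M N Ω : Type} [Field P] [Field M] [Field N] [Field Ω] [Algebra P M]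
    [Algebra P N] [Algebra P Ω] (f : M →ₐ[P] Ω) (g : N →ₐ[P] Ω) : Prop where
  inj : Function.Injective (Algebra.TensorProduct.lift f g fun _ _ => Commute.all _ _)
  gen : IntermediateField.adjoin P (Set.range f ∪ Set.range g) = ⊤

/-- constant points -/
noncomputable def kc {R P F : Type} [CommRing R] [Field P] [Field F] [Algebra R P] [Algebra R F]
    [Algebra P F] [IsScalarTower R P F] {W : WeierstrassCurve R} : Pt W P →+ Pt W F :=
  mp (Algebra.ofId P F)

section J
variable {P : Type} [Field P] [IsAlgClosed P]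

variable {M N Ω : Type} [Field M] [Field N] [Field Ω] [Algebra P M] [Algebra P N] [Algebra P Ω]

end J

/-! ### VI-S: generic triples on `E₂` -/

/-! ### VI-K: abelian subvarieties -/

/-! ### The varieties `Y` (part IV) -/

/-- `Y` belongs to the family of part IV -/
def IsY {l : ℂ} (Y : SubVar l) : Prop :=
  ∃ (P : Fin 9 → Pt (E1 l) Y.M) (c : Fin 9 → Pt E2 ℂ) (al be : Fin 9 → ℂ)
    (zc : Fin 3 → Pt (E1 l) ℂ),
    (∀ i, al i ≠ 0) ∧ (∀ i, P i ≠ 0) ∧
    (∀ i, xc (P i) = algebraMap ℂ Y.M (al i) * xc (comb (V.ell i) Y.w + kc (c i)) +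
      algebraMap ℂ Y.M (be i)) ∧
    (∀ j, Y.z j = kc (zc j) + ∑ i, V.rho i j • P i) ∧
    AlgebraicIndependent ℂ (fun j => xc (Y.w j)) ∧
    IntermediateField.adjoin ℂ ((⋃ i, cs (P i)) ∪ ⋃ j, cs (Y.w j)) = ⊤ ∧
    dg ℂ (⋃ j, cs (Y.w j)) = 2 ^ 9

/-- the graph of `L` in the tangent space of `X` at `x` -/
def graphT (x : Ix → ℂ) (L : Fin 3 → Fin 3 → ℂ) : Set (Ix → ℂ) :=
  {v | v ∈ TX x ∧ ∀ j : Fin 3, v (.inl j, 0) / (2 * x (.inl j, 1)) =
    ∑ k : Fin 3, L j k * (v (.inr k, 0) / (2 * x (.inr k, 1)))}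

/-! ### VI-C: numerical equivalence -/

/-! ### VI-R: general tangent planes -/

end Pool.Agent.VM
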