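import Pool.Agent.Lib_VM.Base_h71

/-!
# MP_5582d1_ag: subfields as fields
-/

set_option autoImplicit false
set_option linter.style.haveILetI false

namespace Pool.Agent.VM

open scoped Classical TensorProduct
open IntermediateField

attribute [-instance] Subtype.instDecidableEq

section
variable {P N : Type} [Field P] [Field N] [Algebra P N]

/-- generated subfields of a subfield -/
theorem map_adjoin_pre (L : IntermediateField P N) {A : Set N} (hA : A ⊆ (L : Set N)) :
    (adjoin P (L.val ⁻¹' A)).map L.val = adjoin P A := by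
  rw [adjoin_map]
  congr 1
  rw [Set.image_preimage_eq_inter_range]
  apply Set.inter_eq_left.2
  rintro x hx
  exact ⟨⟨x, hA hx⟩, rfl⟩

theorem mem_adjoin_pre (L : IntermediateField P N) {A : Set N} (hA : A ⊆ (L : Set N)) (t : L) :
    t ∈ adjoin P (L.val ⁻¹' A) ↔ (t : N) ∈ adjoin P A := by
  rw [← map_adjoin_pre L hA]
  constructor
  · intro h
    exact ⟨t, h, rfl⟩
  · rintro ⟨t', h, h'⟩
    have : t' = t := Subtype.ext h'
    rwa [← this]

/-- degrees in a subfield -/
theorem dg_pre (L : IntermediateField P N) {A : Set N} (hA : A ⊆ (L : Set N)) :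
    dg P A = Module.finrank L N * dg P (L.val ⁻¹' A) := by
  have hle : adjoin P A ≤ L := adjoin_le_iff.2 hA
  have h1 : Module.finrank (adjoin P A) (extendScalars hle) *
      Module.finrank (extendScalars hle) N = Module.finrank (adjoin P A) N :=
    Module.finrank_mul_finrank _ _ _
  have h2 : Module.finrank (extendScalars hle) N = Module.finrank L N := rfl
  have h3 : Module.finrank (adjoin P (L.val ⁻¹' A)) L =
      Module.finrank (adjoin P A) (extendScalars hle) := by
    let i : adjoin P (L.val ⁻¹' A) ≃+* adjoin P A :=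
      { toFun := fun x => ⟨(x.1 : N), (mem_adjoin_pre L hA x.1).1 x.2⟩
        invFun := fun y => ⟨⟨(y : N), hle y.2⟩, (mem_adjoin_pre L hA _).2 y.2⟩
        left_inv := fun x => rfl
        right_inv := fun y => rfl
        map_mul' := fun x y => rfl
        map_add' := fun x y => rfl }
    exact Algebra.finrank_eq_of_equiv_equiv i (RingEquiv.refl L) (by ext x; rfl)
  unfold dg
  rw [← h1, h2, h3, mul_comm]

/-- generated subfields and inclusions -/
theorem dg_ne_zero_of_finite (A : Set N) (h : FiniteDimensional (adjoin P A) N) : dg P A ≠ 0 :=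
  (Module.finrank_pos (R := adjoin P A) (M := N)).ne'

theorem tra (E : IntermediateField P N) (h : Algebra.IsAlgebraic E N) :
    Algebra.trdeg P E = Algebra.trdeg P N := by
  have h1 := trdeg_add_eq P E (A := N)
  rw [← h1, trdeg_eq_zero (R := E) (A := N), add_zero]

/-- restriction of the range -/
def cod {M : Type} [Field M] [Algebra P M] (f : M →ₐ[P] N) (L : IntermediateField P N)
    (h : Set.range f ⊆ (L : Set N)) : M →ₐ[P] L :=
  f.codRestrict L.toSubalgebra fun x => h ⟨x, rfl⟩

theorem val_cod {M : Type} [Field M] [Algebra P M] (f : M →ₐ[P] N) (L : IntermediateField P N)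
    (h : Set.range f ⊆ (L : Set N)) (x : M) : ((cod f L h x : L) : N) = f x := rfl

theorem val_comp_cod {M : Type} [Field M] [Algebra P M] (f : M →ₐ[P] N)
    (L : IntermediateField P N) (h : Set.range f ⊆ (L : Set N)) :
    L.val.comp (cod f L h) = f := rfl

/-- points of the subfield -/
theorem mp_val_cod {R : Type} [CommRing R] [Algebra R P] {M : Type} [Field M] [Algebra P M]
    [Algebra R M] [Algebra R N] [IsScalarTower R P M] [IsScalarTower R P N]
    {W : WeierstrassCurve R} (f : M →ₐ[P] N)
    (L : IntermediateField P N) (h : Set.range f ⊆ (L : Set N)) (Q : Pt W M) :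
    mp L.val (mp (cod f L h) Q) = mp f Q := by
  cases Q <;> rfl

end

end Pool.Agent.VM
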