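import Pool.Agent.Lib_VM.StubsIV_h38

/-!
# MP_5582d1_ag, part IV: local rings in a field
-/

set_option autoImplicit false

namespace Pool.Agent.VM.IVT

open scoped Classical

/-- fractions `φ n / φ d` with `ψ d` invertible, and the extension of `ψ` to them -/
theorem lochom {B D M : Type} [CommRing B] [Algebra ℂ B] [Field M] [Algebra ℂ M] [CommRing D]
    [Nontrivial D] [Algebra ℂ D] (φ : B →ₐ[ℂ] M) (ψ : B →ₐ[ℂ] D) (hker : ∀ b, φ b = 0 → ψ b = 0) :
    ∃ (O : Subalgebra ℂ M) (Ψ : O →ₐ[ℂ] D),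
      (∀ a : M, a ∈ O ↔ ∃ n d, IsUnit (ψ d) ∧ a * φ d = φ n) ∧
      (∀ (b : B) (h : φ b ∈ O), Ψ ⟨φ b, h⟩ = ψ b) ∧ ∀ a : O, IsUnit (Ψ a) → IsUnit a := by
  have hne : ∀ d, IsUnit (ψ d) → φ d ≠ 0 := by
    intro d hd h0
    rw [hker d h0] at hd
    exact not_isUnit_zero hd
  let O : Subalgebra ℂ M :=
    { carrier := {a | ∃ n d, IsUnit (ψ d) ∧ a * φ d = φ n}
      mul_mem' := by
        rintro a a' ⟨n, d, hd, h⟩ ⟨n', d', hd', h'⟩
        refine ⟨n * n', d * d', by rw [map_mul]; exact hd.mul hd', ?_⟩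
        rw [map_mul, map_mul, ← h, ← h']; ring
      add_mem' := by
        rintro a a' ⟨n, d, hd, h⟩ ⟨n', d', hd', h'⟩
        refine ⟨n * d' + n' * d, d * d', by rw [map_mul]; exact hd.mul hd', ?_⟩
        rw [map_mul, map_add, map_mul, map_mul, ← h, ← h']; ring
      algebraMap_mem' := by
        intro r
        refine ⟨algebraMap ℂ B r, 1, by rw [map_one]; exact isUnit_one, ?_⟩
        rw [map_one, mul_one, AlgHom.commutes] }
  have hmem : ∀ a : M, a ∈ O ↔ ∃ n d, IsUnit (ψ d) ∧ a * φ d = φ n := fun a => Iff.rfl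
  -- the value of a fraction
  have huniq : ∀ (a : M) (n d n' d' : B), IsUnit (ψ d) → a * φ d = φ n → IsUnit (ψ d') →
      a * φ d' = φ n' → ψ n * ψ d' = ψ n' * ψ d := by
    intro a n d n' d' hd h hd' h'
    have h1 : φ (n * d' - n' * d) = 0 := by
      rw [map_sub, map_mul, map_mul, ← h, ← h']; ring
    have h2 := hker _ h1
    rw [map_sub, map_mul, map_mul] at h2
    exact sub_eq_zero.1 h2
  have hex : ∀ a : O, ∃ t : D, ∀ n d : B, IsUnit (ψ d) → (a : M) * φ d = φ n → t * ψ d = ψ n := by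
    rintro ⟨a, n, d, hd, h⟩
    obtain ⟨u, hu⟩ := hd
    refine ⟨ψ n * (↑u⁻¹ : D), fun n' d' hd' h' => ?_⟩
    have h1 := huniq a n d n' d' ⟨u, hu⟩ h hd' h'
    have h2 : (↑u⁻¹ : D) * ψ d = 1 := by rw [← hu]; exact Units.inv_mul u
    calc ψ n * (↑u⁻¹ : D) * ψ d' = (↑u⁻¹ : D) * (ψ n * ψ d') := by ring
      _ = (↑u⁻¹ : D) * (ψ n' * ψ d) := by rw [h1]
      _ = ψ n' * ((↑u⁻¹ : D) * ψ d) := by ring
      _ = ψ n' := by rw [h2, mul_one]
  choose t ht using hex
  -- characterisation of the value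
  have hval : ∀ (a : O) (n d : B) (s : D), IsUnit (ψ d) → (a : M) * φ d = φ n → s * ψ d = ψ n →
      t a = s := by
    intro a n d s hd h hs
    have h1 := ht a n d hd h
    have h2 : (t a) * ψ d = s * ψ d := by rw [h1, hs]
    exact hd.mul_left_injective h2
  let Ψ : O →ₐ[ℂ] D :=
    { toFun := t
      map_one' := hval 1 1 1 1 (by rw [map_one]; exact isUnit_one) (by simp) (by simp)
      map_mul' := by
        rintro ⟨a, n, d, hd, h⟩ ⟨a', n', d', hd', h'⟩
        refine hval _ (n * n') (d * d') _ (by rw [map_mul]; exact hd.mul hd') ?_ ?_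
        · change a * a' * φ (d * d') = _
          rw [map_mul, map_mul, ← h, ← h']; ring
        · rw [map_mul, map_mul, ← ht ⟨a, n, d, hd, h⟩ n d hd h, ← ht ⟨a', n', d', hd', h'⟩ n' d' hd' h']
          ring
      map_zero' := hval 0 0 1 0 (by rw [map_one]; exact isUnit_one) (by simp) (by simp)
      map_add' := by
        rintro ⟨a, n, d, hd, h⟩ ⟨a', n', d', hd', h'⟩
        refine hval _ (n * d' + n' * d) (d * d') _ (by rw [map_mul]; exact hd.mul hd') ?_ ?_
        · change (a + a') * φ (d * d') = _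
          rw [map_mul, map_add, map_mul, map_mul, ← h, ← h']; ring
        · rw [map_mul, map_add, map_mul, map_mul, ← ht ⟨a, n, d, hd, h⟩ n d hd h,
            ← ht ⟨a', n', d', hd', h'⟩ n' d' hd' h']
          ring
      commutes' := by
        intro r
        refine hval _ (algebraMap ℂ B r) 1 _ (by rw [map_one]; exact isUnit_one) ?_ ?_
        · rw [map_one, mul_one, AlgHom.commutes]; rfl
        · rw [map_one, mul_one, AlgHom.commutes] }
  refine ⟨O, Ψ, hmem, ?_, ?_⟩
  · intro b h
    exact hval _ b 1 _ (by rw [map_one]; exact isUnit_one) (by simp) (by simp)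
  · rintro ⟨a, n, d, hd, h⟩ hu
    have h1 : t ⟨a, n, d, hd, h⟩ * ψ d = ψ n := ht _ n d hd h
    have hn : IsUnit (ψ n) := by
      rw [← h1]
      exact IsUnit.mul hu hd
    have ha : a = φ n / φ d := by
      rw [eq_div_iff (hne d hd)]; exact h
    refine IsUnit.of_mul_eq_one ⟨φ d / φ n, d, n, hn, div_mul_cancel₀ _ (hne n hn)⟩ ?_
    apply Subtype.ext
    change a * (φ d / φ n) = 1
    rw [ha]
    field_simp [hne n hn, hne d hd]

/-- an algebra homomorphism with values in the constants -/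
theorem to_const {A κ : Type} [CommRing A] [Algebra ℂ A] [Field κ] [Algebra ℂ κ] (g : A →ₐ[ℂ] κ)
    (h : ∀ a, ∃ c : ℂ, g a = algebraMap ℂ κ c) :
    ∃ π : A →ₐ[ℂ] ℂ, ∀ a, algebraMap ℂ κ (π a) = g a := by
  choose c hc using h
  have hinj := (algebraMap ℂ κ).injective
  refine ⟨{ toFun := c
            map_one' := hinj (by rw [← hc, map_one, map_one])
            map_mul' := fun a b => hinj (by rw [← hc, map_mul, map_mul, hc, hc])
            map_zero' := hinj (by rw [← hc, map_zero, map_zero])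
            map_add' := fun a b => hinj (by rw [← hc, map_add, map_add, hc, hc])
            commutes' := fun r => hinj (by rw [← hc, AlgHom.commutes]; rfl) },
    fun a => (hc a).symm⟩

/-- the chain rule -/
theorem der_aeval {ι O F : Type} [Fintype ι] [CommRing O] [Algebra ℂ O] [Field F] [Algebra ℂ F]
    (g : O →ₐ[ℂ] F) (δ : O → F) (hδ : Der g δ) (co : ι → O) (x v : ι → ℂ)
    (hg : ∀ i, g (co i) = algebraMap ℂ F (x i)) (hd : ∀ i, δ (co i) = algebraMap ℂ F (v i))
    (f : MvPolynomial ι ℂ) :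
    g (MvPolynomial.aeval co f) = algebraMap ℂ F (MvPolynomial.eval x f) ∧
    δ (MvPolynomial.aeval co f) =
      algebraMap ℂ F (∑ i, MvPolynomial.eval x (MvPolynomial.pderiv i f) * v i) := by
  induction f using MvPolynomial.induction_on with
  | C r =>
    simp only [MvPolynomial.aeval_C, AlgHom.commutes, MvPolynomial.eval_C, MvPolynomial.pderiv_C,
      map_zero, zero_mul, Finset.sum_const_zero]
    exact ⟨trivial, hδ.alg r⟩
  | add p q hp hq =>
    refine ⟨by rw [map_add, map_add, map_add, map_add, hp.1, hq.1], ?_⟩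
    rw [map_add, hδ.add, hp.2, hq.2, ← map_add, ← Finset.sum_add_distrib]
    congr 1
    refine Finset.sum_congr rfl fun i _ => ?_
    rw [map_add, map_add]; ring
  | mul_X p i hp =>
    refine ⟨by rw [map_mul, map_mul, map_mul, map_mul, hp.1, MvPolynomial.aeval_X, hg,
      MvPolynomial.eval_X], ?_⟩
    rw [map_mul, hδ.mul, hp.1, hp.2, MvPolynomial.aeval_X, hg, hd, ← map_mul, ← map_mul, ← map_add]
    congr 1
    simp only [Derivation.leibniz, MvPolynomial.pderiv_X, smul_eq_mul, map_add, map_mul,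
      MvPolynomial.eval_X, add_mul, Finset.sum_add_distrib]
    congr 1
    · rw [Finset.sum_eq_single i]
      · simp
      · intro j _ hj
        rw [Pi.single_eq_of_ne' hj]
        simp
      · intro h
        exact absurd (Finset.mem_univ i) h
    · rw [Finset.mul_sum]
      refine Finset.sum_congr rfl fun j _ => ?_
      ring

end Pool.Agent.VM.IVT
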