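import Pool.Agent.Lib_VM.T1_h38
import Pool.Agent.Lib_VM.A_LIN
import Pool.Agent.Lib_VM.A_xc_mp
import Pool.Agent.Lib_VM.A_yc_mp

/-!
# MP_5582d1_ag, part IV: the points `P_i` and `z_j` in a jet
-/

set_option autoImplicit false
set_option linter.unusedSectionVars false

namespace Pool.Agent.VM.IVT

open scoped Classical

section kc
variable {R K M : Type} [CommRing R] [Field K] [Field M] [Algebra R K] [Algebra R M]
  [Algebra K M] [IsScalarTower R K M]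

theorem kc_inj {W : WeierstrassCurve R} : Function.Injective (kc : Pt W K →+ Pt W M) :=
  WeierstrassCurve.Affine.Point.map_injective (Algebra.ofId K M)

theorem xc_kc {W : WeierstrassCurve R} (c : Pt W K) :
    xc (kc c : Pt W M) = algebraMap K M (xc c) := xc_mp (Algebra.ofId K M) c

theorem yc_kc {W : WeierstrassCurve R} (c : Pt W K) :
    yc (kc c : Pt W M) = algebraMap K M (yc c) := yc_mp (Algebra.ofId K M) c

theorem kc_ne {W : WeierstrassCurve R} {c : Pt W K} (h : c ≠ 0) : (kc c : Pt W M) ≠ 0 :=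
  (map_ne_zero_iff _ kc_inj).2 h

end kc

/-- the data of the family, with a point `w0` and `e` independent of `w0` -/
structure YS {M : Type} [Field M] [Algebra ℂ M] (l : ℂ) (w : Fin 3 → Pt E2 M)
    (P : Fin 9 → Pt (E1 l) M) (c : Fin 9 → Pt E2 ℂ) (al be : Fin 9 → ℂ) (w0 : Fin 3 → Pt E2 ℂ)
    (e : Pt E2 ℂ) : Prop where
  yd : YD l w P c al be
  ce : ∀ i, c i + comb (V.ell i) w0 = e
  ind : ∀ n : Fin 3 → ℤ, e + ∑ j, n j • w0 j ≠ 0
  w00 : ∀ j, w0 j ≠ 0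

section COM
variable {M : Type} [Field M] [Algebra ℂ M] {l : ℂ} {w : Fin 3 → Pt E2 M}
  {P : Fin 9 → Pt (E1 l) M} {c : Fin 9 → Pt E2 ℂ} {al be : Fin 9 → ℂ} {w0 : Fin 3 → Pt E2 ℂ}
  {e : Pt E2 ℂ}

theorem YS.ind' (ys : YS l w P c al be w0 e) (i : Fin 9) (m : Fin 3 → ℤ) :
    c i + ∑ j, m j • w0 j ≠ 0 := by
  intro h
  apply ys.ind (m - V.ell i)
  rw [← ys.ce i, comb]
  simp only [Pi.sub_apply, sub_smul, Finset.sum_sub_distrib]
  rw [add_assoc, add_sub_cancel]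
  exact h

theorem YS.e0 (ys : YS l w P c al be w0 e) : e ≠ 0 := by
  have := ys.ind 0
  simpa using this

variable {κ : Type} [Field κ] [Algebra ℂ κ]

/-- the point `ell_i · w + c_i` in a jet -/
theorem COM1 (ys : YS l w P c al be w0 e) (O : Subalgebra ℂ M) (g : O →ₐ[ℂ] κ) (δ : O → κ)
    (hδ : Der g δ) (hu : ∀ a, g a ≠ 0 → IsUnit a) (x y : Fin 3 → O) (τ : Fin 3 → ℂ)
    (h1 : ∀ j, Sp O.val (x j) (y j) (w j))
    (h2 : ∀ j, Sp g (x j) (y j) (kc (w0 j) : Pt E2 κ))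
    (h3 : ∀ j, δ (x j) = algebraMap ℂ κ (2 * yc (w0 j) * τ j) ∧
      δ (y j) = algebraMap ℂ κ (3 * xc (w0 j) ^ 2 * τ j)) (i : Fin 9) :
    ∃ t : O, (t : M) = xc (P i) ∧ g t = algebraMap ℂ κ (al i * xc e + be i) ∧
      δ t = algebraMap ℂ κ (al i * (2 * yc e * ∑ k, (V.ell i k : ℂ) * τ k)) := by
  let gZ : O →ₐ[ℤ] κ := g.restrictScalars ℤ
  let vZ : O →ₐ[ℤ] M := O.val.restrictScalars ℤ
  have hc0 : c i ≠ 0 := by
    have := ys.ind' i 0
    simpa using this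
  have hS : Sp gZ (algebraMap ℂ O (xc (c i))) (algebraMap ℂ O (yc (c i)))
      (kc (c i) : Pt E2 κ) := by
    refine ⟨kc_ne hc0, ?_, ?_⟩
    · rw [xc_kc]; exact (g.commutes _).symm
    · rw [yc_kc]; exact (g.commutes _).symm
  have hSM : Sp vZ (algebraMap ℂ O (xc (c i))) (algebraMap ℂ O (yc (c i)))
      (kc (c i) : Pt E2 M) := by
    refine ⟨kc_ne hc0, ?_, ?_⟩
    · rw [xc_kc]; exact (O.val.commutes _).symm
    · rw [yc_kc]; exact (O.val.commutes _).symm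
  have hind : ∀ (_ : Unit) (m : Fin 3 → ℤ), (kc (c i) : Pt E2 κ) + ∑ j, m j • kc (w0 j) ≠ 0 := by
    intro _ m
    have h4 : (kc (c i) : Pt E2 κ) + ∑ j, m j • kc (w0 j) = kc (c i + ∑ j, m j • w0 j) := by
      rw [map_add, map_sum]
      simp only [map_zsmul]
    rw [h4]
    exact kc_ne (ys.ind' i m)
  obtain ⟨X, Y, hXY⟩ := LIN (0 : ℤ) 1 (E := Unit) (fun _ => gZ)
    (fun a ha => hu a (ha ())) (algebraMap ℂ O (xc (c i))) (algebraMap ℂ O (yc (c i))) x y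
    (fun _ => kc (c i)) (fun _ j => kc (w0 j)) (fun _ => hS) (fun _ j => h2 j) hind (V.ell i)
  have hM := (hXY M vZ (kc (c i)) w hSM h1).1
  obtain ⟨hg, hgd⟩ := hXY κ gZ (kc (c i)) (fun j => kc (w0 j)) hS h2
  have hδZ : Der gZ δ := ⟨hδ.add, hδ.mul, fun r => by
    have : (algebraMap ℤ O r) = algebraMap ℂ O (r : ℂ) := by simp
    rw [this]; exact hδ.alg _⟩
  have hd := hgd δ 0 (fun j => algebraMap ℂ κ (τ j)) hδZ
    ⟨by rw [mul_zero]; exact hδ.alg _, by rw [mul_zero]; exact hδ.alg _⟩ (fun j => by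
      have h5 : gZ (x j) = algebraMap ℂ κ (xc (w0 j)) := by rw [← xc_kc]; exact (h2 j).2.1.symm
      have h6 : gZ (y j) = algebraMap ℂ κ (yc (w0 j)) := by rw [← yc_kc]; exact (h2 j).2.2.symm
      refine ⟨?_, ?_⟩
      · rw [(h3 j).1, h6]; simp [map_ofNat]
      · rw [(h3 j).2, h5]; simp [map_ofNat])
  -- the point at the centre
  have he : (kc (c i) : Pt E2 κ) + ∑ j, V.ell i j • kc (w0 j) = kc e := by
    rw [← ys.ce i, comb, map_add, map_sum]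
    simp only [map_zsmul]
  rw [he] at hg
  have hgX : g X = algebraMap ℂ κ (xc e) := by rw [← xc_kc]; exact hg.2.1.symm
  have hgY : g Y = algebraMap ℂ κ (yc e) := by rw [← yc_kc]; exact hg.2.2.symm
  have hdX : δ X = algebraMap ℂ κ (2 * yc e * ∑ k, (V.ell i k : ℂ) * τ k) := by
    have h5 := hd.1
    have h6 : gZ Y = algebraMap ℂ κ (yc e) := hgY
    rw [h6] at h5
    rw [h5]
    simp [map_ofNat]
  have hMX : ((X : O) : M) = xc (comb (V.ell i) w + kc (c i)) := by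
    rw [add_comm (comb (V.ell i) w), comb]
    exact hM.2.1.symm
  refine ⟨algebraMap ℂ O (al i) * X + algebraMap ℂ O (be i), ?_, ?_, ?_⟩
  · rw [ys.yd.xP i, ← hMX]; rfl
  · rw [map_add, map_mul, AlgHom.commutes, AlgHom.commutes, hgX, map_add, map_mul]
  · rw [hδ.add, hδ.mul, hδ.alg, hδ.alg, AlgHom.commutes, hdX, mul_zero, add_zero, add_zero,
      ← map_mul]

/-- the points `z_j` in a jet -/
theorem COM2 (O : Subalgebra ℂ M) (g : O →ₐ[ℂ] κ) (δ : O → κ)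
    (hδ : Der g δ) (hu : ∀ a, g a ≠ 0 → IsUnit a) (t r : Fin 9 → O) (p : Fin 9 → Pt (E1 l) ℂ)
    (ω : Fin 9 → ℂ) (h1 : ∀ i, Sp O.val (t i) (r i) (P i))
    (h2 : ∀ i, Sp g (t i) (r i) (kc (p i) : Pt (E1 l) κ))
    (h3 : ∀ i, δ (t i) = algebraMap ℂ κ (2 * yc (p i) * ω i) ∧
      δ (r i) = algebraMap ℂ κ ((3 * xc (p i) ^ 2 + 2 * xc (p i)) * ω i))
    (zc z0 : Pt (E1 l) ℂ) (ρ : Fin 9 → ℤ) (hz : zc + ∑ i, ρ i • p i = z0)
    (hind : ∀ m : Fin 9 → ℤ, z0 + ∑ i, m i • p i ≠ 0) :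
    ∃ a b : O, Sp O.val a b (kc zc + ∑ i, ρ i • P i) ∧ Sp g a b (kc z0 : Pt (E1 l) κ) ∧
      δ a = algebraMap ℂ κ (2 * yc z0 * ∑ i, (ρ i : ℂ) * ω i) ∧
      δ b = algebraMap ℂ κ ((3 * xc z0 ^ 2 + 2 * xc z0) * ∑ i, (ρ i : ℂ) * ω i) := by
  have hind' : ∀ m : Fin 9 → ℤ, zc + ∑ i, m i • p i ≠ 0 := by
    intro m h
    apply hind (m - ρ)
    rw [← hz]
    simp only [Pi.sub_apply, sub_smul, Finset.sum_sub_distrib]
    rw [add_assoc, add_sub_cancel]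
    exact h
  have hc0 : zc ≠ 0 := by
    have := hind' 0
    simpa using this
  have hS : Sp g (algebraMap ℂ O (xc zc)) (algebraMap ℂ O (yc zc)) (kc zc : Pt (E1 l) κ) := by
    refine ⟨kc_ne hc0, ?_, ?_⟩
    · rw [xc_kc]; exact (g.commutes _).symm
    · rw [yc_kc]; exact (g.commutes _).symm
  have hSM : Sp O.val (algebraMap ℂ O (xc zc)) (algebraMap ℂ O (yc zc))
      (kc zc : Pt (E1 l) M) := by
    refine ⟨kc_ne hc0, ?_, ?_⟩
    · rw [xc_kc]; exact (O.val.commutes _).symm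
    · rw [yc_kc]; exact (O.val.commutes _).symm
  have hindκ : ∀ (_ : Unit) (m : Fin 9 → ℤ), (kc zc : Pt (E1 l) κ) + ∑ j, m j • kc (p j) ≠ 0 := by
    intro _ m
    have h4 : (kc zc : Pt (E1 l) κ) + ∑ j, m j • kc (p j) = kc (zc + ∑ j, m j • p j) := by
      rw [map_add, map_sum]
      simp only [map_zsmul]
    rw [h4]
    exact kc_ne (hind' m)
  obtain ⟨X, Y, hXY⟩ := LIN (1 : ℂ) l (E := Unit) (fun _ => g)
    (fun a ha => hu a (ha ())) (algebraMap ℂ O (xc zc)) (algebraMap ℂ O (yc zc)) t r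
    (fun _ => kc zc) (fun _ j => kc (p j)) (fun _ => hS) (fun _ j => h2 j) hindκ ρ
  have hM := (hXY M O.val (kc zc) P hSM h1).1
  obtain ⟨hg, hgd⟩ := hXY κ g (kc zc) (fun j => kc (p j)) hS h2
  have hd := hgd δ 0 (fun j => algebraMap ℂ κ (ω j)) hδ
    ⟨by rw [mul_zero]; exact hδ.alg _, by rw [mul_zero]; exact hδ.alg _⟩ (fun j => by
      have h5 : g (t j) = algebraMap ℂ κ (xc (p j)) := by rw [← xc_kc]; exact (h2 j).2.1.symm
      have h6 : g (r j) = algebraMap ℂ κ (yc (p j)) := by rw [← yc_kc]; exact (h2 j).2.2.symm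
      refine ⟨?_, ?_⟩
      · rw [(h3 j).1, h6]; simp [map_ofNat]
      · rw [(h3 j).2, h5]; simp [map_ofNat])
  have he : (kc zc : Pt (E1 l) κ) + ∑ j, ρ j • kc (p j) = kc z0 := by
    rw [← hz, map_add, map_sum]
    simp only [map_zsmul]
  rw [he] at hg
  have hgX : g X = algebraMap ℂ κ (xc z0) := by rw [← xc_kc]; exact hg.2.1.symm
  have hgY : g Y = algebraMap ℂ κ (yc z0) := by rw [← yc_kc]; exact hg.2.2.symm
  refine ⟨X, Y, hM, hg, ?_, ?_⟩
  · rw [hd.1, hgY]; simp [map_ofNat]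
  · rw [hd.2, hgX]; simp [map_ofNat]

end COM

end Pool.Agent.VM.IVT
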