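import Pool.Agent.Lib_VM.T2_h38
import Pool.Agent.Lib_VM.A_ARC
import Pool.Agent.Lib_VM.A_YD_sign
import Pool.Agent.Lib_VM.A_xc_mp
import Pool.Agent.Lib_VM.A_yc_mp

/-!
# MP_5582d1_ag, part IV: jets of `Y`
-/

set_option autoImplicit false
set_option linter.unusedSectionVars false

namespace Pool.Agent.VM.IVT

open scoped Classical

theorem e1_sq {l : ℂ} {F : Type} [Field F] [Algebra ℂ F] {Q : Pt (E1 l) F} (h : Q ≠ 0) :
    yc Q ^ 2 = xc Q ^ 3 + xc Q ^ 2 + algebraMap ℂ F l := by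
  have h1 := ptf_sq h
  rw [h1, map_one, one_mul]

theorem der_sq_eq {l : ℂ} {O κ : Type} [CommRing O] [Algebra ℂ O] [Field κ] [Algebra ℂ κ]
    (g : O →ₐ[ℂ] κ) (δ : O → κ) (hδ : Der g δ) (t r : O)
    (h : r ^ 2 = t ^ 3 + t ^ 2 + algebraMap ℂ O l) :
    2 * g r * δ r = (3 * g t ^ 2 + 2 * g t) * δ t := by
  have h1 : δ (r ^ 2) = 2 * g r * δ r := by rw [sq, hδ.mul]; ring
  have h2 : δ (t ^ 2) = 2 * g t * δ t := by rw [sq, hδ.mul]; ring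
  have h3 : δ (t ^ 3) = 3 * g t ^ 2 * δ t := by
    rw [pow_succ, hδ.mul, h2, map_pow]; ring
  rw [← h1, h, hδ.add, hδ.add, hδ.alg, h2, h3]
  ring

/-- the velocity of `r = √(t³ + t² + l)` -/
theorem der_sqrt {l : ℂ} {O κ : Type} [CommRing O] [Algebra ℂ O] [Field κ] [Algebra ℂ κ]
    (g : O →ₐ[ℂ] κ) (δ : O → κ) (hδ : Der g δ) (t r : O)
    (h : r ^ 2 = t ^ 3 + t ^ 2 + algebraMap ℂ O l) (X Y ω : ℂ) (hX : g t = algebraMap ℂ κ X)
    (hY : g r = algebraMap ℂ κ Y) (hY0 : Y ≠ 0) (ht : δ t = algebraMap ℂ κ (2 * Y * ω)) :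
    δ r = algebraMap ℂ κ ((3 * X ^ 2 + 2 * X) * ω) := by
  have h1 := der_sq_eq g δ hδ t r h
  have h2 : algebraMap ℂ κ (2 * Y) ≠ 0 := (map_ne_zero _).2 (mul_ne_zero two_ne_zero hY0)
  apply mul_left_cancel₀ h2
  rw [hX, hY, ht] at h1
  have h3 : algebraMap ℂ κ (2 * Y) * δ r = 2 * algebraMap ℂ κ Y * δ r := by
    rw [map_mul, map_ofNat]
  rw [h3, h1, ← map_mul]
  have h4 : 3 * (algebraMap ℂ κ X) ^ 2 + 2 * algebraMap ℂ κ X =
      algebraMap ℂ κ (3 * X ^ 2 + 2 * X) := by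
    simp [map_ofNat]
  rw [h4, ← map_mul]
  congr 1
  ring

section JET
variable {M : Type} [Field M] [Algebra ℂ M] {l : ℂ} {w : Fin 3 → Pt E2 M}
  {P : Fin 9 → Pt (E1 l) M} {c : Fin 9 → Pt E2 ℂ} {al be : Fin 9 → ℂ} {w0 : Fin 3 → Pt E2 ℂ}
  {e : Pt E2 ℂ}

theorem YD_w_ne (h : YD l w P c al be) (j : Fin 3) : w j ≠ 0 := by
  intro h0
  have h1 := h.gen.transcendental j
  rw [h0] at h1
  exact h1 isAlgebraic_zero

theorem YD_alg (hl : Transcendental ℚ l) (h : YD l w P c al be) :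
    Algebra.IsAlgebraic (IntermediateField.adjoin ℂ (⋃ j, cs (w j))) M := by
  have h1 := (YD_sign hl h).1
  have : FiniteDimensional (IntermediateField.adjoin ℂ (⋃ j, cs (w j))) M :=
    Module.finite_of_finrank_pos (by
      have h2 : Module.finrank (IntermediateField.adjoin ℂ (⋃ j, cs (w j))) M = 2 ^ 9 := h1
      rw [h2]; norm_num)
  exact Algebra.IsAlgebraic.of_finite _ _

theorem JET (hl : Transcendental ℚ l) (ys : YS l w P c al be w0 e) (w0y : ∀ j, yc (w0 j) ≠ 0)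
    (p : Fin 9 → Pt (E1 l) ℂ) (hp0 : ∀ i, p i ≠ 0) (hpy : ∀ i, yc (p i) ≠ 0)
    (hpx : ∀ i, xc (p i) = al i * xc e + be i) (τ : Fin 3 → ℂ) :
    ∃ (κ : Type) (_ : Field κ) (_ : Algebra ℂ κ) (O : Subalgebra ℂ M) (g : O →ₐ[ℂ] κ)
      (δ : O → κ) (x y : Fin 3 → O) (t r : Fin 9 → O), Der g δ ∧ (∀ a, g a ≠ 0 → IsUnit a) ∧
      (∀ j, Sp O.val (x j) (y j) (w j)) ∧
      (∀ j, Sp g (x j) (y j) (kc (w0 j) : Pt E2 κ)) ∧
      (∀ j, δ (x j) = algebraMap ℂ κ (2 * yc (w0 j) * τ j) ∧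
        δ (y j) = algebraMap ℂ κ (3 * xc (w0 j) ^ 2 * τ j)) ∧
      (∀ i, Sp O.val (t i) (r i) (P i)) ∧
      (∀ i, Sp g (t i) (r i) (kc (p i) : Pt (E1 l) κ)) ∧
      (∀ i, δ (t i) = algebraMap ℂ κ (al i * (2 * yc e * ∑ k, (V.ell i k : ℂ) * τ k))) := by
  obtain ⟨κ, _, _, O₁, g₁, δ₁, x₁, y₁, hδ₁, hinv, hxy, hsq⟩ :=
    ARC w ys.yd.gen (YD_alg hl ys.yd) w0 ys.w00 w0y τ
  have hu₁ : ∀ a, g₁ a ≠ 0 → IsUnit a := by
    intro a ha
    have ha0 : (a : M) ≠ 0 := by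
      intro h0
      apply ha
      have : a = 0 := Subtype.ext h0
      rw [this, map_zero]
    refine IsUnit.of_mul_eq_one ⟨(a : M)⁻¹, hinv a ha⟩ ?_
    apply Subtype.ext
    exact mul_inv_cancel₀ ha0
  have h1 : ∀ j, Sp O₁.val (x₁ j) (y₁ j) (w j) := fun j =>
    ⟨YD_w_ne ys.yd j, (hxy j).1.symm, (hxy j).2.1.symm⟩
  have h2 : ∀ j, Sp g₁ (x₁ j) (y₁ j) (kc (w0 j) : Pt E2 κ) := fun j =>
    ⟨kc_ne (ys.w00 j), by rw [xc_kc]; exact (hxy j).2.2.1.symm,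
      by rw [yc_kc]; exact (hxy j).2.2.2.1.symm⟩
  have h3 : ∀ j, δ₁ (x₁ j) = algebraMap ℂ κ (2 * yc (w0 j) * τ j) ∧
      δ₁ (y₁ j) = algebraMap ℂ κ (3 * xc (w0 j) ^ 2 * τ j) := fun j =>
    ⟨(hxy j).2.2.2.2.1, (hxy j).2.2.2.2.2⟩
  choose t₁ ht₁ using fun i => COM1 ys O₁ g₁ δ₁ hδ₁ hu₁ x₁ y₁ τ h1 h2 h3 i
  have hF : ∀ i, ∃ r : O₁, (r : M) = yc (P i) := by
    intro i
    refine hsq (yc (P i)) (t₁ i ^ 3 + t₁ i ^ 2 + algebraMap ℂ O₁ l) (algebraMap ℂ κ (yc (p i)))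
      ?_ ((map_ne_zero _).2 (hpy i)) ?_
    · rw [e1_sq (ys.yd.P0 i), ← (ht₁ i).1]
      rfl
    · rw [map_add, map_add, map_pow, map_pow, AlgHom.commutes, (ht₁ i).2.1, ← hpx i, ← map_pow,
        ← map_pow, ← map_add, ← map_add, ← map_pow, e1_sq (hp0 i)]
      rfl
  choose r₁ hr₁ using hF
  have hr₁sq : ∀ i, r₁ i ^ 2 = t₁ i ^ 3 + t₁ i ^ 2 + algebraMap ℂ O₁ l := by
    intro i
    apply Subtype.ext
    have h4 := e1_sq (ys.yd.P0 i)
    rw [← hr₁ i, ← (ht₁ i).1] at h4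
    exact h4
  have hpm : ∀ i, g₁ (r₁ i) = algebraMap ℂ κ (yc (p i)) ∨
      g₁ (r₁ i) = -algebraMap ℂ κ (yc (p i)) := by
    intro i
    apply sq_eq_sq_iff_eq_or_eq_neg.1
    rw [← map_pow, hr₁sq i, map_add, map_add, map_pow, map_pow, AlgHom.commutes, (ht₁ i).2.1,
      ← hpx i, ← map_pow, ← map_pow, ← map_add, ← map_add, ← map_pow, e1_sq (hp0 i)]
    rfl
  obtain ⟨-, -, -, hsig⟩ := YD_sign hl ys.yd
  obtain ⟨σ, hσw, hσP⟩ := hsig
    (Finset.univ.filter fun i => ¬ g₁ (r₁ i) = algebraMap ℂ κ (yc (p i)))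
  let f : M →ₐ[ℂ] M := (σ : M →ₐ[ℂ] M)
  have hf : Function.Injective f := σ.injective
  let O : Subalgebra ℂ M := O₁.map f
  let E : O₁ ≃ₐ[ℂ] O := O₁.equivMapOfInjective f hf
  have hE : ∀ a : O₁, ((E a : O) : M) = f a := fun a => rfl
  let g : O →ₐ[ℂ] κ := g₁.comp (E.symm : O →ₐ[ℂ] O₁)
  let δ : O → κ := fun a => δ₁ (E.symm a)
  have hgE : ∀ a, g (E a) = g₁ a := fun a => by
    change g₁ (E.symm (E a)) = g₁ a
    rw [AlgEquiv.symm_apply_apply]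
  have hδE : ∀ a, δ (E a) = δ₁ a := fun a => by
    change δ₁ (E.symm (E a)) = δ₁ a
    rw [AlgEquiv.symm_apply_apply]
  have hfx : ∀ j, f (xc (w j)) = xc (w j) := fun j => by
    rw [← xc_mp, hσw j]
  have hfy : ∀ j, f (yc (w j)) = yc (w j) := fun j => by
    rw [← yc_mp, hσw j]
  refine ⟨κ, inferInstance, inferInstance, O, g, δ, fun j => E (x₁ j), fun j => E (y₁ j),
    fun i => E (t₁ i), fun i => if g₁ (r₁ i) = algebraMap ℂ κ (yc (p i)) then E (r₁ i)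
      else -E (r₁ i), ?_, ?_, ?_, ?_, ?_, ?_, ?_, ?_⟩
  · refine ⟨fun a b => ?_, fun a b => ?_, fun r => ?_⟩
    · change δ₁ (E.symm (a + b)) = δ₁ (E.symm a) + δ₁ (E.symm b)
      rw [map_add, hδ₁.add]
    · change δ₁ (E.symm (a * b)) = g₁ (E.symm a) * δ₁ (E.symm b) + g₁ (E.symm b) * δ₁ (E.symm a)
      rw [map_mul, hδ₁.mul]
    · change δ₁ (E.symm (algebraMap ℂ O r)) = 0
      rw [AlgEquiv.commutes, hδ₁.alg]
  · intro a ha
    have h4 : IsUnit (E.symm a) := hu₁ _ ha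
    have h5 := h4.map (E : O₁ →ₐ[ℂ] O)
    have h6 : (E : O₁ →ₐ[ℂ] O) (E.symm a) = a := AlgEquiv.apply_symm_apply E a
    rwa [h6] at h5
  · intro j
    refine ⟨YD_w_ne ys.yd j, ?_, ?_⟩
    · change xc (w j) = f (x₁ j)
      rw [(hxy j).1, hfx]
    · change yc (w j) = f (y₁ j)
      rw [(hxy j).2.1, hfy]
  · intro j
    refine ⟨(h2 j).1, ?_, ?_⟩
    · change _ = g (E (x₁ j))
      rw [hgE]; exact (h2 j).2.1
    · change _ = g (E (y₁ j))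
      rw [hgE]; exact (h2 j).2.2
  · intro j
    refine ⟨?_, ?_⟩
    · change δ (E (x₁ j)) = _
      rw [hδE]; exact (h3 j).1
    · change δ (E (y₁ j)) = _
      rw [hδE]; exact (h3 j).2
  · intro i
    refine ⟨ys.yd.P0 i, ?_, ?_⟩
    · change xc (P i) = f (t₁ i)
      rw [(ht₁ i).1, ← xc_mp, hσP i]
      split_ifs
      · rw [ptf_xc_neg]
      · rfl
    · change yc (P i) = O.val (if g₁ (r₁ i) = algebraMap ℂ κ (yc (p i)) then E (r₁ i)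
        else -E (r₁ i))
      have h4 := yc_mp f (P i)
      rw [hσP i] at h4
      by_cases h5 : g₁ (r₁ i) = algebraMap ℂ κ (yc (p i))
      · rw [if_pos h5]
        rw [if_neg (by simpa using h5)] at h4
        rw [h4]
        change f (yc (P i)) = f (r₁ i)
        rw [hr₁]
      · rw [if_neg h5]
        rw [if_pos (by simpa using h5), ptf_yc_neg] at h4
        rw [map_neg]
        change yc (P i) = - f (r₁ i)
        rw [hr₁, ← h4, neg_neg]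
  · intro i
    refine ⟨kc_ne (hp0 i), ?_, ?_⟩
    · change _ = g (E (t₁ i))
      rw [hgE, (ht₁ i).2.1, xc_kc, hpx]
    · change _ = g (if g₁ (r₁ i) = algebraMap ℂ κ (yc (p i)) then E (r₁ i) else -E (r₁ i))
      rw [yc_kc]
      by_cases h5 : g₁ (r₁ i) = algebraMap ℂ κ (yc (p i))
      · rw [if_pos h5, hgE, h5]
      · rw [if_neg h5, map_neg, hgE]
        rcases hpm i with h6 | h6
        · exact absurd h6 h5
        · rw [h6, neg_neg]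
  · intro i
    change δ (E (t₁ i)) = _
    rw [hδE]
    exact (ht₁ i).2.2

end JET

end Pool.Agent.VM.IVT
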