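import Pool.Agent.Lib_VM.T3_h38

/-!
# MP_5582d1_ag, part IV: the graph is contained in the tangent space
-/

set_option autoImplicit false
set_option linter.unusedSectionVars false

namespace Pool.Agent.VM.IVT

open scoped Classical

/-- a function on the 12 coordinates -/
def mkI {T : Type*} (a b c d : Fin 3 → T) : Ix → T :=
  fun i => ![Sum.elim a c i.1, Sum.elim b d i.1] i.2

theorem ix_ext {T : Type*} {u v : Ix → T} (h1 : ∀ j, u (.inl j, 0) = v (.inl j, 0))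
    (h2 : ∀ j, u (.inl j, 1) = v (.inl j, 1)) (h3 : ∀ j, u (.inr j, 0) = v (.inr j, 0))
    (h4 : ∀ j, u (.inr j, 1) = v (.inr j, 1)) : u = v := by
  funext ⟨i, k⟩
  rcases i with j | j
  · fin_cases k
    · exact h1 j
    · exact h2 j
  · fin_cases k
    · exact h3 j
    · exact h4 j

theorem ix_all {p : Ix → Prop} (h1 : ∀ j, p (.inl j, 0)) (h2 : ∀ j, p (.inl j, 1))
    (h3 : ∀ j, p (.inr j, 0)) (h4 : ∀ j, p (.inr j, 1)) : ∀ i, p i := by
  rintro ⟨i, k⟩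
  rcases i with j | j
  · fin_cases k
    · exact h1 j
    · exact h2 j
  · fin_cases k
    · exact h3 j
    · exact h4 j

/-- all the data at a point -/
structure YT {M : Type} [Field M] [Algebra ℂ M] (l : ℂ) (w : Fin 3 → Pt E2 M)
    (P : Fin 9 → Pt (E1 l) M) (c : Fin 9 → Pt E2 ℂ) (al be : Fin 9 → ℂ) (w0 : Fin 3 → Pt E2 ℂ)
    (e : Pt E2 ℂ) (p : Fin 9 → Pt (E1 l) ℂ) (z0 zc : Fin 3 → Pt (E1 l) ℂ) (s : Fin 9 → ℂ)
    (z : Fin 3 → Pt (E1 l) M) : Prop where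
  hl : Transcendental ℚ l
  ys : YS l w P c al be w0 e
  w0y : ∀ j, yc (w0 j) ≠ 0
  z00 : ∀ j, z0 j ≠ 0
  z0y : ∀ j, yc (z0 j) ≠ 0
  px : ∀ i, xc (p i) = al i * xc e + be i
  py : ∀ i, al i * yc e = s i * yc (p i)
  pind : ∀ (m : Fin 9 → ℤ) (n : Fin 3 → ℤ), ∑ i, m i • p i = ∑ j, n j • z0 j → m = 0
  hzc : ∀ j, zc j + ∑ i, V.rho i j • p i = z0 j
  hz : ∀ j, z j = kc (zc j) + ∑ i, V.rho i j • P i

section
variable {M : Type} [Field M] [Algebra ℂ M] {l : ℂ} {w : Fin 3 → Pt E2 M}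
  {P : Fin 9 → Pt (E1 l) M} {c : Fin 9 → Pt E2 ℂ} {al be : Fin 9 → ℂ} {w0 : Fin 3 → Pt E2 ℂ}
  {e : Pt E2 ℂ} {p : Fin 9 → Pt (E1 l) ℂ} {z0 zc : Fin 3 → Pt (E1 l) ℂ} {s : Fin 9 → ℂ}
  {z : Fin 3 → Pt (E1 l) M}

theorem YT.p_indep (h : YT l w P c al be w0 e p z0 zc s z) (m : Fin 9 → ℤ)
    (hm : ∑ i, m i • p i = 0) : m = 0 := by
  apply h.pind m 0
  rw [hm]
  simp

theorem YT.p_smul (h : YT l w P c al be w0 e p z0 zc s z) (i : Fin 9) (n : ℤ) (hn : n ≠ 0) :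
    n • p i ≠ 0 := by
  intro h0
  have h1 := h.p_indep (Pi.single i n) (by
    rw [Finset.sum_eq_single i]
    · rw [Pi.single_eq_same]; exact h0
    · intro j _ hj
      rw [Pi.single_eq_of_ne hj, zero_smul]
    · intro hi
      exact absurd (Finset.mem_univ i) hi)
  have h2 := congrFun h1 i
  rw [Pi.single_eq_same] at h2
  exact hn h2

theorem YT.p0 (h : YT l w P c al be w0 e p z0 zc s z) (i : Fin 9) : p i ≠ 0 := by
  have := h.p_smul i 1 one_ne_zero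
  rwa [one_smul] at this

theorem YT.py0 (h : YT l w P c al be w0 e p z0 zc s z) (i : Fin 9) : yc (p i) ≠ 0 := by
  have h1 := h.p_smul i 2 two_ne_zero
  rw [two_smul] at h1
  have h2 := (ptf_dbl_ne (h.p0 i)).1 h1
  exact right_ne_zero_of_mul h2

theorem YT.zind (h : YT l w P c al be w0 e p z0 zc s z) (j : Fin 3) (m : Fin 9 → ℤ) :
    z0 j + ∑ i, m i • p i ≠ 0 := by
  intro h0
  have h1 : ∑ i, m i • p i = ∑ k, (Pi.single j (-1) : Fin 3 → ℤ) k • z0 k := by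
    rw [Finset.sum_eq_single j]
    · rw [Pi.single_eq_same, neg_smul, one_smul]
      exact (neg_eq_of_add_eq_zero_right h0).symm
    · intro k _ hk
      rw [Pi.single_eq_of_ne hk, zero_smul]
    · intro hi
      exact absurd (Finset.mem_univ j) hi
  have h2 := h.pind m _ h1
  rw [h2] at h0
  apply h.z00 j
  simpa using h0

/-- the velocities -/
noncomputable def vel (z0 : Fin 3 → Pt (E1 l) ℂ) (w0 : Fin 3 → Pt E2 ℂ) (s : Fin 9 → ℂ)
    (τ : Fin 3 → ℂ) : Ix → ℂ :=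
  mkI (fun j => 2 * yc (z0 j) * ∑ i, (V.rho i j : ℂ) * (s i * ∑ k, (V.ell i k : ℂ) * τ k))
    (fun j => (3 * xc (z0 j) ^ 2 + 2 * xc (z0 j)) *
      ∑ i, (V.rho i j : ℂ) * (s i * ∑ k, (V.ell i k : ℂ) * τ k))
    (fun j => 2 * yc (w0 j) * τ j) (fun j => 3 * xc (w0 j) ^ 2 * τ j)

/-- coordinates of `x` -/
noncomputable def pco (z0 : Fin 3 → Pt (E1 l) ℂ) (w0 : Fin 3 → Pt E2 ℂ) : Ix → ℂ :=
  mkI (fun j => xc (z0 j)) (fun j => yc (z0 j)) (fun j => xc (w0 j)) (fun j => yc (w0 j))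

/-- a jet sees `z`, with values and velocities -/
theorem YT.jet (h : YT l w P c al be w0 e p z0 zc s z) {κ : Type} [Field κ] [Algebra ℂ κ]
    (O : Subalgebra ℂ M) (g : O →ₐ[ℂ] κ) (δ : O → κ) (hδ : Der g δ)
    (hu : ∀ a, g a ≠ 0 → IsUnit a) (t r : Fin 9 → O) (τ : Fin 3 → ℂ)
    (h1 : ∀ i, Sp O.val (t i) (r i) (P i))
    (h2 : ∀ i, Sp g (t i) (r i) (kc (p i) : Pt (E1 l) κ))
    (h3 : ∀ i, δ (t i) = algebraMap ℂ κ (al i * (2 * yc e * ∑ k, (V.ell i k : ℂ) * τ k)))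
    (j : Fin 3) :
    ∃ a b : O, (a : M) = xc (z j) ∧ (b : M) = yc (z j) ∧ g a = algebraMap ℂ κ (xc (z0 j)) ∧
      g b = algebraMap ℂ κ (yc (z0 j)) ∧
      δ a = algebraMap ℂ κ (2 * yc (z0 j) *
        ∑ i, (V.rho i j : ℂ) * (s i * ∑ k, (V.ell i k : ℂ) * τ k)) ∧
      δ b = algebraMap ℂ κ ((3 * xc (z0 j) ^ 2 + 2 * xc (z0 j)) *
        ∑ i, (V.rho i j : ℂ) * (s i * ∑ k, (V.ell i k : ℂ) * τ k)) := by
  have hsq : ∀ i, r i ^ 2 = t i ^ 3 + t i ^ 2 + algebraMap ℂ O l := by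
    intro i
    apply Subtype.ext
    have h4 := e1_sq (h.ys.yd.P0 i)
    rw [(h1 i).2.1, (h1 i).2.2] at h4
    exact h4
  have hgt : ∀ i, g (t i) = algebraMap ℂ κ (xc (p i)) := fun i => by
    rw [← xc_kc]; exact (h2 i).2.1.symm
  have hgr : ∀ i, g (r i) = algebraMap ℂ κ (yc (p i)) := fun i => by
    rw [← yc_kc]; exact (h2 i).2.2.symm
  have hdt : ∀ i, δ (t i) = algebraMap ℂ κ (2 * yc (p i) *
      (s i * ∑ k, (V.ell i k : ℂ) * τ k)) := by
    intro i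
    rw [h3 i]
    congr 1
    linear_combination (2 * ∑ k, (V.ell i k : ℂ) * τ k) * h.py i
  obtain ⟨a, b, hM, hg, hda, hdb⟩ := COM2 (P := P) O g δ hδ hu t r p
    (fun i => s i * ∑ k, (V.ell i k : ℂ) * τ k) h1 h2
    (fun i => ⟨hdt i, der_sqrt g δ hδ (t i) (r i) (hsq i) _ _ _ (hgt i) (hgr i) (h.py0 i) (hdt i)⟩)
    (zc j) (z0 j) (fun i => V.rho i j) (h.hzc j) (h.zind j)
  rw [← h.hz j] at hM
  refine ⟨a, b, hM.2.1.symm, hM.2.2.symm, ?_, ?_, hda, hdb⟩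
  · rw [← xc_kc]; exact hg.2.1.symm
  · rw [← yc_kc]; exact hg.2.2.symm

theorem YT.sup (h : YT l w P c al be w0 e p z0 zc s z) (τ : Fin 3 → ℂ)
    (f : MvPolynomial Ix ℂ) (hf : MvPolynomial.aeval (XPt.co (l := l) (z, w)) f = 0) :
    MvPolynomial.eval (pco z0 w0) f = 0 ∧
    ∑ i, MvPolynomial.eval (pco z0 w0) (MvPolynomial.pderiv i f) * vel z0 w0 s τ i = 0 := by
  obtain ⟨κ, _, _, O, g, δ, x, y, t, r, hδ, hu, h1, h2, h3, h4, h5, h6⟩ :=
    JET h.hl h.ys h.w0y p h.p0 h.py0 h.px τ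
  choose a b ha hb hga hgb hda hdb using fun j => h.jet O g δ hδ hu t r τ h4 h5 h6 j
  let co : Ix → O := mkI a b x y
  have hco : (fun i => O.val (co i)) = XPt.co (l := l) (z, w) := by
    refine ix_ext (fun j => ?_) (fun j => ?_) (fun j => ?_) (fun j => ?_)
    · exact ha j
    · exact hb j
    · exact (h1 j).2.1.symm
    · exact (h1 j).2.2.symm
  have hz0 : MvPolynomial.aeval co f = 0 := by
    apply Subtype.ext
    have h7 : O.val (MvPolynomial.aeval co f) = MvPolynomial.aeval (fun i => O.val (co i)) f :=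
      AlgHom.congr_fun (MvPolynomial.comp_aeval co O.val) f
    change O.val (MvPolynomial.aeval co f) = 0
    rw [h7, hco, hf]
  have hgco : ∀ i, g (co i) = algebraMap ℂ κ (pco z0 w0 i) := by
    refine ix_all (fun j => ?_) (fun j => ?_) (fun j => ?_) (fun j => ?_)
    · exact hga j
    · exact hgb j
    · have := (h2 j).2.1
      rw [xc_kc] at this
      exact this.symm
    · have := (h2 j).2.2
      rw [yc_kc] at this
      exact this.symm
  have hdco : ∀ i, δ (co i) = algebraMap ℂ κ (vel z0 w0 s τ i) := by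
    refine ix_all (fun j => ?_) (fun j => ?_) (fun j => ?_) (fun j => ?_)
    · exact hda j
    · exact hdb j
    · exact (h3 j).1
    · exact (h3 j).2
  obtain ⟨e1, e2⟩ := der_aeval g δ hδ co (pco z0 w0) (vel z0 w0 s τ) hgco hdco f
  rw [hz0, map_zero] at e1
  have hd0 : δ 0 = 0 := by
    have := hδ.alg 0
    rwa [map_zero] at this
  rw [hz0, hd0] at e2
  exact ⟨((map_eq_zero _).1 e1.symm), ((map_eq_zero _).1 e2.symm)⟩

end

end Pool.Agent.VM.IVT
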