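import Pool.Agent.Lib_VM.T4_h38

/-!
# MP_5582d1_ag, part IV: the sheets
-/

set_option autoImplicit false
set_option linter.unusedSectionVars false

namespace Pool.Agent.VM.IVT

open scoped Classical

section
variable {M : Type} [Field M] [Algebra ℂ M] {l : ℂ} {w : Fin 3 → Pt E2 M}
  {P : Fin 9 → Pt (E1 l) M} {c : Fin 9 → Pt E2 ℂ} {al be : Fin 9 → ℂ} {w0 : Fin 3 → Pt E2 ℂ}
  {e : Pt E2 ℂ} {p : Fin 9 → Pt (E1 l) ℂ} {z0 zc : Fin 3 → Pt (E1 l) ℂ} {s : Fin 9 → ℂ}
  {z : Fin 3 → Pt (E1 l) M}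

/-- the coordinates of `w` -/
noncomputable def cw {F : Type} [Field F] (w : Fin 3 → Pt E2 F) : Fin 3 × Fin 2 → F :=
  fun i => ![xc (w i.1), yc (w i.1)] i.2

theorem cw_all {q : Fin 3 × Fin 2 → Prop} (h0 : ∀ j, q (j, 0)) (h1 : ∀ j, q (j, 1)) : ∀ i, q i := by
  rintro ⟨j, k⟩
  fin_cases k
  · exact h0 j
  · exact h1 j

/-- `R0` is the local ring of `ℂ[w]` at `w0`, with its residue map `Ψ` -/
structure IsR0 (w : Fin 3 → Pt E2 M) (w0 : Fin 3 → Pt E2 ℂ) (R0 : Subalgebra ℂ M)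
    (Ψ : R0 →ₐ[ℂ] ℂ) : Prop where
  mem : ∀ a : M, a ∈ R0 ↔ ∃ n d : MvPolynomial (Fin 3 × Fin 2) ℂ,
    IsUnit (MvPolynomial.aeval (cw w0) d : ℂ) ∧ a * MvPolynomial.aeval (cw w) d =
      MvPolynomial.aeval (cw w) n
  val : ∀ (b : MvPolynomial (Fin 3 × Fin 2) ℂ) (h : MvPolynomial.aeval (cw w) b ∈ R0),
    Ψ ⟨MvPolynomial.aeval (cw w) b, h⟩ = MvPolynomial.aeval (cw w0) b
  unit : ∀ a : R0, IsUnit (Ψ a) → IsUnit a

/-- a ring containing the coordinates of `w`, with `w ↦ w0`, contains `R0` -/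
theorem IsR0.le {R0 : Subalgebra ℂ M} {Ψ : R0 →ₐ[ℂ] ℂ} (hR : IsR0 w w0 R0 Ψ) {κ : Type} [Field κ]
    [Algebra ℂ κ] (O : Subalgebra ℂ M) (g : O →ₐ[ℂ] κ) (hu : ∀ a, g a ≠ 0 → IsUnit a)
    (x y : Fin 3 → O) (h1 : ∀ j, (x j : M) = xc (w j) ∧ (y j : M) = yc (w j))
    (h2 : ∀ j, g (x j) = algebraMap ℂ κ (xc (w0 j)) ∧ g (y j) = algebraMap ℂ κ (yc (w0 j)))
    (a : M) (ha : a ∈ R0) :
    ∃ h : a ∈ O, g ⟨a, h⟩ = algebraMap ℂ κ (Ψ ⟨a, ha⟩) := by
  obtain ⟨n, d, hd, hnd⟩ := (hR.mem a).1 ha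
  let co : Fin 3 × Fin 2 → O := fun i => ![x i.1, y i.1] i.2
  have hval : ∀ f : MvPolynomial (Fin 3 × Fin 2) ℂ, O.val (MvPolynomial.aeval co f) = MvPolynomial.aeval (cw w) f := by
    intro f
    have h3 : (fun i => O.val (co i)) = cw w := funext (cw_all (fun j => (h1 j).1) fun j => (h1 j).2)
    rw [MvPolynomial.comp_aeval_apply, h3]
  have hg : ∀ f : MvPolynomial (Fin 3 × Fin 2) ℂ, g (MvPolynomial.aeval co f) =
      algebraMap ℂ κ (MvPolynomial.aeval (cw w0) f) := by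
    intro f
    have h3 : (fun i => g (co i)) = fun i => algebraMap ℂ κ (cw w0 i) :=
      funext (cw_all (fun j => (h2 j).1) fun j => (h2 j).2)
    rw [MvPolynomial.comp_aeval_apply, h3]
    exact (MvPolynomial.comp_aeval_apply (f := cw w0) (Algebra.ofId ℂ κ) f).symm
  have hd0 : g (MvPolynomial.aeval co d) ≠ 0 := by
    rw [hg]
    exact (map_ne_zero _).2 hd.ne_zero
  obtain ⟨u, hu'⟩ := (hu _ hd0).exists_right_inv
  have hau : a = O.val (MvPolynomial.aeval co n * u) := by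
    have h3 : O.val (MvPolynomial.aeval co d) * O.val u = 1 := by
      rw [← map_mul, hu', map_one]
    rw [map_mul, hval, ← hnd, ← hval d, mul_assoc, h3, mul_one]
  have haO : a ∈ O := by
    rw [hau]
    exact (MvPolynomial.aeval co n * u).2
  refine ⟨haO, ?_⟩
  have h4 : (⟨a, haO⟩ : O) * MvPolynomial.aeval co d = MvPolynomial.aeval co n := by
    apply Subtype.ext
    change a * O.val (MvPolynomial.aeval co d) = O.val (MvPolynomial.aeval co n)
    rw [hval, hval, hnd]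
  have h5 := congrArg g h4
  rw [map_mul, hg, hg] at h5
  -- the same in `R0`
  have hdm : MvPolynomial.aeval (cw w) d ∈ R0 :=
    (hR.mem _).2 ⟨d, 1, by rw [map_one]; exact isUnit_one, by rw [map_one, mul_one]⟩
  have hnm : MvPolynomial.aeval (cw w) n ∈ R0 :=
    (hR.mem _).2 ⟨n, 1, by rw [map_one]; exact isUnit_one, by rw [map_one, mul_one]⟩
  have h6 : (⟨a, ha⟩ : R0) * ⟨_, hdm⟩ = ⟨_, hnm⟩ := Subtype.ext hnd
  have h7 := congrArg Ψ h6
  rw [map_mul, hR.val, hR.val] at h7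
  have h8 : algebraMap ℂ κ (MvPolynomial.aeval (cw w0) d) ≠ 0 := (map_ne_zero _).2 hd.ne_zero
  apply mul_right_cancel₀ h8
  rw [h5, ← map_mul, h7]

theorem YT.exists_R0 (h : YT l w P c al be w0 e p z0 zc s z) :
    ∃ (R0 : Subalgebra ℂ M) (Ψ : R0 →ₐ[ℂ] ℂ), IsR0 w w0 R0 Ψ := by
  obtain ⟨κ, _, _, O, g, δ, x, y, t, r, hδ, hu, h1, h2, h3, h4, h5, h6⟩ :=
    JET h.hl h.ys h.w0y p h.p0 h.py0 h.px 0
  have hker : ∀ b : MvPolynomial (Fin 3 × Fin 2) ℂ, MvPolynomial.aeval (cw w) b = 0 →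
      (MvPolynomial.aeval (cw w0) b : ℂ) = 0 := by
    intro b hb
    let co : Fin 3 × Fin 2 → O := fun i => ![x i.1, y i.1] i.2
    have h7 : MvPolynomial.aeval co b = 0 := by
      apply Subtype.ext
      change O.val (MvPolynomial.aeval co b) = 0
      have h3 : (fun i => O.val (co i)) = cw w :=
        funext (cw_all (fun j => (h1 j).2.1.symm) fun j => (h1 j).2.2.symm)
      rw [MvPolynomial.comp_aeval_apply, h3, hb]
    have h8 := congrArg g h7
    have h9 : (fun i => g (co i)) = fun i => algebraMap ℂ κ (cw w0 i) := by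
      refine funext (cw_all (fun j => ?_) fun j => ?_)
      · have := (h2 j).2.1
        rw [xc_kc] at this
        exact this.symm
      · have := (h2 j).2.2
        rw [yc_kc] at this
        exact this.symm
    rw [MvPolynomial.comp_aeval_apply, h9, map_zero] at h8
    have h10 := (MvPolynomial.comp_aeval_apply (f := cw w0) (Algebra.ofId ℂ κ) b)
    have h11 : (Algebra.ofId ℂ κ) (MvPolynomial.aeval (cw w0) b) = 0 := by
      rw [h10]; exact h8
    exact (map_eq_zero (algebraMap ℂ κ)).1 h11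
  obtain ⟨R0, Ψ, hm, hv, hunit⟩ := lochom (MvPolynomial.aeval (cw w) :
    MvPolynomial (Fin 3 × Fin 2) ℂ →ₐ[ℂ] M) (MvPolynomial.aeval (cw w0)) hker
  exact ⟨R0, Ψ, hm, hv, hunit⟩

/-- the ring of the sheets -/
noncomputable abbrev AA (R0 : Subalgebra ℂ M) (P : Fin 9 → Pt (E1 l) M) : Subalgebra R0 M :=
  Algebra.adjoin R0 (Set.range fun i => yc (P i))

/-- the sheets -/
theorem YT.sheet (h : YT l w P c al be w0 e p z0 zc s z) {R0 : Subalgebra ℂ M}
    {Ψ : R0 →ₐ[ℂ] ℂ} (hR : IsR0 w w0 R0 Ψ) (ε : Fin 9 → ℤˣ) :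
    ∃ π : AA R0 P →+* ℂ, (∀ a : R0, π (algebraMap R0 (AA R0 P) a) = Ψ a) ∧
      ∀ (i : Fin 9) (hi : yc (P i) ∈ AA R0 P), π ⟨yc (P i), hi⟩ = ((ε i : ℤ) : ℂ) * yc (p i) := by
  have hε : ∀ i, (ε i : ℤ) = 1 ∨ (ε i : ℤ) = -1 := fun i => by
    rcases Int.units_eq_one_or (ε i) with h1 | h1 <;> simp [h1]
  let p' : Fin 9 → Pt (E1 l) ℂ := fun i => (ε i : ℤ) • p i
  have hx' : ∀ i, xc (p' i) = xc (p i) := by
    intro i
    rcases hε i with h1 | h1
    · simp only [p', h1, one_smul]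
    · simp only [p', h1, neg_smul, one_smul]
      exact ptf_xc_neg _
  have hy' : ∀ i, yc (p' i) = ((ε i : ℤ) : ℂ) * yc (p i) := by
    intro i
    rcases hε i with h1 | h1
    · simp only [p', h1, one_smul, Int.cast_one, one_mul]
    · simp only [p', h1, neg_smul, one_smul, Int.cast_neg, Int.cast_one, neg_mul, one_mul]
      exact ptf_yc_neg _
  have hε0 : ∀ i, (ε i : ℤ) ≠ 0 := fun i => by
    rcases hε i with h1 | h1 <;> rw [h1] <;> norm_num
  obtain ⟨κ, _, _, O, g, δ, x, y, t, r, hδ, hu, h1, h2, h3, h4, h5, h6⟩ :=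
    JET h.hl h.ys h.w0y p' (fun i => h.p_smul i _ (hε0 i))
      (fun i => by
        rw [hy']
        exact mul_ne_zero (Int.cast_ne_zero.2 (hε0 i)) (h.py0 i))
      (fun i => by rw [hx']; exact h.px i) 0
  have hle := fun a ha => hR.le O g hu x y (fun j => ⟨(h1 j).2.1.symm, (h1 j).2.2.symm⟩)
    (fun j => ⟨by
      have := (h2 j).2.1
      rw [xc_kc] at this
      exact this.symm, by
      have := (h2 j).2.2
      rw [yc_kc] at this
      exact this.symm⟩) a ha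
  let OR : Subalgebra R0 M :=
    { carrier := {a | ∃ (ha : a ∈ O) (q : ℂ), g ⟨a, ha⟩ = algebraMap ℂ κ q}
      mul_mem' := by
        rintro a b ⟨ha, q, hq⟩ ⟨hb, q', hq'⟩
        refine ⟨O.mul_mem ha hb, q * q', ?_⟩
        rw [map_mul, ← hq, ← hq', ← map_mul]
        rfl
      add_mem' := by
        rintro a b ⟨ha, q, hq⟩ ⟨hb, q', hq'⟩
        refine ⟨O.add_mem ha hb, q + q', ?_⟩
        rw [map_add, ← hq, ← hq', ← map_add]
        rfl
      algebraMap_mem' := by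
        intro a
        obtain ⟨ha, hq⟩ := hle a a.2
        exact ⟨ha, _, hq⟩ }
  have hA : AA R0 P ≤ OR := by
    refine Algebra.adjoin_le ?_
    rintro _ ⟨i, rfl⟩
    have h7 : ((r i : O) : M) = yc (P i) := (h4 i).2.2.symm
    refine ⟨by change yc (P i) ∈ O; rw [← h7]; exact (r i).2, yc (p' i), ?_⟩
    have h8 : (⟨yc (P i), by rw [← h7]; exact (r i).2⟩ : O) = r i := Subtype.ext h7.symm
    rw [h8, ← yc_kc]
    exact (h5 i).2.2.symm
  have hA' : ∀ a : AA R0 P, ∃ (ha : (a : M) ∈ O) (q : ℂ), g ⟨a, ha⟩ = algebraMap ℂ κ q :=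
    fun a => hA a.2
  choose hO q hq using hA'
  have hinj := (algebraMap ℂ κ).injective
  refine ⟨{ toFun := q
            map_one' := hinj (by
              rw [← hq, map_one]
              exact map_one g)
            map_mul' := fun a b => hinj (by
              rw [map_mul, ← hq, ← hq, ← hq, ← map_mul]
              rfl)
            map_zero' := hinj (by
              rw [← hq, map_zero]
              exact map_zero g)
            map_add' := fun a b => hinj (by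
              rw [map_add, ← hq, ← hq, ← hq, ← map_add]
              rfl) }, fun a => ?_, fun i hi => ?_⟩
  · apply hinj
    change algebraMap ℂ κ (q (algebraMap R0 (AA R0 P) a)) = _
    rw [← hq]
    obtain ⟨ha, hqa⟩ := hle a a.2
    exact hqa
  · apply hinj
    change algebraMap ℂ κ (q ⟨yc (P i), hi⟩) = _
    rw [← hq]
    have h7 : ((r i : O) : M) = yc (P i) := (h4 i).2.2.symm
    have h8 : (⟨yc (P i), by rw [← h7]; exact (r i).2⟩ : O) = r i := Subtype.ext h7.symm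
    change g ⟨yc (P i), _⟩ = _
    rw [h8, ← hy', ← yc_kc]
    exact (h5 i).2.2.symm

end

end Pool.Agent.VM.IVT
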