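import Pool.Agent.Lib_VM.T5_h38
import Pool.Agent.Lib_VM.A_LIN
import Pool.Agent.Lib_VM.A_NAK

/-!
# MP_5582d1_ag, part IV: all functions on the sheets come from `z` and `w`
-/

set_option autoImplicit false
set_option linter.unusedSectionVars false

namespace Pool.Agent.VM.IVT

open scoped Classical

section
variable {M : Type} [Field M] [Algebra ℂ M] {l : ℂ} {w : Fin 3 → Pt E2 M}
  {P : Fin 9 → Pt (E1 l) M} {c : Fin 9 → Pt E2 ℂ} {al be : Fin 9 → ℂ} {w0 : Fin 3 → Pt E2 ℂ}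
  {e : Pt E2 ℂ} {p : Fin 9 → Pt (E1 l) ℂ} {z0 zc : Fin 3 → Pt (E1 l) ℂ} {s : Fin 9 → ℂ}
  {z : Fin 3 → Pt (E1 l) M}

theorem rho_ne (i : Fin 9) : ∃ j, V.rho i j ≠ 0 := by
  obtain ⟨n, hn⟩ := V.rho_primitive i
  by_contra h
  push Not at h
  rw [h 0, h 1, h 2] at hn
  simp at hn

/-- `xc (P i)` lies in `R0` -/
theorem YT.xP_mem (h : YT l w P c al be w0 e p z0 zc s z) {R0 : Subalgebra ℂ M}
    {Ψ : R0 →ₐ[ℂ] ℂ} (hR : IsR0 w w0 R0 Ψ) (i : Fin 9) :
    ∃ t : R0, (t : M) = xc (P i) ∧ Ψ t = xc (p i) := by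
  have hmem : ∀ b : MvPolynomial (Fin 3 × Fin 2) ℂ, MvPolynomial.aeval (cw w) b ∈ R0 := fun b =>
    (hR.mem _).2 ⟨b, 1, by rw [map_one]; exact isUnit_one, by rw [map_one, mul_one]⟩
  have hx : ∀ j, xc (w j) ∈ R0 ∧ yc (w j) ∈ R0 := fun j => by
    have h1 := hmem (MvPolynomial.X (j, 0))
    have h2 := hmem (MvPolynomial.X (j, 1))
    rw [MvPolynomial.aeval_X] at h1 h2
    exact ⟨h1, h2⟩
  have hval : ∀ (i : Fin 3 × Fin 2) (hi : cw w i ∈ R0), Ψ ⟨cw w i, hi⟩ = cw w0 i := by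
    intro i hi
    have h1 := hR.val (MvPolynomial.X i) (hmem _)
    simp only [MvPolynomial.aeval_X] at h1
    exact h1
  have hu : ∀ a : R0, Ψ a ≠ 0 → IsUnit a := fun a ha => hR.unit a (isUnit_iff_ne_zero.2 ha)
  have hδ : Der Ψ (fun _ : R0 => (0 : ℂ)) :=
    ⟨fun _ _ => by simp, fun _ _ => by simp, fun _ => rfl⟩
  obtain ⟨t, ht1, ht2, -⟩ := COM1 h.ys R0 Ψ (fun _ => 0) hδ hu
    (fun j => ⟨xc (w j), (hx j).1⟩) (fun j => ⟨yc (w j), (hx j).2⟩) 0
    (fun j => ⟨YD_w_ne h.ys.yd j, rfl, rfl⟩)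
    (fun j => ⟨kc_ne (h.ys.w00 j), by rw [xc_kc]; exact (hval (j, 0) (hx j).1).symm,
      by rw [yc_kc]; exact (hval (j, 1) (hx j).2).symm⟩)
    (fun j => by simp) i
  refine ⟨t, ht1, ?_⟩
  rw [ht2, ← h.px i]
  rfl

/-- the subring generated by the coordinates of `z` is everything -/
theorem YT.gen_z (h : YT l w P c al be w0 e p z0 zc s z) {R0 : Subalgebra ℂ M}
    {Ψ : R0 →ₐ[ℂ] ℂ} (hR : IsR0 w w0 R0 Ψ) :
    ∃ (π : AA R0 P →+* ℂ) (a b : Fin 3 → AA R0 P),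
      (∀ q : R0, π (algebraMap R0 (AA R0 P) q) = Ψ q) ∧
      (∀ (i : Fin 9) (hi : yc (P i) ∈ AA R0 P), π ⟨yc (P i), hi⟩ = yc (p i)) ∧
      (∀ j, (a j : M) = xc (z j) ∧ (b j : M) = yc (z j) ∧ π (a j) = xc (z0 j) ∧
        π (b j) = yc (z0 j)) ∧
      Algebra.adjoin R0 (Set.range a ∪ Set.range b) = ⊤ := by
  choose π hπ0 hπr using fun ε => h.sheet hR ε
  choose t ht htΨ using fun i => h.xP_mem hR i
  have hymem : ∀ i, yc (P i) ∈ AA R0 P := fun i => Algebra.subset_adjoin ⟨i, rfl⟩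
  let r : Fin 9 → AA R0 P := fun i => ⟨yc (P i), hymem i⟩
  have hgen : Algebra.adjoin R0 (Set.range r) = ⊤ := by
    have h1 := Algebra.adjoin_adjoin_coe_preimage (R := R0) (s := Set.range fun i => yc (P i))
    rw [← h1]
    congr 1
    ext ⟨q, hq⟩
    constructor
    · rintro ⟨i, hi⟩
      exact ⟨i, congrArg Subtype.val hi⟩
    · rintro ⟨i, hi⟩
      exact ⟨i, Subtype.ext hi⟩
  have hloc : IsLocalRing R0 := by
    have : Nontrivial R0 := inferInstance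
    refine IsLocalRing.of_nonunits_add ?_
    intro a b ha hb hab
    have h1 : ∀ q : R0, ¬ IsUnit q → Ψ q = 0 := by
      intro q hq
      by_contra h2
      exact hq (hR.unit q (isUnit_iff_ne_zero.2 h2))
    have h3 := hab.map Ψ
    rw [map_add, h1 a ha, h1 b hb, add_zero] at h3
    exact not_isUnit_zero h3
  have hsurj : Function.Surjective (Ψ : R0 →+* ℂ) := fun q =>
    ⟨algebraMap ℂ R0 q, Ψ.commutes q⟩
  obtain ⟨hunit, hsep⟩ := NAK r (fun i => ⟨t i ^ 3 + t i ^ 2 + algebraMap ℂ R0 l, by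
      apply Subtype.ext
      have h4 := e1_sq (h.ys.yd.P0 i)
      rw [← ht i] at h4
      exact h4⟩) hgen (Ψ : R0 →+* ℂ) hsurj
    (fun a ha => hR.unit a (isUnit_iff_ne_zero.2 ha)) π (fun ε a => hπ0 ε a)
    (fun ε i => by rw [hπr, hπr]; simp)
    (fun i => by rw [hπr]; simpa using h.py0 i)
  -- the sheets as `ℂ`-algebra homomorphisms
  let g : (Fin 9 → ℤˣ) → (AA R0 P →ₐ[ℂ] ℂ) := fun ε =>
    { π ε with
      commutes' := fun q => by
        have h1 : algebraMap ℂ (AA R0 P) q = algebraMap R0 (AA R0 P) (algebraMap ℂ R0 q) := rfl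
        change π ε (algebraMap ℂ (AA R0 P) q) = _
        rw [h1, hπ0]
        exact Ψ.commutes q }
  have hgπ : ∀ ε a, g ε a = π ε a := fun _ _ => rfl
  let v : AA R0 P →ₐ[ℂ] M := (AA R0 P).val.restrictScalars ℂ
  have hv : ∀ a : AA R0 P, v a = (a : M) := fun _ => rfl
  have hε : ∀ (ε : Fin 9 → ℤˣ) i, (ε i : ℤ) = 1 ∨ (ε i : ℤ) = -1 := fun ε i => by
    rcases Int.units_eq_one_or (ε i) with h1 | h1 <;> simp [h1]
  have hε0 : ∀ (ε : Fin 9 → ℤˣ) i, (ε i : ℤ) ≠ 0 := fun ε i => by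
    rcases hε ε i with h1 | h1 <;> rw [h1] <;> norm_num
  have hx' : ∀ (ε : Fin 9 → ℤˣ) i, xc ((ε i : ℤ) • p i) = xc (p i) := by
    intro ε i
    rcases hε ε i with h1 | h1
    · rw [h1, one_smul]
    · rw [h1, neg_smul, one_smul]
      exact ptf_xc_neg _
  have hy' : ∀ (ε : Fin 9 → ℤˣ) i, yc ((ε i : ℤ) • p i) = ((ε i : ℤ) : ℂ) * yc (p i) := by
    intro ε i
    rcases hε ε i with h1 | h1
    · rw [h1, one_smul, Int.cast_one, one_mul]
    · rw [h1, neg_smul, one_smul, Int.cast_neg, Int.cast_one, neg_mul, one_mul]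
      exact ptf_yc_neg _
  have hzc : ∀ j (m : Fin 9 → ℤ), zc j + ∑ i, m i • p i ≠ 0 := by
    intro j m h0
    apply h.zind j (m - fun i => V.rho i j)
    rw [← h.hzc j]
    simp only [Pi.sub_apply, sub_smul, Finset.sum_sub_distrib]
    rw [add_assoc, add_sub_cancel]
    exact h0
  have hzc0 : ∀ j, zc j ≠ 0 := fun j => by
    have := hzc j 0
    simpa using this
  have hlin : ∀ j, ∃ X Y : AA R0 P, Sp v X Y (z j) ∧
      ∀ ε, Sp (g ε) X Y (zc j + ∑ i, V.rho i j • ((ε i : ℤ) • p i)) := by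
    intro j
    have hS : ∀ ε, Sp (g ε) (algebraMap ℂ (AA R0 P) (xc (zc j)))
        (algebraMap ℂ (AA R0 P) (yc (zc j))) (zc j) := fun ε =>
      ⟨hzc0 j, ((g ε).commutes _).symm, ((g ε).commutes _).symm⟩
    have hSM : Sp v (algebraMap ℂ (AA R0 P) (xc (zc j)))
        (algebraMap ℂ (AA R0 P) (yc (zc j))) (kc (zc j) : Pt (E1 l) M) :=
      ⟨kc_ne (hzc0 j), by rw [xc_kc]; exact (v.commutes _).symm,
        by rw [yc_kc]; exact (v.commutes _).symm⟩
    have hQ : ∀ ε i, Sp (g ε) (algebraMap R0 (AA R0 P) (t i)) (r i) ((ε i : ℤ) • p i) := by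
      intro ε i
      refine ⟨h.p_smul i _ (hε0 ε i), ?_, ?_⟩
      · rw [hx', hgπ, hπ0, htΨ]
      · rw [hy', hgπ]
        exact (hπr ε i _).symm
    have hQM : ∀ i, Sp v (algebraMap R0 (AA R0 P) (t i)) (r i) (P i) := fun i =>
      ⟨h.ys.yd.P0 i, (ht i).symm, rfl⟩
    obtain ⟨X, Y, hXY⟩ := LIN (1 : ℂ) l g (fun a ha => hunit a ha)
      (algebraMap ℂ (AA R0 P) (xc (zc j))) (algebraMap ℂ (AA R0 P) (yc (zc j)))
      (fun i => algebraMap R0 (AA R0 P) (t i)) r (fun _ => zc j)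
      (fun ε i => (ε i : ℤ) • p i) hS hQ
      (fun ε m => by
        have h1 := hzc j (fun i => m i * (ε i : ℤ))
        intro h2
        apply h1
        rw [← h2]
        congr 1
        refine Finset.sum_congr rfl fun i _ => ?_
        rw [mul_smul]) (fun i => V.rho i j)
    refine ⟨X, Y, ?_, fun ε => (hXY ℂ (g ε) (zc j) (fun i => (ε i : ℤ) • p i) (hS ε) (hQ ε)).1⟩
    rw [h.hz j]
    exact (hXY M v (kc (zc j)) P hSM hQM).1
  choose a b hab hsp using hlin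
  refine ⟨π 1, a, b, hπ0 1, fun i hi => ?_, fun j => ?_, ?_⟩
  · rw [hπr]; simp
  · have h1 := hsp j 1
    have h2 : zc j + ∑ i, V.rho i j • (((1 : Fin 9 → ℤˣ) i : ℤ) • p i) = z0 j := by
      rw [← h.hzc j]
      simp
    rw [h2] at h1
    exact ⟨(hab j).2.1.symm, (hab j).2.2.symm, h1.2.1.symm, h1.2.2.symm⟩
  · apply hsep
    intro ε ε' hne
    obtain ⟨i, hi⟩ := Function.ne_iff.1 hne
    obtain ⟨j, hj⟩ := rho_ne i
    by_contra hcon
    push Not at hcon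
    have h1 : xc (zc j + ∑ i, V.rho i j • ((ε i : ℤ) • p i)) =
        xc (zc j + ∑ i, V.rho i j • ((ε' i : ℤ) • p i)) := by
      rw [(hsp j ε).2.1, (hsp j ε').2.1]
      exact hcon (a j) (Algebra.subset_adjoin (Or.inl ⟨j, rfl⟩))
    have h2 : yc (zc j + ∑ i, V.rho i j • ((ε i : ℤ) • p i)) =
        yc (zc j + ∑ i, V.rho i j • ((ε' i : ℤ) • p i)) := by
      rw [(hsp j ε).2.2, (hsp j ε').2.2]
      exact hcon (b j) (Algebra.subset_adjoin (Or.inr ⟨j, rfl⟩))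
    have h3 : zc j + ∑ i, V.rho i j • ((ε i : ℤ) • p i) =
        zc j + ∑ i, V.rho i j • ((ε' i : ℤ) • p i) := by
      rcases (ptf_xc_eq_iff (hsp j ε).1 (hsp j ε').1).1 h1 with h3 | h3
      · exact h3
      · -- then `y = -y`, so both are equal
        have h4 : yc (zc j + ∑ i, V.rho i j • ((ε' i : ℤ) • p i)) = 0 := by
          have h5 := h2
          rw [h3, ptf_yc_neg] at h5
          linear_combination (-1 / 2 : ℂ) * h5
        have h5 : (zc j + ∑ i, V.rho i j • ((ε' i : ℤ) • p i)) +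
            (zc j + ∑ i, V.rho i j • ((ε' i : ℤ) • p i)) = 0 := by
          by_contra h6
          have h7 := (ptf_dbl_ne (hsp j ε').1).1 h6
          rw [h4, mul_zero] at h7
          exact h7 rfl
        rw [h3]
        exact neg_eq_of_add_eq_zero_left h5
    have h4 : ∑ i, (V.rho i j * (ε i : ℤ) - V.rho i j * (ε' i : ℤ)) • p i = 0 := by
      have h5 := add_left_cancel h3
      simp only [sub_smul, mul_smul, Finset.sum_sub_distrib]
      rw [h5, sub_self]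
    have h5 := congrFun (h.p_indep _ h4) i
    simp only [Pi.zero_apply] at h5
    rw [← mul_sub, mul_eq_zero] at h5
    rcases h5 with h5 | h5
    · exact hj h5
    · exact hi (Units.ext (sub_eq_zero.1 h5))

end

end Pool.Agent.VM.IVT
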