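import Pool.Agent.Lib_VM.T6_h38

/-!
# MP_5582d1_ag, part IV: the tangent space is contained in the graph
-/

set_option autoImplicit false
set_option linter.unusedSectionVars false

namespace Pool.Agent.VM.IVT

open scoped Classical

theorem dual_der : Der (TrivSqZeroExt.fstHom ℂ ℂ ℂ : DualNumber ℂ →ₐ[ℂ] ℂ)
    (fun a => TrivSqZeroExt.snd a) := by
  refine ⟨fun a b => ?_, fun a b => ?_, fun r => ?_⟩
  · exact TrivSqZeroExt.snd_add a b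
  · rw [TrivSqZeroExt.snd_mul]
    simp only [TrivSqZeroExt.fstHom_apply, smul_eq_mul, MulOpposite.smul_eq_mul_unop,
      MulOpposite.unop_op]
    ring
  · rfl

theorem dual_eval {ι : Type} [Fintype ι] (x v : ι → ℂ) (f : MvPolynomial ι ℂ) :
    TrivSqZeroExt.fst (MvPolynomial.aeval
      (fun i => (TrivSqZeroExt.inl (x i) + TrivSqZeroExt.inr (v i) : DualNumber ℂ)) f) =
        MvPolynomial.eval x f ∧
    TrivSqZeroExt.snd (MvPolynomial.aeval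
      (fun i => (TrivSqZeroExt.inl (x i) + TrivSqZeroExt.inr (v i) : DualNumber ℂ)) f) =
        ∑ i, MvPolynomial.eval x (MvPolynomial.pderiv i f) * v i := by
  have h := der_aeval (TrivSqZeroExt.fstHom ℂ ℂ ℂ : DualNumber ℂ →ₐ[ℂ] ℂ)
    (fun a => TrivSqZeroExt.snd a) dual_der
    (fun i => (TrivSqZeroExt.inl (x i) + TrivSqZeroExt.inr (v i) : DualNumber ℂ)) x v
    (fun i => by simp) (fun i => by simp) f
  exact h

section
variable {M : Type} [Field M] [Algebra ℂ M] {l : ℂ} {w : Fin 3 → Pt E2 M}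
  {P : Fin 9 → Pt (E1 l) M} {c : Fin 9 → Pt E2 ℂ} {al be : Fin 9 → ℂ} {w0 : Fin 3 → Pt E2 ℂ}
  {e : Pt E2 ℂ} {p : Fin 9 → Pt (E1 l) ℂ} {z0 zc : Fin 3 → Pt (E1 l) ℂ} {s : Fin 9 → ℂ}
  {z : Fin 3 → Pt (E1 l) M}

theorem e2_sq {F : Type} [Field F] {Q : Pt E2 F} (h : Q ≠ 0) :
    yc Q ^ 2 = xc Q ^ 3 + 1 := by
  have h1 := ptf_sq h
  rw [h1, map_zero, map_one, zero_mul, add_zero]

theorem YT.sub (h : YT l w P c al be w0 e p z0 zc s z) (v : Ix → ℂ)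
    (hv : ∀ f : MvPolynomial Ix ℂ, MvPolynomial.aeval (XPt.co (l := l) (z, w)) f = 0 →
      ∑ i, MvPolynomial.eval (pco z0 w0) (MvPolynomial.pderiv i f) * v i = 0) :
    v = vel z0 w0 s (fun k => v (.inr k, 0) / (2 * yc (w0 k))) := by
  set τ : Fin 3 → ℂ := fun k => v (.inr k, 0) / (2 * yc (w0 k)) with hτ
  set x : Ix → ℂ := pco z0 w0 with hx
  have hker : ∀ f : MvPolynomial Ix ℂ, MvPolynomial.aeval (XPt.co (l := l) (z, w)) f = 0 →
      MvPolynomial.aeval (fun i => (TrivSqZeroExt.inl (x i) + TrivSqZeroExt.inr (v i) :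
        DualNumber ℂ)) f = 0 := by
    intro f hf
    obtain ⟨h1, h2⟩ := dual_eval x v f
    apply TrivSqZeroExt.ext
    · rw [h1, (h.sup 0 f hf).1]; rfl
    · rw [h2, hv f hf]; rfl
  obtain ⟨O, Ψ, hmem, hval, hunit⟩ := lochom (MvPolynomial.aeval (XPt.co (l := l) (z, w)) :
    MvPolynomial Ix ℂ →ₐ[ℂ] M) (MvPolynomial.aeval
      (fun i => (TrivSqZeroExt.inl (x i) + TrivSqZeroExt.inr (v i) : DualNumber ℂ))) hker
  let g : O →ₐ[ℂ] ℂ := (TrivSqZeroExt.fstHom ℂ ℂ ℂ : DualNumber ℂ →ₐ[ℂ] ℂ).comp Ψ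
  let δ : O → ℂ := fun a => TrivSqZeroExt.snd (Ψ a)
  have hg : ∀ a, g a = TrivSqZeroExt.fst (Ψ a) := fun _ => rfl
  have hδ : Der g δ := by
    refine ⟨fun a b => ?_, fun a b => ?_, fun r => ?_⟩
    · change TrivSqZeroExt.snd (Ψ (a + b)) = _
      rw [map_add]; exact dual_der.add _ _
    · change TrivSqZeroExt.snd (Ψ (a * b)) = _
      rw [map_mul]; exact dual_der.mul _ _
    · change TrivSqZeroExt.snd (Ψ (algebraMap ℂ O r)) = _
      rw [AlgHom.commutes]; exact dual_der.alg _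
  have hu : ∀ a, g a ≠ 0 → IsUnit a := by
    intro a ha
    apply hunit
    rw [TrivSqZeroExt.isUnit_iff_isUnit_fst]
    exact isUnit_iff_ne_zero.2 ha
  -- the coordinates
  have hmem' : ∀ f : MvPolynomial Ix ℂ, MvPolynomial.aeval (XPt.co (l := l) (z, w)) f ∈ O :=
    fun f => (hmem _).2 ⟨f, 1, by rw [map_one]; exact isUnit_one, by rw [map_one, mul_one]⟩
  have hco : ∀ i, ∃ hi : XPt.co (l := l) (z, w) i ∈ O, g ⟨_, hi⟩ = x i ∧ δ ⟨_, hi⟩ = v i := by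
    intro i
    have h1 := hmem' (MvPolynomial.X i)
    have h2 := hval (MvPolynomial.X i) h1
    simp only [MvPolynomial.aeval_X] at h1 h2
    refine ⟨h1, ?_, ?_⟩
    · rw [hg, h2]; simp
    · change TrivSqZeroExt.snd (Ψ _) = _
      rw [h2]; simp
  have hwx : ∀ j, ∃ hi : xc (w j) ∈ O, g ⟨_, hi⟩ = xc (w0 j) ∧ δ ⟨_, hi⟩ = v (.inr j, 0) :=
    fun j => hco (.inr j, 0)
  have hwy : ∀ j, ∃ hi : yc (w j) ∈ O, g ⟨_, hi⟩ = yc (w0 j) ∧ δ ⟨_, hi⟩ = v (.inr j, 1) :=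
    fun j => hco (.inr j, 1)
  have hzx : ∀ j, ∃ hi : xc (z j) ∈ O, g ⟨_, hi⟩ = xc (z0 j) ∧ δ ⟨_, hi⟩ = v (.inl j, 0) :=
    fun j => hco (.inl j, 0)
  have hzy : ∀ j, ∃ hi : yc (z j) ∈ O, g ⟨_, hi⟩ = yc (z0 j) ∧ δ ⟨_, hi⟩ = v (.inl j, 1) :=
    fun j => hco (.inl j, 1)
  choose mwx gwx dwx using hwx
  choose mwy gwy dwy using hwy
  choose mzx gzx dzx using hzx
  choose mzy gzy dzy using hzy
  have hvx : ∀ j, v (.inr j, 0) = 2 * yc (w0 j) * τ j := by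
    intro j
    have h1 := h.w0y j
    rw [hτ]
    field_simp
  have hvy : ∀ j, v (.inr j, 1) = 3 * xc (w0 j) ^ 2 * τ j := by
    intro j
    have h1 : 2 * yc (w0 j) ≠ 0 := mul_ne_zero two_ne_zero (h.w0y j)
    have h2 : (⟨yc (w j), mwy j⟩ : O) ^ 2 = ⟨xc (w j), mwx j⟩ ^ 3 + 1 :=
      Subtype.ext (e2_sq (YD_w_ne h.ys.yd j))
    have h3 := congrArg δ h2
    have h4 : ∀ a : O, δ (a ^ 2) = 2 * g a * δ a := fun a => by rw [sq, hδ.mul]; ring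
    have h5 : ∀ a : O, δ (a ^ 3) = 3 * g a ^ 2 * δ a := fun a => by
      rw [pow_succ, hδ.mul, h4, map_pow]; ring
    have h6 : δ (1 : O) = 0 := by
      have := hδ.alg 1
      rwa [map_one] at this
    rw [h4, hδ.add, h5, h6, gwy, dwy, gwx, dwx, hvx j] at h3
    apply mul_left_cancel₀ h1
    rw [h3]; ring
  -- the sheets
  obtain ⟨R0, Ψ0, hR⟩ := h.exists_R0
  obtain ⟨π, a, b, hπ0, hπr, hab, htop⟩ := h.gen_z hR
  have hR0 := fun q hq => hR.le O g hu (fun j => ⟨xc (w j), mwx j⟩) (fun j => ⟨yc (w j), mwy j⟩)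
    (fun j => ⟨rfl, rfl⟩) (fun j => ⟨gwx j, gwy j⟩) q hq
  let B : Subalgebra R0 (AA R0 P) :=
    { carrier := {q | ∃ hq : (q : M) ∈ O, g ⟨q, hq⟩ = π q}
      mul_mem' := by
        rintro q q' ⟨hq, hq1⟩ ⟨hq', hq1'⟩
        refine ⟨O.mul_mem hq hq', ?_⟩
        rw [map_mul, ← hq1, ← hq1', ← map_mul]
        rfl
      add_mem' := by
        rintro q q' ⟨hq, hq1⟩ ⟨hq', hq1'⟩
        refine ⟨O.add_mem hq hq', ?_⟩
        rw [map_add, ← hq1, ← hq1', ← map_add]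
        rfl
      algebraMap_mem' := by
        intro q
        obtain ⟨hq, hq1⟩ := hR0 q q.2
        refine ⟨hq, ?_⟩
        rw [hπ0]
        exact hq1 }
  have hB : B = ⊤ := by
    rw [eq_top_iff, ← htop]
    refine Algebra.adjoin_le ?_
    rintro _ (⟨j, rfl⟩ | ⟨j, rfl⟩)
    · have h1 : (a j : M) ∈ O := by rw [(hab j).1]; exact mzx j
      refine ⟨h1, ?_⟩
      have h2 : (⟨(a j : M), h1⟩ : O) = ⟨xc (z j), mzx j⟩ := Subtype.ext (hab j).1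
      rw [h2, gzx, (hab j).2.2.1]
    · have h1 : (b j : M) ∈ O := by rw [(hab j).2.1]; exact mzy j
      refine ⟨h1, ?_⟩
      have h2 : (⟨(b j : M), h1⟩ : O) = ⟨yc (z j), mzy j⟩ := Subtype.ext (hab j).2.1
      rw [h2, gzy, (hab j).2.2.2]
  have hr : ∀ i, ∃ hi : yc (P i) ∈ O, g ⟨_, hi⟩ = yc (p i) := by
    intro i
    have h1 : (⟨yc (P i), Algebra.subset_adjoin ⟨i, rfl⟩⟩ : AA R0 P) ∈ B := by
      rw [hB]; trivial
    obtain ⟨h2, h3⟩ := h1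
    refine ⟨h2, ?_⟩
    rw [h3, hπr]
  choose mr gr using hr
  -- `COM1` in `O`
  have h1 : ∀ j, Sp O.val (⟨xc (w j), mwx j⟩ : O) ⟨yc (w j), mwy j⟩ (w j) := fun j =>
    ⟨YD_w_ne h.ys.yd j, rfl, rfl⟩
  have h2 : ∀ j, Sp g (⟨xc (w j), mwx j⟩ : O) ⟨yc (w j), mwy j⟩ (kc (w0 j) : Pt E2 ℂ) := fun j =>
    ⟨kc_ne (h.ys.w00 j), by rw [xc_kc]; exact (gwx j).symm, by rw [yc_kc]; exact (gwy j).symm⟩
  choose t ht htg htd using fun i => COM1 h.ys O g δ hδ hu (fun j => ⟨xc (w j), mwx j⟩)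
    (fun j => ⟨yc (w j), mwy j⟩) τ h1 h2 (fun j => ⟨by rw [dwx, hvx]; rfl, by rw [dwy, hvy]; rfl⟩) i
  have hfin := fun j => h.jet O g δ hδ hu t (fun i => ⟨yc (P i), mr i⟩) τ
    (fun i => ⟨h.ys.yd.P0 i, (ht i).symm, rfl⟩)
    (fun i => ⟨kc_ne (h.p0 i), by rw [xc_kc, htg, h.px], by rw [yc_kc]; exact (gr i).symm⟩)
    htd j
  refine ix_ext (fun j => ?_) (fun j => ?_) (fun j => ?_) (fun j => ?_)
  · obtain ⟨a', b', ha', hb', -, -, hda, hdb⟩ := hfin j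
    have h3 : a' = ⟨xc (z j), mzx j⟩ := Subtype.ext ha'
    rw [h3, dzx] at hda
    exact hda
  · obtain ⟨a', b', ha', hb', -, -, hda, hdb⟩ := hfin j
    have h3 : b' = ⟨yc (z j), mzy j⟩ := Subtype.ext hb'
    rw [h3, dzy] at hdb
    exact hdb
  · exact hvx j
  · exact hvy j

end

end Pool.Agent.VM.IVT
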