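import Pool.Agent.Lib_VM.T7_h38
import Pool.Agent.Lib_VM.A_YD_exists
import Pool.Agent.Lib_VM.A_YD_gen
import Pool.Agent.Lib_VM.A_YD_sign
import Pool.Agent.Lib_VM.A_pt_exists
import Pool.Agent.Lib_VM.A_pts_indep

/-!
# MP_5582d1_ag, part IV: YEX
-/

set_option autoImplicit false
set_option linter.unusedSectionVars false

namespace Pool.Agent.VM.IVT

open scoped Classical

theorem sw_disc {R : Type} [CommRing R] (a b : R) :
    (SW a b).Δ = -16 * b * (4 * a ^ 3 + 27 * b) := by
  simp only [SW, WeierstrassCurve.Δ, WeierstrassCurve.b₂, WeierstrassCurve.b₄, WeierstrassCurve.b₆,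
    WeierstrassCurve.b₈]
  ring

theorem disc1 {l : ℂ} (hl : Transcendental ℚ l) : algebraMap ℂ ℂ (SW 1 l).Δ ≠ 0 := by
  rw [sw_disc]
  have h1 : l ≠ 0 := by
    rintro rfl
    exact hl isAlgebraic_zero
  have h2 : 4 * (1 : ℂ) ^ 3 + 27 * l ≠ 0 := by
    intro h
    apply hl
    have h3 : l = algebraMap ℚ ℂ (-4 / 27) := by
      have h4 : (algebraMap ℚ ℂ (-4 / 27)) = -4 / 27 := by simp
      rw [h4]
      linear_combination h / 27
    rw [h3]
    exact isAlgebraic_algebraMap _
  exact mul_ne_zero (mul_ne_zero (by norm_num) h1) h2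

theorem disc2 : algebraMap ℤ ℂ (SW (0 : ℤ) 1).Δ ≠ 0 := by
  rw [sw_disc]; norm_num

theorem YEX (l : ℂ) (hl : Transcendental ℚ l) (x : Ix → ℂ) (hx : x ∈ Xa l)
    (hy : ∀ i, x (i, 1) ≠ 0) (L : Fin 3 → Fin 3 → ℂ) (hL : ∀ k, V.sc L k ≠ 0) :
    ∃ Y : SubVar l, IsY Y ∧ Y.Mem x ∧ (Y.T x : Set (Ix → ℂ)) = graphT x L := by
  -- the point
  choose z0 hz0 hz0x hz0y using fun j => pt_exists (K := ℂ) (M := ℂ) (1 : ℂ) l (disc1 hl)
    (x (.inl j, 0)) (x (.inl j, 1)) (by rw [hx.1 j]; simp)
  choose w0 hw0 hw0x hw0y using fun j => pt_exists (K := ℂ) (M := ℂ) (0 : ℤ) 1 disc2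
    (x (.inr j, 0)) (x (.inr j, 1)) (by rw [hx.2 j]; simp)
  have hxp : x = pco z0 w0 := by
    refine ix_ext (fun j => ?_) (fun j => ?_) (fun j => ?_) (fun j => ?_)
    · exact (hz0x j).symm
    · exact (hz0y j).symm
    · exact (hw0x j).symm
    · exact (hw0y j).symm
  obtain ⟨p, hp⟩ := pts_indep (1 : ℂ) l (disc1 hl) 9 z0
  obtain ⟨e', he'⟩ := pts_indep (0 : ℤ) 1 disc2 1 w0
  let e : Pt E2 ℂ := e' 0
  have he : ∀ (m : ℤ) (n : Fin 3 → ℤ), m • e = ∑ j, n j • w0 j → m = 0 := by
    intro m n h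
    have h1 := he' (fun _ => m) n (by rw [Fin.sum_univ_one]; exact h)
    exact congrFun h1 0
  have hpi : ∀ i (n : ℤ), n ≠ 0 → n • p i ≠ 0 := by
    intro i n hn h0
    have h1 := hp (Pi.single i n) 0 (by
      rw [Finset.sum_eq_single i]
      · rw [Pi.single_eq_same, h0]; simp
      · intro j _ hj
        rw [Pi.single_eq_of_ne hj, zero_smul]
      · intro hi
        exact absurd (Finset.mem_univ i) hi)
    have h2 := congrFun h1 i
    rw [Pi.single_eq_same] at h2
    exact hn h2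
  have hp0 : ∀ i, p i ≠ 0 := fun i => by
    have := hpi i 1 one_ne_zero
    rwa [one_smul] at this
  have hpy : ∀ i, yc (p i) ≠ 0 := fun i => by
    have h1 := hpi i 2 two_ne_zero
    rw [two_smul] at h1
    exact right_ne_zero_of_mul ((ptf_dbl_ne (hp0 i)).1 h1)
  have he0 : e ≠ 0 := by
    intro h0
    have := he 1 0 (by rw [h0]; simp)
    exact one_ne_zero this
  have hey : yc e ≠ 0 := by
    have h1 : e + e ≠ 0 := by
      intro h0
      have := he 2 0 (by rw [two_smul, h0]; simp)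
      exact two_ne_zero this
    exact right_ne_zero_of_mul ((ptf_dbl_ne he0).1 h1)
  set s : Fin 9 → ℂ := V.sc L with hs
  let c : Fin 9 → Pt E2 ℂ := fun i => e - comb (V.ell i) w0
  let al : Fin 9 → ℂ := fun i => s i * yc (p i) / yc e
  let be : Fin 9 → ℂ := fun i => xc (p i) - al i * xc e
  have hal : ∀ i, al i ≠ 0 := fun i => div_ne_zero (mul_ne_zero (hL i) (hpy i)) hey
  let zc : Fin 3 → Pt (E1 l) ℂ := fun j => z0 j - ∑ i, V.rho i j • p i
  obtain ⟨M, _, _, w, P, hYD⟩ := YD_exists l hl c al be hal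
  let z : Fin 3 → Pt (E1 l) M := fun j => kc (zc j) + ∑ i, V.rho i j • P i
  have hT : YT l w P c al be w0 e p z0 zc s z :=
    { hl := hl
      ys :=
        { yd := hYD
          ce := fun i => sub_add_cancel _ _
          ind := by
            intro n h0
            have h1 : (1 : ℤ) • e = ∑ j, (-n) j • w0 j := by
              rw [one_smul, eq_neg_of_add_eq_zero_left h0]
              simp only [Pi.neg_apply, neg_smul, Finset.sum_neg_distrib]
            exact one_ne_zero (he 1 _ h1)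
          w00 := hw0 }
      w0y := fun j => by rw [hw0y]; exact hy _
      z00 := hz0
      z0y := fun j => by rw [hz0y]; exact hy _
      px := fun i => by change _ = al i * xc e + (xc (p i) - al i * xc e); ring
      py := fun i => by change s i * yc (p i) / yc e * yc e = _; field_simp
      pind := hp
      hzc := fun j => sub_add_cancel _ _
      hz := fun j => rfl }
  obtain ⟨hdg, htr, -, -⟩ := YD_sign hl hYD
  let Y : SubVar l :=
    { M := M
      z := z
      w := w
      gen := YD_gen hl hYD zc z (fun j => rfl)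
      dim3 := htr }
  have hsum : ∀ (τ : Fin 3 → ℂ) (j : Fin 3),
      ∑ i, (V.rho i j : ℂ) * (s i * ∑ k, (V.ell i k : ℂ) * τ k) = ∑ k, L j k * τ k := by
    intro τ j
    simp only [V.sc_sum L j, Finset.sum_mul, Finset.mul_sum]
    rw [Finset.sum_comm]
    refine Finset.sum_congr rfl fun k _ => Finset.sum_congr rfl fun i _ => ?_
    rw [hs]; ring
  refine ⟨Y, ⟨P, c, al, be, zc, hal, hYD.P0, hYD.xP, fun j => rfl, hYD.gen, hYD.top, hdg⟩,
    ⟨⟨fun j h0 => ?_, fun j => YD_w_ne hYD j⟩, fun f hf => ?_⟩, ?_⟩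
  · -- `z j ≠ 0`
    have h1 : MvPolynomial.aeval (XPt.co (l := l) (z, w))
        (MvPolynomial.X (.inl j, 1) : MvPolynomial Ix ℂ) = 0 := by
      rw [MvPolynomial.aeval_X]
      change yc (z j) = 0
      have h2 : z j = 0 := h0
      rw [h2]; rfl
    have h2 := (hT.sup 0 _ h1).1
    rw [MvPolynomial.eval_X, ← hxp] at h2
    exact hy _ h2
  · rw [hxp]
    exact (hT.sup 0 f hf).1
  · ext v
    constructor
    · intro hv
      have h1 := hT.sub v (fun f hf => by
        have := hv f hf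
        rwa [hxp] at this)
      set τ : Fin 3 → ℂ := fun k => v (.inr k, 0) / (2 * yc (w0 k)) with hτ
      have e1 : ∀ j, v (.inl j, 0) = 2 * yc (z0 j) * ∑ k, L j k * τ k := fun j => by
        rw [← hsum τ j]; exact congrFun h1 (.inl j, 0)
      have e2 : ∀ j, v (.inl j, 1) = (3 * xc (z0 j) ^ 2 + 2 * xc (z0 j)) * ∑ k, L j k * τ k :=
        fun j => by rw [← hsum τ j]; exact congrFun h1 (.inl j, 1)
      have e3 : ∀ j, v (.inr j, 0) = 2 * yc (w0 j) * τ j := fun j => congrFun h1 (.inr j, 0)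
      have e4 : ∀ j, v (.inr j, 1) = 3 * xc (w0 j) ^ 2 * τ j := fun j => congrFun h1 (.inr j, 1)
      refine ⟨⟨fun j => ?_, fun j => ?_⟩, fun j => ?_⟩
      · rw [e1, e2, ← hz0x, ← hz0y]; ring
      · rw [e3, e4, ← hw0x, ← hw0y]; ring
      · have h2 : yc (z0 j) ≠ 0 := hT.z0y j
        rw [e1, ← hz0y, mul_div_cancel_left₀ _ (mul_ne_zero two_ne_zero h2)]
        refine Finset.sum_congr rfl fun k _ => ?_
        rw [hτ, ← hw0y]
    · rintro ⟨⟨g1, g2⟩, g3⟩ f hf
      have h1 : v = vel z0 w0 s (fun k => v (.inr k, 0) / (2 * yc (w0 k))) := by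
        set τ : Fin 3 → ℂ := fun k => v (.inr k, 0) / (2 * yc (w0 k)) with hτ
        have f1 : ∀ j, v (.inl j, 0) = 2 * yc (z0 j) * ∑ k, L j k * τ k := by
          intro j
          have h2 : yc (z0 j) ≠ 0 := hT.z0y j
          have h3 := g3 j
          rw [← hz0y, div_eq_iff (mul_ne_zero two_ne_zero h2)] at h3
          rw [h3, mul_comm]
          congr 1
          refine Finset.sum_congr rfl fun k _ => ?_
          rw [hτ, ← hw0y]
        have f3 : ∀ j, v (.inr j, 0) = 2 * yc (w0 j) * τ j := by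
          intro j
          have h2 := hT.w0y j
          rw [hτ]
          field_simp
        refine ix_ext (fun j => ?_) (fun j => ?_) (fun j => ?_) (fun j => ?_)
        · rw [f1 j, ← hsum τ j]; rfl
        · have h2 : yc (z0 j) ≠ 0 := hT.z0y j
          have h3 := g1 j
          rw [← hz0y, ← hz0x, f1 j, ← hsum τ j] at h3
          apply mul_left_cancel₀ (mul_ne_zero two_ne_zero h2)
          rw [h3]
          change _ = 2 * yc (z0 j) * ((3 * xc (z0 j) ^ 2 + 2 * xc (z0 j)) *
            ∑ i, (V.rho i j : ℂ) * (s i * ∑ k, (V.ell i k : ℂ) * τ k))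
          ring
        · exact f3 j
        · have h2 := hT.w0y j
          have h3 := g2 j
          rw [← hw0y, ← hw0x, f3 j] at h3
          apply mul_left_cancel₀ (mul_ne_zero two_ne_zero h2)
          rw [h3]
          change _ = 2 * yc (w0 j) * (3 * xc (w0 j) ^ 2 * τ j)
          ring
      have h2 := (hT.sup (fun k => v (.inr k, 0) / (2 * yc (w0 k))) f hf).2
      rw [← h1, ← hxp] at h2
      exact h2

end Pool.Agent.VM.IVT
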