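import Mathlib

/-!
# The rank two local height on `y^2 = x^3 + x^2 + l` (scalar form)

`w`, `o` are the two coordinates of a rank two valuation on a field `K`; both functions are
only read on nonzero elements.
-/

namespace Pool.Agent.VMTI

/-- The two coordinates `w`, `o` of a rank two valuation (read on nonzero elements only). -/
structure R2 (K : Type*) [Field K] where
  w : K → ℚ
  o : K → ℚ
  wmul : ∀ {a b : K}, a ≠ 0 → b ≠ 0 → w (a * b) = w a + w b
  omul : ∀ {a b : K}, a ≠ 0 → b ≠ 0 → o (a * b) = o a + o b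
  wadd : ∀ {a b : K}, a ≠ 0 → b ≠ 0 → a + b ≠ 0 → min (w a) (w b) ≤ w (a + b)
  oadd : ∀ {a b : K}, a ≠ 0 → b ≠ 0 → a + b ≠ 0 → w a < w b → o (a + b) = o a

variable {K : Type*} [Field K] (R : R2 K)

/-- `w a ≥ r` (or `a = 0`). -/
def G (r : ℚ) (a : K) : Prop := a = 0 ∨ r ≤ R.w a

/-- `w a > r` (or `a = 0`). -/
def S (r : ℚ) (a : K) : Prop := a = 0 ∨ r < R.w a

/-- The local height `T(x) = (clamp(w x, 0, 1/2) - 1/2) o(x)`, and `0` at `x = 0`. -/
noncomputable def T (x : K) : ℚ := by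
  classical
  exact if x = 0 then 0 else (max 0 (min (R.w x) (1/2)) - 1/2) * R.o x

/-- `phi(x) = |o(x)|` if `0 < w x < 1/2`, and `0` otherwise. -/
noncomputable def phi (x : K) : ℚ := by
  classical
  exact if x ≠ 0 ∧ 0 < R.w x ∧ R.w x < 1/2 then |R.o x| else 0

section basic

variable {R}

lemma w_one : R.w 1 = 0 := by
  have := R.wmul (a := 1) (b := 1) one_ne_zero one_ne_zero
  rw [mul_one] at this
  linarith

lemma o_one : R.o 1 = 0 := by
  have := R.omul (a := 1) (b := 1) one_ne_zero one_ne_zero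
  rw [mul_one] at this
  linarith

lemma w_negone : R.w (-1) = 0 := by
  have h1 : (-1 : K) ≠ 0 := neg_ne_zero.mpr one_ne_zero
  have := R.wmul (a := -1) (b := -1) h1 h1
  rw [neg_one_mul, neg_neg, w_one] at this
  linarith

lemma o_negone : R.o (-1) = 0 := by
  have h1 : (-1 : K) ≠ 0 := neg_ne_zero.mpr one_ne_zero
  have := R.omul (a := -1) (b := -1) h1 h1
  rw [neg_one_mul, neg_neg, o_one] at this
  linarith

lemma w_neg (a : K) : R.w (-a) = R.w a := by
  by_cases ha : a = 0
  · simp [ha]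
  have h1 : (-1 : K) ≠ 0 := neg_ne_zero.mpr one_ne_zero
  have := R.wmul (a := -1) (b := a) h1 ha
  rw [neg_one_mul, w_negone] at this
  linarith

lemma o_neg (a : K) : R.o (-a) = R.o a := by
  by_cases ha : a = 0
  · simp [ha]
  have h1 : (-1 : K) ≠ 0 := neg_ne_zero.mpr one_ne_zero
  have := R.omul (a := -1) (b := a) h1 ha
  rw [neg_one_mul, o_negone] at this
  linarith

lemma w_pow {a : K} (ha : a ≠ 0) (n : ℕ) : R.w (a ^ n) = n * R.w a := by
  induction n with
  | zero => simp [w_one]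
  | succ n ih => rw [pow_succ, R.wmul (pow_ne_zero n ha) ha, ih]; push_cast; ring

lemma o_pow {a : K} (ha : a ≠ 0) (n : ℕ) : R.o (a ^ n) = n * R.o a := by
  induction n with
  | zero => simp [o_one]
  | succ n ih => rw [pow_succ, R.omul (pow_ne_zero n ha) ha, ih]; push_cast; ring

lemma G.mono {r s : ℚ} {a : K} (h : G R r a) (hs : s ≤ r) : G R s a :=
  h.imp id (fun h => hs.trans h)

lemma S.mono {r s : ℚ} {a : K} (h : S R r a) (hs : s ≤ r) : S R s a :=
  h.imp id (fun h => lt_of_le_of_lt hs h)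

lemma G.toS {r s : ℚ} {a : K} (h : G R r a) (hs : s < r) : S R s a :=
  h.imp id (fun h => lt_of_lt_of_le hs h)

lemma S.toG {r : ℚ} {a : K} (h : S R r a) : G R r a := h.imp id le_of_lt

lemma G_zero (r : ℚ) : G R r (0 : K) := Or.inl rfl

lemma G_self (a : K) : G R (R.w a) a := Or.inr le_rfl

lemma G.add {r : ℚ} {a b : K} (ha : G R r a) (hb : G R r b) : G R r (a + b) := by
  by_cases hab : a + b = 0
  · exact Or.inl hab
  rcases ha with rfl | ha
  · rw [zero_add]; exact hb
  by_cases ha0 : a = 0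
  · rw [ha0, zero_add]; exact hb
  rcases hb with rfl | hb
  · rw [add_zero]; exact Or.inr ha
  by_cases hb0 : b = 0
  · rw [hb0, add_zero]; exact Or.inr ha
  exact Or.inr ((le_min ha hb).trans (R.wadd ha0 hb0 hab))

lemma S.add {r : ℚ} {a b : K} (ha : S R r a) (hb : S R r b) : S R r (a + b) := by
  by_cases hab : a + b = 0
  · exact Or.inl hab
  rcases ha with rfl | ha
  · rw [zero_add]; exact hb
  by_cases ha0 : a = 0
  · rw [ha0, zero_add]; exact hb
  rcases hb with rfl | hb
  · rw [add_zero]; exact Or.inr ha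
  by_cases hb0 : b = 0
  · rw [hb0, add_zero]; exact Or.inr ha
  exact Or.inr (lt_of_lt_of_le (lt_min ha hb) (R.wadd ha0 hb0 hab))

lemma G.neg {r : ℚ} {a : K} (ha : G R r a) : G R r (-a) := by
  rcases ha with rfl | ha
  · left; simp
  · right; rwa [w_neg]

lemma S.neg {r : ℚ} {a : K} (ha : S R r a) : S R r (-a) := by
  rcases ha with rfl | ha
  · left; simp
  · right; rwa [w_neg]

lemma G.sub {r : ℚ} {a b : K} (ha : G R r a) (hb : G R r b) : G R r (a - b) := by
  rw [sub_eq_add_neg]; exact ha.add hb.neg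

lemma G.mul {r s : ℚ} {a b : K} (ha : G R r a) (hb : G R s b) : G R (r + s) (a * b) := by
  by_cases ha0 : a = 0
  · left; rw [ha0, zero_mul]
  by_cases hb0 : b = 0
  · left; rw [hb0, mul_zero]
  rcases ha with ha | ha
  · exact absurd ha ha0
  rcases hb with hb | hb
  · exact absurd hb hb0
  right
  rw [R.wmul ha0 hb0]
  linarith

lemma G.pow {r : ℚ} {a : K} (ha : G R r a) (n : ℕ) : G R (n * r) (a ^ n) := by
  induction n with
  | zero => right; simp [w_one]
  | succ n ih =>
    rw [pow_succ]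
    exact (ih.mul ha).mono (by push_cast; linarith)

lemma G_nat (n : ℕ) : G R 0 (n : K) := by
  induction n with
  | zero => left; simp
  | succ n ih =>
    rw [Nat.cast_succ]
    exact ih.add (Or.inr (by rw [w_one]))

lemma G_two : G R 0 (2 : K) := by have := G_nat (R := R) 2; exact_mod_cast this
lemma G_four : G R 0 (4 : K) := by have := G_nat (R := R) 4; exact_mod_cast this
lemma G_eight : G R 0 (8 : K) := by have := G_nat (R := R) 8; exact_mod_cast this
lemma G_one : G R 0 (1 : K) := Or.inr (by rw [w_one])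

/-- Leading term: if `b` is negligible against `a ≠ 0`, then `a + b` has the two values of `a`. -/
lemma lead {a b : K} (ha : a ≠ 0) (hb : S R (R.w a) b) :
    a + b ≠ 0 ∧ R.w (a + b) = R.w a ∧ R.o (a + b) = R.o a := by
  by_cases hb0 : b = 0
  · rw [hb0, add_zero]; exact ⟨ha, rfl, rfl⟩
  have hb' : R.w a < R.w b := hb.resolve_left hb0
  have hne : a + b ≠ 0 := by
    intro h
    have : b = -a := by linear_combination h
    rw [this, w_neg] at hb'
    exact lt_irrefl _ hb'
  refine ⟨hne, ?_, R.oadd ha hb0 hne hb'⟩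
  apply le_antisymm
  · by_contra hlt
    push Not at hlt
    have h1 := R.wadd (a := a + b) (b := -b) hne (neg_ne_zero.mpr hb0) (by simpa using ha)
    rw [w_neg, add_neg_cancel_right] at h1
    have h2 : R.w a < min (R.w (a + b)) (R.w b) := lt_min hlt hb'
    linarith
  · have h1 := R.wadd (a := a) (b := b) ha hb0 hne
    rwa [min_eq_left hb'.le] at h1

lemma T_zero : T R (0 : K) = 0 := by simp [T]

lemma T_low {x : K} (hx : x ≠ 0) (h : R.w x ≤ 0) : T R x = -(1/2) * R.o x := by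
  unfold T
  rw [if_neg hx, min_eq_left (by linarith), max_eq_left h]
  ring

lemma T_mid {x : K} (hx : x ≠ 0) (h : 0 ≤ R.w x) (h' : R.w x ≤ 1/2) :
    T R x = (R.w x - 1/2) * R.o x := by
  unfold T
  rw [if_neg hx, min_eq_left h', max_eq_right h]

lemma T_high {x : K} (h : G R (1/2) x) : T R x = 0 := by
  unfold T
  by_cases hx : x = 0
  · rw [if_pos hx]
  · have h1 : (1:ℚ)/2 ≤ R.w x := h.resolve_left hx
    rw [if_neg hx, min_eq_right h1, max_eq_right (by norm_num)]
    ring

end basic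

section roots

variable {R}

/-- roots of `c2 X^2 - c1 X + c0` with `c0` of least value have `w ≤ 0`. -/
lemma root_low {c0 c1 c2 s : K} (h0 : c0 ≠ 0) (h1 : G R (R.w c0) c1) (h2 : G R (R.w c0) c2)
    (hs : c2 * s ^ 2 - c1 * s + c0 = 0) : s ≠ 0 ∧ R.w s ≤ 0 := by
  have hs0 : s ≠ 0 := by
    rintro rfl
    apply h0
    simpa using hs
  refine ⟨hs0, ?_⟩
  by_contra hlt
  push Not at hlt
  have e1 : S R (R.w c0) (c1 * s) := by
    have := h1.mul (G_self (R := R) s)
    exact this.toS (by linarith)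
  have e2 : S R (R.w c0) (-(c2 * s ^ 2)) := by
    have := h2.mul ((G_self (R := R) s).pow 2)
    exact (this.toS (by push_cast; linarith)).neg
  have e3 := e1.add e2
  have e4 : c1 * s + -(c2 * s ^ 2) = c0 := by linear_combination -hs
  rw [e4] at e3
  rcases e3 with e3 | e3
  · exact h0 e3
  · exact lt_irrefl _ e3

/-- two numbers with product of value `2u` and sum of value `≥ u` both have value `u`. -/
lemma root_eq {s t : K} {u : ℚ} (hs : s ≠ 0) (ht : t ≠ 0) (hp : R.w s + R.w t = 2 * u)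
    (hsum : G R u (s + t)) : R.w s = u ∧ R.w t = u := by
  have key : ∀ {s t : K}, s ≠ 0 → t ≠ 0 → R.w s + R.w t = 2 * u → G R u (s + t) →
      ¬ R.w s < u := by
    intro s t hs ht hp hsum hlt
    have hl := lead (R := R) (a := s) (b := t) hs (Or.inr (by linarith))
    have := hsum.resolve_left hl.1
    rw [hl.2.1] at this
    linarith
  have h1 := key hs ht hp hsum
  have h2 := key ht hs (by linarith) (by rwa [add_comm])
  constructor <;> linarith

/-- two numbers with product of value `≥ 1` and sum of value `≥ 1/2` both have value `≥ 1/2`. -/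
lemma root_high {s t : K} (hp : G R 1 (s * t)) (hsum : G R (1/2) (s + t)) :
    G R (1/2) s ∧ G R (1/2) t := by
  have key : ∀ {s t : K}, G R 1 (s * t) → G R (1/2) (s + t) → G R (1/2) s := by
    intro s t hp hsum
    by_cases hs : s = 0
    · exact Or.inl hs
    by_contra hcon
    have hlt : R.w s < 1/2 := by
      by_contra h
      push Not at h
      exact hcon (Or.inr h)
    have hS : S R (R.w s) t := by
      by_cases ht : t = 0
      · exact Or.inl ht
      right
      have := hp.resolve_left (mul_ne_zero hs ht)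
      rw [R.wmul hs ht] at this
      linarith
    have hl := lead hs hS
    have := hsum.resolve_left hl.1
    rw [hl.2.1] at this
    linarith
  exact ⟨key hp hsum, key (by rwa [mul_comm]) (by rwa [add_comm])⟩

/-- two numbers whose product is small compared with the square of the sum: one of them has the
two values of the sum, the other one is smaller. -/
lemma root_split {s t : K} (h0 : s + t ≠ 0) (hp : S R (2 * R.w (s + t)) (s * t)) :
    (s ≠ 0 ∧ R.w s = R.w (s + t) ∧ R.o s = R.o (s + t) ∧ S R (R.w (s + t)) t) ∨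
    (t ≠ 0 ∧ R.w t = R.w (s + t) ∧ R.o t = R.o (s + t) ∧ S R (R.w (s + t)) s) := by
  have key : ∀ {s t : K}, s + t ≠ 0 → S R (2 * R.w (s + t)) (s * t) →
      ¬ S R (R.w (s + t)) s →
      (s ≠ 0 ∧ R.w s = R.w (s + t) ∧ R.o s = R.o (s + t) ∧ S R (R.w (s + t)) t) := by
    intro s t h0 hp hns
    have hs0 : s ≠ 0 := fun h => hns (Or.inl h)
    have hle : R.w s ≤ R.w (s + t) := by
      by_contra h
      push Not at h
      exact hns (Or.inr h)
    have hge : R.w (s + t) ≤ R.w s := by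
      by_contra hlt
      push Not at hlt
      -- then `t = (s + t) - s` has value `w s`
      have hl := lead (R := R) (a := -s) (b := s + t) (neg_ne_zero.mpr hs0)
        (Or.inr (by rw [w_neg]; exact hlt))
      have e : -s + (s + t) = t := by ring
      rw [e, w_neg] at hl
      have := hp.resolve_left (mul_ne_zero hs0 hl.1)
      rw [R.wmul hs0 hl.1, hl.2.1] at this
      linarith
    have heq : R.w s = R.w (s + t) := le_antisymm hle hge
    have hS : S R (R.w (s + t)) t := by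
      by_cases ht : t = 0
      · exact Or.inl ht
      right
      have := hp.resolve_left (mul_ne_zero hs0 ht)
      rw [R.wmul hs0 ht] at this
      linarith
    have hl := lead (R := R) (a := s) (b := t) hs0 (by rw [heq]; exact hS)
    exact ⟨hs0, heq, hl.2.2.symm, hS⟩
  by_cases hs : S R (R.w (s + t)) s
  · by_cases ht : S R (R.w (s + t)) t
    · exfalso
      rcases hs.add ht with h | h
      · exact h0 h
      · exact lt_irrefl _ h
    · right
      have := key (s := t) (t := s) (by rwa [add_comm]) (by rwa [add_comm t s, mul_comm t s])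
        (by rwa [add_comm])
      rwa [add_comm t s] at this
  · left
    exact key h0 hp hs

end roots

/-- value at most `a` from a product equation: if `d * z = n` with `d ≠ 0` -/
lemma div_vals {d z n : K} (hd : d ≠ 0) (hn : n ≠ 0) (h : d * z = n) :
    z ≠ 0 ∧ R.w z = R.w n - R.w d ∧ R.o z = R.o n - R.o d := by
  have hz : z ≠ 0 := by
    rintro rfl
    apply hn
    rw [← h, mul_zero]
  refine ⟨hz, ?_, ?_⟩
  · rw [← h, R.wmul hd hz]; ring
  · rw [← h, R.omul hd hz]; ring

lemma div_G {d z n : K} {r : ℚ} (hd : d ≠ 0) (hn : G R r n) (h : d * z = n) :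
    G R (r - R.w d) z := by
  by_cases hz : z = 0
  · exact Or.inl hz
  right
  have h1 := hn.resolve_left (by rw [← h]; exact mul_ne_zero hd hz)
  rw [← h, R.wmul hd hz] at h1
  linarith

section main

variable {R}
variable {l : K}

/-- numerator of the sum `X(P+Q) + X(P-Q)` -/
def N1 (l x y : K) : K := 2 * x * y * (x + y) + 4 * x * y + 4 * l

/-- numerator of the product `X(P+Q) X(P-Q)` -/
def N2 (l x y : K) : K := x ^ 2 * y ^ 2 - 4 * l * (x + y + 1)

/-- standing hypotheses on `l` and `2` -/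
structure Base (R : R2 K) (l : K) : Prop where
  l0 : l ≠ 0
  wl : R.w l = 1
  ol : R.o l = 0
  two : (2 : K) ≠ 0
  w2 : R.w 2 = 0
  o2 : R.o 2 = 0

variable (B : Base R l)
include B

lemma Base.four : (4 : K) ≠ 0 ∧ R.w 4 = 0 ∧ R.o 4 = 0 := by
  have e : (4 : K) = 2 * 2 := by norm_num
  refine ⟨by rw [e]; exact mul_ne_zero B.two B.two, ?_, ?_⟩
  · rw [e, R.wmul B.two B.two, B.w2]; norm_num
  · rw [e, R.omul B.two B.two, B.o2]; norm_num

lemma Base.fourl : (4 * l : K) ≠ 0 ∧ R.w (4 * l) = 1 ∧ R.o (4 * l) = 0 := by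
  obtain ⟨h, hw, ho⟩ := B.four
  refine ⟨mul_ne_zero h B.l0, ?_, ?_⟩
  · rw [R.wmul h B.l0, hw, B.wl]; norm_num
  · rw [R.omul h B.l0, ho, B.ol]; norm_num

/-- values of `4 x y` -/
lemma Base.fourxy {x y : K} (hx : x ≠ 0) (hy : y ≠ 0) :
    4 * x * y ≠ 0 ∧ R.w (4 * x * y) = R.w x + R.w y ∧ R.o (4 * x * y) = R.o x + R.o y := by
  obtain ⟨h, hw, ho⟩ := B.four
  refine ⟨mul_ne_zero (mul_ne_zero h hx) hy, ?_, ?_⟩
  · rw [R.wmul (mul_ne_zero h hx) hy, R.wmul h hx, hw]; ring
  · rw [R.omul (mul_ne_zero h hx) hy, R.omul h hx, ho]; ring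

omit B in
lemma sq_vals {x y : K} (hx : x ≠ 0) (hy : y ≠ 0) :
    x ^ 2 * y ^ 2 ≠ 0 ∧ R.w (x ^ 2 * y ^ 2) = 2 * R.w x + 2 * R.w y ∧
      R.o (x ^ 2 * y ^ 2) = 2 * R.o x + 2 * R.o y := by
  refine ⟨mul_ne_zero (pow_ne_zero 2 hx) (pow_ne_zero 2 hy), ?_, ?_⟩
  · rw [R.wmul (pow_ne_zero 2 hx) (pow_ne_zero 2 hy), w_pow hx, w_pow hy]; push_cast; ring
  · rw [R.omul (pow_ne_zero 2 hx) (pow_ne_zero 2 hy), o_pow hx, o_pow hy]; push_cast; ring

/-- `4 l (x + y + 1)` has value at least `1 + r` if `x`, `y`, `1` have value at least `r`. -/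
lemma Base.tail {x y : K} {r : ℚ} (hx : G R r x) (hy : G R r y) (hr : r ≤ 0) :
    G R (1 + r) (4 * l * (x + y + 1)) := by
  obtain ⟨h, hw, -⟩ := B.fourl
  have h1 : G R 1 (4 * l) := Or.inr (by rw [hw])
  exact h1.mul ((hx.add hy).add (G_one.mono hr))

/-- lower bound for `N1` -/
lemma Base.N1_G {x y : K} {a b c r : ℚ} (hx : G R a x) (hy : G R b y) (hxy : G R c (x + y))
    (h1 : r ≤ a + b + c) (h2 : r ≤ a + b) (h3 : r ≤ 1) : G R r (N1 l x y) := by
  unfold N1
  have e1 : G R r (2 * x * y * (x + y)) :=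
    (((G_two.mul hx).mul hy).mul hxy).mono (by linarith)
  have e2 : G R r (4 * x * y) := ((G_four.mul hx).mul hy).mono (by linarith)
  have e3 : G R r (4 * l) := Or.inr (by rw [B.fourl.2.1]; exact h3)
  exact (e1.add e2).add e3

/-- case (i) -/
lemma Base.case1 {x y s t : K} (hx : x ≠ 0) (hy : y ≠ 0) (hxy : x - y ≠ 0) (hwx : R.w x ≤ 0)
    (hwy : R.w y ≤ 0) (hσ : (x - y) ^ 2 * (s + t) = N1 l x y)
    (hπ : (x - y) ^ 2 * (s * t) = N2 l x y) :
    T R s + T R t = 2 * T R x + 2 * T R y + R.o (x - y) := by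
  set r : ℚ := R.w x + R.w y with hr
  have gx : G R r x := Or.inr (by linarith)
  have gy : G R r y := Or.inr (by linarith)
  obtain ⟨q0, qw, qo⟩ := sq_vals (R := R) hx hy
  have htail := B.tail gx gy (by linarith : r ≤ 0)
  have hN2 := lead (R := R) (a := x ^ 2 * y ^ 2) (b := -(4 * l * (x + y + 1))) q0
    (htail.neg.toS (by rw [qw]; linarith))
  have eN2 : x ^ 2 * y ^ 2 + -(4 * l * (x + y + 1)) = N2 l x y := by unfold N2; ring
  rw [eN2, qw, qo] at hN2
  obtain ⟨n0, nw, no⟩ := hN2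
  have gN1 : G R (R.w (N2 l x y)) (N1 l x y) := by
    rw [nw]
    exact B.N1_G (G_self x) (G_self y) (gx.add gy) (by linarith) (by linarith) (by linarith)
  have gD : G R (R.w (N2 l x y)) ((x - y) ^ 2) := by
    rw [nw]
    exact ((gx.sub gy).pow 2).mono (by push_cast; linarith)
  have rs := root_low (R := R) n0 gN1 gD (s := s)
    (by rw [← hσ, ← hπ]; ring)
  have rt := root_low (R := R) n0 gN1 gD (s := t)
    (by rw [← hσ, ← hπ]; ring)
  have hd := div_vals (R := R) (pow_ne_zero 2 hxy) n0 hπ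
  rw [R.omul rs.1 rt.1, no, o_pow hxy] at hd
  rw [T_low rs.1 rs.2, T_low rt.1 rt.2, T_low hx hwx, T_low hy hwy]
  have := hd.2.2
  push_cast at this
  linarith

omit B in
/-- values of `x - y` when `y` dominates -/
lemma sub_vals {x y : K} (hy : y ≠ 0) (hx : S R (R.w y) x) :
    x - y ≠ 0 ∧ R.w (x - y) = R.w y ∧ R.o (x - y) = R.o y := by
  have := lead (R := R) (a := -y) (b := x) (neg_ne_zero.mpr hy) (by rw [w_neg]; exact hx)
  rw [w_neg, o_neg] at this
  have e : -y + x = x - y := by ring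
  rwa [e] at this

/-- case (ii) -/
lemma Base.case2 {x y s t : K} (hx : x ≠ 0) (hy : y ≠ 0) (hwx : 0 < R.w x)
    (hwx' : R.w x < 1/2)
    (hwy : R.w y ≤ 0) (hσ : (x - y) ^ 2 * (s + t) = N1 l x y)
    (hπ : (x - y) ^ 2 * (s * t) = N2 l x y) :
    T R s + T R t = 2 * T R x + 2 * T R y + R.o (x - y) := by
  have hS : S R (R.w y) x := Or.inr (by linarith)
  obtain ⟨d0, dw, dO⟩ := sub_vals hy hS
  have gx : G R (R.w y) x := Or.inr (by linarith)
  obtain ⟨q0, qw, qo⟩ := sq_vals (R := R) hx hy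
  have htail := B.tail gx (G_self y) hwy
  have hN2 := lead (R := R) (a := x ^ 2 * y ^ 2) (b := -(4 * l * (x + y + 1))) q0
    (htail.neg.toS (by rw [qw]; linarith))
  have eN2 : x ^ 2 * y ^ 2 + -(4 * l * (x + y + 1)) = N2 l x y := by unfold N2; ring
  rw [eN2, qw, qo] at hN2
  obtain ⟨n0, nw, no⟩ := hN2
  have gN1 : G R (R.w x + 2 * R.w y) (N1 l x y) :=
    B.N1_G (G_self x) (G_self y) (gx.add (G_self y)) (by linarith) (by linarith) (by linarith)
  have hd := div_vals (R := R) (pow_ne_zero 2 d0) n0 hπ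
  have hst := mul_ne_zero_iff.mp hd.1
  have hsum := div_G (R := R) (pow_ne_zero 2 d0) gN1 hσ
  rw [w_pow d0, dw] at hsum
  have hsum' : G R (R.w x) (s + t) := hsum.mono (by push_cast; linarith)
  rw [R.wmul hst.1 hst.2, R.omul hst.1 hst.2, nw, no, w_pow d0, o_pow d0, dw, dO] at hd
  obtain ⟨-, hdw, hdo⟩ := hd
  push_cast at hdw hdo
  obtain ⟨ws, wt⟩ := root_eq (R := R) hst.1 hst.2 (by linarith) hsum'
  rw [T_mid hst.1 (by linarith) (by linarith), T_mid hst.2 (by linarith) (by linarith),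
    T_mid hx (by linarith) (by linarith), T_low hy hwy, ws, wt, dO]
  linear_combination (R.w x - 1/2) * hdo

/-- case (iii) -/
lemma Base.case3 {x y s t : K} (hx : G R (1/2) x) (hy : y ≠ 0)
    (hwy : R.w y ≤ 0) (hσ : (x - y) ^ 2 * (s + t) = N1 l x y)
    (hπ : (x - y) ^ 2 * (s * t) = N2 l x y) :
    T R s + T R t = 2 * T R x + 2 * T R y + R.o (x - y) := by
  have hS : S R (R.w y) x := hx.toS (by linarith)
  obtain ⟨d0, dw, dO⟩ := sub_vals hy hS
  have gx : G R (R.w y) x := hS.toG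
  have htail := B.tail gx (G_self y) hwy
  have gN2 : G R (1 + 2 * R.w y) (N2 l x y) := by
    unfold N2
    have e1 : G R (1 + 2 * R.w y) (x ^ 2 * y ^ 2) :=
      ((hx.pow 2).mul ((G_self (R := R) y).pow 2)).mono (by push_cast; linarith)
    exact e1.sub (htail.mono (by linarith))
  have gN1 : G R (1/2 + 2 * R.w y) (N1 l x y) :=
    B.N1_G hx (G_self y) (gx.add (G_self y)) (by linarith) (by linarith) (by linarith)
  have hsum := div_G (R := R) (pow_ne_zero 2 d0) gN1 hσ
  have hprod := div_G (R := R) (pow_ne_zero 2 d0) gN2 hπ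
  rw [w_pow d0, dw] at hsum hprod
  obtain ⟨gs, gt⟩ := root_high (R := R) (s := s) (t := t)
    (hprod.mono (by push_cast; linarith)) (hsum.mono (by push_cast; linarith))
  rw [T_high gs, T_high gt, T_high hx, T_low hy hwy, dO]
  ring

/-- case (iv) -/
lemma Base.case4 {x y s t : K} (hx : x ≠ 0) (hy : y ≠ 0) (hwy : 0 < R.w y)
    (hlt : R.w y < R.w x) (hwx' : R.w x < 1/2)
    (hσ : (x - y) ^ 2 * (s + t) = N1 l x y)
    (hπ : (x - y) ^ 2 * (s * t) = N2 l x y) :
    T R s + T R t = 2 * T R x + 2 * T R y + R.o (x - y) := by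
  have hS : S R (R.w y) x := Or.inr hlt
  obtain ⟨d0, dw, dO⟩ := sub_vals hy hS
  have gx : G R (R.w y) x := hS.toG
  obtain ⟨q0, qw, qo⟩ := sq_vals (R := R) hx hy
  obtain ⟨f0, fw, fo⟩ := B.fourxy hx hy
  -- N1
  have hN1 := lead (R := R) (a := 4 * x * y) (b := 2 * x * y * (x + y) + 4 * l) f0 (by
    have e1 : S R (R.w (4 * x * y)) (2 * x * y * (x + y)) := by
      have := (((G_two (R := R)).mul (G_self x)).mul (G_self y)).mul (gx.add (G_self y))
      exact this.toS (by rw [fw]; linarith)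
    have e2 : S R (R.w (4 * x * y)) (4 * l) := Or.inr (by rw [fw, B.fourl.2.1]; linarith)
    exact e1.add e2)
  have eN1 : 4 * x * y + (2 * x * y * (x + y) + 4 * l) = N1 l x y := by unfold N1; ring
  rw [eN1, fw, fo] at hN1
  obtain ⟨m0, mw, mo⟩ := hN1
  have hsm := div_vals (R := R) (pow_ne_zero 2 d0) m0 hσ
  rw [mw, mo, w_pow d0, o_pow d0, dw, dO] at hsm
  obtain ⟨s0, sw, so⟩ := hsm
  push_cast at sw so
  -- the claim for the ordered pair
  have key : ∀ {s t : K}, (x - y) ^ 2 * (s * t) = N2 l x y →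
      s ≠ 0 → R.w s = R.w x - R.w y → R.o s = R.o x - R.o y →
      T R s + T R t = 2 * T R x + 2 * T R y + R.o (x - y) := by
    intro s t hπ hs hws hos
    rw [T_mid hs (by linarith) (by linarith), T_mid hx (by linarith) (by linarith),
      T_mid hy (by linarith) (by linarith), hws, hos, dO]
    have hcomb : (x - y) ^ 2 * s ≠ 0 := mul_ne_zero (pow_ne_zero 2 d0) hs
    have hcw : R.w ((x - y) ^ 2 * s) = R.w x + R.w y := by
      rw [R.wmul (pow_ne_zero 2 d0) hs, w_pow d0, dw, hws]; push_cast; ring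
    have hco : R.o ((x - y) ^ 2 * s) = R.o x + R.o y := by
      rw [R.omul (pow_ne_zero 2 d0) hs, o_pow d0, dO, hos]; push_cast; ring
    have hπ' : ((x - y) ^ 2 * s) * t = N2 l x y := by rw [← hπ]; ring
    have gtail : G R 1 (4 * l * (x + y + 1)) :=
      (B.tail (r := 0) (Or.inr (by linarith)) (Or.inr (by linarith)) le_rfl).mono (by norm_num)
    rcases lt_trichotomy (R.w x + R.w y) (1/2) with h | h | h
    · -- N2 ~ x^2 y^2
      have hN2 := lead (R := R) (a := x ^ 2 * y ^ 2) (b := -(4 * l * (x + y + 1))) q0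
        (gtail.neg.toS (by rw [qw]; linarith))
      have eN2 : x ^ 2 * y ^ 2 + -(4 * l * (x + y + 1)) = N2 l x y := by unfold N2; ring
      rw [eN2, qw, qo] at hN2
      obtain ⟨n0, nw, no⟩ := hN2
      obtain ⟨t0, tw, tO⟩ := div_vals (R := R) hcomb n0 hπ'
      rw [nw, hcw] at tw
      rw [no, hco] at tO
      rw [T_mid t0 (by linarith) (by linarith), tw, tO]
      ring
    · -- w N2 ≥ 1
      have gN2 : G R 1 (N2 l x y) := by
        unfold N2
        have e1 : G R 1 (x ^ 2 * y ^ 2) := Or.inr (by rw [qw]; linarith)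
        exact e1.sub gtail
      have gt := div_G (R := R) hcomb gN2 hπ'
      rw [hcw] at gt
      rw [T_high (gt.mono (by linarith))]
      have hx' : R.w x = 1/2 - R.w y := by linarith
      rw [hx']
      ring
    · -- N2 ~ -4l
      have hN2 := lead (R := R) (a := -(4 * l)) (b := x ^ 2 * y ^ 2 + -(4 * l * (x + y)))
        (neg_ne_zero.mpr B.fourl.1) (by
          rw [w_neg, B.fourl.2.1]
          have e1 : S R 1 (x ^ 2 * y ^ 2) := Or.inr (by rw [qw]; linarith)
          have e2 : G R (1 + R.w y) (4 * l * (x + y)) :=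
            (G.mul (r := 1) (Or.inr (by rw [B.fourl.2.1])) (gx.add (G_self y)))
          exact e1.add (e2.toS (by linarith)).neg)
      have eN2 : -(4 * l) + (x ^ 2 * y ^ 2 + -(4 * l * (x + y))) = N2 l x y := by
        unfold N2; ring
      rw [eN2, w_neg, o_neg, B.fourl.2.1, B.fourl.2.2] at hN2
      obtain ⟨n0, nw, no⟩ := hN2
      obtain ⟨t0, tw, tO⟩ := div_vals (R := R) hcomb n0 hπ'
      rw [nw, hcw] at tw
      rw [no, hco] at tO
      rw [T_mid t0 (by linarith) (by linarith), tw, tO]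
      ring
  have gN2 : S R (2 * R.w x) (N2 l x y) := by
    unfold N2
    have e1 : S R (2 * R.w x) (x ^ 2 * y ^ 2) := Or.inr (by rw [qw]; linarith)
    have gtail : G R 1 (4 * l * (x + y + 1)) :=
      (B.tail (r := 0) (Or.inr (by linarith)) (Or.inr (by linarith)) le_rfl).mono (by norm_num)
    rw [sub_eq_add_neg]
    exact e1.add (gtail.neg.toS (by linarith))
  have hprod : S R (2 * R.w (s + t)) (s * t) := by
    rcases eq_or_ne (s * t) 0 with h | h
    · exact Or.inl h
    right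
    have h1 := gN2.resolve_left (by rw [← hπ]; exact mul_ne_zero (pow_ne_zero 2 d0) h)
    rw [← hπ, R.wmul (pow_ne_zero 2 d0) h, w_pow d0, dw] at h1
    push_cast at h1
    rw [sw]
    linarith
  rcases root_split (R := R) s0 hprod with ⟨a0, aw, ao, -⟩ | ⟨a0, aw, ao, -⟩
  · exact key hπ a0 (by rw [aw, sw]; ring) (by rw [ao, so]; ring)
  · rw [add_comm (T R s)]
    exact key (by rw [mul_comm t s]; exact hπ) a0 (by rw [aw, sw]; ring) (by rw [ao, so]; ring)

/-- case (v) -/
lemma Base.case5 {x y s t : K} (hx : G R (1/2) x) (hy : y ≠ 0) (hwy : 0 < R.w y)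
    (hwy' : R.w y < 1/2)
    (hσ : (x - y) ^ 2 * (s + t) = N1 l x y)
    (hπ : (x - y) ^ 2 * (s * t) = N2 l x y) :
    T R s + T R t = 2 * T R x + 2 * T R y + R.o (x - y) := by
  have hS : S R (R.w y) x := hx.toS (by linarith)
  obtain ⟨d0, dw, dO⟩ := sub_vals hy hS
  have gx : G R (R.w y) x := hS.toG
  have hN2 := lead (R := R) (a := -(4 * l)) (b := x ^ 2 * y ^ 2 + -(4 * l * (x + y)))
    (neg_ne_zero.mpr B.fourl.1) (by
      rw [w_neg, B.fourl.2.1]
      have e1 : S R 1 (x ^ 2 * y ^ 2) :=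
        ((hx.pow 2).mul ((G_self (R := R) y).pow 2)).toS (by push_cast; linarith)
      have e2 : G R (1 + R.w y) (4 * l * (x + y)) :=
        (G.mul (r := 1) (Or.inr (by rw [B.fourl.2.1])) (gx.add (G_self y)))
      exact e1.add (e2.toS (by linarith)).neg)
  have eN2 : -(4 * l) + (x ^ 2 * y ^ 2 + -(4 * l * (x + y))) = N2 l x y := by
    unfold N2; ring
  rw [eN2, w_neg, o_neg, B.fourl.2.1, B.fourl.2.2] at hN2
  obtain ⟨n0, nw, no⟩ := hN2
  have gN1 : G R (1/2 + R.w y) (N1 l x y) :=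
    B.N1_G hx (G_self y) (gx.add (G_self y)) (by linarith) (by linarith) (by linarith)
  have hd := div_vals (R := R) (pow_ne_zero 2 d0) n0 hπ
  have hst := mul_ne_zero_iff.mp hd.1
  have hsum := div_G (R := R) (pow_ne_zero 2 d0) gN1 hσ
  rw [w_pow d0, dw] at hsum
  have hsum' : G R (1/2 - R.w y) (s + t) := hsum.mono (by push_cast; linarith)
  rw [R.wmul hst.1 hst.2, R.omul hst.1 hst.2, nw, no, w_pow d0, o_pow d0, dw, dO] at hd
  obtain ⟨-, hdw, hdo⟩ := hd
  push_cast at hdw hdo
  obtain ⟨ws, wt⟩ := root_eq (R := R) hst.1 hst.2 (by linarith) hsum'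
  rw [T_mid hst.1 (by linarith) (by linarith), T_mid hst.2 (by linarith) (by linarith),
    T_high hx, T_mid hy (by linarith) (by linarith), ws, wt, dO]
  linear_combination (-(R.w y)) * hdo

/-- case (vi) -/
lemma Base.case6 {x y s t : K} (hx : x ≠ 0) (hy : y ≠ 0) (hxy : x - y ≠ 0)
    (hwy : 0 < R.w y) (hwy' : R.w y < 1/2) (heq : R.w x = R.w y)
    (hσ : (x - y) ^ 2 * (s + t) = N1 l x y)
    (hπ : (x - y) ^ 2 * (s * t) = N2 l x y) :
    T R s + T R t = 2 * T R x + 2 * T R y + R.o (x - y) := by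
  have gx : G R (R.w y) x := Or.inr (by rw [heq])
  have hdw : R.w y ≤ R.w (x - y) := (gx.sub (G_self y)).resolve_left hxy
  obtain ⟨q0, qw, qo⟩ := sq_vals (R := R) hx hy
  obtain ⟨f0, fw, fo⟩ := B.fourxy hx hy
  have hN1 := lead (R := R) (a := 4 * x * y) (b := 2 * x * y * (x + y) + 4 * l) f0 (by
    have e1 : S R (R.w (4 * x * y)) (2 * x * y * (x + y)) := by
      have := (((G_two (R := R)).mul (G_self x)).mul (G_self y)).mul (gx.add (G_self y))
      exact this.toS (by rw [fw]; linarith)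
    have e2 : S R (R.w (4 * x * y)) (4 * l) := Or.inr (by rw [fw, B.fourl.2.1]; linarith)
    exact e1.add e2)
  have eN1 : 4 * x * y + (2 * x * y * (x + y) + 4 * l) = N1 l x y := by unfold N1; ring
  rw [eN1, fw, fo] at hN1
  obtain ⟨m0, mw, mo⟩ := hN1
  have hsm := div_vals (R := R) (pow_ne_zero 2 hxy) m0 hσ
  rw [mw, mo, w_pow hxy, o_pow hxy] at hsm
  obtain ⟨s0, sw, so⟩ := hsm
  push_cast at sw so
  have gtail : G R 1 (4 * l * (x + y + 1)) :=
    (B.tail (r := 0) (Or.inr (by linarith)) (Or.inr (by linarith)) le_rfl).mono (by norm_num)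
  have key : ∀ {s t : K}, (x - y) ^ 2 * (s * t) = N2 l x y →
      s ≠ 0 → R.w s = R.w x + R.w y - 2 * R.w (x - y) →
      R.o s = R.o x + R.o y - 2 * R.o (x - y) →
      T R s + T R t = 2 * T R x + 2 * T R y + R.o (x - y) := by
    intro s t hπ hs hws hos
    rw [T_low hs (by rw [hws, heq]; linarith), T_mid hx (by linarith) (by linarith),
      T_mid hy (by linarith) (by linarith), hos, heq]
    have hcomb : (x - y) ^ 2 * s ≠ 0 := mul_ne_zero (pow_ne_zero 2 hxy) hs
    have hcw : R.w ((x - y) ^ 2 * s) = 2 * R.w y := by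
      rw [R.wmul (pow_ne_zero 2 hxy) hs, w_pow hxy, hws, heq]; push_cast; ring
    have hco : R.o ((x - y) ^ 2 * s) = R.o x + R.o y := by
      rw [R.omul (pow_ne_zero 2 hxy) hs, o_pow hxy, hos]; push_cast; ring
    have hπ' : ((x - y) ^ 2 * s) * t = N2 l x y := by rw [← hπ]; ring
    rcases lt_trichotomy (R.w y) (1/4) with h | h | h
    · have hN2 := lead (R := R) (a := x ^ 2 * y ^ 2) (b := -(4 * l * (x + y + 1))) q0
        (gtail.neg.toS (by rw [qw, heq]; linarith))
      have eN2 : x ^ 2 * y ^ 2 + -(4 * l * (x + y + 1)) = N2 l x y := by unfold N2; ring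
      rw [eN2, qw, qo, heq] at hN2
      obtain ⟨n0, nw, no⟩ := hN2
      obtain ⟨t0, tw, tO⟩ := div_vals (R := R) hcomb n0 hπ'
      rw [nw, hcw] at tw
      rw [no, hco] at tO
      rw [T_mid t0 (by linarith) (by linarith), tw, tO]
      ring
    · have gN2 : G R 1 (N2 l x y) := by
        unfold N2
        have e1 : G R 1 (x ^ 2 * y ^ 2) := Or.inr (by rw [qw, heq]; linarith)
        exact e1.sub gtail
      have gt := div_G (R := R) hcomb gN2 hπ'
      rw [hcw] at gt
      rw [T_high (gt.mono (by linarith)), h]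
      ring
    · have hN2 := lead (R := R) (a := -(4 * l)) (b := x ^ 2 * y ^ 2 + -(4 * l * (x + y)))
        (neg_ne_zero.mpr B.fourl.1) (by
          rw [w_neg, B.fourl.2.1]
          have e1 : S R 1 (x ^ 2 * y ^ 2) := Or.inr (by rw [qw, heq]; linarith)
          have e2 : G R (1 + R.w y) (4 * l * (x + y)) :=
            (G.mul (r := 1) (Or.inr (by rw [B.fourl.2.1])) (gx.add (G_self y)))
          exact e1.add (e2.toS (by linarith)).neg)
      have eN2 : -(4 * l) + (x ^ 2 * y ^ 2 + -(4 * l * (x + y))) = N2 l x y := by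
        unfold N2; ring
      rw [eN2, w_neg, o_neg, B.fourl.2.1, B.fourl.2.2] at hN2
      obtain ⟨n0, nw, no⟩ := hN2
      obtain ⟨t0, tw, tO⟩ := div_vals (R := R) hcomb n0 hπ'
      rw [nw, hcw] at tw
      rw [no, hco] at tO
      rw [T_mid t0 (by linarith) (by linarith), tw, tO]
      ring
  have hprod : S R (2 * R.w (s + t)) (s * t) := by
    rcases eq_or_ne (s * t) 0 with h | h
    · exact Or.inl h
    right
    have gN2 : S R (2 * R.w y) (N2 l x y) := by
      unfold N2
      have e1 : S R (2 * R.w y) (x ^ 2 * y ^ 2) := Or.inr (by rw [qw]; linarith)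
      rw [sub_eq_add_neg]
      exact e1.add (gtail.neg.toS (by linarith))
    have h1 := gN2.resolve_left (by rw [← hπ]; exact mul_ne_zero (pow_ne_zero 2 hxy) h)
    rw [← hπ, R.wmul (pow_ne_zero 2 hxy) h, w_pow hxy] at h1
    push_cast at h1
    rw [sw]
    linarith
  rcases root_split (R := R) s0 hprod with ⟨a0, aw, ao, -⟩ | ⟨a0, aw, ao, -⟩
  · exact key hπ a0 (by rw [aw, sw]) (by rw [ao, so])
  · rw [add_comm (T R s)]
    exact key (by rw [mul_comm t s]; exact hπ) a0 (by rw [aw, sw]) (by rw [ao, so])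

/-- case (vii) -/
lemma Base.case7 {x y s t : K} (hx : G R (1/2) x) (hy : G R (1/2) y) (hxy : x - y ≠ 0)
    (hσ : (x - y) ^ 2 * (s + t) = N1 l x y)
    (hπ : (x - y) ^ 2 * (s * t) = N2 l x y) :
    T R s + T R t = 2 * T R x + 2 * T R y + R.o (x - y) := by
  have hN2 := lead (R := R) (a := -(4 * l)) (b := x ^ 2 * y ^ 2 + -(4 * l * (x + y)))
    (neg_ne_zero.mpr B.fourl.1) (by
      rw [w_neg, B.fourl.2.1]
      have e1 : S R 1 (x ^ 2 * y ^ 2) :=
        ((hx.pow 2).mul (hy.pow 2)).toS (by push_cast; norm_num)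
      have e2 : G R (1 + 1/2) (4 * l * (x + y)) :=
        (G.mul (r := 1) (Or.inr (by rw [B.fourl.2.1])) (hx.add hy))
      exact e1.add (e2.toS (by norm_num)).neg)
  have eN2 : -(4 * l) + (x ^ 2 * y ^ 2 + -(4 * l * (x + y))) = N2 l x y := by
    unfold N2; ring
  rw [eN2, w_neg, o_neg, B.fourl.2.1, B.fourl.2.2] at hN2
  obtain ⟨n0, nw, no⟩ := hN2
  have gN1 : G R (R.w (N2 l x y)) (N1 l x y) := by
    rw [nw]
    exact B.N1_G hx hy (hx.add hy) (by norm_num) (by norm_num) (by norm_num)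
  have gD : G R (R.w (N2 l x y)) ((x - y) ^ 2) := by
    rw [nw]
    exact ((hx.sub hy).pow 2).mono (by push_cast; norm_num)
  have rs := root_low (R := R) n0 gN1 gD (s := s) (by rw [← hσ, ← hπ]; ring)
  have rt := root_low (R := R) n0 gN1 gD (s := t) (by rw [← hσ, ← hπ]; ring)
  have hd := div_vals (R := R) (pow_ne_zero 2 hxy) n0 hπ
  rw [R.omul rs.1 rt.1, no, o_pow hxy] at hd
  rw [T_low rs.1 rs.2, T_low rt.1 rt.2, T_high hx, T_high hy]
  have := hd.2.2
  push_cast at this
  linarith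

/-- half of the quasi parallelogram law -/
lemma Base.half {x y s t : K} (hxy : x - y ≠ 0) (hy : y ≠ 0) (hle : G R (R.w y) x)
    (hσ : (x - y) ^ 2 * (s + t) = N1 l x y)
    (hπ : (x - y) ^ 2 * (s * t) = N2 l x y) :
    T R s + T R t = 2 * T R x + 2 * T R y + R.o (x - y) := by
  by_cases hxh : G R (1/2) x
  · rcases le_or_gt (R.w y) 0 with h | h
    · exact B.case3 hxh hy h hσ hπ
    rcases lt_or_ge (R.w y) (1/2) with h' | h'
    · exact B.case5 hxh hy h h' hσ hπ
    · exact B.case7 hxh (Or.inr h') hxy hσ hπ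
  · have hx : x ≠ 0 := fun h => hxh (Or.inl h)
    have hlt : R.w x < 1/2 := by
      by_contra hc
      push Not at hc
      exact hxh (Or.inr hc)
    have hle' := hle.resolve_left hx
    rcases le_or_gt (R.w y) 0 with h | h
    · rcases le_or_gt (R.w x) 0 with h' | h'
      · exact B.case1 hx hy hxy h' h hσ hπ
      · exact B.case2 hx hy h' hlt h hσ hπ
    · rcases hle'.lt_or_eq with h' | h'
      · exact B.case4 hx hy h h' hlt hσ hπ
      · exact B.case6 hx hy hxy h (by rw [h']; exact hlt) h'.symm hσ hπ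

/-- **(TI)** quasi parallelogram law of the rank two local height. -/
theorem Base.parallelogram {x y s t : K} (hxy : x ≠ y)
    (hσ : (x - y) ^ 2 * (s + t) = 2 * x * y * (x + y) + 4 * x * y + 4 * l)
    (hπ : (x - y) ^ 2 * (s * t) = x ^ 2 * y ^ 2 - 4 * l * (x + y + 1)) :
    T R s + T R t = 2 * T R x + 2 * T R y + R.o (x - y) := by
  have hd : x - y ≠ 0 := sub_ne_zero.mpr hxy
  have hd' : y - x ≠ 0 := sub_ne_zero.mpr hxy.symm
  have hsw : R.o (y - x) = R.o (x - y) := by rw [← o_neg, neg_sub]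
  have hσ' : (y - x) ^ 2 * (s + t) = N1 l y x := by
    unfold N1; linear_combination hσ
  have hπ' : (y - x) ^ 2 * (s * t) = N2 l y x := by
    unfold N2; linear_combination hπ
  by_cases hy : y = 0
  · -- then x ≠ 0 and `y = 0` has infinite value
    have hx : x ≠ 0 := by rintro rfl; exact hxy hy.symm
    have := B.half hd' hx (Or.inl hy) hσ' hπ'
    rw [hsw] at this
    linarith
  by_cases hx : x = 0
  · exact B.half hd hy (Or.inl hx) hσ hπ
  rcases le_total (R.w y) (R.w x) with h | h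
  · exact B.half hd hy (Or.inr h) hσ hπ
  · have := B.half hd' hx (Or.inr h) hσ' hπ'
    rw [hsw] at this
    linarith

/-- values of `f1 x = x^3 + x^2 + l` and the doubling formula -/
theorem Base.doubling {x s : K} (hf : x ^ 3 + x ^ 2 + l ≠ 0)
    (hs : 4 * (x ^ 3 + x ^ 2 + l) * s = x ^ 4 - 8 * l * x - 4 * l) :
    T R s = 4 * T R x + 1/2 * R.o (x ^ 3 + x ^ 2 + l) := by
  obtain ⟨f0, fw, fo⟩ := B.four
  have hD : 4 * (x ^ 3 + x ^ 2 + l) ≠ 0 := mul_ne_zero f0 hf
  have hDw : R.w (4 * (x ^ 3 + x ^ 2 + l)) = R.w (x ^ 3 + x ^ 2 + l) := by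
    rw [R.wmul f0 hf, fw, zero_add]
  have hDo : R.o (4 * (x ^ 3 + x ^ 2 + l)) = R.o (x ^ 3 + x ^ 2 + l) := by
    rw [R.omul f0 hf, fo, zero_add]
  have gl : G R 1 l := Or.inr (by rw [B.wl])
  have g4l : G R 1 (4 * l) := Or.inr (by rw [B.fourl.2.1])
  by_cases hxh : G R (1/2) x
  · -- numerator ~ -4l
    have hn := lead (R := R) (a := -(4 * l)) (b := x ^ 4 + -(8 * l * x))
      (neg_ne_zero.mpr B.fourl.1) (by
        rw [w_neg, B.fourl.2.1]
        have e1 : S R 1 (x ^ 4) := (hxh.pow 4).toS (by push_cast; norm_num)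
        have e2 : G R (0 + 1 + 1/2) (8 * l * x) := (G_eight.mul gl).mul hxh
        exact e1.add (e2.toS (by norm_num)).neg)
    have en : -(4 * l) + (x ^ 4 + -(8 * l * x)) = x ^ 4 - 8 * l * x - 4 * l := by ring
    rw [en, w_neg, o_neg, B.fourl.2.1, B.fourl.2.2] at hn
    obtain ⟨n0, nw, no⟩ := hn
    obtain ⟨s0, sw, so⟩ := div_vals (R := R) hD n0 hs
    have gf : G R 1 (x ^ 3 + x ^ 2 + l) :=
      (((hxh.pow 3).mono (by push_cast; norm_num)).add
        ((hxh.pow 2).mono (by push_cast; norm_num))).add gl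
    have gf' := gf.resolve_left hf
    rw [T_low s0 (by rw [sw, nw, hDw]; linarith), so, no, hDo, T_high hxh]
    ring
  have hx : x ≠ 0 := fun h => hxh (Or.inl h)
  have hlt : R.w x < 1/2 := by
    by_contra hc
    push Not at hc
    exact hxh (Or.inr hc)
  have p2 := w_pow (R := R) hx 2
  have p3 := w_pow (R := R) hx 3
  have p4 := w_pow (R := R) hx 4
  have r2 := o_pow (R := R) hx 2
  have r3 := o_pow (R := R) hx 3
  have r4 := o_pow (R := R) hx 4
  push_cast at p2 p3 p4 r2 r3 r4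
  have g8 : G R (1 + R.w x) (8 * l * x) := ((G_eight.mul gl).mul (G_self x)).mono (by linarith)
  -- numerator ~ x^4 as soon as w x < 1/4
  have numx : R.w x < 1/4 → (x ^ 4 - 8 * l * x - 4 * l ≠ 0 ∧
      R.w (x ^ 4 - 8 * l * x - 4 * l) = 4 * R.w x ∧
      R.o (x ^ 4 - 8 * l * x - 4 * l) = 4 * R.o x) := by
    intro h
    have hn := lead (R := R) (a := x ^ 4) (b := -(8 * l * x) + -(4 * l)) (pow_ne_zero 4 hx) (by
      rw [p4]
      exact (g8.toS (by linarith)).neg.add (g4l.toS (by linarith)).neg)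
    have en : x ^ 4 + (-(8 * l * x) + -(4 * l)) = x ^ 4 - 8 * l * x - 4 * l := by ring
    rwa [en, p4, r4] at hn
  rcases lt_trichotomy (R.w x) 0 with h | h | h
  · obtain ⟨n0, nw, no⟩ := numx (by linarith)
    obtain ⟨s0, sw, so⟩ := div_vals (R := R) hD n0 hs
    have hfv := lead (R := R) (a := x ^ 3) (b := x ^ 2 + l) (pow_ne_zero 3 hx) (by
      rw [p3]
      exact S.add (Or.inr (by rw [p2]; linarith)) (gl.toS (by linarith)))
    have ef : x ^ 3 + (x ^ 2 + l) = x ^ 3 + x ^ 2 + l := by ring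
    rw [ef, p3, r3] at hfv
    rw [T_low s0 (by rw [sw, nw, hDw, hfv.2.1]; linarith), so, no, hDo, hfv.2.2,
      T_low hx h.le]
    ring
  · obtain ⟨n0, nw, no⟩ := numx (by linarith)
    obtain ⟨s0, sw, so⟩ := div_vals (R := R) hD n0 hs
    have gf : G R 0 (x ^ 3 + x ^ 2 + l) :=
      (G.add (Or.inr (by rw [p3]; linarith)) (Or.inr (by rw [p2]; linarith))).add
        (gl.mono (by norm_num))
    have gf' := gf.resolve_left hf
    rw [T_low s0 (by rw [sw, nw, hDw]; linarith), so, no, hDo, T_low hx h.le]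
    ring
  · -- 0 < w x < 1/2: f ~ x^2
    have hfv := lead (R := R) (a := x ^ 2) (b := x ^ 3 + l) (pow_ne_zero 2 hx) (by
      rw [p2]
      exact S.add (Or.inr (by rw [p3]; linarith)) (gl.toS (by linarith)))
    have ef : x ^ 2 + (x ^ 3 + l) = x ^ 3 + x ^ 2 + l := by ring
    rw [ef, p2, r2] at hfv
    obtain ⟨-, hfw, hfo⟩ := hfv
    rcases lt_trichotomy (R.w x) (1/4) with h4 | h4 | h4
    · obtain ⟨n0, nw, no⟩ := numx h4
      obtain ⟨s0, sw, so⟩ := div_vals (R := R) hD n0 hs
      rw [nw, hDw, hfw] at sw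
      rw [T_mid s0 (by linarith) (by linarith), T_mid hx h.le hlt.le, sw, so, no, hDo, hfo]
      ring
    · have gn : G R 1 (x ^ 4 - 8 * l * x - 4 * l) :=
        (G.sub (Or.inr (by rw [p4]; linarith)) (g8.mono (by linarith))).sub g4l
      have gs := div_G (R := R) hD gn hs
      rw [hDw, hfw] at gs
      rw [T_high (gs.mono (by linarith)), T_mid hx h.le hlt.le, hfo, h4]
      ring
    · have hn := lead (R := R) (a := -(4 * l)) (b := x ^ 4 + -(8 * l * x))
        (neg_ne_zero.mpr B.fourl.1) (by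
          rw [w_neg, B.fourl.2.1]
          have e1 : S R 1 (x ^ 4) := Or.inr (by rw [p4]; linarith)
          exact e1.add (g8.toS (by linarith)).neg)
      have en : -(4 * l) + (x ^ 4 + -(8 * l * x)) = x ^ 4 - 8 * l * x - 4 * l := by ring
      rw [en, w_neg, o_neg, B.fourl.2.1, B.fourl.2.2] at hn
      obtain ⟨n0, nw, no⟩ := hn
      obtain ⟨s0, sw, so⟩ := div_vals (R := R) hD n0 hs
      rw [nw, hDw, hfw] at sw
      rw [T_mid s0 (by linarith) (by linarith), T_mid hx h.le hlt.le, sw, so, no, hDo, hfo]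
      ring

/-- `phi(2P) ≤ 2 phi(P)` -/
theorem Base.phi_double {x s : K} (hf : x ^ 3 + x ^ 2 + l ≠ 0)
    (hs : 4 * (x ^ 3 + x ^ 2 + l) * s = x ^ 4 - 8 * l * x - 4 * l) :
    phi R s ≤ 2 * phi R x := by
  obtain ⟨f0, fw, fo⟩ := B.four
  have hD : 4 * (x ^ 3 + x ^ 2 + l) ≠ 0 := mul_ne_zero f0 hf
  have hDw : R.w (4 * (x ^ 3 + x ^ 2 + l)) = R.w (x ^ 3 + x ^ 2 + l) := by
    rw [R.wmul f0 hf, fw, zero_add]
  have hDo : R.o (4 * (x ^ 3 + x ^ 2 + l)) = R.o (x ^ 3 + x ^ 2 + l) := by
    rw [R.omul f0 hf, fo, zero_add]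
  have gl : G R 1 l := Or.inr (by rw [B.wl])
  have g4l : G R 1 (4 * l) := Or.inr (by rw [B.fourl.2.1])
  have hphi0 : 0 ≤ phi R x := by
    unfold phi
    split_ifs
    · exact abs_nonneg _
    · exact le_rfl
  have low : s ≠ 0 → R.w s ≤ 0 → phi R s ≤ 2 * phi R x := by
    intro _ h
    have : phi R s = 0 := by
      unfold phi
      rw [if_neg]
      rintro ⟨-, h1, -⟩
      linarith
    rw [this]
    linarith
  have high : G R (1/2) s → phi R s ≤ 2 * phi R x := by
    intro h
    have : phi R s = 0 := by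
      unfold phi
      rw [if_neg]
      rintro ⟨h0, -, h2⟩
      have := h.resolve_left h0
      linarith
    rw [this]
    linarith
  by_cases hxh : G R (1/2) x
  · have hn := lead (R := R) (a := -(4 * l)) (b := x ^ 4 + -(8 * l * x))
      (neg_ne_zero.mpr B.fourl.1) (by
        rw [w_neg, B.fourl.2.1]
        have e1 : S R 1 (x ^ 4) := (hxh.pow 4).toS (by push_cast; norm_num)
        have e2 : G R (0 + 1 + 1/2) (8 * l * x) := (G_eight.mul gl).mul hxh
        exact e1.add (e2.toS (by norm_num)).neg)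
    have en : -(4 * l) + (x ^ 4 + -(8 * l * x)) = x ^ 4 - 8 * l * x - 4 * l := by ring
    rw [en, w_neg, o_neg, B.fourl.2.1, B.fourl.2.2] at hn
    obtain ⟨n0, nw, no⟩ := hn
    obtain ⟨s0, sw, so⟩ := div_vals (R := R) hD n0 hs
    have gf : G R 1 (x ^ 3 + x ^ 2 + l) :=
      (((hxh.pow 3).mono (by push_cast; norm_num)).add
        ((hxh.pow 2).mono (by push_cast; norm_num))).add gl
    have gf' := gf.resolve_left hf
    exact low s0 (by rw [sw, nw, hDw]; linarith)
  have hx : x ≠ 0 := fun h => hxh (Or.inl h)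
  have hlt : R.w x < 1/2 := by
    by_contra hc
    push Not at hc
    exact hxh (Or.inr hc)
  have p2 := w_pow (R := R) hx 2
  have p3 := w_pow (R := R) hx 3
  have p4 := w_pow (R := R) hx 4
  have r2 := o_pow (R := R) hx 2
  have r4 := o_pow (R := R) hx 4
  push_cast at p2 p3 p4 r2 r4
  have g8 : G R (1 + R.w x) (8 * l * x) := ((G_eight.mul gl).mul (G_self x)).mono (by linarith)
  have numx : R.w x < 1/4 → (x ^ 4 - 8 * l * x - 4 * l ≠ 0 ∧
      R.w (x ^ 4 - 8 * l * x - 4 * l) = 4 * R.w x ∧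
      R.o (x ^ 4 - 8 * l * x - 4 * l) = 4 * R.o x) := by
    intro h
    have hn := lead (R := R) (a := x ^ 4) (b := -(8 * l * x) + -(4 * l)) (pow_ne_zero 4 hx) (by
      rw [p4]
      exact (g8.toS (by linarith)).neg.add (g4l.toS (by linarith)).neg)
    have en : x ^ 4 + (-(8 * l * x) + -(4 * l)) = x ^ 4 - 8 * l * x - 4 * l := by ring
    rwa [en, p4, r4] at hn
  rcases lt_trichotomy (R.w x) 0 with h | h | h
  · obtain ⟨n0, nw, no⟩ := numx (by linarith)
    obtain ⟨s0, sw, so⟩ := div_vals (R := R) hD n0 hs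
    have hfv := lead (R := R) (a := x ^ 3) (b := x ^ 2 + l) (pow_ne_zero 3 hx) (by
      rw [p3]
      exact S.add (Or.inr (by rw [p2]; linarith)) (gl.toS (by linarith)))
    have ef : x ^ 3 + (x ^ 2 + l) = x ^ 3 + x ^ 2 + l := by ring
    rw [ef, p3] at hfv
    exact low s0 (by rw [sw, nw, hDw, hfv.2.1]; linarith)
  · obtain ⟨n0, nw, no⟩ := numx (by linarith)
    obtain ⟨s0, sw, so⟩ := div_vals (R := R) hD n0 hs
    have gf : G R 0 (x ^ 3 + x ^ 2 + l) :=
      (G.add (Or.inr (by rw [p3]; linarith)) (Or.inr (by rw [p2]; linarith))).add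
        (gl.mono (by norm_num))
    have gf' := gf.resolve_left hf
    exact low s0 (by rw [sw, nw, hDw]; linarith)
  · have hfv := lead (R := R) (a := x ^ 2) (b := x ^ 3 + l) (pow_ne_zero 2 hx) (by
      rw [p2]
      exact S.add (Or.inr (by rw [p3]; linarith)) (gl.toS (by linarith)))
    have ef : x ^ 2 + (x ^ 3 + l) = x ^ 3 + x ^ 2 + l := by ring
    rw [ef, p2, r2] at hfv
    obtain ⟨-, hfw, hfo⟩ := hfv
    have hphix : phi R x = |R.o x| := by
      unfold phi
      rw [if_pos ⟨hx, h, hlt⟩]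
    have fin : |R.o s| = 2 * |R.o x| → phi R s ≤ 2 * phi R x := by
      intro he
      rw [hphix]
      unfold phi
      split_ifs
      · exact he.le
      · positivity
    rcases lt_trichotomy (R.w x) (1/4) with h4 | h4 | h4
    · obtain ⟨n0, nw, no⟩ := numx h4
      obtain ⟨s0, sw, so⟩ := div_vals (R := R) hD n0 hs
      apply fin
      rw [so, no, hDo, hfo, show (4 * R.o x - 2 * R.o x : ℚ) = 2 * R.o x by ring, abs_mul]
      norm_num
    · have gn : G R 1 (x ^ 4 - 8 * l * x - 4 * l) :=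
        (G.sub (Or.inr (by rw [p4]; linarith)) (g8.mono (by linarith))).sub g4l
      have gs := div_G (R := R) hD gn hs
      rw [hDw, hfw] at gs
      exact high (gs.mono (by linarith))
    · have hn := lead (R := R) (a := -(4 * l)) (b := x ^ 4 + -(8 * l * x))
        (neg_ne_zero.mpr B.fourl.1) (by
          rw [w_neg, B.fourl.2.1]
          have e1 : S R 1 (x ^ 4) := Or.inr (by rw [p4]; linarith)
          exact e1.add (g8.toS (by linarith)).neg)
      have en : -(4 * l) + (x ^ 4 + -(8 * l * x)) = x ^ 4 - 8 * l * x - 4 * l := by ring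
      rw [en, w_neg, o_neg, B.fourl.2.1, B.fourl.2.2] at hn
      obtain ⟨n0, nw, no⟩ := hn
      obtain ⟨s0, sw, so⟩ := div_vals (R := R) hD n0 hs
      apply fin
      rw [so, no, hDo, hfo, show (0 - 2 * R.o x : ℚ) = -(2 * R.o x) by ring, abs_neg, abs_mul]
      norm_num

end main

section bounds

variable {R}

lemma phi_nonneg (x : K) : 0 ≤ phi R x := by
  unfold phi
  split_ifs
  · exact abs_nonneg _
  · exact le_rfl

/-- `T x ≤ 1/2 phi x` if `w x > 0` (or `x = 0`). -/
theorem T_le_phi {x : K} (h : S R 0 x) : T R x ≤ 1/2 * phi R x := by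
  by_cases hxh : G R (1/2) x
  · rw [T_high hxh]
    have := phi_nonneg (R := R) x
    linarith
  have hx : x ≠ 0 := fun h => hxh (Or.inl h)
  have hlt : R.w x < 1/2 := by
    by_contra hc
    push Not at hc
    exact hxh (Or.inr hc)
  have hpos : 0 < R.w x := h.resolve_left hx
  rw [T_mid hx hpos.le hlt.le]
  unfold phi
  rw [if_pos ⟨hx, hpos, hlt⟩]
  have h1 : -|R.o x| ≤ R.o x := neg_abs_le _
  have h2 : (0:ℚ) ≤ |R.o x| := abs_nonneg _
  nlinarith

/-- `|T x| ≤ 1/2 phi x` if `w x > 0` (or `x = 0`). -/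
theorem abs_T_le_phi {x : K} (h : S R 0 x) : |T R x| ≤ 1/2 * phi R x := by
  by_cases hxh : G R (1/2) x
  · rw [T_high hxh, abs_zero]
    have := phi_nonneg (R := R) x
    linarith
  have hx : x ≠ 0 := fun h => hxh (Or.inl h)
  have hlt : R.w x < 1/2 := by
    by_contra hc
    push Not at hc
    exact hxh (Or.inr hc)
  have hpos : 0 < R.w x := h.resolve_left hx
  rw [T_mid hx hpos.le hlt.le, abs_mul]
  unfold phi
  rw [if_pos ⟨hx, hpos, hlt⟩]
  have h1 : |R.w x - 1/2| ≤ 1/2 := by rw [abs_le]; constructor <;> linarith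
  exact mul_le_mul_of_nonneg_right h1 (abs_nonneg _)

end bounds

end Pool.Agent.VMTI
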