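import Pool.Agent.Lib_helper85.VM.Defs
import Pool.Agent.Lib_VM.TI_h5

/-!
# TI, TI2, PH on points of `E₁ : y² = x³ + x² + l`
-/

set_option autoImplicit false

namespace Pool.Agent.VM

open scoped Classical

namespace TIp

section pts

variable {R : Type*} [CommRing R] {a b : R} {F : Type*} [Field F] [Algebra R F]

/-- the equation -/
lemma pt_eq {x y : F} (h : ((SW a b).baseChange F).toAffine.Nonsingular x y) :
    y ^ 2 = x ^ 3 + algebraMap R F a * x ^ 2 + algebraMap R F b := by
  have h1 := h.1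
  rw [WeierstrassCurve.Affine.equation_iff] at h1
  simp only [WeierstrassCurve.baseChange, WeierstrassCurve.map, SW, map_zero] at h1
  linear_combination h1

lemma exists_some {P : Pt (SW a b) F} (hP : P ≠ 0) :
    ∃ x y h, P = (WeierstrassCurve.Affine.Point.some x y h : Pt (SW a b) F) := by
  rcases P with _ | ⟨x, y, h⟩
  · exact absurd rfl hP
  · exact ⟨x, y, h, rfl⟩

@[simp] lemma xc_some {x y : F} (h : ((SW a b).baseChange F).toAffine.Nonsingular x y) :
    xc (WeierstrassCurve.Affine.Point.some x y h : Pt (SW a b) F) = x := rfl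

@[simp] lemma yc_some {x y : F} (h : ((SW a b).baseChange F).toAffine.Nonsingular x y) :
    yc (WeierstrassCurve.Affine.Point.some x y h : Pt (SW a b) F) = y := rfl

lemma xc_zero : xc (0 : Pt (SW a b) F) = 0 := rfl

/-- the `x`-coordinate of `P + Q` -/
lemma xc_add {x y x' y' : F} (h : ((SW a b).baseChange F).toAffine.Nonsingular x y)
    (h' : ((SW a b).baseChange F).toAffine.Nonsingular x' y') (hx : x ≠ x') :
    xc ((WeierstrassCurve.Affine.Point.some x y h : Pt (SW a b) F) +
      (WeierstrassCurve.Affine.Point.some x' y' h' : Pt (SW a b) F)) =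
      ((y - y') / (x - x')) ^ 2 - algebraMap R F a - x - x' := by
  rw [WeierstrassCurve.Affine.Point.add_of_X_ne hx, xc_some, WeierstrassCurve.Affine.addX,
    WeierstrassCurve.Affine.slope_of_X_ne hx]
  simp only [WeierstrassCurve.baseChange, WeierstrassCurve.map, SW, map_zero]
  ring

/-- the `x`-coordinate of `P - Q` -/
lemma xc_sub {x y x' y' : F} (h : ((SW a b).baseChange F).toAffine.Nonsingular x y)
    (h' : ((SW a b).baseChange F).toAffine.Nonsingular x' y') (hx : x ≠ x') :
    xc ((WeierstrassCurve.Affine.Point.some x y h : Pt (SW a b) F) -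
      (WeierstrassCurve.Affine.Point.some x' y' h' : Pt (SW a b) F)) =
      ((y + y') / (x - x')) ^ 2 - algebraMap R F a - x - x' := by
  rw [sub_eq_add_neg, WeierstrassCurve.Affine.Point.neg_some, xc_add _ _ hx]
  have : ((SW a b).baseChange F).toAffine.negY x' y' = - y' := by
    simp only [WeierstrassCurve.Affine.negY, WeierstrassCurve.baseChange, WeierstrassCurve.map,
      SW, map_zero]
    ring
  rw [this, sub_neg_eq_add]

/-- sum and product of `X(P+Q)`, `X(P-Q)` -/
lemma xc_add_sub {P Q : Pt (SW a b) F} (hP : P ≠ 0) (hQ : Q ≠ 0) (h1 : P ≠ Q) (h3 : P ≠ -Q) :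
    xc P ≠ xc Q ∧
    (xc P - xc Q) ^ 2 * (xc (P + Q) + xc (P - Q)) =
      2 * xc P * xc Q * (xc P + xc Q) + 4 * algebraMap R F a * xc P * xc Q
        + 4 * algebraMap R F b ∧
    (xc P - xc Q) ^ 2 * (xc (P + Q) * xc (P - Q)) =
      xc P ^ 2 * xc Q ^ 2 - 4 * algebraMap R F b * (xc P + xc Q + algebraMap R F a) := by
  obtain ⟨x, y, h, rfl⟩ := exists_some hP
  obtain ⟨x', y', h', rfl⟩ := exists_some hQ
  have hx : x ≠ x' := by
    intro hxx
    rcases (WeierstrassCurve.Affine.Point.X_eq_iff (h₁ := h) (h₂ := h')).mp hxx with h4 | h4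
    · exact h1 h4
    · exact h3 h4
  have hd : x - x' ≠ 0 := sub_ne_zero.mpr hx
  have e := pt_eq h
  have e' := pt_eq h'
  refine ⟨hx, ?_, ?_⟩
  · rw [xc_add h h' hx, xc_sub h h' hx, xc_some, xc_some]
    field_simp
    linear_combination 2 * e + 2 * e'
  · rw [xc_add h h' hx, xc_sub h h' hx, xc_some, xc_some]
    set A := algebraMap R F a
    set B := algebraMap R F b
    have key : ((y - y') ^ 2 - (A + x + x') * (x - x') ^ 2) *
        ((y + y') ^ 2 - (A + x + x') * (x - x') ^ 2) =
        (x - x') ^ 2 * (x ^ 2 * x' ^ 2 - 4 * B * (x + x' + A)) := by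
      have e3 : ((y - y') ^ 2 - (A + x + x') * (x - x') ^ 2) *
        ((y + y') ^ 2 - (A + x + x') * (x - x') ^ 2) =
        (y ^ 2 - y' ^ 2) ^ 2 - 2 * (A + x + x') * (x - x') ^ 2 * (y ^ 2 + y' ^ 2) +
          (A + x + x') ^ 2 * (x - x') ^ 4 := by ring
      rw [e3, e, e']
      ring
    have e4 : ((y - y') / (x - x')) ^ 2 - A - x - x' =
        ((y - y') ^ 2 - (A + x + x') * (x - x') ^ 2) / (x - x') ^ 2 := by
      field_simp
      ring
    have e5 : ((y + y') / (x - x')) ^ 2 - A - x - x' =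
        ((y + y') ^ 2 - (A + x + x') * (x - x') ^ 2) / (x - x') ^ 2 := by
      field_simp
      ring
    rw [e4, e5, div_mul_div_comm, key]
    field_simp

/-- duplication -/
lemma xc_dbl {P : Pt (SW a b) F} (h2 : (2 : F) ≠ 0) (hP : P + P ≠ 0) :
    yc P ≠ 0 ∧ yc P ^ 2 = xc P ^ 3 + algebraMap R F a * xc P ^ 2 + algebraMap R F b ∧
    4 * yc P ^ 2 * xc (P + P) =
      xc P ^ 4 - 8 * algebraMap R F b * xc P - 4 * algebraMap R F a * algebraMap R F b := by
  have hP0 : P ≠ 0 := by
    rintro rfl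
    exact hP (add_zero 0)
  obtain ⟨x, y, h, rfl⟩ := exists_some hP0
  have hneg : ((SW a b).baseChange F).toAffine.negY x y = - y := by
    simp only [WeierstrassCurve.Affine.negY, WeierstrassCurve.baseChange, WeierstrassCurve.map,
      SW, map_zero]
    ring
  have hy : y ≠ 0 := by
    intro hy
    apply hP
    apply WeierstrassCurve.Affine.Point.add_self_of_Y_eq
    rw [hneg, hy, neg_zero]
  have hy' : y ≠ ((SW a b).baseChange F).toAffine.negY x y := by
    rw [hneg]
    intro h4
    apply hy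
    have : 2 * y = 0 := by linear_combination h4
    exact (mul_eq_zero.mp this).resolve_left h2
  have e := pt_eq h
  refine ⟨hy, e, ?_⟩
  rw [WeierstrassCurve.Affine.Point.add_self_of_Y_ne hy', xc_some, xc_some, yc_some,
    WeierstrassCurve.Affine.addX, WeierstrassCurve.Affine.slope_of_Y_ne rfl hy', hneg]
  simp only [WeierstrassCurve.baseChange, WeierstrassCurve.map, SW, map_zero]
  have h2y : y - -y = 2 * y := by ring
  rw [h2y]
  field_simp
  linear_combination (-16 * (2 * x + algebraMap R F a)) * e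

end pts

section bridge

variable {F : Type*} [Field F]

/-- the two coordinates of a rank two valuation -/
def toR2 (v : Rk2 F) : VMTI.R2 F where
  w := v.v
  o := v.o
  wmul := v.mul
  omul := v.omul
  wadd := v.add
  oadd := by
    intro a b ha hb hab hlt
    have hw := (v.toQV.add_eq_of_lt ha hb hlt).2
    -- lower bound
    have h1 := v.oadd ha hb hab
    have hmin : min (toLex (v.v a, v.o a)) (toLex (v.v b, v.o b)) = toLex (v.v a, v.o a) := by
      apply min_eq_left
      rw [Prod.Lex.toLex_le_toLex]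
      exact Or.inl hlt
    rw [hmin, Prod.Lex.toLex_le_toLex] at h1
    have h1' : v.o a ≤ v.o (a + b) := by
      rcases h1 with h1 | h1
      · simp only at h1
        rw [hw] at h1
        exact absurd h1 (lt_irrefl _)
      · exact h1.2
    -- upper bound
    have ha' : (a + b) + (-b) ≠ 0 := by simpa using ha
    have h2 := v.oadd hab (neg_ne_zero.mpr hb) ha'
    have onegone : v.o (-1) = 0 := by
      have h0 : (-1 : F) ≠ 0 := neg_ne_zero.mpr one_ne_zero
      have h3 := v.omul (a := (-1 : F)) (b := -1) h0 h0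
      have h4 := v.omul (a := (1 : F)) (b := 1) one_ne_zero one_ne_zero
      rw [mul_one] at h4
      rw [neg_mul_neg, mul_one] at h3
      linarith
    have oneg : v.o (-b) = v.o b := by
      have := v.omul (a := (-1 : F)) (b := b) (neg_ne_zero.mpr one_ne_zero) hb
      rw [neg_one_mul, onegone] at this
      linarith
    have hmin2 : min (toLex (v.v (a + b), v.o (a + b))) (toLex (v.v (-b), v.o (-b))) =
        toLex (v.v (a + b), v.o (a + b)) := by
      apply min_eq_left
      rw [Prod.Lex.toLex_le_toLex]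
      left
      simp only
      rw [hw, v.toQV.neg]
      exact hlt
    rw [hmin2, Prod.Lex.toLex_le_toLex, add_neg_cancel_right] at h2
    rcases h2 with h2 | h2
    · simp only at h2
      rw [hw] at h2
      exact absurd h2 (lt_irrefl _)
    · exact le_antisymm h2.2 h1'

lemma T_eq {R : Type*} [CommRing R] {W : WeierstrassCurve R} [Algebra R F] (v : Rk2 F)
    (P : Pt W F) : Tf v P = VMTI.T (toR2 v) (xc P) := by
  unfold Tf VMTI.T toR2
  rfl

lemma phi_eq {R : Type*} [CommRing R] {W : WeierstrassCurve R} [Algebra R F] (v : Rk2 F)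
    (P : Pt W F) : phi v P = VMTI.phi (toR2 v) (xc P) := by
  unfold phi VMTI.phi toR2
  rfl

lemma base {P : Type*} [Field P] (l : P) (hl0 : l ≠ 0) [Algebra P F] (v : Rk2 F)
    (hl : v.v (algebraMap P F l) = 1) (hc : ∀ c : P, c ≠ 0 → v.o (algebraMap P F c) = 0)
    (h0 : CharZero F) (hn : ∀ n : ℕ, n ≠ 0 → v.v (n : F) = 0) :
    VMTI.Base (toR2 v) (algebraMap P F l) where
  l0 := by
    rw [ne_eq, map_eq_zero]
    exact hl0
  wl := hl
  ol := hc l hl0
  two := two_ne_zero
  w2 := by
    have := hn 2 (by norm_num)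
    exact_mod_cast this
  o2 := by
    have h2 : (2 : P) ≠ 0 := by
      intro h
      have h3 : algebraMap P F 2 = 0 := by rw [h, map_zero]
      rw [map_ofNat] at h3
      exact two_ne_zero h3
    have := hc 2 h2
    rw [map_ofNat] at this
    exact this

end bridge

end TIp

open TIp

/-- TI: parallelogram law for the rank 2 local height, multiplicative reduction -/
theorem TI {P : Type} [Field P] (l : P) (hl0 : l ≠ 0) {F : Type} [Field F] [Algebra P F]
    (v : Rk2 F)
    (hl : v.v (algebraMap P F l) = 1) (hc : ∀ c : P, c ≠ 0 → v.o (algebraMap P F c) = 0)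
    (h0 : CharZero F) (hn : ∀ n : ℕ, n ≠ 0 → v.v (n : F) = 0) (p q : Pt (E1 l) F)
    (hp : p ≠ 0) (hq : q ≠ 0) (h1 : p ≠ q) (h3 : p ≠ -q) :
    Tf v (p + q) + Tf v (p - q) = 2 * Tf v p + 2 * Tf v q + v.o (xc p - xc q) := by
  obtain ⟨hx, hs, hp'⟩ := xc_add_sub hp hq h1 h3
  rw [T_eq, T_eq, T_eq, T_eq]
  refine (base l hl0 v hl hc h0 hn).parallelogram hx ?_ ?_
  · rw [hs, map_one]; ring
  · rw [hp', map_one]

/-- TI2: duplication -/
theorem TI2 {P : Type} [Field P] (l : P) (hl0 : l ≠ 0) {F : Type} [Field F] [Algebra P F]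
    (v : Rk2 F)
    (hl : v.v (algebraMap P F l) = 1) (hc : ∀ c : P, c ≠ 0 → v.o (algebraMap P F c) = 0)
    (h0 : CharZero F) (hn : ∀ n : ℕ, n ≠ 0 → v.v (n : F) = 0) (p : Pt (E1 l) F)
    (hp : p + p ≠ 0) :
    Tf v (p + p) = 4 * Tf v p + v.o (yc p) := by
  obtain ⟨hy, e, hd⟩ := xc_dbl (two_ne_zero) hp
  rw [map_one, one_mul] at e
  rw [map_one, mul_one, e] at hd
  rw [T_eq, T_eq]
  have hf : xc p ^ 3 + xc p ^ 2 + algebraMap P F l ≠ 0 := by
    rw [← e]; exact pow_ne_zero 2 hy
  have := (base l hl0 v hl hc h0 hn).doubling hf hd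
  rw [this, ← e]
  have h2 : (toR2 v).o (yc p ^ 2) = 2 * v.o (yc p) := by
    rw [VMTI.o_pow hy]
    push_cast
    rfl
  rw [h2]
  ring

/-- PH: the error function at most doubles -/
theorem PH {P : Type} [Field P] (l : P) (hl0 : l ≠ 0) {F : Type} [Field F] [Algebra P F]
    (v : Rk2 F)
    (hl : v.v (algebraMap P F l) = 1) (hc : ∀ c : P, c ≠ 0 → v.o (algebraMap P F c) = 0)
    (h0 : CharZero F) (hn : ∀ n : ℕ, n ≠ 0 → v.v (n : F) = 0) (p : Pt (E1 l) F) :
    phi v (p + p) ≤ 2 * phi v p := by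
  rw [phi_eq, phi_eq]
  by_cases hp : p + p = 0
  · rw [hp, xc_zero]
    have h1 : VMTI.phi (toR2 v) (0 : F) = 0 := by
      unfold VMTI.phi
      rw [if_neg]
      rintro ⟨h, -⟩
      exact h rfl
    rw [h1]
    have := VMTI.phi_nonneg (R := toR2 v) (xc p)
    linarith
  obtain ⟨hy, e, hd⟩ := xc_dbl (two_ne_zero) hp
  rw [map_one, one_mul] at e
  rw [map_one, mul_one, e] at hd
  have hf : xc p ^ 3 + xc p ^ 2 + algebraMap P F l ≠ 0 := by
    rw [← e]; exact pow_ne_zero 2 hy
  exact (base l hl0 v hl hc h0 hn).phi_double hf hd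

end Pool.Agent.VM
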