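import Pool.Agent.Lib_VM.ES_h81

/-!
# MP_5582d1_ag, block XABS: ABS2, ABS3, ABS4, GAUSS (helper81); cites no stubs
-/

set_option autoImplicit false

namespace Pool.Agent.VM.XABSp

open scoped Classical
open Pool.Agent.VM

section
variable {Λ ι : Type} [Field Λ] (T : Finset ι) (X : ι → Λ)

/-- the family of the nonzero elements -/
abbrev Tn : Type := ↥(T.filter fun τ => X τ ≠ 0)

theorem xabs_ne (i : Tn T X) : X i ≠ 0 := (Finset.mem_filter.1 i.2).2

theorem xabs_sum_sub (f : ι → ℚ) (hf : ∀ τ, X τ = 0 → f τ = 0) :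
    ∑ τ ∈ T, f τ = ∑ i : Tn T X, f i := by
  rw [Finset.sum_coe_sort (T.filter fun τ => X τ ≠ 0) f, Finset.sum_filter]
  refine Finset.sum_congr rfl fun τ _ => ?_
  split_ifs with h
  · rfl
  · exact hf τ (not_not.1 h)

theorem xabs_es (j : ℕ) :
    es (fun i : Tn T X => X i) j = ∑ A ∈ T.powersetCard j, ∏ i ∈ A, X i := by
  have h1 : ∑ A ∈ T.powersetCard j, ∏ i ∈ A, X i =
      ∑ A ∈ (T.filter fun τ => X τ ≠ 0).powersetCard j, ∏ i ∈ A, X i := by
    symm
    refine Finset.sum_subset (Finset.powersetCard_mono (Finset.filter_subset _ _)) ?_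
    intro A hA hA'
    rw [Finset.mem_powersetCard] at hA hA'
    have : ∃ i ∈ A, X i = 0 := by
      by_contra h
      push Not at h
      exact hA' ⟨fun i hi => Finset.mem_filter.2 ⟨hA.1 hi, h i hi⟩, hA.2⟩
    obtain ⟨i, hi, h0⟩ := this
    exact Finset.prod_eq_zero hi h0
  rw [h1, es]
  refine Finset.sum_bij (fun A _ => A.map (Function.Embedding.subtype _)) ?_ ?_ ?_ ?_
  · intro A hA
    rw [Finset.mem_powersetCard] at hA ⊢
    refine ⟨?_, by rw [Finset.card_map]; exact hA.2⟩
    intro i hi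
    obtain ⟨a, -, rfl⟩ := Finset.mem_map.1 hi
    exact a.2
  · intro A _ B _ h
    exact Finset.map_injective _ h
  · intro B hB
    rw [Finset.mem_powersetCard] at hB
    refine ⟨Finset.univ.filter fun i : Tn T X => (i : ι) ∈ B, ?_, ?_⟩
    · rw [Finset.mem_powersetCard]
      refine ⟨Finset.subset_univ _, ?_⟩
      rw [← hB.2, ← Finset.card_map (Function.Embedding.subtype _)]
      congr 1
      ext i
      simp only [Finset.mem_map, Finset.mem_filter, Finset.mem_univ, true_and,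
        Function.Embedding.subtype_apply]
      constructor
      · rintro ⟨a, ha, rfl⟩
        exact ha
      · intro hi
        exact ⟨⟨i, hB.1 hi⟩, hi, rfl⟩
    · ext i
      simp only [Finset.mem_map, Finset.mem_filter, Finset.mem_univ, true_and,
        Function.Embedding.subtype_apply]
      constructor
      · rintro ⟨a, ha, rfl⟩
        exact ha
      · intro hi
        exact ⟨⟨i, hB.1 hi⟩, hi, rfl⟩
  · intro A _
    rw [Finset.prod_map]
    rfl

/-- the coefficients of the product -/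
theorem xabs_coeff (j : ℕ) (hj : j ≤ T.card) :
    (∏ τ ∈ T, (Polynomial.X - Polynomial.C (X τ))).coeff (T.card - j) =
      (-1) ^ j * es (fun i : Tn T X => X i) j := by
  have h1 : (∏ τ ∈ T, (Polynomial.X - Polynomial.C (X τ))) =
      ((T.val.map X).map fun t => Polynomial.X - Polynomial.C t).prod := by
    rw [Multiset.map_map]
    rfl
  have hc : Multiset.card (T.val.map X) = T.card := by
    rw [Multiset.card_map]
    rfl
  rw [h1, Multiset.prod_X_sub_C_coeff _ (by rw [hc]; omega), hc, Finset.esymm_map_val, xabs_es]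
  have : T.card - (T.card - j) = j := by omega
  rw [this]

theorem xabs_card_le (S : Finset (Tn T X)) : S.card ≤ T.card := by
  refine (Finset.card_le_univ S).trans ?_
  rw [Fintype.card_coe]
  exact Finset.card_le_card (Finset.filter_subset _ _)

theorem xabs_sgn_o (R : Rk2 Λ) (j : ℕ) (x : Λ) : R.o ((-1) ^ j * x) = R.o x := by
  rcases neg_one_pow_eq_or Λ j with h | h
  · rw [h, one_mul]
  · rw [h, neg_one_mul, R.o_neg]

theorem xabs_sgn_v (u : QV Λ) (j : ℕ) (x : Λ) : u.v ((-1) ^ j * x) = u.v x := by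
  rcases neg_one_pow_eq_or Λ j with h | h
  · rw [h, one_mul]
  · rw [h, neg_one_mul, u.neg]

theorem xabs_ne0 (j : ℕ) (x : Λ) (hx : x ≠ 0) : (-1) ^ j * x ≠ 0 :=
  mul_ne_zero (pow_ne_zero _ (neg_ne_zero.2 one_ne_zero)) hx

/-- the trivial extension to rank 2 -/
def triv2 (w : QV Λ) : Rk2 Λ where
  toQV := w
  o := fun _ => 0
  omul := fun _ _ => by simp
  oadd := by
    intro a b ha hb hab
    have h := w.add ha hb hab
    rcases min_le_iff.1 h with h | h
    · refine min_le_of_left_le ?_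
      rw [Prod.Lex.toLex_le_toLex]
      rcases h.lt_or_eq with h | h
      · exact Or.inl h
      · exact Or.inr ⟨h, le_rfl⟩
    · refine min_le_of_right_le ?_
      rw [Prod.Lex.toLex_le_toLex]
      rcases h.lt_or_eq with h | h
      · exact Or.inl h
      · exact Or.inr ⟨h, le_rfl⟩

end

section
variable {Λ ι : Type} [Field Λ] (w : QV Λ) (T : Finset ι) (X : ι → Λ)

/-- ABS2: Abel summation -/
theorem ABS2 : ∃ (n : ℕ) (q : Fin n → ℚ) (j : Fin n → ℕ),
    (∀ i, (∏ τ ∈ T, (Polynomial.X - Polynomial.C (X τ))).coeff (j i) ≠ 0) ∧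
    ∀ R : Rk2 Λ, R.toQV = w →
      ∑ τ ∈ T, (if X τ = 0 then 0 else (max 0 (min (R.v (X τ)) (1 / 2)) - 1 / 2) * R.o (X τ)) =
      ∑ i, q i * R.o ((∏ τ ∈ T, (Polynomial.X - Polynomial.C (X τ))).coeff (j i)) := by
  obtain ⟨c, hc⟩ := ABEL w (fun i : Tn T X => X i) (xabs_ne T X)
  have hne : ∀ j, c j ≠ 0 → es (fun i : Tn T X => X i) j ≠ 0 := (hc (triv2 w) rfl).1
  set J : Finset ℕ := (Finset.range (Fintype.card (Tn T X) + 1)).filter fun j => c j ≠ 0 with hJ
  have hle : ∀ j ∈ J, j ≤ T.card := by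
    intro j hj
    rw [hJ, Finset.mem_filter, Finset.mem_range] at hj
    have h1 := xabs_card_le T X Finset.univ
    rw [Finset.card_univ] at h1
    omega
  refine ⟨J.card, fun i => -c (J.equivFin.symm i), fun i => T.card - J.equivFin.symm i, ?_, ?_⟩
  · intro i
    have hm := (J.equivFin.symm i).2
    rw [xabs_coeff T X _ (hle _ hm)]
    exact xabs_ne0 _ _ (hne _ (Finset.mem_filter.1 hm).2)
  · intro R hR
    have h1 := (hc R hR).2
    have h2 : ∑ τ ∈ T, (if X τ = 0 then 0 else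
        (max 0 (min (R.v (X τ)) (1 / 2)) - 1 / 2) * R.o (X τ)) =
        ∑ i : Tn T X, (clamp (w.v (X i)) - 1 / 2) * R.o (X i) := by
      rw [xabs_sum_sub T X _ (fun τ h => if_pos h)]
      refine Finset.sum_congr rfl fun i _ => ?_
      rw [if_neg (xabs_ne T X i), clamp, ← hR]
    rw [h2, h1, ← Finset.sum_neg_distrib]
    have h3 : ∑ j ∈ Finset.range (Fintype.card (Tn T X) + 1),
        -(c j * R.o (es (fun i : Tn T X => X i) j)) =
        ∑ j ∈ J, -(c j * R.o (es (fun i : Tn T X => X i) j)) := by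
      rw [hJ, Finset.sum_filter]
      refine Finset.sum_congr rfl fun j _ => ?_
      split_ifs with h
      · rfl
      · rw [not_not.1 h, zero_mul, neg_zero]
    rw [h3, ← Finset.sum_coe_sort J, ← Equiv.sum_comp J.equivFin.symm]
    refine Finset.sum_congr rfl fun i _ => ?_
    rw [xabs_coeff T X _ (hle _ (J.equivFin.symm i).2), xabs_sgn_o]
    ring

/-- ABS3: the leading coefficient -/
theorem ABS3 (R : Rk2 Λ) (I : Finset ι)
    (hI : ∀ τ, τ ∈ I ↔ τ ∈ T ∧ X τ ≠ 0 ∧ toLex (R.v (X τ), R.o (X τ)) < toLex ((0 : ℚ), (0 : ℚ))) :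
    (∏ τ ∈ T, (Polynomial.X - Polynomial.C (X τ))).coeff (T.card - I.card) ≠ 0 ∧
    R.o ((∏ τ ∈ T, (Polynomial.X - Polynomial.C (X τ))).coeff (T.card - I.card)) =
      ∑ τ ∈ I, R.o (X τ) := by
  set I' : Finset (Tn T X) := Finset.univ.filter fun i => (i : ι) ∈ I with hI'
  have hmap : I'.map (Function.Embedding.subtype _) = I := by
    ext i
    simp only [hI', Finset.mem_map, Finset.mem_filter, Finset.mem_univ, true_and,
      Function.Embedding.subtype_apply]
    constructor
    · rintro ⟨a, ha, rfl⟩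
      exact ha
    · intro hi
      have h1 := (hI i).1 hi
      exact ⟨⟨i, Finset.mem_filter.2 ⟨h1.1, h1.2.1⟩⟩, hi, rfl⟩
  have hcard : I'.card = I.card := by
    rw [← hmap, Finset.card_map]
  obtain ⟨h1, h2⟩ := NEG R (fun i : Tn T X => X i) (xabs_ne T X) I' (fun i => by
    rw [hI', Finset.mem_filter]
    simp only [Finset.mem_univ, true_and]
    rw [hI]
    constructor
    · rintro ⟨-, -, h⟩
      exact h
    · intro h
      exact ⟨(Finset.mem_filter.1 i.2).1, xabs_ne T X i, h⟩)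
  rw [hcard] at h1 h2
  have hle : I.card ≤ T.card := hcard ▸ xabs_card_le T X I'
  rw [xabs_coeff T X _ hle]
  refine ⟨xabs_ne0 _ _ h1, ?_⟩
  rw [xabs_sgn_o, h2]
  conv_rhs => rw [← hmap, Finset.sum_map]
  rfl

theorem xabs_v_sum (u : QV Λ) {α : Type*} (s : Finset α) (t : α → Λ) (m : ℚ)
    (h : ∀ a ∈ s, t a ≠ 0 → m ≤ u.v (t a)) (h0 : ∑ a ∈ s, t a ≠ 0) :
    m ≤ u.v (∑ a ∈ s, t a) := by
  induction s using Finset.induction_on with
  | empty => simp at h0
  | insert a s ha ih =>
    rw [Finset.sum_insert ha] at h0 ⊢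
    by_cases h1 : t a = 0
    · rw [h1, zero_add] at h0 ⊢
      exact ih (fun b hb => h b (Finset.mem_insert_of_mem hb)) h0
    by_cases h2 : ∑ b ∈ s, t b = 0
    · rw [h2, add_zero]
      exact h a (Finset.mem_insert_self _ _) h1
    · exact (le_min (h a (Finset.mem_insert_self _ _) h1)
        (ih (fun b hb => h b (Finset.mem_insert_of_mem hb)) h2)).trans (u.add h1 h2 h0)

/-- ABS4: lower bound for the coefficients -/
theorem ABS4 (u : QV Λ) (j : ℕ) (h : (∏ τ ∈ T, (Polynomial.X - Polynomial.C (X τ))).coeff j ≠ 0) :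
    - ∑ τ ∈ T, (if X τ = 0 then 0 else max 0 (-(u.v (X τ)))) ≤
      u.v ((∏ τ ∈ T, (Polynomial.X - Polynomial.C (X τ))).coeff j) := by
  have hj : j ≤ T.card := by
    by_contra hc
    apply h
    apply Polynomial.coeff_eq_zero_of_natDegree_lt
    rw [Polynomial.natDegree_prod_of_monic _ _ fun τ _ => Polynomial.monic_X_sub_C _]
    simpa using hc
  obtain ⟨i, hi, rfl⟩ : ∃ i, i ≤ T.card ∧ j = T.card - i := ⟨T.card - j, by omega, by omega⟩
  rw [xabs_coeff T X _ hi] at h ⊢
  rw [xabs_sgn_v]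
  have h0 : es (fun i : Tn T X => X i) i ≠ 0 := right_ne_zero_of_mul h
  rw [xabs_sum_sub T X _ (fun τ h => if_pos h)]
  refine xabs_v_sum u _ _ _ (fun A _ _ => ?_) h0
  have h1 : u.v (∏ i ∈ A, X i) = ∑ i ∈ A, u.v (X i) :=
    (triv2 u).v_prod A (fun i : Tn T X => X i) (fun i _ => xabs_ne T X i)
  rw [h1, ← Finset.sum_neg_distrib]
  have h2 : ∑ i : Tn T X, -(if X i = 0 then 0 else max 0 (-(u.v (X i)))) ≤
      ∑ i ∈ A, -(if X i = 0 then 0 else max 0 (-(u.v (X i)))) := by
    have h3 := Finset.sum_le_sum_of_subset_of_nonneg (Finset.subset_univ A)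
      (f := fun i : Tn T X => (if X i = 0 then 0 else max 0 (-(u.v (X i))))) (fun i _ _ => by
        rw [if_neg (xabs_ne T X i)]
        exact le_max_left _ _)
    rw [Finset.sum_neg_distrib, Finset.sum_neg_distrib]
    exact neg_le_neg h3
  refine h2.trans (Finset.sum_le_sum fun i _ => ?_)
  rw [if_neg (xabs_ne T X i)]
  have := le_max_right 0 (-(u.v (X i)))
  linarith

/-- GAUSS: the minimum of the values of the coefficients -/
theorem GAUSS (u : QV Λ) : ∃ j : ℕ, (∏ τ ∈ T, (Polynomial.X - Polynomial.C (X τ))).coeff j ≠ 0 ∧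
    u.v ((∏ τ ∈ T, (Polynomial.X - Polynomial.C (X τ))).coeff j) =
    - ∑ τ ∈ T, (if X τ = 0 then 0 else max 0 (-(u.v (X τ)))) := by
  set S : Finset (Tn T X) := Finset.univ.filter fun i => u.v (X i) < 0 with hS
  obtain ⟨h1, h2, -⟩ := EZ (triv2 u) (fun i : Tn T X => X i) (xabs_ne T X) S (by
    intro i hi j hj
    rw [Prod.Lex.toLex_lt_toLex]
    left
    have a1 : u.v (X i) < 0 := (Finset.mem_filter.1 hi).2
    have a2 : 0 ≤ u.v (X j) := by
      by_contra h
      exact hj (Finset.mem_filter.2 ⟨Finset.mem_univ _, not_le.1 h⟩)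
    exact lt_of_lt_of_le a1 a2)
  refine ⟨T.card - S.card, ?_, ?_⟩
  · rw [xabs_coeff T X _ (xabs_card_le T X S)]
    exact xabs_ne0 _ _ h1
  · rw [xabs_coeff T X _ (xabs_card_le T X S), xabs_sgn_v]
    refine h2.trans ?_
    rw [xabs_sum_sub T X _ (fun τ h => if_pos h), ← Finset.sum_neg_distrib, hS,
      Finset.sum_filter]
    refine Finset.sum_congr rfl fun i _ => ?_
    rw [if_neg (xabs_ne T X i)]
    split_ifs with h
    · rw [max_eq_right (by linarith), neg_neg]
      rfl
    · rw [max_eq_left (by linarith), neg_zero]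

end

end Pool.Agent.VM.XABSp
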