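import Pool.Agent.Lib_VM.Defs3_h85
import Pool.Agent.Lib_VM.D6_h80

/-!
# MP_5582d1_ag, block XALG6 (from D6 of helper80)
-/

set_option autoImplicit false

namespace Pool.Agent.VM.XALG6p

open Pool.Agent.VM

/-- ALG6: biquadratic functions invariant under `SL₂` are quadratic forms in the cross product -/
theorem ALG6 (Q : (Fin 3 → ℤ) → (Fin 3 → ℤ) → ℚ) (h1 : ∀ m, Par (Q m)) (hs : ∀ m m', Q m m' = Q m' m)
    (hi : ∀ m m', Q m (m' + m) = Q m m') (h0 : ∀ m m', 0 ≤ Q m m') :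
    ∃ q : (Fin 3 → ℤ) → ℚ, Par q ∧ (∀ y, 0 ≤ q y) ∧ ∀ m m', Q m m' = q (crs m m') := by
  obtain ⟨q, hq, hq0, h⟩ := D6p.D6 Q
    (fun m' => by
      have e : (fun m => Q m m') = Q m' := funext fun m => hs m m'
      rw [e]
      exact h1 m')
    hs (fun m m' => by rw [hs, hi, hs]) h0
  exact ⟨q, hq, hq0, h⟩

end Pool.Agent.VM.XALG6p
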