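import Mathlib

/-!
# MP_5582d1_ag, part X, block XCP: the coefficients of the characteristic polynomial
(cites no stub)
-/

set_option autoImplicit false
set_option linter.style.haveILetI false

namespace Pool.Agent.VM.XCPp

open scoped Classical

variable {Λ : Type} [Field Λ] [CharZero Λ] [IsAlgClosed Λ]

/-- CP: the coefficients of the characteristic polynomial -/
theorem CP {M : Type} [Field M] (j : M →+* Λ) (L' : Subfield M) (L : Subfield Λ) (hL : L'.map j = L)
    (hal : ∀ x : Λ, IsAlgebraic L x) (T : Finset (M →+* Λ)) (hT : ∀ τ, τ ∈ T ↔ ∀ x ∈ L', τ x = j x) (θ : M)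
    (i : ℕ) : (∏ τ ∈ T, (Polynomial.X - Polynomial.C (τ θ))).coeff i ∈ L := by
  haveI : Algebra.IsAlgebraic L Λ := ⟨hal⟩
  haveI : IsAlgClosure L Λ := ⟨inferInstance, inferInstance⟩
  haveI : CharZero L := inferInstance
  haveI : Algebra.IsSeparable L Λ := inferInstance
  haveI : Normal L Λ := inferInstance
  haveI : IsGalois L Λ := ⟨⟩
  set P : Polynomial Λ := ∏ τ ∈ T, (Polynomial.X - Polynomial.C (τ θ)) with hP
  have hfix : ∀ σ : Λ ≃ₐ[L] Λ, σ (P.coeff i) = P.coeff i := by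
    intro σ
    have h1 : P.map (σ : Λ →+* Λ) = P := by
      rw [hP, Polynomial.map_prod]
      have h2 : ∀ (σ : Λ ≃ₐ[L] Λ) (τ : M →+* Λ), τ ∈ T → ((σ : Λ →+* Λ).comp τ) ∈ T := by
        intro σ τ hτ
        rw [hT] at hτ ⊢
        intro x hx
        have h3 : j x ∈ L := by rw [← hL]; exact ⟨x, hx, rfl⟩
        show σ (τ x) = j x
        rw [hτ x hx]
        exact σ.commutes ⟨j x, h3⟩
      refine Finset.prod_bij' (fun τ _ => (σ : Λ →+* Λ).comp τ)
        (fun τ _ => ((σ.symm : Λ ≃ₐ[L] Λ) : Λ →+* Λ).comp τ) (fun τ hτ => h2 σ τ hτ)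
        (fun τ hτ => h2 σ.symm τ hτ) (fun τ _ => ?_) (fun τ _ => ?_) (fun τ _ => ?_)
      · ext x; exact σ.symm_apply_apply (τ x)
      · ext x; exact σ.apply_symm_apply (τ x)
      · rw [Polynomial.map_sub, Polynomial.map_X, Polynomial.map_C]; rfl
    have h2 := congrArg (fun Q : Polynomial Λ => Q.coeff i) h1
    simpa [Polynomial.coeff_map] using h2
  obtain ⟨y, hy⟩ := (InfiniteGalois.mem_range_algebraMap_iff_fixed (k := L) (P.coeff i)).2 hfix
  rw [← hy]
  exact y.2

end Pool.Agent.VM.XCPp
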