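import Pool.Agent.Lib_VM.Defs3_h85
import Pool.Agent.Lib_VM.GAU3_h4
import Pool.Agent.Lib_VM.ALGCL_h4
import Pool.Agent.Lib_VM.EXC_h67

/-! helper4, VM block XCTX (CTX, RKV). Cites no stubs (only proved blocks). -/

set_option autoImplicit false

namespace Pool.Agent.VM

open scoped Classical

attribute [-instance] Subtype.instDecidableEq

namespace XCTXp

/-- RKV (helper4) -/
theorem RKV {l : ℂ} {Z : SubVar l} (C : Ctx Z) (ν : QV C.w0.κ) (hν : ∀ y ∈ C.k, y ≠ 0 → ν.v y = 0) :
    ∃ R, C.IsRk ν R := by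
  obtain ⟨V, hV, _, hV'⟩ := QV.exists_rk2 (P := ℂ) (F := C.Λ) C.v C.w0 (fun c _ => C.ext c)
    (fun a ha => C.val a ha) ν (by
      intro c hc hvc
      have hmem : algebraMap ℂ C.Λ c ∈ C.w0.ring := by
        rw [C.w0.mem_ring_of ((map_ne_zero _).mpr hc), C.ext, hvc]
      apply hν
      · exact ⟨algebraMap ℂ C.Λ c, ⟨c, rfl⟩, hmem, rfl⟩
      · intro h0
        rw [C.w0.res_eq_zero_iff hmem, C.ext, hvc] at h0
        rcases h0 with h0 | h0
        · exact (map_ne_zero _).mpr hc h0
        · exact lt_irrefl _ h0)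
  exact ⟨V, hV, fun x hx c hc hcx => hV' x c hx hc hcx⟩

theorem xc_mp {R P F K : Type*} [CommRing R] [CommRing P] [Field F] [Field K] [Algebra R P]
    [Algebra R F] [Algebra R K] [Algebra P F] [Algebra P K] [IsScalarTower R P F]
    [IsScalarTower R P K] {W : WeierstrassCurve R} (f : F →ₐ[P] K) (Q : Pt W F) :
    xc (mp f Q) = f (xc Q) := by
  cases Q with
  | zero => exact (map_zero f).symm
  | some x y h => rfl

theorem yc_mp {R P F K : Type*} [CommRing R] [CommRing P] [Field F] [Field K] [Algebra R P]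
    [Algebra R F] [Algebra R K] [Algebra P F] [Algebra P K] [IsScalarTower R P F]
    [IsScalarTower R P K] {W : WeierstrassCurve R} (f : F →ₐ[P] K) (Q : Pt W F) :
    yc (mp f Q) = f (yc Q) := by
  cases Q with
  | zero => exact (map_zero f).symm
  | some x y h => rfl

/-- a valuation may be given any value at `0` -/
noncomputable def setZero {K : Type*} [Field K] (w : QV K) (t : ℚ) : QV K where
  v x := if x = 0 then t else w.v x
  mul := by
    intro a b ha hb
    simp only [ha, hb, mul_eq_zero, or_self, if_false]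
    exact w.mul ha hb
  add := by
    intro a b ha hb hab
    simp only [ha, hb, hab, if_false]
    exact w.add ha hb hab

lemma setZero_v {K : Type*} [Field K] (w : QV K) (t : ℚ) {x : K} (hx : x ≠ 0) :
    (setZero w t).v x = w.v x := by
  show (if x = 0 then t else w.v x) = w.v x
  rw [if_neg hx]

/-- the embeddings which agree on a subfield of finite degree are finite in number -/
lemma finite_agree {M Λ : Type} [Field M] [Field Λ] [Algebra ℂ M] [Algebra ℂ Λ] (ι : M →ₐ[ℂ] Λ)
    (L : IntermediateField ℂ M) [FiniteDimensional L M] (p : (M →ₐ[ℂ] Λ) → Prop)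
    (hp : ∀ τ, p τ → ∀ x ∈ L, τ x = ι x) : {τ | p τ}.Finite := by
  let _ : Algebra L Λ := (ι.toRingHom.comp (algebraMap L M)).toAlgebra
  have : Finite (M →ₐ[L] Λ) := inferInstance
  let g : {τ | p τ} → (M →ₐ[L] Λ) := fun τ =>
    { τ.1.toRingHom with
      commutes' := fun x => hp τ.1 τ.2 x x.2 }
  have hg : Function.Injective g := by
    intro τ τ' h
    apply Subtype.ext
    apply AlgHom.ext
    intro x
    exact DFunLike.congr_fun h x
  have : Finite {τ | p τ} := Finite.of_injective g hg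
  exact Set.toFinite _

lemma alg_mono {A B M : Type*} [CommRing A] [CommRing B] [Field M] [Algebra A M] [Algebra B M]
    (e : A →+* B) (he : ∀ a, algebraMap B M (e a) = algebraMap A M a) (hinj : Function.Injective e)
    {x : M} (hx : IsAlgebraic A x) : IsAlgebraic B x := by
  obtain ⟨q, hq0, hq⟩ := hx
  refine ⟨q.map e, (Polynomial.map_ne_zero_iff hinj).mpr hq0, ?_⟩
  rw [Polynomial.aeval_def, Polynomial.eval₂_map]
  rw [Polynomial.aeval_def] at hq
  have hcomp : (algebraMap B M).comp e = algebraMap A M := RingHom.ext he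
  rw [hcomp]; exact hq

lemma alg_subfield {M : Type} [Field M] [Algebra ℂ M] {ι : Type} (x : ι → M)
    (hx : IsTranscendenceBasis ℂ x) (K : Subfield M) (h1 : ∀ c : ℂ, algebraMap ℂ M c ∈ K)
    (h2 : ∀ i, x i ∈ K) (y : M) : IsAlgebraic K y := by
  have hmem : ∀ a ∈ Algebra.adjoin ℂ (Set.range x), a ∈ K := by
    intro a ha
    induction ha using Algebra.adjoin_induction with
    | mem a ha => obtain ⟨i, rfl⟩ := ha; exact h2 i
    | algebraMap c => exact h1 c
    | add a b _ _ ha hb => exact K.add_mem ha hb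
    | mul a b _ _ ha hb => exact K.mul_mem ha hb
  let e : Algebra.adjoin ℂ (Set.range x) →+* K :=
    ((algebraMap (Algebra.adjoin ℂ (Set.range x)) M)).codRestrict K (fun a => hmem a a.2)
  refine alg_mono e (fun a => rfl) ?_ (hx.isAlgebraic.isAlgebraic y)
  intro a b hab
  apply Subtype.ext
  have h : ((e a : K) : M) = ((e b : K) : M) := by rw [hab]
  exact h

/-- the function field is finite over `ℂ(w)` -/
lemma fin_L {l : ℂ} (Z : SubVar l) (hTB : IsTranscendenceBasis ℂ (fun i => xc (Z.w i))) :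
    FiniteDimensional (IntermediateField.adjoin ℂ (⋃ i, cs (Z.w i))) Z.M := by
  set L := IntermediateField.adjoin ℂ (⋃ i, cs (Z.w i)) with hL
  have hxL : ∀ i, xc (Z.w i) ∈ L := by
    intro i
    apply IntermediateField.subset_adjoin
    exact Set.mem_iUnion.mpr ⟨i, Or.inl rfl⟩
  have halg : ∀ y : Z.M, IsAlgebraic L y := by
    intro y
    exact alg_subfield _ hTB L.toSubfield (fun c => L.algebraMap_mem c) hxL y
  have hfinS : (⋃ i, cs (Z.z i)).Finite := by
    apply Set.finite_iUnion
    intro i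
    unfold cs
    exact Set.toFinite _
  have htop : IntermediateField.adjoin L (⋃ i, cs (Z.z i)) = ⊤ := by
    rw [← IntermediateField.restrictScalars_eq_top_iff (K := ℂ), eq_top_iff, ← Z.gen]
    rw [IntermediateField.adjoin_le_iff]
    rintro y (hy | hy)
    · exact IntermediateField.subset_adjoin L _ hy
    · have : y ∈ L := IntermediateField.subset_adjoin _ _ hy
      exact (IntermediateField.adjoin L (⋃ i, cs (Z.z i))).algebraMap_mem ⟨y, this⟩
  have hfd : FiniteDimensional L (IntermediateField.adjoin L (⋃ i, cs (Z.z i))) := by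
    have : Finite (⋃ i, cs (Z.z i)) := hfinS
    exact IntermediateField.finiteDimensional_adjoin (fun y _ => (halg y).isIntegral)
  rw [htop] at hfd
  exact (IntermediateField.topEquiv (F := L) (E := Z.M)).toLinearEquiv.finiteDimensional

/-- CTX: existence -/
theorem CTX (l : ℂ) (hl : Transcendental ℚ l) (Z : SubVar l)
    (hw : AlgebraicIndependent ℂ (fun i => xc (Z.w i))) : Nonempty (Ctx Z) := by
  obtain ⟨v, vl, vn⟩ := EXC l hl
  have hl0 : l ≠ 0 := by
    rintro rfl
    exact hl (isAlgebraic_zero)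
  -- the transcendence basis
  have hTB : IsTranscendenceBasis ℂ (fun i => xc (Z.w i)) := by
    apply hw.isTranscendenceBasis_of_trdeg_le_of_finite
    rw [Z.dim3]; simp
  let Λ := AlgebraicClosure Z.M
  let ι : Z.M →ₐ[ℂ] Λ := IsScalarTower.toAlgHom ℂ Z.M Λ
  have hTBΛ : IsTranscendenceBasis ℂ (fun i => xc (mp (W := E2) ι (Z.w i))) := by
    have := hTB.algebraMap_comp (A := Λ)
    refine (congrArg (IsTranscendenceBasis ℂ) (funext fun i => ?_)).mp this
    rw [xc_mp]; rfl
  obtain ⟨w, hw1, hx1⟩ := v.exists_gauss hTBΛ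
  let w0 : QV Λ := setZero w (v.v 0)
  have hw0 : ∀ c : ℂ, c ≠ 0 → w0.v (algebraMap ℂ Λ c) = v.v c := by
    intro c hc
    rw [setZero_v _ _ ((map_ne_zero _).mpr hc), hw1 c hc]
  have hext : ∀ c : ℂ, w0.v (algebraMap ℂ Λ c) = v.v c := by
    intro c
    by_cases hc : c = 0
    · rw [hc, map_zero]
      show (if (0 : Λ) = 0 then v.v 0 else w.v 0) = v.v 0
      rw [if_pos rfl]
    · exact hw0 c hc
  have hx0 : ∀ p : MvPolynomial (Fin 3) ℂ, p ≠ 0 →
      MvPolynomial.aeval (fun i => xc (mp (W := E2) ι (Z.w i))) p ≠ 0 ∧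
      w0.v (MvPolynomial.aeval (fun i => xc (mp (W := E2) ι (Z.w i))) p) = v.gval p := by
    intro p hp
    obtain ⟨h1, h2⟩ := hx1 p hp
    exact ⟨h1, by rw [setZero_v _ _ h1, h2]⟩
  obtain ⟨hint, hres⟩ := QV.algInd_res v w0 hw0 _ hx0
  have hn : ∀ n : ℕ, n ≠ 0 → w0.v (n : Λ) = 0 := by
    intro n hn
    have := hext (n : ℂ)
    rw [map_natCast, vn n hn] at this
    exact this
  have : CharZero Λ := charZero_of_injective_algebraMap (algebraMap ℂ Λ).injective
  obtain ⟨red, hred⟩ := REDE w0 hn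
  have hne : ∀ i, mp (W := E2) ι (Z.w i) ≠ 0 := by
    intro i h0
    have h1 : xc (mp (W := E2) ι (Z.w i)) = 0 := by rw [h0]; rfl
    have h2 := (hTBΛ.1.transcendental i)
    rw [h1] at h2
    exact h2 isAlgebraic_zero
  have hTfin : {τ : Z.M →ₐ[ℂ] Λ | ∀ i, mp (W := E2) τ (Z.w i) = mp ι (Z.w i)}.Finite := by
    have := fin_L Z hTB
    apply finite_agree ι (IntermediateField.adjoin ℂ (⋃ i, cs (Z.w i)))
    intro τ hτ x hx
    induction hx using IntermediateField.adjoin_induction with
    | mem y hy =>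
      obtain ⟨i, hi⟩ := Set.mem_iUnion.mp hy
      have e := hτ i
      rcases hi with hi | hi
      · rw [hi, ← xc_mp τ (Z.w i), ← xc_mp ι (Z.w i), e]
      · rw [hi, ← yc_mp τ (Z.w i), ← yc_mp ι (Z.w i), e]
    | algebraMap c => rw [AlgHom.commutes, AlgHom.commutes]
    | add x y _ _ hx hy => rw [map_add, map_add, hx, hy]
    | inv x _ hx => rw [map_inv₀, map_inv₀, hx]
    | mul x y _ _ hx hy => rw [map_mul, map_mul, hx, hy]
  refine ⟨{
    Λ := Λ
    ι := ι
    hal := ?_
    T := hTfin.toFinset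
    hT := ?_
    l0 := hl0
    v := v
    vl := vl
    vn := vn
    w0 := w0
    ext := hext
    val := fun x _ => v.exists_value hl0 vl (w0.v x)
    kac := w0.isAlgClosed_κ
    kc0 := w0.charZero_κ hn
    red := red
    hred := hred
    wint := hint
    gen := ?_ }⟩
  · intro x
    refine alg_subfield _ hTBΛ _ ?_ ?_ x
    · intro c
      exact Subfield.subset_closure (Or.inl ⟨c, rfl⟩)
    · intro i
      exact Subfield.subset_closure (Or.inr (Set.mem_iUnion.mpr ⟨i, Or.inl rfl⟩))
  · intro τ
    rw [Set.Finite.mem_toFinset]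
    rfl
  · have h1 : (fun i => xc (red (mp (W := E2) ι (Z.w i)))) =
        fun i => w0.res (xc (mp (W := E2) ι (Z.w i))) := by
      funext i
      exact (hred.fin _ (hne i) (hint i)).2.1
    rw [← h1] at hres
    exact hres

end XCTXp

end Pool.Agent.VM
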