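import Pool.Agent.Lib_VM.StubsA_h85
import Pool.Agent.Lib_VM.StubsC_h85
import Pool.Agent.Lib_helper15.VM.III
import Pool.Agent.Lib_helper67.VM.PtF

/-!
# MP_5582d1_ag: block XCUR
-/

set_option autoImplicit false

namespace Pool.Agent.VM

open scoped Classical

attribute [-instance] Subtype.instDecidableEq

section Curve

variable {Λ : Type} [Field Λ]

theorem xcur_res_int (w : QV Λ) (r : ℤ) : (r : Λ) ∈ w.ring ∧ w.res (r : Λ) = (r : w.κ) := by
  have h : (r : Λ) ∈ w.ring := by
    have := ((r : w.ring) : w.ring).2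
    simpa using this
  refine ⟨h, ?_⟩
  rw [w.res_of_mem h, show (⟨(r : Λ), h⟩ : w.ring) = (r : w.ring) by ext; simp, map_intCast]

theorem xcur_kappa_ne (w : QV Λ) [CharZero Λ] (hw : ∀ n : ℕ, n ≠ 0 → w.v (n : Λ) = 0) (n : ℕ)
    (hn : n ≠ 0) : (n : w.κ) ≠ 0 := by
  have h := xcur_res_int w (n : ℤ)
  have h2 : (n : w.κ) = w.res (n : Λ) := by
    have := h.2; push_cast at this; exact this.symm
  have h3 : (n : Λ) ∈ w.ring := by have := h.1; push_cast at this; exact this
  rw [h2, ne_eq, w.res_eq_zero_iff h3]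
  push Not
  exact ⟨by exact_mod_cast hn, by rw [hw n hn]⟩

theorem xcur_inc_cases (Kb : Subfield Λ) (b : Pt E2 Kb) :
    (b = 0 ∧ inc Kb b = 0) ∨ (b ≠ 0 ∧ inc Kb b ≠ 0 ∧ xc (inc Kb b) = ((xc b : Kb) : Λ) ∧
      yc (inc Kb b) = ((yc b : Kb) : Λ)) := by
  rcases ptf_cases b with rfl | ⟨x, y, h, rfl⟩
  · exact Or.inl ⟨rfl, map_zero _⟩
  · exact Or.inr ⟨WeierstrassCurve.Affine.Point.some_ne_zero _,
      WeierstrassCurve.Affine.Point.some_ne_zero _, rfl, rfl⟩

theorem xcur_pt_ext {F : Type} [Field F] [Algebra ℤ F] {P Q : Pt E2 F} (hP : P ≠ 0) (hQ : Q ≠ 0)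
    (hx : xc P = xc Q) (hy : yc P = yc Q) : P = Q := by
  rcases ptf_cases P with h | ⟨x, y, h, rfl⟩
  · exact absurd h hP
  rcases ptf_cases Q with h' | ⟨x', y', h', rfl⟩
  · exact absurd h' hQ
  simp only [ptf_xc_some, ptf_yc_some] at hx hy
  subst hx; subst hy
  rfl

variable [CharZero Λ] [IsAlgClosed Λ]

/-- E2RED -/
theorem XCURp.E2RED (w : QV Λ) (hw : ∀ n : ℕ, n ≠ 0 → w.v (n : Λ) = 0) :
    ∃ red : Pt E2 Λ →+ Pt E2 w.κ, IsRed w red := by
  have h2 : (2 : w.κ) ≠ 0 := by exact_mod_cast xcur_kappa_ne w hw 2 (by norm_num)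
  have h432 : (432 : w.κ) ≠ 0 := by exact_mod_cast xcur_kappa_ne w hw 432 (by norm_num)
  obtain ⟨red, h3, h4⟩ := RED (0 : ℤ) 1 w (fun r => by
    have := xcur_res_int w r
    rw [eq_intCast, eq_intCast]
    exact this) h2 (by
    have : (SW (0 : ℤ) 1).Δ = -432 := by
      simp [SW, WeierstrassCurve.Δ, WeierstrassCurve.b₂, WeierstrassCurve.b₄, WeierstrassCurve.b₆,
        WeierstrassCurve.b₈]
    rw [this, eq_intCast]
    push_cast
    exact neg_ne_zero.2 h432)
  exact ⟨red, h3, h4⟩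

/-- TRIV: trivial on a subfield, trivial on its algebraic closure -/
theorem XCURp.TRIV (u : QV Λ) (K : Subfield Λ) (hu : ∀ c ∈ K, c ≠ 0 → u.v c = 0) (c : Λ)
    (hc : c ∈ acl K) (h0 : c ≠ 0) : u.v c = 0 := by
  have hK : ∀ x ∈ K, x ∈ u.ring := by
    intro x hx
    rw [u.mem_ring]
    by_cases h : x = 0
    · exact Or.inl h
    · exact Or.inr (hu x hx h).ge
  have key : ∀ d : Λ, IsAlgebraic K d → d ∈ u.ring := by
    intro d hd
    obtain ⟨p, hp, hp'⟩ := hd.isIntegral
    let f : K →+* u.ring :=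
      { toFun := fun x => ⟨x.1, hK x.1 x.2⟩
        map_one' := rfl
        map_mul' := fun _ _ => rfl
        map_zero' := rfl
        map_add' := fun _ _ => rfl }
    have hf : (algebraMap u.ring Λ).comp f = algebraMap K Λ := by ext x; rfl
    have hint : IsIntegral u.ring d := by
      refine ⟨p.map f, hp.map f, ?_⟩
      rw [Polynomial.eval₂_map, hf]
      exact hp'
    obtain ⟨y, hy⟩ := (IsIntegrallyClosed.isIntegral_iff (R := u.ring) (K := Λ)).1 hint
    rw [← hy]
    exact y.2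
  have hc' : IsAlgebraic K c := by
    have : c ∈ (algebraicClosure K Λ) := hc
    exact mem_algebraicClosure_iff.1 this
  have h1 := (u.mem_ring_of h0).1 (key c hc')
  have h2 := (u.mem_ring_of (inv_ne_zero h0)).1 (key c⁻¹ hc'.inv)
  rw [u.inv h0] at h2
  linarith

/-- SPEC: specialisation at a point -/
theorem XCURp.SPEC (Kb : Subfield Λ) (e : Pt E2 Λ) (he : Transcendental Kb (xc e)) (a : Pt E2 Kb)
    (u : QV Λ) (hu : AtPt Kb e a u) :
    ∃ red : Pt E2 Λ →+ Pt E2 u.κ, IsRed u red ∧ red e = red (inc Kb a) ∧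
      ∀ b : Pt E2 Kb, red (inc Kb b) = 0 → b = 0 := by
  obtain ⟨red, hred⟩ := XCURp.E2RED u (fun n hn => hu.triv n (natCast_mem Kb n)
    (by exact_mod_cast hn))
  have hmem : ∀ x ∈ Kb, x ∈ u.ring := by
    intro x hx
    rw [u.mem_ring]
    by_cases h : x = 0
    · exact Or.inl h
    · exact Or.inr (hu.triv x hx h).ge
  have he0 : e ≠ 0 := by
    rintro rfl
    exact he (by rw [ptf_xc_zero]; exact isAlgebraic_zero)
  refine ⟨red, hred, ?_, ?_⟩
  · rcases xcur_inc_cases Kb a with ⟨ha, ha'⟩ | ⟨ha, ha', hx, hy⟩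
    · rw [ha', map_zero]
      refine hred.inf e fun h => ?_
      have h0 : xc e ≠ 0 := fun h => he (h ▸ isAlgebraic_zero)
      have := (u.mem_ring_of h0).1 h
      exact absurd (hu.ctr0 ha) (not_lt.2 this)
    · obtain ⟨c1, c2⟩ := hu.ctr ha
      have hxa : xc (inc Kb a) ∈ u.ring := by rw [hx]; exact hmem _ (xc a).2
      have hya : yc (inc Kb a) ∈ u.ring := by rw [hy]; exact hmem _ (yc a).2
      have hdx : xc e - xc (inc Kb a) ∈ u.ring := Or.inr c1.le
      have hdy : yc e - yc (inc Kb a) ∈ u.ring := Or.inr c2.le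
      have hxe : xc e ∈ u.ring := by
        have := u.ring.add_mem _ _ hdx hxa
        rwa [sub_add_cancel] at this
      have hye : yc e ∈ u.ring := by
        have := u.ring.add_mem _ _ hdy hya
        rwa [sub_add_cancel] at this
      obtain ⟨h1, h2, h3⟩ := hred.fin e he0 hxe
      obtain ⟨h4, h5, h6⟩ := hred.fin (inc Kb a) ha' hxa
      refine xcur_pt_ext h1 h4 ?_ ?_
      · rw [h2, h5, ← sub_eq_zero, ← u.res_sub hxe hxa, u.res_eq_zero_iff hdx]
        exact Or.inr c1
      · rw [h3, h6, ← sub_eq_zero, ← u.res_sub hye hya, u.res_eq_zero_iff hdy]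
        exact Or.inr c2
  · intro b hb
    rcases xcur_inc_cases Kb b with ⟨hb0, _⟩ | ⟨_, hb', hx, hy⟩
    · exact hb0
    · exfalso
      have := (hred.fin (inc Kb b) hb' (by rw [hx]; exact hmem _ (xc b).2)).1
      exact this hb

/-- C1V: values of the uniformisers -/
theorem XCURp.C1V (Kb : Subfield Λ) [IsAlgClosed Kb] (e : Pt E2 Λ) (he : Transcendental Kb (xc e))
    (a : Pt E2 Kb) (u : QV Λ) (hu : AtPt Kb e a u) :
    (a ≠ 0 → yc a ≠ 0 → u.v (xc e - xc (inc Kb a)) = 1) ∧ (a ≠ 0 → yc a = 0 → u.v (yc e) = 1) ∧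
    (a = 0 → u.v (xc e) = -2 ∧ u.v (yc e) = -3) := by
  have : CharZero Kb := ⟨fun m n h => by
    have h' := congrArg (Subtype.val) h
    exact_mod_cast h'⟩
  obtain ⟨F, _, _, φ, e', h1, h2, h3, h4, h5, h6, h7⟩ := bridge Kb e he
  have hat := (h7 a u).1 hu
  obtain ⟨u', hpl, hv⟩ := at_pl h6 h5 a (u.comap φ) hat
  have he0 : e ≠ 0 := by
    rintro rfl
    exact he (by rw [ptf_xc_zero]; exact isAlgebraic_zero)
  have hsq : yc e ^ 2 = xc e ^ 3 + 1 := by
    have := ptf_sq he0
    rw [this]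
    simp
  have hye : yc e ≠ 0 := by
    intro h
    apply he
    have h8 : xc e ^ 3 + 1 = 0 := by rw [← hsq, h]; ring
    refine ⟨Polynomial.X ^ 3 + 1, ?_, by simp [h8]⟩
    intro h9
    have := congrArg (fun p => Polynomial.eval 0 p) h9
    simp at this
  refine ⟨fun ha hy => ?_, fun ha hy => ?_, fun ha => ?_⟩
  · have hx : xc (inc Kb a) = ((xc a : Kb) : Λ) := by
      rcases xcur_inc_cases Kb a with ⟨h, _⟩ | ⟨_, _, h, _⟩
      · exact absurd h ha
      · exact h
    have h8 := hpl.fin (xc a) (by rw [pr, if_neg ha])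
    have h9 := hv (xc e' - algebraMap Kb F (xc a))
    rw [h8, ri, if_neg (by tauto)] at h9
    have h10 : u.v (φ (xc e' - algebraMap Kb F (xc a))) = 1 * 1 := h9
    rw [map_sub, h3, h1] at h10
    rw [hx, h10, one_mul]
  · have hx : xc (inc Kb a) = ((xc a : Kb) : Λ) := by
      rcases xcur_inc_cases Kb a with ⟨h, _⟩ | ⟨_, _, h, _⟩
      · exact absurd h ha
      · exact h
    have h8 := hpl.fin (xc a) (by rw [pr, if_neg ha])
    have h9 := hv (xc e' - algebraMap Kb F (xc a))
    rw [h8, ri, if_pos (by tauto)] at h9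
    have h10 : u.v (φ (xc e' - algebraMap Kb F (xc a))) = 2 * 1 := h9
    rw [map_sub, h3, h1] at h10
    -- `xc a ^ 3 = - 1`
    have ha3 : (xc a) ^ 3 = -1 := by
      have := ptf_sq ha
      rw [hy] at this
      simp at this
      linear_combination -this
    set s : Λ := ((xc a : Kb) : Λ) with hs
    have hs3 : s ^ 3 = -1 := by
      rw [hs]
      exact_mod_cast congrArg (Subtype.val) ha3
    have hs0 : s ≠ 0 := by
      intro h; rw [h] at hs3; norm_num at hs3
    have hsub0 : xc e - s ≠ 0 := by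
      intro h
      rw [sub_eq_zero] at h
      apply he
      rw [h]
      exact isAlgebraic_algebraMap (xc a)
    -- `y² = (x - s) * ((x - s) * (x + 2 s) + 3 s²)`
    have h3s : u.v (3 * s ^ 2) = 0 := by
      refine hu.triv _ (Kb.mul_mem (by exact_mod_cast natCast_mem Kb 3) (Kb.pow_mem (xc a).2 2)) ?_
      exact mul_ne_zero (by norm_num) (pow_ne_zero 2 hs0)
    have hfac : yc e ^ 2 = (xc e - s) * ((xc e - s) * (xc e + 2 * s) + 3 * s ^ 2) := by
      rw [hsq]; linear_combination hs3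
    have hq0 : (xc e - s) * (xc e + 2 * s) + 3 * s ^ 2 ≠ 0 := by
      intro h
      rw [h, mul_zero] at hfac
      exact hye (pow_eq_zero_iff (two_ne_zero) |>.1 hfac)
    have hvq : u.v ((xc e - s) * (xc e + 2 * s) + 3 * s ^ 2) = 0 := by
      by_cases hz : xc e + 2 * s = 0
      · rw [hz, mul_zero, zero_add, h3s]
      · have hpos : 0 < u.v ((xc e - s) * (xc e + 2 * s)) := by
          rw [u.mul hsub0 hz, h10]
          have : 0 ≤ u.v (xc e + 2 * s) := by
            have e1 : xc e + 2 * s = (xc e - s) + 3 * s := by ring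
            have h3s0 : (3 : Λ) * s ≠ 0 := mul_ne_zero (by norm_num) hs0
            have h3v : u.v (3 * s) = 0 :=
              hu.triv _ (Kb.mul_mem (by exact_mod_cast natCast_mem Kb 3) (xc a).2) h3s0
            rw [e1] at hz ⊢
            have := u.add hsub0 h3s0 hz
            rw [h10, h3v] at this
            refine le_trans ?_ this
            norm_num
          linarith
        have h3n : (3 : Λ) * s ^ 2 ≠ 0 := mul_ne_zero (by norm_num) (pow_ne_zero 2 hs0)
        have := u.add_eq_of_lt h3n (mul_ne_zero hsub0 hz) (by rw [h3s]; exact hpos)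
        rw [add_comm, this.2, h3s]
    have h11 := congrArg u.v hfac
    rw [u.pow hye, u.mul hsub0 hq0, h10, hvq] at h11
    push_cast at h11
    linarith
  · have h8 := hpl.inf (by rw [pr, if_pos ha])
    have h9 := hv (xc e')
    rw [h8, ri, if_pos (by tauto)] at h9
    have h10 : u.v (φ (xc e')) = 2 * -1 := h9
    rw [h3] at h10
    have hxe : xc e ≠ 0 := fun h => he (h ▸ isAlgebraic_zero)
    refine ⟨by rw [h10]; norm_num, ?_⟩
    have h12 : u.v (xc e ^ 3) < u.v (1 : Λ) := by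
      rw [u.pow hxe, u.one, h10]; norm_num
    have h13 := u.add_eq_of_lt (pow_ne_zero 3 hxe) one_ne_zero h12
    have h11 := congrArg u.v hsq
    rw [u.pow hye, h13.2, u.pow hxe, h10] at h11
    push_cast at h11
    linarith

end Curve

end Pool.Agent.VM
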