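import Pool.Agent.Lib_VM.Defs3_h85
import Pool.Agent.Lib_helper67.VM.PtF

/-!
# MP_5582d1_ag, block XD0a: the fields generated by three combinations. No stubs cited.
-/

set_option autoImplicit false

namespace Pool.Agent.VM.XD0ap

open Pool.Agent.VM
open scoped Classical

attribute [-instance] Subtype.instDecidableEq

section pts

variable {Λ : Type} [Field Λ]

theorem cs_mp_sub (S : Subfield Λ) (Q : Pt E2 S) : cs (inc S Q) ⊆ S := by
  rcases Q with _ | ⟨x, y, h⟩
  · have h0 : inc S (0 : Pt E2 S) = 0 := map_zero _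
    change cs (inc S (0 : Pt E2 S)) ⊆ S
    rw [h0]
    rintro z (rfl | hz)
    · exact S.zero_mem
    · rw [Set.mem_singleton_iff] at hz
      rw [hz]; exact S.zero_mem
  · rintro z (rfl | hz)
    · exact x.2
    · rw [Set.mem_singleton_iff] at hz
      rw [hz]; exact y.2

theorem pt_descend (S : Subfield Λ) (Q : Pt E2 Λ) (hQ : cs Q ⊆ S) : ∃ Q' : Pt E2 S, inc S Q' = Q := by
  rcases Q with _ | ⟨x, y, h⟩
  · exact ⟨0, map_zero _⟩
  · have hx : x ∈ S := hQ (Or.inl rfl)
    have hy : y ∈ S := hQ (Or.inr rfl)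
    have hn : (E2.baseChange S).toAffine.Nonsingular (⟨x, hx⟩ : S) ⟨y, hy⟩ :=
      (WeierstrassCurve.Affine.baseChange_nonsingular (W := E2)
        (f := (S.subtype.toIntAlgHom : S →ₐ[ℤ] Λ)) Subtype.val_injective _ _).1 h
    exact ⟨.some _ _ hn, rfl⟩

/-- the points with coordinates in a subfield -/
noncomputable def sg (S : Subfield Λ) : AddSubgroup (Pt E2 Λ) := (inc S).range

theorem mem_sg (S : Subfield Λ) (Q : Pt E2 Λ) : Q ∈ sg S ↔ cs Q ⊆ S := by
  constructor
  · rintro ⟨Q', rfl⟩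
    exact cs_mp_sub S Q'
  · intro h
    obtain ⟨Q', h'⟩ := pt_descend S Q h
    exact ⟨Q', h'⟩

theorem comb_mem (S : Subfield Λ) (P : Fin 3 → Pt E2 Λ) (h : ∀ i, P i ∈ sg S) (m : Fin 3 → ℤ) :
    comb m P ∈ sg S := AddSubgroup.sum_mem _ fun i _ => AddSubgroup.zsmul_mem _ (h i) _

theorem comb_lin (P : Fin 3 → Pt E2 Λ) (m m' n : Fin 3 → ℤ) (a b c : ℤ) :
    comb (a • m + b • m' + c • n) P = a • comb m P + b • comb m' P + c • comb n P := by
  simp only [comb, Finset.smul_sum, ← Finset.sum_add_distrib]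
  refine Finset.sum_congr rfl fun i _ => ?_
  simp only [Pi.add_apply, Pi.smul_apply, smul_eq_mul, add_smul, mul_smul]

theorem comb_single (P : Fin 3 → Pt E2 Λ) (i : Fin 3) : comb (Pi.single i 1) P = P i := by
  rw [comb, Finset.sum_eq_single i]
  · simp
  · intro j _ hj
    rw [Pi.single_eq_of_ne hj, zero_smul]
  · intro h; exact absurd (Finset.mem_univ i) h

theorem fe_gen (A : Set Λ) (P : Fin 3 → Pt E2 Λ) (m m' n : Fin 3 → ℤ) (ht : Uni m m' n) :
    fe (Subfield.closure (A ∪ (cs (comb m P) ∪ cs (comb m' P)))) (comb n P) =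
      Subfield.closure (A ∪ ⋃ i, cs (P i)) := by
  apply le_antisymm
  · have hP : ∀ i, P i ∈ sg (Subfield.closure (A ∪ ⋃ i, cs (P i))) := fun i =>
      (mem_sg _ _).2 fun z hz => Subfield.subset_closure (Or.inr (Set.mem_iUnion.2 ⟨i, hz⟩))
    rw [fe, Subfield.closure_le]
    rintro z (hz | hz)
    · have h1 : Subfield.closure (A ∪ (cs (comb m P) ∪ cs (comb m' P))) ≤
          Subfield.closure (A ∪ ⋃ i, cs (P i)) := by
        rw [Subfield.closure_le]
        rintro z (hz | hz | hz)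
        · exact Subfield.subset_closure (Or.inl hz)
        · exact (mem_sg _ _).1 (comb_mem _ P hP m) hz
        · exact (mem_sg _ _).1 (comb_mem _ P hP m') hz
      exact h1 hz
    · exact (mem_sg _ _).1 (comb_mem _ P hP n) hz
  · set S := fe (Subfield.closure (A ∪ (cs (comb m P) ∪ cs (comb m' P)))) (comb n P) with hS
    have h0 : Subfield.closure (A ∪ (cs (comb m P) ∪ cs (comb m' P))) ≤ S := fun z hz =>
      Subfield.subset_closure (Or.inl hz)
    have hm : comb m P ∈ sg S := (mem_sg _ _).2 fun z hz =>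
      h0 (Subfield.subset_closure (Or.inr (Or.inl hz)))
    have hm' : comb m' P ∈ sg S := (mem_sg _ _).2 fun z hz =>
      h0 (Subfield.subset_closure (Or.inr (Or.inr hz)))
    have hn : comb n P ∈ sg S := (mem_sg _ _).2 fun z hz => Subfield.subset_closure (Or.inr hz)
    rw [Subfield.closure_le]
    rintro z (hz | hz)
    · exact h0 (Subfield.subset_closure (Or.inl hz))
    · obtain ⟨i, hi⟩ := Set.mem_iUnion.1 hz
      obtain ⟨a, b, c, h⟩ := ht (Pi.single i 1)
      have h1 : P i ∈ sg S := by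
        rw [← comb_single P i, h, comb_lin]
        exact AddSubgroup.add_mem _ (AddSubgroup.add_mem _ (AddSubgroup.zsmul_mem _ hm _)
          (AddSubgroup.zsmul_mem _ hm' _)) (AddSubgroup.zsmul_mem _ hn _)
      exact (mem_sg _ _).1 h1 hi

end pts

variable {l : ℂ} {Z : SubVar l} (C : Ctx Z) (m m' n : Fin 3 → ℤ) (ht : Uni m m' n)

include ht

/-- D0a -/
theorem fe_K0 : fe (C.K0 m m') (comb n C.W) = C.L := fe_gen _ C.W m m' n ht

theorem fe_k0 : fe (C.k0 m m') (comb n C.wb) = C.F := fe_gen _ C.wb m m' n ht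

end Pool.Agent.VM.XD0ap
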