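import Pool.Agent.Lib_VM.StubsA_h85
import Pool.Agent.Lib_helper15.VM.III
import Pool.Agent.Lib_VM.StubsC_h85
import Pool.Agent.Lib_VM.A_Ctx_alg_F
import Pool.Agent.Lib_VM.A_Ctx_fe_K0
import Pool.Agent.Lib_VM.A_Ctx_fe_k0
import Pool.Agent.Lib_VM.A_Ctx_tr_K
import Pool.Agent.Lib_VM.A_Ctx_tr_k

/-! MP_5582d1_ag, block XD0b. -/

set_option autoImplicit false

namespace Pool.Agent.VM.XD0bp

open scoped Classical

attribute [-instance] Subtype.instDecidableEq

private theorem xd_up {Λ : Type} [Field Λ] {K K' : Subfield Λ} (h : K ≤ K') {x : Λ}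
    (hx : IsAlgebraic K x) : IsAlgebraic K' x := by
  obtain ⟨p, hp, hpx⟩ := hx
  refine ⟨p.map (Subfield.inclusion h),
    (Polynomial.map_ne_zero_iff (Subfield.inclusion h).injective).2 hp, ?_⟩
  rw [Polynomial.aeval_def, Polynomial.eval₂_map]
  exact hpx

private theorem xd_le {Λ : Type} [Field Λ] (K : Subfield Λ) : K ≤ acl K := by
  intro x hx
  exact mem_algebraicClosure_iff.2 (isAlgebraic_algebraMap (⟨x, hx⟩ : K))

private theorem xd_ac {Λ : Type} [Field Λ] [IsAlgClosed Λ] (K : Subfield Λ) :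
    IsAlgClosed (acl K) :=
  (algebraicClosure.isAlgClosure K Λ).isAlgClosed

private theorem xd_fe {Λ : Type} [Field Λ] {K K' : Subfield Λ} (h : K ≤ K') (e : Pt E2 Λ) :
    fe K e ≤ fe K' e :=
  Subfield.closure_mono (Set.union_subset_union_left _ h)

private theorem xd_atp {Λ : Type} [Field Λ] (Kb : Subfield Λ) (e : Pt E2 Λ) (a : Pt E2 Kb)
    (h : ∃ u : QV Λ, AtPt Kb e a u) : AtPt Kb e a (atp Kb e a) := by
  unfold atp
  rw [dif_pos h]
  exact h.choose_spec

variable {l : ℂ} {Z : SubVar l} (C : Ctx Z) (m m' n : Fin 3 → ℤ) (ht : Uni m m' n)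

theorem acK : IsAlgClosed (C.Kb m m') := xd_ac _

theorem ack : IsAlgClosed (C.kb m m') := xd_ac _

theorem alg_L (x : C.Λ) : IsAlgebraic C.L x := C.hal x

include ht

theorem U_spec (a : Pt E2 (C.Kb m m')) : AtPt (C.Kb m m') (comb n C.W) a (C.U m m' n a) := by
  have := acK C m m'
  refine xd_atp _ _ _ (C1E _ _ (C.tr_K m m' n ht) (fun x => ?_) a)
  have h1 : C.L ≤ fe (C.Kb m m') (comb n C.W) := by
    rw [← C.fe_K0 m m' n ht]
    exact xd_fe (xd_le _) _
  exact xd_up h1 (alg_L C x)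

theorem nu_spec (β : Pt E2 (C.kb m m')) :
    AtPt (C.kb m m') (comb n C.wb) β (C.nu m m' n β) := by
  have := ack C m m'
  refine xd_atp _ _ _ (C1E _ _ (C.tr_k m m' n ht) (fun x => ?_) β)
  have h1 : C.F ≤ fe (C.kb m m') (comb n C.wb) := by
    rw [← C.fe_k0 m m' n ht]
    exact xd_fe (xd_le _) _
  exact xd_up h1 (C.alg_F x)

end Pool.Agent.VM.XD0bp
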