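import Pool.Agent.Lib_VM.StubsC_h85
import Pool.Agent.Lib_VM.StubsIV_h38
import Pool.Agent.Lib_VM.A_cs_add_sub
import Pool.Agent.Lib_VM.A_cs_smul_sub

/-! cites: cs_add_sub, cs_smul_sub (Y4). MP_5582d1_ag, block XD0c: transcendence degrees -/

set_option autoImplicit false
set_option linter.style.haveILetI false

namespace Pool.Agent.VM.XD0cp

open scoped Classical
open Pool.Agent.VM

attribute [-instance] Subtype.instDecidableEq

/-! ### the algebraic closure of `k(s)` -/

section cl
variable {k κ : Type} [Field k] [Field κ] [Algebra k κ]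

/-- the elements algebraic over `k(s)` -/
private noncomputable def Cl (k : Type) {κ : Type} [Field k] [Field κ] [Algebra k κ]
    (s : Set κ) : IntermediateField k κ :=
  (algebraicClosure (IntermediateField.adjoin k s) κ).restrictScalars k

private theorem mem_Cl {s : Set κ} {x : κ} :
    x ∈ Cl k s ↔ IsAlgebraic (IntermediateField.adjoin k s) x :=
  mem_algebraicClosure_iff

private theorem sub_Cl (s : Set κ) : s ⊆ Cl k s := fun x hx =>
  mem_Cl.2 (isAlgebraic_algebraMap (A := κ)
    (⟨x, IntermediateField.subset_adjoin k s hx⟩ : IntermediateField.adjoin k s))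

private theorem Cl_alg {s : Set κ} {x : κ} (hx : IsAlgebraic (Cl k s) x) : x ∈ Cl k s := by
  have h1 : IsAlgebraic (algebraicClosure (IntermediateField.adjoin k s) κ) x := hx
  exact mem_Cl.2 (h1.restrictScalars (IntermediateField.adjoin k s))

/-- an element algebraic over a subfield of `Cl` is in `Cl` -/
private theorem Cl_alg' {s : Set κ} {S : Subfield κ} (hS : S ≤ (Cl k s).toSubfield) {x : κ}
    (hx : IsAlgebraic S x) : x ∈ Cl k s := by
  obtain ⟨p, hp, h⟩ := hx
  refine Cl_alg ⟨p.map (Subfield.inclusion hS), ?_, ?_⟩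
  · exact (Polynomial.map_ne_zero_iff (Subfield.inclusion hS).injective).2 hp
  · rw [Polynomial.aeval_def, Polynomial.eval₂_map]
    exact h

private theorem Cl_yc {s : Set κ} (P : Pt E2 κ) (h : xc P ∈ Cl k s) : cs P ⊆ Cl k s := by
  rintro x (rfl | rfl)
  · exact h
  · by_cases h0 : P = 0
    · rw [h0]
      exact zero_mem _
    · have h1 : yc P ^ 2 = xc P ^ 3 + 1 := by
        have h := ptf_sq (R := ℤ) (a := 0) (b := 1) (F := κ) (p := P) h0
        simpa using h
      apply Cl_alg
      refine IsAlgebraic.of_pow (n := 2) (by norm_num) ?_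
      rw [h1]
      exact isAlgebraic_algebraMap (A := κ)
        (⟨xc P ^ 3 + 1, add_mem (pow_mem h 3) (one_mem _)⟩ : Cl k s)

private theorem Cl_closure {s : Set κ} {x : κ} (hx : x ∈ Cl k s) :
    x ∈ (AlgebraicIndependent.matroid k κ).closure s := by
  rw [AlgebraicIndependent.matroid_closure_eq, SetLike.mem_coe, Subalgebra.mem_algebraicClosure]
  open scoped IntermediateField.algebraAdjoinAdjoin in
  exact (mem_Cl.1 hx).restrictScalars (Algebra.adjoin k s)

/-- `n` independent elements in `Cl k s`: `s` has at least `n` elements -/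
private theorem Cl_card {n : ℕ} {I : Fin n → κ} (hI : AlgebraicIndependent k I) {s : Set κ}
    (hs : ∀ i, I i ∈ Cl k s) : (n : ℕ∞) ≤ (AlgebraicIndependent.matroid k κ).eRk s := by
  have h1 : (AlgebraicIndependent.matroid k κ).Indep (Set.range I) := by
    rw [AlgebraicIndependent.matroid_indep_iff]
    exact (algebraicIndependent_subtype_range hI.injective).2 hI
  have h2 : Set.range I ⊆ (AlgebraicIndependent.matroid k κ).closure s := by
    rintro _ ⟨i, rfl⟩
    exact Cl_closure (hs i)
  have h3 := h1.encard_le_eRk_of_subset h2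
  rw [Matroid.eRk_closure_eq] at h3
  rw [← Set.image_univ, hI.injective.encard_image, Set.encard_univ] at h3
  simpa using h3

/-- three elements which generate three independent ones are independent -/
private theorem Cl_ind {n : ℕ} {I : Fin n → κ} (hI : AlgebraicIndependent k I) (x : Fin n → κ)
    (hs : ∀ i, I i ∈ Cl k (Set.range x)) : AlgebraicIndependent k x := by
  have h1 := Cl_card hI hs
  have h2 := (AlgebraicIndependent.matroid k κ).eRk_le_encard (Set.range x)
  have h3 : (Set.range x).encard ≤ (n : ℕ∞) := by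
    rw [← Set.image_univ]
    refine (Set.encard_image_le _ _).trans ?_
    rw [Set.encard_univ]
    simp
  have h4 : (Set.range x).encard = (n : ℕ∞) := le_antisymm h3 (h1.trans h2)
  have hfin : (Set.range x).Finite := Set.finite_range x
  have h5 : (AlgebraicIndependent.matroid k κ).Indep (Set.range x) := by
    rw [Matroid.indep_iff_eRk_eq_encard_of_finite hfin]
    exact le_antisymm h2 (by rw [h4]; exact h1)
  have hinj : Function.Injective x := by
    rw [← Set.injOn_univ]
    refine Set.InjOn.mono (Set.Subset.refl _) ?_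
    apply (Set.finite_univ).injOn_of_encard_image_eq
    rw [Set.image_univ, h4, Set.encard_univ]
    simp
  rw [AlgebraicIndependent.matroid_indep_iff] at h5
  exact (algebraicIndependent_subtype_range hinj).1 h5

/-- the coordinates of `comb a w` -/
private theorem cs_comb (F : IntermediateField k κ) (w : Fin 3 → Pt E2 κ)
    (hF : ∀ j, cs (w j) ⊆ F) (a : Fin 3 → ℤ) : cs (comb a w) ⊆ F := by
  unfold comb
  rw [Fin.sum_univ_three]
  exact cs_add_sub 0 1 F _ _ (cs_add_sub 0 1 F _ _ (cs_smul_sub 0 1 F _ _ (hF 0))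
    (cs_smul_sub 0 1 F _ _ (hF 1))) (cs_smul_sub 0 1 F _ _ (hF 2))

omit [Field k] [Algebra k κ] in
private theorem comb_uni {m m' n : Fin 3 → ℤ} (ht : Uni m m' n) (w : Fin 3 → Pt E2 κ)
    (j : Fin 3) : ∃ a b c : ℤ, w j = a • comb m w + b • comb m' w + c • comb n w := by
  obtain ⟨a, b, c, h⟩ := ht (Pi.single j 1)
  refine ⟨a, b, c, ?_⟩
  have h1 : comb (Pi.single j 1) w = w j := by
    unfold comb
    rw [Finset.sum_eq_single j]
    · simp
    · intro i _ hi
      rw [Pi.single_eq_of_ne hi, zero_smul]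
    · intro hn
      exact absurd (Finset.mem_univ j) hn
  rw [← h1, h]
  unfold comb
  simp only [Pi.add_apply, Pi.smul_apply, smul_eq_mul, Finset.smul_sum, smul_smul,
    ← Finset.sum_add_distrib, add_smul]

/-- a unimodular transform of a generic triple is generic -/
private theorem uni_ind {m m' n : Fin 3 → ℤ} (ht : Uni m m' n) (w : Fin 3 → Pt E2 κ)
    (hw : AlgebraicIndependent k fun j => xc (w j)) :
    AlgebraicIndependent k ![xc (comb m w), xc (comb m' w), xc (comb n w)] := by
  refine Cl_ind hw _ fun j => ?_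
  set s : Set κ := Set.range ![xc (comb m w), xc (comb m' w), xc (comb n w)] with hs
  have h1 : cs (comb m w) ⊆ Cl k s := Cl_yc _ (sub_Cl s ⟨0, rfl⟩)
  have h2 : cs (comb m' w) ⊆ Cl k s := Cl_yc _ (sub_Cl s ⟨1, rfl⟩)
  have h3 : cs (comb n w) ⊆ Cl k s := Cl_yc _ (sub_Cl s ⟨2, rfl⟩)
  obtain ⟨a, b, c, h⟩ := comb_uni ht w j
  have h4 : cs (w j) ⊆ Cl k s := by
    rw [h]
    exact cs_add_sub 0 1 _ _ _ (cs_add_sub 0 1 _ _ _ (cs_smul_sub 0 1 _ _ _ h1)
      (cs_smul_sub 0 1 _ _ _ h2)) (cs_smul_sub 0 1 _ _ _ h3)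
  exact h4 (Or.inl rfl)

/-- transcendence over the algebraic closure of `k(P, P')` -/
private theorem tr_acl {P P' Q : Pt E2 κ} (h : AlgebraicIndependent k ![xc P, xc P', xc Q])
    (K0 : Subfield κ) (hK0 : K0 ≤ (IntermediateField.adjoin k (cs P ∪ cs P')).toSubfield) :
    Transcendental (acl K0) (xc Q) := by
  intro hQ
  set s : Set κ := {xc P, xc P'} with hs
  have h1 : cs P ⊆ Cl k s := Cl_yc _ (sub_Cl s (Or.inl rfl))
  have h2 : cs P' ⊆ Cl k s := Cl_yc _ (sub_Cl s (Or.inr rfl))
  have h3 : IntermediateField.adjoin k (cs P ∪ cs P') ≤ Cl k s :=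
    IntermediateField.adjoin_le_iff.2 (Set.union_subset h1 h2)
  have h4 : K0 ≤ (Cl k s).toSubfield := fun x hx => h3 (hK0 hx)
  have h5 : acl K0 ≤ (Cl k s).toSubfield := by
    intro x hx
    have hx' : IsAlgebraic K0 x := mem_algebraicClosure_iff.1 hx
    exact Cl_alg' h4 hx'
  have h6 : xc Q ∈ Cl k s := Cl_alg' h5 hQ
  have h7 := Cl_card (s := s) h (by
    intro i
    fin_cases i
    · exact sub_Cl s (Or.inl rfl)
    · exact sub_Cl s (Or.inr rfl)
    · exact h6)
  have h8 := h7.trans ((AlgebraicIndependent.matroid k κ).eRk_le_encard s)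
  have h9 : s.encard ≤ 2 := by
    rw [hs]
    refine (Set.encard_insert_le _ _).trans ?_
    rw [Set.encard_singleton]
    norm_num
  have h10 := h8.trans h9
  norm_num at h10

end cl

/-! ### the statements -/

section ctx
variable {l : ℂ} {Z : SubVar l} (C : Ctx Z)

/-- `w` is generic over `ℂ` -/
private theorem ind_W : AlgebraicIndependent ℂ fun i => xc (C.W i) := by
  obtain ⟨s, hs⟩ := exists_isTranscendenceBasis ℂ Z.M
  have h1 := hs.cardinalMk_eq_trdeg
  rw [Z.dim3] at h1
  have h2 : Cardinal.mk (Fin 3) = Cardinal.mk s := by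
    rw [h1, Cardinal.mk_fin]
    norm_num
  obtain ⟨f⟩ := Cardinal.eq.1 h2
  have h3 : AlgebraicIndependent ℂ (fun i : Fin 3 => C.ι ((f i : s) : Z.M)) :=
    (hs.1.comp f f.injective).map' (f := C.ι) C.ι.injective
  refine Cl_ind h3 _ fun i => ?_
  set S : Set C.Λ := Set.range fun i => xc (C.W i) with hS
  have h4 : ∀ i, cs (C.W i) ⊆ Cl ℂ S := fun i => Cl_yc _ (sub_Cl S ⟨i, rfl⟩)
  refine Cl_alg' ?_ (C.hal _)
  rw [Subfield.closure_le]
  refine Set.union_subset ?_ (Set.iUnion_subset fun i => h4 i)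
  rintro _ ⟨c, rfl⟩
  exact IntermediateField.algebraMap_mem (Cl ℂ S) c

variable (m m' n : Fin 3 → ℤ) (ht : Uni m m' n)

include ht

theorem tr_K : Transcendental (C.Kb m m') (xc (comb n C.W)) := by
  refine tr_acl (uni_ind ht C.W (ind_W C)) (C.K0 m m') ?_
  unfold Ctx.K0
  rw [Subfield.closure_le]
  refine Set.union_subset ?_ (IntermediateField.subset_adjoin ℂ _)
  rintro _ ⟨c, rfl⟩
  exact IntermediateField.algebraMap_mem _ c

private theorem ind3_k :
    AlgebraicIndependent C.k ![xc (comb m C.wb), xc (comb m' C.wb), xc (comb n C.wb)] :=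
  uni_ind ht C.wb C.gen

theorem tr_k : Transcendental (C.kb m m') (xc (comb n C.wb)) := by
  refine tr_acl (ind3_k C m m' n ht) (C.k0 m m') ?_
  unfold Ctx.k0
  rw [Subfield.closure_le]
  refine Set.union_subset ?_ (IntermediateField.subset_adjoin C.k _)
  intro c hc
  exact IntermediateField.algebraMap_mem _ (⟨c, hc⟩ : C.k)

/-- the points `m·w̄`, `m'·w̄` are independent -/
theorem ind_k : AlgebraicIndependent C.k ![xc (comb m C.wb), xc (comb m' C.wb)] := by
  have h := (ind3_k C m m' n ht).comp (Fin.castSucc : Fin 2 → Fin 3) (Fin.castSucc_injective 2)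
  have e : (![xc (comb m C.wb), xc (comb m' C.wb), xc (comb n C.wb)] : Fin 3 → C.w0.κ) ∘
      (Fin.castSucc : Fin 2 → Fin 3) = ![xc (comb m C.wb), xc (comb m' C.wb)] := by
    funext i
    fin_cases i <;> rfl
  rwa [e] at h

theorem int_n : xc (comb n C.W) ∈ C.w0.ring := by
  by_contra h
  have h1 := C.hred.inf _ h
  have h2 : C.red (comb n C.W) = comb n C.wb := by
    unfold comb
    rw [map_sum]
    refine Finset.sum_congr rfl fun i _ => ?_
    rw [map_zsmul]
    rfl
  have h3 := tr_k C m m' n ht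
  rw [← h2, h1] at h3
  exact h3 isAlgebraic_zero

end ctx

end Pool.Agent.VM.XD0cp
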