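import Pool.Agent.Lib_VM.StubsC_h85
import Pool.Agent.Lib_VM.C1core_h75
import Pool.Agent.Lib_VM.A_Ctx_tr_k

/-!
# MP_5582d1_ag, XD0d: residue fields (helper75)
-/

set_option autoImplicit false

namespace Pool.Agent.VM.XD0dp

open scoped Classical
open Polynomial

attribute [-instance] Subtype.instDecidableEq

section gauss

variable {Λ : Type} [Field Λ] (w : QV Λ) (K : Subfield Λ) (k : Subfield w.κ)

theorem res_sum {ι : Type} (s : Finset ι) (f : ι → Λ) (hf : ∀ i ∈ s, f i ∈ w.ring) :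
    ∑ i ∈ s, f i ∈ w.ring ∧ w.res (∑ i ∈ s, f i) = ∑ i ∈ s, w.res (f i) := by
  induction s using Finset.induction_on with
  | empty => simp [w.res_zero]
  | insert a s ha ih =>
    obtain ⟨h1, h2⟩ := ih (fun i hi => hf i (Finset.mem_insert_of_mem hi))
    have h3 := hf a (Finset.mem_insert_self a s)
    rw [Finset.sum_insert ha, Finset.sum_insert ha]
    exact ⟨add_mem h3 h1, by rw [w.res_add h3 h1, h2]⟩

theorem res_pow {x : Λ} (hx : x ∈ w.ring) (n : ℕ) : w.res (x ^ n) = w.res x ^ n := by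
  induction n with
  | zero => rw [pow_zero, pow_zero, w.res_one]
  | succ n ih => rw [pow_succ, pow_succ, w.res_mul (pow_mem hx n) hx, ih]

/-- reduction of polynomials -/
theorem redp (hk : resF w K ≤ k) (A : K[X]) (hA : ∀ i, ((A.coeff i : K) : Λ) ∈ w.ring) (x : Λ)
    (hx : x ∈ w.ring) : ∃ Ab : k[X], (∀ i, ((Ab.coeff i : k) : w.κ) = w.res (A.coeff i : K)) ∧
      aeval x A ∈ w.ring ∧ aeval (w.res x) Ab = w.res (aeval x A) := by
  have hmem : ∀ i, w.res ((A.coeff i : K) : Λ) ∈ k := fun i =>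
    hk ⟨_, (A.coeff i).2, hA i, rfl⟩
  have e1 : aeval x A = ∑ i ∈ Finset.range (A.natDegree + 1), ((A.coeff i : K) : Λ) * x ^ i := by
    rw [aeval_eq_sum_range]; rfl
  have hterm : ∀ i, ((A.coeff i : K) : Λ) * x ^ i ∈ w.ring := fun i =>
    mul_mem (hA i) (pow_mem hx i)
  refine ⟨∑ i ∈ Finset.range (A.natDegree + 1), monomial i ⟨_, hmem i⟩, ?_, ?_, ?_⟩
  · intro i
    rw [finsetSum_coeff]
    simp only [coeff_monomial]
    rw [Finset.sum_ite_eq']
    by_cases hi : i ∈ Finset.range (A.natDegree + 1)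
    · rw [if_pos hi]
    · rw [if_neg hi]
      rw [Finset.mem_range, not_lt] at hi
      rw [coeff_eq_zero_of_natDegree_lt (by omega)]
      simp [w.res_zero]
  · rw [e1]; exact (res_sum w _ _ fun i _ => hterm i).1
  · rw [e1, (res_sum w _ _ fun i _ => hterm i).2, map_sum]
    refine Finset.sum_congr rfl fun i _ => ?_
    rw [aeval_monomial, w.res_mul (hA i) (pow_mem hx i), res_pow w hx]
    rfl

/-- normalisation of a pair of polynomials -/
theorem norm2 (A B : K[X]) (h : A ≠ 0 ∨ B ≠ 0) : ∃ c : K, c ≠ 0 ∧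
    (∀ i, (((C c⁻¹ * A).coeff i : K) : Λ) ∈ w.ring) ∧
    (∀ i, (((C c⁻¹ * B).coeff i : K) : Λ) ∈ w.ring) ∧
    ((∃ i, (C c⁻¹ * A).coeff i = 1) ∨ ∃ i, (C c⁻¹ * B).coeff i = 1) := by
  set S : Finset K := A.support.image A.coeff ∪ B.support.image B.coeff with hS
  have hne : S.Nonempty := by
    rcases h with h | h
    · obtain ⟨i, hi⟩ := Polynomial.support_nonempty.2 h
      exact ⟨_, Finset.mem_union_left _ (Finset.mem_image_of_mem _ hi)⟩
    · obtain ⟨i, hi⟩ := Polynomial.support_nonempty.2 h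
      exact ⟨_, Finset.mem_union_right _ (Finset.mem_image_of_mem _ hi)⟩
  obtain ⟨c, hc, hmin⟩ := S.exists_min_image (fun a : K => w.v (a : Λ)) hne
  have hS0 : ∀ a ∈ S, a ≠ 0 := by
    intro a ha
    rw [hS, Finset.mem_union, Finset.mem_image, Finset.mem_image] at ha
    rcases ha with ⟨i, hi, rfl⟩ | ⟨i, hi, rfl⟩
    · exact mem_support_iff.1 hi
    · exact mem_support_iff.1 hi
  have hc0 : c ≠ 0 := hS0 c hc
  have hcΛ : (c : Λ) ≠ 0 := by simpa using hc0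
  have hint : ∀ a : K, (a = 0 ∨ a ∈ S) → ((c⁻¹ * a : K) : Λ) ∈ w.ring := by
    rintro a (rfl | ha)
    · rw [mul_zero]; exact w.ring.zero_mem
    · have haΛ : (a : Λ) ≠ 0 := by simpa using hS0 a ha
      have e : ((c⁻¹ * a : K) : Λ) = (c : Λ)⁻¹ * a := by push_cast; rfl
      rw [e, w.mem_ring_of (mul_ne_zero (inv_ne_zero hcΛ) haΛ), w.mul (inv_ne_zero hcΛ) haΛ,
        w.inv hcΛ]
      have := hmin a ha
      linarith
  refine ⟨c, hc0, fun i => ?_, fun i => ?_, ?_⟩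
  · rw [coeff_C_mul]
    apply hint
    by_cases hi : i ∈ A.support
    · exact Or.inr (Finset.mem_union_left _ (Finset.mem_image_of_mem _ hi))
    · exact Or.inl (notMem_support_iff.1 hi)
  · rw [coeff_C_mul]
    apply hint
    by_cases hi : i ∈ B.support
    · exact Or.inr (Finset.mem_union_right _ (Finset.mem_image_of_mem _ hi))
    · exact Or.inl (notMem_support_iff.1 hi)
  · rw [hS, Finset.mem_union, Finset.mem_image, Finset.mem_image] at hc
    rcases hc with ⟨i, hi, hic⟩ | ⟨i, hi, hic⟩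
    · left
      exact ⟨i, by rw [coeff_C_mul, hic, inv_mul_cancel₀ hc0]⟩
    · right
      exact ⟨i, by rw [coeff_C_mul, hic, inv_mul_cancel₀ hc0]⟩

/-- Gauss: `A(x) + B(x) y` -/
theorem gauss (hk : resF w K ≤ k) {x y : Λ} (hx : x ∈ w.ring) (hy : y ∈ w.ring)
    (hyy : w.res y ^ 2 = w.res x ^ 3 + 1) (htr : Transcendental k (w.res x)) (A B : K[X])
    (h : A ≠ 0 ∨ B ≠ 0) : ∃ c : K, c ≠ 0 ∧
      (c : Λ)⁻¹ * (aeval x A + aeval x B * y) ∈ w.ring ∧
      w.res ((c : Λ)⁻¹ * (aeval x A + aeval x B * y)) ≠ 0 ∧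
      ∃ A' B' : k[X], w.res ((c : Λ)⁻¹ * (aeval x A + aeval x B * y)) =
        aeval (w.res x) A' + aeval (w.res x) B' * w.res y := by
  obtain ⟨c, hc0, hA, hB, h1⟩ := norm2 w K A B h
  obtain ⟨Ab, hAb, hAr, hAe⟩ := redp w K k hk _ hA x hx
  obtain ⟨Bb, hBb, hBr, hBe⟩ := redp w K k hk _ hB x hx
  have e1 : (c : Λ)⁻¹ * (aeval x A + aeval x B * y) =
      aeval x (C c⁻¹ * A) + aeval x (C c⁻¹ * B) * y := by
    rw [map_mul, map_mul, aeval_C]
    have : algebraMap K Λ c⁻¹ = (c : Λ)⁻¹ := by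
      rw [map_inv₀]; rfl
    rw [this]; ring
  have hne : Ab ≠ 0 ∨ Bb ≠ 0 := by
    rcases h1 with ⟨i, hi⟩ | ⟨i, hi⟩
    · left
      intro h0
      have := hAb i
      rw [hi, h0, coeff_zero] at this
      have h2 : w.res ((1 : K) : Λ) = 1 := w.res_one
      rw [h2] at this
      exact zero_ne_one this
    · right
      intro h0
      have := hBb i
      rw [hi, h0, coeff_zero] at this
      have h2 : w.res ((1 : K) : Λ) = 1 := w.res_one
      rw [h2] at this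
      exact zero_ne_one this
  have e2 : w.res ((c : Λ)⁻¹ * (aeval x A + aeval x B * y)) =
      aeval (w.res x) Ab + aeval (w.res x) Bb * w.res y := by
    rw [e1, w.res_add hAr (mul_mem hBr hy), w.res_mul hBr hy, hAe, hBe]
  refine ⟨c, hc0, ?_, ?_, Ab, Bb, e2⟩
  · rw [e1]; exact add_mem hAr (mul_mem hBr hy)
  · rw [e2]; exact (c1_nz k htr hyy Ab Bb hne).1

theorem y_int {x y : Λ} (hx : x ∈ w.ring) (h : y ^ 2 = x ^ 3 + 1) : y ∈ w.ring := by
  by_cases hy : y = 0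
  · rw [hy]; exact w.ring.zero_mem
  have h1 : y ^ 2 ∈ w.ring := by rw [h]; exact add_mem (pow_mem hx 3) w.ring.one_mem
  rw [w.mem_ring_of (pow_ne_zero 2 hy), w.pow hy] at h1
  rw [w.mem_ring_of hy]
  push_cast at h1
  linarith

/-- one step: residues of `K(e)` lie in `k(ē)` -/
theorem step (hk : resF w K ≤ k) (e : Pt E2 Λ) (eb : Pt E2 w.κ) (he0 : e ≠ 0)
    (hxi : xc e ∈ w.ring) (hx : xc eb = w.res (xc e)) (hy : yc eb = w.res (yc e))
    (htr : Transcendental k (xc eb)) : resF w (fe K e) ≤ fe k eb := by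
  have hy2 := c1_sq he0
  have hyi := y_int w hxi hy2
  have hyy : w.res (yc e) ^ 2 = w.res (xc e) ^ 3 + 1 := by
    rw [← res_pow w hyi, hy2, w.res_add (pow_mem hxi 3) w.ring.one_mem, res_pow w hxi, w.res_one]
  rw [hx] at htr
  -- `xc e` is transcendental
  have htrK : Transcendental K (xc e) := by
    rw [transcendental_iff]
    intro p hp
    by_contra hp0
    obtain ⟨c, hc0, h1, h2, -⟩ := gauss w K k hk hxi hyi hyy htr p 0 (Or.inl hp0)
    rw [hp, map_zero, zero_mul, add_zero, mul_zero, w.res_zero] at h2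
    exact h2 rfl
  have hcoe : ∀ P Q : k[X], aeval (w.res (xc e)) P + aeval (w.res (xc e)) Q * w.res (yc e) ∈
      fe k eb := by
    intro P Q
    have hxm : w.res (xc e) ∈ fe k eb := hx ▸ c1_xmem k eb
    have hym : w.res (yc e) ∈ fe k eb := hy ▸ c1_ymem k eb
    have hp : ∀ P : k[X], aeval (w.res (xc e)) P ∈ fe k eb := by
      intro P
      rw [aeval_eq_sum_range]
      refine sum_mem fun i _ => ?_
      have : (P.coeff i) • w.res (xc e) ^ i = ((P.coeff i : k) : w.κ) * w.res (xc e) ^ i := rfl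
      rw [this]
      exact mul_mem (c1_Kb_le k eb (P.coeff i).2) (pow_mem hxm i)
    exact add_mem (hp P) (mul_mem (hp Q) hym)
  rintro _ ⟨H, hH, hHi, rfl⟩
  by_cases hH0 : H = 0
  · rw [hH0, w.res_zero]; exact zero_mem _
  obtain ⟨A, B, D, hD, h⟩ := c1_nf K e htrK H hH
  have hinj := transcendental_iff.1 htrK
  have hDx : aeval (xc e) D ≠ 0 := fun h0 => hD (hinj _ h0)
  have hAB : A ≠ 0 ∨ B ≠ 0 := by
    by_contra hc
    push Not at hc
    rw [hc.1, hc.2, map_zero, zero_mul, add_zero] at h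
    rcases mul_eq_zero.1 h with h1 | h1
    · exact hH0 h1
    · exact hDx h1
  obtain ⟨c, hc0, h1, h2, A', B', h3⟩ := gauss w K k hk hxi hyi hyy htr A B hAB
  obtain ⟨d, hd0, h4, h5, D', E', h6⟩ := gauss w K k hk hxi hyi hyy htr D 0 (Or.inl hD)
  have hcΛ : (c : Λ) ≠ 0 := by simpa using hc0
  have hdΛ : (d : Λ) ≠ 0 := by simpa using hd0
  rw [map_zero, zero_mul, add_zero] at h4 h5 h6
  -- the constant `q = c / d`
  have e1 : H * ((d : Λ)⁻¹ * aeval (xc e) D) =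
      ((c : Λ) / d) * ((c : Λ)⁻¹ * (aeval (xc e) A + aeval (xc e) B * yc e)) := by
    rw [← h]; field_simp
  have hv0 : ∀ a : Λ, a ∈ w.ring → w.res a ≠ 0 → a ≠ 0 ∧ w.v a = 0 := by
    intro a ha hr
    rw [Ne, w.res_eq_zero_iff ha, not_or] at hr
    exact ⟨hr.1, le_antisymm (not_lt.1 hr.2) ((w.mem_ring_of hr.1).1 ha)⟩
  obtain ⟨h7, h8⟩ := hv0 _ h1 h2
  obtain ⟨h9, h10⟩ := hv0 _ h4 h5
  have hq0 : (c : Λ) / d ≠ 0 := div_ne_zero hcΛ hdΛ
  have hq : (c : Λ) / d ∈ w.ring := by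
    rw [w.mem_ring_of hq0]
    have e2 := congrArg w.v e1
    rw [w.mul hH0 h9, w.mul hq0 h7, h8, h10, add_zero, add_zero] at e2
    rw [← e2]
    exact (w.mem_ring_of hH0).1 hHi
  have e3 := congrArg w.res e1
  rw [w.res_mul hHi h4, w.res_mul hq h1] at e3
  have hqk : w.res ((c : Λ) / d) ∈ fe k eb :=
    c1_Kb_le k eb (hk ⟨(c : Λ) / d, div_mem c.2 d.2, hq, rfl⟩)
  have e4 : w.res H = w.res ((c : Λ) / d) *
      w.res ((c : Λ)⁻¹ * (aeval (xc e) A + aeval (xc e) B * yc e)) /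
      w.res ((d : Λ)⁻¹ * aeval (xc e) D) := by
    rw [eq_div_iff h5]; exact e3
  rw [e4]
  refine div_mem (mul_mem hqk ?_) ?_
  · rw [h3]; exact hcoe _ _
  · rw [h6]; exact hcoe _ _

end gauss

theorem tr_mono {κ : Type} [Field κ] {S S' : Subfield κ} (h : S ≤ S') {x : κ}
    (hx : Transcendental S' x) : Transcendental S x := by
  rw [transcendental_iff] at hx ⊢
  intro p hp
  have h1 := hx (p.map (Subfield.inclusion h)) (by
    rw [aeval_def, eval₂_map]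
    exact hp)
  rwa [Polynomial.map_eq_zero] at h1

section ctx

open Ctx

variable {l : ℂ} {Z : SubVar l} (C : Ctx Z)

theorem comb_e {R : Type} [CommRing R] {W : WeierstrassCurve R} {F : Type} [Field F] [Algebra R F]
    (P : Fin 3 → Pt W F) (j : Fin 3) : comb (Pi.single j 1) P = P j := by
  unfold comb
  rw [Finset.sum_eq_single j]
  · rw [Pi.single_eq_same, one_smul]
  · intro i _ hij
    rw [Pi.single_eq_of_ne hij, zero_smul]
  · intro h; exact absurd (Finset.mem_univ j) h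

theorem uni_e (i j k : Fin 3) (h : ∀ a : Fin 3, a = i ∨ a = j ∨ a = k) (h1 : i ≠ j) (h2 : i ≠ k)
    (h3 : j ≠ k) : Uni (Pi.single i 1) (Pi.single j 1) (Pi.single k 1) := by
  intro x
  refine ⟨x i, x j, x k, ?_⟩
  funext a
  rcases h a with rfl | rfl | rfl
  · simp [h1, h2]
  · simp [h3, h1.symm]
  · simp [h2.symm, h3.symm]

theorem tr_wb (i j k : Fin 3) (h : ∀ a : Fin 3, a = i ∨ a = j ∨ a = k) (h1 : i ≠ j) (h2 : i ≠ k)
    (h3 : j ≠ k) : Transcendental (fe (fe C.k (C.wb i)) (C.wb j)) (xc (C.wb k)) := by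
  have ht := C.tr_k _ _ _ (uni_e i j k h h1 h2 h3)
  rw [comb_e] at ht
  refine tr_mono ?_ ht
  have hsub : C.k0 (Pi.single i 1) (Pi.single j 1) ≤ C.kb (Pi.single i 1) (Pi.single j 1) := by
    intro y hy
    have : IsAlgebraic (C.k0 (Pi.single i 1) (Pi.single j 1)) y :=
      isAlgebraic_algebraMap (⟨y, hy⟩ : C.k0 (Pi.single i 1) (Pi.single j 1))
    exact mem_algebraicClosure_iff.2 this
  refine le_trans ?_ hsub
  have hk : C.k ≤ C.k0 (Pi.single i 1) (Pi.single j 1) := fun y hy =>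
    Subfield.subset_closure (Or.inl hy)
  have hi : ∀ y ∈ cs (C.wb i), y ∈ C.k0 (Pi.single i 1) (Pi.single j 1) := fun y hy =>
    Subfield.subset_closure (Or.inr (Or.inl (by rw [comb_e]; exact hy)))
  have hj : ∀ y ∈ cs (C.wb j), y ∈ C.k0 (Pi.single i 1) (Pi.single j 1) := fun y hy =>
    Subfield.subset_closure (Or.inr (Or.inr (by rw [comb_e]; exact hy)))
  exact (c1_fe_le _).2 ⟨(c1_fe_le _).2 ⟨hk, hi _ (Or.inl rfl), hi _ (Or.inr rfl)⟩,
    hj _ (Or.inl rfl), hj _ (Or.inr rfl)⟩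

theorem wb_spec (i : Fin 3) : C.W i ≠ 0 ∧ xc (C.W i) ∈ C.w0.ring ∧
    xc (C.wb i) = C.w0.res (xc (C.W i)) ∧ yc (C.wb i) = C.w0.res (yc (C.W i)) := by
  have h0 : C.W i ≠ 0 := by
    intro h
    have h1 := C.gen.ne_zero i
    apply h1
    have : mp (W := E2) C.ι (Z.w i) = 0 := h
    change xc (C.red (mp (W := E2) C.ι (Z.w i))) = 0
    rw [this, map_zero]
    rfl
  have h1 := C.hred.fin (C.W i) h0 (C.wint i)
  exact ⟨h0, C.wint i, h1.2.1, h1.2.2⟩

theorem resL : resF C.w0 C.L ≤ C.F := by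
  have h3 : ∀ a : Fin 3, a = 0 ∨ a = 1 ∨ a = 2 := by decide
  have h3' : ∀ a : Fin 3, a = 1 ∨ a = 2 ∨ a = 0 := by decide
  have h3'' : ∀ a : Fin 3, a = 0 ∨ a = 2 ∨ a = 1 := by decide
  have t2 := tr_wb C 0 1 2 h3 (by decide) (by decide) (by decide)
  have t1 := tr_mono (c1_Kb_le (fe C.k (C.wb 0)) (C.wb 2))
    (tr_wb C 0 2 1 h3'' (by decide) (by decide) (by decide))
  have t0 := tr_mono ((c1_Kb_le C.k (C.wb 1)).trans (c1_Kb_le (fe C.k (C.wb 1)) (C.wb 2)))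
    (tr_wb C 1 2 0 h3' (by decide) (by decide) (by decide))
  obtain ⟨a0, b0, c0, d0⟩ := wb_spec C 0
  obtain ⟨a1, b1, c1, d1⟩ := wb_spec C 1
  obtain ⟨a2, b2, c2, d2⟩ := wb_spec C 2
  have s0 := step C.w0 (algebraMap ℂ C.Λ).fieldRange C.k le_rfl (C.W 0) (C.wb 0) a0 b0 c0 d0 t0
  have s1 := step C.w0 _ _ s0 (C.W 1) (C.wb 1) a1 b1 c1 d1 t1
  have s2 := step C.w0 _ _ s1 (C.W 2) (C.wb 2) a2 b2 c2 d2 t2
  have hL : C.L ≤ fe (fe (fe (algebraMap ℂ C.Λ).fieldRange (C.W 0)) (C.W 1)) (C.W 2) := by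
    unfold L
    rw [Subfield.closure_le, Set.union_subset_iff]
    have m0 := c1_Kb_le (algebraMap ℂ C.Λ).fieldRange (C.W 0)
    have m1 := c1_Kb_le (fe (algebraMap ℂ C.Λ).fieldRange (C.W 0)) (C.W 1)
    have m2 := c1_Kb_le (fe (fe (algebraMap ℂ C.Λ).fieldRange (C.W 0)) (C.W 1)) (C.W 2)
    refine ⟨fun x hx => m2 (m1 (m0 hx)), ?_⟩
    intro x hx
    obtain ⟨i, hi⟩ := Set.mem_iUnion.1 hx
    have hcs : ∀ (S : Subfield C.Λ) (e : Pt E2 C.Λ), ∀ x ∈ cs e, x ∈ fe S e := by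
      rintro S e x (rfl | hx)
      · exact c1_xmem S e
      · rw [Set.mem_singleton_iff] at hx
        rw [hx]; exact c1_ymem S e
    rcases h3 i with rfl | rfl | rfl
    · exact m2 (m1 (hcs _ _ x hi))
    · exact m2 (hcs _ _ x hi)
    · exact hcs _ _ x hi
  have hF : fe (fe (fe C.k (C.wb 0)) (C.wb 1)) (C.wb 2) ≤ C.F := by
    have hk : C.k ≤ C.F := fun y hy => Subfield.subset_closure (Or.inl hy)
    have hi : ∀ i, ∀ y ∈ cs (C.wb i), y ∈ C.F := fun i y hy =>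
      Subfield.subset_closure (Or.inr (Set.mem_iUnion.2 ⟨i, hy⟩))
    exact (c1_fe_le _).2 ⟨(c1_fe_le _).2 ⟨(c1_fe_le _).2 ⟨hk, hi 0 _ (Or.inl rfl),
      hi 0 _ (Or.inr rfl)⟩, hi 1 _ (Or.inl rfl), hi 1 _ (Or.inr rfl)⟩,
      hi 2 _ (Or.inl rfl), hi 2 _ (Or.inr rfl)⟩
  rintro _ ⟨x, hx, hx', rfl⟩
  exact hF (s2 ⟨x, hL hx, hx', rfl⟩)

/-- D0f -/
theorem res_F (x : C.Λ) (hx : x ∈ C.L) (hx' : x ∈ C.w0.ring) : C.w0.res x ∈ C.F :=
  resL C ⟨x, hx, hx', rfl⟩

theorem alg_F (x : C.w0.κ) : IsAlgebraic C.F x := by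
  obtain ⟨a, ha, rfl⟩ := C.w0.res_surj x
  obtain ⟨p, hp0, hp⟩ : IsAlgebraic C.L a := C.hal a
  obtain ⟨c, hc0, hA, -, h1⟩ := norm2 C.w0 C.L p 0 (Or.inl hp0)
  obtain ⟨Ab, hAb, -, hAe⟩ := redp C.w0 C.L C.F (resL C) _ hA a ha
  refine ⟨Ab, ?_, ?_⟩
  · rcases h1 with ⟨i, hi⟩ | ⟨i, hi⟩
    · intro h0
      have := hAb i
      rw [hi, h0, coeff_zero] at this
      have h2 : C.w0.res ((1 : C.L) : C.Λ) = 1 := C.w0.res_one
      rw [h2] at this
      exact zero_ne_one this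
    · simp at hi
  · rw [hAe, map_mul, hp, mul_zero, C.w0.res_zero]

end ctx

end Pool.Agent.VM.XD0dp
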