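import Pool.Agent.Lib_VM.StubsC_h85
import Pool.Agent.Lib_VM.A_Ctx_acK
import Pool.Agent.Lib_VM.A_Ctx_ind_k

/-! cites: ind_k, acK (StubsC) -/

set_option autoImplicit false
set_option linter.style.haveILetI false

namespace Pool.Agent.VM.XD0ep

open scoped Classical

attribute [-instance] Subtype.instDecidableEq

section gen

variable {Λ : Type} [Field Λ]

theorem mem_acl {K : Subfield Λ} {x : Λ} : x ∈ acl K ↔ IsAlgebraic K x := by
  unfold acl
  exact mem_algebraicClosure_iff

theorem alg_mono {K L : Subfield Λ} (h : K ≤ L) {x : Λ} (hx : IsAlgebraic K x) :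
    IsAlgebraic L x := by
  obtain ⟨p, h0, hp⟩ := hx
  refine ⟨p.map (Subfield.inclusion h),
    (Polynomial.map_ne_zero_iff (Subfield.inclusion h).injective).2 h0, ?_⟩
  rw [Polynomial.aeval_def, Polynomial.eval₂_map]
  exact hp

theorem acl_le {K L : Subfield Λ} (h : K ≤ acl L) : acl K ≤ acl L := by
  intro x hx
  rw [mem_acl] at hx ⊢
  have h1 := alg_mono h hx
  have h2 : IsAlgebraic (algebraicClosure L Λ) x := h1
  exact h2.restrictScalars L

theorem le_acl (K : Subfield Λ) : K ≤ acl K :=
  fun x hx => mem_acl.2 (isAlgebraic_algebraMap (⟨x, hx⟩ : K))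

variable (w : QV Λ)

theorem mem_resF {K : Subfield Λ} {y : w.κ} :
    y ∈ resF w K ↔ ∃ x ∈ K, x ∈ w.ring ∧ w.res x = y := Iff.rfl

theorem resF_mono {K L : Subfield Λ} (h : K ≤ L) : resF w K ≤ resF w L := by
  rintro y ⟨x, hx, hx', hy⟩
  exact ⟨x, h hx, hx', hy⟩

/-- the integral elements of a subfield -/
def AA (K : Subfield Λ) : Subring Λ := K.toSubring ⊓ w.ring.toSubring

/-- the residue map on it -/
noncomputable def rho (K : Subfield Λ) : AA w K →+* resF w K where
  toFun x := ⟨w.res x, ⟨x, x.2.1, x.2.2, rfl⟩⟩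
  map_one' := Subtype.ext w.res_one
  map_mul' x y := Subtype.ext (w.res_mul x.2.2 y.2.2)
  map_zero' := Subtype.ext w.res_zero
  map_add' x y := Subtype.ext (w.res_add x.2.2 y.2.2)

theorem rho_surj (K : Subfield Λ) : Function.Surjective (rho w K) := by
  rintro ⟨y, x, hx, hx', hy⟩
  exact ⟨⟨x, hx, hx'⟩, Subtype.ext hy⟩

/-- the residue map of the ring -/
noncomputable def rs : w.ring →+* w.κ := IsLocalRing.residue w.ring

theorem rs_apply (x : w.ring) : rs w x = w.res x := by
  rw [w.res_of_mem x.2]; rfl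

theorem resF_closed (K : Subfield Λ) [IsAlgClosed K] : IsAlgClosed (resF w K) := by
  apply IsAlgClosed.of_exists_root
  intro p hm hi
  have hl : p ∈ Polynomial.lifts (rho w K) := by
    rw [Polynomial.mem_lifts]
    exact Polynomial.map_surjective _ (rho_surj w K) p
  obtain ⟨q, hq, hd, hqm⟩ := Polynomial.lifts_and_natDegree_eq_and_monic hl hm
  let i : AA w K →+* K := Subring.inclusion (show AA w K ≤ K.toSubring from inf_le_left)
  let j : AA w K →+* w.ring :=
    Subring.inclusion (show AA w K ≤ w.ring.toSubring from inf_le_right)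
  have hp1 : p.natDegree ≠ 0 := (Irreducible.natDegree_pos hi).ne'
  have hdeg : (q.map i).degree ≠ 0 := by
    intro h
    apply hp1
    have h1 : (q.map i).natDegree = 0 := Polynomial.natDegree_eq_of_degree_eq_some h
    rw [hqm.natDegree_map] at h1
    rw [← hd]; exact h1
  obtain ⟨r, hr⟩ := IsAlgClosed.exists_root (q.map i) hdeg
  have hr1 : q.eval₂ i r = 0 := by
    rw [Polynomial.IsRoot.def, Polynomial.eval_map] at hr
    exact hr
  have hr2 : q.eval₂ (AA w K).subtype (r : Λ) = 0 := by
    have := congrArg K.subtype hr1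
    rw [Polynomial.hom_eval₂, map_zero] at this
    exact this
  have hint : (r : Λ) ∈ w.ring := by
    have h1 : IsIntegral w.ring (r : Λ) := by
      refine ⟨q.map j, hqm.map _, ?_⟩
      rw [Polynomial.eval₂_map]
      exact hr2
    obtain ⟨y, hy⟩ := (IsIntegrallyClosed.isIntegral_iff (R := w.ring) (K := Λ)).1 h1
    rw [← hy]; exact y.2
  have hrA : (r : Λ) ∈ AA w K := ⟨r.2, hint⟩
  refine ⟨rho w K ⟨r, hrA⟩, ?_⟩
  have h0 : q.eval ⟨r, hrA⟩ = 0 := by
    apply Subtype.ext
    have h1 := Polynomial.eval₂_at_apply (p := q) (AA w K).subtype ⟨r, hrA⟩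
    have h2 : (AA w K).subtype ⟨(r : Λ), hrA⟩ = (r : Λ) := rfl
    rw [h2, hr2] at h1
    exact h1.symm
  rw [← hq, Polynomial.eval_map, Polynomial.eval₂_at_apply, h0, map_zero]

theorem mem_of_closed (R : Subfield Λ) [IsAlgClosed R] {y : Λ} (h : IsAlgebraic R y) : y ∈ R := by
  have h1 : IsIntegral R y := h.isIntegral
  have h2 : (minpoly R y).degree = 1 :=
    IsAlgClosed.degree_eq_one_of_irreducible R (minpoly.irreducible h1)
  obtain ⟨z, hz⟩ := minpoly.mem_range_of_degree_eq_one R y h2
  rw [← hz]; exact z.2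

/-- independent residues come from independent elements -/
theorem lift_ind {ι : Type} (K : Subfield Λ) (x : ι → Λ) (hx : ∀ i, x i ∈ w.ring)
    (h : AlgebraicIndependent (resF w K) (fun i => w.res (x i))) : AlgebraicIndependent K x := by
  rw [algebraicIndependent_iff]
  intro p hp
  by_contra h0
  obtain ⟨s, hs, hmin⟩ := Finset.exists_min_image p.support
    (fun d => w.v ((p.coeff d : K) : Λ)) (MvPolynomial.support_nonempty.2 h0)
  have hc : p.coeff s ≠ 0 := MvPolynomial.mem_support_iff.1 hs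
  have hc' : ((p.coeff s : K) : Λ) ≠ 0 := fun h => hc (Subtype.ext h)
  have hin : ∀ d, (((p.coeff s)⁻¹ * p.coeff d : K) : Λ) ∈ AA w K := by
    intro d
    refine ⟨Subtype.prop _, ?_⟩
    by_cases hd : p.coeff d = 0
    · rw [hd, mul_zero]; exact w.ring.zero_mem
    · have hd' : ((p.coeff d : K) : Λ) ≠ 0 := fun h => hd (Subtype.ext h)
      have h1 := hmin d (MvPolynomial.mem_support_iff.2 hd)
      have h2 : (((p.coeff s)⁻¹ * p.coeff d : K) : Λ) = ((p.coeff s : K) : Λ)⁻¹ * (p.coeff d : K) :=
        rfl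
      change _ ∈ w.ring
      rw [h2, w.mem_ring_of (mul_ne_zero (inv_ne_zero hc') hd'), w.mul (inv_ne_zero hc') hd',
        w.inv hc']
      linarith
  let a : (ι →₀ ℕ) → AA w K := fun d => ⟨_, hin d⟩
  let Q : MvPolynomial ι (AA w K) := ∑ d ∈ p.support, MvPolynomial.monomial d (a d)
  let x' : ι → w.ring := fun i => ⟨x i, hx i⟩
  let j : AA w K →+* w.ring :=
    Subring.inclusion (show AA w K ≤ w.ring.toSubring from inf_le_right)
  have hQ1 : Q.eval₂ j x' = 0 := by
    apply Subtype.ext
    have e1 : ((Q.eval₂ j x' : w.ring) : Λ) = ∑ d ∈ p.support,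
        (((p.coeff s)⁻¹ * p.coeff d : K) : Λ) * d.prod (fun i k => x i ^ k) := by
      change w.ring.subtype (Q.eval₂ j x') = _
      rw [MvPolynomial.hom_eval₂]
      simp only [Q]
      rw [MvPolynomial.eval₂_sum]
      simp only [MvPolynomial.eval₂_monomial]
      rfl
    have e2 : ∑ d ∈ p.support,
        (((p.coeff s)⁻¹ * p.coeff d : K) : Λ) * d.prod (fun i k => x i ^ k) =
        ((p.coeff s : K) : Λ)⁻¹ * MvPolynomial.aeval x p := by
      rw [MvPolynomial.aeval_def, MvPolynomial.eval₂_eq, Finset.mul_sum]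
      refine Finset.sum_congr rfl fun d _ => ?_
      rw [← mul_assoc]
      rfl
    rw [e1, e2, hp, mul_zero]; rfl
  have hQ2 : Q.eval₂ ((rs w).comp j) (fun i => w.res (x i)) = 0 := by
    have h1 := congrArg (rs w) hQ1
    rw [MvPolynomial.hom_eval₂, map_zero] at h1
    have h2 : (fun i => w.res (x i)) = (rs w) ∘ x' := by
      funext i; exact (rs_apply w (x' i)).symm
    rw [h2]; exact h1
  have hQ3 : MvPolynomial.aeval (fun i => w.res (x i)) (MvPolynomial.map (rho w K) Q) = 0 := by
    rw [MvPolynomial.aeval_def, MvPolynomial.eval₂_map]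
    rw [← hQ2]
    congr 1
    ext z
    exact (rs_apply w (j z)).symm
  have hQ4 := (algebraicIndependent_iff.1 h) _ hQ3
  have h5 := congrArg (MvPolynomial.coeff s) hQ4
  rw [MvPolynomial.coeff_map, MvPolynomial.coeff_zero] at h5
  have h6 : Q.coeff s = a s := by
    simp only [Q]
    rw [MvPolynomial.coeff_sum, Finset.sum_eq_single s]
    · rw [MvPolynomial.coeff_monomial, if_pos rfl]
    · intro b _ hb
      rw [MvPolynomial.coeff_monomial, if_neg hb]
    · intro hn; exact absurd hs hn
  have h7 : a s = 1 := by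
    apply Subtype.ext
    change (((p.coeff s)⁻¹ * p.coeff s : K) : Λ) = 1
    rw [inv_mul_cancel₀ hc]; rfl
  rw [h6, h7, map_one] at h5
  exact one_ne_zero h5

theorem alg_of_sub {S : Subring Λ} {K : Subfield Λ} (h : ∀ z ∈ S, z ∈ K) {x : Λ}
    (hx : IsAlgebraic S x) : IsAlgebraic K x := by
  obtain ⟨p, h0, hp⟩ := hx
  let i : S →+* K := Subring.inclusion (show S ≤ K.toSubring from h)
  have hi : Function.Injective i := Subring.inclusion_injective _
  refine ⟨p.map i, (Polynomial.map_ne_zero_iff hi).2 h0, ?_⟩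
  rw [Polynomial.aeval_def, Polynomial.eval₂_map]
  exact hp

theorem sq_eq (P : Pt E2 Λ) (h : P ≠ 0) : yc P ^ 2 = xc P ^ 3 + 1 := by
  cases P with
  | zero => exact absurd rfl h
  | some x y hxy =>
    have h1 := hxy.1
    rw [WeierstrassCurve.Affine.equation_iff] at h1
    simp only [E2, SW, WeierstrassCurve.baseChange, WeierstrassCurve.map, map_zero, map_one] at h1
    simp only [xc, yc]
    linear_combination h1

theorem yc_acl (P : Pt E2 Λ) (K : Subfield Λ) (h : xc P ∈ K) : yc P ∈ acl K := by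
  by_cases h0 : P = 0
  · rw [h0]
    have : yc (0 : Pt E2 Λ) = 0 := rfl
    rw [this]; exact (acl K).zero_mem
  · rw [mem_acl]
    let x0 : K := ⟨xc P, h⟩
    refine ⟨Polynomial.X ^ 2 - Polynomial.C (x0 ^ 3 + 1),
      (Polynomial.monic_X_pow_sub_C _ (by norm_num)).ne_zero, ?_⟩
    rw [map_sub, map_pow, Polynomial.aeval_X, Polynomial.aeval_C]
    have := sq_eq P h0
    rw [this]
    change xc P ^ 3 + 1 - (xc P ^ 3 + 1) = 0
    ring

end gen

section ctx

variable {l : ℂ} {Z : SubVar l} (C : Ctx Z) (m m' n : Fin 3 → ℤ)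

theorem comb_red (m : Fin 3 → ℤ) : C.red (comb m C.W) = comb m C.wb := by
  unfold comb
  rw [map_sum]
  simp only [map_zsmul]
  rfl

theorem cs_zero_sub {Λ : Type} [Field Λ] (K : Subfield Λ) : cs (0 : Pt E2 Λ) ⊆ (K : Set Λ) := by
  rintro z (hz | hz)
  · rw [hz]; exact K.zero_mem
  · rw [Set.mem_singleton_iff] at hz; rw [hz]; exact K.zero_mem

theorem cs_res (P : Pt E2 C.Λ) (K : Subfield C.Λ) (hP : cs P ⊆ (K : Set C.Λ)) :
    cs (C.red P) ⊆ (resF C.w0 K : Set C.w0.κ) := by
  by_cases h0 : P = 0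
  · rw [h0, map_zero]; exact cs_zero_sub _
  by_cases h1 : xc P ∈ C.w0.ring
  · obtain ⟨_, h2, h3⟩ := C.hred.fin P h0 h1
    rintro z (hz | hz)
    · rw [hz, h2]; exact ⟨xc P, hP (Or.inl rfl), h1, rfl⟩
    · rw [Set.mem_singleton_iff] at hz
      rw [hz, h3]
      by_cases h4 : yc P ∈ C.w0.ring
      · exact ⟨yc P, hP (Or.inr rfl), h4, rfl⟩
      · have : C.w0.res (yc P) = 0 := by rw [QV.res, dif_neg h4]
        rw [this]; exact (resF C.w0 K).zero_mem
  · rw [C.hred.inf P h1]; exact cs_zero_sub _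

theorem range_le_K0 : (algebraMap ℂ C.Λ).fieldRange ≤ C.K0 m m' := by
  rintro z ⟨c, rfl⟩
  exact Subfield.subset_closure (Or.inl ⟨c, rfl⟩)

theorem k0_le : C.k0 m m' ≤ resF C.w0 (C.K0 m m') := by
  unfold Ctx.k0
  rw [Subfield.closure_le]
  rintro z (hz | hz | hz)
  · exact resF_mono _ (range_le_K0 C m m') hz
  · rw [← comb_red] at hz
    exact cs_res C _ _ (fun t ht => Subfield.subset_closure (Or.inr (Or.inl ht))) hz
  · rw [← comb_red] at hz
    exact cs_res C _ _ (fun t ht => Subfield.subset_closure (Or.inr (Or.inr ht))) hz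

theorem xc_red (P : Pt E2 C.Λ) (h : xc (C.red P) ≠ 0) :
    xc P ∈ C.w0.ring ∧ xc (C.red P) = C.w0.res (xc P) := by
  have h0 : P ≠ 0 := by
    rintro rfl
    apply h
    rw [map_zero]; rfl
  have h1 : xc P ∈ C.w0.ring := by
    by_contra h1
    apply h
    rw [C.hred.inf P h1]; rfl
  exact ⟨h1, (C.hred.fin P h0 h1).2.1⟩

theorem kb_iff (ht : Uni m m' n) (y : C.w0.κ) :
    y ∈ C.kb m m' ↔ ∃ x ∈ C.Kb m m', x ∈ C.w0.ring ∧ C.w0.res x = y := by
  constructor
  · intro hy
    haveI := C.acK m m'
    haveI := resF_closed C.w0 (C.Kb m m')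
    have h1 : IsAlgebraic (C.k0 m m') y := mem_acl.1 hy
    exact mem_of_closed (resF C.w0 (C.Kb m m'))
      (alg_mono ((k0_le C m m').trans (resF_mono _ (le_acl _))) h1)
  · rintro ⟨x, hx, hx', rfl⟩
    by_contra hy
    have hi := C.ind_k m m' n ht
    have hy1 : ¬ IsAlgebraic (C.k0 m m') (C.w0.res x) := fun h => hy (mem_acl.2 h)
    -- residues
    have hT : Transcendental (Algebra.adjoin C.k (Set.range ![xc (comb m C.wb), xc (comb m' C.wb)]))
        (C.w0.res x) := by
      intro h
      apply hy1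
      refine alg_of_sub (S := (Algebra.adjoin C.k
        (Set.range ![xc (comb m C.wb), xc (comb m' C.wb)])).toSubring) ?_ h
      intro z hz
      have hz' : z ∈ Algebra.adjoin C.k (Set.range ![xc (comb m C.wb), xc (comb m' C.wb)]) := hz
      induction hz' using Algebra.adjoin_induction with
      | mem t ht =>
        obtain ⟨i, rfl⟩ := ht
        fin_cases i
        · exact Subfield.subset_closure (Or.inr (Or.inl (Or.inl rfl)))
        · exact Subfield.subset_closure (Or.inr (Or.inr (Or.inl rfl)))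
      | algebraMap r => exact Subfield.subset_closure (Or.inl r.2)
      | add a b ha hb iha ihb => exact (C.k0 m m').add_mem (iha ha) (ihb hb)
      | mul a b ha hb iha ihb => exact (C.k0 m m').mul_mem (iha ha) (ihb hb)
    have hI := (hi.option_iff_transcendental (C.w0.res x)).2 hT
    have h1 := xc_red C (comb m C.W) (by
      rw [comb_red]
      exact hi.ne_zero 0)
    have h2 := xc_red C (comb m' C.W) (by
      rw [comb_red]
      exact hi.ne_zero 1)
    rw [comb_red] at h1 h2
    have hv : (fun o : Option (Fin 2) => o.elim (C.w0.res x) ![xc (comb m C.wb), xc (comb m' C.wb)]) =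
        fun o => C.w0.res (o.elim x ![xc (comb m C.W), xc (comb m' C.W)]) := by
      funext o
      cases o with
      | none => rfl
      | some i =>
        fin_cases i
        · exact h1.2
        · exact h2.2
    rw [hv] at hI
    have hJ := lift_ind C.w0 (algebraMap ℂ C.Λ).fieldRange
      (fun o : Option (Fin 2) => o.elim x ![xc (comb m C.W), xc (comb m' C.W)]) (by
        intro o
        cases o with
        | none => exact hx'
        | some i =>
          fin_cases i
          · exact h1.1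
          · exact h2.1) hI
    have hJ1 : AlgebraicIndependent (algebraMap ℂ C.Λ).fieldRange
        ![xc (comb m C.W), xc (comb m' C.W)] := hJ.comp some (Option.some_injective _)
    have hJ2 := (hJ1.option_iff_transcendental x).1 hJ
    apply hJ2
    let E := IntermediateField.adjoin (algebraMap ℂ C.Λ).fieldRange
      (Set.range ![xc (comb m C.W), xc (comb m' C.W)])
    have hE1 : xc (comb m C.W) ∈ E.toSubfield := IntermediateField.subset_adjoin _ _ ⟨0, rfl⟩
    have hE2 : xc (comb m' C.W) ∈ E.toSubfield := IntermediateField.subset_adjoin _ _ ⟨1, rfl⟩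
    have hK0 : C.K0 m m' ≤ acl E.toSubfield := by
      unfold Ctx.K0
      rw [Subfield.closure_le]
      rintro z (⟨c, rfl⟩ | hz | hz)
      · exact le_acl _ (E.algebraMap_mem ⟨algebraMap ℂ C.Λ c, c, rfl⟩)
      · rcases hz with hz | hz
        · rw [hz]; exact le_acl _ hE1
        · rw [Set.mem_singleton_iff] at hz
          rw [hz]; exact yc_acl _ _ hE1
      · rcases hz with hz | hz
        · rw [hz]; exact le_acl _ hE2
        · rw [Set.mem_singleton_iff] at hz
          rw [hz]; exact yc_acl _ _ hE2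
    have h3 : IsAlgebraic E x := mem_acl.1 (acl_le hK0 hx)
    open scoped IntermediateField.algebraAdjoinAdjoin in
    exact h3.restrictScalars (Algebra.adjoin (algebraMap ℂ C.Λ).fieldRange
      (Set.range ![xc (comb m C.W), xc (comb m' C.W)]))

end ctx

end Pool.Agent.VM.XD0ep

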