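import Pool.Agent.Lib_VM.StubsA_h85
import Pool.Agent.Lib_helper15.VM.III
import Pool.Agent.Lib_VM.StubsC_h85
import Pool.Agent.Lib_VM.A_ABS2
import Pool.Agent.Lib_VM.A_CP
import Pool.Agent.Lib_VM.A_Ctx_alg_L
import Pool.Agent.Lib_VM.A_Ctx_res_F
import Pool.Agent.Lib_VM.A_RKV

/-!
# MP_5582d1_ag, block XD2a

Cites StubsC: ABS2, CP, RKV, Ctx.res_F, Ctx.alg_L.
-/

set_option autoImplicit false

namespace Pool.Agent.VM.XD2ap

open scoped Classical

attribute [-instance] Subtype.instDecidableEq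

private theorem xcmp {R K F N : Type*} [CommRing R] [Field K] {W : WeierstrassCurve R} [Algebra R K]
    [Field F] [Field N] [Algebra R F] [Algebra R N] [Algebra K F]
    [Algebra K N] [IsScalarTower R K F] [IsScalarTower R K N] (f : F →ₐ[K] N) (Q : Pt W F) :
    xc (mp f Q) = f (xc Q) := by
  cases Q with
  | zero => exact (map_zero f).symm
  | some x y h => rfl

private theorem ycmp {R K F N : Type*} [CommRing R] [Field K] {W : WeierstrassCurve R} [Algebra R K]
    [Field F] [Field N] [Algebra R F] [Algebra R N] [Algebra K F]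
    [Algebra K N] [IsScalarTower R K F] [IsScalarTower R K N] (f : F →ₐ[K] N) (Q : Pt W F) :
    yc (mp f Q) = f (yc Q) := by
  cases Q with
  | zero => exact (map_zero f).symm
  | some x y h => rfl

private theorem csmp {R K F N : Type*} [CommRing R] [Field K] {W : WeierstrassCurve R} [Algebra R K]
    [Field F] [Field N] [Algebra R F] [Algebra R N] [Algebra K F]
    [Algebra K N] [IsScalarTower R K F] [IsScalarTower R K N] (f : F →ₐ[K] N) (Q : Pt W F) :
    cs (mp f Q) = f '' cs Q := by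
  unfold cs
  rw [xcmp, ycmp, Set.image_insert_eq, Set.image_singleton]

private theorem mp_eq_mp {R K F N : Type*} [CommRing R] [Field K] {W : WeierstrassCurve R} [Algebra R K]
    [Field F] [Field N] [Algebra R F] [Algebra R N] [Algebra K F]
    [Algebra K N] [IsScalarTower R K F] [IsScalarTower R K N] (f g : F →ₐ[K] N) (Q : Pt W F)
    (hx : f (xc Q) = g (xc Q)) (hy : f (yc Q) = g (yc Q)) : mp f Q = mp g Q := by
  cases Q with
  | zero => rfl
  | some x y h =>
    have hx' : f x = g x := hx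
    have hy' : f y = g y := hy
    show WeierstrassCurve.Affine.Point.map f _ = WeierstrassCurve.Affine.Point.map g _
    rw [WeierstrassCurve.Affine.Point.map_some, WeierstrassCurve.Affine.Point.map_some]
    congr 1

/-- the coefficients of the characteristic polynomial over `ℂ(w)` -/
private theorem coeff_L {l : ℂ} {Z : SubVar l} (C : Ctx Z) (θ : Z.M) (i : ℕ) :
    (∏ τ ∈ C.T, (Polynomial.X - Polynomial.C (τ θ))).coeff i ∈ C.L := by
  set L' : Subfield Z.M :=
    Subfield.closure (Set.range (algebraMap ℂ Z.M) ∪ ⋃ i, cs (Z.w i)) with hL'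
  have hL : L'.map (C.ι : Z.M →+* C.Λ) = C.L := by
    rw [hL', RingHom.map_field_closure, Set.image_union, Set.image_iUnion]
    unfold Ctx.L Ctx.W
    congr 2
    · rw [← Set.range_comp]
      congr 1
      funext c
      exact C.ι.commutes c
    · congr 1
      funext i
      rw [csmp]
      rfl
  have hinj : Set.InjOn (fun τ : Z.M →ₐ[ℂ] C.Λ => (τ : Z.M →+* C.Λ)) C.T := by
    intro τ _ τ' _ h
    ext x
    exact RingHom.congr_fun h x
  have hT' : ∀ σ : Z.M →+* C.Λ, σ ∈ C.T.image (fun τ : Z.M →ₐ[ℂ] C.Λ => (τ : Z.M →+* C.Λ)) ↔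
      ∀ x ∈ L', σ x = (C.ι : Z.M →+* C.Λ) x := by
    intro σ
    rw [Finset.mem_image]
    constructor
    · rintro ⟨τ, hτ, rfl⟩
      rw [C.hT] at hτ
      have hle : L' ≤ (τ : Z.M →+* C.Λ).eqLocusField (C.ι : Z.M →+* C.Λ) := by
        rw [hL', Subfield.closure_le]
        rintro x (⟨c, rfl⟩ | hx)
        · show τ (algebraMap ℂ Z.M c) = C.ι (algebraMap ℂ Z.M c)
          rw [τ.commutes, C.ι.commutes]
        · rw [Set.mem_iUnion] at hx
          obtain ⟨i, hx⟩ := hx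
          have h1 := hτ i
          show τ x = C.ι x
          rcases hx with rfl | hx
          · rw [← xcmp (W := E2) τ, ← xcmp (W := E2) C.ι, h1]
          · rw [Set.mem_singleton_iff] at hx
            rw [hx, ← ycmp (W := E2) τ, ← ycmp (W := E2) C.ι, h1]
      exact fun x hx => hle hx
    · intro hσ
      have hcm : ∀ c : ℂ, σ (algebraMap ℂ Z.M c) = algebraMap ℂ C.Λ c := by
        intro c
        rw [hσ _ (Subfield.subset_closure (Or.inl ⟨c, rfl⟩))]
        exact C.ι.commutes c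
      let τ : Z.M →ₐ[ℂ] C.Λ := { σ with commutes' := hcm }
      refine ⟨τ, (C.hT τ).2 fun i => ?_, rfl⟩
      refine mp_eq_mp τ C.ι (Z.w i) ?_ ?_
      · exact hσ _ (Subfield.subset_closure (Or.inr (Set.mem_iUnion.2 ⟨i, Or.inl rfl⟩)))
      · exact hσ _ (Subfield.subset_closure (Or.inr (Set.mem_iUnion.2 ⟨i, Or.inr rfl⟩)))
  have key := CP (C.ι : Z.M →+* C.Λ) L' C.L hL (fun x => C.alg_L x) _ hT' θ i
  rw [Finset.prod_image hinj] at key
  exact key

theorem D2a {l : ℂ} {Z : SubVar l} (C : Ctx Z) (ν ν' : QV C.w0.κ)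
    (hν : ∀ y ∈ C.k, y ≠ 0 → ν.v y = 0) (hν' : ∀ y ∈ C.k, y ≠ 0 → ν'.v y = 0)
    (h : C.Dof ν = C.Dof ν') (P : Pt (E1 l) Z.M) : C.TT ν P = C.TT ν' P := by
  obtain ⟨N, q, j, hj, hR⟩ := ABS2 C.w0 C.T (fun τ : Z.M →ₐ[ℂ] C.Λ => τ (xc P))
  set cf : Fin N → C.Λ :=
    fun i => (∏ τ ∈ C.T, (Polynomial.X - Polynomial.C (τ (xc P)))).coeff (j i) with hcf
  have hcL : ∀ i, cf i ∈ C.L := fun i => coeff_L C (xc P) (j i)
  have hcf0 : ∀ i, cf i ≠ 0 := hj
  choose d hd0 hdv using fun i => C.val (cf i) (hcf0 i)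
  have hda : ∀ i, algebraMap ℂ C.Λ (d i) ≠ 0 := fun i =>
    (map_ne_zero (algebraMap ℂ C.Λ)).2 (hd0 i)
  have hq0 : ∀ i, cf i / algebraMap ℂ C.Λ (d i) ≠ 0 := fun i => div_ne_zero (hcf0 i) (hda i)
  have hqv : ∀ i, C.w0.v (cf i / algebraMap ℂ C.Λ (d i)) = 0 := fun i => by
    rw [C.w0.div (hcf0 i) (hda i), C.ext, hdv, sub_self]
  have hqr : ∀ i, cf i / algebraMap ℂ C.Λ (d i) ∈ C.w0.ring := fun i => Or.inr (hqv i).ge
  have hqL : ∀ i, cf i / algebraMap ℂ C.Λ (d i) ∈ C.L := fun i =>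
    div_mem (hcL i) (Subfield.subset_closure (Or.inl ⟨d i, rfl⟩))
  set hr : Fin N → C.w0.κ := fun i => C.w0.res (cf i / algebraMap ℂ C.Λ (d i)) with hh
  have hF : ∀ i, hr i ∈ C.F := fun i => C.res_F _ (hqL i) (hqr i)
  have h0 : ∀ i, hr i ≠ 0 := fun i h1 => by
    rcases (C.w0.res_eq_zero_iff (hqr i)).1 h1 with h2 | h2
    · exact hq0 i h2
    · rw [hqv i] at h2; exact lt_irrefl _ h2
  have key : ∀ μ : QV C.w0.κ, (∀ y ∈ C.k, y ≠ 0 → μ.v y = 0) →
      C.TT μ P = ∑ i, q i * C.Dof μ (hr i) := by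
    intro μ hμ
    have hex := RKV C _ hμ
    have hrk : C.IsRk μ (C.rk μ) := by
      unfold Ctx.rk
      rw [dif_pos hex]
      exact hex.choose_spec
    have h1 := hR (C.rk μ) hrk.1
    have h2 : C.TT μ P = ∑ τ ∈ C.T, (if τ (xc P) = 0 then 0 else
        (max 0 (min ((C.rk μ).v (τ (xc P))) (1 / 2)) - 1 / 2) * (C.rk μ).o (τ (xc P))) := by
      unfold Ctx.TT Tf
      refine Finset.sum_congr rfl fun τ _ => ?_
      rw [xcmp]
    rw [h2, h1]
    refine Finset.sum_congr rfl fun i _ => ?_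
    rw [hrk.2 (cf i) (hcf0 i) (d i) (hd0 i) (hdv i)]
    have h3 : C.Dof μ (hr i) = μ.v (hr i) := if_pos ⟨hF i, h0 i⟩
    rw [h3]
  rw [key ν hν, key ν' hν', h]

end Pool.Agent.VM.XD2ap
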