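import Pool.Agent.Lib_VM.StubsA_h85
import Pool.Agent.Lib_helper15.VM.III
import Pool.Agent.Lib_VM.StubsC_h85
import Pool.Agent.Lib_VM.A_ABS2
import Pool.Agent.Lib_VM.A_CP
import Pool.Agent.Lib_VM.A_Ctx_ack
import Pool.Agent.Lib_VM.A_Ctx_alg_L
import Pool.Agent.Lib_VM.A_Ctx_fe_k0
import Pool.Agent.Lib_VM.A_Ctx_nu_spec
import Pool.Agent.Lib_VM.A_Ctx_res_F
import Pool.Agent.Lib_VM.A_Ctx_tr_k
import Pool.Agent.Lib_VM.A_RKV

/-!
# MP_5582d1_ag, block XD2b

Cites StubsC: ABS2, CP, RKV, Ctx.nu_spec, Ctx.tr_k, Ctx.ack, Ctx.res_F, Ctx.fe_k0, Ctx.alg_L; StubsB: C1S, C1F.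
-/

set_option autoImplicit false

namespace Pool.Agent.VM.XD2bp

open scoped Classical

attribute [-instance] Subtype.instDecidableEq

private theorem xcmp {R K F N : Type*} [CommRing R] [Field K] {W : WeierstrassCurve R} [Algebra R K]
    [Field F] [Field N] [Algebra R F] [Algebra R N] [Algebra K F]
    [Algebra K N] [IsScalarTower R K F] [IsScalarTower R K N] (f : F →ₐ[K] N) (Q : Pt W F) :
    xc (mp f Q) = f (xc Q) := by
  cases Q with
  | zero => exact (map_zero f).symm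
  | some x y h => rfl

private theorem ycmp {R K F N : Type*} [CommRing R] [Field K] {W : WeierstrassCurve R} [Algebra R K]
    [Field F] [Field N] [Algebra R F] [Algebra R N] [Algebra K F]
    [Algebra K N] [IsScalarTower R K F] [IsScalarTower R K N] (f : F →ₐ[K] N) (Q : Pt W F) :
    yc (mp f Q) = f (yc Q) := by
  cases Q with
  | zero => exact (map_zero f).symm
  | some x y h => rfl

private theorem csmp {R K F N : Type*} [CommRing R] [Field K] {W : WeierstrassCurve R} [Algebra R K]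
    [Field F] [Field N] [Algebra R F] [Algebra R N] [Algebra K F]
    [Algebra K N] [IsScalarTower R K F] [IsScalarTower R K N] (f : F →ₐ[K] N) (Q : Pt W F) :
    cs (mp f Q) = f '' cs Q := by
  unfold cs
  rw [xcmp, ycmp, Set.image_insert_eq, Set.image_singleton]

private theorem mp_eq_mp {R K F N : Type*} [CommRing R] [Field K] {W : WeierstrassCurve R} [Algebra R K]
    [Field F] [Field N] [Algebra R F] [Algebra R N] [Algebra K F]
    [Algebra K N] [IsScalarTower R K F] [IsScalarTower R K N] (f g : F →ₐ[K] N) (Q : Pt W F)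
    (hx : f (xc Q) = g (xc Q)) (hy : f (yc Q) = g (yc Q)) : mp f Q = mp g Q := by
  cases Q with
  | zero => rfl
  | some x y h =>
    have hx' : f x = g x := hx
    have hy' : f y = g y := hy
    show WeierstrassCurve.Affine.Point.map f _ = WeierstrassCurve.Affine.Point.map g _
    rw [WeierstrassCurve.Affine.Point.map_some, WeierstrassCurve.Affine.Point.map_some]
    congr 1

/-- the coefficients of the characteristic polynomial over `ℂ(w)` -/
private theorem coeff_L {l : ℂ} {Z : SubVar l} (C : Ctx Z) (θ : Z.M) (i : ℕ) :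
    (∏ τ ∈ C.T, (Polynomial.X - Polynomial.C (τ θ))).coeff i ∈ C.L := by
  set L' : Subfield Z.M :=
    Subfield.closure (Set.range (algebraMap ℂ Z.M) ∪ ⋃ i, cs (Z.w i)) with hL'
  have hL : L'.map (C.ι : Z.M →+* C.Λ) = C.L := by
    rw [hL', RingHom.map_field_closure, Set.image_union, Set.image_iUnion]
    unfold Ctx.L Ctx.W
    congr 2
    · rw [← Set.range_comp]
      congr 1
      funext c
      exact C.ι.commutes c
    · congr 1
      funext i
      rw [csmp]
      rfl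
  have hinj : Set.InjOn (fun τ : Z.M →ₐ[ℂ] C.Λ => (τ : Z.M →+* C.Λ)) C.T := by
    intro τ _ τ' _ h
    ext x
    exact RingHom.congr_fun h x
  have hT' : ∀ σ : Z.M →+* C.Λ, σ ∈ C.T.image (fun τ : Z.M →ₐ[ℂ] C.Λ => (τ : Z.M →+* C.Λ)) ↔
      ∀ x ∈ L', σ x = (C.ι : Z.M →+* C.Λ) x := by
    intro σ
    rw [Finset.mem_image]
    constructor
    · rintro ⟨τ, hτ, rfl⟩
      rw [C.hT] at hτ
      have hle : L' ≤ (τ : Z.M →+* C.Λ).eqLocusField (C.ι : Z.M →+* C.Λ) := by
        rw [hL', Subfield.closure_le]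
        rintro x (⟨c, rfl⟩ | hx)
        · show τ (algebraMap ℂ Z.M c) = C.ι (algebraMap ℂ Z.M c)
          rw [τ.commutes, C.ι.commutes]
        · rw [Set.mem_iUnion] at hx
          obtain ⟨i, hx⟩ := hx
          have h1 := hτ i
          show τ x = C.ι x
          rcases hx with rfl | hx
          · rw [← xcmp (W := E2) τ, ← xcmp (W := E2) C.ι, h1]
          · rw [Set.mem_singleton_iff] at hx
            rw [hx, ← ycmp (W := E2) τ, ← ycmp (W := E2) C.ι, h1]
      exact fun x hx => hle hx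
    · intro hσ
      have hcm : ∀ c : ℂ, σ (algebraMap ℂ Z.M c) = algebraMap ℂ C.Λ c := by
        intro c
        rw [hσ _ (Subfield.subset_closure (Or.inl ⟨c, rfl⟩))]
        exact C.ι.commutes c
      let τ : Z.M →ₐ[ℂ] C.Λ := { σ with commutes' := hcm }
      refine ⟨τ, (C.hT τ).2 fun i => ?_, rfl⟩
      refine mp_eq_mp τ C.ι (Z.w i) ?_ ?_
      · exact hσ _ (Subfield.subset_closure (Or.inr (Set.mem_iUnion.2 ⟨i, Or.inl rfl⟩)))
      · exact hσ _ (Subfield.subset_closure (Or.inr (Set.mem_iUnion.2 ⟨i, Or.inr rfl⟩)))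
  have key := CP (C.ι : Z.M →+* C.Λ) L' C.L hL (fun x => C.alg_L x) _ hT' θ i
  rw [Finset.prod_image hinj] at key
  exact key

private theorem le_acl {Λ : Type} [Field Λ] (K : Subfield Λ) : K ≤ acl K := by
  intro x hx
  show x ∈ algebraicClosure K Λ
  rw [mem_algebraicClosure_iff]
  exact isAlgebraic_algebraMap (⟨x, hx⟩ : K)

private theorem k_le_kb {l : ℂ} {Z : SubVar l} (C : Ctx Z) (m m' : Fin 3 → ℤ) : C.k ≤ C.kb m m' := by
  refine le_trans ?_ (le_acl (C.k0 m m'))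
  intro x hx
  exact Subfield.subset_closure (Or.inl hx)

private theorem F_le {l : ℂ} {Z : SubVar l} (C : Ctx Z) (m m' n : Fin 3 → ℤ) (ht : Uni m m' n) :
    C.F ≤ fe (C.kb m m') (comb n C.wb) := by
  rw [← C.fe_k0 m m' n ht]
  unfold fe
  exact Subfield.closure_mono (Set.union_subset_union_left _ (le_acl (C.k0 m m')))

theorem D2b {l : ℂ} {Z : SubVar l} (C : Ctx Z) (m m' n : Fin 3 → ℤ) (ht : Uni m m' n)
    (P : Pt (E1 l) Z.M) : {β | C.TT (C.nu m m' n β) P ≠ 0}.Finite ∧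
    ∑ᶠ β, C.TT (C.nu m m' n β) P = 0 := by
  obtain ⟨N, q, j, hj, hR⟩ := ABS2 C.w0 C.T (fun τ : Z.M →ₐ[ℂ] C.Λ => τ (xc P))
  set cf : Fin N → C.Λ :=
    fun i => (∏ τ ∈ C.T, (Polynomial.X - Polynomial.C (τ (xc P)))).coeff (j i) with hcf
  have hcL : ∀ i, cf i ∈ C.L := fun i => coeff_L C (xc P) (j i)
  have hcf0 : ∀ i, cf i ≠ 0 := hj
  choose d hd0 hdv using fun i => C.val (cf i) (hcf0 i)
  have hda : ∀ i, algebraMap ℂ C.Λ (d i) ≠ 0 := fun i =>
    (map_ne_zero (algebraMap ℂ C.Λ)).2 (hd0 i)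
  have hq0 : ∀ i, cf i / algebraMap ℂ C.Λ (d i) ≠ 0 := fun i => div_ne_zero (hcf0 i) (hda i)
  have hqv : ∀ i, C.w0.v (cf i / algebraMap ℂ C.Λ (d i)) = 0 := fun i => by
    rw [C.w0.div (hcf0 i) (hda i), C.ext, hdv, sub_self]
  have hqr : ∀ i, cf i / algebraMap ℂ C.Λ (d i) ∈ C.w0.ring := fun i => Or.inr (hqv i).ge
  have hqL : ∀ i, cf i / algebraMap ℂ C.Λ (d i) ∈ C.L := fun i =>
    div_mem (hcL i) (Subfield.subset_closure (Or.inl ⟨d i, rfl⟩))
  set h : Fin N → C.w0.κ := fun i => C.w0.res (cf i / algebraMap ℂ C.Λ (d i)) with hh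
  have hF : ∀ i, h i ∈ C.F := fun i => C.res_F _ (hqL i) (hqr i)
  have h0 : ∀ i, h i ≠ 0 := fun i h1 => by
    rcases (C.w0.res_eq_zero_iff (hqr i)).1 h1 with h2 | h2
    · exact hq0 i h2
    · rw [hqv i] at h2; exact lt_irrefl _ h2
  have hfe : ∀ i, h i ∈ fe (C.kb m m') (comb n C.wb) := fun i => F_le C m m' n ht (hF i)
  have key : ∀ β, C.TT (C.nu m m' n β) P = ∑ i, q i * (C.nu m m' n β).v (h i) := by
    intro β
    have hν : ∀ y ∈ C.k, y ≠ 0 → (C.nu m m' n β).v y = 0 := fun y hy =>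
      (C.nu_spec m m' n ht β).triv y (k_le_kb C m m' hy)
    have hex := RKV C _ hν
    have hrk : C.IsRk (C.nu m m' n β) (C.rk (C.nu m m' n β)) := by
      unfold Ctx.rk
      rw [dif_pos hex]
      exact hex.choose_spec
    have h1 := hR (C.rk (C.nu m m' n β)) hrk.1
    have h2 : C.TT (C.nu m m' n β) P = ∑ τ ∈ C.T, (if τ (xc P) = 0 then 0 else
        (max 0 (min ((C.rk (C.nu m m' n β)).v (τ (xc P))) (1 / 2)) - 1 / 2) *
          (C.rk (C.nu m m' n β)).o (τ (xc P))) := by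
      unfold Ctx.TT Tf
      refine Finset.sum_congr rfl fun τ _ => ?_
      rw [xcmp]
    rw [h2, h1]
    refine Finset.sum_congr rfl fun i _ => ?_
    rw [hrk.2 (cf i) (hcf0 i) (d i) (hd0 i) (hdv i)]
  have := C.ack m m'
  have hfin : ∀ i, {β | (C.nu m m' n β).v (h i) ≠ 0}.Finite := fun i =>
    C1F (C.kb m m') (comb n C.wb) (C.tr_k m m' n ht) (C.nu m m' n) (C.nu_spec m m' n ht) (h i)
      (hfe i) (h0 i)
  have hsum : ∀ i, ∑ᶠ β, (C.nu m m' n β).v (h i) = 0 := fun i =>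
    C1S (C.kb m m') (comb n C.wb) (C.tr_k m m' n ht) (C.nu m m' n) (C.nu_spec m m' n ht) (h i)
      (hfe i) (h0 i)
  have hsup : ∀ i, (Function.support fun β => q i * (C.nu m m' n β).v (h i)).Finite := fun i =>
    (hfin i).subset fun β hβ => by
      rw [Function.mem_support] at hβ
      exact right_ne_zero_of_mul hβ
  constructor
  · refine (Set.finite_iUnion hfin).subset fun β hβ => ?_
    rw [Set.mem_ofPred_eq, key β] at hβ
    obtain ⟨i, -, hi⟩ := Finset.exists_ne_zero_of_sum_ne_zero hβ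
    exact Set.mem_iUnion.2 ⟨i, right_ne_zero_of_mul hi⟩
  · simp_rw [key]
    rw [finsum_sum_comm Finset.univ _ fun i _ => hsup i]
    refine Finset.sum_eq_zero fun i _ => ?_
    rw [← mul_finsum, hsum i, mul_zero]

end Pool.Agent.VM.XD2bp
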