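import Pool.Agent.Lib_VM.D3c_h27
import Pool.Agent.Lib_VM.CtxL_h34
import Pool.Agent.Lib_VM.A_Ctx_U_spec
import Pool.Agent.Lib_VM.A_Ctx_acK
import Pool.Agent.Lib_VM.A_Ctx_fe_K0
import Pool.Agent.Lib_VM.A_Ctx_fe_k0
import Pool.Agent.Lib_VM.A_Ctx_ind_k
import Pool.Agent.Lib_VM.A_Ctx_kb_iff
import Pool.Agent.Lib_VM.A_Ctx_nu_spec
import Pool.Agent.Lib_VM.A_Ctx_res_F
import Pool.Agent.Lib_VM.A_Ctx_tr_K
import Pool.Agent.Lib_VM.A_Ctx_tr_k
import Pool.Agent.Lib_VM.A_SPEC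

/-!
# MP_5582d1_ag, D3: the local contributions depend only on the restriction of `ν` to `k(w̄)`

Cited stubs: those of D3a, D3b, D3c, CtxL, and `SPEC`, `tr_K`, `tr_k`, `ind_k`, `kb_iff`, `res_F`,
`U_spec`, `nu_spec`, `fe_K0`, `acK`.
-/

set_option autoImplicit false

namespace Pool.Agent.VM.XD3p

open scoped Classical
open Polynomial Pool.Agent.VM Pool.Agent.VM.D3p Pool.Agent.VM.CtxL

attribute [-instance] Subtype.instDecidableEq

noncomputable section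

lemma comb_lin {F : Type} [Field F] (a b c : ℤ) (m m' n : Fin 3 → ℤ) (p : Fin 3 → Pt E2 F) :
    comb (a • m + b • m' + c • n) p = a • comb m p + b • comb m' p + c • comb n p := by
  unfold comb
  rw [Finset.smul_sum, Finset.smul_sum, Finset.smul_sum, ← Finset.sum_add_distrib,
    ← Finset.sum_add_distrib]
  apply Finset.sum_congr rfl
  intro i _
  simp only [Pi.add_apply, Pi.smul_apply, smul_eq_mul, add_smul, mul_smul]

/-! ### pure lemmas -/

lemma fs_zero {α : Type} (p : α → Prop) (d : ∀ a, Decidable (p a)) (f : α → ℚ)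
    (hf : {a | f a ≠ 0}.Finite)
    (hn : ∀ a, p a → 0 ≤ f a) (h0 : 0 = ∑ᶠ a, if p a then f a else 0) (a : α) (ha : p a) :
    f a = 0 := by
  have hnn : ∀ a, 0 ≤ (fun a => if p a then f a else 0) a := by
    intro a
    show 0 ≤ if p a then f a else 0
    split_ifs with ha
    · exact hn a ha
    · exact le_refl _
  have h3 := single_le_finsum (f := fun a => if p a then f a else 0) a
    (hf.subset (by
      intro a ha hz
      apply ha
      show (if _ then _ else _) = (0 : ℚ)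
      rw [hz, ite_self])) hnn
  have h4 := hnn a
  rw [← h0] at h3
  simp only [if_pos ha] at h3 h4
  exact le_antisymm h3 h4

lemma fs_le {α : Type} (p : α → Prop) (d d' : ∀ a, Decidable (p a)) (f g : α → ℚ)
    (hf : {a | f a ≠ 0}.Finite) (hg : {a | g a ≠ 0}.Finite) (hn : ∀ a, p a → f a ≤ g a) :
    (∑ᶠ a, @ite ℚ (p a) (d a) (f a) 0) ≤ ∑ᶠ a, @ite ℚ (p a) (d' a) (g a) 0 := by
  have hd : d = d' := by funext a; exact Subsingleton.elim _ _
  subst hd
  have hs : ∀ k : α → ℚ, {a | k a ≠ 0}.Finite →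
      (Function.support (fun a => if p a then k a else 0)) ⊆ {a | k a ≠ 0} := by
    intro k _ a ha hz
    apply ha
    show (if _ then _ else _) = (0 : ℚ)
    rw [hz, ite_self]
  have h1 : Function.support (fun a => if p a then f a else 0) ⊆ ((hf.union hg).toFinset : Set α) := by
    rw [Set.Finite.coe_toFinset]
    exact (hs f hf).trans Set.subset_union_left
  have h2 : Function.support (fun a => if p a then g a else 0) ⊆ ((hf.union hg).toFinset : Set α) := by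
    rw [Set.Finite.coe_toFinset]
    exact (hs g hg).trans Set.subset_union_right
  rw [finsum_eq_sum_of_support_subset _ h1, finsum_eq_sum_of_support_subset _ h2]
  apply Finset.sum_le_sum
  intro a _
  split_ifs with ha
  · exact hn a ha
  · exact le_refl _

lemma fs_eq {α : Type} (p : α → Prop) (d d' : ∀ a, Decidable (p a)) (f g : α → ℚ)
    (hn : ∀ a, p a → f a = g a) :
    (∑ᶠ a, @ite ℚ (p a) (d a) (f a) 0) = ∑ᶠ a, @ite ℚ (p a) (d' a) (g a) 0 := by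
  have hd : d = d' := by funext a; exact Subsingleton.elim _ _
  subst hd
  apply finsum_congr
  intro a
  split_ifs with ha
  · exact hn a ha
  · rfl

lemma exists_c' {Λ : Type} [Field Λ] [CharZero Λ] [IsAlgClosed Λ] (P0 : Subfield Λ) [IsAlgClosed P0]
    (w : QV Λ) [CharZero w.κ] (hw : ∀ n : ℕ, n ≠ 0 → w.v (n : Λ) = 0) (red : Pt E2 Λ →+ Pt E2 w.κ)
    (hred : IsRed w red) (b b1 q : Pt E2 w.κ) (r : ℤ) {α : Type} (S : Set α) (hS : S.Finite)
    (f : α → Pt E2 w.κ) :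
    ∃ c : Pt E2 Λ, (∀ x ∈ cs c, x ∈ P0) ∧ b ≠ -red c ∧ r • b1 + (q + red c) ≠ 0 ∧
      ∀ i ∈ S, f i ≠ -b - (2 : ℤ) • red c := by
  obtain ⟨c, h1, h2, h3⟩ := exists_c P0 w hw red hred
    ({-b} ∪ {-(r • b1 + q)} ∪ (fun a => -b - f a) '' S)
    (((Set.finite_singleton _).union (Set.finite_singleton _)).union (hS.image _))
  refine ⟨c, h1, ?_, ?_, ?_⟩
  · intro h
    apply h2
    left; left
    rw [Set.mem_singleton_iff, h, neg_neg]
  · intro h
    apply h2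
    left; right
    rw [Set.mem_singleton_iff]
    rw [← add_assoc] at h
    exact eq_neg_of_add_eq_zero_right h
  · intro i hi h
    apply h3
    right
    refine ⟨i, hi, ?_⟩
    show -b - f i = _
    rw [h]; abel

variable {l : ℂ} {Z : SubVar l} (C : Ctx Z)

/-- the conjugates of `xc P` -/
def ss (P : Pt (E1 l) Z.M) : Multiset C.Λ := C.T.val.map (fun τ => τ (xc P))

lemma ss_coeff (P : Pt (E1 l) Z.M) (j : ℕ) : (pl (ss C P)).coeff j ∈ C.L := by
  have h := coef_mem C (xc P) j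
  have e : pl (ss C P) = ∏ τ ∈ C.T, (X - Polynomial.C (τ (xc P))) := by
    rw [pl, ss, Multiset.map_map]; rfl
  rw [e]; exact h

lemma nn_eq (m m' n : Fin 3 → ℤ) (β : Pt E2 (C.kb m m')) (P : Pt (E1 l) Z.M) :
    2 * C.nn m m' n β P = ∑ᶠ a : Pt E2 (C.Kb m m'),
      if C.red (inc (C.Kb m m') a) = inc (C.kb m m') β then hh (C.U m m' n a) (ss C P) else 0 := by
  rw [Ctx.nn, ← smul_eq_mul, smul_finsum]
  apply finsum_congr
  intro a
  split_ifs
  · rw [hh, ss, Multiset.map_map, smul_eq_mul, Finset.mul_sum]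
    show _ = ∑ τ ∈ C.T, _
    apply Finset.sum_congr rfl
    intro τ _
    unfold lam
    rw [xc_mp']
    simp only [Function.comp]
    split_ifs
    · simp
    · ring
  · simp

/-- an integral combination of `w` is a multiple of `n·w` plus a point over `K̄` -/
lemma rep (m1 m1' n1 : Fin 3 → ℤ) (ht1 : Uni m1 m1' n1) (μ : Fin 3 → ℤ) :
    ∃ (r : ℤ) (Q : Pt E2 (C.Kb m1 m1')), comb μ C.W = r • comb n1 C.W + inc (C.Kb m1 m1') Q := by
  obtain ⟨a, b, r, h⟩ := ht1 μ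
  obtain ⟨p, hp⟩ := pt_of_mem (C.Kb m1 m1') (comb m1 C.W) (fun x hx => K0_le_Kb C m1 m1'
    (Subfield.subset_closure (Or.inr (Or.inl hx))))
  obtain ⟨p', hp'⟩ := pt_of_mem (C.Kb m1 m1') (comb m1' C.W) (fun x hx => K0_le_Kb C m1 m1'
    (Subfield.subset_closure (Or.inr (Or.inr hx))))
  refine ⟨r, a • p + b • p', ?_⟩
  rw [h, comb_lin, map_add, map_zsmul, map_zsmul, hp, hp']
  abel

/-- integrality at `U a` -/
lemma at_nz (m1 m1' n1 : Fin 3 → ℤ) (ht1 : Uni m1 m1' n1) (a1 Q : Pt E2 (C.Kb m1 m1')) (r : ℤ)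
    (p : Pt E2 C.Λ) (hp : p = r • comb n1 C.W + inc (C.Kb m1 m1') Q) (hne : r • a1 + Q ≠ 0) :
    xc p ∈ (C.U m1 m1' n1 a1).ring := by
  obtain ⟨red1, h1, h2, h3⟩ := SPEC (C.Kb m1 m1') (comb n1 C.W) (Ctx.tr_K C m1 m1' n1 ht1) a1
    (C.U m1 m1' n1 a1) (Ctx.U_spec C m1 m1' n1 ht1 a1)
  by_contra hcon
  have h4 := h1.inf p hcon
  apply hne
  apply h3
  rw [map_add, map_add, map_zsmul, map_zsmul, ← h2, ← h4, hp, map_add, map_zsmul]

lemma yc_ring {F : Type} [Field F] [CharZero F] (u : QV F) (p : Pt E2 F) (h : xc p ∈ u.ring) :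
    yc p ∈ u.ring := by
  by_cases hp : p = 0
  · rw [hp]; exact u.ring.zero_mem
  have h1 : yc p ^ 2 = xc p ^ 3 + 1 := kk_sq hp
  have h2 : yc p ^ 2 ∈ u.ring := by
    rw [h1]; exact add_mem (pow_mem h 3) u.ring.one_mem
  by_cases h0 : yc p = 0
  · rw [h0]; exact u.ring.zero_mem
  rw [u.mem_ring_of (pow_ne_zero 2 h0), u.pow h0] at h2
  rw [u.mem_ring_of h0]
  push_cast at h2
  linarith

lemma spec_zero {F : Type} [Field F] [CharZero F] [IsAlgClosed F] (kb : Subfield F) (e : Pt E2 F)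
    (he : Transcendental kb (xc e)) (β : Pt E2 kb) (ν : QV F) (hν : AtPt kb e β ν) (r : ℤ)
    (p q : Pt E2 F) (h5 : p = r • e + q) (h6 : r • inc kb β + q = 0) (hp : p ≠ 0)
    (h8 : xc p ∈ ν.ring) : False := by
  obtain ⟨red2, h1, h2, h3⟩ := SPEC kb e he β ν hν
  have h7 : red2 p = 0 := by
    rw [h5, eq_neg_of_add_eq_zero_right h6, map_add, map_neg, map_zsmul, map_zsmul, h2,
      add_neg_cancel]
  exact (h1.fin _ hp h8).1 h7

/-- the normalised residue -/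
lemma res_norm (x : C.Λ) (hx : x ∈ C.L) (h0 : x ≠ 0) (c : ℂ) (hc : c ≠ 0)
    (hv : C.v.v c = C.w0.v x) :
    C.w0.res (x / algebraMap ℂ C.Λ c) ∈ C.F ∧ C.w0.res (x / algebraMap ℂ C.Λ c) ≠ 0 ∧
      x / algebraMap ℂ C.Λ c ∈ C.w0.ring := by
  have hc' : algebraMap ℂ C.Λ c ≠ 0 := (_root_.map_ne_zero _).mpr hc
  have h1 : x / algebraMap ℂ C.Λ c ≠ 0 := div_ne_zero h0 hc'
  have h2 : C.w0.v (x / algebraMap ℂ C.Λ c) = 0 := by
    rw [C.w0.div h0 hc', C.ext, hv, sub_self]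
  have h3 : x / algebraMap ℂ C.Λ c ∈ C.w0.ring := Or.inr h2.ge
  refine ⟨Ctx.res_F C _ (div_mem hx (Subfield.subset_closure (Or.inl ⟨c, rfl⟩))) h3, ?_, h3⟩
  rw [ne_eq, C.w0.res_eq_zero_iff h3]
  rintro (h4 | h4)
  · exact h1 h4
  · rw [h2] at h4; exact lt_irrefl _ h4

section main

variable (m m' n : Fin 3 → ℤ) (ht : Uni m m' n) (m1 m1' n1 : Fin 3 → ℤ) (ht1 : Uni m1 m1' n1)
  (β : Pt E2 (C.kb m m')) (β1 : Pt E2 (C.kb m1 m1'))
  (h : C.Dof (C.nu m m' n β) = C.Dof (C.nu m1 m1' n1 β1))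

include h


lemma dof_eq (y : C.w0.κ) (hy : y ∈ C.F) (h0 : y ≠ 0) :
    (C.nu m m' n β).v y = (C.nu m1 m1' n1 β1).v y := by
  have h1 := congrFun h y
  simp only [Ctx.Dof] at h1
  rw [if_pos ⟨hy, h0⟩, if_pos ⟨hy, h0⟩] at h1
  exact h1

include ht ht1

/-- integrality of `μ·w` at `U a`, for `μ = m` or `m'` -/
lemma int_mu (μ : Fin 3 → ℤ) (hμ : comb μ C.wb ≠ 0) (hk : xc (comb μ C.wb) ∈ C.k0 m m')
    (hF : xc (comb μ C.wb) ∈ C.F) (a1 : Pt E2 (C.Kb m1 m1'))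
    (ha1 : C.red (inc (C.Kb m1 m1') a1) = inc (C.kb m1 m1') β1) :
    xc (comb μ C.W) ∈ (C.U m1 m1' n1 a1).ring := by
  obtain ⟨r, Q, hQ⟩ := rep C m1 m1' n1 ht1 μ
  apply at_nz C m1 m1' n1 ht1 a1 Q r _ hQ
  intro h0
  have h5 := congrArg C.red hQ
  rw [red_comb, map_add, map_zsmul, red_comb] at h5
  have h6 := congrArg (fun z => C.red (inc (C.Kb m1 m1') z)) h0
  simp only [map_add, map_zsmul, map_zero] at h6
  rw [ha1] at h6
  have h9 : xc (comb μ C.wb) = 0 ∨ 0 ≤ (C.nu m1 m1' n1 β1).v (xc (comb μ C.wb)) := by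
    by_cases hx : xc (comb μ C.wb) = 0
    · left; exact hx
    · right
      rw [← dof_eq C m m' n m1 m1' n1 β β1 h _ hF hx]
      exact ((Ctx.nu_spec C m m' n ht β).triv _ (k0_le_kb C m m' hk) hx).ge
  exact spec_zero (C.kb m1 m1') (comb n1 C.wb) (Ctx.tr_k C m1 m1' n1 ht1) β1
    (C.nu m1 m1' n1 β1) (Ctx.nu_spec C m1 m1' n1 ht1 β1) r _ _ h5 h6 hμ h9

omit ht1 h in
lemma K0_le_L : C.K0 m m' ≤ C.L := by
  rw [← Ctx.fe_K0 C m m' n ht]
  intro x hx
  exact Subfield.subset_closure (Or.inl hx)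

omit ht1 h in
lemma k0_le_F : C.k0 m m' ≤ C.F := by
  rw [← Ctx.fe_k0 C m m' n ht]
  intro x hx
  exact Subfield.subset_closure (Or.inl hx)

/-- triviality of `U a` on `K0 m m'` -/
lemma triv_U1 (a1 : Pt E2 (C.Kb m1 m1'))
    (ha1 : C.red (inc (C.Kb m1 m1') a1) = inc (C.kb m1 m1') β1) :
    ∀ x ∈ C.K0 m m', x ≠ 0 → (C.U m1 m1' n1 a1).v x = 0 := by
  set S : Set C.Λ := Set.range (algebraMap ℂ C.Λ) ∪ (cs (comb m C.W) ∪ cs (comb m' C.W)) with hS
  have hind := Ctx.ind_k C m m' n ht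
  have hnz : ∀ μ : Fin 3 → ℤ, xc (comb μ C.wb) ≠ 0 → comb μ C.wb ≠ 0 := by
    intro μ h0 h1
    apply h0
    rw [h1]; rfl
  have hm : comb m C.wb ≠ 0 := hnz m (hind.ne_zero 0)
  have hm' : comb m' C.wb ≠ 0 := hnz m' (hind.ne_zero 1)
  have hkm : xc (comb m C.wb) ∈ C.k0 m m' :=
    Subfield.subset_closure (Or.inr (Or.inl (Or.inl rfl)))
  have hkm' : xc (comb m' C.wb) ∈ C.k0 m m' :=
    Subfield.subset_closure (Or.inr (Or.inr (Or.inl rfl)))
  have hint : ∀ a : Pt E2 (C.Kb m1 m1'), C.red (inc (C.Kb m1 m1') a) = inc (C.kb m1 m1') β1 →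
      ∀ x ∈ Subring.closure S, x ∈ (C.U m1 m1' n1 a).ring := by
    intro a ha
    have h1 : Subring.closure S ≤ (C.U m1 m1' n1 a).ring.toSubring := by
      rw [Subring.closure_le]
      have k1 := int_mu C m m' n ht m1 m1' n1 ht1 β β1 h m hm hkm (k0_le_F C m m' n ht hkm) a ha
      have k2 := int_mu C m m' n ht m1 m1' n1 ht1 β β1 h m' hm' hkm' (k0_le_F C m m' n ht hkm') a ha
      rintro x (⟨c, rfl⟩ | ((hx | hx) | (hx | hx)))
      · show algebraMap ℂ C.Λ c ∈ (C.U m1 m1' n1 a).ring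
        by_cases hc : algebraMap ℂ C.Λ c = 0
        · exact Or.inl hc
        · exact Or.inr ((Ctx.U_spec C m1 m1' n1 ht1 a).triv _ (C_mem_Kb C m1 m1' c) hc).ge
      · rw [hx]; exact k1
      · rw [Set.mem_singleton_iff] at hx
        rw [hx]; exact yc_ring _ _ k1
      · rw [hx]; exact k2
      · rw [Set.mem_singleton_iff] at hx
        rw [hx]; exact yc_ring _ _ k2
    intro x hx
    exact h1 hx
  have hSK : ∀ x ∈ Subring.closure S, x ∈ C.K0 m m' := by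
    have h1 : Subring.closure S ≤ (C.K0 m m').toSubring := by
      rw [Subring.closure_le]
      exact Subfield.subset_closure
    intro x hx
    exact h1 hx
  have hzero : ∀ x ∈ Subring.closure S, x ≠ 0 → (C.U m1 m1' n1 a1).v x = 0 := by
    intro x hx h0
    obtain ⟨c, hc, hv⟩ := C.val x h0
    have hxL := K0_le_L C m m' n ht (hSK x hx)
    obtain ⟨r1, r2, r3⟩ := res_norm C x hxL h0 c hc hv
    have hk := KKc C m1 m1' n1 ht1 β1 x hxL h0 c hc hv
    rw [← dof_eq C m m' n m1 m1' n1 β β1 h _ r1 r2] at hk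
    rw [(Ctx.nu_spec C m m' n ht β).triv _ ((Ctx.kb_iff C m m' n ht _).mpr
      ⟨_, div_mem (K0_le_Kb C m m' (hSK x hx)) (C_mem_Kb C m m' c), r3, rfl⟩) r2] at hk
    have hfin := fin_H C m1 m1' n1 ht1 x hxL h0
    exact fs_zero (fun a => C.red (inc (C.Kb m1 m1') a) = inc (C.kb m1 m1') β1) _
      (fun a => (C.U m1 m1' n1 a).v x) hfin
      (fun a ha => ((C.U m1 m1' n1 a).mem_ring_of h0).mp (hint a ha x hx)) hk a1 ha1
  intro x hx h0
  obtain ⟨y, hy, z, hz, rfl⟩ := Subfield.mem_closure_iff.mp hx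
  have hz0 : z ≠ 0 := by rintro rfl; simp at h0
  have hy0 : y ≠ 0 := by rintro rfl; simp at h0
  rw [QV.div _ hy0 hz0, hzero y hy hy0, hzero z hz hz0, sub_self]

/-- one inequality -/
lemma key (P : Pt (E1 l) Z.M) : 2 * C.nn m1 m1' n1 β1 P ≤ 2 * C.nn m m' n β P := by
  have := Ctx.acK C m m'
  have := Ctx.acK C m1 m1'
  have htr := Ctx.tr_K C m m' n ht
  have hfe := Ctx.fe_K0 C m m' n ht
  have hs : ∀ j, (pl (ss C P)).coeff j ∈ C.L := ss_coeff C P
  -- the algebraically closed field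
  have hP0 : IsAlgClosed (algebraMap ℂ C.Λ).fieldRange :=
    IsAlgClosed.of_ringEquiv ℂ _ (RingHom.rangeRestrictFieldEquiv (algebraMap ℂ C.Λ))
  have hfin := hh_finite (C.Kb m m') (comb n C.W) htr (C.U m m' n) (Ctx.U_spec C m m' n ht) (ss C P)
    (fun j => L_le_fe C m m' n ht (hs j))
  have hfin1 := hh_finite (C.Kb m1 m1') (comb n1 C.W) (Ctx.tr_K C m1 m1' n1 ht1) (C.U m1 m1' n1)
    (Ctx.U_spec C m1 m1' n1 ht1) (ss C P) (fun j => L_le_fe C m1 m1' n1 ht1 (hs j))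
  obtain ⟨r, Q, hQ⟩ := rep C m1 m1' n1 ht1 n
  obtain ⟨c, hcP, hc1, hc2, hc3⟩ := exists_c' (algebraMap ℂ C.Λ).fieldRange C.w0 (w0_nat C) C.red
    C.hred (inc (C.kb m m') β) (inc (C.kb m1 m1') β1) (C.red (inc (C.Kb m1 m1') Q)) r
    {a | hh (C.U m m' n a) (ss C P) ≠ 0} hfin (fun a => C.red (inc (C.Kb m m') a))
  have hcK : ∀ μ μ' : Fin 3 → ℤ, ∀ x ∈ cs c, x ∈ C.K0 μ μ' := by
    intro μ μ' x hx
    obtain ⟨y, rfl⟩ := hcP x hx
    exact C_le_K0 C μ μ' y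
  obtain ⟨cb, hcb⟩ := pt_of_mem (C.Kb m m') c (fun x hx => K0_le_Kb C m m' (hcK m m' x hx))
  obtain ⟨cb1, hcb1⟩ := pt_of_mem (C.Kb m1 m1') c
    (fun x hx => K0_le_Kb C m1 m1' (hcK m1 m1' x hx))
  obtain ⟨b, hb, hb0, hbi, hbe⟩ := den_curve (C.K0 m m') (C.Kb m m') (K0_le_Kb C m m')
    (comb n C.W) htr cb (by rw [hcb]; exact hcK m m') (ss C P)
    (fun j => by rw [hfe]; exact hs j)
  rw [hfe] at hb
  rw [hcb] at hbi
  obtain ⟨c0, hc0, hv⟩ := C.val b hb0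
  obtain ⟨r1, r2, r3⟩ := res_norm C b hb hb0 c0 hc0 hv
  have hk := KKc C m m' n ht β b hb hb0 c0 hc0 hv
  have hk1 := KKc C m1 m1' n1 ht1 β1 b hb hb0 c0 hc0 hv
  rw [dof_eq C m m' n m1 m1' n1 β β1 h _ r1 r2] at hk
  rw [nn_eq, nn_eq]
  have e1 : ∀ a : Pt E2 (C.Kb m m'), C.red (inc (C.Kb m m') a) = inc (C.kb m m') β →
      (C.U m m' n a).v b = hh (C.U m m' n a) (ss C P) := by
    intro a ha
    have hane : a ≠ -cb := by
      rintro rfl
      rw [map_neg, map_neg, hcb] at ha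
      exact hc1 ha.symm
    have hz : hh (C.U m m' n (-a - (2 : ℤ) • cb)) (ss C P) = 0 := by
      by_contra hz
      apply hc3 _ hz
      show C.red (inc (C.Kb m m') (-a - (2 : ℤ) • cb)) = _
      rw [map_sub, map_sub, map_neg, map_neg, map_zsmul, map_zsmul, hcb, ha]
    rw [hbe a hane _ _ (Ctx.U_spec C m m' n ht a) (Ctx.U_spec C m m' n ht _), hz, add_zero]
  have e2 : ∀ a : Pt E2 (C.Kb m1 m1'), C.red (inc (C.Kb m1 m1') a) = inc (C.kb m1 m1') β1 →
      hh (C.U m1 m1' n1 a) (ss C P) ≤ (C.U m1 m1' n1 a).v b := by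
    intro a ha
    apply hbi _ (triv_U1 C m m' n ht m1 m1' n1 ht1 β β1 h a ha)
    apply at_nz C m1 m1' n1 ht1 a (Q + cb1) r
    · rw [map_add, hcb1, hQ, add_assoc]
    · intro h0
      apply hc2
      have h1 := congrArg (fun z => C.red (inc (C.Kb m1 m1') z)) h0
      simp only [map_add, map_zsmul, map_zero] at h1
      rw [ha, hcb1] at h1
      exact h1
  have e3 := hk.trans (fs_eq _ _ (fun _ => Classical.propDecidable _) _ _ e1)
  have e4 := (fs_le _ (fun _ => Classical.propDecidable _) _ _ _ hfin1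
    (fin_H C m1 m1' n1 ht1 b hb hb0) e2).trans hk1.symm.le
  refine le_trans (le_of_eq ?_) (e4.trans (e3.le.trans (le_of_eq ?_)))
  · apply finsum_congr
    intro a
    split_ifs <;> rfl
  · apply finsum_congr
    intro a
    split_ifs <;> rfl

end main

/-- D3 -/
theorem D3 (m m' n : Fin 3 → ℤ) (ht : Uni m m' n) (m1 m1' n1 : Fin 3 → ℤ) (ht1 : Uni m1 m1' n1)
    (β : Pt E2 (C.kb m m')) (β1 : Pt E2 (C.kb m1 m1'))
    (h : C.Dof (C.nu m m' n β) = C.Dof (C.nu m1 m1' n1 β1)) (P : Pt (E1 l) Z.M) :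
    C.nn m m' n β P = C.nn m1 m1' n1 β1 P := by
  have h1 := key C m m' n ht m1 m1' n1 ht1 β β1 h P
  have h2 := key C m1 m1' n1 ht1 m m' n ht β1 β h.symm P
  linarith

end

end Pool.Agent.VM.XD3p
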