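import Pool.Agent.Lib_VM.StubsA_h85
import Pool.Agent.Lib_helper15.VM.III
import Pool.Agent.Lib_VM.CPC_h58
import Pool.Agent.Lib_VM.A_Ctx_U_spec
import Pool.Agent.Lib_VM.A_Ctx_acK
import Pool.Agent.Lib_VM.A_Ctx_int_n
import Pool.Agent.Lib_VM.A_Ctx_kb_iff
import Pool.Agent.Lib_VM.A_Ctx_nu_spec
import Pool.Agent.Lib_VM.A_Ctx_tr_K
import Pool.Agent.Lib_VM.A_Ctx_tr_k
import Pool.Agent.Lib_VM.A_GAUSS
import Pool.Agent.Lib_VM.A_TI
import Pool.Agent.Lib_VM.A_TI2

/-!
# MP_5582d1_ag: D4, the local form satisfies the parallelogram law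
Cites: LP, LP2, TI, TI2 (StubsA), C1F, KK (StubsB), GAUSS, CP, RKV, alg_L, fe_K0, fe_k0, acK, ack,
U_spec, nu_spec, tr_K, tr_k, int_n, kb_iff (StubsC).
-/

set_option autoImplicit false

namespace Pool.Agent.VM.XD4p

open scoped Classical

attribute [-instance] Subtype.instDecidableEq

open Pool.Agent.VM.CPCp

variable {l : ℂ} {Z : SubVar l} (C : Ctx Z) (m m' n : Fin 3 → ℤ)

theorem lam_eq (u : QV C.Λ) (τ : Z.M →ₐ[ℂ] C.Λ) (P : Pt (E1 l) Z.M) :
    lam u (mp τ P) = (if τ (xc P) = 0 then 0 else max 0 (-(u.v (τ (xc P))))) / 2 := by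
  rw [lam, xc_mp]
  split_ifs <;> simp

/-- finiteness -/
theorem fin_max (ht : Uni m m' n) (θ : Z.M) :
    {a | ∑ τ ∈ C.T, (if τ θ = 0 then 0 else max 0 (-((C.U m m' n a).v (τ θ)))) ≠ 0}.Finite := by
  have := C.acK m m'
  have hfin : ∀ j ∈ (∏ τ ∈ C.T, (Polynomial.X - Polynomial.C (τ θ))).support,
      {a | (C.U m m' n a).v ((∏ τ ∈ C.T, (Polynomial.X - Polynomial.C (τ θ))).coeff j) ≠ 0}.Finite := by
    intro j hj
    exact C1F (C.Kb m m') (comb n C.W) (C.tr_K m m' n ht) (C.U m m' n) (C.U_spec m m' n ht) _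
      (C.L_le_fe m m' n ht (C.CPC θ j)) (Polynomial.mem_support_iff.1 hj)
  refine ((Finset.finite_toSet _).biUnion hfin).subset ?_
  intro a ha
  obtain ⟨j, hj, hj'⟩ := GAUSS C.T (fun τ : Z.M →ₐ[ℂ] C.Λ => τ θ) (C.U m m' n a)
  rw [Set.mem_iUnion]
  refine ⟨j, ?_⟩
  rw [Set.mem_iUnion]
  refine ⟨Polynomial.mem_support_iff.2 hj, ?_⟩
  change (C.U m m' n a).v _ ≠ 0
  rw [hj']
  exact neg_ne_zero.2 ha

/-- finiteness -/
theorem fin_lam (ht : Uni m m' n) (P : Pt (E1 l) Z.M) :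
    {a | ∑ τ ∈ C.T, lam (C.U m m' n a) (mp τ P) ≠ 0}.Finite := by
  refine (fin_max C m m' n ht (xc P)).subset ?_
  intro a ha
  have h1 : ∑ τ ∈ C.T, lam (C.U m m' n a) (mp τ P) =
      (∑ τ ∈ C.T, (if τ (xc P) = 0 then 0 else max 0 (-((C.U m m' n a).v (τ (xc P)))))) / 2 := by
    rw [Finset.sum_div]
    exact Finset.sum_congr rfl (fun τ _ => lam_eq C _ τ P)
  intro h
  apply ha
  rw [h1, h, zero_div]

/-- KK on a context -/
theorem KKc (ht : Uni m m' n) (β : Pt E2 (C.kb m m')) (H : C.Λ) (hH : H ∈ C.L) (h0 : H ≠ 0) :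
    (C.rk (C.nu m m' n β)).o H =
      ∑ᶠ a : Pt E2 (C.Kb m m'), if C.red (inc (C.Kb m m') a) = inc (C.kb m m') β
        then (C.U m m' n a).v H else 0 := by
  have := C.acK m m'
  obtain ⟨c, hc0, hc⟩ := C.val H h0
  have hrk := (C.rk_spec (C.nu m m' n β) (C.nu_triv m m' n ht β)).2 H h0 c hc0 hc
  rw [hrk]
  have hc0' : algebraMap ℂ C.Λ c ≠ 0 := (map_ne_zero (algebraMap ℂ C.Λ)).2 hc0
  refine (KK C.w0 ?_ (C.Kb m m') (C.kb m m') (C.kb_iff m m' n ht) ?_ C.red C.hred (comb n C.W)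
    (C.int_n m m' n ht) ?_ (C.U m m' n) (C.U_spec m m' n ht) β (C.nu m m' n β) ?_ H
    (C.L_le_fe m m' n ht hH) h0 (algebraMap ℂ C.Λ c) (C.c_mem_Kb m m' c) hc0' ?_).trans
    (finsum_congr (fun a => by congr))
  · intro k hk
    rw [← map_natCast (algebraMap ℂ C.Λ), C.ext, C.vn k hk]
  · intro x hx
    obtain ⟨d, hd0, hd⟩ := C.val x hx
    exact ⟨algebraMap ℂ C.Λ d, C.c_mem_Kb m m' d, (map_ne_zero (algebraMap ℂ C.Λ)).2 hd0,
      (C.ext d).trans hd⟩
  · rw [C.red_comb]; exact C.tr_k m m' n ht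
  · rw [C.red_comb]; exact C.nu_spec m m' n ht β
  · exact (C.ext c).trans hc

/-- the general principle -/
theorem main (ht : Uni m m' n) (β : Pt E2 (C.kb m m')) (A B P Q : Pt (E1 l) Z.M) (k1 k2 : ℚ) (θ : Z.M)
    (h0 : θ ≠ 0)
    (hl : ∀ a, ∀ τ ∈ C.T, lam (C.U m m' n a) (mp τ A) + lam (C.U m m' n a) (mp τ B) =
      k1 * lam (C.U m m' n a) (mp τ P) + k2 * lam (C.U m m' n a) (mp τ Q) + (C.U m m' n a).v (τ θ))
    (hT : ∀ τ ∈ C.T, Tf (C.rk (C.nu m m' n β)) (mp τ A) + Tf (C.rk (C.nu m m' n β)) (mp τ B) =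
      k1 * Tf (C.rk (C.nu m m' n β)) (mp τ P) + k2 * Tf (C.rk (C.nu m m' n β)) (mp τ Q) +
        (C.rk (C.nu m m' n β)).o (τ θ)) :
    C.EE m m' n β A + C.EE m m' n β B = k1 * C.EE m m' n β P + k2 * C.EE m m' n β Q := by
  obtain ⟨N1, N2⟩ := C.CPN θ h0
  have hne : ∀ τ ∈ C.T, τ θ ≠ 0 := fun τ _ => (map_ne_zero τ).2 h0
  have hKK := KKc C m m' n ht β _ N1 N2
  rw [Ctx.Rk2_prod _ C.T _ hne] at hKK
  set g : Pt E2 (C.Kb m m') → Pt (E1 l) Z.M → ℚ := fun a X =>
    if C.red (inc (C.Kb m m') a) = inc (C.kb m m') β then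
      ∑ τ ∈ C.T, lam (C.U m m' n a) (mp τ X) else 0 with hg
  have hgf : ∀ X, (Function.support (fun a => g a X)).Finite := by
    intro X
    refine (fin_lam C m m' n ht X).subset ?_
    intro a ha h
    apply ha
    simp only [hg, h, ite_self]
  have hnn : ∀ X, C.nn m m' n β X = ∑ᶠ a, g a X := by
    intro X
    first
    | rfl
    | (rw [Ctx.nn]; refine finsum_congr (fun a => ?_); simp only [hg]; congr)
  have hsum : ∑ᶠ a, g a A + ∑ᶠ a, g a B = k1 * ∑ᶠ a, g a P + k2 * ∑ᶠ a, g a Q +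
      ∑ᶠ a : Pt E2 (C.Kb m m'), (if C.red (inc (C.Kb m m') a) = inc (C.kb m m') β
        then (C.U m m' n a).v (∏ τ ∈ C.T, τ θ) else 0) := by
    have hpt : ∀ a, g a A + g a B = k1 * g a P + k2 * g a Q +
        (if C.red (inc (C.Kb m m') a) = inc (C.kb m m') β
        then (C.U m m' n a).v (∏ τ ∈ C.T, τ θ) else 0) := by
      intro a
      simp only [hg]
      split_ifs with h
      · rw [Ctx.QV_prod _ C.T _ hne, Finset.mul_sum, Finset.mul_sum, ← Finset.sum_add_distrib,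
          ← Finset.sum_add_distrib, ← Finset.sum_add_distrib]
        exact Finset.sum_congr rfl (fun τ hτ => hl a τ hτ)
      · ring
    rw [mul_finsum, mul_finsum, ← finsum_add_distrib (hgf A) (hgf B),
      ← finsum_add_distrib, ← finsum_add_distrib]
    · exact finsum_congr hpt
    · exact ((hgf P).union (hgf Q)).subset (by
        intro a ha
        by_contra h
        rw [Set.mem_union, not_or] at h
        simp only [Function.mem_support, ne_eq, not_not] at h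
        apply ha
        simp only [h.1, h.2, mul_zero, add_zero])
    · exact (((hgf A).union (hgf B)).union ((hgf P).union (hgf Q))).subset (by
        intro a ha
        by_contra h
        simp only [Set.mem_union, not_or, Function.mem_support, ne_eq, not_not] at h
        apply ha
        have := hpt a
        rw [h.1.1, h.1.2, h.2.1, h.2.2] at this
        linarith)
    · exact (hgf P).subset (by
        intro a ha h
        apply ha
        simp only [h, mul_zero])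
    · exact (hgf Q).subset (by
        intro a ha h
        apply ha
        simp only [h, mul_zero])
  have hTT : C.TT (C.nu m m' n β) A + C.TT (C.nu m m' n β) B = k1 * C.TT (C.nu m m' n β) P +
      k2 * C.TT (C.nu m m' n β) Q + ∑ τ ∈ C.T, (C.rk (C.nu m m' n β)).o (τ θ) := by
    simp only [Ctx.TT]
    rw [Finset.mul_sum, Finset.mul_sum, ← Finset.sum_add_distrib, ← Finset.sum_add_distrib,
      ← Finset.sum_add_distrib]
    exact Finset.sum_congr rfl (fun τ hτ => hT τ hτ)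
  simp only [Ctx.EE, hnn]
  rw [hKK] at hTT
  linear_combination hsum - hTT

theorem EE_congr (β : Pt E2 (C.kb m m')) (P Q : Pt (E1 l) Z.M) (h : xc P = xc Q) :
    C.EE m m' n β P = C.EE m m' n β Q := by
  have h1 : ∀ (u : QV C.Λ) (τ : Z.M →ₐ[ℂ] C.Λ), lam u (mp τ P) = lam u (mp τ Q) := by
    intro u τ
    rw [lam_eq, lam_eq, h]
  have h2 : ∀ (u : Rk2 C.Λ) (τ : Z.M →ₐ[ℂ] C.Λ), Tf u (mp τ P) = Tf u (mp τ Q) := by
    intro u τ
    rw [Tf, Tf, xc_mp, xc_mp, h]
  rw [Ctx.EE, Ctx.EE, Ctx.nn, Ctx.nn, Ctx.TT, Ctx.TT]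
  congr 1
  · refine finsum_congr (fun a => ?_)
    rw [Finset.sum_congr rfl (fun τ _ => h1 (C.U m m' n a) τ)]
  · exact Finset.sum_congr rfl (fun τ _ => h2 _ τ)

theorem EE_const (ht : Uni m m' n) (β : Pt E2 (C.kb m m')) (P : Pt (E1 l) Z.M) (c : ℂ)
    (h : xc P = algebraMap ℂ Z.M c) : C.EE m m' n β P = 0 := by
  have h0 : ∀ τ : Z.M →ₐ[ℂ] C.Λ, τ (xc P) = algebraMap ℂ C.Λ c := by
    intro τ; rw [h, τ.commutes]
  have h1 : ∀ (a : Pt E2 (C.Kb m m')) (τ : Z.M →ₐ[ℂ] C.Λ), lam (C.U m m' n a) (mp τ P) = 0 := by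
    intro a τ
    rw [lam_eq, h0]
    by_cases hc : c = 0
    · simp [hc]
    · rw [C.U_triv m m' n ht a c hc]
      simp
  have h2 : ∀ (τ : Z.M →ₐ[ℂ] C.Λ), Tf (C.rk (C.nu m m' n β)) (mp τ P) = 0 := by
    intro τ
    rw [Tf, xc_mp, h0]
    by_cases hc : c = 0
    · simp [hc]
    · rw [C.rk_c _ (C.nu_triv m m' n ht β) c hc, mul_zero, ite_self]
  simp only [Ctx.EE, Ctx.nn, Ctx.TT, h1, h2, Finset.sum_const_zero, ite_self, finsum_zero, sub_zero]

theorem EE_zero (ht : Uni m m' n) (β : Pt E2 (C.kb m m')) : C.EE m m' n β 0 = 0 :=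
  EE_const C m m' n ht β 0 0 (by rw [map_zero]; rfl)

include C in
/-- the discriminant -/
theorem disc : (SW 1 l).Δ ≠ 0 := by
  have hΔ : (SW 1 l).Δ = -(16 * l * (4 + 27 * l)) := by
    simp only [SW, WeierstrassCurve.Δ, WeierstrassCurve.b₂, WeierstrassCurve.b₄, WeierstrassCurve.b₆,
      WeierstrassCurve.b₈]
    ring
  rw [hΔ, neg_ne_zero]
  refine mul_ne_zero (mul_ne_zero (by norm_num) C.l0) ?_
  intro h
  have h4 := C.vn 4 (by norm_num)
  have h27 := C.vn 27 (by norm_num)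
  have h1 : ((4 : ℕ) : ℂ) = -(((27 : ℕ) : ℂ) * l) := by push_cast; linear_combination h
  rw [h1, C.v.neg, C.v.mul (by norm_num) C.l0, h27, C.vl] at h4
  norm_num at h4

/-- a point of order 2 has a constant coordinate -/
theorem tors (P : Pt (E1 l) Z.M) (hP : P ≠ 0) (h2 : P + P = 0) :
    ∃ c : ℂ, xc P = algebraMap ℂ Z.M c := by
  have hM : CharZero Z.M := charZero_of_injective_algebraMap (algebraMap ℂ Z.M).injective
  have hy : yc P = 0 := by
    by_contra h
    exact (ptf_dbl_ne hP).2 (mul_ne_zero two_ne_zero h) h2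
  have hsq := ptf_sq hP
  rw [hy] at hsq
  have hint : IsIntegral ℂ (xc P) := by
    have halg : IsAlgebraic ℂ (xc P) := by
      refine ⟨Polynomial.X ^ 3 + (Polynomial.X ^ 2 + Polynomial.C l), ?_, ?_⟩
      · intro h
        have := congrArg (fun p => Polynomial.coeff p 3) h
        simp [Polynomial.coeff_X_pow] at this
      · simp only [map_add, map_pow, Polynomial.aeval_X, Polynomial.aeval_C]
        rw [map_one, one_mul] at hsq
        linear_combination -hsq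
    exact halg.isIntegral
  obtain ⟨c, hc⟩ := minpoly.mem_range_of_degree_eq_one ℂ (xc P)
    (IsAlgClosed.degree_eq_one_of_irreducible ℂ (minpoly.irreducible hint))
  exact ⟨c, hc.symm⟩

/-- duplication -/
theorem dbl (ht : Uni m m' n) (β : Pt E2 (C.kb m m')) (P : Pt (E1 l) Z.M) :
    C.EE m m' n β (P + P) = 4 * C.EE m m' n β P := by
  by_cases hP : P = 0
  · subst hP
    rw [add_zero, EE_zero C m m' n ht β]; ring
  by_cases h2 : P + P = 0
  · obtain ⟨c, hc⟩ := tors P hP h2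
    rw [h2, EE_zero C m m' n ht β, EE_const C m m' n ht β P c hc]; ring
  obtain ⟨-, -, hy, -⟩ := ptf_dbl h2
  have hm := main C m m' n ht β (P + P) 0 P 0 4 0 (yc P) hy ?_ ?_
  · rw [EE_zero C m m' n ht β] at hm
    linear_combination hm
  · intro a τ _
    have h0 : lam (C.U m m' n a) (mp τ (0 : Pt (E1 l) Z.M)) = 0 := by
      rw [map_zero, lam]; exact if_pos rfl
    rw [h0, map_add, ← yc_mp τ P]
    have := LP2 1 l (C.U m m' n a) ?_ two_ne_zero ?_ (mp τ P) ?_
    · rw [this]; ring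
    · intro r hr
      exact C.U_triv m m' n ht a r ((map_ne_zero _).1 hr)
    · exact (map_ne_zero _).2 (disc C)
    · rw [← map_add]; exact mp_ne_zero τ h2
  · intro τ _
    have h0 : Tf (C.rk (C.nu m m' n β)) (mp τ (0 : Pt (E1 l) Z.M)) = 0 := by
      rw [map_zero, Tf]; exact if_pos rfl
    rw [h0, map_add, ← yc_mp τ P]
    have := TI2 l C.l0 (C.rk (C.nu m m' n β)) ?_ ?_ inferInstance ?_ (mp τ P) ?_
    · rw [this]; ring
    · rw [C.rk_v _ (C.nu_triv m m' n ht β), C.ext, C.vl]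
    · intro c hc
      exact C.rk_c _ (C.nu_triv m m' n ht β) c hc
    · intro k hk
      rw [C.rk_v _ (C.nu_triv m m' n ht β), ← map_natCast (algebraMap ℂ C.Λ), C.ext, C.vn k hk]
    · rw [← map_add]; exact mp_ne_zero τ h2

/-- D4 -/
theorem D4 (ht : Uni m m' n) (β : Pt E2 (C.kb m m')) (P Q : Pt (E1 l) Z.M) :
    C.EE m m' n β (P + Q) + C.EE m m' n β (P - Q) = 2 * C.EE m m' n β P + 2 * C.EE m m' n β Q := by
  by_cases hP : P = 0
  · subst hP
    rw [zero_add, zero_sub, EE_zero C m m' n ht β, EE_congr C m m' n β (-Q) Q (ptf_xc_neg Q)]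
    ring
  by_cases hQ : Q = 0
  · subst hQ
    rw [add_zero, sub_zero, EE_zero C m m' n ht β]
    ring
  by_cases h1 : P = Q
  · subst h1
    rw [sub_self, EE_zero C m m' n ht β, dbl C m m' n ht β]
    ring
  by_cases h3 : P = -Q
  · have hxc : xc P = xc Q := by rw [h3, ptf_xc_neg]
    have h4 : P - Q = P + P := by rw [h3]; abel
    have h5 : P + Q = 0 := by rw [h3]; abel
    rw [h4, h5, EE_zero C m m' n ht β, dbl C m m' n ht β, EE_congr C m m' n β P Q hxc]
    ring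
  have hθ : xc P - xc Q ≠ 0 := sub_ne_zero.2 (ptf_xc_ne hP hQ h1 h3)
  refine main C m m' n ht β (P + Q) (P - Q) P Q 2 2 (xc P - xc Q) hθ ?_ ?_
  · intro a τ _
    rw [map_add, map_sub, map_sub τ, ← xc_mp τ P, ← xc_mp τ Q]
    refine LP 1 l (C.U m m' n a) ?_ two_ne_zero ?_ (mp τ P) (mp τ Q) (mp_ne_zero τ hP) (mp_ne_zero τ hQ)
      ?_ ?_
    · intro r hr
      exact C.U_triv m m' n ht a r ((map_ne_zero _).1 hr)
    · exact (map_ne_zero _).2 (disc C)
    · intro h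
      exact h1 (WeierstrassCurve.Affine.Point.map_injective τ h)
    · intro h
      rw [← map_neg] at h
      exact h3 (WeierstrassCurve.Affine.Point.map_injective τ h)
  · intro τ _
    rw [map_add, map_sub, map_sub τ, ← xc_mp τ P, ← xc_mp τ Q]
    refine TI l C.l0 (C.rk (C.nu m m' n β)) ?_ ?_ inferInstance ?_ (mp τ P) (mp τ Q) (mp_ne_zero τ hP)
      (mp_ne_zero τ hQ) ?_ ?_
    · rw [C.rk_v _ (C.nu_triv m m' n ht β), C.ext, C.vl]
    · intro c hc
      exact C.rk_c _ (C.nu_triv m m' n ht β) c hc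
    · intro k hk
      rw [C.rk_v _ (C.nu_triv m m' n ht β), ← map_natCast (algebraMap ℂ C.Λ), C.ext, C.vn k hk]
    · intro h
      exact h1 (WeierstrassCurve.Affine.Point.map_injective τ h)
    · intro h
      rw [← map_neg] at h
      exact h3 (WeierstrassCurve.Affine.Point.map_injective τ h)

end Pool.Agent.VM.XD4p
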