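import Pool.Agent.Lib_VM.StubsA_h85
import Pool.Agent.Lib_VM.StubsC_h85
import Pool.Agent.Lib_VM.A_Ctx_D4
import Pool.Agent.Lib_VM.A_Ctx_D5a
import Pool.Agent.Lib_VM.A_Ctx_nu_spec
import Pool.Agent.Lib_VM.A_PH
import Pool.Agent.Lib_VM.A_RKV

/-! MP_5582d1_ag, part X, block XD5 (cites StubsA.PH, StubsC.RKV, nu_spec, D4, D5a). -/

set_option autoImplicit false

namespace Pool.Agent.VM.XD5p

open scoped Classical

attribute [-instance] Subtype.instDecidableEq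

/-- the constants of `ℂ` are trivial for `o` -/
private theorem o_const {l : ℂ} {Z : SubVar l} (C : Ctx Z) (ν : QV C.w0.κ)
    (hν : ∀ y ∈ C.k, y ≠ 0 → ν.v y = 0) :
    (C.rk ν).v (algebraMap ℂ C.Λ l) = 1 ∧ (∀ c : ℂ, c ≠ 0 → (C.rk ν).o (algebraMap ℂ C.Λ c) = 0) ∧
    ∀ n : ℕ, n ≠ 0 → (C.rk ν).v (n : C.Λ) = 0 := by
  have hex := RKV C ν hν
  have hrk : C.IsRk ν (C.rk ν) := by
    rw [Ctx.rk, dif_pos hex]
    exact hex.choose_spec
  obtain ⟨h1, h2⟩ := hrk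
  have hv : ∀ c : ℂ, (C.rk ν).v (algebraMap ℂ C.Λ c) = C.v.v c := by
    intro c
    rw [h1]
    exact C.ext c
  refine ⟨by rw [hv, C.vl], ?_, ?_⟩
  · intro c hc
    have hc' : algebraMap ℂ C.Λ c ≠ 0 := (map_ne_zero _).2 hc
    rw [h2 _ hc' c hc (C.ext c).symm, div_self hc', C.w0.res_one, ν.one]
  · intro n hn
    have := hv (n : ℂ)
    rw [map_natCast] at this
    rw [this, C.vn n hn]

theorem D5 {l : ℂ} {Z : SubVar l} (C : Ctx Z) (m m' n : Fin 3 → ℤ) (ht : Uni m m' n)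
    (β : Pt E2 (C.kb m m')) (P : Pt (E1 l) Z.M) : 0 ≤ C.EE m m' n β P := by
  have hν : ∀ y ∈ C.k, y ≠ 0 → (C.nu m m' n β).v y = 0 := by
    intro y hy h0
    refine (C.nu_spec m m' n ht β).triv y ?_ h0
    have h1 : y ∈ C.k0 m m' := Subfield.subset_closure (Or.inl hy)
    exact (algebraicClosure (C.k0 m m') C.w0.κ).algebraMap_mem ⟨y, h1⟩
  obtain ⟨hl, hc, hn⟩ := o_const C _ hν
  -- the error
  set g : Pt (E1 l) Z.M → ℚ := fun Q => ∑ τ ∈ C.T, phi (C.rk (C.nu m m' n β)) (mp τ Q) with hg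
  have hg2 : ∀ Q, g (Q + Q) ≤ 2 * g Q := by
    intro Q
    rw [hg]
    simp only
    rw [Finset.mul_sum]
    refine Finset.sum_le_sum ?_
    intro τ _
    rw [map_add]
    exact PH l C.l0 _ hl hc inferInstance hn _
  have hE0 : C.EE m m' n β 0 = 0 := by
    have h := C.D4 m m' n ht β 0 0
    rw [add_zero, sub_zero] at h
    linarith
  have hE2 : ∀ Q, C.EE m m' n β (Q + Q) = 4 * C.EE m m' n β Q := by
    intro Q
    have h := C.D4 m m' n ht β Q Q
    rw [sub_self, hE0] at h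
    linarith
  -- iterate
  have key : ∀ (j : ℕ), ∃ Q, C.EE m m' n β Q = 4 ^ j * C.EE m m' n β P ∧ g Q ≤ 2 ^ j * g P := by
    intro j
    induction j with
    | zero => exact ⟨P, by simp, by simp⟩
    | succ j ih =>
      obtain ⟨Q, h1, h2⟩ := ih
      refine ⟨Q + Q, ?_, ?_⟩
      · rw [hE2, h1, pow_succ]; ring
      · refine (hg2 Q).trans ?_
        rw [pow_succ]; linarith
  by_contra hneg
  push Not at hneg
  have hb : ∀ j : ℕ, (2 : ℚ) ^ j * (-(C.EE m m' n β P)) ≤ 1 / 2 * g P := by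
    intro j
    obtain ⟨Q, h1, h2⟩ := key j
    have h3 := C.D5a m m' n ht β Q
    have h3' : -(1 / 2) * g Q ≤ C.EE m m' n β Q := h3
    rw [h1] at h3'
    have h4 : (0 : ℚ) < 2 ^ j := by positivity
    have h5 : (4 : ℚ) ^ j = 2 ^ j * 2 ^ j := by
      rw [← mul_pow]; norm_num
    rw [h5] at h3'
    have h6 : (2 : ℚ) ^ j * (2 ^ j * (-(C.EE m m' n β P))) ≤ 2 ^ j * (1 / 2 * g P) := by
      nlinarith
    exact le_of_mul_le_mul_left h6 h4
  obtain ⟨j, hj⟩ := pow_unbounded_of_one_lt ((1 / 2 * g P) / (-(C.EE m m' n β P)))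
    (one_lt_two (α := ℚ))
  have hpos : 0 < -(C.EE m m' n β P) := by linarith
  rw [div_lt_iff₀ hpos] at hj
  exact absurd (hb j) (not_le.2 hj)

end Pool.Agent.VM.XD5p
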