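import Pool.Agent.Lib_VM.CtxL_h34
import Pool.Agent.Lib_VM.A_ABS3
import Pool.Agent.Lib_VM.A_ABS4

/-!
# MP_5582d1_ag, block XD5a: the lower bound

Cited stubs: ABS3, ABS4, and those of `CtxL` (CP, KK, GAUSS, C1F, RKV, D0a-e).
-/

set_option autoImplicit false

namespace Pool.Agent.VM

open scoped Classical
open Polynomial

attribute [-instance] Subtype.instDecidableEq

namespace XD5ap

open CtxL

/-- D5a: the lower bound -/
theorem D5a {l : ℂ} {Z : SubVar l} (C : Ctx Z) (m m' n : Fin 3 → ℤ) (ht : Uni m m' n)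
    (β : Pt E2 (C.kb m m')) (P : Pt (E1 l) Z.M) :
    -(1 / 2) * ∑ τ ∈ C.T, phi (C.rk (C.nu m m' n β)) (mp τ P) ≤ C.EE m m' n β P := by
  set R := C.rk (C.nu m m' n β) with hR
  set xx : (Z.M →ₐ[ℂ] C.Λ) → C.Λ := fun τ => xc (mp τ P) with hxx
  set I : Finset (Z.M →ₐ[ℂ] C.Λ) := C.T.filter
    (fun τ => xx τ ≠ 0 ∧ toLex (R.v (xx τ), R.o (xx τ)) < toLex ((0 : ℚ), (0 : ℚ))) with hI
  have hIm : ∀ τ, τ ∈ I ↔ τ ∈ C.T ∧ xx τ ≠ 0 ∧
      toLex (R.v (xx τ), R.o (xx τ)) < toLex ((0 : ℚ), (0 : ℚ)) := by
    intro τ; rw [hI, Finset.mem_filter]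
  obtain ⟨hne, ho⟩ := ABS3 C.T xx R I hIm
  set f : C.Λ[X] := ∏ τ ∈ C.T, (X - Polynomial.C (xx τ)) with hf
  have hfL : ∀ j, f.coeff j ∈ C.L := by
    intro j
    have : f = ∏ τ ∈ C.T, (X - Polynomial.C (τ (xc P))) := by
      rw [hf]
      apply Finset.prod_congr rfl
      intro τ _
      rw [hxx]
      simp only [xc_mp']
    rw [this]
    exact coef_mem C (xc P) j
  have hro := rk_o C m m' n ht β _ (hfL (C.T.card - I.card)) hne
  rw [← hR, ho] at hro
  -- comparison of the sums over the places
  have hle : ∑ᶠ a : Pt E2 (C.Kb m m'), (if C.red (inc (C.Kb m m') a) = inc (C.kb m m') β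
        then (-2) * ∑ τ ∈ C.T, lam (C.U m m' n a) (mp τ P) else 0) ≤
      ∑ᶠ a : Pt E2 (C.Kb m m'), if C.red (inc (C.Kb m m') a) = inc (C.kb m m') β
        then (C.U m m' n a).v (f.coeff (C.T.card - I.card)) else 0 := by
    refine finsum_le_finsum' ?_ ?_ ?_
    · apply (fin_lam C m m' n ht P).subset
      intro a ha h0
      apply ha
      simp only
      rw [h0]; simp
    · apply (fin_H C m m' n ht _ (hfL (C.T.card - I.card)) hne).subset
      intro a ha h0
      apply ha
      simp only
      rw [h0]; simp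
    · intro a
      simp only
      split_ifs
      · have h4 := ABS4 C.T xx (C.U m m' n a) (C.T.card - I.card) hne
        have e2 : ∑ τ ∈ C.T, lam (C.U m m' n a) (mp τ P) = (∑ τ ∈ C.T, (if xx τ = 0 then (0 : ℚ) else
            max 0 (-((C.U m m' n a).v (xx τ))))) / 2 := by
          rw [Finset.sum_div]
          apply Finset.sum_congr rfl
          intro τ _
          rw [hxx]
          unfold lam
          simp only
          split_ifs
          · simp
          · rfl
        rw [e2]
        linarith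
      · exact le_refl _
  have hnn : ∑ᶠ a : Pt E2 (C.Kb m m'), (if C.red (inc (C.Kb m m') a) = inc (C.kb m m') β
        then (-2) * ∑ τ ∈ C.T, lam (C.U m m' n a) (mp τ P) else 0) = (-2) * C.nn m m' n β P := by
    unfold Ctx.nn
    rw [mul_finsum']
    · apply finsum_congr
      intro a
      split_ifs
      · rfl
      · simp
    · apply (fin_lam C m m' n ht P).subset
      intro a ha h0
      apply ha
      simp only
      rw [h0]; simp
  rw [hnn, ← hro] at hle
  -- termwise
  unfold Ctx.EE Ctx.TT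
  have hI' : ∑ τ ∈ I, R.o (xx τ) = ∑ τ ∈ C.T, (if xx τ ≠ 0 ∧
      toLex (R.v (xx τ), R.o (xx τ)) < toLex ((0 : ℚ), (0 : ℚ)) then R.o (xx τ) else 0) := by
    rw [hI, Finset.sum_filter]
  have hterm : ∀ τ ∈ C.T, -(1 / 2) * phi R (mp τ P) ≤ -(1 / 2) * (if xx τ ≠ 0 ∧
      toLex (R.v (xx τ), R.o (xx τ)) < toLex ((0 : ℚ), (0 : ℚ)) then R.o (xx τ) else 0) -
      Tf R (mp τ P) := by
    intro τ _
    have hx : xc (mp τ P) = xx τ := rfl
    unfold phi Tf
    rw [hx]
    by_cases h0 : xx τ = 0
    · simp [h0]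
    · simp only [ne_eq, h0, not_false_eq_true, true_and, if_false]
      set a := R.v (xx τ) with ha
      set o := R.o (xx τ) with ho'
      have hlex : toLex (a, o) < toLex ((0 : ℚ), (0 : ℚ)) ↔ a < 0 ∨ a = 0 ∧ o < 0 :=
        Prod.Lex.toLex_lt_toLex
      rcases lt_trichotomy a 0 with h | h | h
      · rw [if_neg (by intro hh; linarith [hh.1]), if_pos (hlex.mpr (Or.inl h))]
        have h1 : min a (1 / 2) = a := min_eq_left (by linarith)
        rw [h1, max_eq_left h.le]
        linarith
      · rw [if_neg (by intro hh; linarith [hh.1])]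
        have h1 : min a (1 / 2) = 0 := by rw [h]; exact min_eq_left (by norm_num)
        rw [h1, max_self]
        by_cases h2 : o < 0
        · rw [if_pos (hlex.mpr (Or.inr ⟨h, h2⟩))]
          linarith
        · rw [if_neg (by
            intro hh
            rcases hlex.mp hh with h3 | ⟨_, h3⟩
            · linarith
            · exact h2 h3)]
          push Not at h2
          linarith
      · have h5 : ¬ (toLex (a, o) < toLex ((0 : ℚ), (0 : ℚ))) := by
          intro hh
          rcases hlex.mp hh with h3 | ⟨h3, _⟩ <;> linarith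
        rw [if_neg h5]
        by_cases h2 : a < 1 / 2
        · rw [if_pos ⟨h, h2⟩, min_eq_left h2.le, max_eq_right h.le]
          rcases le_total 0 o with h3 | h3
          · rw [abs_of_nonneg h3]
            nlinarith
          · rw [abs_of_nonpos h3]
            nlinarith
        · rw [if_neg (by rintro ⟨_, h3⟩; exact h2 h3)]
          push Not at h2
          rw [min_eq_right h2, max_eq_right (by norm_num)]
          linarith
  have hsum := Finset.sum_le_sum hterm
  rw [← Finset.mul_sum, Finset.sum_sub_distrib, ← Finset.mul_sum, ← hI'] at hsum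
  linarith

end XD5ap

end Pool.Agent.VM
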