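import Pool.Agent.Lib_VM.StubsC_h85
import Pool.Agent.Lib_helper15.VM.III
import Pool.Agent.Lib_VM.StubsA_h85
import Pool.Agent.Lib_VM.A_Ctx_alg_F
import Pool.Agent.Lib_VM.A_Ctx_fe_k0
import Pool.Agent.Lib_VM.A_Ctx_ind_k
import Pool.Agent.Lib_VM.A_Ctx_nu_spec
import Pool.Agent.Lib_VM.A_Ctx_tr_k
import Pool.Agent.Lib_VM.A_GAL
import Pool.Agent.Lib_VM.A_SPEC
import Pool.Agent.Lib_VM.A_TRIV
import Pool.Agent.Lib_VM.A_UR

/-! MP_5582d1_ag, block XD6g (helper31). Stubs cited: SPEC, TRIV, UR, GAL (StubsC), C1P (StubsB), fe_k0, tr_k, ind_k, nu_spec, alg_F (StubsC.Ctx).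
The embedding of the generic curve (section g1) is from block Y6a (helper21). -/

set_option autoImplicit false
set_option linter.style.haveILetI false

namespace Pool.Agent.VM.XD6gp

open scoped Classical
open Pool.Agent.VM

attribute [-instance] Subtype.instDecidableEq

noncomputable section

/-! ### bases of `ℤ³` -/

section bas
variable {G : Type} [AddCommGroup G]

private theorem uni_ext {m m' n : Fin 3 → ℤ} (ht : Uni m m' n) (t t' : Fin 3 → G)
    (h1 : ∑ i, m i • t i = ∑ i, m i • t' i) (h2 : ∑ i, m' i • t i = ∑ i, m' i • t' i)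
    (h3 : ∑ i, n i • t i = ∑ i, n i • t' i) : t = t' := by
  funext j
  obtain ⟨a, b, c, h⟩ := ht (Pi.single j 1)
  have key : ∀ s : Fin 3 → G, s j =
      a • (∑ i, m i • s i) + b • (∑ i, m' i • s i) + c • (∑ i, n i • s i) := by
    intro s
    have : s j = ∑ i, (Pi.single j (1 : ℤ) : Fin 3 → ℤ) i • s i := by
      rw [Finset.sum_eq_single j]
      · rw [Pi.single_eq_same, one_smul]
      · intro i _ hij
        rw [Pi.single_eq_of_ne hij, zero_smul]
      · intro h; exact absurd (Finset.mem_univ _) h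
    rw [this, h]
    simp only [Pi.add_apply, Pi.smul_apply, smul_eq_mul, add_smul, mul_smul,
      Finset.sum_add_distrib, Finset.smul_sum]
  rw [key t, key t', h1, h2, h3]

private theorem uni_ex {m m' n : Fin 3 → ℤ} (ht : Uni m m' n) (p p' q : G) :
    ∃ t : Fin 3 → G, ∑ i, m i • t i = p ∧ ∑ i, m' i • t i = p' ∧ ∑ i, n i • t i = q := by
  let Φ : (Fin 3 → ℤ) →ₗ[ℤ] (Fin 3 → ℤ) := Fintype.linearCombination ℤ ![m, m', n]
  have hΦ : ∀ x, Φ x = x 0 • m + x 1 • m' + x 2 • n := fun x => by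
    simp [Φ, Fintype.linearCombination_apply, Fin.sum_univ_three]
  have hs : Function.Surjective Φ := by
    intro x
    obtain ⟨a, b, c, h⟩ := ht x
    exact ⟨![a, b, c], by rw [hΦ, h]; simp⟩
  have hi := OrzechProperty.injective_of_surjective_endomorphism Φ hs
  let e := LinearEquiv.ofBijective Φ ⟨hi, hs⟩
  let T : (Fin 3 → ℤ) →ₗ[ℤ] G :=
    (Fintype.linearCombination ℤ ![p, p', q]).comp e.symm.toLinearMap
  have hT : ∀ x : Fin 3 → ℤ, ∑ i, x i • T (Pi.single i 1) = T x := by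
    intro x
    rw [LinearMap.pi_apply_eq_sum_univ T x]
    refine Finset.sum_congr rfl fun i _ => ?_
    have : (Pi.single i (1 : ℤ) : Fin 3 → ℤ) = fun j => if i = j then 1 else 0 := by
      funext j
      rw [Pi.single_apply]
      by_cases h : i = j
      · rw [if_pos h, if_pos h.symm]
      · rw [if_neg h, if_neg (Ne.symm h)]
    rw [this]
  have hT' : ∀ y : Fin 3 → ℤ, T (Φ y) = y 0 • p + y 1 • p' + y 2 • q := by
    intro y
    have : e.symm (Φ y) = y := e.symm_apply_apply y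
    simp only [T, LinearMap.comp_apply, LinearEquiv.coe_coe, this]
    simp [Fintype.linearCombination_apply, Fin.sum_univ_three]
  refine ⟨fun i => T (Pi.single i 1), ?_, ?_, ?_⟩
  · rw [hT]
    have h := hT' ![1, 0, 0]
    rw [hΦ] at h
    simpa using h
  · rw [hT]
    have h := hT' ![0, 1, 0]
    rw [hΦ] at h
    simpa using h
  · rw [hT]
    have h := hT' ![0, 0, 1]
    rw [hΦ] at h
    simpa using h

end bas

/-! ### polynomials and residues -/

section res
open MvPolynomial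
variable {κ : Type} [Field κ] (u : QV κ) (k : Subfield κ) (hk : ∀ c ∈ k, c ≠ 0 → u.v c = 0)
  {ι : Type} (s c : ι → κ) (hs : ∀ i, s i ∈ u.ring) (hc : ∀ i, c i ∈ u.ring)
  (h : ∀ i, u.res (s i) = u.res (c i))

include hk in
private theorem mem_ring_triv (x : κ) (hx : x ∈ k) : x ∈ u.ring := by
  rcases eq_or_ne x 0 with rfl | h0
  · exact u.ring.zero_mem
  · exact (u.mem_ring_of h0).2 (hk x hx h0).ge

include hk hs hc h in
private theorem res_aeval (f : MvPolynomial ι k) : aeval s f ∈ u.ring ∧ aeval c f ∈ u.ring ∧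
    u.res (aeval s f) = u.res (aeval c f) := by
  induction f using MvPolynomial.induction_on with
  | C a =>
    rw [aeval_C, aeval_C]
    exact ⟨mem_ring_triv u k hk _ a.2, mem_ring_triv u k hk _ a.2, rfl⟩
  | add p q hp hq =>
    rw [map_add, map_add]
    refine ⟨u.ring.add_mem _ _ hp.1 hq.1, u.ring.add_mem _ _ hp.2.1 hq.2.1, ?_⟩
    rw [u.res_add hp.1 hq.1, u.res_add hp.2.1 hq.2.1, hp.2.2, hq.2.2]
  | mul_X p i hp =>
    rw [map_mul, map_mul, aeval_X, aeval_X]
    refine ⟨u.ring.mul_mem _ _ hp.1 (hs i), u.ring.mul_mem _ _ hp.2.1 (hc i), ?_⟩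
    rw [u.res_mul hp.1 (hs i), u.res_mul hp.2.1 (hc i), hp.2.2, h i]

private theorem aeval_mem {κ' : Type} [Field κ'] [Algebra k κ'] (kb : Subfield κ')
    (hkb : ∀ x : k, algebraMap k κ' x ∈ kb)
    (c : ι → κ') (hcb : ∀ i, c i ∈ kb) (f : MvPolynomial ι k) : aeval c f ∈ kb := by
  induction f using MvPolynomial.induction_on with
  | C a => rw [aeval_C]; exact hkb a
  | add p q hp hq => rw [map_add]; exact kb.add_mem hp hq
  | mul_X p i hp => rw [map_mul, aeval_X]; exact kb.mul_mem hp (hcb i)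

include hk hs hc h in
private theorem rel_iff (kb : Subfield κ) (hkb : ∀ x ∈ kb, x ≠ 0 → u.v x = 0) (hle : k ≤ kb)
    (hcb : ∀ i, c i ∈ kb) (f : MvPolynomial ι k) :
    aeval c f = 0 ↔ (aeval s f = 0 ∨ 0 < u.v (aeval s f)) := by
  obtain ⟨h1, h2, h3⟩ := res_aeval u k hk s c hs hc h f
  rw [← u.res_eq_zero_iff h1, h3, u.res_eq_zero_iff h2]
  constructor
  · exact Or.inl
  · rintro (h | h)
    · exact h
    · by_contra h0
      have := hkb _ (aeval_mem k kb (fun x => hle x.2) c hcb f) h0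
      linarith

end res

/-! ### homomorphisms from relations -/

section hom
open MvPolynomial
variable {k L L' : Type} [Field k] [Field L] [Field L'] [Algebra k L] [Algebra k L'] {ι : Type}

private theorem hom_of_rel (s : ι → L) (s' : ι → L')
    (h : ∀ f : MvPolynomial ι k, aeval s f = 0 ↔ aeval s' f = 0)
    (htop : IntermediateField.adjoin k (Set.range s) = ⊤) :
    ∃ ψ : L →ₐ[k] L', ∀ i, ψ (s i) = s' i := by
  let A := (aeval s : MvPolynomial ι k →ₐ[k] L).range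
  let Q := FractionRing A
  let p : MvPolynomial ι k →ₐ[k] A := (aeval s : MvPolynomial ι k →ₐ[k] L).rangeRestrict
  have hp : Function.Surjective p := (aeval s : MvPolynomial ι k →ₐ[k] L).rangeRestrict_surjective
  have hval : ∀ f, ((p f : A) : L) = aeval s f := fun f => rfl
  have hker : ∀ f, p f = 0 ↔ aeval s' f = 0 := by
    intro f
    rw [← h f, ← hval, ZeroMemClass.coe_eq_zero]
  have hI : ∀ a ∈ RingHom.ker p, (aeval s' : MvPolynomial ι k →ₐ[k] L') a = 0 := fun a ha =>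
    (hker a).1 ha
  let g : A →ₐ[k] L' := (Ideal.Quotient.liftₐ (RingHom.ker p) (aeval s') hI).comp
    (Ideal.quotientKerAlgEquivOfSurjective hp).symm.toAlgHom
  have hg : ∀ f, g (p f) = aeval s' f := by
    intro f
    have : (Ideal.quotientKerAlgEquivOfSurjective hp).symm (p f) =
        Ideal.Quotient.mk (RingHom.ker p) f := by
      rw [AlgEquiv.symm_apply_eq]
      rfl
    show (Ideal.Quotient.liftₐ (RingHom.ker p) (aeval s') hI)
      ((Ideal.quotientKerAlgEquivOfSurjective hp).symm (p f)) = _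
    rw [this]
    rfl
  have hginj : Function.Injective g := by
    rw [injective_iff_map_eq_zero]
    intro a ha
    obtain ⟨f, rfl⟩ := hp a
    rw [hg] at ha
    exact (hker f).2 ha
  have hvinj : Function.Injective (A.val : A →ₐ[k] L) := Subtype.val_injective
  let F : Q →ₐ[k] L := IsFractionRing.liftAlgHom hvinj
  let F' : Q →ₐ[k] L' := IsFractionRing.liftAlgHom hginj
  have hF : ∀ a : A, F (algebraMap A Q a) = a := fun a => by
    show IsFractionRing.lift hvinj _ = _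
    rw [IsFractionRing.lift_algebraMap]
    rfl
  have hF' : ∀ a : A, F' (algebraMap A Q a) = g a := fun a => by
    show IsFractionRing.lift hginj _ = _
    rw [IsFractionRing.lift_algebraMap]
    rfl
  have hsur : Function.Surjective F := by
    rw [← AlgHom.fieldRange_eq_top, eq_top_iff, ← htop, IntermediateField.adjoin_le_iff]
    rintro _ ⟨i, rfl⟩
    refine ⟨algebraMap A Q (p (X i)), ?_⟩
    show F _ = _
    rw [hF, hval, aeval_X]
  let e : Q ≃ₐ[k] L := AlgEquiv.ofBijective F ⟨F.toRingHom.injective, hsur⟩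
  refine ⟨F'.comp e.symm.toAlgHom, fun i => ?_⟩
  have h1 : e.symm (s i) = algebraMap A Q (p (X i)) := by
    rw [AlgEquiv.symm_apply_eq]
    show _ = F _
    rw [hF, hval, aeval_X]
  show F' (e.symm (s i)) = s' i
  rw [h1, hF', hg, aeval_X]

end hom

/-! ### two generic points of a curve (from Y6a, helper21) -/

section g1
open Polynomial
variable {K L : Type} [Field K] [Field L] [Algebra K L]

/-- the cubic polynomial -/
private noncomputable def cub (A B : K) : K[X] := X ^ 3 + C A * X ^ 2 + C B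

private theorem natDegree_cub (A B : K) : (cub A B).natDegree = 3 := by
  unfold cub
  compute_degree!

private theorem key (x y : L) (A B : K) (hx : Transcendental K x)
    (hy : y ^ 2 = x ^ 3 + algebraMap K L A * x ^ 2 + algebraMap K L B) (p q : K[X])
    (h : aeval x p + aeval x q * y = 0) : p = 0 ∧ q = 0 := by
  have h1 : aeval x (p ^ 2 - q ^ 2 * cub A B) = 0 := by
    have e : aeval x (cub A B) = y ^ 2 := by
      rw [hy]; simp [cub]
    rw [map_sub, map_mul, map_pow, map_pow, e]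
    linear_combination (aeval x p - aeval x q * y) * h
  have h2 : p ^ 2 - q ^ 2 * cub A B = 0 := by
    by_contra h3
    exact hx ⟨_, h3, h1⟩
  have h3 : p ^ 2 = q ^ 2 * cub A B := sub_eq_zero.1 h2
  have hc : cub A B ≠ 0 := by
    intro h4
    have := natDegree_cub A B
    rw [h4, natDegree_zero] at this
    omega
  have hq : q = 0 := by
    by_contra hq
    have h4 := congrArg natDegree h3
    rw [natDegree_mul (pow_ne_zero 2 hq) hc, natDegree_pow, natDegree_pow, natDegree_cub] at h4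
    omega
  refine ⟨?_, hq⟩
  rw [hq] at h3
  simpa using h3

/-- the curve over `K` -/
private def WK (A B : K) : WeierstrassCurve K := SW A B

private theorem ev_eq (x y : L) (A B : K)
    (hy : y ^ 2 = x ^ 3 + algebraMap K L A * x ^ 2 + algebraMap K L B) :
    (WK A B).toAffine.polynomial.eval₂ (aeval x : K[X] →ₐ[K] L) y = 0 := by
  simp [WeierstrassCurve.Affine.polynomial, WK, SW, eval₂_sub, eval₂_add, eval₂_mul, eval₂_pow,
    WeierstrassCurve.toAffine]
  linear_combination hy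

/-- evaluation at a point -/
private noncomputable def ev (x y : L) (A B : K)
    (hy : y ^ 2 = x ^ 3 + algebraMap K L A * x ^ 2 + algebraMap K L B) :
    (WK A B).toAffine.CoordinateRing →ₐ[K] L :=
  AdjoinRoot.liftAlgHom _ (aeval x) y (ev_eq x y A B hy)

private theorem ev_mk (x y : L) (A B : K)
    (hy : y ^ 2 = x ^ 3 + algebraMap K L A * x ^ 2 + algebraMap K L B) (f : K[X][X]) :
    ev x y A B hy (AdjoinRoot.mk _ f) = f.eval₂ (aeval x : K[X] →ₐ[K] L) y := by
  unfold ev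
  exact AdjoinRoot.liftAlgHom_mk _ _ _ _ _

private theorem ev_inj (x y : L) (A B : K) (hx : Transcendental K x)
    (hy : y ^ 2 = x ^ 3 + algebraMap K L A * x ^ 2 + algebraMap K L B) :
    Function.Injective (ev x y A B hy) := by
  rw [injective_iff_map_eq_zero]
  intro g hg
  obtain ⟨p, q, rfl⟩ := WeierstrassCurve.Affine.CoordinateRing.exists_smul_basis_eq g
  rw [WeierstrassCurve.Affine.CoordinateRing.smul, WeierstrassCurve.Affine.CoordinateRing.smul,
    mul_one, map_add, map_mul] at hg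
  have e1 : ∀ f : K[X], ev x y A B hy (AdjoinRoot.mk _ (C f)) = aeval x f := fun f => by
    rw [ev_mk]; simp
  have e2 : ev x y A B hy (AdjoinRoot.mk _ X) = y := by rw [ev_mk]; simp
  erw [e1, e1, e2] at hg
  obtain ⟨rfl, rfl⟩ := key x y A B hx hy p q hg
  simp

private theorem ext_hom (A B : K) {L L' : Type} [Field L] [Field L'] [Algebra K L] [Algebra K L']
    (x y : L) (x' y' : L') (hx : Transcendental K x) (hx' : Transcendental K x')
    (hy : y ^ 2 = x ^ 3 + algebraMap K L A * x ^ 2 + algebraMap K L B)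
    (hy' : y' ^ 2 = x' ^ 3 + algebraMap K L' A * x' ^ 2 + algebraMap K L' B) :
    ∃ φ : IntermediateField.adjoin K ({x, y} : Set L) →ₐ[K] L',
      ∀ (hx : x ∈ IntermediateField.adjoin K ({x, y} : Set L))
        (hy : y ∈ IntermediateField.adjoin K ({x, y} : Set L)),
        φ ⟨x, hx⟩ = x' ∧ φ ⟨y, hy⟩ = y' := by
  let S := (WK A B).toAffine.CoordinateRing
  let Q := FractionRing S
  let F : Q →ₐ[K] L := IsFractionRing.liftAlgHom (ev_inj x y A B hx hy)
  let F' : Q →ₐ[K] L' := IsFractionRing.liftAlgHom (ev_inj x' y' A B hx' hy')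
  let X' : Q := algebraMap S Q (AdjoinRoot.mk _ (C X))
  let Y' : Q := algebraMap S Q (AdjoinRoot.mk _ X)
  have f1 : F X' = x := by
    show IsFractionRing.lift (ev_inj x y A B hx hy) _ = _
    rw [IsFractionRing.lift_algebraMap]
    erw [ev_mk]; simp
  have f2 : F Y' = y := by
    show IsFractionRing.lift (ev_inj x y A B hx hy) _ = _
    rw [IsFractionRing.lift_algebraMap]
    erw [ev_mk]; simp
  have f3 : F' X' = x' := by
    show IsFractionRing.lift (ev_inj x' y' A B hx' hy') _ = _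
    rw [IsFractionRing.lift_algebraMap]
    erw [ev_mk]; simp
  have f4 : F' Y' = y' := by
    show IsFractionRing.lift (ev_inj x' y' A B hx' hy') _ = _
    rw [IsFractionRing.lift_algebraMap]
    erw [ev_mk]; simp
  have hle : IntermediateField.adjoin K ({x, y} : Set L) ≤ F.fieldRange := by
    rw [IntermediateField.adjoin_le_iff]
    rintro t (rfl | rfl)
    · exact ⟨X', f1⟩
    · exact ⟨Y', f2⟩
  let e : Q ≃ₐ[K] F.fieldRange := AlgEquiv.ofInjectiveField F
  refine ⟨(F'.comp e.symm.toAlgHom).comp (IntermediateField.inclusion hle), fun h1 h2 => ⟨?_, ?_⟩⟩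
  · show F' (e.symm _) = x'
    rw [← f3]
    congr 1
    rw [AlgEquiv.symm_apply_eq]
    apply Subtype.ext
    exact f1.symm
  · show F' (e.symm _) = y'
    rw [← f4]
    congr 1
    rw [AlgEquiv.symm_apply_eq]
    apply Subtype.ext
    exact f2.symm

end g1

/-! ### algebraicity -/

section alg
open IntermediateField IntermediateField.algebraAdjoinAdjoin
variable {k L : Type} [Field k] [Field L] [Algebra k L]

private theorem alg_up {K K' : Subfield L} (h : K ≤ K') {x : L} (hx : IsAlgebraic K x) :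
    IsAlgebraic K' x := by
  obtain ⟨p, hp, hpx⟩ := hx
  refine ⟨p.map (Subfield.inclusion h),
    (Polynomial.map_ne_zero_iff (Subfield.inclusion h).injective).2 hp, ?_⟩
  rw [Polynomial.aeval_def, Polynomial.eval₂_map]
  exact hpx

private theorem mem_acl {K : Subfield L} {x : L} : x ∈ acl K ↔ IsAlgebraic K x :=
  mem_algebraicClosure_iff

private theorem alg_trans {K K' : Subfield L} (h : ∀ x ∈ K', IsAlgebraic K x) {x : L}
    (hx : IsAlgebraic K' x) : IsAlgebraic K x := by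
  have h1 : K' ≤ acl K := fun y hy => mem_acl.2 (h y hy)
  have h2 : IsAlgebraic (algebraicClosure K L) x := alg_up h1 hx
  exact h2.restrictScalars K

private theorem adj_alg (F0 : IntermediateField k L) (S : Set L)
    (hS : ∀ x ∈ S, IsAlgebraic F0 x) : ∀ z ∈ adjoin k S, IsAlgebraic F0 z := by
  intro z hz
  have h1 : adjoin k S ≤ (algebraicClosure F0 L).restrictScalars k := by
    rw [adjoin_le_iff]
    intro x hx
    exact mem_algebraicClosure_iff.2 (hS x hx)
  exact mem_algebraicClosure_iff.1 (h1 hz)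

private theorem cases' (p : Pt E2 L) : p = 0 ∨
    ∃ (x y : L) (h : (E2.baseChange L).toAffine.Nonsingular x y), p = .some x y h := by
  rcases p with _ | ⟨x, y, h⟩
  · exact Or.inl rfl
  · exact Or.inr ⟨x, y, h, rfl⟩

private theorem sq' {p : Pt E2 L} (hp : p ≠ 0) : yc p ^ 2 = xc p ^ 3 + 1 := by
  rcases cases' p with h | ⟨x, y, h, rfl⟩
  · exact absurd h hp
  · have h1 := h.1
    rw [WeierstrassCurve.Affine.equation_iff] at h1
    simp [E2, SW, WeierstrassCurve.baseChange, WeierstrassCurve.map] at h1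
    show y ^ 2 = x ^ 3 + 1
    exact h1

private theorem xc0 : xc (0 : Pt E2 L) = 0 := rfl
private theorem yc0 : yc (0 : Pt E2 L) = 0 := rfl

private theorem yc_alg (F0 : IntermediateField k L) (e : Pt E2 L) (h : IsAlgebraic F0 (xc e)) :
    IsAlgebraic F0 (yc e) := by
  by_cases he : e = 0
  · subst he; exact isAlgebraic_zero
  · have h1 := sq' he
    have h2 : IsAlgebraic F0 (yc e ^ 2) := by
      rw [h1]
      exact (h.pow 3).add isAlgebraic_one
    exact IsAlgebraic.of_pow (by norm_num) h2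

/-- from a field to a ring -/
private theorem alg_ring (S : Set L) {z : L} :
    IsAlgebraic (Algebra.adjoin k S) z ↔ IsAlgebraic (adjoin k S) z := by
  constructor
  · intro h
    exact h.extendScalars (FaithfulSMul.algebraMap_injective (Algebra.adjoin k S) (adjoin k S))
  · intro h
    exact h.restrictScalars (Algebra.adjoin k S)

end alg

/-! ### the number of homomorphisms -/

section count
open IntermediateField IntermediateField.algebraAdjoinAdjoin
variable {k M κ : Type} [Field k] [CharZero k] [Field M] [Algebra k M] [Field κ] [Algebra k κ]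

private theorem pair_range {α : Type} (a b : α) : Set.range ![a, b] = {a, b} := by
  simp [Matrix.range_cons, Matrix.range_empty, Set.pair_comm]

omit [CharZero k] in
private theorem tr_second {a b : M} (h : AlgebraicIndependent k ![a, b]) (E : IntermediateField k M)
    (hE : ∀ x ∈ E, IsAlgebraic (adjoin k {a}) x) : Transcendental E b := by
  have h1 := h.transcendental_adjoin (s := {0}) (i := 1) (by simp)
  rw [Set.image_singleton] at h1
  intro hb
  apply h1
  have h2 : IsAlgebraic (adjoin k {a}) b :=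
    alg_trans (K := (adjoin k {a}).toSubfield) (K' := E.toSubfield) hE hb
  exact (alg_ring _).2 h2

end count

/-! ### existence of homomorphisms -/

section exi
open IntermediateField IntermediateField.algebraAdjoinAdjoin
variable {k M κ : Type} [Field k] [CharZero k] [Field M] [Algebra k M] [Field κ] [Algebra k κ]

omit [CharZero k] in
private theorem ne0_of_tr {e : Pt E2 M} (he : Transcendental k (xc e)) : e ≠ 0 := by
  rintro rfl
  exact he isAlgebraic_zero

omit [CharZero k] in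
private theorem g1 (e : Pt E2 M) (P : Pt E2 κ) (he : Transcendental k (xc e))
    (hP : Transcendental k (xc P)) : ∃ φ : adjoin k (cs e) →ₐ[k] κ,
      ∀ (hx : xc e ∈ adjoin k (cs e)) (hy : yc e ∈ adjoin k (cs e)),
        φ ⟨xc e, hx⟩ = xc P ∧ φ ⟨yc e, hy⟩ = yc P := by
  have h1 := sq' (ne0_of_tr he)
  have h2 := sq' (ne0_of_tr hP)
  refine ext_hom (0 : k) (1 : k) (xc e) (yc e) (xc P) (yc P) he hP ?_ ?_
  · rw [h1, map_zero, map_one, zero_mul, add_zero]
  · rw [h2, map_zero, map_one, zero_mul, add_zero]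

omit [CharZero k] in
private theorem psi_exists [IsAlgClosed κ] (e e' : Pt E2 M) (P P' : Pt E2 κ)
    (h : AlgebraicIndependent k ![xc e, xc e']) (h' : AlgebraicIndependent k ![xc P, xc P'])
    (hal : ∀ z : M, IsAlgebraic (adjoin k (cs e ∪ cs e')) z) :
    ∃ ψ : M →ₐ[k] κ, ψ (xc e) = xc P ∧ ψ (yc e) = yc P ∧ ψ (xc e') = xc P' ∧ ψ (yc e') = yc P' := by
  obtain ⟨φ1, hφ1⟩ := g1 (k := k) e P (h.transcendental 0) (h'.transcendental 0)
  let E := adjoin k (cs e)
  have hxE : xc e ∈ E := subset_adjoin k _ (Or.inl rfl)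
  have hyE : yc e ∈ E := subset_adjoin k _ (Or.inr rfl)
  obtain ⟨hφx, hφy⟩ := hφ1 hxE hyE
  -- `κ` as an algebra over `E`
  letI : Algebra E κ := φ1.toRingHom.toAlgebra
  have hsm : ∀ x : E, algebraMap E κ x = φ1 x := fun _ => rfl
  have ht1 : Transcendental E (xc e') := by
    refine tr_second h E ?_
    refine adj_alg _ _ ?_
    have hx : IsAlgebraic (adjoin k {xc e}) (xc e) :=
      isAlgebraic_algebraMap (⟨xc e, subset_adjoin k _ rfl⟩ : adjoin k {xc e})
    rintro x (rfl | rfl)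
    · exact hx
    · exact yc_alg _ _ hx
  have ht2 : Transcendental E (xc P') := by
    have h3 : Transcendental (adjoin k (cs P)) (xc P') := by
      refine tr_second h' (adjoin k (cs P)) ?_
      refine adj_alg _ _ ?_
      have hx : IsAlgebraic (adjoin k {xc P}) (xc P) :=
        isAlgebraic_algebraMap (⟨xc P, subset_adjoin k _ rfl⟩ : adjoin k {xc P})
      rintro x (rfl | rfl)
      · exact hx
      · exact yc_alg _ _ hx
    have hr : ∀ x : E, φ1 x ∈ adjoin k (cs P) := by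
      have h4 : φ1.fieldRange ≤ adjoin k (cs P) := by
        have h5 : (⊤ : IntermediateField k E) = adjoin k {⟨xc e, hxE⟩, ⟨yc e, hyE⟩} := by
          symm
          rw [eq_top_iff]
          rintro ⟨x, hx⟩ -
          have h6 : (adjoin k {(⟨xc e, hxE⟩ : E), ⟨yc e, hyE⟩}).map E.val = E := by
            rw [adjoin_map]
            congr 1
            rw [Set.image_pair]
            rfl
          have h7 : x ∈ (adjoin k {(⟨xc e, hxE⟩ : E), ⟨yc e, hyE⟩}).map E.val := by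
            rw [h6]; exact hx
          obtain ⟨y, hy, hyx⟩ := h7
          have : y = ⟨x, hx⟩ := Subtype.ext hyx
          rw [← this]; exact hy
        rw [AlgHom.fieldRange_eq_map, h5, adjoin_map, Set.image_pair]
        rw [show φ1 (⟨xc e, hxE⟩ : E) = xc P from hφx, show φ1 (⟨yc e, hyE⟩ : E) = yc P from hφy]
        exact le_rfl
      intro x
      exact h4 ⟨x, rfl⟩
    intro hal
    apply h3
    obtain ⟨p, hp, hpx⟩ := hal
    let φ' : E →+* adjoin k (cs P) := φ1.toRingHom.codRestrict _ hr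
    refine ⟨p.map φ', (Polynomial.map_ne_zero_iff φ'.injective).2 hp, ?_⟩
    rw [Polynomial.aeval_def, Polynomial.eval₂_map]
    exact hpx
  obtain ⟨φ2, hφ2⟩ := g1 (k := E) e' P' ht1 ht2
  let E' := adjoin E (cs e')
  have hxE' : xc e' ∈ E' := subset_adjoin E _ (Or.inl rfl)
  have hyE' : yc e' ∈ E' := subset_adjoin E _ (Or.inr rfl)
  obtain ⟨hφx', hφy'⟩ := hφ2 hxE' hyE'
  letI : Algebra E' κ := φ2.toRingHom.toAlgebra
  have hle : (adjoin k (cs e ∪ cs e')).toSubfield ≤ E'.toSubfield := by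
    have h1 : adjoin k (cs e ∪ cs e') ≤ E'.restrictScalars k := by
      rw [adjoin_le_iff]
      rintro x (hx | hx)
      · exact E'.algebraMap_mem ⟨x, subset_adjoin k _ hx⟩
      · exact subset_adjoin E _ hx
    exact h1
  have halg : Algebra.IsAlgebraic E' M := ⟨fun z =>
    alg_up (K := (adjoin k (cs e ∪ cs e')).toSubfield) (K' := E'.toSubfield) hle (hal z)⟩
  let ψ : M →ₐ[E'] κ := IsAlgClosed.lift
  have hψ : ∀ x : E', ψ x = φ2 x := fun x => ψ.commutes x
  have hψE : ∀ x : E, ψ x = φ1 x := by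
    intro x
    have h1 : ((algebraMap E E' x : E') : M) = x := rfl
    rw [← h1, hψ, φ2.commutes]
    rfl
  let ψk : M →ₐ[k] κ := { ψ.toRingHom with
    commutes' := by
      intro r
      show ψ (algebraMap k M r) = algebraMap k κ r
      have h1 : algebraMap k M r = ((algebraMap k E r : E) : M) := rfl
      rw [h1, hψE, φ1.commutes] }
  refine ⟨ψk, ?_, ?_, ?_, ?_⟩
  · exact (hψE ⟨xc e, hxE⟩).trans hφx
  · exact (hψE ⟨yc e, hyE⟩).trans hφy
  · exact (hψ ⟨xc e', hxE'⟩).trans hφx'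
  · exact (hψ ⟨yc e', hyE'⟩).trans hφy'

end exi

/-! ### the count -/

section cnt
open IntermediateField IntermediateField.algebraAdjoinAdjoin
variable {k M κ : Type} [Field k] [Field M] [Algebra k M] [Field κ] [Algebra k κ]

private theorem ind_of_psi {e e' : Pt E2 M} {P P' : Pt E2 κ} (ψ : M →ₐ[k] κ)
    (h1 : ψ (xc e) = xc P) (h2 : ψ (xc e') = xc P')
    (h' : AlgebraicIndependent k ![xc P, xc P']) : AlgebraicIndependent k ![xc e, xc e'] := by
  refine AlgebraicIndependent.of_comp ψ ?_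
  have : (ψ ∘ ![xc e, xc e']) = ![xc P, xc P'] := by
    funext i
    fin_cases i
    · exact h1
    · exact h2
  rw [this]; exact h'

private theorem cs_alg (F0 : IntermediateField k M) {e : Pt E2 M} (h : xc e ∈ F0) :
    ∀ x ∈ cs e, IsAlgebraic F0 x := by
  have hx : IsAlgebraic F0 (xc e) := isAlgebraic_algebraMap (⟨xc e, h⟩ : F0)
  rintro x (rfl | rfl)
  · exact hx
  · exact yc_alg _ _ hx

private theorem alg_of_ind {e e' : Pt E2 M} (h : AlgebraicIndependent k ![xc e, xc e'])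
    (htr : Algebra.trdeg k M = 2) (z : M) : IsAlgebraic (adjoin k (cs e ∪ cs e')) z := by
  have h1 := h.isTranscendenceBasis_of_trdeg_le_of_finite (by rw [htr]; simp)
  have h2 := (isTranscendenceBasis_iff_algebraicIndependent_isAlgebraic.1 h1).2.isAlgebraic z
  rw [alg_ring] at h2
  refine alg_up (K := (adjoin k (Set.range ![xc e, xc e'])).toSubfield)
    (K' := (adjoin k (cs e ∪ cs e')).toSubfield) ?_ h2
  have : adjoin k (Set.range ![xc e, xc e']) ≤ adjoin k (cs e ∪ cs e') := by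
    refine adjoin.mono k _ _ ?_
    rintro _ ⟨i, rfl⟩
    fin_cases i
    · exact Or.inl (Or.inl rfl)
    · exact Or.inr (Or.inl rfl)
  exact this

private theorem ind_of_alg {e e' : Pt E2 M} (htr : Algebra.trdeg k M = 2)
    (hal : ∀ z : M, IsAlgebraic (adjoin k (cs e ∪ cs e')) z) :
    AlgebraicIndependent k ![xc e, xc e'] := by
  have h0 : ∀ x ∈ cs e ∪ cs e', IsAlgebraic (adjoin k (Set.range ![xc e, xc e'])) x := by
    rintro x (hx | hx)
    · exact cs_alg (adjoin k (Set.range ![xc e, xc e'])) (subset_adjoin k _ ⟨0, rfl⟩) x hx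
    · exact cs_alg (adjoin k (Set.range ![xc e, xc e'])) (subset_adjoin k _ ⟨1, rfl⟩) x hx
  have : Algebra.IsAlgebraic (Algebra.adjoin k (Set.range ![xc e, xc e'])) M := ⟨fun z =>
    (alg_ring _).2 (alg_trans (K := (adjoin k (Set.range ![xc e, xc e'])).toSubfield)
      (K' := (adjoin k (cs e ∪ cs e')).toSubfield) (adj_alg _ _ h0) (hal z))⟩
  exact (Algebra.IsAlgebraic.isTranscendenceBasis_of_le_trdeg_of_finite k ![xc e, xc e']
    (by rw [htr]; simp)).1

private theorem agree_adj (ψ ψ0 : M →ₐ[k] κ) (S : Set M) (h : ∀ x ∈ S, ψ x = ψ0 x) :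
    ∀ x ∈ adjoin k S, ψ x = ψ0 x := by
  have h1 : (adjoin k S).toSubfield ≤ RingHom.eqLocusField ψ.toRingHom ψ0.toRingHom := by
    show Subfield.closure _ ≤ _
    rw [Subfield.closure_le]
    rintro x (⟨c, rfl⟩ | hx)
    · show ψ _ = ψ0 _
      rw [ψ.commutes, ψ0.commutes]
    · exact h x hx
  exact fun x hx => h1 hx

private theorem count [CharZero k] [IsAlgClosed κ] (e e' : Pt E2 M) (P P' : Pt E2 κ) (S : Set M)
    (hS : S.Finite) (htop : adjoin k S = ⊤) (htr : Algebra.trdeg k M = 2)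
    (h' : AlgebraicIndependent k ![xc P, xc P']) :
    {ψ : M →ₐ[k] κ | ψ (xc e) = xc P ∧ ψ (yc e) = yc P ∧ ψ (xc e') = xc P' ∧
      ψ (yc e') = yc P'}.Finite ∧
    {ψ : M →ₐ[k] κ | ψ (xc e) = xc P ∧ ψ (yc e) = yc P ∧ ψ (xc e') = xc P' ∧
      ψ (yc e') = yc P'}.ncard = dg k (cs e ∪ cs e') := by
  by_cases hal : ∀ z : M, IsAlgebraic (adjoin k (cs e ∪ cs e')) z
  · obtain ⟨ψ0, ha, hb, hc, hd⟩ := psi_exists e e' P P' (ind_of_alg htr hal) h' hal
    let K1 := adjoin k (cs e ∪ cs e')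
    let φ0 : K1 →ₐ[k] κ := ψ0.comp K1.val
    let _ : Algebra K1 κ := φ0.toRingHom.toAlgebra
    have hst : IsScalarTower k K1 κ := IsScalarTower.of_algebraMap_eq fun x => (φ0.commutes x).symm
    have hSalg : ∀ x ∈ S, IsIntegral K1 x := fun x _ => (hal x).isIntegral
    have : Finite S := hS
    have hfd1 : FiniteDimensional K1 (adjoin K1 S) := finiteDimensional_adjoin hSalg
    have htop1 : adjoin K1 S = ⊤ := by
      rw [eq_top_iff]
      have h1 : adjoin k S ≤ (adjoin K1 S).restrictScalars k := by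
        rw [adjoin_le_iff]; exact subset_adjoin K1 S
      rw [htop] at h1
      intro x _
      exact h1 (mem_top : x ∈ (⊤ : IntermediateField k M))
    have hfd : FiniteDimensional K1 M := by
      rw [htop1] at hfd1
      exact Module.Finite.equiv (topEquiv (F := K1) (E := M)).toLinearEquiv
    have hset : {ψ : M →ₐ[k] κ | ψ (xc e) = xc P ∧ ψ (yc e) = yc P ∧ ψ (xc e') = xc P' ∧
        ψ (yc e') = yc P'} = Set.range (fun ψ : M →ₐ[K1] κ => ψ.restrictScalars k) := by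
      ext ψ
      constructor
      · rintro ⟨h1, h2, h3, h4⟩
        have hag : ∀ x : K1, ψ x = φ0 x := by
          intro x
          refine agree_adj ψ ψ0 _ ?_ x x.2
          rintro y ((rfl | rfl) | (rfl | rfl))
          · rw [h1, ha]
          · rw [h2, hb]
          · rw [h3, hc]
          · rw [h4, hd]
        refine ⟨{ ψ.toRingHom with commutes' := hag }, ?_⟩
        rfl
      · rintro ⟨ψ, rfl⟩
        have hag : ∀ x : K1, ψ x = ψ0 x := fun x => ψ.commutes x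
        refine ⟨?_, ?_, ?_, ?_⟩
        · exact (hag ⟨_, subset_adjoin k _ (Or.inl (Or.inl rfl))⟩).trans ha
        · exact (hag ⟨_, subset_adjoin k _ (Or.inl (Or.inr rfl))⟩).trans hb
        · exact (hag ⟨_, subset_adjoin k _ (Or.inr (Or.inl rfl))⟩).trans hc
        · exact (hag ⟨_, subset_adjoin k _ (Or.inr (Or.inr rfl))⟩).trans hd
    rw [hset]
    refine ⟨Set.finite_range _, ?_⟩
    rw [← Set.image_univ, Set.ncard_image_of_injective _ (AlgHom.restrictScalars_injective k),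
      Set.ncard_univ, Nat.card_eq_fintype_card, AlgHom.card]
    rfl
  · have hemp : {ψ : M →ₐ[k] κ | ψ (xc e) = xc P ∧ ψ (yc e) = yc P ∧ ψ (xc e') = xc P' ∧
        ψ (yc e') = yc P'} = ∅ := by
      rw [Set.eq_empty_iff_forall_notMem]
      rintro ψ ⟨h1, -, h3, -⟩
      exact hal (alg_of_ind (ind_of_psi ψ h1 h3 h') htr)
    rw [hemp]
    refine ⟨Set.finite_empty, ?_⟩
    rw [Set.ncard_empty]
    by_contra hne
    apply hal
    have hpos : 0 < Module.finrank (adjoin k (cs e ∪ cs e')) M := Nat.pos_of_ne_zero (Ne.symm hne)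
    have := Module.finite_of_finrank_pos hpos
    intro z
    exact (Algebra.IsAlgebraic.of_finite (adjoin k (cs e ∪ cs e')) M).isAlgebraic z

end cnt

/-! ### points over subfields -/

section pts
variable {Λ : Type} [Field Λ]

private theorem xc_inc (Kb : Subfield Λ) (a : Pt E2 Kb) :
    xc (inc Kb a) = ((xc a : Kb) : Λ) := by
  rcases a with _ | ⟨x, y, h⟩ <;> rfl

private theorem yc_inc (Kb : Subfield Λ) (a : Pt E2 Kb) :
    yc (inc Kb a) = ((yc a : Kb) : Λ) := by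
  rcases a with _ | ⟨x, y, h⟩ <;> rfl

private theorem ext' {p q : Pt E2 Λ} (hp : p ≠ 0) (hq : q ≠ 0) (h1 : xc p = xc q)
    (h2 : yc p = yc q) : p = q := by
  rcases cases' p with h' | ⟨x, y, h', rfl⟩
  · exact absurd h' hp
  rcases cases' q with h'' | ⟨x', y', h'', rfl⟩
  · exact absurd h'' hq
  change x = x' at h1
  change y = y' at h2
  subst h1; subst h2; rfl

private theorem inc_inj (Kb : Subfield Λ) : Function.Injective (inc Kb) := by
  rw [injective_iff_map_eq_zero]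
  intro a ha
  rcases cases' a with h | ⟨x, y, h, rfl⟩
  · exact h
  · exact absurd ha (WeierstrassCurve.Affine.Point.some_ne_zero _)

private theorem inc_lift (Kb : Subfield Λ) (P : Pt E2 Λ) (hx : xc P ∈ Kb) (hy : yc P ∈ Kb) :
    ∃ Q, inc Kb Q = P := by
  rcases cases' P with rfl | ⟨x, y, h, rfl⟩
  · exact ⟨0, map_zero _⟩
  · change x ∈ Kb at hx
    change y ∈ Kb at hy
    have hn : (E2.baseChange Kb).toAffine.Nonsingular (⟨x, hx⟩ : Kb) ⟨y, hy⟩ :=
      (WeierstrassCurve.Affine.baseChange_nonsingular (W := E2)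
        (f := Kb.subtype.toIntAlgHom) Subtype.val_injective _ _).1 h
    exact ⟨.some _ _ hn, rfl⟩

private theorem inc_comb (Kb : Subfield Λ) (a : Fin 3 → ℤ) (t : Fin 3 → Pt E2 Kb) :
    inc Kb (comb a t) = comb a (fun i => inc Kb (t i)) := by
  simp only [comb, map_sum, map_zsmul]

private theorem yc_ring (u : QV Λ) {P : Pt E2 Λ} (hP : P ≠ 0) (h : xc P ∈ u.ring) :
    yc P ∈ u.ring := by
  by_cases h0 : yc P = 0
  · rw [h0]; exact u.ring.zero_mem
  · have h1 : yc P ^ 2 ∈ u.ring := by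
      rw [sq' hP]
      exact u.ring.add_mem _ _ (pow_mem h 3) u.ring.one_mem
    rw [u.mem_ring_of (pow_ne_zero 2 h0), u.pow h0] at h1
    rw [u.mem_ring_of h0]
    push_cast at h1
    linarith

/-- the coordinates of a family of points -/
private def cc {J : Type} (P : J → Pt E2 Λ) (x : J × Bool) : Λ :=
  if x.2 then xc (P x.1) else yc (P x.1)

/-- the coordinates of the integral points -/
private def sc (u : QV Λ) {J : Type} (P : J → Pt E2 Λ) (x : J × Bool) : Λ :=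
  if u.v (xc (P x.1)) < 0 then 0 else cc P x

private theorem side (u : QV Λ) (kb : Subfield Λ) (hkb : ∀ c ∈ kb, c ≠ 0 → u.v c = 0)
    (red : Pt E2 Λ →+ Pt E2 u.κ) (hred : IsRed u red)
    (hinj : ∀ b : Pt E2 kb, red (inc kb b) = 0 → b = 0) (k : Subfield Λ) (hle : k ≤ kb)
    {J : Type} (W : J → Pt E2 Λ) (t : J → Pt E2 kb) (h : ∀ j, red (W j) = red (inc kb (t j)))
    (hW : ∀ j, W j ≠ 0 ∧ xc (W j) ≠ 0) (f : MvPolynomial (J × Bool) k) :
    MvPolynomial.aeval (sc u W) f ∈ u.ring ∧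
    (MvPolynomial.aeval (cc (fun j => inc kb (t j))) f = 0 ↔
      (MvPolynomial.aeval (sc u W) f = 0 ∨ 0 < u.v (MvPolynomial.aeval (sc u W) f))) := by
  have hk : ∀ c ∈ k, c ≠ 0 → u.v c = 0 := fun c hc => hkb c (hle hc)
  have hcb : ∀ i, cc (fun j => inc kb (t j)) i ∈ kb := by
    rintro ⟨j, b⟩
    unfold cc
    cases b
    · show yc (inc kb (t j)) ∈ kb
      rw [yc_inc]; exact (yc (t j)).2
    · show xc (inc kb (t j)) ∈ kb
      rw [xc_inc]; exact (xc (t j)).2
  have key : ∀ i, sc u W i ∈ u.ring ∧ u.res (sc u W i) = u.res (cc (fun j => inc kb (t j)) i) := by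
    rintro ⟨j, b⟩
    by_cases hv : u.v (xc (W j)) < 0
    · have h1 : sc u W (j, b) = 0 := if_pos hv
      have h2 : xc (W j) ∉ u.ring := by
        rw [u.mem_ring_of (hW j).2]; exact not_le.2 hv
      have h3 : t j = 0 := hinj _ (by rw [← h j]; exact hred.inf _ h2)
      have h4 : cc (fun j => inc kb (t j)) (j, b) = 0 := by
        unfold cc
        cases b
        · show yc (inc kb (t j)) = 0
          rw [h3, map_zero]; rfl
        · show xc (inc kb (t j)) = 0
          rw [h3, map_zero]; rfl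
      rw [h1, h4]
      exact ⟨u.ring.zero_mem, rfl⟩
    · have h2 : xc (W j) ∈ u.ring := by
        rw [u.mem_ring_of (hW j).2]; exact not_lt.1 hv
      have h1 : sc u W (j, b) = cc W (j, b) := if_neg hv
      obtain ⟨h3, h4, h5⟩ := hred.fin _ (hW j).1 h2
      have h6 : inc kb (t j) ≠ 0 := by
        intro h0
        apply h3
        rw [h j, h0, map_zero]
      have h7 : xc (inc kb (t j)) ∈ u.ring :=
        mem_ring_triv u kb hkb _ (by rw [xc_inc]; exact (xc (t j)).2)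
      obtain ⟨-, h8, h9⟩ := hred.fin _ h6 h7
      rw [h1]
      unfold cc
      cases b
      · show yc (W j) ∈ u.ring ∧ u.res (yc (W j)) = u.res (yc (inc kb (t j)))
        refine ⟨yc_ring u (hW j).1 h2, ?_⟩
        rw [← h5, ← h9, h j]
      · show xc (W j) ∈ u.ring ∧ u.res (xc (W j)) = u.res (xc (inc kb (t j)))
        refine ⟨h2, ?_⟩
        rw [← h4, ← h8, h j]
  have hc : ∀ i, cc (fun j => inc kb (t j)) i ∈ u.ring := fun i =>
    mem_ring_triv u kb hkb _ (hcb i)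
  exact ⟨(res_aeval u k hk _ _ (fun i => (key i).1) hc (fun i => (key i).2) f).1,
    rel_iff u k hk _ _ (fun i => (key i).1) hc (fun i => (key i).2) kb hkb hle hcb f⟩

end pts

/-! ### the general situation -/

section gen
open IntermediateField IntermediateField.algebraAdjoinAdjoin

/-- a residue field, a subfield and three points -/
private structure Gx (κ : Type) [Field κ] where
  k : Subfield κ
  wb : Fin 3 → Pt E2 κ

variable {κ : Type} [Field κ] (G : Gx κ)

private def Gx.k0 (m m' : Fin 3 → ℤ) : Subfield κ :=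
  Subfield.closure ((G.k : Set κ) ∪ (cs (comb m G.wb) ∪ cs (comb m' G.wb)))

private def Gx.kb (m m' : Fin 3 → ℤ) : Subfield κ := acl (G.k0 m m')

private def Gx.F : Subfield κ := Subfield.closure ((G.k : Set κ) ∪ ⋃ i, cs (G.wb i))

private def Gx.nu (m m' n : Fin 3 → ℤ) (β : Pt E2 (G.kb m m')) : QV κ :=
  atp (G.kb m m') (comb n G.wb) β

private def Gx.Dof (ν : QV κ) : κ → ℚ := fun H => if H ∈ G.F ∧ H ≠ 0 then ν.v H else 0

private structure Gx.Ok : Prop where
  fe : ∀ m m' n, Uni m m' n → fe (G.k0 m m') (comb n G.wb) = G.F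
  tr : ∀ m m' n, Uni m m' n → Transcendental (G.kb m m') (xc (comb n G.wb))
  ind : ∀ m m' n, Uni m m' n → AlgebraicIndependent G.k ![xc (comb m G.wb), xc (comb m' G.wb)]
  nz : ∀ i, xc (G.wb i) ≠ 0
  nu : ∀ m m' n, Uni m m' n → ∀ β, AtPt (G.kb m m') (comb n G.wb) β (G.nu m m' n β)
  al : ∀ x : κ, IsAlgebraic G.F x

variable {G}

private theorem k_le_F : G.k ≤ G.F := fun _ hx => Subfield.subset_closure (Or.inl hx)

private theorem k_le_k0 (m m' : Fin 3 → ℤ) : G.k ≤ G.k0 m m' :=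
  fun _ hx => Subfield.subset_closure (Or.inl hx)

private theorem k0_le_kb (m m' : Fin 3 → ℤ) : G.k0 m m' ≤ G.kb m m' := fun x hx =>
  mem_acl.2 (isAlgebraic_algebraMap (⟨x, hx⟩ : G.k0 m m'))

private theorem k_le_kb (m m' : Fin 3 → ℤ) : G.k ≤ G.kb m m' :=
  (k_le_k0 m m').trans (k0_le_kb m m')

private theorem ack' [IsAlgClosed κ] (m m' : Fin 3 → ℤ) : IsAlgClosed (G.kb m m') :=
  (algebraicClosure.isAlgClosure (G.k0 m m') κ).isAlgClosed

private theorem v_eq {ν ν1 : QV κ} (h : G.Dof ν1 = G.Dof ν) {H : κ} (hH : H ∈ G.F)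
    (h0 : H ≠ 0) : ν1.v H = ν.v H := by
  have := congrFun h H
  unfold Gx.Dof at this
  rwa [if_pos ⟨hH, h0⟩, if_pos ⟨hH, h0⟩] at this

private theorem ext'' {L : Type} [Field L] {p q : Pt E2 L} (h1 : xc p = xc q) (h2 : yc p = yc q) :
    p = q := by
  by_cases hp : p = 0
  · by_cases hq : q = 0
    · rw [hp, hq]
    · exfalso
      have := sq' hq
      rw [← h1, ← h2, hp, xc0, yc0] at this
      norm_num at this
  · by_cases hq : q = 0
    · exfalso
      have := sq' hp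
      rw [h1, h2, hq, xc0, yc0] at this
      norm_num at this
    · exact ext' hp hq h1 h2

variable [CharZero κ] [IsAlgClosed κ]

private theorem spec (ok : G.Ok) {m m' n : Fin 3 → ℤ} (ht : Uni m m' n) (β : Pt E2 (G.kb m m')) :
    ∃ (red : Pt E2 κ →+ Pt E2 (G.nu m m' n β).κ) (t : Fin 3 → Pt E2 (G.kb m m')),
      IsRed (G.nu m m' n β) red ∧ (∀ b, red (inc (G.kb m m') b) = 0 → b = 0) ∧
      (∀ i, red (G.wb i) = red (inc (G.kb m m') (t i))) ∧
      inc (G.kb m m') (comb m t) = comb m G.wb ∧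
      inc (G.kb m m') (comb m' t) = comb m' G.wb ∧ comb n t = β := by
  obtain ⟨red, h1, h2, h3⟩ := SPEC (G.kb m m') (comb n G.wb) (ok.tr m m' n ht) β _
    (ok.nu m m' n ht β)
  have hmem : ∀ x ∈ cs (comb m G.wb) ∪ cs (comb m' G.wb), x ∈ G.kb m m' := fun x hx =>
    k0_le_kb m m' (Subfield.subset_closure (Or.inr hx))
  obtain ⟨Pm, hPm⟩ := inc_lift (G.kb m m') (comb m G.wb) (hmem _ (Or.inl (Or.inl rfl)))
    (hmem _ (Or.inl (Or.inr rfl)))
  obtain ⟨Pm', hPm'⟩ := inc_lift (G.kb m m') (comb m' G.wb) (hmem _ (Or.inr (Or.inl rfl)))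
    (hmem _ (Or.inr (Or.inr rfl)))
  obtain ⟨t, e1, e2, e3⟩ := uni_ex ht Pm Pm' β
  have e1' : comb m t = Pm := e1
  have e2' : comb m' t = Pm' := e2
  have e3' : comb n t = β := e3
  refine ⟨red, t, h1, h3, ?_, ?_, ?_, e3'⟩
  · have key : ∀ (a : Fin 3 → ℤ), red (comb a G.wb) = red (inc (G.kb m m') (comb a t)) →
        ∑ i, a i • red (G.wb i) = ∑ i, a i • red (inc (G.kb m m') (t i)) := by
      intro a ha
      rw [inc_comb] at ha
      simpa only [comb, map_sum, map_zsmul] using ha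
    have := uni_ext ht (fun i => red (G.wb i)) (fun i => red (inc (G.kb m m') (t i)))
      (key m (by rw [e1', hPm])) (key m' (by rw [e2', hPm'])) (key n (by rw [e3', h2]))
    exact fun i => congrFun this i
  · rw [e1', hPm]
  · rw [e2', hPm']

omit [CharZero κ] [IsAlgClosed κ] in
private theorem claimA (ok : G.Ok) {m m' m1 m1' : Fin 3 → ℤ} (ν ν1 : QV κ)
    (hν : ∀ c ∈ G.kb m m', c ≠ 0 → ν.v c = 0) (hν1 : ∀ c ∈ G.kb m1 m1', c ≠ 0 → ν1.v c = 0)
    (h : G.Dof ν1 = G.Dof ν)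
    (red : Pt E2 κ →+ Pt E2 ν.κ) (t : Fin 3 → Pt E2 (G.kb m m')) (h1 : IsRed ν red)
    (h2 : ∀ b, red (inc (G.kb m m') b) = 0 → b = 0)
    (h3 : ∀ i, red (G.wb i) = red (inc (G.kb m m') (t i)))
    (red1 : Pt E2 κ →+ Pt E2 ν1.κ) (t1 : Fin 3 → Pt E2 (G.kb m1 m1')) (h11 : IsRed ν1 red1)
    (h12 : ∀ b, red1 (inc (G.kb m1 m1') b) = 0 → b = 0)
    (h13 : ∀ i, red1 (G.wb i) = red1 (inc (G.kb m1 m1') (t1 i)))
    (f : MvPolynomial (Fin 3 × Bool) G.k) :
    MvPolynomial.aeval (cc (fun i => inc (G.kb m m') (t i))) f = 0 ↔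
      MvPolynomial.aeval (cc (fun i => inc (G.kb m1 m1') (t1 i))) f = 0 := by
  have hW : ∀ j, G.wb j ≠ 0 ∧ xc (G.wb j) ≠ 0 := fun j =>
    ⟨fun h0 => ok.nz j (by rw [h0]; rfl), ok.nz j⟩
  obtain ⟨-, s1⟩ := side ν (G.kb m m') hν red h1 h2 G.k (k_le_kb m m') G.wb t h3 hW f
  obtain ⟨-, s2⟩ := side ν1 (G.kb m1 m1') hν1 red1 h11 h12 G.k (k_le_kb m1 m1') G.wb t1 h13 hW f
  have hxF : ∀ j, xc (G.wb j) ∈ G.F := fun j =>
    Subfield.subset_closure (Or.inr (Set.mem_iUnion.2 ⟨j, Or.inl rfl⟩))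
  have hyF : ∀ j, yc (G.wb j) ∈ G.F := fun j =>
    Subfield.subset_closure (Or.inr (Set.mem_iUnion.2 ⟨j, Or.inr rfl⟩))
  have hsc : sc ν1 G.wb = sc ν G.wb := by
    funext ⟨j, b⟩
    unfold sc
    rw [v_eq h (hxF j) (ok.nz j)]
  have hmem : MvPolynomial.aeval (sc ν G.wb) f ∈ G.F := by
    refine aeval_mem G.k G.F (fun x => k_le_F x.2) _ ?_ f
    rintro ⟨j, b⟩
    unfold sc cc
    split_ifs
    · exact G.F.zero_mem
    · exact hxF j
    · exact hyF j
  rw [s1, s2, hsc]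
  by_cases h0 : MvPolynomial.aeval (sc ν G.wb) f = 0
  · simp [h0]
  · rw [v_eq h hmem h0]

end gen

/-! ### homomorphisms and points -/

section mpf
open IntermediateField IntermediateField.algebraAdjoinAdjoin
variable {k M κ : Type} [Field k] [Field M] [Field κ] [Algebra k M] [Algebra k κ]

private theorem xc_mp (f : M →ₐ[k] κ) (Q : Pt E2 M) : xc (mp f Q) = f (xc Q) := by
  rcases Q with _ | ⟨x, y, h⟩
  · exact (map_zero f).symm
  · rfl

private theorem yc_mp (f : M →ₐ[k] κ) (Q : Pt E2 M) : yc (mp f Q) = f (yc Q) := by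
  rcases Q with _ | ⟨x, y, h⟩
  · exact (map_zero f).symm
  · rfl

private theorem mp_comb (f : M →ₐ[k] κ) (a : Fin 3 → ℤ) (t : Fin 3 → Pt E2 M) :
    mp f (comb a t) = comb a (fun i => mp f (t i)) := by
  simp only [comb, map_sum, map_zsmul]

private theorem img_mem (ψ : M →ₐ[k] κ) (S : Set M) (K' : Subfield κ)
    (hk : ∀ c : k, algebraMap k κ c ∈ K') (hS : ∀ x ∈ S, ψ x ∈ K') :
    ∀ x ∈ adjoin k S, ψ x ∈ K' := by
  have h1 : (adjoin k S).toSubfield ≤ K'.comap ψ.toRingHom := by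
    show Subfield.closure _ ≤ _
    rw [Subfield.closure_le]
    rintro x (⟨c, rfl⟩ | hx)
    · show ψ _ ∈ K'
      rw [ψ.commutes]; exact hk c
    · exact hS x hx
  exact fun x hx => h1 hx

private theorem img_alg (ψ : M →ₐ[k] κ) (S : Set M) (K' : Subfield κ)
    (hk : ∀ c : k, algebraMap k κ c ∈ K') (hS : ∀ x ∈ S, ψ x ∈ K') {z : M}
    (hz : IsAlgebraic (adjoin k S) z) : IsAlgebraic K' (ψ z) := by
  obtain ⟨p, hp, hpz⟩ := hz
  let φ : adjoin k S →+* K' := (ψ.toRingHom.comp (adjoin k S).val.toRingHom).codRestrict K'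
    (fun x => img_mem ψ S K' hk hS x x.2)
  refine ⟨p.map φ, (Polynomial.map_ne_zero_iff φ.injective).2 hp, ?_⟩
  rw [Polynomial.aeval_def, Polynomial.eval₂_map]
  have h1 : (algebraMap K' κ).comp φ = ψ.toRingHom.comp (algebraMap (adjoin k S) M) := rfl
  have h2 : ψ z = ψ.toRingHom z := rfl
  rw [h1, h2, ← Polynomial.hom_eval₂, ← Polynomial.aeval_def, hpz, map_zero]

private theorem alg_pull (ψ : M →ₐ[k] κ) (K : Subfield M) (K' : Subfield κ)
    (h : K' ≤ K.map ψ.toRingHom) {z : M} (hz : IsAlgebraic K' (ψ z)) : IsAlgebraic K z := by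
  obtain ⟨p, hp, hpz⟩ := alg_up h hz
  let f : K →+* K.map ψ.toRingHom := (ψ.toRingHom.comp K.subtype).codRestrict _
    (fun x => ⟨x, x.2, rfl⟩)
  have hf : Function.Surjective f := by
    rintro ⟨_, x, hx, rfl⟩
    exact ⟨⟨x, hx⟩, rfl⟩
  obtain ⟨q, rfl⟩ := Polynomial.map_surjective f hf p
  refine ⟨q, fun h0 => hp (by rw [h0, Polynomial.map_zero]), ?_⟩
  apply ψ.toRingHom.injective
  rw [map_zero, Polynomial.aeval_def, Polynomial.hom_eval₂]
  rw [Polynomial.aeval_def, Polynomial.eval₂_map] at hpz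
  exact hpz

private theorem conj {M Ω Ω' : Type} [Field M] [Field Ω] [Field Ω'] [IsAlgClosed Ω]
    [IsAlgClosed Ω'] [Algebra M Ω] [Algebra M Ω'] [Algebra.IsAlgebraic M Ω]
    [Algebra.IsAlgebraic M Ω'] :
    ∃ g : Ω ≃+* Ω', ∀ z : M, g (algebraMap M Ω z) = algebraMap M Ω' z := by
  have h1 : IsAlgClosure M Ω := ⟨inferInstance, inferInstance⟩
  have h2 : IsAlgClosure M Ω' := ⟨inferInstance, inferInstance⟩
  exact ⟨(IsAlgClosure.equiv M Ω Ω').toRingEquiv, fun z => (IsAlgClosure.equiv M Ω Ω').commutes z⟩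

private theorem conj2 {M Ω : Type} [Field M] [Field Ω] [IsAlgClosed Ω] (f f2 : M →+* Ω)
    (hf : ∀ x : Ω, ∃ q : Polynomial M, q ≠ 0 ∧ q.eval₂ f x = 0)
    (hf2 : ∀ x : Ω, ∃ q : Polynomial M, q ≠ 0 ∧ q.eval₂ f2 x = 0) :
    ∃ g : Ω ≃+* Ω, ∀ z : M, g (f2 z) = f z := by
  have h1 : @Algebra.IsAlgebraic M Ω _ _ f.toAlgebra :=
    @Algebra.IsAlgebraic.mk M Ω _ _ f.toAlgebra hf
  have h2 : @Algebra.IsAlgebraic M Ω _ _ f2.toAlgebra :=
    @Algebra.IsAlgebraic.mk M Ω _ _ f2.toAlgebra hf2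
  exact @conj M Ω Ω _ _ _ _ _ f2.toAlgebra f.toAlgebra h2 h1

private theorem alg_over (ψ : M →+* κ) (K Kb : Subfield κ) (hψ : ∀ z, ψ z ∈ Kb)
    (h : K ≤ ψ.fieldRange) (x : Kb) (hx : IsAlgebraic K (x : κ)) :
    ∃ q : Polynomial M, q ≠ 0 ∧ q.eval₂ (ψ.codRestrict Kb hψ) x = 0 := by
  obtain ⟨p, hp, hpx⟩ := alg_up h hx
  have hsur : Function.Surjective ψ.rangeRestrictField := by
    rintro ⟨_, x, rfl⟩
    exact ⟨x, rfl⟩
  obtain ⟨q, rfl⟩ := Polynomial.map_surjective ψ.rangeRestrictField hsur p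
  refine ⟨q, fun h0 => hp (by rw [h0, Polynomial.map_zero]), ?_⟩
  apply Kb.subtype.injective
  rw [map_zero, Polynomial.hom_eval₂]
  rw [Polynomial.aeval_def, Polynomial.eval₂_map] at hpx
  exact hpx

end mpf

/-! ### triviality on the subfield -/

section tri
open IntermediateField IntermediateField.algebraAdjoinAdjoin
variable {κ : Type} [Field κ]

private theorem frac (u : QV κ) (k : Subfield κ) {J : Type} (W : J → Pt E2 κ)
    (h : ∀ f : MvPolynomial (J × Bool) k, MvPolynomial.aeval (cc W) f ≠ 0 →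
      u.v (MvPolynomial.aeval (cc W) f) = 0) (c : κ)
    (hc : c ∈ adjoin k (Set.range (cc W))) (h0 : c ≠ 0) : u.v c = 0 := by
  obtain ⟨a, ha, b, hb, hab⟩ := mem_adjoin_iff_div.1 hc
  rw [Algebra.adjoin_range_eq_range_aeval] at ha hb
  obtain ⟨f, rfl⟩ := ha
  obtain ⟨g, rfl⟩ := hb
  have hf : MvPolynomial.aeval (cc W) f ≠ 0 := by
    intro hf; apply h0
    rw [hab]
    show MvPolynomial.aeval (cc W) f / _ = 0
    rw [hf, zero_div]
  have hg : MvPolynomial.aeval (cc W) g ≠ 0 := by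
    intro hg; apply h0
    rw [hab]
    show _ / MvPolynomial.aeval (cc W) g = 0
    rw [hg, div_zero]
  have h1 := u.div hf hg
  rw [h f hf, h g hg, sub_zero] at h1
  rw [hab]; exact h1

end tri

/-! ### claim B -/

section claimB
open IntermediateField IntermediateField.algebraAdjoinAdjoin
variable {κ : Type} [Field κ] {G : Gx κ}

private theorem cc_mp {k M : Type} [Field k] [Field M] [Algebra k M] [Algebra k κ] {J : Type}
    (ψ : M →ₐ[k] κ) (P : J → Pt E2 M) : cc (fun j => mp ψ (P j)) = fun x => ψ (cc P x) := by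
  funext ⟨j, b⟩
  unfold cc
  cases b
  · exact yc_mp ψ _
  · exact xc_mp ψ _

private theorem aeval_mp {k M : Type} [Field k] [Field M] [Algebra k M] [Algebra k κ] {J : Type}
    (ψ : M →ₐ[k] κ) (P : J → Pt E2 M) (f : MvPolynomial (J × Bool) k) :
    MvPolynomial.aeval (cc (fun j => mp ψ (P j))) f = ψ (MvPolynomial.aeval (cc P) f) := by
  rw [cc_mp, MvPolynomial.aeval_def, MvPolynomial.aeval_def, ← AlgHom.coe_toRingHom ψ,
    MvPolynomial.hom_eval₂]
  congr 1
  exact (ψ.comp_algebraMap).symm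

/-- the valuation is trivial on `k(m₁ w, m₁' w)` -/
private theorem trivB (ok : G.Ok) {m m' m1 m1' n1 : Fin 3 → ℤ} (ht1 : Uni m1 m1' n1) (ν : QV κ)
    (hν : ∀ c ∈ G.kb m m', c ≠ 0 → ν.v c = 0)
    (red : Pt E2 κ →+ Pt E2 ν.κ) (t : Fin 3 → Pt E2 (G.kb m m')) (h1 : IsRed ν red)
    (h2 : ∀ b, red (inc (G.kb m m') b) = 0 → b = 0)
    (h3 : ∀ i, red (G.wb i) = red (inc (G.kb m m') (t i)))
    {M : Type} [Field M] [Algebra G.k M] (w : Fin 3 → Pt E2 M)
    (ψ0 : M →ₐ[G.k] κ) (hψ0 : ∀ i, mp ψ0 (w i) = inc (G.kb m m') (t i))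
    (ψ : M →ₐ[G.k] κ) (hψ : mp ψ (comb m1 w) = comb m1 G.wb)
    (hψ' : mp ψ (comb m1' w) = comb m1' G.wb) :
    ∀ c ∈ G.k0 m1 m1', c ≠ 0 → ν.v c = 0 := by
  let W : Bool → Pt E2 κ := fun j => bif j then comb m1 G.wb else comb m1' G.wb
  let T : Bool → Pt E2 (G.kb m m') := fun j => bif j then comb m1 t else comb m1' t
  let w2 : Bool → Pt E2 M := fun j => bif j then comb m1 w else comb m1' w
  have hred : ∀ a : Fin 3 → ℤ, red (comb a G.wb) = red (inc (G.kb m m') (comb a t)) := by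
    intro a
    rw [inc_comb]
    simp only [comb, map_sum, map_zsmul, h3]
  have hψ0' : ∀ a : Fin 3 → ℤ, mp ψ0 (comb a w) = inc (G.kb m m') (comb a t) := by
    intro a
    rw [mp_comb, inc_comb]
    congr 1
    funext i
    exact hψ0 i
  have hWT : ∀ j, red (W j) = red (inc (G.kb m m') (T j)) := by
    rintro (_ | _)
    · exact hred m1'
    · exact hred m1
  have hT : (fun j => inc (G.kb m m') (T j)) = fun j => mp ψ0 (w2 j) := by
    funext j
    cases j
    · exact (hψ0' m1').symm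
    · exact (hψ0' m1).symm
  have hWw : W = fun j => mp ψ (w2 j) := by
    funext j
    cases j
    · exact hψ'.symm
    · exact hψ.symm
  have hind := ok.ind m1 m1' n1 ht1
  have hxW : ∀ j, xc (W j) ≠ 0 := by
    rintro (_ | _)
    · exact hind.ne_zero 1
    · exact hind.ne_zero 0
  have hW : ∀ j, W j ≠ 0 ∧ xc (W j) ≠ 0 := fun j => ⟨fun h0 => hxW j (by rw [h0]; rfl), hxW j⟩
  have hsc : sc ν W = cc W := by
    funext ⟨j, b⟩
    unfold sc
    rw [if_neg]
    intro hlt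
    have h4 : xc (W j) ∉ ν.ring := by
      rw [ν.mem_ring_of (hW j).2]; exact not_le.2 hlt
    have h5 : T j = 0 := h2 _ (by rw [← hWT j]; exact h1.inf _ h4)
    have h6 : mp ψ0 (w2 j) = 0 := by
      rw [← congrFun hT j]
      show inc (G.kb m m') (T j) = 0
      rw [h5, map_zero]
    have h7 : ψ0 (xc (w2 j)) = 0 := by rw [← xc_mp, h6]; rfl
    have h8 : xc (w2 j) = 0 := (map_eq_zero_iff ψ0 ψ0.toRingHom.injective).1 h7
    apply hxW j
    rw [hWw]
    show xc (mp ψ (w2 j)) = 0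
    rw [xc_mp, h8, map_zero]
  have hmain : ∀ f : MvPolynomial (Bool × Bool) G.k, MvPolynomial.aeval (cc W) f ≠ 0 →
      ν.v (MvPolynomial.aeval (cc W) f) = 0 := by
    intro f hf
    obtain ⟨s1, s2⟩ := side ν (G.kb m m') hν red h1 h2 G.k (k_le_kb m m') W T hWT hW f
    rw [hsc] at s1 s2
    refine le_antisymm ?_ ((ν.mem_ring_of hf).1 s1)
    by_contra hlt
    have h4 := s2.2 (Or.inr (not_le.1 hlt))
    rw [hT, aeval_mp] at h4
    have h5 := (map_eq_zero_iff ψ0 ψ0.toRingHom.injective).1 h4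
    apply hf
    rw [hWw, aeval_mp, h5, map_zero]
  intro c hc h0
  refine frac ν G.k W hmain c ?_ h0
  have hle : G.k0 m1 m1' ≤ (adjoin G.k (Set.range (cc W))).toSubfield := by
    unfold Gx.k0
    rw [Subfield.closure_le]
    rintro x (hx | ((rfl | rfl) | (rfl | rfl)))
    · exact (adjoin G.k (Set.range (cc W))).algebraMap_mem ⟨x, hx⟩
    · exact subset_adjoin G.k _ ⟨(true, true), rfl⟩
    · exact subset_adjoin G.k _ ⟨(true, false), rfl⟩
    · exact subset_adjoin G.k _ ⟨(false, true), rfl⟩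
    · exact subset_adjoin G.k _ ⟨(false, false), rfl⟩
  exact hle hc

end claimB

/-! ### claim B, end -/

section claimB2
open IntermediateField IntermediateField.algebraAdjoinAdjoin
variable {κ : Type} [Field κ] [CharZero κ] [IsAlgClosed κ] {G : Gx κ}

private theorem xc_mpz {A B : Type} [Field A] [Field B] (f : A →ₐ[ℤ] B) (Q : Pt E2 A) :
    xc (mp (P := ℤ) f Q) = f (xc Q) := by
  rcases Q with _ | ⟨x, y, h⟩
  · exact (map_zero f).symm
  · rfl

private theorem yc_mpz {A B : Type} [Field A] [Field B] (f : A →ₐ[ℤ] B) (Q : Pt E2 A) :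
    yc (mp (P := ℤ) f Q) = f (yc Q) := by
  rcases Q with _ | ⟨x, y, h⟩
  · exact (map_zero f).symm
  · rfl

omit [CharZero κ] [IsAlgClosed κ] in
private theorem F_le_fe (ok : G.Ok) {m m' n : Fin 3 → ℤ} (ht : Uni m m' n) :
    G.F ≤ fe (G.kb m m') (comb n G.wb) := by
  rw [← ok.fe m m' n ht]
  exact Subfield.closure_mono (Set.union_subset_union_left _ (k0_le_kb m m'))

private theorem unifF (ok : G.Ok) {m m' n : Fin 3 → ℤ} (ht : Uni m m' n) (β : Pt E2 (G.kb m m')) :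
    ∃ H ∈ G.F, H ≠ 0 ∧ (G.nu m m' n β).v H = 1 := by
  obtain ⟨H, h1, h2⟩ := UR (G.k0 m m') (G.kb m m') (fun x => mem_acl) (comb n G.wb)
    (ok.tr m m' n ht) β _ (ok.nu m m' n ht β)
  rw [ok.fe m m' n ht] at h1
  exact ⟨H, h1, h2⟩

/-- a valuation trivial on `kb m₁ m₁'` with the values of `ν` is one of the `ν₁` -/
private theorem same (ok : G.Ok) {m m' n m1 m1' n1 : Fin 3 → ℤ} (ht : Uni m m' n)
    (ht1 : Uni m1 m1' n1) (β : Pt E2 (G.kb m m'))
    (htriv : ∀ c ∈ G.k0 m1 m1', c ≠ 0 → (G.nu m m' n β).v c = 0) :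
    ∃ β2 : Pt E2 (G.kb m1 m1'), G.Dof (G.nu m1 m1' n1 β2) = G.Dof (G.nu m m' n β) := by
  have := ack' (G := G) m1 m1'
  obtain ⟨H0, hH0, hH00, hH01⟩ := unifF ok ht β
  obtain ⟨a, r, hr, ha⟩ := C1P (G.kb m1 m1') (comb n1 G.wb) (ok.tr m1 m1' n1 ht1)
    (G.nu m1 m1' n1) (ok.nu m1 m1' n1 ht1) (G.nu m m' n β)
    (fun c hc h0 => TRIV (G.nu m m' n β) (G.k0 m1 m1') htriv c hc h0)
    ⟨H0, F_le_fe ok ht1 hH0, hH00, by rw [hH01]; norm_num⟩
  obtain ⟨H1, hH1, hH10, hH11⟩ := unifF ok ht1 a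
  have e1 := ha H0 (F_le_fe ok ht1 hH0) hH00
  obtain ⟨i, hi⟩ := (ok.nu m1 m1' n1 ht1 a).int H0 (F_le_fe ok ht1 hH0) hH00
  have e2 := ha H1 (F_le_fe ok ht1 hH1) hH10
  obtain ⟨j, hj⟩ := (ok.nu m m' n ht β).int H1 (F_le_fe ok ht hH1) hH10
  rw [hH01, hi] at e1
  rw [hH11, hj, mul_one] at e2
  rw [← e2] at e1 hr
  have hj0 : 0 < j := by exact_mod_cast hr
  have hji : j * i = 1 := by exact_mod_cast e1.symm
  have hj1 : j = 1 := by
    rcases Int.eq_one_or_neg_one_of_mul_eq_one hji with h | h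
    · exact h
    · omega
  refine ⟨a, ?_⟩
  funext H
  unfold Gx.Dof
  by_cases hH : H ∈ G.F ∧ H ≠ 0
  · rw [if_pos hH, if_pos hH, ha H (F_le_fe ok ht1 hH.1) hH.2, ← e2, hj1]
    norm_num
  · rw [if_neg hH, if_neg hH]

private theorem range_cc {M : Type} [Field M] (w : Fin 3 → Pt E2 M) :
    Set.range (cc w) = ⋃ i, cs (w i) := by
  ext x
  constructor
  · rintro ⟨⟨j, b⟩, rfl⟩
    refine Set.mem_iUnion.2 ⟨j, ?_⟩
    cases b
    · exact Or.inr rfl
    · exact Or.inl rfl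
  · intro hx
    obtain ⟨j, hx | hx⟩ := Set.mem_iUnion.1 hx
    · exact ⟨(j, true), hx.symm⟩
    · exact ⟨(j, false), hx.symm⟩

/-- claim A, homomorphisms -/
private theorem homA (ok : G.Ok) {m m' n m1 m1' n1 : Fin 3 → ℤ} (ht : Uni m m' n)
    (ht1 : Uni m1 m1' n1) (β : Pt E2 (G.kb m m'))
    (red : Pt E2 κ →+ Pt E2 (G.nu m m' n β).κ) (t : Fin 3 → Pt E2 (G.kb m m'))
    (h1 : IsRed (G.nu m m' n β) red)
    (h2 : ∀ b, red (inc (G.kb m m') b) = 0 → b = 0)
    (h3 : ∀ i, red (G.wb i) = red (inc (G.kb m m') (t i)))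
    {M : Type} [Field M] [Algebra G.k M] (w : Fin 3 → Pt E2 M)
    (htop : adjoin G.k (⋃ i, cs (w i)) = ⊤)
    (ψ0 : M →ₐ[G.k] κ) (hψ0 : ∀ i, mp ψ0 (w i) = inc (G.kb m m') (t i))
    (β2 : Pt E2 (G.kb m1 m1')) (hD : G.Dof (G.nu m1 m1' n1 β2) = G.Dof (G.nu m m' n β)) :
    ∃ ψ : M →ₐ[G.k] κ, mp ψ (comb m1 w) = comb m1 G.wb ∧ mp ψ (comb m1' w) = comb m1' G.wb ∧
      mp ψ (comb n1 w) = inc (G.kb m1 m1') β2 := by
  obtain ⟨red1, t1, g1, g2, g3, g4, g5, g6⟩ := spec ok ht1 β2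
  have hA := claimA ok (G.nu m m' n β) (G.nu m1 m1' n1 β2) (ok.nu m m' n ht β).triv
    (ok.nu m1 m1' n1 ht1 β2).triv hD red t h1 h2 h3 red1 t1 g1 g2 g3
  have hrel : ∀ f : MvPolynomial (Fin 3 × Bool) G.k, MvPolynomial.aeval (cc w) f = 0 ↔
      MvPolynomial.aeval (cc (fun i => inc (G.kb m1 m1') (t1 i))) f = 0 := by
    intro f
    rw [← hA f, ← map_eq_zero_iff ψ0 ψ0.toRingHom.injective, ← aeval_mp]
    simp only [hψ0]
  obtain ⟨ψ, hψ⟩ := hom_of_rel (cc w) _ hrel (by rw [range_cc]; exact htop)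
  have hw : ∀ i, mp ψ (w i) = inc (G.kb m1 m1') (t1 i) := fun i =>
    ext'' (by rw [xc_mp]; exact hψ (i, true)) (by rw [yc_mp]; exact hψ (i, false))
  have hcomb : ∀ a : Fin 3 → ℤ, mp ψ (comb a w) = inc (G.kb m1 m1') (comb a t1) := by
    intro a
    rw [mp_comb, inc_comb]
    simp only [hw]
  exact ⟨ψ, by rw [hcomb, g4], by rw [hcomb, g5], by rw [hcomb, g6]⟩

/-- claim B -/
private theorem homB (ok : G.Ok) {m m' n m1 m1' n1 : Fin 3 → ℤ} (ht : Uni m m' n)
    (ht1 : Uni m1 m1' n1) (β : Pt E2 (G.kb m m'))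
    (red : Pt E2 κ →+ Pt E2 (G.nu m m' n β).κ) (t : Fin 3 → Pt E2 (G.kb m m'))
    (h1 : IsRed (G.nu m m' n β) red)
    (h2 : ∀ b, red (inc (G.kb m m') b) = 0 → b = 0)
    (h3 : ∀ i, red (G.wb i) = red (inc (G.kb m m') (t i)))
    {M : Type} [Field M] [Algebra G.k M] (w : Fin 3 → Pt E2 M)
    (htop : adjoin G.k (⋃ i, cs (w i)) = ⊤) (htr : Algebra.trdeg G.k M = 2)
    (ψ0 : M →ₐ[G.k] κ) (hψ0 : ∀ i, mp ψ0 (w i) = inc (G.kb m m') (t i))
    (ψ : M →ₐ[G.k] κ) (hψ : mp ψ (comb m1 w) = comb m1 G.wb)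
    (hψ' : mp ψ (comb m1' w) = comb m1' G.wb) :
    ∃ β1 : Pt E2 (G.kb m1 m1'), G.Dof (G.nu m1 m1' n1 β1) = G.Dof (G.nu m m' n β) ∧
      mp ψ (comb n1 w) = inc (G.kb m1 m1') β1 := by
  have hacl := ack' (G := G) m1 m1'
  have htriv := trivB ok ht1 (G.nu m m' n β) (ok.nu m m' n ht β).triv red t h1 h2 h3 w ψ0 hψ0 ψ
    hψ hψ'
  obtain ⟨β2, hβ2⟩ := same ok ht ht1 β htriv
  obtain ⟨ψ2, p1, p2, p3⟩ := homA ok ht ht1 β red t h1 h2 h3 w htop ψ0 hψ0 β2 hβ2
  have hind := ok.ind m1 m1' n1 ht1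
  have hx : ∀ {χ : M →ₐ[G.k] κ} {a : Fin 3 → ℤ}, mp χ (comb a w) = comb a G.wb →
      χ (xc (comb a w)) = xc (comb a G.wb) ∧ χ (yc (comb a w)) = yc (comb a G.wb) := by
    intro χ a h
    exact ⟨by rw [← xc_mp, h], by rw [← yc_mp, h]⟩
  have hal : ∀ z : M, IsAlgebraic (adjoin G.k (cs (comb m1 w) ∪ cs (comb m1' w))) z :=
    alg_of_ind (ind_of_psi ψ (hx hψ).1 (hx hψ').1 hind) htr
  -- the images are in `kb`
  have hk : ∀ c : G.k, algebraMap G.k κ c ∈ G.k0 m1 m1' := fun c => k_le_k0 m1 m1' c.2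
  have hin : ∀ {χ : M →ₐ[G.k] κ}, mp χ (comb m1 w) = comb m1 G.wb →
      mp χ (comb m1' w) = comb m1' G.wb → ∀ z : M, χ z ∈ G.kb m1 m1' := by
    intro χ ha hb z
    refine mem_acl.2 (img_alg χ _ (G.k0 m1 m1') hk ?_ (hal z))
    rintro x ((rfl | rfl) | (rfl | rfl))
    · rw [(hx ha).1]; exact Subfield.subset_closure (Or.inr (Or.inl (Or.inl rfl)))
    · rw [(hx ha).2]; exact Subfield.subset_closure (Or.inr (Or.inl (Or.inr rfl)))
    · rw [(hx hb).1]; exact Subfield.subset_closure (Or.inr (Or.inr (Or.inl rfl)))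
    · rw [(hx hb).2]; exact Subfield.subset_closure (Or.inr (Or.inr (Or.inr rfl)))
  -- `k0` is in the common image
  have hle : G.k0 m1 m1' ≤ (RingHom.eqLocusField ψ.toRingHom ψ2.toRingHom).map ψ.toRingHom := by
    unfold Gx.k0
    rw [Subfield.closure_le]
    have key : ∀ (z : M) (x : κ), ψ z = x → ψ2 z = x →
        x ∈ (RingHom.eqLocusField ψ.toRingHom ψ2.toRingHom).map ψ.toRingHom := by
      rintro z x rfl hz
      exact ⟨z, hz.symm, rfl⟩
    rintro x (hx' | ((rfl | rfl) | (rfl | rfl)))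
    · exact key (algebraMap G.k M ⟨x, hx'⟩) x (ψ.commutes _) (ψ2.commutes _)
    · exact key _ _ (hx hψ).1 (hx p1).1
    · exact key _ _ (hx hψ).2 (hx p1).2
    · exact key _ _ (hx hψ').1 (hx p2).1
    · exact key _ _ (hx hψ').2 (hx p2).2
  have hle1 : G.k0 m1 m1' ≤ ψ.toRingHom.fieldRange := by
    intro x hx'
    obtain ⟨z, -, hz⟩ := hle hx'
    exact ⟨z, hz⟩
  have hle2 : G.k0 m1 m1' ≤ ψ2.toRingHom.fieldRange := by
    intro x hx'
    obtain ⟨z, hz, hz'⟩ := hle hx'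
    exact ⟨z, hz.symm.trans hz'⟩
  obtain ⟨g, hg⟩ := conj2 (ψ.toRingHom.codRestrict (G.kb m1 m1') (hin hψ hψ'))
    (ψ2.toRingHom.codRestrict (G.kb m1 m1') (hin p1 p2))
    (fun x => alg_over ψ.toRingHom (G.k0 m1 m1') (G.kb m1 m1') (hin hψ hψ') hle1 x
      (mem_acl.1 x.2))
    (fun x => alg_over ψ2.toRingHom (G.k0 m1 m1') (G.kb m1 m1') (hin p1 p2) hle2 x
      (mem_acl.1 x.2))
  have hgfix : ∀ x : G.kb m1 m1', (x : κ) ∈ G.k0 m1 m1' → g x = x := by
    intro x hx'
    obtain ⟨z, hz, hz'⟩ := hle hx'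
    have e1 : ψ2.toRingHom.codRestrict (G.kb m1 m1') (hin p1 p2) z = x :=
      Subtype.ext (hz.symm.trans hz')
    have e2 : ψ.toRingHom.codRestrict (G.kb m1 m1') (hin hψ hψ') z = x := Subtype.ext hz'
    have e3 := hg z
    rw [e1, e2] at e3
    exact e3
  let β1 : Pt E2 (G.kb m1 m1') := mp (P := ℤ) (g : G.kb m1 m1' →+* G.kb m1 m1').toIntAlgHom β2
  have hgal := fun H hH h0 => GAL (G.k0 m1 m1') (G.kb m1 m1') (fun x => mem_acl) (comb n1 G.wb)
    (ok.tr m1 m1' n1 ht1) (fun x => alg_up (F_le_fe ok ht1) (ok.al x)) g hgfix β2 β1 rfl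
    (G.nu m1 m1' n1 β2) (G.nu m1 m1' n1 β1) (ok.nu m1 m1' n1 ht1 β2) (ok.nu m1 m1' n1 ht1 β1)
    H hH h0
  refine ⟨β1, ?_, ?_⟩
  · rw [← hβ2]
    funext H
    unfold Gx.Dof
    by_cases hH : H ∈ G.F ∧ H ≠ 0
    · rw [if_pos hH, if_pos hH]
      exact (hgal H (by rw [ok.fe m1 m1' n1 ht1]; exact hH.1) hH.2).symm
    · rw [if_neg hH, if_neg hH]
  · have hc : ∀ (z : M) (y : G.kb m1 m1'), ψ2 z = y → ψ z = (g y : κ) := by
      intro z y h
      have e1 : ψ2.toRingHom.codRestrict (G.kb m1 m1') (hin p1 p2) z = y := Subtype.ext h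
      have e3 := hg z
      rw [e1] at e3
      rw [e3]
      rfl
    have hx2 : ψ2 (xc (comb n1 w)) = ((xc β2 : G.kb m1 m1') : κ) := by
      rw [← xc_mp, p3, xc_inc]
    have hy2 : ψ2 (yc (comb n1 w)) = ((yc β2 : G.kb m1 m1') : κ) := by
      rw [← yc_mp, p3, yc_inc]
    refine ext'' ?_ ?_
    · rw [xc_mp, xc_inc, hc _ _ hx2]
      congr 1
      exact (xc_mpz (g : G.kb m1 m1' →+* G.kb m1 m1').toIntAlgHom β2).symm
    · rw [yc_mp, yc_inc, hc _ _ hy2]
      congr 1
      exact (yc_mpz (g : G.kb m1 m1' →+* G.kb m1 m1').toIntAlgHom β2).symm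

end claimB2

/-! ### the theorem -/

section fin
open IntermediateField IntermediateField.algebraAdjoinAdjoin
variable {κ : Type} [Field κ] [CharZero κ] [IsAlgClosed κ] {G : Gx κ}

omit [CharZero κ] [IsAlgClosed κ] in
private theorem agree_top {M : Type} [Field M] [Algebra G.k M] (w : Fin 3 → Pt E2 M)
    (htop : adjoin G.k (⋃ i, cs (w i)) = ⊤) (ψ ψ' : M →ₐ[G.k] κ)
    (h : ∀ i, mp ψ (w i) = mp ψ' (w i)) : ψ = ψ' := by
  refine AlgHom.ext fun z => ?_
  refine agree_adj ψ ψ' (⋃ i, cs (w i)) ?_ z (by rw [htop]; exact mem_top)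
  intro x hx
  obtain ⟨i, rfl | rfl⟩ := Set.mem_iUnion.1 hx
  · rw [← xc_mp, h i, xc_mp]
  · rw [← yc_mp, h i, yc_mp]

/-- the number of `β₁` -/
private theorem mainM (ok : G.Ok) {m m' n : Fin 3 → ℤ} (ht : Uni m m' n)
    (β : Pt E2 (G.kb m m'))
    (red : Pt E2 κ →+ Pt E2 (G.nu m m' n β).κ) (t : Fin 3 → Pt E2 (G.kb m m'))
    (h1 : IsRed (G.nu m m' n β) red)
    (h2 : ∀ b, red (inc (G.kb m m') b) = 0 → b = 0)
    (h3 : ∀ i, red (G.wb i) = red (inc (G.kb m m') (t i)))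
    {M : Type} [Field M] [Algebra G.k M] (w : Fin 3 → Pt E2 M)
    (htop : adjoin G.k (⋃ i, cs (w i)) = ⊤) (htr : Algebra.trdeg G.k M = 2)
    (ψ0 : M →ₐ[G.k] κ) (hψ0 : ∀ i, mp ψ0 (w i) = inc (G.kb m m') (t i))
    (m1 m1' n1 : Fin 3 → ℤ) (ht1 : Uni m1 m1' n1) :
    {β1 | G.Dof (G.nu m1 m1' n1 β1) = G.Dof (G.nu m m' n β)}.Finite ∧
      {β1 | G.Dof (G.nu m1 m1' n1 β1) = G.Dof (G.nu m m' n β)}.ncard =
        dg G.k (cs (comb m1 w) ∪ cs (comb m1' w)) := by
  obtain ⟨hfin, hcard⟩ := count (κ := κ) (comb m1 w) (comb m1' w) (comb m1 G.wb) (comb m1' G.wb)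
    (⋃ i, cs (w i)) (Set.finite_iUnion fun i => by unfold cs; exact Set.toFinite _) htop htr (ok.ind m1 m1' n1 ht1)
  set Ψ : Set (M →ₐ[G.k] κ) := {ψ : M →ₐ[G.k] κ | ψ (xc (comb m1 w)) = xc (comb m1 G.wb) ∧
    ψ (yc (comb m1 w)) = yc (comb m1 G.wb) ∧ ψ (xc (comb m1' w)) = xc (comb m1' G.wb) ∧
    ψ (yc (comb m1' w)) = yc (comb m1' G.wb)} with hΨdef
  have hΨ : ∀ ψ : M →ₐ[G.k] κ, ψ ∈ Ψ ↔ mp ψ (comb m1 w) = comb m1 G.wb ∧
      mp ψ (comb m1' w) = comb m1' G.wb := by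
    intro ψ
    constructor
    · rintro ⟨a, b, c, d⟩
      exact ⟨ext'' (by rw [xc_mp, a]) (by rw [yc_mp, b]), ext'' (by rw [xc_mp, c]) (by rw [yc_mp, d])⟩
    · rintro ⟨a, b⟩
      exact ⟨by rw [← xc_mp, a], by rw [← yc_mp, a], by rw [← xc_mp, b], by rw [← yc_mp, b]⟩
  let Φ : (M →ₐ[G.k] κ) → Pt E2 κ := fun ψ => mp ψ (comb n1 w)
  have hinj : Set.InjOn Φ Ψ := by
    intro ψ hψ ψ' hψ' he
    obtain ⟨a, b⟩ := (hΨ ψ).1 hψ
    obtain ⟨a', b'⟩ := (hΨ ψ').1 hψ'
    have he' : mp ψ (comb n1 w) = mp ψ' (comb n1 w) := he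
    rw [mp_comb] at a b a' b' he'
    rw [mp_comb] at he'
    have := uni_ext ht1 (fun i => mp ψ (w i)) (fun i => mp ψ' (w i)) (a.trans a'.symm)
      (b.trans b'.symm) he'
    exact agree_top w htop ψ ψ' fun i => congrFun this i
  have himg : inc (G.kb m1 m1') '' {β1 | G.Dof (G.nu m1 m1' n1 β1) = G.Dof (G.nu m m' n β)} =
      Φ '' Ψ := by
    ext P
    constructor
    · rintro ⟨β2, hβ2, rfl⟩
      obtain ⟨ψ, a, b, c⟩ := homA ok ht ht1 β red t h1 h2 h3 w htop ψ0 hψ0 β2 hβ2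
      exact ⟨ψ, (hΨ ψ).2 ⟨a, b⟩, c⟩
    · rintro ⟨ψ, hψ, rfl⟩
      obtain ⟨a, b⟩ := (hΨ ψ).1 hψ
      obtain ⟨β1, c, d⟩ := homB ok ht ht1 β red t h1 h2 h3 w htop htr ψ0 hψ0 ψ a b
      exact ⟨β1, c, d.symm⟩
  constructor
  · refine Set.Finite.of_finite_image (f := inc (G.kb m1 m1')) ?_ (inc_inj _).injOn
    rw [himg]
    exact hfin.image _
  · rw [← Set.ncard_image_of_injective _ (inc_inj (G.kb m1 m1')), himg,
      hinj.ncard_image, hcard]

omit [CharZero κ] [IsAlgClosed κ] in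
private theorem pt_lift {M : Type} [Field M] [Algebra G.k M] (f : M →ₐ[G.k] κ) (P : Pt E2 κ)
    (hx : ∃ x, f x = xc P) (hy : ∃ y, f y = yc P) : ∃ Q : Pt E2 M, mp f Q = P := by
  rcases cases' P with rfl | ⟨x, y, h, rfl⟩
  · exact ⟨0, map_zero _⟩
  · obtain ⟨x', hx'⟩ := hx
    obtain ⟨y', hy'⟩ := hy
    change f x' = x at hx'
    change f y' = y at hy'
    subst hx'
    subst hy'
    have hn : (E2.baseChange M).toAffine.Nonsingular x' y' :=
      (WeierstrassCurve.Affine.baseChange_nonsingular (W := E2)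
        (f := (f.restrictScalars ℤ : M →ₐ[ℤ] κ)) f.toRingHom.injective _ _).1 h
    exact ⟨.some _ _ hn, rfl⟩

omit [CharZero κ] [IsAlgClosed κ] in
private theorem trM (ok : G.Ok) {m m' n : Fin 3 → ℤ} (ht : Uni m m' n)
    (t : Fin 3 → Pt E2 (G.kb m m'))
    (h4 : inc (G.kb m m') (comb m t) = comb m G.wb)
    (h5 : inc (G.kb m m') (comb m' t) = comb m' G.wb)
    {M : Type} [Field M] [Algebra G.k M] (w : Fin 3 → Pt E2 M)
    (htop : adjoin G.k (⋃ i, cs (w i)) = ⊤)
    (ψ0 : M →ₐ[G.k] κ) (hψ0 : ∀ i, mp ψ0 (w i) = inc (G.kb m m') (t i)) :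
    Algebra.trdeg G.k M = 2 := by
  have hc : ∀ a : Fin 3 → ℤ, mp ψ0 (comb a w) = inc (G.kb m m') (comb a t) := by
    intro a
    rw [mp_comb, inc_comb]
    simp only [hψ0]
  have hx : ∀ {a : Fin 3 → ℤ}, mp ψ0 (comb a w) = comb a G.wb →
      ψ0 (xc (comb a w)) = xc (comb a G.wb) ∧ ψ0 (yc (comb a w)) = yc (comb a G.wb) := by
    intro a h
    exact ⟨by rw [← xc_mp, h], by rw [← yc_mp, h]⟩
  have hm := (hc m).trans h4
  have hm' := (hc m').trans h5
  have hind := ind_of_psi ψ0 (hx hm).1 (hx hm').1 (ok.ind m m' n ht)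
  have hk : ∀ c : G.k, algebraMap G.k κ c ∈ G.kb m m' := fun c => k_le_kb m m' c.2
  have himg : ∀ z : M, ψ0 z ∈ G.kb m m' := by
    intro z
    refine img_mem ψ0 (⋃ i, cs (w i)) (G.kb m m') hk ?_ z (by rw [htop]; exact mem_top)
    intro x hx'
    obtain ⟨i, rfl | rfl⟩ := Set.mem_iUnion.1 hx'
    · rw [← xc_mp, hψ0, xc_inc]; exact (xc (t i)).2
    · rw [← yc_mp, hψ0, yc_inc]; exact (yc (t i)).2
  have hle : G.k0 m m' ≤
      (adjoin G.k (cs (comb m w) ∪ cs (comb m' w))).toSubfield.map ψ0.toRingHom := by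
    unfold Gx.k0
    rw [Subfield.closure_le]
    have key : ∀ (z : M) (x : κ), z ∈ adjoin G.k (cs (comb m w) ∪ cs (comb m' w)) → ψ0 z = x →
        x ∈ (adjoin G.k (cs (comb m w) ∪ cs (comb m' w))).toSubfield.map ψ0.toRingHom := by
      rintro z x hz rfl
      exact ⟨z, hz, rfl⟩
    rintro x (hx' | ((rfl | rfl) | (rfl | rfl)))
    · exact key (algebraMap G.k M ⟨x, hx'⟩) x (IntermediateField.algebraMap_mem _ _)
        (ψ0.commutes _)
    · exact key _ _ (subset_adjoin G.k _ (Or.inl (Or.inl rfl))) (hx hm).1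
    · exact key _ _ (subset_adjoin G.k _ (Or.inl (Or.inr rfl))) (hx hm).2
    · exact key _ _ (subset_adjoin G.k _ (Or.inr (Or.inl rfl))) (hx hm').1
    · exact key _ _ (subset_adjoin G.k _ (Or.inr (Or.inr rfl))) (hx hm').2
  have hal : ∀ z : M, IsAlgebraic (adjoin G.k (cs (comb m w) ∪ cs (comb m' w))) z := fun z =>
    alg_pull ψ0 _ (G.k0 m m') hle (mem_acl.1 (himg z))
  have h0 : ∀ x ∈ cs (comb m w) ∪ cs (comb m' w),
      IsAlgebraic (adjoin G.k (Set.range ![xc (comb m w), xc (comb m' w)])) x := by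
    rintro x (hx | hx)
    · exact cs_alg (adjoin G.k (Set.range ![xc (comb m w), xc (comb m' w)]))
        (subset_adjoin G.k _ ⟨0, rfl⟩) x hx
    · exact cs_alg (adjoin G.k (Set.range ![xc (comb m w), xc (comb m' w)]))
        (subset_adjoin G.k _ ⟨1, rfl⟩) x hx
  have h6 : Algebra.IsAlgebraic (Algebra.adjoin G.k (Set.range ![xc (comb m w), xc (comb m' w)]))
      M := ⟨fun z => (alg_ring _).2 (alg_trans
        (K := (adjoin G.k (Set.range ![xc (comb m w), xc (comb m' w)])).toSubfield)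
        (K' := (adjoin G.k (cs (comb m w) ∪ cs (comb m' w))).toSubfield) (adj_alg _ _ h0) (hal z))⟩
  have h7 := isTranscendenceBasis_iff_algebraicIndependent_isAlgebraic.2 ⟨hind, h6⟩
  rw [← h7.cardinalMk_eq_trdeg]
  simp

private theorem mainG (ok : G.Ok) {m m' n : Fin 3 → ℤ} (ht : Uni m m' n)
    (β : Pt E2 (G.kb m m')) :
    ∃ (M : Type) (_ : Field M) (_ : Algebra G.k M) (w : Fin 3 → Pt E2 M),
    IntermediateField.adjoin G.k (⋃ i, cs (w i)) = ⊤ ∧ Algebra.trdeg G.k M = 2 ∧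
    ∀ m1 m1' n1 : Fin 3 → ℤ, Uni m1 m1' n1 →
      {β1 | G.Dof (G.nu m1 m1' n1 β1) = G.Dof (G.nu m m' n β)}.Finite ∧
      {β1 | G.Dof (G.nu m1 m1' n1 β1) = G.Dof (G.nu m m' n β)}.ncard =
        dg G.k (cs (comb m1 w) ∪ cs (comb m1' w)) := by
  obtain ⟨red, t, h1, h2, h3, h4, h5, -⟩ := spec ok ht β
  let S : Set κ := ⋃ i, cs (inc (G.kb m m') (t i))
  let M := adjoin G.k S
  let ψ0 : M →ₐ[G.k] κ := M.val
  have hlift : ∀ i, ∃ Q : Pt E2 M, mp ψ0 Q = inc (G.kb m m') (t i) := fun i =>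
    pt_lift ψ0 _ ⟨⟨_, subset_adjoin G.k _ (Set.mem_iUnion.2 ⟨i, Or.inl rfl⟩)⟩, rfl⟩
      ⟨⟨_, subset_adjoin G.k _ (Set.mem_iUnion.2 ⟨i, Or.inr rfl⟩)⟩, rfl⟩
  choose w hw using hlift
  have htop : adjoin G.k (⋃ i, cs (w i)) = ⊤ := by
    have e1 : (adjoin G.k (⋃ i, cs (w i))).map ψ0 = M := by
      rw [adjoin_map, Set.image_iUnion]
      congr 1
      show (⋃ i, ψ0 '' cs (w i)) = S
      refine Set.iUnion_congr fun i => ?_
      rw [← hw i, cs, cs, Set.image_pair, xc_mp, yc_mp]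
    rw [eq_top_iff]
    rintro ⟨x, hx⟩ -
    have e2 : x ∈ (adjoin G.k (⋃ i, cs (w i))).map ψ0 := by rw [e1]; exact hx
    obtain ⟨y, hy, hyx⟩ := e2
    have e3 : y = ⟨x, hx⟩ := Subtype.ext hyx
    rw [← e3]; exact hy
  have htr := trM ok ht t h4 h5 w htop ψ0 hw
  exact ⟨M, inferInstance, inferInstance, w, htop, htr, fun m1 m1' n1 ht1 =>
    mainM ok ht β red t h1 h2 h3 w htop htr ψ0 hw m1 m1' n1 ht1⟩

end fin

/-! ### the context -/

section ctx
variable {l : ℂ} {Z : SubVar l} (C : Ctx Z)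

private def GC : Gx C.w0.κ := ⟨C.k, C.wb⟩

private theorem okC : (GC C).Ok where
  fe := fun m m' n ht => C.fe_k0 m m' n ht
  tr := fun m m' n ht => C.tr_k m m' n ht
  ind := fun m m' n ht => C.ind_k m m' n ht
  nz := fun i => C.gen.ne_zero i
  nu := fun m m' n ht β => C.nu_spec m m' n ht β
  al := fun x => C.alg_F x

/-- D6g -/
theorem D6g (m m' n : Fin 3 → ℤ) (ht : Uni m m' n) (β : Pt E2 (C.kb m m')) :
    ∃ (M : Type) (_ : Field M) (_ : Algebra C.k M) (w : Fin 3 → Pt E2 M),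
    IntermediateField.adjoin C.k (⋃ i, cs (w i)) = ⊤ ∧ Algebra.trdeg C.k M = 2 ∧
    ∀ m1 m1' n1 : Fin 3 → ℤ, Uni m1 m1' n1 →
      {β1 | C.Dof (C.nu m1 m1' n1 β1) = C.Dof (C.nu m m' n β)}.Finite ∧
      {β1 | C.Dof (C.nu m1 m1' n1 β1) = C.Dof (C.nu m m' n β)}.ncard =
        dg C.k (cs (comb m1 w) ∪ cs (comb m1' w)) :=
  mainG (okC C) ht β

end ctx

end

end Pool.Agent.VM.XD6gp
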