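import Pool.Agent.Lib_VM.StubsC_h85
import Pool.Agent.Lib_VM.A_Ctx_D6g
import Pool.Agent.Lib_VM.A_QF

/-!
# MP_5582d1_ag, block XD6q (D6 from D6g and QF)
-/

set_option autoImplicit false

namespace Pool.Agent.VM.XD6qp

open scoped Classical

attribute [-instance] Subtype.instDecidableEq

open Pool.Agent.VM

variable {l : ℂ} {Z : SubVar l} (C : Ctx Z) (m m' n : Fin 3 → ℤ) (ht : Uni m m' n)

include ht

/-- D6 -/
theorem D6 (β : Pt E2 (C.kb m m')) : ∃ q : (Fin 3 → ℤ) → ℚ, Par q ∧ (∀ y, 0 ≤ q y) ∧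
    ∀ m1 m1' n1 : Fin 3 → ℤ, Uni m1 m1' n1 →
      {β1 | C.Dof (C.nu m1 m1' n1 β1) = C.Dof (C.nu m m' n β)}.Finite ∧
      ({β1 | C.Dof (C.nu m1 m1' n1 β1) = C.Dof (C.nu m m' n β)}.ncard : ℚ) = q (crs m1 m1') := by
  obtain ⟨M, _, _, w, hw, htr, h⟩ := C.D6g m m' n ht β
  have h0 : CharZero C.k := inferInstance
  obtain ⟨q, hq, hq0, h2⟩ := QF (k := C.k) w hw htr
  refine ⟨q, hq, hq0, fun m1 m1' n1 hu => ?_⟩
  obtain ⟨h3, h4⟩ := h m1 m1' n1 hu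
  refine ⟨h3, ?_⟩
  rw [h4]
  exact h2 m1 m1'

end Pool.Agent.VM.XD6qp
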