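import Pool.Agent.Lib_VM.StubsA_h85
import Pool.Agent.Lib_helper15.VM.III
import Pool.Agent.Lib_VM.StubsC_h85
import Pool.Agent.Lib_VM.A_QF

/-! helper95 (assembly), helper21 (BASE): MP_5582d1_ag, block XD8. Stubs cited: HQ, QF. -/

set_option autoImplicit false

namespace Pool.Agent.VM.XD8p

open Pool.Agent.VM
open scoped Classical

attribute [-instance] Subtype.instDecidableEq

section helper21

open Polynomial IntermediateField

/-! ### linear disjointness -/

section
variable {K L : Type} [Field K] [Field L] [Algebra K L]

/-- the cubic polynomial -/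
private noncomputable def cub (A B : K) : K[X] := X ^ 3 + C A * X ^ 2 + C B

private theorem natDegree_cub (A B : K) : (cub A B).natDegree = 3 := by
  unfold cub
  compute_degree!

private theorem key (x y : L) (A B : K) (hx : Transcendental K x)
    (hy : y ^ 2 = x ^ 3 + algebraMap K L A * x ^ 2 + algebraMap K L B) (p q : K[X])
    (h : aeval x p + aeval x q * y = 0) : p = 0 ∧ q = 0 := by
  have h1 : aeval x (p ^ 2 - q ^ 2 * cub A B) = 0 := by
    have e : aeval x (cub A B) = y ^ 2 := by
      rw [hy]; simp [cub]
    rw [map_sub, map_mul, map_pow, map_pow, e]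
    linear_combination (aeval x p - aeval x q * y) * h
  have h2 : p ^ 2 - q ^ 2 * cub A B = 0 := by
    by_contra h3
    exact hx ⟨_, h3, h1⟩
  have h3 : p ^ 2 = q ^ 2 * cub A B := sub_eq_zero.1 h2
  have hc : cub A B ≠ 0 := by
    intro h4
    have := natDegree_cub A B
    rw [h4, natDegree_zero] at this
    omega
  have hq : q = 0 := by
    by_contra hq
    have h4 := congrArg natDegree h3
    rw [natDegree_mul (pow_ne_zero 2 hq) hc, natDegree_pow, natDegree_pow, natDegree_cub] at h4
    omega
  refine ⟨?_, hq⟩
  rw [hq] at h3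
  simpa using h3

end

section
variable {F L E : Type} [Field F] [Field L] [Field E] [Algebra F L] [Algebra L E] [Algebra F E]
  [IsScalarTower F L E]

/-- `F[x] + F[x] y` -/
private def two (x y : E) (A B : F) (hy : y ^ 2 = x ^ 3 + algebraMap F E A * x ^ 2 + algebraMap F E B) :
    Subalgebra F E where
  carrier := {t | ∃ p q : F[X], t = aeval x p + aeval x q * y}
  mul_mem' := by
    rintro _ _ ⟨p, q, rfl⟩ ⟨p', q', rfl⟩
    have e : aeval x (cub A B) = y ^ 2 := by
      rw [hy]; simp [cub]
    refine ⟨p * p' + q * q' * cub A B, p * q' + q * p', ?_⟩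
    simp only [map_add, map_mul, e]
    ring
  add_mem' := by
    rintro _ _ ⟨p, q, rfl⟩ ⟨p', q', rfl⟩
    refine ⟨p + p', q + q', ?_⟩
    simp only [map_add]
    ring
  algebraMap_mem' r := ⟨C r, 0, by simp⟩

private theorem lin (x y : E) (A B : F) (hx : Transcendental L x)
    (hy : y ^ 2 = x ^ 3 + algebraMap F E A * x ^ 2 + algebraMap F E B) :
    (IntermediateField.adjoin F ({x, y} : Set E)).LinearDisjoint L := by
  obtain ⟨b⟩ : Nonempty (Module.Basis (Module.Basis.ofVectorSpaceIndex F L) F L) :=
    ⟨Module.Basis.ofVectorSpace F L⟩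
  refine IntermediateField.LinearDisjoint.of_basis_right' b ?_
  open scoped IntermediateField.algebraAdjoinAdjoin in
  rw [← LinearIndependent.iff_fractionRing (Algebra.adjoin F ({x, y} : Set E))]
  rw [linearIndependent_iff']
  intro s g hg i hi
  have h2 : ∀ r : Algebra.adjoin F ({x, y} : Set E), ∃ p q : F[X],
      (r : E) = aeval x p + aeval x q * y := by
    intro r
    have : Algebra.adjoin F ({x, y} : Set E) ≤ two x y A B hy := by
      rw [Algebra.adjoin_le_iff]
      rintro t (rfl | rfl)
      · exact ⟨X, 0, by simp⟩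
      · exact ⟨0, 1, by simp⟩
    exact this r.2
  choose p q hpq using h2
  have hy' : y ^ 2 = x ^ 3 + algebraMap L E (algebraMap F L A) * x ^ 2 +
      algebraMap L E (algebraMap F L B) := by
    rw [hy, ← IsScalarTower.algebraMap_apply, ← IsScalarTower.algebraMap_apply]
  have h3 := key x y (algebraMap F L A) (algebraMap F L B) hx hy'
    (∑ j ∈ s, C (b j) * (p (g j)).map (algebraMap F L))
    (∑ j ∈ s, C (b j) * (q (g j)).map (algebraMap F L)) (by
      rw [← hg]
      simp only [map_sum, map_mul, aeval_C, Finset.sum_mul]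
      rw [← Finset.sum_add_distrib]
      refine Finset.sum_congr rfl fun j _ => ?_
      rw [aeval_map_algebraMap, aeval_map_algebraMap]
      show _ = (g j : E) * algebraMap L E (b j)
      rw [hpq (g j)]
      ring)
  have hb := b.linearIndependent
  rw [linearIndependent_iff'] at hb
  have h4 : p (g i) = 0 := by
    ext n
    refine hb s (fun j => (p (g j)).coeff n) ?_ i hi
    have := congrArg (fun P => coeff P n) h3.1
    simp only [finsetSum_coeff, coeff_C_mul, coeff_map, coeff_zero] at this
    rw [← this]
    refine Finset.sum_congr rfl fun j _ => ?_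
    rw [Algebra.smul_def, mul_comm]
  have h5 : q (g i) = 0 := by
    ext n
    refine hb s (fun j => (q (g j)).coeff n) ?_ i hi
    have := congrArg (fun P => coeff P n) h3.2
    simp only [finsetSum_coeff, coeff_C_mul, coeff_map, coeff_zero] at this
    rw [← this]
    refine Finset.sum_congr rfl fun j _ => ?_
    rw [Algebra.smul_def, mul_comm]
  apply Subtype.ext
  rw [hpq (g i), h4, h5]
  simp

end

private theorem yc_sq {R F : Type} [CommRing R] [Field F] [Algebra R F] {a b : R}
    (Q : Pt (SW a b) F) (hQ : Q ≠ 0) :
    yc Q ^ 2 = xc Q ^ 3 + algebraMap R F a * xc Q ^ 2 + algebraMap R F b := by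
  match Q, hQ with
  | .zero, h => exact absurd rfl h
  | .some x y h, _ =>
    have := (WeierstrassCurve.Affine.equation_iff _ _).mp h.1
    simp [SW, WeierstrassCurve.baseChange, WeierstrassCurve.map] at this
    simp only [xc, yc]
    linear_combination this

private theorem ne_zero_of_tr {R F K : Type} [CommRing R] [Field F] [Field K] [Algebra R F] [Algebra K F]
    {a b : R} (Q : Pt (SW a b) F) (hQ : Transcendental K (xc Q)) : Q ≠ 0 := by
  rintro rfl
  exact hQ isAlgebraic_zero

/-- the product formula -/
private theorem dg_prod {F L E R : Type} [Field F] [Field L] [Field E] [Algebra F L] [Algebra L E]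
    [Algebra F E] [IsScalarTower F L E] [CommRing R] [Algebra R F] [Algebra R E]
    [IsScalarTower R F E] {a b : R} (Q : Pt (SW a b) E) (hQ : Transcendental L (xc Q))
    (halg : Algebra.IsAlgebraic F L) :
    Module.finrank F L * dg L (cs Q) = dg F (cs Q) := by
  have h1 := yc_sq Q (ne_zero_of_tr Q hQ)
  rw [IsScalarTower.algebraMap_apply R F E, IsScalarTower.algebraMap_apply R F E] at h1
  have h2 := lin (L := L) (xc Q) (yc Q) _ _ hQ h1
  have h3 := h2.rank_right_mul_adjoin_rank_eq_of_isAlgebraic_right
  have h4 : adjoin L ((adjoin F ({xc Q, yc Q} : Set E) : IntermediateField F E) : Set E) =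
      adjoin L (cs Q) := by
    apply le_antisymm
    · rw [adjoin_le_iff]
      have : adjoin F ({xc Q, yc Q} : Set E) ≤ (adjoin L (cs Q)).restrictScalars F := by
        rw [adjoin_le_iff]
        exact subset_adjoin L (cs Q)
      exact this
    · rw [adjoin_le_iff]
      exact fun x hx => subset_adjoin L _ (subset_adjoin F _ hx)
  rw [h4] at h3
  have h5 := congrArg Cardinal.toNat h3
  rw [map_mul] at h5
  exact h5

end helper21

private theorem BASE {l : ℂ} {M : Type} [Field M] [Algebra ℂ M] (N' N : IntermediateField ℂ M)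
    (h : N' ≤ N) (halg : Algebra.IsAlgebraic N' (IntermediateField.extendScalars h))
    (P : Pt (E1 l) M) (hP : Transcendental N (xc P)) :
    dg N' (cs P) = IntermediateField.relfinrank N' N * dg N (cs P) := by
  rw [IntermediateField.relfinrank_eq_finrank_of_le h]
  have hT : IsScalarTower N' (IntermediateField.extendScalars h) M :=
    IsScalarTower.of_algebraMap_eq (fun _ => rfl)
  have hP' : Transcendental (IntermediateField.extendScalars h) (xc P) := hP
  have := @dg_prod N' (IntermediateField.extendScalars h) M ℂ _ _ _ _ _ _ hT _ _ _ _ 1 l P hP' halg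
  exact this.symm

private lemma eqn {R : Type} [CommRing R] (a b : R) {F : Type} [Field F] [Algebra R F]
    (P : Pt (SW a b) F) : yc P = 0 ∧ xc P = 0 ∨
      yc P ^ 2 = xc P ^ 3 + algebraMap R F a * xc P ^ 2 + algebraMap R F b := by
  rcases P with _ | ⟨x, y, h⟩
  · left; exact ⟨rfl, rfl⟩
  · right
    have := (WeierstrassCurve.Affine.equation_iff ..).mp h.1
    simp [SW, WeierstrassCurve.baseChange, WeierstrassCurve.map] at this
    exact this

/-- the coordinates of a point with algebraic `x` are algebraic -/
private lemma alg_y {R : Type} [CommRing R] (a b : R) {K M : Type} [Field K] [Field M]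
    [Algebra K M] [Algebra R K] [Algebra R M] [IsScalarTower R K M] (P : Pt (SW a b) M)
    (h : IsAlgebraic K (xc P)) : ∀ x ∈ cs P, IsAlgebraic K x := by
  rintro x (rfl | hx)
  · exact h
  · rw [Set.mem_singleton_iff] at hx
    subst hx
    rcases eqn a b P with ⟨h1, _⟩ | h1
    · rw [h1]; exact isAlgebraic_zero
    · have h2 : IsAlgebraic K (yc P ^ 2) := by
        rw [h1]
        have ha : IsAlgebraic K (algebraMap R M a) := by
          rw [IsScalarTower.algebraMap_apply R K M]; exact isAlgebraic_algebraMap _
        have hb : IsAlgebraic K (algebraMap R M b) := by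
          rw [IsScalarTower.algebraMap_apply R K M]; exact isAlgebraic_algebraMap _
        exact ((h.pow 3).add (ha.mul (h.pow 2))).add hb
      exact (isAlgebraic_iff_isIntegral.mpr
        (IsIntegral.of_pow two_pos (isAlgebraic_iff_isIntegral.mp h2)))

private lemma xc_mp' {R K M N : Type} [CommRing R] [Field K] [Field M] [Field N] [Algebra R K]
    [Algebra R M] [Algebra R N] [Algebra K M] [Algebra K N] [IsScalarTower R K M]
    [IsScalarTower R K N] {W : WeierstrassCurve R} (f : M →ₐ[K] N) (Q : Pt W M) :
    xc (mp f Q) = f (xc Q) := by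
  rcases Q with _ | ⟨x, y, h⟩
  · exact (map_zero f).symm
  · rfl

private lemma yc_mp' {R K M N : Type} [CommRing R] [Field K] [Field M] [Field N] [Algebra R K]
    [Algebra R M] [Algebra R N] [Algebra K M] [Algebra K N] [IsScalarTower R K M]
    [IsScalarTower R K N] {W : WeierstrassCurve R} (f : M →ₐ[K] N) (Q : Pt W M) :
    yc (mp f Q) = f (yc Q) := by
  rcases Q with _ | ⟨x, y, h⟩
  · exact (map_zero f).symm
  · rfl

private lemma cs_mp' {R K M N : Type} [CommRing R] [Field K] [Field M] [Field N] [Algebra R K]
    [Algebra R M] [Algebra R N] [Algebra K M] [Algebra K N] [IsScalarTower R K M]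
    [IsScalarTower R K N] {W : WeierstrassCurve R} (f : M →ₐ[K] N) (Q : Pt W M) :
    cs (mp f Q) = f '' cs Q := by
  rw [cs, cs, Set.image_pair, xc_mp', yc_mp']

private lemma descend {R K M : Type} [CommRing R] [Field K] [Field M] [Algebra R K]
    [Algebra R M] [Algebra K M] [IsScalarTower R K M] {W : WeierstrassCurve R}
    (F : IntermediateField K M) (Q : Pt W M)
    (hQ : cs Q ⊆ F) : ∃ Q' : Pt W F, mp F.val Q' = Q := by
  rcases Q with _ | ⟨x, y, h⟩
  · exact ⟨0, map_zero _⟩
  · have hx : x ∈ F := hQ (Or.inl rfl)
    have hy : y ∈ F := hQ (Or.inr rfl)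
    have hn : (W.baseChange F).toAffine.Nonsingular (⟨x, hx⟩ : F) ⟨y, hy⟩ :=
      (WeierstrassCurve.Affine.baseChange_nonsingular (W := W)
        (f := (F.val.restrictScalars R : F →ₐ[R] M)) Subtype.val_injective _ _).1 h
    exact ⟨.some _ _ hn, rfl⟩

private lemma dg_adj {K M : Type} [Field K] [Field M] [Algebra K M] (A B : Set M) :
    dg (IntermediateField.adjoin K A) B = dg K (A ∪ B) := by
  unfold dg
  rw [← IntermediateField.adjoin_adjoin_left]
  rfl

/-- `M` algebraic over `K(s)`: the transcendence degree is at most `#s` -/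
private lemma alg_adj {K M : Type} [Field K] [Field M] [Algebra K M] (s : Set M)
    [Algebra.IsAlgebraic (IntermediateField.adjoin K s) M] :
    Algebra.IsAlgebraic (Algebra.adjoin K s) M := by
  open scoped IntermediateField.algebraAdjoinAdjoin in
  exact (IsFractionRing.comap_isAlgebraic_iff (A := Algebra.adjoin K s)
    (K := IntermediateField.adjoin K s) (C := M)).mpr inferInstance

private lemma comb_mp {R K M N : Type} [CommRing R] [Field K] [Field M] [Field N] [Algebra R K]
    [Algebra R M] [Algebra R N] [Algebra K M] [Algebra K N] [IsScalarTower R K M]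
    [IsScalarTower R K N] {W : WeierstrassCurve R} (f : M →ₐ[K] N) (m : Fin 3 → ℤ)
    (Q : Fin 3 → Pt W M) : mp f (comb m Q) = comb m (fun i => mp f (Q i)) := by
  simp only [comb, map_sum, map_zsmul]

private lemma comb_add {R : Type*} [CommRing R] {W : WeierstrassCurve R} {F : Type*} [Field F]
    [Algebra R F] (a b : Fin 3 → ℤ) (P : Fin 3 → Pt W F) :
    comb (a + b) P = comb a P + comb b P := by
  simp only [comb, Pi.add_apply, add_smul, Finset.sum_add_distrib]

private lemma comb_sub {R : Type*} [CommRing R] {W : WeierstrassCurve R} {F : Type*} [Field F]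
    [Algebra R F] (a b : Fin 3 → ℤ) (P : Fin 3 → Pt W F) :
    comb (a - b) P = comb a P - comb b P := by
  simp only [comb, Pi.sub_apply, sub_smul, Finset.sum_sub_distrib]

private lemma dg_zero_of_alg {K M : Type} [Field K] [Field M] [Algebra K M]
    (htr : Algebra.trdeg K M ≠ 0) (s : Set M) (hs : ∀ x ∈ s, IsAlgebraic K x) : dg K s = 0 := by
  unfold dg
  by_contra hne
  have hfin : Module.Finite (IntermediateField.adjoin K s) M :=
    Module.finite_of_finrank_pos (Nat.pos_of_ne_zero hne)
  have h1 : Algebra.IsAlgebraic K (IntermediateField.adjoin K s) :=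
    IntermediateField.isAlgebraic_adjoin fun x hx => (hs x hx).isIntegral
  have h2 : Algebra.IsAlgebraic (IntermediateField.adjoin K s) M := inferInstance
  have h3 : Algebra.IsAlgebraic K M :=
    Algebra.IsAlgebraic.trans K (IntermediateField.adjoin K s) M
  exact htr (_root_.trdeg_eq_zero)

/-- if `M` is finite over the smaller field, it is finite over the larger one -/
private lemma dg_ne_zero_mono {K M : Type} [Field K] [Field M] [Algebra K M]
    (A B : IntermediateField K M) (hAB : A ≤ B) (s : Set M) (h : dg A s ≠ 0) : dg B s ≠ 0 := by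
  unfold dg at h ⊢
  have hfin : Module.Finite (IntermediateField.adjoin A s) M :=
    Module.finite_of_finrank_pos (Nat.pos_of_ne_zero h)
  have hle : (IntermediateField.adjoin A s).toSubfield ≤
      (IntermediateField.adjoin B s).toSubfield := by
    have h1 : (IntermediateField.adjoin A s).restrictScalars K ≤
        (IntermediateField.adjoin B s).restrictScalars K := by
      have e1 := IntermediateField.adjoin_adjoin_left K (A : Set M) (s)
      have e2 := IntermediateField.adjoin_adjoin_left K (B : Set M) (s)
      intro x hx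
      have hx' : x ∈ IntermediateField.adjoin A s := hx
      show x ∈ IntermediateField.adjoin B s
      have : (IntermediateField.adjoin A s : Set M) ⊆ (IntermediateField.adjoin B s) := by
        rw [IntermediateField.adjoin_subset_adjoin_iff]
        refine ⟨?_, IntermediateField.subset_adjoin _ _⟩
        rintro _ ⟨⟨x, hx⟩, rfl⟩
        exact IntermediateField.algebraMap_mem (IntermediateField.adjoin B s) (⟨x, hAB hx⟩ : B)
      exact this hx'
    exact h1
  let : Algebra (IntermediateField.adjoin A s) (IntermediateField.adjoin B s) :=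
    (Subfield.inclusion hle).toAlgebra
  have : IsScalarTower (IntermediateField.adjoin A s) (IntermediateField.adjoin B s) M :=
    IsScalarTower.of_algebraMap_eq (congrFun rfl)
  have : Module.Finite (IntermediateField.adjoin B s) M :=
    Module.Finite.of_restrictScalars_finite (IntermediateField.adjoin A s) _ M
  exact Module.finrank_pos.ne'

/-- if `M` is finite over `K(P)`, then `trdeg M / K ≤ 1` -/
private lemma trdeg_le_one {R : Type} [CommRing R] (a b : R) {K M : Type} [Field K] [Field M]
    [Algebra K M] [Algebra R K] [Algebra R M] [IsScalarTower R K M] (P : Pt (SW a b) M)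
    (h : dg K (cs P) ≠ 0) : Algebra.trdeg K M ≤ 1 := by
  unfold dg at h
  have hfin : Module.Finite (IntermediateField.adjoin K (cs P)) M :=
    Module.finite_of_finrank_pos (Nat.pos_of_ne_zero h)
  have hmem : ∀ c : K, IsAlgebraic (IntermediateField.adjoin K {xc P}) (algebraMap K M c) :=
    fun c => isAlgebraic_algebraMap (algebraMap K (IntermediateField.adjoin K {xc P}) c)
  have hxi : IsAlgebraic (IntermediateField.adjoin K {xc P}) (xc P) :=
    isAlgebraic_algebraMap (⟨xc P, IntermediateField.subset_adjoin _ _ rfl⟩ :
      IntermediateField.adjoin K {xc P})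
  have hyi : ∀ x ∈ cs P, IsAlgebraic (IntermediateField.adjoin K {xc P}) x := by
    rintro x (rfl | hx)
    · exact hxi
    · rw [Set.mem_singleton_iff] at hx
      subst hx
      rcases eqn a b P with ⟨h1, _⟩ | h1
      · rw [h1]; exact isAlgebraic_zero
      · have h2 : IsAlgebraic (IntermediateField.adjoin K {xc P}) (yc P ^ 2) := by
          rw [h1, IsScalarTower.algebraMap_apply R K M, IsScalarTower.algebraMap_apply R K M]
          exact ((hxi.pow 3).add ((hmem _).mul (hxi.pow 2))).add (hmem _)
        exact (isAlgebraic_iff_isIntegral.mpr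
          (IsIntegral.of_pow two_pos (isAlgebraic_iff_isIntegral.mp h2)))
  have e0 : (IntermediateField.adjoin (IntermediateField.adjoin K {xc P})
      (cs P)).restrictScalars K = IntermediateField.adjoin K (cs P) := by
    rw [IntermediateField.adjoin_adjoin_left]
    congr 1
    apply Set.union_eq_self_of_subset_left
    intro x hx
    rw [Set.mem_singleton_iff] at hx
    rw [hx]; exact Or.inl rfl
  have e1 : Algebra.IsAlgebraic (IntermediateField.adjoin K {xc P})
      (IntermediateField.adjoin (IntermediateField.adjoin K {xc P}) (cs P)) :=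
    IntermediateField.isAlgebraic_adjoin fun x hx => (hyi x hx).isIntegral
  have e2 : Module.Finite (IntermediateField.adjoin (IntermediateField.adjoin K {xc P})
      (cs P)) M := by
    have hfin' : Module.Finite ((IntermediateField.adjoin (IntermediateField.adjoin K
      {xc P}) (cs P)).restrictScalars K) M := by
      rw [e0]; exact hfin
    exact hfin'
  have halg : Algebra.IsAlgebraic (IntermediateField.adjoin K {xc P}) M :=
    Algebra.IsAlgebraic.trans (IntermediateField.adjoin K {xc P})
      (IntermediateField.adjoin (IntermediateField.adjoin K {xc P}) (cs P)) M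
  have halg2 := alg_adj (K := K) ({xc P} : Set M)
  have h1 := Algebra.IsAlgebraic.trdeg_le_cardinalMk K ({xc P} : Set M)
  rwa [Cardinal.mk_singleton] at h1

/-- D8: `w` not generic -/
theorem D8 {l : ℂ} (hΔ : (SW 1 l).Δ ≠ 0) (Z : SubVar l) (hw : ¬ AlgebraicIndependent ℂ (fun i => xc (Z.w i))) :
    ∃ E q : (Fin 3 → ℤ) → ℚ, Par E ∧ (∀ a, 0 ≤ E a) ∧ Par q ∧ (∀ a, 0 ≤ q a) ∧
      ∀ a m m', (Z.G a m m' : ℚ) = E a * q (crs m m') := by
  let N : IntermediateField ℂ Z.M := IntermediateField.adjoin ℂ (⋃ i, cs (Z.w i))
  have hwN : ∀ i, cs (Z.w i) ⊆ N := fun i x hx =>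
    IntermediateField.subset_adjoin _ _ (Set.mem_iUnion.mpr ⟨i, hx⟩)
  choose w' hw' using fun i => descend N (Z.w i) (hwN i)
  have hcomb : ∀ m, comb m Z.w = mp N.val (comb m w') := by
    intro m
    rw [comb_mp]
    congr 1
    funext i
    exact (hw' i).symm
  -- `N` is generated by the coordinates of `w'`
  have hmap : (IntermediateField.adjoin ℂ (⋃ i, cs (w' i))).map N.val = N := by
    rw [IntermediateField.adjoin_map, Set.image_iUnion]
    simp only [← cs_mp', hw']
    rfl
  have htop : IntermediateField.adjoin ℂ (⋃ i, cs (w' i)) = ⊤ := by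
    rw [eq_top_iff]
    intro x _
    have hx : (x : Z.M) ∈ (IntermediateField.adjoin ℂ (⋃ i, cs (w' i))).map N.val := by
      rw [hmap]; exact x.2
    obtain ⟨y, hy, hyx⟩ := hx
    have : y = x := Subtype.val_injective hyx
    rw [← this]; exact hy
  -- transcendence degree of `N`
  have hle2 : Algebra.trdeg ℂ N ≤ 2 := by
    by_contra hcon
    have h3 : (3 : Cardinal) ≤ Algebra.trdeg ℂ N := by
      have h' : (2 : Cardinal) < Algebra.trdeg ℂ N := not_le.mp hcon
      have := Order.succ_le_of_lt h'
      have h23 : Order.succ (2 : Cardinal) = 3 := by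
        rw [show (2 : Cardinal) = ((2 : ℕ) : Cardinal) by norm_num, Cardinal.succ_natCast]
        norm_num
      rwa [h23] at this
    have halg1 : Algebra.IsAlgebraic
        (IntermediateField.adjoin ℂ (Set.range (fun i => xc (w' i)))) N := by
      have e1 : IntermediateField.adjoin
          (IntermediateField.adjoin ℂ (Set.range (fun i => xc (w' i)))) (⋃ i, cs (w' i)) =
          (⊤ : IntermediateField (IntermediateField.adjoin ℂ (Set.range (fun i => xc (w' i)))) N) := by
        rw [eq_top_iff]
        intro x _
        have hx : x ∈ IntermediateField.adjoin ℂ (⋃ i, cs (w' i)) := by rw [htop]; trivial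
        have hx' : x ∈ (IntermediateField.adjoin
          (IntermediateField.adjoin ℂ (Set.range (fun i => xc (w' i))))
            (⋃ i, cs (w' i))).restrictScalars ℂ := by
          rw [IntermediateField.adjoin_adjoin_left]
          exact IntermediateField.adjoin.mono _ _ _ Set.subset_union_right hx
        exact hx'
      have e2 : Algebra.IsAlgebraic (IntermediateField.adjoin ℂ (Set.range (fun i => xc (w' i))))
          (IntermediateField.adjoin
          (IntermediateField.adjoin ℂ (Set.range (fun i => xc (w' i)))) (⋃ i, cs (w' i))) := by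
        apply IntermediateField.isAlgebraic_adjoin
        intro x hx
        obtain ⟨i, hx⟩ := Set.mem_iUnion.mp hx
        have hxi : IsAlgebraic (IntermediateField.adjoin ℂ (Set.range (fun i => xc (w' i))))
            (xc (w' i)) :=
          isAlgebraic_algebraMap (⟨xc (w' i), IntermediateField.subset_adjoin _ _ ⟨i, rfl⟩⟩ :
            IntermediateField.adjoin ℂ (Set.range (fun i => xc (w' i))))
        exact (alg_y (R := ℤ) 0 1 (w' i) hxi x hx).isIntegral
      rw [e1] at e2
      exact (Algebra.isAlgebraic_def.mpr fun x => by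
        have := e2.isAlgebraic (⟨x, trivial⟩ : (⊤ : IntermediateField
          (IntermediateField.adjoin ℂ (Set.range (fun i => xc (w' i)))) N))
        exact (isAlgebraic_algHom_iff (⊤ : IntermediateField
          (IntermediateField.adjoin ℂ (Set.range (fun i => xc (w' i)))) N).val
          Subtype.val_injective).mpr this)
    have halg2 := alg_adj (K := ℂ) (Set.range (fun i => xc (w' i)))
    have hb := Algebra.IsAlgebraic.isTranscendenceBasis_of_le_trdeg_of_finite ℂ
      (fun i => xc (w' i)) (by rw [Cardinal.mk_fin]; exact_mod_cast h3)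
    apply hw
    have h4 : (fun i => xc (Z.w i)) = fun i => N.val (xc (w' i)) := by
      funext i
      rw [← hw' i, xc_mp']
    rw [h4]
    exact hb.1.map' N.val.toRingHom.injective
  have hadd : Algebra.trdeg ℂ N + Algebra.trdeg N Z.M = 3 := by
    rw [trdeg_add_eq ℂ N]
    exact Z.dim3
  have hG : ∀ a m m', Z.G a m m' = dg (IntermediateField.adjoin ℂ (cs (comb m Z.w) ∪
      cs (comb m' Z.w))) (cs (comb a Z.z)) := by
    intro a m m'
    rw [dg_adj]
    unfold SubVar.G
    congr 1
    rw [Set.union_assoc, Set.union_comm]
  have hN' : ∀ m m', IntermediateField.adjoin ℂ (cs (comb m Z.w) ∪ cs (comb m' Z.w)) ≤ N := by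
    intro m m'
    rw [IntermediateField.adjoin_le_iff, hcomb, hcomb, cs_mp', cs_mp']
    rintro x (⟨y, _, rfl⟩ | ⟨y, _, rfl⟩)
    · exact y.2
    · exact y.2
  by_cases h2 : Algebra.trdeg ℂ N = 2
  swap
  · -- everything is zero
    refine ⟨0, 0, fun a b => by simp, fun a => le_rfl, fun a b => by simp, fun a => le_rfl, ?_⟩
    intro a m m'
    have h0 : Z.G a m m' = 0 := by
      by_contra hne
      rw [hG] at hne
      have hne' := dg_ne_zero_mono _ N (hN' m m') _ hne
      have h1 := trdeg_le_one (R := ℂ) 1 l (K := N) (comb a Z.z) hne'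
      have h3 : Algebra.trdeg ℂ N ≤ 1 := by
        have h' : Algebra.trdeg ℂ N < 2 := lt_of_le_of_ne hle2 h2
        have h12 : Order.succ (1 : Cardinal) = 2 := by
          rw [show (1 : Cardinal) = ((1 : ℕ) : Cardinal) by norm_num, Cardinal.succ_natCast]
          norm_num
        rw [← h12] at h'
        exact Order.lt_succ_iff.mp h'
      have h4 : Algebra.trdeg ℂ N + Algebra.trdeg N Z.M ≤ 1 + 1 := add_le_add h3 h1
      rw [hadd] at h4
      have : ((3 : ℕ) : Cardinal.{0}) ≤ ((2 : ℕ) : Cardinal.{0}) := by
        have e11 : (1 : Cardinal.{0}) + 1 = ((2 : ℕ) : Cardinal.{0}) := by norm_num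
        rw [← e11]
        exact_mod_cast h4
      exact absurd (Nat.cast_le.mp this) (by norm_num)
    rw [h0]; simp
  -- the main case
  have h1 : Algebra.trdeg N Z.M = 1 := by
    rw [h2] at hadd
    have h3 : (2 : Cardinal) + Algebra.trdeg N Z.M = 2 + 1 := by
      rw [hadd]; norm_num
    have hfin : (2 : Cardinal) < Cardinal.aleph0 := by
      exact_mod_cast Cardinal.natCast_lt_aleph0 (n := 2)
    exact Cardinal.eq_of_add_eq_add_left h3 hfin
  have hfg : (⊤ : IntermediateField N Z.M).FG := by
    have e : (⊤ : IntermediateField N Z.M) = IntermediateField.adjoin N (⋃ i, cs (Z.z i)) := by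
      symm
      rw [eq_top_iff]
      intro x _
      have hx : x ∈ IntermediateField.adjoin ℂ ((⋃ i, cs (Z.z i)) ∪ ⋃ i, cs (Z.w i)) := by
        rw [Z.gen]; trivial
      have hx' : x ∈ (IntermediateField.adjoin N (⋃ i, cs (Z.z i))).restrictScalars ℂ := by
        rw [IntermediateField.adjoin_adjoin_left, Set.union_comm]
        exact hx
      exact hx'
    rw [e]
    apply IntermediateField.fg_adjoin_of_finite
    apply Set.finite_iUnion
    intro i
    exact (Set.finite_singleton _).insert _
  obtain ⟨q, hq, hq0, hqf⟩ := QF (k := ℂ) w' htop h2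
  refine ⟨fun a => (dg N (cs (comb a Z.z)) : ℚ), q, ?_, fun a => by positivity, hq, hq0, ?_⟩
  · intro a b
    have hd : algebraMap ℂ N (SW 1 l).Δ ≠ 0 := by
      rw [Ne, map_eq_zero]; exact hΔ
    have := HQ (R := ℂ) 1 l (K := N) (M := Z.M) hd hfg h1 (comb a Z.z) (comb b Z.z)
    show (dg N (cs (comb (a + b) Z.z)) : ℚ) + (dg N (cs (comb (a - b) Z.z)) : ℚ) =
      2 * (dg N (cs (comb a Z.z)) : ℚ) + 2 * (dg N (cs (comb b Z.z)) : ℚ)
    rw [comb_add, comb_sub]
    exact_mod_cast this
  · intro a m m'
    rw [hG]
    by_cases hP : IsAlgebraic N (xc (comb a Z.z))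
    · show (dg (IntermediateField.adjoin ℂ (cs (comb m Z.w) ∪ cs (comb m' Z.w)))
        (cs (comb a Z.z)) : ℚ) = (dg N (cs (comb a Z.z)) : ℚ) * q (crs m m')
      have h0 : dg N (cs (comb a Z.z)) = 0 :=
        dg_zero_of_alg (by rw [h1]; exact one_ne_zero) _ (alg_y (R := ℂ) 1 l (comb a Z.z) hP)
      have h0' : dg (IntermediateField.adjoin ℂ (cs (comb m Z.w) ∪ cs (comb m' Z.w)))
          (cs (comb a Z.z)) = 0 := by
        by_contra hne
        exact dg_ne_zero_mono _ N (hN' m m') _ hne h0
      rw [h0, h0']; simp
    · rw [← hqf m m']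
      have h5 : IntermediateField.relfinrank
          (IntermediateField.adjoin ℂ (cs (comb m Z.w) ∪ cs (comb m' Z.w))) N =
          dg ℂ (cs (comb m w') ∪ cs (comb m' w')) := by
        have e1 : IntermediateField.adjoin ℂ (cs (comb m Z.w) ∪ cs (comb m' Z.w)) =
            (IntermediateField.adjoin ℂ (cs (comb m w') ∪ cs (comb m' w'))).map N.val := by
          rw [IntermediateField.adjoin_map, Set.image_union, ← cs_mp', ← cs_mp', ← hcomb, ← hcomb]
        have e2 : (⊤ : IntermediateField ℂ N).map N.val = N := by
          rw [← htop, hmap]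
        have e3 := IntermediateField.relfinrank_map_map
          (IntermediateField.adjoin ℂ (cs (comb m w') ∪ cs (comb m' w'))) ⊤ N.val
        rw [e2, IntermediateField.relfinrank_top_right] at e3
        rw [e1, e3]
        rfl
      rw [← h5]
      have h6 : dg (IntermediateField.adjoin ℂ (cs (comb m Z.w) ∪ cs (comb m' Z.w)))
          (cs (comb a Z.z)) = IntermediateField.relfinrank
            (IntermediateField.adjoin ℂ (cs (comb m Z.w) ∪ cs (comb m' Z.w))) N *
              dg N (cs (comb a Z.z)) := by
        by_cases halg : Algebra.IsAlgebraic (IntermediateField.adjoin ℂ (cs (comb m Z.w) ∪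
            cs (comb m' Z.w))) (IntermediateField.extendScalars (hN' m m'))
        · exact BASE _ N (hN' m m') halg _ hP
        · have h7 : IntermediateField.relfinrank
              (IntermediateField.adjoin ℂ (cs (comb m Z.w) ∪ cs (comb m' Z.w))) N = 0 := by
            rw [IntermediateField.relfinrank_eq_finrank_of_le (hN' m m')]
            by_contra hne
            have : Module.Finite (IntermediateField.adjoin ℂ (cs (comb m Z.w) ∪
              cs (comb m' Z.w))) (IntermediateField.extendScalars (hN' m m')) :=
              Module.finite_of_finrank_pos (Nat.pos_of_ne_zero hne)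
            exact halg inferInstance
          rw [h7, zero_mul]
          by_contra hne
          have h8 := trdeg_le_one (R := ℂ) 1 l (comb a Z.z) hne
          have h9 := trdeg_add_eq (IntermediateField.adjoin ℂ (cs (comb m Z.w) ∪
            cs (comb m' Z.w))) (IntermediateField.extendScalars (hN' m m')) (A := Z.M)
          have h10 : Algebra.trdeg (IntermediateField.extendScalars (hN' m m')) Z.M = 1 := h1
          rw [h10] at h9
          have h11 : Algebra.trdeg (IntermediateField.adjoin ℂ (cs (comb m Z.w) ∪
            cs (comb m' Z.w))) (IntermediateField.extendScalars (hN' m m')) ≠ 0 := by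
            intro h0
            exact halg (trdeg_eq_zero_iff.mp h0)
          have h12 := Cardinal.one_le_iff_ne_zero.mpr h11
          have h13 : (1 : Cardinal) + 1 ≤ 1 := by
            calc (1 : Cardinal) + 1 ≤ _ + 1 := add_le_add h12 le_rfl
              _ = _ := h9
              _ ≤ 1 := h8
          have h14 : ((2 : ℕ) : Cardinal.{0}) ≤ ((1 : ℕ) : Cardinal.{0}) := by
            have e11 : (1 : Cardinal.{0}) + 1 = ((2 : ℕ) : Cardinal.{0}) := by norm_num
            rw [← e11]
            exact_mod_cast h13
          exact absurd (Nat.cast_le.mp h14) (by norm_num)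
      rw [h6]
      push_cast
      ring

end Pool.Agent.VM.XD8p
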