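import Pool.Agent.Lib_helper15.VM.III

/-!
# MP_5582d1_ag, part X, block XGAL: conjugate points induce the same valuation of `K(e)`
(cites the stubs `bridge` (B0) and `at_unique` (F3) of `StubsE`; the proof of `G1` below is the one of
helper21, block Y6a)
-/

set_option autoImplicit false
set_option linter.style.haveILetI false

namespace Pool.Agent.VM.XGALp

open Pool.Agent.VM
open scoped Classical
open Polynomial IntermediateField

attribute [-instance] Subtype.instDecidableEq

theorem yc_sq {R F : Type} [CommRing R] [Field F] [Algebra R F] {a b : R}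
    (Q : Pt (SW a b) F) (hQ : Q ≠ 0) :
    yc Q ^ 2 = xc Q ^ 3 + algebraMap R F a * xc Q ^ 2 + algebraMap R F b := by
  match Q, hQ with
  | .zero, h => exact absurd rfl h
  | .some x y h, _ =>
    have := (WeierstrassCurve.Affine.equation_iff _ _).mp h.1
    simp [SW, WeierstrassCurve.baseChange, WeierstrassCurve.map] at this
    simp only [xc, yc]
    linear_combination this

section
variable {K L : Type} [Field K] [Field L] [Algebra K L]

/-- the cubic polynomial -/
noncomputable def cub (A B : K) : K[X] := X ^ 3 + C A * X ^ 2 + C B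

theorem natDegree_cub (A B : K) : (cub A B).natDegree = 3 := by
  unfold cub
  compute_degree!

theorem key (x y : L) (A B : K) (hx : Transcendental K x)
    (hy : y ^ 2 = x ^ 3 + algebraMap K L A * x ^ 2 + algebraMap K L B) (p q : K[X])
    (h : aeval x p + aeval x q * y = 0) : p = 0 ∧ q = 0 := by
  have h1 : aeval x (p ^ 2 - q ^ 2 * cub A B) = 0 := by
    have e : aeval x (cub A B) = y ^ 2 := by
      rw [hy]; simp [cub]
    rw [map_sub, map_mul, map_pow, map_pow, e]
    linear_combination (aeval x p - aeval x q * y) * h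
  have h2 : p ^ 2 - q ^ 2 * cub A B = 0 := by
    by_contra h3
    exact hx ⟨_, h3, h1⟩
  have h3 : p ^ 2 = q ^ 2 * cub A B := sub_eq_zero.1 h2
  have hc : cub A B ≠ 0 := by
    intro h4
    have := natDegree_cub A B
    rw [h4, natDegree_zero] at this
    omega
  have hq : q = 0 := by
    by_contra hq
    have h4 := congrArg natDegree h3
    rw [natDegree_mul (pow_ne_zero 2 hq) hc, natDegree_pow, natDegree_pow, natDegree_cub] at h4
    omega
  refine ⟨?_, hq⟩
  rw [hq] at h3
  simpa using h3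

/-- the curve over `K` -/
def WK (A B : K) : WeierstrassCurve K := SW A B

theorem ev_eq (x y : L) (A B : K)
    (hy : y ^ 2 = x ^ 3 + algebraMap K L A * x ^ 2 + algebraMap K L B) :
    (WK A B).toAffine.polynomial.eval₂ (aeval x : K[X] →ₐ[K] L) y = 0 := by
  simp [WeierstrassCurve.Affine.polynomial, WK, SW, eval₂_sub, eval₂_add, eval₂_mul, eval₂_pow,
    WeierstrassCurve.toAffine]
  linear_combination hy

/-- evaluation at a point -/
noncomputable def ev (x y : L) (A B : K)
    (hy : y ^ 2 = x ^ 3 + algebraMap K L A * x ^ 2 + algebraMap K L B) :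
    (WK A B).toAffine.CoordinateRing →ₐ[K] L :=
  AdjoinRoot.liftAlgHom _ (aeval x) y (ev_eq x y A B hy)

theorem ev_mk (x y : L) (A B : K)
    (hy : y ^ 2 = x ^ 3 + algebraMap K L A * x ^ 2 + algebraMap K L B) (f : K[X][X]) :
    ev x y A B hy (AdjoinRoot.mk _ f) = f.eval₂ (aeval x : K[X] →ₐ[K] L) y := by
  unfold ev
  exact AdjoinRoot.liftAlgHom_mk _ _ _ _ _

theorem ev_inj (x y : L) (A B : K) (hx : Transcendental K x)
    (hy : y ^ 2 = x ^ 3 + algebraMap K L A * x ^ 2 + algebraMap K L B) :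
    Function.Injective (ev x y A B hy) := by
  rw [injective_iff_map_eq_zero]
  intro g hg
  obtain ⟨p, q, rfl⟩ := WeierstrassCurve.Affine.CoordinateRing.exists_smul_basis_eq g
  rw [WeierstrassCurve.Affine.CoordinateRing.smul, WeierstrassCurve.Affine.CoordinateRing.smul,
    mul_one, map_add, map_mul] at hg
  have e1 : ∀ f : K[X], ev x y A B hy (AdjoinRoot.mk _ (C f)) = aeval x f := fun f => by
    rw [ev_mk]; simp
  have e2 : ev x y A B hy (AdjoinRoot.mk _ X) = y := by rw [ev_mk]; simp
  erw [e1, e1, e2] at hg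
  obtain ⟨rfl, rfl⟩ := key x y A B hx hy p q hg
  simp

theorem ext_hom (A B : K) {L L' : Type} [Field L] [Field L'] [Algebra K L] [Algebra K L']
    (x y : L) (x' y' : L') (hx : Transcendental K x) (hx' : Transcendental K x')
    (hy : y ^ 2 = x ^ 3 + algebraMap K L A * x ^ 2 + algebraMap K L B)
    (hy' : y' ^ 2 = x' ^ 3 + algebraMap K L' A * x' ^ 2 + algebraMap K L' B) :
    ∃ φ : IntermediateField.adjoin K ({x, y} : Set L) →ₐ[K] L',
      ∀ (hx : x ∈ IntermediateField.adjoin K ({x, y} : Set L))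
        (hy : y ∈ IntermediateField.adjoin K ({x, y} : Set L)),
        φ ⟨x, hx⟩ = x' ∧ φ ⟨y, hy⟩ = y' := by
  let S := (WK A B).toAffine.CoordinateRing
  let Q := FractionRing S
  let F : Q →ₐ[K] L := IsFractionRing.liftAlgHom (ev_inj x y A B hx hy)
  let F' : Q →ₐ[K] L' := IsFractionRing.liftAlgHom (ev_inj x' y' A B hx' hy')
  let X' : Q := algebraMap S Q (AdjoinRoot.mk _ (C X))
  let Y' : Q := algebraMap S Q (AdjoinRoot.mk _ X)
  have f1 : F X' = x := by
    show IsFractionRing.lift (ev_inj x y A B hx hy) _ = _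
    rw [IsFractionRing.lift_algebraMap]
    erw [ev_mk]; simp
  have f2 : F Y' = y := by
    show IsFractionRing.lift (ev_inj x y A B hx hy) _ = _
    rw [IsFractionRing.lift_algebraMap]
    erw [ev_mk]; simp
  have f3 : F' X' = x' := by
    show IsFractionRing.lift (ev_inj x' y' A B hx' hy') _ = _
    rw [IsFractionRing.lift_algebraMap]
    erw [ev_mk]; simp
  have f4 : F' Y' = y' := by
    show IsFractionRing.lift (ev_inj x' y' A B hx' hy') _ = _
    rw [IsFractionRing.lift_algebraMap]
    erw [ev_mk]; simp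
  have hle : IntermediateField.adjoin K ({x, y} : Set L) ≤ F.fieldRange := by
    rw [IntermediateField.adjoin_le_iff]
    rintro t (rfl | rfl)
    · exact ⟨X', f1⟩
    · exact ⟨Y', f2⟩
  let e : Q ≃ₐ[K] F.fieldRange := AlgEquiv.ofInjectiveField F
  refine ⟨(F'.comp e.symm.toAlgHom).comp (IntermediateField.inclusion hle), fun h1 h2 => ⟨?_, ?_⟩⟩
  · show F' (e.symm _) = x'
    rw [← f3]
    congr 1
    rw [AlgEquiv.symm_apply_eq]
    apply Subtype.ext
    exact f1.symm
  · show F' (e.symm _) = y'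
    rw [← f4]
    congr 1
    rw [AlgEquiv.symm_apply_eq]
    apply Subtype.ext
    exact f2.symm

end

theorem ne_zero_of_tr {R F K : Type} [CommRing R] [Field F] [Field K] [Algebra R F] [Algebra K F]
    {a b : R} (Q : Pt (SW a b) F) (hQ : Transcendental K (xc Q)) : Q ≠ 0 := by
  rintro rfl
  exact hQ isAlgebraic_zero

/-- Y6a -/
theorem G1 {R : Type} [CommRing R] (a b : R) {K L L' : Type} [Field K] [CharZero K] [Field L]
    [Field L'] [Algebra K L] [Algebra K L'] [Algebra R K] [Algebra R L] [Algebra R L']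
    [IsScalarTower R K L] [IsScalarTower R K L'] (e : Pt (SW a b) L) (e' : Pt (SW a b) L')
    (he : Transcendental K (xc e)) (he' : Transcendental K (xc e')) :
    ∃ φ : IntermediateField.adjoin K (cs e) →ₐ[K] L',
      ∀ (hx : xc e ∈ IntermediateField.adjoin K (cs e))
        (hy : yc e ∈ IntermediateField.adjoin K (cs e)),
        φ ⟨xc e, hx⟩ = xc e' ∧ φ ⟨yc e, hy⟩ = yc e' := by
  have h1 := yc_sq e (ne_zero_of_tr e he)
  have h2 := yc_sq e' (ne_zero_of_tr e' he')
  rw [IsScalarTower.algebraMap_apply R K L, IsScalarTower.algebraMap_apply R K L] at h1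
  rw [IsScalarTower.algebraMap_apply R K L', IsScalarTower.algebraMap_apply R K L'] at h2
  exact ext_hom (algebraMap R K a) (algebraMap R K b) (xc e) (yc e) (xc e') (yc e') he he' h1 h2


/-- a semilinear map of `F = k(e)` over an automorphism of `k` which fixes `e` -/
theorem semi {k F : Type} [Field k] [CharZero k] [Field F] [Algebra k F] (e : Pt E2 F)
    (he : Transcendental k (xc e)) (hg : IntermediateField.adjoin k (cs e) = ⊤) (g : k ≃+* k) :
    ∃ σ : F →+* F, (∀ c : k, σ (algebraMap k F c) = algebraMap k F (g c)) ∧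
      σ (xc e) = xc e ∧ σ (yc e) = yc e ∧ Function.Surjective σ := by
  have key : ∀ (L' : Type) [Field L'] (i' : k →+* L') (e' : Pt E2 L')
      (_ : ∀ p : Polynomial k, p ≠ 0 → p.eval₂ i' (xc e') ≠ 0),
      ∃ σ : F →+* L', (∀ c : k, σ (algebraMap k F c) = i' c) ∧ σ (xc e) = xc e' ∧
        σ (yc e) = yc e' := by
    intro L' _ i' e' he'
    letI : Algebra k L' := i'.toAlgebra
    have he'' : Transcendental k (xc e') := by
      rintro ⟨p, hp, hp'⟩
      exact he' p hp hp'
    obtain ⟨φ, hφ⟩ := G1 (R := ℤ) 0 1 (K := k) e e' he he''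
    have hx : xc e ∈ IntermediateField.adjoin k (cs e) :=
      IntermediateField.subset_adjoin k _ (Or.inl rfl)
    have hy : yc e ∈ IntermediateField.adjoin k (cs e) :=
      IntermediateField.subset_adjoin k _ (Or.inr rfl)
    have hall : ∀ x : F, x ∈ IntermediateField.adjoin k (cs e) := by
      intro x; rw [hg]; trivial
    refine ⟨{ toFun := fun x => φ ⟨x, hall x⟩
              map_one' := map_one φ
              map_mul' := fun x y => map_mul φ ⟨x, hall x⟩ ⟨y, hall y⟩
              map_zero' := map_zero φ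
              map_add' := fun x y => map_add φ ⟨x, hall x⟩ ⟨y, hall y⟩ }, ?_, ?_, ?_⟩
    · intro c
      exact φ.commutes c
    · exact (hφ hx hy).1
    · exact (hφ hx hy).2
  obtain ⟨σ, h1, h2, h3⟩ := key F ((algebraMap k F).comp (g : k →+* k)) e (by
    intro p hp h
    apply he
    refine ⟨p.map (g : k →+* k), (Polynomial.map_ne_zero_iff g.injective).2 hp, ?_⟩
    rw [Polynomial.aeval_def, Polynomial.eval₂_map]
    exact h)
  refine ⟨σ, h1, h2, h3, ?_⟩
  let S : IntermediateField k F := { σ.fieldRange with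
    algebraMap_mem' := fun c => ⟨algebraMap k F (g.symm c), by rw [h1]; simp⟩ }
  have hS : S = ⊤ := by
    rw [eq_top_iff, ← hg, IntermediateField.adjoin_le_iff]
    rintro x (rfl | rfl)
    · exact ⟨_, h2⟩
    · exact ⟨_, h3⟩
  intro x
  have : x ∈ S := by rw [hS]; trivial
  exact this

section Curve

variable {Λ : Type} [Field Λ] [CharZero Λ] [IsAlgClosed Λ]

/-- GAL: conjugate points induce the same valuation of `K(e)` -/
theorem GAL (K Kb : Subfield Λ) (hKb : ∀ x : Λ, x ∈ Kb ↔ IsAlgebraic K x) (e : Pt E2 Λ)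
    (he : Transcendental Kb (xc e)) (hal : ∀ x : Λ, IsAlgebraic (fe Kb e) x)
    (g : Kb ≃+* Kb) (hg : ∀ x : Kb, (x : Λ) ∈ K → g x = x)
    (a a' : Pt E2 Kb) (haa : mp (P := ℤ) (g : Kb →+* Kb).toIntAlgHom a = a') (u u' : QV Λ)
    (hu : AtPt Kb e a u) (hu' : AtPt Kb e a' u') (H : Λ) (hH : H ∈ fe K e) (h0 : H ≠ 0) :
    u.v H = u'.v H := by
  obtain ⟨F, _, _, φ, e', hφc, hfe, hx, hy, hgt, htr, hat⟩ := bridge Kb e he
  obtain ⟨σ, h1, h2, h3, hs⟩ := semi e' htr hgt g
  have hA := (hat a u).1 hu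
  have hA' := (hat a' u').1 hu'
  have hxa : xc a' = g (xc a) ∧ yc a' = g (yc a) ∧ (a = 0 ↔ a' = 0) := by
    subst haa
    refine ⟨?_, ?_, ?_⟩
    · cases a with
      | zero => exact (map_zero g).symm
      | some x y h => rfl
    · cases a with
      | zero => exact (map_zero g).symm
      | some x y h => rfl
    · cases a with
      | zero => exact ⟨fun _ => rfl, fun _ => rfl⟩
      | some x y h => exact ⟨fun h => (by cases h), fun h => (by cases h)⟩
  have hB : At e' a ((u'.comap φ).comap σ) := by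
    have hne : ∀ {x : F}, x ≠ 0 → σ x ≠ 0 := fun hx => (map_ne_zero σ).2 hx
    refine ⟨⟨?_, ?_, ?_⟩, ?_, ?_⟩
    · intro d hd
      show (u'.comap φ).v (σ (algebraMap Kb F d)) = 0
      rw [h1]
      exact hA'.triv _ ((map_ne_zero (g : Kb →+* Kb)).2 hd)
    · intro ha
      have h4 := hA'.ctr (fun h => ha (hxa.2.2.2 h))
      show 0 < (u'.comap φ).v (σ (xc e' - algebraMap Kb F (xc a))) ∧
        0 < (u'.comap φ).v (σ (yc e' - algebraMap Kb F (yc a)))
      rw [map_sub, map_sub, h1, h1, h2, h3, ← hxa.1, ← hxa.2.1]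
      exact h4
    · intro ha
      show (u'.comap φ).v (σ (xc e')) < 0
      rw [h2]
      exact hA'.ctr0 (hxa.2.2.1 ha)
    · intro x hx
      exact hA'.int _ (hne hx)
    · obtain ⟨x, hx, hx'⟩ := hA'.unif
      obtain ⟨y, rfl⟩ := hs x
      exact ⟨y, fun h => hx (by rw [h, map_zero]), hx'⟩
  have hfix : ∀ x ∈ fe K e, ∃ y : F, φ y = x ∧ σ y = y := by
    have hle : fe K e ≤ (σ.eqLocusField (RingHom.id F)).map φ := by
      rw [fe, Subfield.closure_le]
      rintro x (hx' | rfl | rfl)
      · have h4 : x ∈ Kb := (hKb x).2 (isAlgebraic_algebraMap (⟨x, hx'⟩ : K))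
        refine ⟨algebraMap Kb F ⟨x, h4⟩, ?_, hφc ⟨x, h4⟩⟩
        show σ _ = _
        rw [h1, hg ⟨x, h4⟩ hx']
        rfl
      · exact ⟨xc e', h2, hx⟩
      · exact ⟨yc e', h3, hy⟩
    intro x hx
    obtain ⟨y, hy, hy'⟩ := hle hx
    exact ⟨y, hy', hy⟩
  obtain ⟨y, rfl, hy'⟩ := hfix H hH
  have h4 := at_unique htr hgt a _ _ hA hB y (fun h => h0 (by rw [h, map_zero]))
  have h5 : ((u'.comap φ).comap σ).v y = u'.v (φ (σ y)) := rfl
  rw [h5, hy'] at h4
  exact h4

end Curve

end Pool.Agent.VM.XGALp
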