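import Pool.Agent.Lib_VM.StubsA_h85
import Pool.Agent.Lib_VM.StubsC_h85
import Pool.Agent.Lib_VM.Base_h71
import Pool.Agent.Lib_helper67.VM.PtF
import Pool.Agent.Lib_VM.A_ALG6
import Pool.Agent.Lib_helper15.VM.III

/-! MP_5582d1_ag, block XQF. Cites the stubs ALG6 (StubsC) and HQ (StubsA). -/

set_option autoImplicit false
set_option linter.style.haveILetI false

namespace Pool.Agent.VM.XQFp

open scoped Classical
open IntermediateField

attribute [-instance] Subtype.instDecidableEq

private theorem xqf_trans {P M : Type} [Field P] [Field M] [Algebra P M]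
    (F E : IntermediateField P M) (h : ∀ x ∈ E, IsAlgebraic F x) {v : M}
    (hv : IsAlgebraic E v) : IsAlgebraic F v := by
  let f : E →+* algebraicClosure F M :=
    { toFun := fun x => ⟨x, mem_algebraicClosure_iff.2 (h x x.2)⟩
      map_one' := rfl
      map_mul' := fun _ _ => rfl
      map_zero' := rfl
      map_add' := fun _ _ => rfl }
  have hC : IsAlgebraic (algebraicClosure F M) v := by
    obtain ⟨p, hp, hpv⟩ := hv
    refine ⟨p.map f, (Polynomial.map_ne_zero_iff f.injective).2 hp, ?_⟩
    rw [Polynomial.aeval_def, Polynomial.eval₂_map]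
    exact hpv
  exact hC.restrictScalars F

private theorem xqf_yc {F : Type} {M : Type} [Field F] [Field M] [Algebra F M] (Q : Pt E2 M)
    (h : IsAlgebraic F (xc Q)) : IsAlgebraic F (yc Q) := by
  by_cases h0 : Q = 0
  · rw [h0]
    exact isAlgebraic_zero
  · have h1 := ptf_sq (a := (0 : ℤ)) (b := 1) h0
    have h2 : IsAlgebraic F (yc Q ^ 2) := by
      rw [h1]
      refine IsAlgebraic.add (IsAlgebraic.add (h.pow 3) ?_) ?_
      · rw [map_zero, zero_mul]
        exact isAlgebraic_zero
      · rw [map_one]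
        exact isAlgebraic_one
    exact h2.of_pow (by norm_num)

private theorem xqf_Δ {K : Type} [Field K] [CharZero K] : algebraMap ℤ K (SW 0 1).Δ ≠ 0 := by
  have h : (SW (0 : ℤ) 1).Δ = -432 := by
    simp [SW, WeierstrassCurve.Δ, WeierstrassCurve.b₂, WeierstrassCurve.b₄, WeierstrassCurve.b₆,
      WeierstrassCurve.b₈]
  rw [h]
  simp

/-- a field algebraic over `E(Q)` has transcendence degree at most 1 over `E` -/
private theorem xqf_tr {E M : Type} [Field E] [Field M] [Algebra E M] (Q : Pt E2 M)
    (h : ∀ v : M, IsAlgebraic (adjoin E (cs Q)) v) : Algebra.trdeg E M ≤ 1 := by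
  have h1 : adjoin E (cs Q) ≤ IntermediateField.restrictScalars E
      (algebraicClosure (adjoin E {xc Q}) M) := by
    rw [adjoin_le_iff]
    have hx : IsAlgebraic (adjoin E {xc Q}) (xc Q) :=
      isAlgebraic_algebraMap (⟨xc Q, subset_adjoin _ _ rfl⟩ : adjoin E {xc Q})
    rintro _ (rfl | rfl)
    · exact mem_algebraicClosure_iff.2 hx
    · exact mem_algebraicClosure_iff.2 (xqf_yc _ hx)
  have h2 : Algebra.IsAlgebraic (adjoin E {xc Q}) M :=
    ⟨fun v => xqf_trans _ _ (fun x hx => mem_algebraicClosure_iff.1 (h1 hx)) (h v)⟩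
  have h3 := tr_le_of_alg ({xc Q} : Set M) h2
  rwa [Cardinal.mk_singleton] at h3

private theorem xqf_dg {E M : Type} [Field E] [Field M] [Algebra E M] (Q : Pt E2 M)
    (h : dg E (cs Q) ≠ 0) : Algebra.trdeg E M ≤ 1 := by
  refine xqf_tr Q fun v => ?_
  haveI : FiniteDimensional (adjoin E (cs Q)) M := Module.finite_of_finrank_pos (Nat.pos_of_ne_zero h)
  exact Algebra.IsAlgebraic.isAlgebraic v

/-- the field generated by the coordinates of a point -/
private theorem xqf_pt {k M : Type} [Field k] [Field M] [Algebra k M] (P : Pt E2 M) :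
    Algebra.trdeg k (adjoin k (cs P)) ≤ 1 := by
  have hP : P ∈ ptsIn (K := k) E2 (adjoin k (cs P)) := mem_ptsIn.2 (subset_adjoin _ _)
  obtain ⟨P', hP'⟩ := hP
  have e : adjoin k (cs P') = ⊤ := by
    have h1 : (adjoin k (cs P')).map (adjoin k (cs P)).val = adjoin k (cs P) := by
      rw [adjoin_map, ← cs_mp]
      congr 2
    rw [eq_top_iff]
    intro x _
    have hx : (x : M) ∈ (adjoin k (cs P')).map (adjoin k (cs P)).val := by
      rw [h1]; exact x.2
    obtain ⟨y, hy, hyx⟩ := hx
    have : y = x := Subtype.ext hyx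
    rwa [← this]
  refine xqf_tr P' fun v => ?_
  exact isAlgebraic_algebraMap (⟨v, by rw [e]; trivial⟩ : adjoin k (cs P'))

private theorem xqf_add {M : Type} [Field M] (w : Fin 3 → Pt E2 M) (a b : Fin 3 → ℤ) :
    comb (a + b) w = comb a w + comb b w := by
  simp only [comb, Pi.add_apply, add_smul, Finset.sum_add_distrib]

private theorem xqf_sub {M : Type} [Field M] (w : Fin 3 → Pt E2 M) (a b : Fin 3 → ℤ) :
    comb (a - b) w = comb a w - comb b w := by
  simp only [comb, Pi.sub_apply, sub_smul, Finset.sum_sub_distrib]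

/-- QF: surfaces in `E₂³` -/
theorem QF {k M : Type} [Field k] [CharZero k] [Field M] [Algebra k M] (w : Fin 3 → Pt E2 M)
    (hg : IntermediateField.adjoin k (⋃ i, cs (w i)) = ⊤) (htr : Algebra.trdeg k M = 2) :
    ∃ q : (Fin 3 → ℤ) → ℚ, Par q ∧ (∀ y, 0 ≤ q y) ∧
      ∀ m m', (dg k (cs (comb m w) ∪ cs (comb m' w)) : ℚ) = q (crs m m') := by
  refine ALG6 (fun m m' => (dg k (cs (comb m w) ∪ cs (comb m' w)) : ℚ)) ?_ ?_ ?_ ?_
  · intro m a b
    set E : IntermediateField k M := adjoin k (cs (comb m w)) with hE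
    have hadd : Algebra.trdeg k E + Algebra.trdeg E M = 2 := by
      rw [← htr]; exact trdeg_add_eq k E
    have hE1 : Algebra.trdeg k E ≤ 1 := xqf_pt _
    simp only [← dg_union]
    rw [← hE, xqf_add, xqf_sub]
    have key : dg E (cs (comb a w + comb b w)) + dg E (cs (comb a w - comb b w)) =
        2 * dg E (cs (comb a w)) + 2 * dg E (cs (comb b w)) := by
      by_cases hM : Algebra.trdeg E M ≤ 1
      · have hM1 : Algebra.trdeg E M = 1 := by
          obtain ⟨p, hp⟩ := Cardinal.lt_aleph0.1 (hE1.trans_lt Cardinal.one_lt_aleph0)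
          obtain ⟨r, hr⟩ := Cardinal.lt_aleph0.1 (hM.trans_lt Cardinal.one_lt_aleph0)
          rw [hp] at hE1 hadd
          rw [hr] at hM hadd ⊢
          norm_cast at hE1 hM hadd ⊢
          omega
        have hfg : (⊤ : IntermediateField E M).FG := by
          refine ⟨(Set.Finite.toFinset (s := ⋃ i, cs (w i))
            (Set.finite_iUnion fun i => by unfold cs; exact Set.toFinite _)), ?_⟩
          rw [Set.Finite.coe_toFinset]
          rw [eq_top_iff]
          intro x _
          have h1 : adjoin k (⋃ i, cs (w i)) ≤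
              IntermediateField.restrictScalars k (adjoin E (⋃ i, cs (w i))) := by
            rw [adjoin_le_iff]
            exact subset_adjoin E _
          rw [hg] at h1
          exact h1 (mem_top (x := x))
        exact HQ (0 : ℤ) 1 xqf_Δ hfg hM1 (comb a w) (comb b w)
      · have h0 : ∀ Q : Pt E2 M, dg E (cs Q) = 0 := fun Q => by
          by_contra h
          exact hM (xqf_dg Q h)
        rw [h0, h0, h0, h0]
    exact_mod_cast key
  · intro m m'
    show (dg k (cs (comb m w) ∪ cs (comb m' w)) : ℚ) = (dg k (cs (comb m' w) ∪ cs (comb m w)) : ℚ)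
    rw [Set.union_comm]
  · intro m m'
    show (dg k (cs (comb m w) ∪ cs (comb (m' + m) w)) : ℚ) = (dg k (cs (comb m w) ∪ cs (comb m' w)) : ℚ)
    rw [dg_congr (S := cs (comb m w) ∪ cs (comb (m' + m) w)) (T := cs (comb m w) ∪ cs (comb m' w))]
    apply le_antisymm
    · rw [adjoin_le_iff, Set.union_subset_iff]
      refine ⟨Set.subset_union_left.trans (subset_adjoin _ _), ?_⟩
      rw [xqf_add]
      exact cs_add_subset (Set.subset_union_right.trans (subset_adjoin _ _))
        (Set.subset_union_left.trans (subset_adjoin _ _))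
    · rw [adjoin_le_iff, Set.union_subset_iff]
      refine ⟨Set.subset_union_left.trans (subset_adjoin _ _), ?_⟩
      have e : comb m' w = comb (m' + m) w + -comb m w := by
        rw [xqf_add]; abel
      have h1 := cs_add_subset (K := k)
        (E := adjoin k (cs (comb m w) ∪ cs (comb (m' + m) w)))
        (Q := comb (m' + m) w) (Q' := -comb m w)
        (Set.subset_union_right.trans (subset_adjoin _ _))
        (cs_neg_subset (Set.subset_union_left.trans (subset_adjoin _ _)))
      rwa [← e] at h1
  · intro m m'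
    exact Nat.cast_nonneg _

end Pool.Agent.VM.XQFp
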