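import Pool.Agent.Lib_VM.StubsC_h85
import Pool.Agent.Lib_VM.V_h80
import Pool.Agent.Lib_VM.A_CTX
import Pool.Agent.Lib_VM.A_Ctx_D1
import Pool.Agent.Lib_VM.A_Ctx_D2a
import Pool.Agent.Lib_VM.A_Ctx_D2b
import Pool.Agent.Lib_VM.A_Ctx_D3
import Pool.Agent.Lib_VM.A_Ctx_D4
import Pool.Agent.Lib_VM.A_Ctx_D5
import Pool.Agent.Lib_VM.A_Ctx_D6
import Pool.Agent.Lib_VM.A_Ctx_nu_spec
import Pool.Agent.Lib_VM.A_D8

/-!
# MP_5582d1_ag: Theorem A from the decomposition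
cites: CTX, D8, Ctx.D1, Ctx.D2a, Ctx.D2b, Ctx.D3, Ctx.D4, Ctx.D5, Ctx.D6, Ctx.nu_spec, Ctx.kb_iff
-/

set_option autoImplicit false

namespace Pool.Agent.VM.THMAp

open scoped Classical

attribute [-instance] Subtype.instDecidableEq

variable {l : ℂ} {Z : SubVar l}

/-- index of a local contribution -/
structure Idx (C : Ctx Z) where
  m : Fin 3 → ℤ
  m' : Fin 3 → ℤ
  n : Fin 3 → ℤ
  uni : Uni m m' n
  β : Pt E2 (C.kb m m')

noncomputable def Idx.D {C : Ctx Z} (i : Idx C) : C.w0.κ → ℚ := C.Dof (C.nu i.m i.m' i.n i.β)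

noncomputable def Idx.E {C : Ctx Z} (i : Idx C) (P : Pt (E1 l) Z.M) : ℚ := C.EE i.m i.m' i.n i.β P

lemma k_le_kb (C : Ctx Z) (m m' : Fin 3 → ℤ) : C.k ≤ C.kb m m' := by
  intro x hx
  have h1 : x ∈ C.k0 m m' := Subfield.subset_closure (Or.inl hx)
  have h2 : IsAlgebraic (C.k0 m m') x := isAlgebraic_algebraMap (⟨x, h1⟩ : C.k0 m m')
  exact mem_algebraicClosure_iff.mpr h2

lemma nu_triv (C : Ctx Z) (m m' n : Fin 3 → ℤ) (ht : Uni m m' n) (β : Pt E2 (C.kb m m')) :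
    ∀ y ∈ C.k, y ≠ 0 → (C.nu m m' n β).v y = 0 :=
  fun y hy h0 => (C.nu_spec m m' n ht β).triv y (k_le_kb C m m' hy) h0

lemma E_indep {C : Ctx Z} (i j : Idx C) (h : i.D = j.D) (P : Pt (E1 l) Z.M) : i.E P = j.E P := by
  unfold Idx.E Ctx.EE
  rw [C.D3 i.m i.m' i.n i.uni j.m j.m' j.n j.uni i.β j.β h P,
    C.D2a _ _ (nu_triv C i.m i.m' i.n i.uni i.β) (nu_triv C j.m j.m' j.n j.uni j.β) h P]

lemma EE_fin (C : Ctx Z) (m m' n : Fin 3 → ℤ) (ht : Uni m m' n) (P : Pt (E1 l) Z.M) :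
    {β | C.EE m m' n β P ≠ 0}.Finite := by
  refine ((C.D1 m m' n ht P).1.union (C.D2b m m' n ht P).1).subset ?_
  intro β hβ
  by_contra hc
  simp only [Set.mem_union, Set.mem_ofPred_eq, not_or, not_not] at hc
  apply hβ
  unfold Ctx.EE
  rw [hc.1, hc.2, sub_zero]

lemma EE_sum (C : Ctx Z) (m m' n : Fin 3 → ℤ) (ht : Uni m m' n) (P : Pt (E1 l) Z.M) :
    (dg ℂ (cs P ∪ cs (comb m Z.w) ∪ cs (comb m' Z.w)) : ℚ) = ∑ᶠ β, C.EE m m' n β P := by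
  unfold Ctx.EE
  rw [finsum_sub_distrib (C.D1 m m' n ht P).1 (C.D2b m m' n ht P).1, (C.D2b m m' n ht P).2, sub_zero]
  exact (C.D1 m m' n ht P).2

theorem D7 (C : Ctx Z) (A : Finset (Fin 3 → ℤ))
    (S : Finset ((Fin 3 → ℤ) × (Fin 3 → ℤ) × (Fin 3 → ℤ))) (hS : ∀ t ∈ S, Uni t.1 t.2.1 t.2.2) :
    ∃ (s : Finset (C.w0.κ → ℚ)) (E q : (C.w0.κ → ℚ) → (Fin 3 → ℤ) → ℚ),
      (∀ i ∈ s, Par (E i)) ∧ (∀ i ∈ s, ∀ a, 0 ≤ E i a) ∧ (∀ i ∈ s, Par (q i)) ∧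
      (∀ i ∈ s, ∀ y, 0 ≤ q i y) ∧
      ∀ a ∈ A, ∀ t ∈ S, (Z.G a t.1 t.2.1 : ℚ) = ∑ i ∈ s, E i a * q i (crs t.1 t.2.1) := by
  -- the finite sets
  have hfin : ∀ t : {t // t ∈ S}, {β : Pt E2 (C.kb t.1.1 t.1.2.1) |
      ∃ a ∈ A, C.EE t.1.1 t.1.2.1 t.1.2.2 β (comb a Z.z) ≠ 0}.Finite := by
    intro t
    have : {β : Pt E2 (C.kb t.1.1 t.1.2.1) |
        ∃ a ∈ A, C.EE t.1.1 t.1.2.1 t.1.2.2 β (comb a Z.z) ≠ 0} =
        ⋃ a ∈ (A : Set (Fin 3 → ℤ)), {β | C.EE t.1.1 t.1.2.1 t.1.2.2 β (comb a Z.z) ≠ 0} := by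
      ext β; simp
    rw [this]
    exact A.finite_toSet.biUnion fun a _ => EE_fin C _ _ _ (hS t.1 t.2) _
  let Fs : (t : {t // t ∈ S}) → Finset (Pt E2 (C.kb t.1.1 t.1.2.1)) := fun t => (hfin t).toFinset
  let s : Finset (C.w0.κ → ℚ) :=
    S.attach.biUnion fun t => (Fs t).image fun β => C.Dof (C.nu t.1.1 t.1.2.1 t.1.2.2 β)
  have hrep : ∀ D ∈ s, ∃ i : Idx C, i.D = D := by
    intro D hD
    simp only [s, Finset.mem_biUnion, Finset.mem_image] at hD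
    obtain ⟨t, _, β, _, h⟩ := hD
    exact ⟨⟨t.1.1, t.1.2.1, t.1.2.2, hS t.1 t.2, β⟩, h⟩
  have hq : ∀ i : Idx C, ∃ q : (Fin 3 → ℤ) → ℚ, Par q ∧ (∀ y, 0 ≤ q y) ∧
      ∀ m1 m1' n1 : Fin 3 → ℤ, Uni m1 m1' n1 →
      {β1 | C.Dof (C.nu m1 m1' n1 β1) = i.D}.Finite ∧
      ({β1 | C.Dof (C.nu m1 m1' n1 β1) = i.D}.ncard : ℚ) = q (crs m1 m1') :=
    fun i => C.D6 i.m i.m' i.n i.uni i.β
  choose q0 hq1 hq2 hq3 using hq
  let rep : (C.w0.κ → ℚ) → Option (Idx C) := fun D =>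
    if h : ∃ i : Idx C, i.D = D then some h.choose else none
  have hr : ∀ D ∈ s, ∃ i : Idx C, rep D = some i ∧ i.D = D := by
    intro D hD
    have h := hrep D hD
    exact ⟨h.choose, by simp only [rep, dif_pos h], h.choose_spec⟩
  let E : (C.w0.κ → ℚ) → (Fin 3 → ℤ) → ℚ := fun D a =>
    match rep D with
    | some i => i.E (comb a Z.z)
    | none => 0
  let q : (C.w0.κ → ℚ) → (Fin 3 → ℤ) → ℚ := fun D y =>
    match rep D with
    | some i => q0 i y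
    | none => 0
  have hE : ∀ D i, rep D = some i → E D = fun a => i.E (comb a Z.z) := by
    intro D i h; funext a; simp only [E, h]
  have hqq : ∀ D i, rep D = some i → q D = q0 i := by
    intro D i h; funext a; simp only [q, h]
  have hadd : ∀ a b : Fin 3 → ℤ, comb (a + b) Z.z = comb a Z.z + comb b Z.z := by
    intro a b
    simp only [comb, Pi.add_apply, add_smul, Finset.sum_add_distrib]
  have hsub : ∀ a b : Fin 3 → ℤ, comb (a - b) Z.z = comb a Z.z - comb b Z.z := by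
    intro a b
    simp only [comb, Pi.sub_apply, sub_smul, Finset.sum_sub_distrib]
  refine ⟨s, E, q, ?_, ?_, ?_, ?_, ?_⟩
  · intro D hD
    obtain ⟨i, h1, _⟩ := hr D hD
    rw [hE D i h1]
    intro a b
    simp only [hadd, hsub]
    exact C.D4 i.m i.m' i.n i.uni i.β _ _
  · intro D hD a
    obtain ⟨i, h1, _⟩ := hr D hD
    rw [hE D i h1]
    exact C.D5 i.m i.m' i.n i.uni i.β _
  · intro D hD
    obtain ⟨i, h1, _⟩ := hr D hD
    rw [hqq D i h1]; exact hq1 i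
  · intro D hD y
    obtain ⟨i, h1, _⟩ := hr D hD
    rw [hqq D i h1]; exact hq2 i y
  · intro a ha t ht
    have hU := hS t ht
    have hG : (Z.G a t.1 t.2.1 : ℚ) = ∑ᶠ β, C.EE t.1 t.2.1 t.2.2 β (comb a Z.z) :=
      EE_sum C t.1 t.2.1 t.2.2 hU (comb a Z.z)
    have hsupp : (Function.support fun β => C.EE t.1 t.2.1 t.2.2 β (comb a Z.z)) ⊆
        ((Fs ⟨t, ht⟩ : Finset (Pt E2 (C.kb t.1 t.2.1))) : Set (Pt E2 (C.kb t.1 t.2.1))) := by
      intro β hβ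
      simp only [Fs, Set.Finite.coe_toFinset, Set.mem_ofPred_eq]
      exact ⟨a, ha, hβ⟩
    rw [hG, finsum_eq_sum_of_support_subset _ hsupp]
    have hmaps : ∀ β ∈ Fs ⟨t, ht⟩, C.Dof (C.nu t.1 t.2.1 t.2.2 β) ∈ s := by
      intro β hβ
      simp only [s, Finset.mem_biUnion, Finset.mem_image]
      exact ⟨⟨t, ht⟩, Finset.mem_attach _ _, β, hβ, rfl⟩
    rw [← Finset.sum_fiberwise_of_maps_to hmaps]
    refine Finset.sum_congr rfl fun D hD => ?_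
    obtain ⟨i, h1, h2⟩ := hr D hD
    have hval : ∀ β : Pt E2 (C.kb t.1 t.2.1), C.Dof (C.nu t.1 t.2.1 t.2.2 β) = D →
        C.EE t.1 t.2.1 t.2.2 β (comb a Z.z) = E D a := by
      intro β hβ
      rw [hE D i h1]
      exact E_indep ⟨t.1, t.2.1, t.2.2, hU, β⟩ i (hβ.trans h2.symm) _
    have h3 : ∑ β ∈ (Fs ⟨t, ht⟩).filter (fun β => C.Dof (C.nu t.1 t.2.1 t.2.2 β) = D),
        C.EE t.1 t.2.1 t.2.2 β (comb a Z.z) =
        (((Fs ⟨t, ht⟩).filter (fun β => C.Dof (C.nu t.1 t.2.1 t.2.2 β) = D)).card : ℚ) * E D a := by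
      rw [Finset.sum_congr rfl (g := fun _ => E D a) fun β hβ => hval β (Finset.mem_filter.mp hβ).2,
        Finset.sum_const, nsmul_eq_mul]
    rw [h3, mul_comm]
    by_cases h0 : E D a = 0
    · rw [h0, zero_mul, zero_mul]
    congr 1
    have h4 := (hq3 i t.1 t.2.1 t.2.2 hU)
    rw [h2] at h4
    rw [hqq D i h1, ← h4.2]
    have h5 : {β1 | C.Dof (C.nu t.1 t.2.1 t.2.2 β1) = D} =
        (((Fs ⟨t, ht⟩).filter (fun β => C.Dof (C.nu t.1 t.2.1 t.2.2 β) = D) :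
          Finset (Pt E2 (C.kb t.1 t.2.1))) : Set (Pt E2 (C.kb t.1 t.2.1))) := by
      ext β
      simp only [Set.mem_ofPred_eq, Finset.coe_filter, Fs, Set.Finite.mem_toFinset]
      constructor
      · intro h
        exact ⟨⟨a, ha, by rw [hval β h]; exact h0⟩, h⟩
      · exact fun h => h.2
    rw [h5, Set.ncard_coe_finset]

lemma uni_of (m m' n : Fin 3 → ℤ)
    (h : n 0 * V.crs m m' 0 + n 1 * V.crs m m' 1 + n 2 * V.crs m m' 2 = 1) : Uni m m' n := by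
  intro x
  have e0 : V.crs m m' 0 = m 1 * m' 2 - m 2 * m' 1 := rfl
  have e1 : V.crs m m' 1 = m 2 * m' 0 - m 0 * m' 2 := rfl
  have e2 : V.crs m m' 2 = m 0 * m' 1 - m 1 * m' 0 := rfl
  rw [e0, e1, e2] at h
  refine ⟨x 0 * (m' 1 * n 2 - m' 2 * n 1) + x 1 * (m' 2 * n 0 - m' 0 * n 2) +
      x 2 * (m' 0 * n 1 - m' 1 * n 0),
    x 0 * (n 1 * m 2 - n 2 * m 1) + x 1 * (n 2 * m 0 - n 0 * m 2) + x 2 * (n 0 * m 1 - n 1 * m 0),
    x 0 * (m 1 * m' 2 - m 2 * m' 1) + x 1 * (m 2 * m' 0 - m 0 * m' 2) +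
      x 2 * (m 0 * m' 1 - m 1 * m' 0), ?_⟩
  funext i
  fin_cases i
  · simp only [Pi.add_apply, Pi.smul_apply, smul_eq_mul, Fin.zero_eta]
    linear_combination (-x 0) * h
  · simp only [Pi.add_apply, Pi.smul_apply, smul_eq_mul, Fin.mk_one]
    linear_combination (-x 1) * h
  · simp only [Pi.add_apply, Pi.smul_apply, smul_eq_mul, Fin.reduceFinMk]
    linear_combination (-x 2) * h

lemma uni_list (k : Fin 21) : ∃ n, Uni (V.mv k) (V.nv k) n := by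
  obtain ⟨n, h⟩ := V.mn_unimodular k
  exact ⟨n, uni_of _ _ _ h⟩

lemma disc_ne {l : ℂ} (hl : Transcendental ℚ l) : (SW 1 l).Δ ≠ 0 := by
  intro h
  apply hl
  refine ⟨-432 * Polynomial.X ^ 2 - 64 * Polynomial.X, ?_, ?_⟩
  · intro h0
    have := congrArg (fun p => Polynomial.eval 1 p) h0
    simp at this
    norm_num at this
  · simp only [map_sub, map_mul, map_pow, map_neg, Polynomial.aeval_X, map_ofNat]
    rw [← h]
    simp only [SW, WeierstrassCurve.Δ, WeierstrassCurve.b₂, WeierstrassCurve.b₄, WeierstrassCurve.b₆,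
      WeierstrassCurve.b₈]
    ring

theorem ThmA (l : ℂ) (hl : Transcendental ℚ l) (Z : SubVar l) :
    0 ≤ V.Fp (fun a m m' => (Z.G a m m' : ℚ)) := by
  by_cases hw : AlgebraicIndependent ℂ (fun i => xc (Z.w i))
  · obtain ⟨C⟩ := CTX l hl Z hw
    choose nn hnn using uni_list
    obtain ⟨s, E, q, h1, h2, h3, h4, h5⟩ := D7 C (Finset.univ.image V.av)
      (Finset.univ.image fun k => (V.mv k, V.nv k, nn k)) (by
        intro t ht
        obtain ⟨k, _, rfl⟩ := Finset.mem_image.mp ht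
        exact hnn k)
    have h6 : V.Fp (fun a m m' => (Z.G a m m' : ℚ)) =
        V.Fp (fun a m m' => ∑ i ∈ s, E i a * q i (V.crs m m')) := by
      rw [V.Fp_sum, V.Fp_sum]
      congr 1
      refine Finset.sum_congr rfl fun k _ => ?_
      rw [h5 (V.av k) (Finset.mem_image.mpr ⟨k, Finset.mem_univ _, rfl⟩) (V.mv k, V.nv k, nn k)
        (Finset.mem_image.mpr ⟨k, Finset.mem_univ _, rfl⟩)]
      rfl
    rw [h6]
    exact V.Fp_nonneg s E q (fun i hi => h1 i hi) h2 (fun i hi => h3 i hi) h4 _ fun _ _ _ => rfl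
  · obtain ⟨E, q, h1, h2, h3, h4, h5⟩ := D8 (disc_ne hl) Z hw
    exact V.Fp_nonneg (Finset.univ : Finset Unit) (fun _ => E) (fun _ => q) (fun _ _ => h1)
      (fun _ _ => h2) (fun _ _ => h3) (fun _ _ => h4) _ fun a m m' => by
        rw [Finset.univ_unique, Finset.sum_singleton]; exact h5 a m m'

end Pool.Agent.VM.THMAp
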