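import Pool.Agent.Lib_VM.StubsC_h85
import Pool.Agent.Lib_helper67.VM.PtF
import Pool.Agent.Lib_VM.A_C1V

/-! cites: C1V. MP_5582d1_ag, block XUR: `Kb(e)/K(e)` is unramified -/

set_option autoImplicit false

namespace Pool.Agent.VM.XURp

open scoped Classical
open Polynomial Pool.Agent.VM

attribute [-instance] Subtype.instDecidableEq

private theorem ur_ac {Λ : Type} [Field Λ] [IsAlgClosed Λ] (K : Subfield Λ) :
    IsAlgClosed (acl K) := by
  have h : IsAlgClosure K (algebraicClosure K Λ) := inferInstance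
  exact h.isAlgClosed

private theorem ur_sq {k : Type} [Field k] {p : Pt E2 k} (hp : p ≠ 0) :
    yc p ^ 2 = xc p ^ 3 + 1 := by
  have h := ptf_sq (R := ℤ) (a := 0) (b := 1) (F := k) (p := p) hp
  simpa using h

private theorem ur_xc {Λ : Type} [Field Λ] (Kb : Subfield Λ) (a : Pt E2 Kb) :
    xc (inc Kb a) = ((xc a : Kb) : Λ) := by
  cases a with
  | zero => rfl
  | some x y h => rfl

private theorem ur_aev {Λ : Type} [Field Λ] (K : Subfield Λ) (r : Λ)
    (hr : r ∈ algebraicClosure K Λ) (q : K[X]) : aeval r q ∈ algebraicClosure K Λ := by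
  change aeval ((algebraicClosure K Λ).val ⟨r, hr⟩) q ∈ algebraicClosure K Λ
  rw [aeval_algHom_apply]
  exact (aeval (⟨r, hr⟩ : algebraicClosure K Λ) q).2

private theorem ur_mem {Λ : Type} [Field Λ] (K : Subfield Λ) (e : Pt E2 Λ) (p : K[X]) :
    aeval (xc e) p ∈ fe K e := by
  rw [aeval_eq_sum_range]
  refine sum_mem fun i _ => ?_
  rw [Algebra.smul_def]
  refine mul_mem ?_ (pow_mem ?_ _)
  · exact Subfield.subset_closure (Or.inl (p.coeff i).2)
  · exact Subfield.subset_closure (Or.inr (Or.inl rfl))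

/-- the value of `p(x)` at a simple root of `p` -/
private theorem ur_val {Λ : Type} [Field Λ] (K : Subfield Λ) (u : QV Λ) (x r : Λ)
    (hK : ∀ c ∈ K, c ≠ 0 → u.v c = 0) (hr : r ∈ u.ring) (hx0 : x - r ≠ 0)
    (hx : u.v (x - r) = 1) (p : K[X]) (hp : aeval r p = 0)
    (hd : u.v (aeval r p.derivative) = 0) (hd0 : aeval r p.derivative ≠ 0) :
    aeval x p ≠ 0 ∧ u.v (aeval x p) = 1 := by
  have hxr : x ∈ u.ring := by
    have h1 : x - r ∈ u.ring := Or.inr (by rw [hx]; norm_num)
    have := add_mem h1 hr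
    rwa [sub_add_cancel] at this
  have hKr : ∀ c : K, algebraMap K Λ c ∈ u.ring := by
    intro c
    by_cases h : (c : Λ) = 0
    · exact Or.inl h
    · exact Or.inr (hK _ c.2 h).ge
  set f : K →+* u.ring := (algebraMap K Λ).codRestrict u.ring hKr with hf
  have hev : ∀ (q : K[X]) (z : u.ring), (((q.map f).eval z : u.ring) : Λ) = aeval (z : Λ) q := by
    intro q z
    have h1 := Polynomial.hom_eval₂ q f u.ring.subtype z
    rw [eval_map, aeval_def]
    exact h1
  set P := p.map f with hP
  set ρ : u.ring := ⟨r, hr⟩ with hρ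
  set ξ : u.ring := ⟨x, hxr⟩ with hξ
  have hroot : P.IsRoot ρ := by
    apply Subtype.ext
    rw [hP, hev]
    exact hp
  have hfac := mul_divByMonic_eq_iff_isRoot.2 hroot
  set Q := P /ₘ (X - C ρ) with hQ
  have hQρ : Q.eval ρ = P.derivative.eval ρ := by
    conv_rhs => rw [← hfac]
    simp
  have hq1 : ((Q.eval ρ : u.ring) : Λ) = aeval r p.derivative := by
    rw [hQρ, hP, derivative_map, hev]
  obtain ⟨s, hs⟩ := sub_dvd_eval_sub ξ ρ Q
  have hq2 : ((Q.eval ξ : u.ring) : Λ) ≠ 0 ∧ u.v ((Q.eval ξ : u.ring) : Λ) = 0 := by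
    have h1 : ((Q.eval ξ : u.ring) : Λ) = aeval r p.derivative + (x - r) * (s : Λ) := by
      have h2 := congrArg (Subtype.val) hs
      have h3 : ((Q.eval ξ : u.ring) : Λ) - ((Q.eval ρ : u.ring) : Λ) = (x - r) * (s : Λ) := h2
      rw [← hq1, ← h3]
      ring
    rw [h1]
    by_cases h0 : (s : Λ) = 0
    · rw [h0, mul_zero, add_zero]
      exact ⟨hd0, hd⟩
    · have h4 : (x - r) * (s : Λ) ≠ 0 := mul_ne_zero hx0 h0
      have h5 : u.v (aeval r p.derivative) < u.v ((x - r) * (s : Λ)) := by
        rw [hd, u.mul hx0 h0, hx]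
        have := (u.mem_ring_of h0).1 s.2
        linarith
      have h6 := u.add_eq_of_lt hd0 h4 h5
      exact ⟨h6.1, h6.2.trans hd⟩
  have hfin : aeval x p = (x - r) * ((Q.eval ξ : u.ring) : Λ) := by
    rw [← hev p ξ, ← hP]
    conv_lhs => rw [← hfac]
    rw [eval_mul]
    simp [hξ, hρ]
  rw [hfin]
  refine ⟨mul_ne_zero hx0 hq2.1, ?_⟩
  rw [u.mul hx0 hq2.1, hx, hq2.2, add_zero]

theorem UR {Λ : Type} [Field Λ] [CharZero Λ] [IsAlgClosed Λ]
    (K Kb : Subfield Λ) (hKb : ∀ x : Λ, x ∈ Kb ↔ IsAlgebraic K x) (e : Pt E2 Λ)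
    (he : Transcendental Kb (xc e)) (a : Pt E2 Kb) (u : QV Λ) (hu : AtPt Kb e a u) :
    ∃ H ∈ fe K e, H ≠ 0 ∧ u.v H = 1 := by
  obtain rfl : Kb = acl K := by
    ext x
    rw [hKb x]
    exact mem_algebraicClosure_iff.symm
  have hac := ur_ac K
  obtain ⟨h1, h2, h3⟩ := C1V (acl K) e he a u hu
  have hxe : xc e ∈ fe K e := Subfield.subset_closure (Or.inr (Or.inl rfl))
  have hye : yc e ∈ fe K e := Subfield.subset_closure (Or.inr (Or.inr rfl))
  have hx0 : xc e ≠ 0 := by
    intro h
    rw [h] at he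
    exact he isAlgebraic_zero
  by_cases ha : a = 0
  · obtain ⟨h4, h5⟩ := h3 ha
    have hy0 : yc e ≠ 0 := by
      intro h
      have h6 : e ≠ 0 := by
        rintro rfl
        exact hx0 rfl
      -- `x³ = -1` is algebraic
      have h7 : xc e ^ 3 + 1 = 0 := by
        have := ur_sq h6
        rw [h] at this
        rw [← this]
        norm_num
      apply he
      refine IsAlgebraic.of_pow (n := 3) (by norm_num) ?_
      rw [eq_neg_of_add_eq_zero_left h7]
      exact isAlgebraic_one.neg
    refine ⟨xc e / yc e, div_mem hxe hye, div_ne_zero hx0 hy0, ?_⟩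
    rw [u.div hx0 hy0, h4, h5]
    norm_num
  · by_cases hy : yc a = 0
    · refine ⟨yc e, hye, ?_, h2 ha hy⟩
      intro h
      have h6 : e ≠ 0 := by
        rintro rfl
        exact hx0 rfl
      have h7 : xc e ^ 3 + 1 = 0 := by
        have := ur_sq h6
        rw [h] at this
        rw [← this]
        norm_num
      apply he
      refine IsAlgebraic.of_pow (n := 3) (by norm_num) ?_
      rw [eq_neg_of_add_eq_zero_left h7]
      exact isAlgebraic_one.neg
    · -- the generic case
      have hv := h1 ha hy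
      rw [ur_xc] at hv
      set r : Λ := ((xc a : acl K) : Λ) with hr
      have hralg : IsAlgebraic K r := (hKb r).1 (xc a).2
      have hri : IsIntegral K r := hralg.isIntegral
      have hrr : r ∈ u.ring := by
        by_cases h : r = 0
        · exact Or.inl h
        · exact Or.inr (hu.triv r (xc a).2 h).ge
      have hxr : xc e - r ≠ 0 := by
        intro h
        apply he
        rw [sub_eq_zero.1 h]
        exact isAlgebraic_algebraMap (xc a)
      have hsep := (minpoly.irreducible hri).separable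
      have hd0 : aeval r (minpoly K r).derivative ≠ 0 :=
        hsep.aeval_derivative_ne_zero (minpoly.aeval K r)
      have hd : u.v (aeval r (minpoly K r).derivative) = 0 := by
        refine hu.triv _ ?_ hd0
        have h8 := ur_aev K r (xc a).2 (minpoly K r).derivative
        exact h8
      obtain ⟨h6, h7⟩ := ur_val K u (xc e) r
        (fun c hc h0 => hu.triv c ((hKb c).2 (isAlgebraic_algebraMap (⟨c, hc⟩ : K))) h0) hrr hxr hv
        (minpoly K r) (minpoly.aeval K r) hd hd0
      exact ⟨_, ur_mem K e _, h6, h7⟩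

end Pool.Agent.VM.XURp
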