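import Pool.Agent.Lib_VM.StubsIV_h38
import Pool.Agent.Lib_VM.A_cs_mp
import Pool.Agent.Lib_VM.A_pt_exists
import Pool.Agent.Lib_VM.A_xc_mp
import Pool.Agent.Lib_VM.A_yc_mp

/-!
# MP_5582d1_ag, block Y10a: existence of the family
-/

set_option autoImplicit false
set_option linter.style.haveILetI false

namespace Pool.Agent.VM.Y10ap

open scoped Classical

private lemma xc_ofne {R F : Type} [CommRing R] [Field F] [Algebra R F] {W : WeierstrassCurve R}
    {K N : Type} [Field K] [Field N] [Algebra R K] [Algebra K F] [IsScalarTower R K F]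
    [Algebra R N] [Algebra K N] [IsScalarTower R K N] (f : F →ₐ[K] N) (c : Pt W K) :
    mp f (kc c : Pt W F) = (kc c : Pt W N) := by
  rcases c with _ | ⟨x, y, h⟩
  · exact map_zero _
  · show mp f (mp (Algebra.ofId K F) (.some x y h)) = mp (Algebra.ofId K N) (.some x y h)
    have hx : f (algebraMap K F x) = algebraMap K N x := f.commutes x
    have hy : f (algebraMap K F y) = algebraMap K N y := f.commutes y
    simp only [mp, WeierstrassCurve.Affine.Point.map_some, Algebra.ofId_apply]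
    congr 1

private lemma mp_comb {R F : Type} [CommRing R] [Field F] [Algebra R F] {W : WeierstrassCurve R}
    {K N : Type} [Field K] [Field N] [Algebra R K] [Algebra K F] [IsScalarTower R K F]
    [Algebra R N] [Algebra K N] [IsScalarTower R K N] (f : F →ₐ[K] N) (a : Fin 3 → ℤ)
    (w : Fin 3 → Pt W F) : mp f (comb a w) = comb a (fun j => mp f (w j)) := by
  simp only [comb, map_sum, map_zsmul]

private lemma pt_ext {R N : Type} [CommRing R] [Field N] [Algebra R N] {a b : R}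
    {P Q : Pt (SW a b) N} (hP : P ≠ 0) (hQ : Q ≠ 0) (hx : xc P = xc Q) (hy : yc P = yc Q) :
    P = Q := by
  rcases ptf_cases P with h | ⟨x, y, h, rfl⟩
  · exact absurd h hP
  rcases ptf_cases Q with h' | ⟨x', y', h', rfl⟩
  · exact absurd h' hQ
  simp only [ptf_xc_some, ptf_yc_some] at hx hy
  subst hx; subst hy; rfl

private lemma descend {R K N F : Type} [CommRing R] [Field K] [Field N] [Field F] [Algebra R K]
    [Algebra R N] [Algebra K N] [IsScalarTower R K N] [Algebra R F] [Algebra K F]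
    [IsScalarTower R K F] (a b : R) (hΔ : algebraMap R K (SW a b).Δ ≠ 0) (f : F →ₐ[K] N)
    (Q : Pt (SW a b) N) (hQ : Q ≠ 0) (hx : ∃ x, f x = xc Q) (hy : ∃ y, f y = yc Q) :
    ∃ Q' : Pt (SW a b) F, mp f Q' = Q := by
  obtain ⟨x, hx⟩ := hx
  obtain ⟨y, hy⟩ := hy
  have hfa : ∀ r : R, f (algebraMap R F r) = algebraMap R N r := fun r => by
    rw [IsScalarTower.algebraMap_apply R K F, f.commutes, ← IsScalarTower.algebraMap_apply]
  obtain ⟨Q', h0, h1, h2⟩ := pt_exists (K := K) (M := F) a b hΔ x y (by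
    apply f.injective
    show f (y ^ 2) = f (x ^ 3 + algebraMap R F a * x ^ 2 + algebraMap R F b)
    rw [map_pow, map_add, map_add, map_mul, map_pow, map_pow, hfa, hfa, hx, hy]
    exact ptf_sq hQ)
  refine ⟨Q', pt_ext ?_ hQ ?_ ?_⟩
  · intro h
    apply h0
    have : Function.Injective (mp f : Pt (SW a b) F →+ Pt (SW a b) N) :=
      WeierstrassCurve.Affine.Point.map_injective _
    exact this (by rw [h, map_zero])
  · rw [xc_mp, h1, hx]
  · rw [yc_mp, h2, hy]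

private lemma main {l : ℂ} {c : Fin 9 → Pt E2 ℂ} {al be : Fin 9 → ℂ}
    (hal : ∀ i, al i ≠ 0) (hΔ2 : algebraMap ℤ ℂ (SW 0 1 : WeierstrassCurve ℤ).Δ ≠ 0)
    (hΔ1 : algebraMap ℂ ℂ (SW 1 l : WeierstrassCurve ℂ).Δ ≠ 0)
    {Ω F : Type} [Field Ω] [Algebra ℂ Ω] [Field F] [Algebra ℂ F] (f : F →ₐ[ℂ] Ω)
    (w' : Fin 3 → Pt E2 Ω) (hw0 : ∀ j, w' j ≠ 0)
    (hX : AlgebraicIndependent ℂ fun j => xc (w' j)) (P' : Fin 9 → Pt (E1 l) Ω)
    (hP0 : ∀ i, P' i ≠ 0)
    (hPx : ∀ i, xc (P' i) = algebraMap ℂ Ω (al i) *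
      xc (comb (V.ell i) w' + kc (c i)) + algebraMap ℂ Ω (be i))
    (hf : f.fieldRange = IntermediateField.adjoin ℂ ((⋃ i, cs (P' i)) ∪ ⋃ j, cs (w' j))) :
    ∃ (w : Fin 3 → Pt E2 F) (P : Fin 9 → Pt (E1 l) F), YD l w P c al be := by
  have hTF : ∀ t ∈ (⋃ i, cs (P' i)) ∪ ⋃ j, cs (w' j), ∃ x, f x = t := fun t ht => by
    have h1 : t ∈ f.fieldRange := by
      rw [hf]; exact IntermediateField.subset_adjoin ℂ _ ht
    exact h1
  have hwd : ∀ j, ∃ Q : Pt E2 F, mp f Q = w' j := fun j =>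
    descend (K := ℂ) (0 : ℤ) 1 hΔ2 f (w' j) (hw0 j)
      (hTF _ (Or.inr (Set.mem_iUnion.2 ⟨j, Or.inl rfl⟩)))
      (hTF _ (Or.inr (Set.mem_iUnion.2 ⟨j, Or.inr rfl⟩)))
  choose w hww using hwd
  have hPd : ∀ i, ∃ Q : Pt (E1 l) F, mp f Q = P' i := fun i =>
    descend (K := ℂ) (1 : ℂ) l hΔ1 f (P' i) (hP0 i)
      (hTF _ (Or.inl (Set.mem_iUnion.2 ⟨i, Or.inl rfl⟩)))
      (hTF _ (Or.inl (Set.mem_iUnion.2 ⟨i, Or.inr rfl⟩)))
  choose P hPP using hPd
  have hwfun : (fun j => mp f (w j)) = w' := funext hww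
  refine ⟨w, P, ?_, hal, ?_, ?_, ?_⟩
  · apply AlgebraicIndependent.of_comp f
    have h1 : (f ∘ fun j => xc (w j)) = fun j => xc (w' j) := by
      funext j
      show f (xc (w j)) = xc (w' j)
      rw [← xc_mp, hww]
    rw [h1]; exact hX
  · intro i h
    apply hP0 i
    rw [← hPP i, h, map_zero]
  · intro i
    apply f.injective
    show f (xc (P i)) = f (algebraMap ℂ F (al i) * xc (comb (V.ell i) w + kc (c i)) +
      algebraMap ℂ F (be i))
    rw [← xc_mp, hPP, hPx, map_add, map_mul, ← xc_mp, map_add, mp_comb, hwfun, xc_ofne,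
      AlgHom.commutes, AlgHom.commutes]
  · apply IntermediateField.map_injective f
    rw [IntermediateField.adjoin_map]
    have h1 : f '' ((⋃ i, cs (P i)) ∪ ⋃ j, cs (w j)) = (⋃ i, cs (P' i)) ∪ ⋃ j, cs (w' j) := by
      rw [Set.image_union, Set.image_iUnion, Set.image_iUnion]
      have h2 : ∀ i, f '' cs (P i) = cs (P' i) := fun i => by rw [← cs_mp, hPP]
      have h3 : ∀ j, f '' cs (w j) = cs (w' j) := fun j => by rw [← cs_mp, hww]
      simp only [h2, h3]
    rw [h1, ← hf, AlgHom.fieldRange_eq_map]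

private lemma main2 {l : ℂ} (hl : Transcendental ℚ l) {c : Fin 9 → Pt E2 ℂ} {al be : Fin 9 → ℂ}
    (hal : ∀ i, al i ≠ 0) {Ω : Type} [Field Ω] [IsAlgClosed Ω] [Algebra ℂ Ω] (X : Fin 3 → Ω)
    (hX : AlgebraicIndependent ℂ X) :
    ∃ (M : Type) (_ : Field M) (_ : Algebra ℂ M) (w : Fin 3 → Pt E2 M)
      (P : Fin 9 → Pt (E1 l) M), YD l w P c al be := by
  have hΔ2 : algebraMap ℤ ℂ (SW 0 1 : WeierstrassCurve ℤ).Δ ≠ 0 := by
    have h1 : (SW 0 1 : WeierstrassCurve ℤ).Δ = -432 := by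
      simp only [SW, WeierstrassCurve.Δ, WeierstrassCurve.b₂, WeierstrassCurve.b₄,
        WeierstrassCurve.b₆, WeierstrassCurve.b₈]
      norm_num
    rw [h1]; norm_num
  have hΔ1 : algebraMap ℂ ℂ (SW 1 l : WeierstrassCurve ℂ).Δ ≠ 0 := by
    have h1 : (SW 1 l : WeierstrassCurve ℂ).Δ = -16 * (l * (4 + 27 * l)) := by
      simp only [SW, WeierstrassCurve.Δ, WeierstrassCurve.b₂, WeierstrassCurve.b₄,
        WeierstrassCurve.b₆, WeierstrassCurve.b₈]
      ring
    rw [h1, Algebra.algebraMap_self, RingHom.id_apply]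
    refine mul_ne_zero (by norm_num) (mul_ne_zero ?_ ?_)
    · rintro rfl; exact hl isAlgebraic_zero
    · intro h
      apply hl
      have h2 : l = algebraMap ℚ ℂ (-4 / 27) := by
        rw [eq_ratCast]; push_cast; linear_combination h / 27
      rw [h2]; exact isAlgebraic_algebraMap _
  have hw : ∀ j, ∃ Q : Pt E2 Ω, Q ≠ 0 ∧ xc Q = X j := fun j => by
    obtain ⟨y, hy⟩ := IsAlgClosed.exists_pow_nat_eq (X j ^ 3 + 1) (n := 2) (by norm_num)
    obtain ⟨Q, h1, h2, -⟩ := pt_exists (K := ℂ) (M := Ω) (0 : ℤ) 1 hΔ2 (X j) y (by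
      rw [hy, map_zero, map_one]; ring)
    exact ⟨Q, h1, h2⟩
  choose w' hw0 hwx using hw
  have hP : ∀ i, ∃ Q : Pt (E1 l) Ω, Q ≠ 0 ∧ xc Q = algebraMap ℂ Ω (al i) *
      xc (comb (V.ell i) w' + kc (c i)) + algebraMap ℂ Ω (be i) := fun i => by
    set t := algebraMap ℂ Ω (al i) * xc (comb (V.ell i) w' + kc (c i)) + algebraMap ℂ Ω (be i)
      with ht
    obtain ⟨y, hy⟩ := IsAlgClosed.exists_pow_nat_eq (t ^ 3 + t ^ 2 + algebraMap ℂ Ω l) (n := 2)
      (by norm_num)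
    obtain ⟨Q, h1, h2, -⟩ := pt_exists (K := ℂ) (M := Ω) (1 : ℂ) l hΔ1 t y (by
      rw [hy, map_one]; ring)
    exact ⟨Q, h1, h2⟩
  choose P' hP0 hPx using hP
  obtain ⟨w, P, h⟩ := main (l := l) (c := c) (be := be) hal hΔ2 hΔ1
    (F := IntermediateField.adjoin ℂ ((⋃ i, cs (P' i)) ∪ ⋃ j, cs (w' j)))
    (IntermediateField.val _) w' hw0 (by
      have h1 : (fun j => xc (w' j)) = X := funext hwx
      rw [h1]; exact hX) P' hP0 hPx (IntermediateField.fieldRange_val _)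
  exact ⟨_, _, _, w, P, h⟩

/-- Y10a: existence. Proof: inside an algebraic closure of `ℂ(X₁, X₂, X₃)`. -/
theorem YD_exists (l : ℂ) (hl : Transcendental ℚ l) (c : Fin 9 → Pt E2 ℂ) (al be : Fin 9 → ℂ)
    (hal : ∀ i, al i ≠ 0) : ∃ (M : Type) (_ : Field M) (_ : Algebra ℂ M) (w : Fin 3 → Pt E2 M)
      (P : Fin 9 → Pt (E1 l) M), YD l w P c al be := by
  let Ω : Type := AlgebraicClosure (FractionRing (MvPolynomial (Fin 3) ℂ))
  let X : Fin 3 → Ω := fun j => algebraMap (MvPolynomial (Fin 3) ℂ) Ω (MvPolynomial.X j)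
  have hX : AlgebraicIndependent ℂ X := by
    have h1 : Function.Injective (algebraMap (MvPolynomial (Fin 3) ℂ) Ω) := by
      have h2 : algebraMap (MvPolynomial (Fin 3) ℂ) Ω =
          (algebraMap (FractionRing (MvPolynomial (Fin 3) ℂ)) Ω).comp
            (algebraMap (MvPolynomial (Fin 3) ℂ) (FractionRing (MvPolynomial (Fin 3) ℂ))) :=
        IsScalarTower.algebraMap_eq _ _ _
      rw [h2]
      exact (algebraMap (FractionRing (MvPolynomial (Fin 3) ℂ)) Ω).injective.comp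
        (IsFractionRing.injective _ _)
    have h3 := (MvPolynomial.algebraicIndependent_X (Fin 3) ℂ).map'
      (f := IsScalarTower.toAlgHom ℂ (MvPolynomial (Fin 3) ℂ) Ω) h1
    exact h3
  exact main2 hl hal X hX

end Pool.Agent.VM.Y10ap
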