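import Pool.Agent.Lib_VM.StubsIV_h38
import Pool.Agent.Lib_VM.A_NSQ
import Pool.Agent.Lib_VM.A_cs_add_sub
import Pool.Agent.Lib_VM.A_cs_kc_sub
import Pool.Agent.Lib_VM.A_cs_smul_sub

/-! MP_5582d1_ag, block Y10b: degree and sign automorphisms. -/

set_option autoImplicit false
set_option linter.style.haveILetI false

namespace Pool.Agent.VM.Y10bp

open scoped Classical
open Pool.Agent.VM

private theorem y10b_mp {R K M N : Type} [CommRing R] [Field K] [Field M] [Field N] [Algebra R K]
    [Algebra R M] [Algebra R N] [Algebra K M] [Algebra K N] [IsScalarTower R K M]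
    [IsScalarTower R K N] {W : WeierstrassCurve R} (f : M →ₐ[K] N) (p : Pt W M) (q : Pt W N)
    (h0 : p = 0 ↔ q = 0) (hx : f (xc p) = xc q) (hy : f (yc p) = yc q) : mp f p = q := by
  rcases p with _ | ⟨x, y, h⟩
  · have h1 : q = 0 := h0.1 rfl
    rw [h1]
    rfl
  · rcases q with _ | ⟨x', y', h'⟩
    · exact absurd (h0.2 rfl) (by rintro ⟨⟩)
    · have hx' : f x = x' := hx
      have hy' : f y = y' := hy
      subst hx' hy'
      rfl

section YD
variable {M : Type} [Field M] [Algebra ℂ M] {l : ℂ} {w : Fin 3 → Pt E2 M}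
  {P : Fin 9 → Pt (E1 l) M} {c : Fin 9 → Pt E2 ℂ} {al be : Fin 9 → ℂ}

private theorem y10b_cs {R F : Type} [CommRing R] [Field F] [Algebra R F]
    {W : WeierstrassCurve R} {Q : Pt W F} {y : F} (h : y ∈ cs Q) : y = xc Q ∨ y = yc Q := h

private theorem y10b_x {R F : Type} [CommRing R] [Field F] [Algebra R F]
    {W : WeierstrassCurve R} (Q : Pt W F) : xc Q ∈ cs Q := Or.inl rfl

private theorem y10b_y {R F : Type} [CommRing R] [Field F] [Algebra R F]
    {W : WeierstrassCurve R} (Q : Pt W F) : yc Q ∈ cs Q := Or.inr rfl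

private theorem y10b_adj {M : Type} [Field M] [Algebra ℂ M] {K : IntermediateField ℂ M}
    (L : IntermediateField K M) {S : Set M} (hS : ∀ y ∈ S, y ∈ L) {z : M}
    (hz : z ∈ IntermediateField.adjoin ℂ S) : z ∈ L := by
  have h1 : IntermediateField.adjoin ℂ S ≤ L.restrictScalars ℂ :=
    IntermediateField.adjoin_le_iff.2 fun y hy =>
      SetLike.mem_coe.2 ((IntermediateField.mem_restrictScalars ℂ).2 (hS y hy))
  exact (IntermediateField.mem_restrictScalars ℂ).1 (h1 hz)

private theorem y10b_comb (K : IntermediateField ℂ M) (hw : ∀ j, cs (w j) ⊆ (K : Set M))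
    (a : Fin 3 → ℤ) (c₀ : Pt E2 ℂ) : cs (comb a w + kc c₀) ⊆ (K : Set M) := by
  have h1 : ∀ j, cs (a j • w j) ⊆ (K : Set M) := fun j => cs_smul_sub 0 1 K (a j) (w j) (hw j)
  have h2 : cs (comb a w) ⊆ (K : Set M) := by
    have e : comb a w = a 0 • w 0 + a 1 • w 1 + a 2 • w 2 := by
      unfold comb
      rw [Fin.sum_univ_three]
    rw [e]
    exact cs_add_sub 0 1 K _ _ (cs_add_sub 0 1 K _ _ (h1 0) (h1 1)) (h1 2)
  exact cs_add_sub 0 1 K _ _ h2 (cs_kc_sub 0 1 K c₀)

theorem YD_sign (hl : Transcendental ℚ l) (h : YD l w P c al be) :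
    dg ℂ (⋃ j, cs (w j)) = 2 ^ 9 ∧ Algebra.trdeg ℂ M = 3 ∧ (⊤ : IntermediateField ℂ M).FG ∧
    ∀ I : Finset (Fin 9), ∃ σ : M ≃ₐ[ℂ] M, (∀ j, mp (σ : M →ₐ[ℂ] M) (w j) = w j) ∧
      ∀ i, mp (σ : M →ₐ[ℂ] M) (P i) = if i ∈ I then -P i else P i := by
  set K : IntermediateField ℂ M := IntermediateField.adjoin ℂ (⋃ j, cs (w j)) with hK
  have hwK : ∀ j, cs (w j) ⊆ (K : Set M) := fun j =>
    (Set.subset_iUnion (fun j => cs (w j)) j).trans (IntermediateField.subset_adjoin _ _)
  have hxK : ∀ i, xc (P i) ∈ K := by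
    intro i
    have h1 : xc (comb (V.ell i) w + kc (c i)) ∈ K :=
      y10b_comb K hwK (V.ell i) (c i) (y10b_x _)
    rw [h.xP i]
    exact add_mem (mul_mem (K.algebraMap_mem _) h1) (K.algebraMap_mem _)
  let x : Fin 9 → K := fun i => ⟨xc (P i), hxK i⟩
  let F : Fin 9 → K := fun i => x i ^ 3 + x i ^ 2 + algebraMap ℂ K l
  let r : Fin 9 → M := fun i => yc (P i)
  have hsq : ∀ i, yc (P i) ^ 2 = xc (P i) ^ 3 + xc (P i) ^ 2 + algebraMap ℂ M l := by
    intro i
    have h1 := ptf_sq (h.P0 i)
    rw [map_one, one_mul] at h1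
    exact h1
  have hr : ∀ i, r i ^ 2 = algebraMap K M (F i) := fun i => hsq i
  have hns : ∀ I : Finset (Fin 9), I.Nonempty → ¬ IsSquare (∏ i ∈ I, F i) := by
    rintro I hI ⟨s, hs⟩
    refine NSQ l hl w h.gen c al be h.al0 (fun i => (F i : M)) ?_ I hI (s : M) s.2 ?_
    · intro i t ht
      rw [← h.xP i] at ht
      rw [ht]
      rfl
    · have h1 := congrArg (algebraMap K M) hs
      rw [map_prod, map_mul] at h1
      rw [pow_two]
      exact h1.symm
  obtain ⟨hdeg, hsign⟩ := IV.mq_main r F hr hns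
  -- `M = K(r)`
  have hLmem : ∀ z : M, z ∈ IntermediateField.adjoin K (Set.range r) := by
    intro z
    have hz : z ∈ IntermediateField.adjoin ℂ ((⋃ i, cs (P i)) ∪ ⋃ j, cs (w j)) := by
      rw [h.top]
      exact IntermediateField.mem_top
    have hKL : ∀ y ∈ K, y ∈ IntermediateField.adjoin K (Set.range r) := fun y hy =>
      (IntermediateField.adjoin K (Set.range r)).algebraMap_mem ⟨y, hy⟩
    have hsub : ∀ y ∈ (⋃ i, cs (P i)) ∪ ⋃ j, cs (w j),
        y ∈ IntermediateField.adjoin K (Set.range r) := by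
      rintro y (hy | hy)
      · obtain ⟨i, hi⟩ := Set.mem_iUnion.1 hy
        rcases y10b_cs hi with hi | hi
        · rw [hi]
          exact hKL _ (hxK i)
        · rw [hi]
          exact IntermediateField.subset_adjoin _ _ ⟨i, rfl⟩
      · obtain ⟨j, hj⟩ := Set.mem_iUnion.1 hy
        exact hKL _ (hwK j hj)
    exact y10b_adj _ hsub hz
  have hL : IntermediateField.adjoin K (Set.range r) = ⊤ := by
    rw [eq_top_iff]
    exact fun z _ => hLmem z
  have hdgK : dg ℂ (⋃ j, cs (w j)) = 2 ^ 9 := by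
    rw [hL, IntermediateField.finrank_top'] at hdeg
    exact hdeg
  refine ⟨hdgK, ?_, ?_, ?_⟩
  · -- the transcendence degree
    have hsqw : ∀ j, yc (w j) ^ 2 = xc (w j) ^ 3 + 1 ∨ w j = 0 := by
      intro j
      by_cases h0 : w j = 0
      · exact Or.inr h0
      · left
        have h1 := ptf_sq h0
        rw [map_zero, zero_mul, add_zero, map_one] at h1
        exact h1
    set F0 : IntermediateField ℂ M :=
      IntermediateField.adjoin ℂ (Set.range fun j => xc (w j)) with hF0
    have hcl : ∀ z : M, z ∈ algebraicClosure F0 M := by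
      intro z
      have hxw : ∀ j, xc (w j) ∈ algebraicClosure F0 M := fun j =>
        (algebraicClosure F0 M).algebraMap_mem
          ⟨xc (w j), IntermediateField.subset_adjoin _ _ ⟨j, rfl⟩⟩
      have hroot : ∀ y : M, y ^ 2 ∈ algebraicClosure F0 M → y ∈ algebraicClosure F0 M := by
        intro y hy
        rw [mem_algebraicClosure_iff] at hy ⊢
        exact hy.of_pow (by norm_num)
      have hyw : ∀ j, yc (w j) ∈ algebraicClosure F0 M := by
        intro j
        rcases hsqw j with h1 | h1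
        · refine hroot _ ?_
          rw [h1]
          exact add_mem (pow_mem (hxw j) 3) (one_mem _)
        · rw [h1]
          exact zero_mem _
      have hKcl : ∀ y ∈ K, y ∈ algebraicClosure F0 M := by
        intro y hy
        have hsub : ∀ u ∈ ⋃ j, cs (w j), u ∈ algebraicClosure F0 M := by
          intro u hu
          obtain ⟨j, hj⟩ := Set.mem_iUnion.1 hu
          rcases y10b_cs hj with hj | hj
          · rw [hj]
            exact hxw j
          · rw [hj]
            exact hyw j
        exact y10b_adj _ hsub hy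
      have hz : z ∈ IntermediateField.adjoin ℂ ((⋃ i, cs (P i)) ∪ ⋃ j, cs (w j)) := by
        rw [h.top]
        exact IntermediateField.mem_top
      have hsub : ∀ y ∈ (⋃ i, cs (P i)) ∪ ⋃ j, cs (w j), y ∈ algebraicClosure F0 M := by
        rintro y (hy | hy)
        · obtain ⟨i, hi⟩ := Set.mem_iUnion.1 hy
          rcases y10b_cs hi with hi | hi
          · rw [hi]
            exact hKcl _ (hxK i)
          · rw [hi]
            refine hroot _ ?_
            rw [hsq i]
            exact hKcl _ (add_mem (add_mem (pow_mem (hxK i) 3) (pow_mem (hxK i) 2))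
              (K.algebraMap_mem l))
        · obtain ⟨j, hj⟩ := Set.mem_iUnion.1 hy
          exact hKcl _ (hwK j hj)
      exact y10b_adj _ hsub hz
    have hA1 : Algebra.IsAlgebraic F0 M := ⟨fun z => mem_algebraicClosure_iff.1 (hcl z)⟩
    have hA2 := IntermediateField.isAlgebraic_adjoin_iff_top.1 hA1
    have hB := h.gen.isTranscendenceBasis_iff_isAlgebraic.2 hA2
    rw [← hB.cardinalMk_eq_trdeg]
    simp
  · rw [IntermediateField.fg_def]
    exact ⟨_, (Set.finite_iUnion fun i => by unfold cs; exact Set.toFinite _).union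
      (Set.finite_iUnion fun j => by unfold cs; exact Set.toFinite _), h.top⟩
  · intro I
    obtain ⟨σ', hσ'⟩ := hsign I
    let e : IntermediateField.adjoin K (Set.range r) ≃ₐ[K] M :=
      (IntermediateField.equivOfEq hL).trans IntermediateField.topEquiv
    have he : ∀ z, e z = (z : M) := fun z => rfl
    let σ : M ≃ₐ[K] M := (e.symm.trans σ').trans e
    have hσ : ∀ z : IntermediateField.adjoin K (Set.range r), σ (z : M) = (σ' z : M) := by
      intro z
      have h1 : e.symm (z : M) = z := by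
        rw [← he z, AlgEquiv.symm_apply_apply]
      show e (σ' (e.symm (z : M))) = _
      rw [h1]
      rfl
    have hσK : ∀ y ∈ K, σ y = y := fun y hy => σ.commutes ⟨y, hy⟩
    refine ⟨σ.restrictScalars ℂ, fun j => ?_, fun i => ?_⟩
    · refine y10b_mp _ _ _ Iff.rfl ?_ ?_
      · exact hσK _ (hwK j (y10b_x _))
      · exact hσK _ (hwK j (y10b_y _))
    · have hy := hσ ⟨r i, IntermediateField.subset_adjoin _ _ ⟨i, rfl⟩⟩
      rw [hσ' i] at hy
      have hP0 := h.P0 i
      split_ifs with hi
      · rw [if_pos hi] at hy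
        refine y10b_mp _ _ _ ?_ ?_ ?_
        · rw [neg_eq_zero]
        · rw [ptf_xc_neg]
          exact hσK _ (hxK i)
        · rw [ptf_yc_neg]
          exact hy
      · rw [if_neg hi] at hy
        refine y10b_mp _ _ _ Iff.rfl ?_ ?_
        · exact hσK _ (hxK i)
        · exact hy

end YD

end Pool.Agent.VM.Y10bp
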