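import Pool.Agent.Lib_VM.StubsIV_h38
import Pool.Agent.Lib_helper15.VM.III
import Pool.Agent.Lib_VM.A_YD_sign
import Pool.Agent.Lib_VM.A_adjoin_cs_add_kc
import Pool.Agent.Lib_VM.A_adjoin_unimod
import Pool.Agent.Lib_VM.A_cs_add_sub
import Pool.Agent.Lib_VM.A_cs_kc_sub
import Pool.Agent.Lib_VM.A_cs_mp
import Pool.Agent.Lib_VM.A_cs_smul_sub
import Pool.Agent.Lib_VM.A_dg_adjoin
import Pool.Agent.Lib_VM.A_dg_smul
import Pool.Agent.Lib_VM.A_gen_unimod
import Pool.Agent.Lib_VM.A_pt_descend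
import Pool.Agent.Lib_VM.A_quad_diag

/-!
# MP_5582d1_ag, blocks Y10c, Y10d: degrees of the points of the family (helper81)
-/

set_option autoImplicit false

namespace Pool.Agent.VM.Y10p

open scoped Classical
open Pool.Agent.VM Polynomial

section gen
variable {R : Type} [CommRing R] (a b : R) {K₀ M : Type} [Field K₀] [CharZero K₀] [Field M]
  [Algebra K₀ M] [Algebra R K₀] [Algebra R M] [IsScalarTower R K₀ M]

theorem y10_ist (F : IntermediateField K₀ M) : IsScalarTower R F M :=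
  IsScalarTower.of_algebraMap_eq fun _ => rfl

theorem y10_kc (F : IntermediateField K₀ M) (d' : Pt (SW a b) F) :
    have := y10_ist (R := R) F
    (kc d' : Pt (SW a b) M) = mp F.val d' := by
  rcases d' with _ | ⟨x, y, h⟩
  · rfl
  · rfl

theorem y10_add (F : IntermediateField K₀ M) (Q d : Pt (SW a b) M) (hd : cs d ⊆ F) :
    dg F (cs (Q + d)) = dg F (cs Q) := by
  have := y10_ist (R := R) F
  obtain ⟨d', hd'⟩ := pt_descend a b F d hd
  rw [← y10_kc] at hd'
  have h := adjoin_cs_add_kc (K := F) (M := M) a b Q d'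
  rw [hd'] at h
  rw [dg, dg, h]

theorem y10_Δ (F : IntermediateField K₀ M) (hΔ : algebraMap R K₀ (SW a b).Δ ≠ 0) :
    algebraMap R F (SW a b).Δ ≠ 0 := by
  rw [IsScalarTower.algebraMap_apply R K₀ F]
  exact (_root_.map_ne_zero _).2 hΔ

theorem y10_ke (F : IntermediateField K₀ M) (hΔ : algebraMap R K₀ (SW a b).Δ ≠ 0)
    (hfg : (⊤ : IntermediateField F M).FG) (htr : Algebra.trdeg F M = 1) (k : ℤ)
    (e d : Pt (SW a b) M) (hd : cs d ⊆ F) :
    (dg F (cs (k • e + d)) : ℤ) = k ^ 2 * dg F (cs e) := by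
  have := y10_ist (R := R) F
  rw [y10_add a b F _ d hd]
  exact dg_smul a b (y10_Δ a b F hΔ) hfg htr k e

end gen

section fields
variable {K₀ M : Type} [Field K₀] [Field M] [Algebra K₀ M]

theorem y10_FG (F : IntermediateField K₀ M)
    (h : (⊤ : IntermediateField K₀ M).FG) : (⊤ : IntermediateField F M).FG := by
  obtain ⟨s, hs⟩ := h
  refine ⟨s, ?_⟩
  rw [eq_top_iff]
  intro x _
  have h1 : IntermediateField.adjoin K₀ (s : Set M) ≤
      (IntermediateField.adjoin F (s : Set M)).restrictScalars K₀ := by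
    rw [IntermediateField.adjoin_le_iff]
    exact IntermediateField.subset_adjoin F _
  rw [hs] at h1
  exact h1 (IntermediateField.mem_top : x ∈ (⊤ : IntermediateField K₀ M))

theorem y10_eqF {F F' : IntermediateField K₀ M}
    (h : F = F') : Module.finrank F M = Module.finrank F' M := by
  subst h
  rfl

theorem y10_map {A B : Type} [Field A] [Field B] [Algebra A M] [Algebra B M] (f : A →+* B)
    (hf : ∀ x, algebraMap B M (f x) = algebraMap A M x) {y : M} (hy : IsAlgebraic A y) :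
    IsAlgebraic B y := by
  obtain ⟨p, hp0, hp⟩ := hy
  refine ⟨p.map f, (Polynomial.map_ne_zero_iff f.injective).2 hp0, ?_⟩
  have h1 : (algebraMap B M).comp f = algebraMap A M := RingHom.ext hf
  rw [aeval_def, eval₂_map, h1]
  exact hp

theorem y10_alg_trans (E F : IntermediateField K₀ M) (hF : ∀ x ∈ F, IsAlgebraic E x) {y : M}
    (hy : IsAlgebraic F y) : IsAlgebraic E y := by
  have h1 : ∀ x : F, (x : M) ∈ algebraicClosure E M := fun x =>
    mem_algebraicClosure_iff.2 (hF x x.2)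
  let f : F →+* algebraicClosure E M := F.val.toRingHom.codRestrict _ h1
  have h2 : IsAlgebraic (algebraicClosure E M) y := y10_map f (fun _ => rfl) hy
  exact h2.restrictScalars E

/-- transcendence degree one -/
theorem y10_tr1 (h3 : Algebra.trdeg K₀ M = 3) (x : Fin 3 → M) (hx : AlgebraicIndependent K₀ x)
    (F : IntermediateField K₀ M) (h0 : x 0 ∈ F) (h1 : x 1 ∈ F)
    (hF : ∀ y ∈ F, IsAlgebraic (IntermediateField.adjoin K₀ {x 0, x 1}) y) :
    Algebra.trdeg F M = 1 := by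
  have hb : IsTranscendenceBasis K₀ x :=
    hx.isTranscendenceBasis_of_trdeg_le_of_finite (by rw [h3]; simp)
  have h2 : Transcendental (IntermediateField.adjoin K₀ {x 0, x 1}) (x 2) := by
    rw [IntermediateField.transcendental_adjoin_iff]
    have := hx.transcendental_adjoin (s := {0, 1}) (i := 2) (by simp)
    rwa [Set.image_pair] at this
  have h2' : Transcendental F (x 2) := fun h => h2 (y10_alg_trans _ F hF h)
  have h4 : AlgebraicIndependent F (fun _ : Fin 1 => x 2) :=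
    (algebraicIndependent_singleton_iff (0 : Fin 1)).2 h2'
  have h5 : Algebra.IsAlgebraic (Algebra.adjoin F (Set.range fun _ : Fin 1 => x 2)) M := by
    rw [← IntermediateField.isAlgebraic_adjoin_iff_top]
    have h6 := hb.isAlgebraic_field
    refine ⟨fun y => ?_⟩
    have h7 : IntermediateField.adjoin K₀ (Set.range x) ≤
        (IntermediateField.adjoin F (Set.range fun _ : Fin 1 => x 2)).restrictScalars K₀ := by
      rw [IntermediateField.adjoin_le_iff]
      rintro _ ⟨i, rfl⟩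
      fin_cases i
      · exact (IntermediateField.adjoin F _).algebraMap_mem (⟨x 0, h0⟩ : F)
      · exact (IntermediateField.adjoin F _).algebraMap_mem (⟨x 1, h1⟩ : F)
      · exact IntermediateField.subset_adjoin F _ ⟨0, rfl⟩
    exact y10_map (IntermediateField.inclusion h7).toRingHom (fun _ => rfl) (h6.isAlgebraic y)
  have h8 := (h4.isTranscendenceBasis_iff_isAlgebraic.2 h5).cardinalMk_eq_trdeg
  rw [← h8]
  simp

end fields

theorem y10_cs_alg {R : Type} [CommRing R] (a b : R) {K₀ M : Type} [Field K₀] [Field M]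
    [Algebra K₀ M] [Algebra R K₀] [Algebra R M] [IsScalarTower R K₀ M]
    (E : IntermediateField K₀ M) (Q : Pt (SW a b) M) (hQ : xc Q ∈ E) :
    ∀ y ∈ cs Q, IsAlgebraic E y := by
  intro y hy
  have hx : IsAlgebraic E (xc Q) := isAlgebraic_algebraMap (⟨xc Q, hQ⟩ : E)
  rcases hy with rfl | rfl
  · exact hx
  by_cases h0 : Q = 0
  · rw [h0]
    exact isAlgebraic_zero
  have h1 := ptf_sq h0
  have h2 : yc Q ^ 2 ∈ E := by
    rw [h1, IsScalarTower.algebraMap_apply R K₀ M, IsScalarTower.algebraMap_apply R K₀ M]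
    exact E.add_mem (E.add_mem (pow_mem hQ 3) (E.mul_mem (E.algebraMap_mem _) (pow_mem hQ 2)))
      (E.algebraMap_mem _)
  exact IsAlgebraic.of_pow (n := 2) (by norm_num) (isAlgebraic_algebraMap (⟨_, h2⟩ : E))

section YD
variable {M : Type} [Field M] [Algebra ℂ M] {l : ℂ} {w : Fin 3 → Pt E2 M}
  {P : Fin 9 → Pt (E1 l) M} {c : Fin 9 → Pt E2 ℂ} {al be : Fin 9 → ℂ}

/-- the field of the first two coordinates -/
theorem y10_tr (h3 : Algebra.trdeg ℂ M = 3) (hw : AlgebraicIndependent ℂ fun j => xc (w j))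
    (A : Matrix (Fin 3) (Fin 3) ℤ) (hA : IsUnit A.det) :
    Algebra.trdeg (IntermediateField.adjoin ℂ (cs (comb (A 0) w) ∪ cs (comb (A 1) w))) M = 1 := by
  have hi := gen_unimod w hw A hA
  refine y10_tr1 h3 _ hi _ ?_ ?_ ?_
  · exact IntermediateField.subset_adjoin _ _ (Or.inl (Or.inl rfl))
  · exact IntermediateField.subset_adjoin _ _ (Or.inr (Or.inl rfl))
  · set E := IntermediateField.adjoin ℂ {xc (comb (A 0) w), xc (comb (A 1) w)} with hE
    have h0 : xc (comb (A 0) w) ∈ E := IntermediateField.subset_adjoin _ _ (Or.inl rfl)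
    have h1 : xc (comb (A 1) w) ∈ E := IntermediateField.subset_adjoin _ _ (Or.inr rfl)
    have h5 : IntermediateField.adjoin ℂ (cs (comb (A 0) w) ∪ cs (comb (A 1) w)) ≤
        (algebraicClosure E M).restrictScalars ℂ := by
      rw [IntermediateField.adjoin_le_iff]
      rintro y (hy | hy)
      · exact mem_algebraicClosure_iff.2 (y10_cs_alg (0 : ℤ) 1 E _ h0 y hy)
      · exact mem_algebraicClosure_iff.2 (y10_cs_alg (0 : ℤ) 1 E _ h1 y hy)
    intro y hy
    exact mem_algebraicClosure_iff.1 (h5 hy)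

theorem y10_ΔE2 : algebraMap ℤ ℂ (SW 0 1 : WeierstrassCurve ℤ).Δ ≠ 0 := by
  have : (SW 0 1 : WeierstrassCurve ℤ).Δ = -432 := by
    simp [SW, WeierstrassCurve.Δ, WeierstrassCurve.b₂, WeierstrassCurve.b₄, WeierstrassCurve.b₆,
      WeierstrassCurve.b₈]
  rw [this]
  norm_num

theorem y10_ΔE1 (hl : Transcendental ℚ l) :
    algebraMap ℂ ℂ (SW 1 l : WeierstrassCurve ℂ).Δ ≠ 0 := by
  have h1 : (SW 1 l : WeierstrassCurve ℂ).Δ = -(16 * l * (4 + 27 * l)) := by
    simp [SW, WeierstrassCurve.Δ, WeierstrassCurve.b₂, WeierstrassCurve.b₄, WeierstrassCurve.b₆,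
      WeierstrassCurve.b₈]
    ring
  rw [h1]
  have h2 : l ≠ 0 := by
    rintro rfl
    exact hl isAlgebraic_zero
  have h3 : 4 + 27 * l ≠ 0 := by
    intro h
    have h4 : l = algebraMap ℚ ℂ (-4 / 27) := by
      have : l = -4 / 27 := by
        linear_combination h / 27
      rw [this]
      norm_num
    rw [h4] at hl
    exact hl (isAlgebraic_algebraMap _)
  simp [h2, h3]

theorem y10_dgmap {K₀ M : Type} [Field K₀] [Field M] [Algebra K₀ M] (σ : M ≃ₐ[K₀] M) (T : Set M) :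
    dg K₀ (σ '' T) = dg K₀ T := by
  rw [dg, dg]
  have h1 : IntermediateField.adjoin K₀ (σ '' T) =
      (IntermediateField.adjoin K₀ T).map (σ : M →ₐ[K₀] M) := by
    rw [IntermediateField.adjoin_map]
    rfl
  rw [y10_eqF h1]
  exact (Algebra.finrank_eq_of_equiv_equiv
    (IntermediateField.equivMap (IntermediateField.adjoin K₀ T) (σ : M →ₐ[K₀] M)).toRingEquiv
    σ.toRingEquiv (RingHom.ext fun _ => rfl)).symm

theorem y10_comb (A : Matrix (Fin 3) (Fin 3) ℤ) (t : Fin 3 → ℤ) :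
    comb (fun i => ∑ j, t j * A j i) w = ∑ j, t j • comb (A j) w := by
  simp only [comb, Finset.smul_sum, smul_smul, Finset.sum_smul]
  exact Finset.sum_comm

theorem y10_exists (A : Matrix (Fin 3) (Fin 3) ℤ) (hA : IsUnit A.det) (v : Fin 3 → ℤ) :
    ∃ t : Fin 3 → ℤ, v = (fun i => ∑ j, t j * A j i) ∧
      (Matrix.det ![A 0, A 1, v]) ^ 2 = (t 2) ^ 2 := by
  obtain ⟨t, ht⟩ : ∃ t, t = Matrix.vecMul v A⁻¹ := ⟨_, rfl⟩
  have h1 : v = fun i => ∑ j, t j * A j i := by
    have h2 : Matrix.vecMul (Matrix.vecMul v A⁻¹) A = v := by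
      rw [Matrix.vecMul_vecMul, Matrix.nonsing_inv_mul A hA, Matrix.vecMul_one]
    rw [← ht] at h2
    exact h2.symm
  refine ⟨t, h1, ?_⟩
  have h3 : A.det ^ 2 = 1 := by
    rcases Int.isUnit_iff.1 hA with h | h
    · rw [h]; norm_num
    · rw [h]; norm_num
  have h4 : Matrix.det ![A 0, A 1, v] = t 2 * A.det := by
    rw [Matrix.det_fin_three, Matrix.det_fin_three, h1]
    simp only [Fin.sum_univ_three, Matrix.cons_val_zero, Matrix.cons_val_one, Matrix.cons_val,
      Matrix.of_apply]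
    ring
  rw [h4, mul_pow, h3, mul_one]

/-- the field generated by the first two coordinates -/
noncomputable abbrev FA (w : Fin 3 → Pt E2 M) (A : Matrix (Fin 3) (Fin 3) ℤ) :
    IntermediateField ℂ M :=
  IntermediateField.adjoin ℂ (cs (comb (A 0) w) ∪ cs (comb (A 1) w))

theorem y10_dgF (A : Matrix (Fin 3) (Fin 3) ℤ) (S : Set M) :
    dg ℂ (S ∪ cs (comb (A 0) w) ∪ cs (comb (A 1) w)) = dg (FA w A) S := by
  rw [FA, dg_adjoin, Set.union_assoc, Set.union_comm]

theorem y10_e (hl : Transcendental ℚ l) (h : YD l w P c al be) (A : Matrix (Fin 3) (Fin 3) ℤ)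
    (hA : IsUnit A.det) : dg (FA w A) (cs (comb (A 2) w)) = 2 ^ 9 := by
  rw [← (YD_sign hl h).1, FA, dg_adjoin, dg, dg]
  apply y10_eqF
  rw [← adjoin_unimod w A hA]
  congr 1
  ext x
  simp only [Set.mem_union, Set.mem_iUnion]
  constructor
  · rintro ((hx | hx) | hx)
    · exact ⟨0, hx⟩
    · exact ⟨1, hx⟩
    · exact ⟨2, hx⟩
  · rintro ⟨i, hi⟩
    fin_cases i
    · exact Or.inl (Or.inl hi)
    · exact Or.inl (Or.inr hi)
    · exact Or.inr hi

/-- Y10c: `h(k e + d) = k² h(e)`, `h(e) = 2 ^ 9` for `e = n · w`; `m, m', n` unimodular. -/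
theorem YD_dgw (hl : Transcendental ℚ l) (h : YD l w P c al be) (A : Matrix (Fin 3) (Fin 3) ℤ)
    (hA : IsUnit A.det) (v : Fin 3 → ℤ) (c₀ : Pt E2 ℂ) :
    (dg ℂ (cs (comb v w + kc c₀) ∪ cs (comb (A 0) w) ∪ cs (comb (A 1) w)) : ℤ) =
      2 ^ 9 * (Matrix.det ![A 0, A 1, v]) ^ 2 := by
  obtain ⟨-, h3, hfg, -⟩ := YD_sign hl h
  obtain ⟨t, ht, hd⟩ := y10_exists A hA v
  rw [y10_dgF, hd, ht, y10_comb, Fin.sum_univ_three]
  have h5 : t 0 • comb (A 0) w + t 1 • comb (A 1) w + t 2 • comb (A 2) w + kc c₀ =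
      t 2 • comb (A 2) w + (t 0 • comb (A 0) w + t 1 • comb (A 1) w + kc c₀) := by abel
  have h0 : cs (comb (A 0) w) ⊆ (FA w A : Set M) := fun x hx =>
    IntermediateField.subset_adjoin _ _ (Or.inl hx)
  have h1 : cs (comb (A 1) w) ⊆ (FA w A : Set M) := fun x hx =>
    IntermediateField.subset_adjoin _ _ (Or.inr hx)
  have h6 : cs (t 0 • comb (A 0) w + t 1 • comb (A 1) w + kc c₀) ⊆ (FA w A : Set M) :=
    cs_add_sub 0 1 _ _ _ (cs_add_sub 0 1 _ _ _ (cs_smul_sub 0 1 _ _ _ h0)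
      (cs_smul_sub 0 1 _ _ _ h1)) (cs_kc_sub 0 1 _ _)
  rw [h5, y10_ke (R := ℤ) 0 1 (FA w A) y10_ΔE2 (y10_FG _ hfg) (y10_tr h3 h.gen A hA) (t 2) _ _ h6,
    y10_e hl h A hA]
  push_cast
  ring

/-- Y10d: the degree of `∑ n_i P_i` -/
theorem YD_dg (hl : Transcendental ℚ l) (h : YD l w P c al be) (A : Matrix (Fin 3) (Fin 3) ℤ)
    (hA : IsUnit A.det) (c₀ : Pt (E1 l) ℂ) (n : Fin 9 → ℤ) :
    (dg ℂ (cs (kc c₀ + ∑ i, n i • P i) ∪ cs (comb (A 0) w) ∪ cs (comb (A 1) w)) : ℤ) =
      2 ^ 9 * ∑ i, n i ^ 2 * (Matrix.det ![A 0, A 1, V.ell i]) ^ 2 := by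
  obtain ⟨-, h3, hfg, hsign⟩ := YD_sign hl h
  have hfgF := y10_FG (FA w A) hfg
  have htr := y10_tr h3 h.gen A hA
  have hΔ1 : algebraMap ℂ ℂ (SW 1 l : WeierstrassCurve ℂ).Δ ≠ 0 := y10_ΔE1 hl
  have hist := y10_ist (R := ℂ) (FA w A)
  rw [y10_dgF, add_comm, y10_add (R := ℂ) 1 l (FA w A) _ _ (cs_kc_sub 1 l _ _)]
  have hq := quad_diag (fun Q : Pt (E1 l) M => (dg (FA w A) (cs Q) : ℤ)) ?_ P ?_ n
  · rw [hq, Finset.mul_sum]
    refine Finset.sum_congr rfl fun i _ => ?_
    have h4 : dg (FA w A) (cs (P i)) = dg (FA w A) (cs (comb (V.ell i) w + kc (c i))) := by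
      have h5 := dg_xc (R := ℂ) 1 l (y10_Δ 1 l (FA w A) hΔ1) htr (P i)
      have h6 := dg_xc (R := ℤ) 0 1 (y10_Δ 0 1 (FA w A) y10_ΔE2) htr
        (comb (V.ell i) w + kc (c i))
      have h7 : dg (FA w A) {xc (P i)} = dg (FA w A) {xc (comb (V.ell i) w + kc (c i))} := by
        rw [dg, dg]
        apply y10_eqF
        have ha : (algebraMap ℂ M (al i)) ∈ FA w A := (FA w A).algebraMap_mem _
        have hb : (algebraMap ℂ M (be i)) ∈ FA w A := (FA w A).algebraMap_mem _
        have hal := h.al0 i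
        apply le_antisymm
        · rw [IntermediateField.adjoin_simple_le_iff, h.xP i]
          exact add_mem (mul_mem (IntermediateField.algebraMap_mem _ (⟨_, ha⟩ : FA w A))
            (IntermediateField.mem_adjoin_simple_self _ _))
            (IntermediateField.algebraMap_mem _ (⟨_, hb⟩ : FA w A))
        · rw [IntermediateField.adjoin_simple_le_iff]
          have h8 : xc (comb (V.ell i) w + kc (c i)) =
              (xc (P i) - algebraMap ℂ M (be i)) / algebraMap ℂ M (al i) := by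
            rw [h.xP i, add_sub_cancel_right, mul_div_cancel_left₀]
            exact (_root_.map_ne_zero _).2 hal
          rw [h8]
          exact div_mem (sub_mem (IntermediateField.mem_adjoin_simple_self _ _)
            (IntermediateField.algebraMap_mem _ (⟨_, hb⟩ : FA w A)))
            (IntermediateField.algebraMap_mem _ (⟨_, ha⟩ : FA w A))
      omega
    rw [h4, ← y10_dgF, YD_dgw hl h A hA]
    ring
  · intro x y
    have := HQ (R := ℂ) 1 l (y10_Δ 1 l (FA w A) hΔ1) hfgF htr x y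
    exact_mod_cast this
  · intro i m
    obtain ⟨σ, hσw, hσP⟩ := hsign {i}
    have h9 : ∀ B : Fin 3 → ℤ, mp (σ : M →ₐ[ℂ] M) (comb B w) = comb B w := by
      intro B
      rw [comb, map_sum]
      refine Finset.sum_congr rfl fun j _ => ?_
      rw [map_zsmul, hσw]
    have h10 : ∀ B : Fin 3 → ℤ, σ '' cs (comb B w) = cs (comb B w) := by
      intro B
      have h11 := cs_mp (σ : M →ₐ[ℂ] M) (comb B w)
      rw [h9] at h11
      exact h11.symm
    have h12 : (σ : M →ₐ[ℂ] M) '' cs (∑ j, m j • P j) ∪ cs (comb (A 0) w) ∪ cs (comb (A 1) w) =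
        σ '' (cs (∑ j, m j • P j) ∪ cs (comb (A 0) w) ∪ cs (comb (A 1) w)) := by
      rw [Set.image_union, Set.image_union, h10, h10]
      rfl
    have key : ∀ Q, Q = mp (σ : M →ₐ[ℂ] M) (∑ j, m j • P j) →
        (dg (FA w A) (cs Q) : ℤ) = dg (FA w A) (cs (∑ j, m j • P j)) := by
      rintro _ rfl
      rw [cs_mp, ← y10_dgF, ← y10_dgF]
      rw [h12, y10_dgmap]
    refine key _ ?_
    rw [map_sum]
    refine Finset.sum_congr rfl fun j _ => ?_
    rw [map_zsmul, hσP]
    by_cases hj : j = i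
    · simp [hj]
    · simp [hj]

end YD

end Pool.Agent.VM.Y10p
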