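import Pool.Agent.Lib_VM.StubsIV_h38
import Pool.Agent.Lib_VM.A_YD_dg
import Pool.Agent.Lib_VM.A_YD_sign
import Pool.Agent.Lib_VM.A_ell_unimod
import Pool.Agent.Lib_VM.A_xc_mp
import Pool.Agent.Lib_VM.A_yc_mp

/-!
# MP_5582d1_ag, Y10e: `z` and `w` generate `M_Y` (helper75)
-/

set_option autoImplicit false
set_option linter.style.haveILetI false

namespace Pool.Agent.VM.Y10ep

open scoped Classical

attribute [-instance] Subtype.instDecidableEq

section
variable {M : Type} [Field M] [Algebra ℂ M] {l : ℂ} {w : Fin 3 → Pt E2 M}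
  {P : Fin 9 → Pt (E1 l) M} {c : Fin 9 → Pt E2 ℂ} {al be : Fin 9 → ℂ}

/-- the `P_i` are independent -/
private theorem indep (hl : Transcendental ℚ l) (h : YD l w P c al be) (n : Fin 9 → ℤ)
    (hn : ∑ i, n i • P i = 0) : n = 0 := by
  funext i
  obtain ⟨A, hA1, hA2, -⟩ := ell_unimod i
  have hA : IsUnit A.det := by rw [hA1]; exact isUnit_one
  have e1 := YD_dg hl h A hA 0 n
  have e0 := YD_dg hl h A hA 0 0
  have hz : ∑ i : Fin 9, (0 : Fin 9 → ℤ) i • P i = 0 := by simp
  rw [hz] at e0
  rw [hn, e0] at e1
  simp only [Pi.zero_apply, ne_eq, OfNat.ofNat_ne_zero, not_false_eq_true, zero_pow, zero_mul,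
    Finset.sum_const_zero, mul_zero] at e1
  have e2 : ∑ i, n i ^ 2 * (Matrix.det ![A 0, A 1, V.ell i]) ^ 2 = 0 := by
    have : (2 : ℤ) ^ 9 ≠ 0 := by norm_num
    rcases mul_eq_zero.1 e1.symm with h | h
    · exact absurd h this
    · exact h
  have e3 := (Finset.sum_eq_zero_iff_of_nonneg (fun i _ => by positivity)).1 e2 i (Finset.mem_univ i)
  have e4 : Matrix.det ![A 0, A 1, V.ell i] = 1 := by
    have : (![A 0, A 1, V.ell i] : Matrix (Fin 3) (Fin 3) ℤ) = A := by
      funext j
      fin_cases j
      · rfl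
      · rfl
      · exact hA2.symm
    rw [this, hA1]
  rw [e4, one_pow, mul_one] at e3
  exact pow_eq_zero_iff two_ne_zero |>.1 e3

private theorem mp_fix {R : Type} [CommRing R] [Algebra R ℂ] [Algebra R M] [IsScalarTower R ℂ M]
    {W : WeierstrassCurve R} (f : M →ₐ[ℂ] M) (Q : Pt W M) (hx : f (xc Q) = xc Q)
    (hy : f (yc Q) = yc Q) : mp f Q = Q := by
  rcases Q with _ | ⟨x, y, h⟩
  · exact map_zero _
  · have hx' : f x = x := hx
    have hy' : f y = y := hy
    unfold mp
    erw [WeierstrassCurve.Affine.Point.map_some]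
    congr 1

private theorem rho_ne : ∀ i : Fin 9, ∃ j : Fin 3, V.rho i j ≠ 0 := by decide

/-- Y10e: `z` and `w` generate `M`. -/
theorem YD_gen (hl : Transcendental ℚ l) (h : YD l w P c al be) (zc : Fin 3 → Pt (E1 l) ℂ)
    (z : Fin 3 → Pt (E1 l) M) (hz : ∀ j, z j = kc (zc j) + ∑ i, V.rho i j • P i) :
    IntermediateField.adjoin ℂ ((⋃ j, cs (z j)) ∪ ⋃ j, cs (w j)) = ⊤ := by
  obtain ⟨hdeg, -, -, hsig⟩ := YD_sign hl h
  choose σ hσw hσP using hsig
  set Kw := IntermediateField.adjoin ℂ (⋃ j, cs (w j)) with hKw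
  set N := IntermediateField.adjoin ℂ ((⋃ j, cs (z j)) ∪ ⋃ j, cs (w j)) with hN
  have hle : Kw ≤ N := IntermediateField.adjoin.mono _ _ _ Set.subset_union_right
  -- the automorphisms fix `Kw`
  have hfix : ∀ I, ∀ x ∈ Kw, σ I x = x := by
    intro I x hx
    rw [hKw] at hx
    induction hx using IntermediateField.adjoin_induction with
    | mem x hx =>
      obtain ⟨j, hj⟩ := Set.mem_iUnion.1 hx
      rcases hj with rfl | hj
      · have := congrArg xc (hσw I j)
        rw [xc_mp] at this
        exact this
      · rw [Set.mem_singleton_iff] at hj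
        subst hj
        have := congrArg yc (hσw I j)
        rw [yc_mp] at this
        exact this
    | algebraMap x => exact (σ I).commutes x
    | add x y _ _ hx hy => rw [map_add, hx, hy]
    | inv x _ hx => rw [map_inv₀, hx]
    | mul x y _ _ hx hy => rw [map_mul, hx, hy]
  let τ : Finset (Fin 9) → (M ≃ₐ[Kw] M) := fun I =>
    AlgEquiv.ofRingEquiv (f := (σ I).toRingEquiv) (fun x => hfix I x x.2)
  have hτ : ∀ I x, τ I x = σ I x := fun I x => rfl
  -- the points `P_i` are not 2-torsion
  have h2 : ∀ i, P i ≠ -P i := by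
    intro i hi
    have h1 : ∑ k, (Pi.single i 2 : Fin 9 → ℤ) k • P k = 0 := by
      rw [Finset.sum_eq_single i]
      · rw [Pi.single_eq_same, two_smul]
        nth_rw 2 [hi]
        exact add_neg_cancel _
      · intro k _ hk
        rw [Pi.single_eq_of_ne hk, zero_smul]
      · intro hk; exact absurd (Finset.mem_univ i) hk
    have h3 := congrFun (indep hl h _ h1) i
    rw [Pi.single_eq_same] at h3
    exact absurd h3 (by norm_num)
  have hinj : Function.Injective τ := by
    intro I J hIJ
    have hmp : ∀ i, mp (σ I : M →ₐ[ℂ] M) (P i) = mp (σ J : M →ₐ[ℂ] M) (P i) := by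
      intro i
      have : (σ I : M →ₐ[ℂ] M) = (σ J : M →ₐ[ℂ] M) := by
        ext x
        have := congrArg (fun f : M ≃ₐ[Kw] M => f x) hIJ
        exact this
      rw [this]
    ext i
    have h3 := hmp i
    rw [hσP, hσP] at h3
    by_cases hi : i ∈ I <;> by_cases hj : i ∈ J
    · exact ⟨fun _ => hj, fun _ => hi⟩
    · rw [if_pos hi, if_neg hj] at h3
      exact absurd h3.symm (h2 i)
    · rw [if_neg hi, if_pos hj] at h3
      exact absurd h3 (h2 i)
    · exact ⟨fun h => absurd h hi, fun h => absurd h hj⟩
  have hfr : Module.finrank Kw M = 2 ^ 9 := hdeg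
  haveI hfd : FiniteDimensional Kw M := Module.finite_of_finrank_pos (by rw [hfr]; norm_num)
  have hcard2 : Fintype.card (Finset (Fin 9)) = 2 ^ 9 := by simp
  have hcard : Nat.card (M ≃ₐ[Kw] M) = Module.finrank Kw M := by
    apply le_antisymm
    · rw [Nat.card_eq_fintype_card]; exact AlgEquiv.card_le
    · rw [hfr, ← hcard2, ← Nat.card_eq_fintype_card]
      exact Nat.card_le_card_of_injective τ hinj
  haveI hgal : IsGalois Kw M := IsGalois.of_card_aut_eq_finrank Kw M hcard
  have hsurj : Function.Surjective τ := by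
    have : Function.Bijective τ := by
      rw [Fintype.bijective_iff_injective_and_card]
      refine ⟨hinj, ?_⟩
      rw [hcard2, ← hfr, ← hcard, Nat.card_eq_fintype_card]
    exact this.2
  -- the intermediate field
  set N' : IntermediateField Kw M := IntermediateField.extendScalars hle with hN'
  have hbot : N'.fixingSubgroup = ⊥ := by
    rw [eq_bot_iff]
    intro g hg
    obtain ⟨I, rfl⟩ := hsurj g
    rw [IntermediateField.mem_fixingSubgroup_iff] at hg
    have hg' : ∀ x ∈ N, σ I x = x := fun x hx => hg x (IntermediateField.mem_extendScalars hle |>.2 hx)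
    have hzf : ∀ j, mp (σ I : M →ₐ[ℂ] M) (z j) = z j := by
      intro j
      apply mp_fix
      · exact hg' _ (IntermediateField.subset_adjoin _ _
          (Or.inl (Set.mem_iUnion.2 ⟨j, Or.inl rfl⟩)))
      · exact hg' _ (IntermediateField.subset_adjoin _ _
          (Or.inl (Set.mem_iUnion.2 ⟨j, Or.inr rfl⟩)))
    have hI : I = ∅ := by
      rw [Finset.eq_empty_iff_forall_notMem]
      intro i hi
      obtain ⟨j, hj⟩ := rho_ne i
      have h3 := hzf j
      have hk : mp (σ I : M →ₐ[ℂ] M) (kc (zc j)) = kc (zc j) := by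
        apply mp_fix
        · unfold kc
          rw [xc_mp]
          exact (σ I).commutes _
        · unfold kc
          rw [yc_mp]
          exact (σ I).commutes _
      rw [hz j, map_add, hk, map_sum, add_right_inj] at h3
      have h4 : ∑ k, (if k ∈ I then 2 * V.rho k j else 0) • P k = 0 := by
        have h5 : ∑ k, V.rho k j • P k - ∑ k, mp (σ I : M →ₐ[ℂ] M) (V.rho k j • P k) = 0 := by
          rw [h3, sub_self]
        rw [← Finset.sum_sub_distrib] at h5
        rw [← h5]
        refine Finset.sum_congr rfl fun k _ => ?_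
        rw [map_zsmul, hσP]
        by_cases hk : k ∈ I
        · rw [if_pos hk, if_pos hk, smul_neg, sub_neg_eq_add, two_mul, add_smul]
        · rw [if_neg hk, if_neg hk, zero_smul, sub_self]
      have h6 := congrFun (indep hl h _ h4) i
      simp only [if_pos hi, Pi.zero_apply] at h6
      exact hj (by omega)
    subst hI
    rw [Subgroup.mem_bot]
    ext x
    rw [hτ, AlgEquiv.one_apply]
    -- `σ ∅` fixes all generators
    have hx : x ∈ IntermediateField.adjoin ℂ ((⋃ i, cs (P i)) ∪ ⋃ j, cs (w j)) := by
      rw [h.top]; trivial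
    induction hx using IntermediateField.adjoin_induction with
    | mem x hx =>
      rcases hx with hx | hx
      · obtain ⟨j, hj⟩ := Set.mem_iUnion.1 hx
        have h7 := hσP ∅ j
        rw [if_neg (Finset.notMem_empty j)] at h7
        rcases hj with rfl | hj
        · have := congrArg xc h7
          rw [xc_mp] at this
          exact this
        · rw [Set.mem_singleton_iff] at hj
          subst hj
          have := congrArg yc h7
          rw [yc_mp] at this
          exact this
      · exact hfix ∅ x (IntermediateField.subset_adjoin _ _ hx)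
    | algebraMap x => exact (σ ∅).commutes x
    | add x y _ _ hx hy => rw [map_add, hx, hy]
    | inv x _ hx => rw [map_inv₀, hx]
    | mul x y _ _ hx hy => rw [map_mul, hx, hy]
  have htop : N' = ⊤ := by
    rw [← IsGalois.fixedField_fixingSubgroup N', hbot, IntermediateField.fixedField_bot]
  rw [eq_top_iff]
  intro x _
  have : x ∈ N' := by rw [htop]; trivial
  exact (IntermediateField.mem_extendScalars hle).1 this

end

end Pool.Agent.VM.Y10ep
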