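import Pool.Agent.Lib_VM.StubsIV_h38
import Pool.Agent.Lib_VM.A_SPW
import Pool.Agent.Lib_VM.A_ps_sqrt
import Pool.Agent.Lib_VM.A_pt_exists

/-!
# MP_5582d1_ag, part IV, block Y11: arcs
-/

set_option autoImplicit false
set_option linter.style.haveILetI false

namespace Pool.Agent.VM.Y11p

open scoped Classical
open Pool.Agent.VM

/-- power series with given first two coefficients, algebraically independent -/
theorem ai_series {κ : Type} [Field κ] [Algebra ℂ κ] (t : Fin 3 → κ)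
    (ht : AlgebraicIndependent ℂ t) (c0 c1 : Fin 3 → ℂ) :
    AlgebraicIndependent ℂ (fun j : Fin 3 =>
      (Polynomial.C (algebraMap ℂ κ (c0 j)) + Polynomial.C (algebraMap ℂ κ (c1 j)) * Polynomial.X +
        Polynomial.C (t j) * Polynomial.X ^ 2 : Polynomial κ)) := by
  let ev : Polynomial κ →ₐ[ℂ] κ := (Polynomial.aeval (R := κ) (1 : κ)).restrictScalars ℂ
  apply AlgebraicIndependent.of_comp ev
  have h1 : (ev ∘ fun j : Fin 3 =>
      (Polynomial.C (algebraMap ℂ κ (c0 j)) + Polynomial.C (algebraMap ℂ κ (c1 j)) * Polynomial.X +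
        Polynomial.C (t j) * Polynomial.X ^ 2 : Polynomial κ)) =
      fun j => t j + algebraMap ℂ κ (c0 j + c1 j) := by
    funext j
    simp only [Function.comp_apply, ev, AlgHom.restrictScalars_apply, map_add, map_mul,
      Polynomial.aeval_C, Polynomial.aeval_X, map_pow]
    simp
    ring
  rw [h1]
  -- translates
  have h2 : ∀ p : MvPolynomial (Fin 3) ℂ, MvPolynomial.aeval
      (fun j => t j + algebraMap ℂ κ (c0 j + c1 j)) p = 0 → p = 0 := by
    intro p hp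
    let T : MvPolynomial (Fin 3) ℂ →ₐ[ℂ] MvPolynomial (Fin 3) ℂ :=
      MvPolynomial.aeval (fun j => MvPolynomial.X j + MvPolynomial.C (c0 j + c1 j))
    let T' : MvPolynomial (Fin 3) ℂ →ₐ[ℂ] MvPolynomial (Fin 3) ℂ :=
      MvPolynomial.aeval (fun j => MvPolynomial.X j - MvPolynomial.C (c0 j + c1 j))
    have hT : MvPolynomial.aeval t (T p) = 0 := by
      rw [← hp]
      have : (MvPolynomial.aeval t).comp T = MvPolynomial.aeval
          (fun j => t j + algebraMap ℂ κ (c0 j + c1 j)) := by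
        apply MvPolynomial.algHom_ext
        intro j
        simp [T]
      rw [← this]
      rfl
    have hT0 : T p = 0 := by
      have hinj := ht
      rw [algebraicIndependent_iff_injective_aeval] at hinj
      apply hinj
      rw [hT, map_zero]
    have hTT : T' (T p) = p := by
      have : T'.comp T = AlgHom.id ℂ _ := by
        apply MvPolynomial.algHom_ext
        intro j
        simp [T, T']
      have h3 := congrArg (fun f => f p) this
      exact h3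
    rw [← hTT, hT0, map_zero]
  exact algebraicIndependent_iff.2 h2

/-- the field of constants -/
abbrev Kp : Type := FractionRing (MvPolynomial (Fin 3) ℂ)

theorem ai_Kp : AlgebraicIndependent ℂ
    (fun j : Fin 3 => (algebraMap (MvPolynomial (Fin 3) ℂ) Kp (MvPolynomial.X j))) := by
  have h := (MvPolynomial.algebraicIndependent_X (Fin 3) ℂ)
  exact h.map' (f := IsScalarTower.toAlgHom ℂ (MvPolynomial (Fin 3) ℂ) Kp)
    (IsFractionRing.injective (MvPolynomial (Fin 3) ℂ) Kp)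

/-- the local ring of an arc -/
theorem core {M κ Ω : Type} [Field M] [Algebra ℂ M] [Field κ] [Algebra ℂ κ] [Field Ω] [Algebra ℂ Ω]
    (ι : PowerSeries κ →ₐ[ℂ] Ω) (hι : Function.Injective ι) (φ : M →ₐ[ℂ] Ω) :
    ∃ (O : Subalgebra ℂ M) (ψ : O →ₐ[ℂ] PowerSeries κ), (∀ a : O, ι (ψ a) = φ a) ∧
      (∀ (a : M) (b : PowerSeries κ), φ a = ι b → a ∈ O) := by
  refine ⟨ι.range.comap φ, ?_⟩
  let e := AlgEquiv.ofInjective ι hι
  let ψ₁ : (ι.range.comap φ) →ₐ[ℂ] ι.range :=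
    (φ.comp (Subalgebra.val _)).codRestrict ι.range (fun a => a.2)
  refine ⟨(e.symm : ι.range →ₐ[ℂ] PowerSeries κ).comp ψ₁, ?_, ?_⟩
  · intro a
    have h1 : ((e (e.symm (ψ₁ a)) : ι.range) : Ω) = φ a := by
      rw [AlgEquiv.apply_symm_apply]
      rfl
    exact h1
  · intro a b h
    exact ⟨b, h.symm⟩

/-- the data of an arc -/
theorem arc_core {M κ Ω : Type} [Field M] [Algebra ℂ M] [Field κ] [Algebra ℂ κ] [Field Ω]
    [Algebra ℂ Ω] (ι : PowerSeries κ →ₐ[ℂ] Ω) (hι : Function.Injective ι) (φ : M →ₐ[ℂ] Ω)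
    (w : Fin 3 → Pt E2 M) (w0 : Fin 3 → Pt E2 ℂ) (τ : Fin 3 → ℂ) (X Y : Fin 3 → PowerSeries κ)
    (hX : ∀ j, φ (xc (w j)) = ι (X j)) (hY : ∀ j, φ (yc (w j)) = ι (Y j))
    (hX0 : ∀ j, PowerSeries.coeff 0 (X j) = algebraMap ℂ κ (xc (w0 j)))
    (hX1 : ∀ j, PowerSeries.coeff 1 (X j) = algebraMap ℂ κ (2 * yc (w0 j) * τ j))
    (hY0 : ∀ j, PowerSeries.coeff 0 (Y j) = algebraMap ℂ κ (yc (w0 j)))
    (hY1 : ∀ j, PowerSeries.coeff 1 (Y j) = algebraMap ℂ κ (3 * xc (w0 j) ^ 2 * τ j)) :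
    ∃ (O : Subalgebra ℂ M) (g : O →ₐ[ℂ] κ)
      (δ : O → κ) (x y : Fin 3 → O), Der g δ ∧ (∀ a : O, g a ≠ 0 → (a : M)⁻¹ ∈ O) ∧
      (∀ j, (x j : M) = xc (w j) ∧ (y j : M) = yc (w j) ∧
        g (x j) = algebraMap ℂ κ (xc (w0 j)) ∧ g (y j) = algebraMap ℂ κ (yc (w0 j)) ∧
        δ (x j) = algebraMap ℂ κ (2 * yc (w0 j) * τ j) ∧
        δ (y j) = algebraMap ℂ κ (3 * xc (w0 j) ^ 2 * τ j)) ∧
      ∀ (r : M) (s : O) (c : κ), (s : M) = r ^ 2 → c ≠ 0 → g s = c ^ 2 →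
        ∃ t : O, (t : M) = r := by
  obtain ⟨O, ψ, hψ, hO⟩ := core ι hι φ
  haveI : CharZero κ := charZero_of_injective_algebraMap (algebraMap ℂ κ).injective
  let cc : PowerSeries κ →ₐ[ℂ] κ :=
    { PowerSeries.constantCoeff (R := κ) with
      commutes' := fun r => by
        simp [PowerSeries.algebraMap_apply] }
  have hcc : ∀ f, cc f = PowerSeries.coeff 0 f := fun f => by
    rw [PowerSeries.coeff_zero_eq_constantCoeff_apply]
    rfl
  have hψx : ∀ a : O, ∀ b : PowerSeries κ, φ a = ι b → ψ a = b := by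
    intro a b h
    apply hι
    rw [hψ, h]
  have hxO : ∀ j, xc (w j) ∈ O := fun j => hO _ _ (hX j)
  have hyO : ∀ j, yc (w j) ∈ O := fun j => hO _ _ (hY j)
  refine ⟨O, cc.comp ψ, fun a => PowerSeries.coeff 1 (ψ a), fun j => ⟨xc (w j), hxO j⟩,
    fun j => ⟨yc (w j), hyO j⟩, ⟨?_, ?_, ?_⟩, ?_, ?_, ?_⟩
  · intro a b
    simp only [map_add]
  · intro a b
    simp only [map_mul, AlgHom.comp_apply, hcc]
    rw [PowerSeries.coeff_mul]
    have : Finset.HasAntidiagonal.antidiagonal 1 = ({((0 : ℕ), (1 : ℕ)), (1, 0)} : Finset (ℕ × ℕ)) := by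
      decide
    rw [this, Finset.sum_insert (by decide), Finset.sum_singleton]
    ring
  · intro r
    simp only [AlgHom.commutes]
    rw [PowerSeries.algebraMap_apply, PowerSeries.coeff_C]
    simp
  · intro a ha
    have ha' : PowerSeries.constantCoeff (ψ a) ≠ 0 := ha
    have hunit : IsUnit (ψ a) := by
      rw [PowerSeries.isUnit_iff_constantCoeff]
      exact isUnit_iff_ne_zero.2 ha'
    obtain ⟨u, hu⟩ := hunit
    apply hO _ (↑(u⁻¹) : PowerSeries κ)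
    have h1 : ι (ψ a) * ι (↑(u⁻¹) : PowerSeries κ) = 1 := by
      rw [← map_mul, ← hu, Units.mul_inv, map_one]
    rw [hψ] at h1
    have h2 : φ (a : M) ≠ 0 := left_ne_zero_of_mul_eq_one h1
    rw [map_inv₀]
    exact (eq_inv_of_mul_eq_one_right h1).symm
  · intro j
    have ex : ψ ⟨xc (w j), hxO j⟩ = X j := hψx _ _ (hX j)
    have ey : ψ ⟨yc (w j), hyO j⟩ = Y j := hψx _ _ (hY j)
    refine ⟨rfl, rfl, ?_, ?_, ?_, ?_⟩
    · simp only [AlgHom.comp_apply, hcc, ex, hX0]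
    · simp only [AlgHom.comp_apply, hcc, ey, hY0]
    · simp only [ex, hX1]
    · simp only [ey, hY1]
  · intro r s c hs hc hg
    have hg' : PowerSeries.constantCoeff (ψ s) = c ^ 2 := hg
    obtain ⟨G, hG, -⟩ := ps_sqrt (two_ne_zero) (ψ s) c hc hg'
    have h1 : φ r ^ 2 = ι G ^ 2 := by
      rw [← map_pow, ← map_pow, hG, hψ, hs]
    rcases sq_eq_sq_iff_eq_or_eq_neg.1 h1 with h2 | h2
    · exact ⟨⟨r, hO _ _ h2⟩, rfl⟩
    · refine ⟨⟨r, hO _ (-G) ?_⟩, rfl⟩
      rw [h2, map_neg]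

/-- extension of an embedding -/
theorem ext_alg {M Ω : Type} [Field M] [Algebra ℂ M] [Field Ω] [Algebra ℂ Ω] [IsAlgClosed Ω]
    (K : IntermediateField ℂ M) (halg : Algebra.IsAlgebraic K M) (σ : K →ₐ[ℂ] Ω) :
    ∃ φ : M →ₐ[ℂ] Ω, ∀ (a : M) (ha : a ∈ K), φ a = σ ⟨a, ha⟩ := by
  letI : Algebra K Ω := σ.toRingHom.toAlgebra
  haveI : IsScalarTower ℂ K Ω := IsScalarTower.of_algebraMap_eq fun r => (σ.commutes r).symm
  let f : M →ₐ[K] Ω := IsAlgClosed.lift (R := K) (S := M) (M := Ω)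
  refine ⟨f.restrictScalars ℂ, ?_⟩
  intro a ha
  exact f.commutes ⟨a, ha⟩

/-- polynomials as power series -/
theorem exists_f₀ (κ : Type) [Field κ] [Algebra ℂ κ] : ∃ f : Polynomial κ →ₐ[ℂ] PowerSeries κ,
    ∀ p : Polynomial κ, f p = (p : PowerSeries κ) :=
  ⟨{ Polynomial.coeToPowerSeries.ringHom with
      commutes' := fun r => by
        simp [Polynomial.algebraMap_apply, PowerSeries.algebraMap_apply] }, fun _ => rfl⟩

/-- Y11 for a given algebraically closed field -/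
theorem main {M : Type} [Field M] [Algebra ℂ M] (w : Fin 3 → Pt E2 M)
    (hw : AlgebraicIndependent ℂ fun j => xc (w j))
    (halg : Algebra.IsAlgebraic (IntermediateField.adjoin ℂ (⋃ j, cs (w j))) M)
    (w0 : Fin 3 → Pt E2 ℂ) (h0 : ∀ j, w0 j ≠ 0) (hy : ∀ j, yc (w0 j) ≠ 0) (τ : Fin 3 → ℂ)
    {κ Ω : Type} [Field κ] [Algebra ℂ κ] [Field Ω] [Algebra ℂ Ω] [IsAlgClosed Ω]
    (ι : PowerSeries κ →ₐ[ℂ] Ω) (hι : Function.Injective ι) (t : Fin 3 → κ)
    (ht : AlgebraicIndependent ℂ t) :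
    ∃ (O : Subalgebra ℂ M) (g : O →ₐ[ℂ] κ)
      (δ : O → κ) (x y : Fin 3 → O), Der g δ ∧ (∀ a : O, g a ≠ 0 → (a : M)⁻¹ ∈ O) ∧
      (∀ j, (x j : M) = xc (w j) ∧ (y j : M) = yc (w j) ∧
        g (x j) = algebraMap ℂ κ (xc (w0 j)) ∧ g (y j) = algebraMap ℂ κ (yc (w0 j)) ∧
        δ (x j) = algebraMap ℂ κ (2 * yc (w0 j) * τ j) ∧
        δ (y j) = algebraMap ℂ κ (3 * xc (w0 j) ^ 2 * τ j)) ∧
      ∀ (r : M) (s : O) (c : κ), (s : M) = r ^ 2 → c ≠ 0 → g s = c ^ 2 →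
        ∃ t : O, (t : M) = r := by
  haveI : CharZero κ := charZero_of_injective_algebraMap (algebraMap ℂ κ).injective
  let X₀ : Fin 3 → Polynomial κ := fun j =>
    Polynomial.C (algebraMap ℂ κ (xc (w0 j))) +
      Polynomial.C (algebraMap ℂ κ (2 * yc (w0 j) * τ j)) * Polynomial.X +
      Polynomial.C (t j) * Polynomial.X ^ 2
  let X : Fin 3 → PowerSeries κ := fun j => (X₀ j : PowerSeries κ)
  have hXai : AlgebraicIndependent ℂ fun j => ι (X j) := by
    have h1 : AlgebraicIndependent ℂ X₀ :=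
      ai_series t ht (fun j => xc (w0 j)) (fun j => 2 * yc (w0 j) * τ j)
    obtain ⟨f₀, hf₀⟩ := exists_f₀ κ
    have h2 : Function.Injective (ι.comp f₀) := by
      intro a b hab
      rw [AlgHom.comp_apply, AlgHom.comp_apply, hf₀, hf₀] at hab
      exact Polynomial.coe_injective κ (hι hab)
    have h3 := h1.map' h2
    have h4 : (⇑(ι.comp f₀) ∘ X₀) = fun j => ι (X j) := by
      funext j
      simp only [Function.comp_apply, AlgHom.comp_apply, hf₀, X]
    rw [h4] at h3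
    exact h3
  have hX0 : ∀ j, PowerSeries.coeff 0 (X j) = algebraMap ℂ κ (xc (w0 j)) := by
    intro j
    simp only [X, X₀, Polynomial.coeff_coe]
    simp
  have hX1 : ∀ j, PowerSeries.coeff 1 (X j) = algebraMap ℂ κ (2 * yc (w0 j) * τ j) := by
    intro j
    simp only [X, X₀, Polynomial.coeff_coe]
    simp [Polynomial.coeff_X_pow]
  have hex : ∀ j, ∃ G : PowerSeries κ, G ^ 2 = X j ^ 3 + 1 ∧
      PowerSeries.constantCoeff G = algebraMap ℂ κ (yc (w0 j)) := by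
    intro j
    refine ps_sqrt two_ne_zero _ _ ?_ ?_
    · rw [Ne, map_eq_zero]
      exact hy j
    · have h1 := ptf_sq (h0 j)
      rw [map_add, map_pow, map_one, ← PowerSeries.coeff_zero_eq_constantCoeff_apply, hX0,
        ← map_pow, ← map_pow, h1]
      simp
  choose Y hY hY0 using hex
  have hY0' : ∀ j, PowerSeries.coeff 0 (Y j) = algebraMap ℂ κ (yc (w0 j)) := by
    intro j
    rw [PowerSeries.coeff_zero_eq_constantCoeff_apply, hY0]
  have hc1 : ∀ f g : PowerSeries κ, PowerSeries.coeff 1 (f * g) =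
      PowerSeries.coeff 0 f * PowerSeries.coeff 1 g +
        PowerSeries.coeff 0 g * PowerSeries.coeff 1 f := by
    intro f g
    rw [PowerSeries.coeff_mul]
    have : Finset.HasAntidiagonal.antidiagonal 1 = ({((0 : ℕ), (1 : ℕ)), (1, 0)} : Finset (ℕ × ℕ)) := by
      decide
    rw [this, Finset.sum_insert (by decide), Finset.sum_singleton]
    ring
  have hc0 : ∀ f g : PowerSeries κ, PowerSeries.coeff 0 (f * g) =
      PowerSeries.coeff 0 f * PowerSeries.coeff 0 g := by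
    intro f g
    simp only [PowerSeries.coeff_zero_eq_constantCoeff_apply, map_mul]
  have hY1 : ∀ j, PowerSeries.coeff 1 (Y j) = algebraMap ℂ κ (3 * xc (w0 j) ^ 2 * τ j) := by
    intro j
    have h1 := congrArg (PowerSeries.coeff 1) (hY j)
    have hy' : algebraMap ℂ κ (yc (w0 j)) ≠ 0 := by
      rw [Ne, map_eq_zero]
      exact hy j
    rw [pow_two, hc1, hY0', map_add, PowerSeries.coeff_one, if_neg one_ne_zero, add_zero, pow_succ,
      pow_two, hc1, hc1, hX1, hc0, hX0] at h1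
    have h2 : algebraMap ℂ κ (yc (w0 j)) * (2 * PowerSeries.coeff 1 (Y j)) =
        algebraMap ℂ κ (yc (w0 j)) * (2 * algebraMap ℂ κ (3 * xc (w0 j) ^ 2 * τ j)) := by
      simp only [map_mul, map_pow, map_ofNat] at h1 ⊢
      linear_combination h1
    have h3 := mul_left_cancel₀ hy' h2
    exact mul_left_cancel₀ two_ne_zero h3
  have hΔ : algebraMap ℤ ℂ (SW 0 1).Δ ≠ 0 := by
    simp [SW, WeierstrassCurve.Δ, WeierstrassCurve.b₂, WeierstrassCurve.b₄, WeierstrassCurve.b₆,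
      WeierstrassCurve.b₈]
  have hWex : ∀ j, ∃ Q : Pt E2 Ω, Q ≠ 0 ∧ xc Q = ι (X j) ∧ yc Q = ι (Y j) := by
    intro j
    apply pt_exists (K := ℂ) 0 1 hΔ
    rw [← map_pow, hY]
    simp
  choose W hW0 hWx hWy using hWex
  obtain ⟨σ, hσ⟩ := SPW w W hw (by simpa only [hWx] using hXai)
  obtain ⟨φ, hφ⟩ := ext_alg _ halg σ
  have hxK : ∀ j, xc (w j) ∈ IntermediateField.adjoin ℂ (⋃ j, cs (w j)) := fun j =>
    IntermediateField.subset_adjoin _ _ (Set.mem_iUnion.2 ⟨j, Or.inl rfl⟩)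
  have hyK : ∀ j, yc (w j) ∈ IntermediateField.adjoin ℂ (⋃ j, cs (w j)) := fun j =>
    IntermediateField.subset_adjoin _ _ (Set.mem_iUnion.2 ⟨j, Or.inr rfl⟩)
  refine arc_core ι hι φ w w0 τ X Y ?_ ?_ hX0 hX1 hY0' hY1
  · intro j
    rw [hφ _ (hxK j), (hσ j (hxK j) (hyK j)).1, hWx]
  · intro j
    rw [hφ _ (hyK j), (hσ j (hxK j) (hyK j)).2, hWy]

/-- power series in an algebraically closed field -/
theorem exists_Ω (κ : Type) [Field κ] [Algebra ℂ κ] : ∃ (Ω : Type) (_ : Field Ω) (_ : Algebra ℂ Ω)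
    (_ : IsAlgClosed Ω) (ι : PowerSeries κ →ₐ[ℂ] Ω), Function.Injective ι := by
  let F := FractionRing (PowerSeries κ)
  refine ⟨AlgebraicClosure F, inferInstance, inferInstance, inferInstance,
    (IsScalarTower.toAlgHom ℂ F (AlgebraicClosure F)).comp
      (IsScalarTower.toAlgHom ℂ (PowerSeries κ) F), ?_⟩
  have h1 : Function.Injective (algebraMap F (AlgebraicClosure F)) :=
    FaithfulSMul.algebraMap_injective F (AlgebraicClosure F)
  exact h1.comp (IsFractionRing.injective (PowerSeries κ) F)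

/-- Y11. -/
theorem ARC {M : Type} [Field M] [Algebra ℂ M] (w : Fin 3 → Pt E2 M)
    (hw : AlgebraicIndependent ℂ fun j => xc (w j))
    (halg : Algebra.IsAlgebraic (IntermediateField.adjoin ℂ (⋃ j, cs (w j))) M)
    (w0 : Fin 3 → Pt E2 ℂ) (h0 : ∀ j, w0 j ≠ 0) (hy : ∀ j, yc (w0 j) ≠ 0) (τ : Fin 3 → ℂ) :
    ∃ (κ : Type) (_ : Field κ) (_ : Algebra ℂ κ) (O : Subalgebra ℂ M) (g : O →ₐ[ℂ] κ)
      (δ : O → κ) (x y : Fin 3 → O), Der g δ ∧ (∀ a : O, g a ≠ 0 → (a : M)⁻¹ ∈ O) ∧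
      (∀ j, (x j : M) = xc (w j) ∧ (y j : M) = yc (w j) ∧
        g (x j) = algebraMap ℂ κ (xc (w0 j)) ∧ g (y j) = algebraMap ℂ κ (yc (w0 j)) ∧
        δ (x j) = algebraMap ℂ κ (2 * yc (w0 j) * τ j) ∧
        δ (y j) = algebraMap ℂ κ (3 * xc (w0 j) ^ 2 * τ j)) ∧
      ∀ (r : M) (s : O) (c : κ), (s : M) = r ^ 2 → c ≠ 0 → g s = c ^ 2 →
        ∃ t : O, (t : M) = r := by
  obtain ⟨Ω, _, _, _, ι, hι⟩ := exists_Ω Kp
  exact ⟨Kp, inferInstance, inferInstance, main w hw halg w0 h0 hy τ ι hι _ ai_Kp⟩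

end Pool.Agent.VM.Y11p
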