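import Pool.Agent.Lib_VM.StubsIV_h38
import Mathlib.Analysis.Complex.Cardinality
import Pool.Agent.Lib_VM.A_alg_of_smul
import Pool.Agent.Lib_VM.A_pt_exists

/-!
# MP_5582d1_ag, block Y12 (helper21): independent points
-/

set_option autoImplicit false
set_option linter.style.haveILetI false

namespace Pool.Agent.VM.Y12p

open Pool.Agent.VM
open scoped Classical

/-- in an uncountable abelian group in which the fibres of the multiplications are countable -/
theorem indep_group {G : Type*} [AddCommGroup G] (hG : ¬ (Set.univ : Set G).Countable)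
    (hfib : ∀ (m : ℤ) (T : G), m ≠ 0 → {Q : G | m • Q = T}.Countable) {r : ℕ} (z0 : Fin r → G)
    (k : ℕ) : ∃ p : Fin k → G, ∀ (m : Fin k → ℤ) (n : Fin r → ℤ),
      ∑ i, m i • p i = ∑ j, n j • z0 j → m = 0 := by
  induction k with
  | zero => exact ⟨Fin.elim0, fun m n _ => Subsingleton.elim _ _⟩
  | succ k ih =>
    obtain ⟨p, hp⟩ := ih
    have hS : (⋃ (m : {m : ℤ // m ≠ 0}) (m' : Fin k → ℤ) (n : Fin r → ℤ),
        {Q : G | m.1 • Q = ∑ j, n j • z0 j - ∑ i, m' i • p i}).Countable :=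
      Set.countable_iUnion fun m => Set.countable_iUnion fun m' => Set.countable_iUnion fun n =>
        hfib _ _ m.2
    obtain ⟨Q, hQ⟩ : ∃ Q, Q ∉ (⋃ (m : {m : ℤ // m ≠ 0}) (m' : Fin k → ℤ) (n : Fin r → ℤ),
        {Q : G | m.1 • Q = ∑ j, n j • z0 j - ∑ i, m' i • p i}) := by
      by_contra h
      push Not at h
      exact hG (hS.mono fun Q _ => h Q)
    refine ⟨Fin.cons Q p, fun m n h => ?_⟩
    rw [Fin.sum_univ_succ] at h
    simp only [Fin.cons_zero, Fin.cons_succ] at h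
    have h0 : m 0 = 0 := by
      by_contra h0
      apply hQ
      simp only [Set.mem_iUnion]
      exact ⟨⟨m 0, h0⟩, fun i => m i.succ, n, eq_sub_iff_add_eq.2 h⟩
    have h1 := hp (fun i => m i.succ) n (by rw [h0, zero_smul, zero_add] at h; exact h)
    funext i
    refine Fin.cases ?_ ?_ i
    · exact h0
    · intro i; exact congrFun h1 i

theorem yc_sq {R F : Type} [CommRing R] [Field F] [Algebra R F] {a b : R}
    (Q : Pt (SW a b) F) (hQ : Q ≠ 0) :
    yc Q ^ 2 = xc Q ^ 3 + algebraMap R F a * xc Q ^ 2 + algebraMap R F b := by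
  match Q, hQ with
  | .zero, h => exact absurd rfl h
  | .some x y h, _ =>
    have := (WeierstrassCurve.Affine.equation_iff _ _).mp h.1
    simp [SW, WeierstrassCurve.baseChange, WeierstrassCurve.map] at this
    simp only [xc, yc]
    linear_combination this

theorem inj_xy {R F : Type} [CommRing R] [Field F] [Algebra R F] {W : WeierstrassCurve R}
    (Q Q' : Pt W F) (hQ : Q ≠ 0) (hQ' : Q' ≠ 0) (hx : xc Q = xc Q') (hy : yc Q = yc Q') :
    Q = Q' := by
  match Q, hQ, Q', hQ' with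
  | .zero, h, _, _ => exact absurd rfl h
  | .some x y h, _, .zero, h' => exact absurd rfl h'
  | .some x y h, _, .some x' y' h', _ =>
    have h1 : x = x' := hx
    have h2 : y = y' := hy
    subst h1 h2
    rfl

theorem fib_K (K : IntermediateField ℚ ℂ) (hK : Countable K) (a b : K) (hΔ : (SW a b).Δ ≠ 0)
    (m : ℤ) (hm : m ≠ 0) (T : Pt (SW a b) ℂ) (hT : xc T ∈ K) :
    {Q : Pt (SW a b) ℂ | m • Q = T}.Countable := by
  have hA : {x : ℂ | IsAlgebraic K x}.Countable := Algebraic.countable K ℂ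
  have hS : {Q : Pt (SW a b) ℂ | m • Q = T ∧ Q ≠ 0}.Countable := by
    refine Set.MapsTo.countable_of_injOn (f := fun Q => (xc Q, yc Q)) (t :=
      {x : ℂ | IsAlgebraic K x} ×ˢ {x : ℂ | IsAlgebraic K x}) ?_ ?_ (hA.prod hA)
    · rintro Q ⟨hQ, hQ0⟩
      have h1 : IsAlgebraic K (xc (m • Q)) := by
        rw [hQ]
        exact isAlgebraic_algebraMap (⟨xc T, hT⟩ : K)
      have h2 : IsAlgebraic K (xc Q) := alg_of_smul (K := K) a b hΔ m hm Q h1
      refine ⟨h2, ?_⟩
      have h3 : IsAlgebraic K (yc Q ^ 2) := by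
        rw [yc_sq Q hQ0]
        exact ((h2.pow 3).add ((isAlgebraic_algebraMap a).mul (h2.pow 2))).add
          (isAlgebraic_algebraMap b)
      exact IsAlgebraic.of_pow (by norm_num) h3
    · rintro Q ⟨-, hQ⟩ Q' ⟨-, hQ'⟩ h
      exact inj_xy Q Q' hQ hQ' (congrArg Prod.fst h) (congrArg Prod.snd h)
  refine (hS.union (Set.countable_singleton 0)).mono fun Q hQ => ?_
  by_cases h : Q = 0
  · exact Or.inr h
  · exact Or.inl ⟨hQ, h⟩

theorem fib_W (K : IntermediateField ℚ ℂ) (hK : Countable K) (a b : K) (hΔ : (SW a b).Δ ≠ 0)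
    (m : ℤ) (hm : m ≠ 0) (W : WeierstrassCurve ℂ) (hW : W = (SW a b).baseChange ℂ)
    (T : W.toAffine.Point) (hT : T = 0 ∨ ∃ x y h, T = .some x y h ∧ x ∈ K) :
    {Q : W.toAffine.Point | m • Q = T}.Countable := by
  subst hW
  refine fib_K K hK a b hΔ m hm T ?_
  rcases hT with rfl | ⟨x, y, h, rfl, hx⟩
  · exact zero_mem K
  · exact hx

theorem fib {R : Type} [CommRing R] [Algebra R ℂ] (a b : R)
    (hΔ : algebraMap R ℂ (SW a b).Δ ≠ 0) (m : ℤ) (T : Pt (SW a b) ℂ) (hm : m ≠ 0) :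
    {Q : Pt (SW a b) ℂ | m • Q = T}.Countable := by
  let S : Set ℂ := {algebraMap R ℂ a, algebraMap R ℂ b, xc T}
  let K : IntermediateField ℚ ℂ := IntermediateField.adjoin ℚ S
  have hK : Countable K := by
    have h1 : Cardinal.mk (IntermediateField.adjoin ℚ S) ≤ _ :=
      IntermediateField.cardinalMk_adjoin_le ℚ S
    refine Cardinal.mk_le_aleph0_iff.1 (h1.trans ?_)
    simp
  let a' : K := ⟨algebraMap R ℂ a, IntermediateField.subset_adjoin _ _ (by simp [S])⟩
  let b' : K := ⟨algebraMap R ℂ b, IntermediateField.subset_adjoin _ _ (by simp [S])⟩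
  have hW : (SW a b).baseChange ℂ = (SW a' b').baseChange ℂ := by
    ext <;> simp [SW, WeierstrassCurve.baseChange, WeierstrassCurve.map] <;> rfl
  have hΔ' : (SW a' b').Δ ≠ 0 := by
    intro h
    apply hΔ
    have h1 : ((SW a b).baseChange ℂ).Δ = algebraMap R ℂ (SW a b).Δ :=
      WeierstrassCurve.map_Δ _ _
    have h2 : ((SW a' b').baseChange ℂ).Δ = algebraMap K ℂ (SW a' b').Δ :=
      WeierstrassCurve.map_Δ _ _
    rw [← h1, hW, h2, h, map_zero]
  refine fib_W K hK a' b' hΔ' m hm _ hW T ?_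
  match hT : T with
  | .zero => exact Or.inl rfl
  | .some x y h =>
    refine Or.inr ⟨x, y, h, rfl, IntermediateField.subset_adjoin _ _ ?_⟩
    simp [S, hT, xc]

/-- Y12 -/
theorem pts_indep {R : Type} [CommRing R] [Algebra R ℂ] (a b : R)
    (hΔ : algebraMap R ℂ (SW a b).Δ ≠ 0) (k : ℕ) (z0 : Fin 3 → Pt (SW a b) ℂ) :
    ∃ p : Fin k → Pt (SW a b) ℂ, ∀ (m : Fin k → ℤ) (n : Fin 3 → ℤ),
      ∑ i, m i • p i = ∑ j, n j • z0 j → m = 0 := by
  refine indep_group ?_ (fib a b hΔ) z0 k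
  intro h
  have h1 : (Set.range (xc : Pt (SW a b) ℂ → ℂ)).Countable := by
    rw [← Set.image_univ]; exact h.image _
  have h2 : Set.range (xc : Pt (SW a b) ℂ → ℂ) = Set.univ := by
    rw [Set.eq_univ_iff_forall]
    intro x
    obtain ⟨y, hy⟩ := IsAlgClosed.exists_pow_nat_eq
      (x ^ 3 + algebraMap R ℂ a * x ^ 2 + algebraMap R ℂ b) (n := 2) (by norm_num)
    obtain ⟨Q, -, hQ, -⟩ := pt_exists (K := ℂ) (M := ℂ) a b hΔ x y hy
    exact ⟨Q, hQ⟩
  rw [h2] at h1
  exact not_countable_complex h1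

end Pool.Agent.VM.Y12p
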