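import Pool.Agent.Lib_VM.StubsIV_h38

set_option autoImplicit false

namespace Pool.Agent.VM.Y1p

open scoped Classical

variable {R O F : Type} [CommRing R] [CommRing O] [Algebra R O] [Field F] [Algebra R F]

theorem chord_sp (a b : R) (x₁ y₁ x₂ y₂ u : O) (hu : (x₁ - x₂) * u = 1) (g : O →ₐ[R] F)
    (Q₁ Q₂ : Pt (SW a b) F) (h₁ : Sp g x₁ y₁ Q₁) (h₂ : Sp g x₂ y₂ Q₂) :
    Sp g (chx a x₁ y₁ x₂ y₂ u) (chy a x₁ y₁ x₂ y₂ u) (Q₁ + Q₂) := by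
  obtain ⟨n1, hx1, hy1⟩ := h₁
  obtain ⟨n2, hx2, hy2⟩ := h₂
  have hgu : (g x₁ - g x₂) * g u = 1 := by
    rw [← map_sub, ← map_mul, hu, map_one]
  have hne : g x₁ - g x₂ ≠ 0 := left_ne_zero_of_mul_eq_one hgu
  have hu' : g u = (g x₁ - g x₂)⁻¹ := eq_inv_of_mul_eq_one_right hgu
  obtain ⟨h0, hx, hy⟩ := ptf_add n1 n2 (by rw [hx1, hx2]; exact sub_ne_zero.1 hne)
  refine ⟨h0, ?_, ?_⟩
  · rw [hx, hx1, hx2, hy1, hy2, chx]
    simp only [map_sub, map_mul, map_pow, AlgHom.commutes, hu']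
    rw [div_eq_mul_inv]
  · rw [hy, hx, hx1, hx2, hy1, hy2, chy, chx]
    simp only [map_sub, map_mul, map_pow, map_neg, map_add, AlgHom.commutes, hu']
    rw [div_eq_mul_inv]

theorem der_one {g : O →ₐ[R] F} {δ : O → F} (hδ : Der g δ) : δ 1 = 0 := by
  have := hδ.alg 1
  rwa [map_one] at this

theorem der_neg {g : O →ₐ[R] F} {δ : O → F} (hδ : Der g δ) (x : O) : δ (-x) = - δ x := by
  have h0 : δ 0 = 0 := by
    have := hδ.alg 0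
    rwa [map_zero] at this
  have h1 := hδ.add x (-x)
  rw [add_neg_cancel, h0] at h1
  linear_combination -h1

theorem der_sub {g : O →ₐ[R] F} {δ : O → F} (hδ : Der g δ) (x y : O) : δ (x - y) = δ x - δ y := by
  rw [sub_eq_add_neg, hδ.add, der_neg hδ]; ring

theorem der_sq {g : O →ₐ[R] F} {δ : O → F} (hδ : Der g δ) (x : O) : δ (x ^ 2) = 2 * g x * δ x := by
  rw [sq, hδ.mul]; ring

theorem chord_mv (a b : R) (x₁ y₁ x₂ y₂ u : O) (hu : (x₁ - x₂) * u = 1) (g : O →ₐ[R] F)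
    (Q₁ Q₂ : Pt (SW a b) F) (h₁ : Sp g x₁ y₁ Q₁) (h₂ : Sp g x₂ y₂ Q₂) (δ : O → F) (hδ : Der g δ)
    (ω₁ ω₂ : F) (m₁ : Mv a g δ x₁ y₁ ω₁) (m₂ : Mv a g δ x₂ y₂ ω₂) :
    Mv a g δ (chx a x₁ y₁ x₂ y₂ u) (chy a x₁ y₁ x₂ y₂ u) (ω₁ + ω₂) := by
  obtain ⟨n1, hx1, hy1⟩ := h₁
  obtain ⟨n2, hx2, hy2⟩ := h₂
  obtain ⟨dx1, dy1⟩ := m₁
  obtain ⟨dx2, dy2⟩ := m₂
  have hgu : (g x₁ - g x₂) * g u = 1 := by
    rw [← map_sub, ← map_mul, hu, map_one]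
  have e1 := ptf_sq n1
  have e2 := ptf_sq n2
  rw [hx1, hy1] at e1
  rw [hx2, hy2] at e2
  have du : (g x₁ - g x₂) * δ u + g u * (δ x₁ - δ x₂) = 0 := by
    have h := hδ.mul (x₁ - x₂) u
    rw [hu, der_one hδ, map_sub, der_sub hδ] at h
    linear_combination -h
  have du' : δ u = -(g u) ^ 2 * (δ x₁ - δ x₂) := by
    linear_combination (g u) * du - (δ u) * hgu
  have ha : δ (algebraMap R O a) = 0 := hδ.alg a
  have dX : δ (chx a x₁ y₁ x₂ y₂ u) = 2 * ((g y₁ - g y₂) * g u) * ((g y₁ - g y₂) * δ u +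
      g u * (δ y₁ - δ y₂)) - δ x₁ - δ x₂ := by
    rw [chx, der_sub hδ, der_sub hδ, der_sub hδ, der_sq hδ, ha, hδ.mul, der_sub hδ, map_mul,
      map_sub]
    ring
  have gX : g (chx a x₁ y₁ x₂ y₂ u) = ((g y₁ - g y₂) * g u) ^ 2 - algebraMap R F a - g x₁ - g x₂ := by
    rw [chx]; simp only [map_sub, map_mul, map_pow, AlgHom.commutes]
  have gY : g (chy a x₁ y₁ x₂ y₂ u) =
      -((g y₁ - g y₂) * g u * (g (chx a x₁ y₁ x₂ y₂ u) - g x₁) + g y₁) := by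
    rw [chy]; simp only [map_sub, map_mul, map_neg, map_add]
  have dY : δ (chy a x₁ y₁ x₂ y₂ u) =
      -((g y₁ - g y₂) * g u * (δ (chx a x₁ y₁ x₂ y₂ u) - δ x₁) +
        (g (chx a x₁ y₁ x₂ y₂ u) - g x₁) * ((g y₁ - g y₂) * δ u + g u * (δ y₁ - δ y₂)) + δ y₁) := by
    rw [chy, der_neg hδ, hδ.add, hδ.mul, hδ.mul, der_sub hδ, der_sub hδ, map_mul, map_sub, map_sub]
  set A := algebraMap R F a
  set B := algebraMap R F b
  set U := g u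
  set X1 := g x₁
  set X2 := g x₂
  set Y1 := g y₁
  set Y2 := g y₂
  set S := (Y1 - Y2) * U with hS
  have hne : X1 - X2 ≠ 0 := left_ne_zero_of_mul_eq_one hgu
  have hs : S * (X1 - X2) = Y1 - Y2 := by rw [hS]; linear_combination (Y1 - Y2) * hgu
  have K1 : 3 * X1 ^ 2 + 2 * A * X1 = 2 * S * Y1 - (S ^ 2 - A - X1 - X2 - X1) * (X1 - X2) := by
    apply mul_left_cancel₀ hne
    linear_combination ((S * (X1 - X2) + Y1 - Y2) - 2 * Y1) * hs - e1 + e2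
  have K2 : 3 * X2 ^ 2 + 2 * A * X2 = 2 * S * Y2 + (S ^ 2 - A - X1 - X2 - X2) * (X1 - X2) := by
    apply mul_left_cancel₀ hne
    linear_combination (-(S * (X1 - X2) + Y1 - Y2) - 2 * Y2) * hs - e1 + e2
  -- the derivative of the slope
  have dS : (Y1 - Y2) * δ u + U * (δ y₁ - δ y₂) =
      -(S ^ 2 - A - X1 - X2 - X1) * ω₁ - (S ^ 2 - A - X1 - X2 - X2) * ω₂ := by
    rw [du', dx1, dx2, dy1, dy2, K1, K2]
    linear_combination (-(S ^ 2 - A - X1 - X2 - X1) * ω₁ - (S ^ 2 - A - X1 - X2 - X2) * ω₂) * hgu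
  rw [dS, dx1, dx2] at dX
  rw [gX] at gY
  have dX' : δ (chx a x₁ y₁ x₂ y₂ u) = 2 * g (chy a x₁ y₁ x₂ y₂ u) * (ω₁ + ω₂) := by
    rw [dX, gY]
    linear_combination (-2 * ω₂) * hs
  refine ⟨dX', ?_⟩
  rw [dY, dS, dX', gY, gX, dx1, dy1]
  linear_combination (-ω₂ - 2 * ω₁) * K1
  
end Pool.Agent.VM.Y1p
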