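import Pool.Agent.Lib_VM.Y1_h38
import Pool.Agent.Lib_VM.A_chord_mv
import Pool.Agent.Lib_VM.A_chord_sp

set_option autoImplicit false

namespace Pool.Agent.VM.Y2p

open scoped Classical

variable {R O F : Type} [CommRing R] [CommRing O] [Algebra R O] [Field F] [Algebra R F]

theorem sp_neg {a b : R} {x y : O} (g : O →ₐ[R] F) {Q : Pt (SW a b) F} (h : Sp g x y Q) :
    Sp g x (-y) (-Q) := by
  obtain ⟨h0, hx, hy⟩ := h
  refine ⟨neg_ne_zero.2 h0, ?_, ?_⟩
  · rw [ptf_xc_neg, hx]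
  · rw [ptf_yc_neg, hy, map_neg]

theorem mv_neg {a : R} {x y : O} {g : O →ₐ[R] F} {δ : O → F} (hδ : Der g δ) {ω : F}
    (h : Mv a g δ x y ω) : Mv a g δ x (-y) (-ω) := by
  obtain ⟨hx, hy⟩ := h
  refine ⟨?_, ?_⟩
  · rw [hx, map_neg]; ring
  · rw [Y1p.der_neg hδ, hy]; ring

theorem LIN (a b : R) {κ : Type} [Field κ] [Algebra R κ] {E ι : Type} [Fintype ι]
    (g : E → (O →ₐ[R] κ)) (hunit : ∀ x : O, (∀ ε, g ε x ≠ 0) → IsUnit x)
    (x₀ y₀ : O) (x y : ι → O) (S : E → Pt (SW a b) κ) (Q : E → ι → Pt (SW a b) κ)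
    (hS : ∀ ε, Sp (g ε) x₀ y₀ (S ε)) (hQ : ∀ ε i, Sp (g ε) (x i) (y i) (Q ε i))
    (hind : ∀ ε (m : ι → ℤ), S ε + ∑ i, m i • Q ε i ≠ 0) (n : ι → ℤ) :
    ∃ X Y : O, ∀ (F : Type) [Field F] [Algebra R F] (h : O →ₐ[R] F) (S' : Pt (SW a b) F)
      (Q' : ι → Pt (SW a b) F), Sp h x₀ y₀ S' → (∀ i, Sp h (x i) (y i) (Q' i)) →
      Sp h X Y (S' + ∑ i, n i • Q' i) ∧
      ∀ (δ : O → F) (ω₀ : F) (ω : ι → F), Der h δ → Mv a h δ x₀ y₀ ω₀ →
        (∀ i, Mv a h δ (x i) (y i) (ω i)) → Mv a h δ X Y (ω₀ + ∑ i, (n i : F) * ω i) := by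
  let Good : (ι → ℤ) → Prop := fun n =>
    ∃ X Y : O, ∀ (F : Type) [Field F] [Algebra R F] (h : O →ₐ[R] F) (S' : Pt (SW a b) F)
      (Q' : ι → Pt (SW a b) F), Sp h x₀ y₀ S' → (∀ i, Sp h (x i) (y i) (Q' i)) →
      Sp h X Y (S' + ∑ i, n i • Q' i) ∧
      ∀ (δ : O → F) (ω₀ : F) (ω : ι → F), Der h δ → Mv a h δ x₀ y₀ ω₀ →
        (∀ i, Mv a h δ (x i) (y i) (ω i)) → Mv a h δ X Y (ω₀ + ∑ i, (n i : F) * ω i)
  change Good n
  have h0 : Good 0 := by
    refine ⟨x₀, y₀, fun F _ _ h S' Q' hS' hQ' => ⟨?_, fun δ ω₀ ω hδ m0 m => ?_⟩⟩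
    · simpa using hS'
    · simpa using m0
  have hne : ∀ (ε : E) (n : ι → ℤ) (i : ι), S ε + ∑ j, n j • Q ε j ≠ Q ε i ∧
      S ε + ∑ j, n j • Q ε j ≠ -Q ε i := by
    intro ε n i
    have hs : ∀ c : ℤ, ∑ j, (n + Pi.single i c : ι → ℤ) j • Q ε j =
        (∑ j, n j • Q ε j) + c • Q ε i := by
      intro c
      simp only [Pi.add_apply, add_smul, Finset.sum_add_distrib]
      congr 1
      rw [Finset.sum_eq_single i]
      · rw [Pi.single_eq_same]
      · intro j _ hj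
        rw [Pi.single_eq_of_ne hj, zero_smul]
      · intro hi
        exact absurd (Finset.mem_univ i) hi
    constructor
    · intro h
      apply hind ε (n + Pi.single i (-1))
      rw [hs, ← add_assoc, h]
      simp
    · intro h
      apply hind ε (n + Pi.single i 1)
      rw [hs, ← add_assoc, h]
      simp
  have hstep : ∀ (n : ι → ℤ) (i : ι) (s : ℤ), (s = 1 ∨ s = -1) → Good n →
      Good (n + Pi.single i s) := by
    rintro n i s hs ⟨X, Y, hXY⟩
    have hunit' : IsUnit (X - x i) := by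
      refine hunit _ fun ε => ?_
      rw [map_sub, sub_ne_zero]
      have h1 := (hXY κ (g ε) (S ε) (Q ε) (hS ε) (hQ ε)).1
      have h2 := hQ ε i
      rw [← h1.2.1, ← h2.2.1]
      intro h3
      rcases (ptf_xc_eq_iff h1.1 h2.1).1 h3 with h4 | h4
      · exact (hne ε n i).1 h4
      · exact (hne ε n i).2 h4
    obtain ⟨u, hu⟩ := hunit'.exists_right_inv
    -- the summand `s • Q`
    have hsum : ∀ {G : Type} [AddCommGroup G] (T : G) (Q' : ι → G),
        T + ∑ j, (n + Pi.single i s : ι → ℤ) j • Q' j = (T + ∑ j, n j • Q' j) + s • Q' i := by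
      intro G _ T Q'
      rw [add_assoc]
      congr 1
      simp only [Pi.add_apply, add_smul, Finset.sum_add_distrib]
      congr 1
      rw [Finset.sum_eq_single i]
      · rw [Pi.single_eq_same]
      · intro j _ hj
        rw [Pi.single_eq_of_ne hj, zero_smul]
      · intro hi
        exact absurd (Finset.mem_univ i) hi
    have hsum' : ∀ {G : Type} [Field G] (T : G) (Q' : ι → G),
        T + ∑ j, (((n + Pi.single i s : ι → ℤ) j : ℤ) : G) * Q' j =
          (T + ∑ j, (n j : G) * Q' j) + (s : G) * Q' i := by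
      intro G _ T Q'
      have := hsum T Q'
      simpa only [zsmul_eq_mul] using this
    rcases hs with rfl | rfl
    · refine ⟨chx a X Y (x i) (y i) u, chy a X Y (x i) (y i) u,
        fun F _ _ h S' Q' hS' hQ' => ⟨?_, fun δ ω₀ ω hδ m0 m => ?_⟩⟩
      · rw [hsum, one_smul]
        exact Y1p.chord_sp a b X Y (x i) (y i) u hu h _ _ (hXY F h S' Q' hS' hQ').1 (hQ' i)
      · rw [hsum', Int.cast_one, one_mul]
        exact Y1p.chord_mv a b X Y (x i) (y i) u hu h _ _ (hXY F h S' Q' hS' hQ').1 (hQ' i) δ hδ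
          _ _ ((hXY F h S' Q' hS' hQ').2 δ ω₀ ω hδ m0 m) (m i)
    · refine ⟨chx a X Y (x i) (-y i) u, chy a X Y (x i) (-y i) u,
        fun F _ _ h S' Q' hS' hQ' => ⟨?_, fun δ ω₀ ω hδ m0 m => ?_⟩⟩
      · rw [hsum, neg_smul, one_smul]
        exact Y1p.chord_sp a b X Y (x i) (-y i) u hu h _ _ (hXY F h S' Q' hS' hQ').1
          (sp_neg h (hQ' i))
      · rw [hsum', Int.cast_neg, Int.cast_one, neg_one_mul]
        exact Y1p.chord_mv a b X Y (x i) (-y i) u hu h _ _ (hXY F h S' Q' hS' hQ').1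
          (sp_neg h (hQ' i)) δ hδ _ _ ((hXY F h S' Q' hS' hQ').2 δ ω₀ ω hδ m0 m) (mv_neg hδ (m i))
  let T : AddSubgroup (ι → ℤ) :=
    { carrier := {n | (∀ m, Good m → Good (m + n)) ∧ ∀ m, Good m → Good (m + -n)}
      zero_mem' := by
        constructor <;> intro m hm <;> simpa using hm
      add_mem' := by
        rintro n₁ n₂ ⟨h1, h1'⟩ ⟨h2, h2'⟩
        constructor
        · intro m hm
          rw [← add_assoc]
          exact h2 _ (h1 _ hm)
        · intro m hm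
          rw [neg_add, ← add_assoc]
          exact h2' _ (h1' _ hm)
      neg_mem' := by
        rintro n₁ ⟨h1, h1'⟩
        refine ⟨h1', ?_⟩
        intro m hm
        rw [neg_neg]
        exact h1 m hm }
  have hT : ∀ i, (Pi.single i 1 : ι → ℤ) ∈ T := by
    intro i
    refine ⟨fun m hm => hstep m i 1 (Or.inl rfl) hm, fun m hm => ?_⟩
    rw [← Pi.single_neg]
    exact hstep m i (-1) (Or.inr rfl) hm
  have hn : n ∈ T := by
    have h1 : n = ∑ i, n i • (Pi.single i (1 : ℤ) : ι → ℤ) := by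
      funext j
      simp [Finset.sum_apply, Pi.single_apply]
    rw [h1]
    exact T.sum_mem fun i _ => T.zsmul_mem (hT i) _
  have := hn.1 0 h0
  rwa [zero_add] at this

end Pool.Agent.VM.Y2p
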