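import Mathlib

/-!
# MP_5582d1_ag, part IV, block Y3: Nakayama for the sheets
-/

set_option autoImplicit false

namespace Pool.Agent.VM.Y3p

open scoped Classical

section span
variable {R₀ A ι : Type} [CommRing R₀] [CommRing A] [Algebra R₀ A] [Fintype ι]

/-- the product of the `r i`, `i ∈ I` -/
private noncomputable def rI (r : ι → A) (I : Finset ι) : A := ∏ i ∈ I, r i

private theorem y3_mul (r : ι → A) (hr : ∀ i, ∃ s : R₀, r i ^ 2 = algebraMap R₀ A s) (i : ι)
    (x : A) (hx : x ∈ Submodule.span R₀ (Set.range (rI r))) :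
    r i * x ∈ Submodule.span R₀ (Set.range (rI r)) := by
  have h : Submodule.span R₀ (Set.range (rI r)) ≤
      (Submodule.span R₀ (Set.range (rI r))).comap (LinearMap.mulLeft R₀ (r i)) := by
    rw [Submodule.span_le]
    rintro _ ⟨I, rfl⟩
    show r i * rI r I ∈ Submodule.span R₀ (Set.range (rI r))
    by_cases hi : i ∈ I
    · obtain ⟨s, hs⟩ := hr i
      have h1 : r i * rI r I = s • rI r (I.erase i) := by
        rw [rI, rI, ← Finset.mul_prod_erase I r hi, ← mul_assoc, ← pow_two, hs, Algebra.smul_def]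
      rw [h1]
      exact Submodule.smul_mem _ _ (Submodule.subset_span ⟨_, rfl⟩)
    · have h1 : r i * rI r I = rI r (insert i I) := by
        rw [rI, rI, Finset.prod_insert hi]
      rw [h1]
      exact Submodule.subset_span ⟨_, rfl⟩
  exact h hx

private theorem y3_span (r : ι → A) (hr : ∀ i, ∃ s : R₀, r i ^ 2 = algebraMap R₀ A s)
    (hgen : Algebra.adjoin R₀ (Set.range r) = ⊤) :
    Submodule.span R₀ (Set.range (rI r)) = ⊤ := by
  rw [eq_top_iff]
  have h1 : ∀ x ∈ Algebra.adjoin R₀ (Set.range r), ∀ y ∈ Submodule.span R₀ (Set.range (rI r)),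
      x * y ∈ Submodule.span R₀ (Set.range (rI r)) := by
    intro x hx
    induction hx using Algebra.adjoin_induction with
    | mem x hx =>
      obtain ⟨i, rfl⟩ := hx
      exact fun y hy => y3_mul r hr i y hy
    | algebraMap c =>
      intro y hy
      rw [← Algebra.smul_def]
      exact Submodule.smul_mem _ _ hy
    | add a b _ _ ha hb =>
      intro y hy
      rw [add_mul]
      exact Submodule.add_mem _ (ha y hy) (hb y hy)
    | mul a b _ _ ha hb =>
      intro y hy
      rw [mul_assoc]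
      exact ha _ (hb y hy)
  intro x _
  have h2 := h1 x (by rw [hgen]; trivial) 1 (Submodule.subset_span ⟨∅, by simp [rI]⟩)
  rwa [mul_one] at h2

end span

/-- the character of a set of signs -/
private def chI {ι : Type} (k : Type) [Field k] (I : Finset ι) : (ι → ℤˣ) →* k where
  toFun ε := ((∏ i ∈ I, ((ε i : ℤˣ) : ℤ) : ℤ) : k)
  map_one' := by simp
  map_mul' ε ε' := by simp [Finset.prod_mul_distrib]

private theorem chI_inj {ι : Type} (k : Type) [Field k] [CharZero k] :
    Function.Injective (chI (ι := ι) k) := by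
  intro I J h
  by_contra hne
  have key : ∀ I J : Finset ι, chI k I = chI k J → ∀ i ∈ I, i ∈ J := by
    intro I J h i hi
    by_contra hj
    have h1 := DFunLike.congr_fun h (Pi.mulSingle i (-1))
    have h2 : ∏ j ∈ I, ((Pi.mulSingle (M := fun _ => ℤˣ) i (-1) j : ℤˣ) : ℤ) = -1 := by
      rw [Finset.prod_eq_single i]
      · simp
      · intro j _ hji
        rw [Pi.mulSingle_eq_of_ne hji]
        rfl
      · exact fun h => absurd hi h
    have h3 : ∏ j ∈ J, ((Pi.mulSingle (M := fun _ => ℤˣ) i (-1) j : ℤˣ) : ℤ) = 1 := by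
      refine Finset.prod_eq_one fun j hj' => ?_
      have hji : j ≠ i := fun h => hj (h ▸ hj')
      rw [Pi.mulSingle_eq_of_ne hji]
      rfl
    have h4 : ((-1 : ℤ) : k) = ((1 : ℤ) : k) := by
      have h5 : chI k I (Pi.mulSingle i (-1)) = ((-1 : ℤ) : k) := by
        show ((∏ j ∈ I, ((Pi.mulSingle (M := fun _ => ℤˣ) i (-1) j : ℤˣ) : ℤ) : ℤ) : k) = _
        rw [h2]
      have h6 : chI k J (Pi.mulSingle i (-1)) = ((1 : ℤ) : k) := by
        show ((∏ j ∈ J, ((Pi.mulSingle (M := fun _ => ℤˣ) i (-1) j : ℤˣ) : ℤ) : ℤ) : k) = _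
        rw [h3]
      rw [← h5, ← h6, h1]
    have h7 := Int.cast_injective h4
    norm_num at h7
  exact hne (Finset.ext fun i => ⟨key I J h i, key J I h.symm i⟩)

/-- a family of homomorphisms into `k` which separates points, on a ring whose image contains
the constants, is jointly surjective -/
private theorem y3_surj {B k E : Type} [CommRing B] [Field k] [Fintype E] (π : E → (B →+* k))
    (hc : ∀ c : k, ∃ b : B, ∀ ε, π ε b = c) (hs : ∀ ε ε', ε ≠ ε' → ∃ b, π ε b ≠ π ε' b)
    (v : E → k) : ∃ b : B, ∀ ε, π ε b = v ε := by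
  have hli : LinearIndependent k (fun ε : E => (fun b => π ε b : B → k)) := by
    have h1 := linearIndependent_monoidHom B k
    have h2 : Function.Injective (fun ε : E => ((π ε : B →+* k) : B →* k)) := by
      intro ε ε' h
      by_contra hne
      obtain ⟨b, hb⟩ := hs ε ε' hne
      exact hb (DFunLike.congr_fun h b)
    exact h1.comp _ h2
  -- the image is a subspace
  let V : Submodule k (E → k) :=
    { carrier := {v | ∃ b : B, ∀ ε, π ε b = v ε}
      add_mem' := by
        rintro v w ⟨b, hb⟩ ⟨c, hc⟩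
        exact ⟨b + c, fun ε => by rw [map_add, hb, hc]; rfl⟩
      zero_mem' := ⟨0, fun ε => by rw [map_zero]; rfl⟩
      smul_mem' := by
        rintro a v ⟨b, hb⟩
        obtain ⟨c, hc⟩ := hc a
        exact ⟨c * b, fun ε => by rw [map_mul, hb, hc]; rfl⟩ }
  have hV : V = ⊤ := by
    by_contra hne
    obtain ⟨f, hf0, hf⟩ := Submodule.exists_le_ker_of_lt_top V (lt_top_iff_ne_top.2 hne)
    apply hf0
    have h3 : ∑ ε, f (Pi.single ε 1) • (fun b => π ε b : B → k) = 0 := by
      funext b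
      have h4 : (fun ε => π ε b) ∈ V := ⟨b, fun _ => rfl⟩
      have h5 : f (fun ε => π ε b) = 0 := hf h4
      rw [← Finset.univ_sum_single (fun ε => π ε b), map_sum] at h5
      rw [Finset.sum_apply, Pi.zero_apply, ← h5]
      refine Finset.sum_congr rfl fun ε _ => ?_
      have h6 : Pi.single (M := fun _ => k) ε (π ε b) = (π ε b) • Pi.single ε (1 : k) := by
        rw [← Pi.single_smul, smul_eq_mul, mul_one]
      rw [h6, map_smul, Pi.smul_apply, smul_eq_mul, smul_eq_mul, mul_comm]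
    have h7 := Fintype.linearIndependent_iff.1 hli _ h3
    refine LinearMap.pi_ext' fun ε => LinearMap.ext_ring ?_
    simpa using h7 ε
  have h8 : v ∈ V := by rw [hV]; trivial
  exact h8

theorem NAK {R₀ A k ι : Type} [CommRing R₀] [IsLocalRing R₀] [CommRing A] [Algebra R₀ A] [Field k]
    [CharZero k] [Fintype ι] (r : ι → A) (hr : ∀ i, ∃ s : R₀, r i ^ 2 = algebraMap R₀ A s)
    (hgen : Algebra.adjoin R₀ (Set.range r) = ⊤) (π₀ : R₀ →+* k)
    (hπ₀ : Function.Surjective π₀) (hloc : ∀ a, π₀ a ≠ 0 → IsUnit a)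
    (π : (ι → ℤˣ) → (A →+* k)) (h0 : ∀ ε a, π ε (algebraMap R₀ A a) = π₀ a)
    (h1 : ∀ ε i, π ε (r i) = ((ε i : ℤ) : k) * π 1 (r i)) (h2 : ∀ i, π 1 (r i) ≠ 0) :
    (∀ a, (∀ ε, π ε a ≠ 0) → IsUnit a) ∧
    ∀ B : Subalgebra R₀ A, (∀ ε ε', ε ≠ ε' → ∃ b ∈ B, π ε b ≠ π ε' b) → B = ⊤ := by
  have hspan := y3_span r hr hgen
  have hfin : (⊤ : Submodule R₀ A).FG := by
    rw [← hspan]
    exact Submodule.fg_span (Set.finite_range _)
  have hm : ∀ c : R₀, π₀ c = 0 → c ∈ IsLocalRing.maximalIdeal R₀ := by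
    intro c hc
    rw [IsLocalRing.mem_maximalIdeal, mem_nonunits_iff]
    intro hu
    exact (hu.map π₀).ne_zero hc
  -- values of the products
  have hrI : ∀ ε I, π ε (rI r I) = chI k I ε * π 1 (rI r I) := by
    intro ε I
    show _ = ((∏ i ∈ I, ((ε i : ℤˣ) : ℤ) : ℤ) : k) * _
    rw [rI, map_prod, map_prod, Int.cast_prod, ← Finset.prod_mul_distrib]
    exact Finset.prod_congr rfl fun i _ => h1 ε i
  have hρ : ∀ I, π 1 (rI r I) ≠ 0 := by
    intro I
    rw [rI, map_prod]
    exact Finset.prod_ne_zero_iff.2 fun i _ => h2 i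
  -- the kernel
  have hker : ∀ a : A, (∀ ε, π ε a = 0) →
      a ∈ IsLocalRing.maximalIdeal R₀ • (⊤ : Submodule R₀ A) := by
    intro a ha
    have h3 : a ∈ Submodule.span R₀ (Set.range (rI r)) := by rw [hspan]; trivial
    obtain ⟨c, rfl⟩ := (Submodule.mem_span_range_iff_exists_fun R₀).1 h3
    have hli := (linearIndependent_monoidHom (ι → ℤˣ) k).comp (chI (ι := ι) k) (chI_inj k)
    have h4 : ∑ I : Finset ι, (π₀ (c I) * π 1 (rI r I)) • (chI k I : (ι → ℤˣ) → k) = 0 := by
      funext ε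
      have h5 := ha ε
      rw [map_sum] at h5
      rw [Finset.sum_apply, Pi.zero_apply, ← h5]
      refine Finset.sum_congr rfl fun I _ => ?_
      rw [Pi.smul_apply, smul_eq_mul, Algebra.smul_def (c I), map_mul, h0, hrI ε I]
      ring
    have h6 := Fintype.linearIndependent_iff.1 hli _ h4
    refine Submodule.sum_mem _ fun I _ => ?_
    refine Submodule.smul_mem_smul (hm _ ?_) trivial
    exact (mul_eq_zero.1 (h6 I)).resolve_right (hρ I)
  have hjac : IsLocalRing.maximalIdeal R₀ ≤ Ideal.jacobson ⊥ :=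
    (IsLocalRing.jacobson_eq_maximalIdeal ⊥ bot_ne_top).ge
  -- Nakayama
  have hnak : ∀ N : Submodule R₀ A, (∀ a : A, ∃ b ∈ N, ∀ ε, π ε a = π ε b) → N = ⊤ := by
    intro N hN
    rw [eq_top_iff]
    refine Submodule.le_of_le_smul_of_le_jacobson_bot hfin hjac ?_
    intro a _
    obtain ⟨b, hb, hab⟩ := hN a
    have h3 : a - b ∈ IsLocalRing.maximalIdeal R₀ • (⊤ : Submodule R₀ A) :=
      hker _ fun ε => by rw [map_sub, hab, sub_self]
    have h4 : a = b + (a - b) := by ring
    rw [h4]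
    exact Submodule.add_mem_sup hb h3
  constructor
  · intro a ha
    have hsep : ∀ ε ε' : ι → ℤˣ, ε ≠ ε' → ∃ b : A, π ε b ≠ π ε' b := by
      intro ε ε' hne
      obtain ⟨i, hi⟩ := Function.ne_iff.1 hne
      refine ⟨r i, fun h => hi ?_⟩
      rw [h1 ε, h1 ε'] at h
      have h3 := mul_right_cancel₀ (h2 i) h
      exact Units.ext (Int.cast_injective h3)
    obtain ⟨b, hb⟩ := y3_surj π (fun c => by
      obtain ⟨x, hx⟩ := hπ₀ c
      exact ⟨algebraMap R₀ A x, fun ε => by rw [h0, hx]⟩) hsep (fun ε => (π ε a)⁻¹)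
    have h3 : LinearMap.range (LinearMap.mulLeft R₀ a) = ⊤ := by
      refine hnak _ fun x => ⟨a * (b * x), ⟨b * x, rfl⟩, fun ε => ?_⟩
      rw [map_mul, map_mul, hb, mul_inv_cancel_left₀ (ha ε)]
    obtain ⟨x, hx⟩ := (LinearMap.range_eq_top.1 h3) 1
    exact IsUnit.of_mul_eq_one x hx
  · intro B hB
    have h3 : Subalgebra.toSubmodule B = ⊤ := by
      refine hnak _ fun a => ?_
      obtain ⟨b, hb⟩ := y3_surj (fun ε => (π ε).comp (B.val : B →+* A)) (fun c => by
        obtain ⟨x, hx⟩ := hπ₀ c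
        refine ⟨algebraMap R₀ B x, fun ε => ?_⟩
        show π ε (algebraMap R₀ A x) = c
        rw [h0, hx]) (fun ε ε' hne => by
        obtain ⟨b, hb, hbne⟩ := hB ε ε' hne
        exact ⟨⟨b, hb⟩, hbne⟩) (fun ε => π ε a)
      exact ⟨b, b.2, fun ε => (hb ε).symm⟩
    exact Algebra.toSubmodule_eq_top.1 h3

end Pool.Agent.VM.Y3p
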