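import Pool.Agent.Lib_VM.StubsIV_h38

/-!
# MP_5582d1_ag, part IV, block Y4: points and subfields
-/

set_option autoImplicit false
set_option linter.style.haveILetI false

namespace Pool.Agent.VM.Y4p

open Pool.Agent.VM
open scoped Classical
attribute [-instance] Subtype.instDecidableEq

section pts
variable {R K M N : Type} [CommRing R] [Field K] [Field M] [Field N] [Algebra R K] [Algebra R M]
  [Algebra R N] [Algebra K M] [Algebra K N] [IsScalarTower R K M] [IsScalarTower R K N]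
  {W : WeierstrassCurve R}

/-- Y4a -/
theorem xc_mp (f : M →ₐ[K] N) (Q : Pt W M) : xc (mp f Q) = f (xc Q) := by
  rcases Q with _ | ⟨x, y, h⟩
  · exact (map_zero f).symm
  · rfl

/-- Y4a -/
theorem yc_mp (f : M →ₐ[K] N) (Q : Pt W M) : yc (mp f Q) = f (yc Q) := by
  rcases Q with _ | ⟨x, y, h⟩
  · exact (map_zero f).symm
  · rfl

/-- Y4a -/
theorem cs_mp (f : M →ₐ[K] N) (Q : Pt W M) : cs (mp f Q) = f '' cs Q := by
  rw [cs, cs, Set.image_pair, xc_mp, yc_mp]

/-- Y4b: descent -/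
theorem pt_descend (a b : R) (F : IntermediateField K M) (Q : Pt (SW a b) M)
    (hQ : cs Q ⊆ F) : ∃ Q' : Pt (SW a b) F, mp F.val Q' = Q := by
  rcases Q with _ | ⟨x, y, h⟩
  · exact ⟨0, map_zero _⟩
  · have hx : x ∈ F := hQ (Or.inl rfl)
    have hy : y ∈ F := hQ (Or.inr rfl)
    have hn : ((SW a b).baseChange F).toAffine.Nonsingular (⟨x, hx⟩ : F) ⟨y, hy⟩ :=
      (WeierstrassCurve.Affine.baseChange_nonsingular (W := SW a b)
        (f := (F.val.restrictScalars R : F →ₐ[R] M)) Subtype.val_injective _ _).1 h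
    exact ⟨.some _ _ hn, rfl⟩

theorem cs_sub_of_mp (F : IntermediateField K M) (Q : Pt W F) : cs (mp F.val Q) ⊆ F := by
  rw [cs_mp]
  rintro _ ⟨z, -, rfl⟩
  exact z.2

/-- Y4c -/
theorem cs_add_sub (a b : R) (F : IntermediateField K M) (P Q : Pt (SW a b) M)
    (hP : cs P ⊆ F) (hQ : cs Q ⊆ F) : cs (P + Q) ⊆ F := by
  obtain ⟨P', rfl⟩ := pt_descend a b F P hP
  obtain ⟨Q', rfl⟩ := pt_descend a b F Q hQ
  rw [← map_add]
  exact cs_sub_of_mp F _

/-- Y4c -/
theorem cs_smul_sub (a b : R) (F : IntermediateField K M) (n : ℤ) (Q : Pt (SW a b) M)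
    (hQ : cs Q ⊆ F) : cs (n • Q) ⊆ F := by
  obtain ⟨Q', rfl⟩ := pt_descend a b F Q hQ
  rw [← map_zsmul]
  exact cs_sub_of_mp F _

/-- Y4c -/
theorem cs_kc_sub (a b : R) (F : IntermediateField K M) (c : Pt (SW a b) K) :
    cs (kc c : Pt (SW a b) M) ⊆ F := by
  rw [kc, cs_mp]
  rintro _ ⟨z, -, rfl⟩
  exact F.algebraMap_mem z

/-- Y4d: a constant does not change the field -/
theorem adjoin_cs_add_kc (a b : R) (Q : Pt (SW a b) M) (c : Pt (SW a b) K) :
    IntermediateField.adjoin K (cs (Q + kc c)) = IntermediateField.adjoin K (cs Q) := by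
  have key : ∀ (Q : Pt (SW a b) M) (c : Pt (SW a b) K),
      IntermediateField.adjoin K (cs (Q + kc c)) ≤ IntermediateField.adjoin K (cs Q) := by
    intro Q c
    rw [IntermediateField.adjoin_le_iff]
    exact cs_add_sub a b _ _ _ (IntermediateField.subset_adjoin K _) (cs_kc_sub a b _ c)
  refine le_antisymm (key Q c) ?_
  have h := key (Q + kc c) (-c)
  rwa [map_neg, add_neg_cancel_right] at h

/-- Y4e: an affine point with given coordinates -/
theorem pt_exists (a b : R) (hΔ : algebraMap R K (SW a b).Δ ≠ 0) (x y : M)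
    (h : y ^ 2 = x ^ 3 + algebraMap R M a * x ^ 2 + algebraMap R M b) :
    ∃ Q : Pt (SW a b) M, Q ≠ 0 ∧ xc Q = x ∧ yc Q = y := by
  have hΔ' : ((SW a b).baseChange M).Δ ≠ 0 := by
    rw [WeierstrassCurve.baseChange, WeierstrassCurve.map_Δ, IsScalarTower.algebraMap_apply R K M]
    exact (map_ne_zero_iff _ (algebraMap K M).injective).2 hΔ
  have he : ((SW a b).baseChange M).toAffine.Equation x y := by
    rw [WeierstrassCurve.Affine.equation_iff, ptf_a₁, ptf_a₂, ptf_a₃, ptf_a₄, ptf_a₆]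
    linear_combination h
  exact ⟨.some x y ((WeierstrassCurve.Affine.equation_iff_nonsingular_of_Δ_ne_zero hΔ').1 he),
    WeierstrassCurve.Affine.Point.some_ne_zero _, rfl, rfl⟩

/-- Y4f: `[M : K(A ∪ B)]` over `K(A)` -/
theorem dg_adjoin (A B : Set M) :
    dg (IntermediateField.adjoin K A) B = dg K (A ∪ B) := by
  unfold dg
  rw [← IntermediateField.adjoin_adjoin_left]
  rfl

end pts

end Pool.Agent.VM.Y4p
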