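import Pool.Agent.Lib_VM.StubsIV_h38
import Pool.Agent.Lib_helper15.VM.III
import Pool.Agent.Lib_VM.A_cs_add_sub
import Pool.Agent.Lib_VM.A_cs_mp
import Pool.Agent.Lib_VM.A_pt_descend
import Pool.Agent.Lib_VM.A_xc_mp

/-!
# MP_5582d1_ag, part IV: block Y5 (algebraic points form a pure subgroup)
-/

set_option autoImplicit false
set_option linter.style.haveILetI false

namespace Pool.Agent.VM.Y5p

open scoped Classical
open Pool.Agent.VM

attribute [-instance] Subtype.instDecidableEq

section pure
variable {R K M : Type} [CommRing R] [Field K] [CharZero K] [Field M] [Algebra R K] [Algebra R M]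
  [Algebra K M] [IsScalarTower R K M]

omit [CharZero K] in
/-- the `y`-coordinate of a point with algebraic `x`-coordinate -/
private theorem y5_yc (a b : R) (P : Pt (SW a b) M) (hP : IsAlgebraic K (xc P)) :
    IsAlgebraic K (yc P) := by
  by_cases h0 : P = 0
  · rw [h0]
    exact isAlgebraic_zero
  · have h1 : yc P ^ 2 = xc P ^ 3 + algebraMap K M (algebraMap R K a) * xc P ^ 2 +
        algebraMap K M (algebraMap R K b) := by
      rw [← IsScalarTower.algebraMap_apply, ← IsScalarTower.algebraMap_apply]
      exact ptf_sq h0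
    have h2 : IsAlgebraic K (yc P ^ 2) := by
      rw [h1]
      exact ((hP.pow 3).add ((isAlgebraic_algebraMap _).mul (hP.pow 2))).add
        (isAlgebraic_algebraMap _)
    exact IsAlgebraic.of_pow (by norm_num) h2

theorem alg_add (a b : R) (P Q : Pt (SW a b) M) (hP : IsAlgebraic K (xc P))
    (hQ : IsAlgebraic K (xc Q)) : IsAlgebraic K (xc (P + Q)) := by
  have h1 : ∀ P : Pt (SW a b) M, IsAlgebraic K (xc P) → cs P ⊆ algebraicClosure K M := by
    rintro P hP x (rfl | rfl)
    · exact mem_algebraicClosure_iff.2 hP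
    · exact mem_algebraicClosure_iff.2 (y5_yc a b P hP)
  have h2 := cs_add_sub a b (algebraicClosure K M) P Q (h1 P hP) (h1 Q hQ)
  exact mem_algebraicClosure_iff.1 (h2 (Or.inl rfl))

/-- the parallelogram law gives a quadratic function -/
private theorem y5_quad {G : Type} [AddCommGroup G] (h : G → ℕ)
    (hp : ∀ P Q : G, h (P + Q) + h (P - Q) = 2 * h P + 2 * h Q) (n : ℤ) (Q : G) :
    (h (n • Q) : ℤ) = n ^ 2 * h Q := by
  have h0 : h 0 = 0 := by
    have := hp 0 0
    rw [add_zero, sub_zero] at this
    omega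
  have hneg : ∀ P : G, h (-P) = h P := by
    intro P
    have := hp 0 P
    rw [zero_add, zero_sub, h0] at this
    omega
  have hnat : ∀ m : ℕ, (h (m • Q) : ℤ) = (m : ℤ) ^ 2 * h Q ∧
      (h ((m + 1) • Q) : ℤ) = ((m : ℤ) + 1) ^ 2 * h Q := by
    intro m
    induction m with
    | zero => simp [h0]
    | succ m ih =>
      refine ⟨by rw [ih.2]; push_cast; ring, ?_⟩
      have h1 := hp ((m + 1) • Q) Q
      have e1 : (m + 1) • Q + Q = (m + 1 + 1) • Q := by rw [succ_nsmul Q (m + 1)]
      have e2 : (m + 1) • Q - Q = m • Q := by rw [succ_nsmul, add_sub_cancel_right]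
      rw [e1, e2] at h1
      have h2 : (h ((m + 1 + 1) • Q) : ℤ) + h (m • Q) = 2 * h ((m + 1) • Q) + 2 * h Q := by
        exact_mod_cast h1
      rw [ih.1, ih.2] at h2
      push_cast
      linear_combination h2
  obtain ⟨m, rfl | rfl⟩ := n.eq_nat_or_neg
  · rw [natCast_zsmul]
    exact (hnat m).1
  · rw [neg_smul, natCast_zsmul, hneg, (hnat m).1]
    ring

theorem dg_smul (a b : R) (hΔ : algebraMap R K (SW a b).Δ ≠ 0)
    (hfg : (⊤ : IntermediateField K M).FG) (htr : Algebra.trdeg K M = 1) (n : ℤ)
    (Q : Pt (SW a b) M) : (dg K (cs (n • Q)) : ℤ) = n ^ 2 * dg K (cs Q) :=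
  y5_quad (fun P : Pt (SW a b) M => dg K (cs P)) (HQ a b hΔ hfg htr) n Q

omit [CharZero K] in
/-- `K(Q)` is generated by the coordinates of the descended point -/
private theorem y5_top (a b : R) (Q : Pt (SW a b) M)
    (Q' : Pt (SW a b) (IntermediateField.adjoin K (cs Q)))
    (h : mp (IntermediateField.adjoin K (cs Q)).val Q' = Q) :
    IntermediateField.adjoin K (cs Q') = ⊤ := by
  have h1 := cs_mp (IntermediateField.adjoin K (cs Q)).val Q'
  rw [h] at h1
  apply IntermediateField.map_injective (IntermediateField.adjoin K (cs Q)).val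
  rw [IntermediateField.adjoin_map, ← h1, ← AlgHom.fieldRange_eq_map,
    IntermediateField.fieldRange_val]

omit [CharZero K] in
/-- a field algebraic over `K(s)` has transcendence degree at most `#s` -/
private theorem y5_tr_le (s : Set M) (h : Algebra.IsAlgebraic (IntermediateField.adjoin K s) M) :
    Algebra.trdeg K M ≤ Cardinal.mk s := by
  open scoped IntermediateField.algebraAdjoinAdjoin in
  have : Algebra.IsAlgebraic (Algebra.adjoin K s) M :=
    Algebra.IsAlgebraic.trans _ (IntermediateField.adjoin K s) _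
  exact Algebra.IsAlgebraic.trdeg_le_cardinalMk _ _

omit [CharZero K] in
/-- `K(Q)` is algebraic over `K(xc Q)` -/
private theorem y5_alg (a b : R) {Q : Pt (SW a b) M} (hQ : Q ≠ 0)
    (htop : IntermediateField.adjoin K (cs Q) = ⊤) :
    Algebra.IsAlgebraic (IntermediateField.adjoin K {xc Q}) M := by
  have hsq : yc Q ^ 2 = xc Q ^ 3 + algebraMap K M (algebraMap R K a) * xc Q ^ 2 +
      algebraMap K M (algebraMap R K b) := by
    rw [← IsScalarTower.algebraMap_apply, ← IsScalarTower.algebraMap_apply]
    exact ptf_sq hQ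
  unfold cs at htop
  generalize xc Q = x at *
  generalize yc Q = y at *
  have hx : x ∈ IntermediateField.adjoin K {x} := IntermediateField.mem_adjoin_simple_self K x
  have hy2 : y ^ 2 ∈ IntermediateField.adjoin K {x} := by
    rw [hsq]
    exact add_mem (add_mem (pow_mem hx 3) (mul_mem (IntermediateField.algebraMap_mem _ _)
      (pow_mem hx 2))) (IntermediateField.algebraMap_mem _ _)
  have hy : IsAlgebraic (IntermediateField.adjoin K {x}) y := by
    refine IsAlgebraic.of_pow (n := 2) (by norm_num) ?_
    exact isAlgebraic_algebraMap (A := M) (⟨_, hy2⟩ : IntermediateField.adjoin K {x})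
  constructor
  intro z
  have hz : z ∈ IntermediateField.adjoin K {x, y} := by rw [htop]; trivial
  refine IntermediateField.adjoin_induction K
    (p := fun z _ => IsAlgebraic (IntermediateField.adjoin K {x}) z) ?_ ?_ ?_ ?_ ?_ hz
  · rintro w (rfl | rfl)
    · exact isAlgebraic_algebraMap (A := M) (⟨_, hx⟩ : IntermediateField.adjoin K {w})
    · exact hy
  · intro c
    exact isAlgebraic_algebraMap (A := M) (algebraMap K (IntermediateField.adjoin K {x}) c)
  · intro u v _ _ hu hv
    exact hu.add hv
  · intro u _ hu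
    exact hu.inv
  · intro u v _ _ hu hv
    exact hu.mul hv

theorem alg_of_smul (a b : R) (hΔ : algebraMap R K (SW a b).Δ ≠ 0) (n : ℤ) (hn : n ≠ 0)
    (Q : Pt (SW a b) M) (h : IsAlgebraic K (xc (n • Q))) : IsAlgebraic K (xc Q) := by
  by_contra hQ
  set F := IntermediateField.adjoin K (cs Q) with hF
  obtain ⟨Q', hQ'⟩ := pt_descend a b F Q (IntermediateField.subset_adjoin K _)
  have htop : IntermediateField.adjoin K (cs Q') = ⊤ := y5_top a b Q Q' hQ'
  have hx : F.val (xc Q') = xc Q := by rw [← xc_mp, hQ']
  have hxt : Transcendental K (xc Q') := by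
    intro h1
    apply hQ
    rw [← hx]
    exact h1.algHom F.val
  have hQ0 : Q' ≠ 0 := by
    rintro rfl
    exact hxt isAlgebraic_zero
  have hfg : (⊤ : IntermediateField K F).FG := by
    rw [← htop]
    exact IntermediateField.fg_adjoin_of_finite (by
      unfold cs
      exact Set.toFinite _)
  -- the transcendence degree
  have hle : Algebra.trdeg K F ≤ 1 := by
    have halg : Algebra.IsAlgebraic (IntermediateField.adjoin K {xc Q'}) F :=
      y5_alg a b hQ0 htop
    have h1 := y5_tr_le {xc Q'} halg
    rwa [Cardinal.mk_singleton] at h1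
  have hge : 1 ≤ Algebra.trdeg K F := by
    have h1 : AlgebraicIndependent K (fun _ : Unit => xc Q') := by
      rw [algebraicIndependent_unique_type_iff]
      exact hxt
    have h2 := h1.cardinalMk_le_trdeg
    rwa [Cardinal.mk_unit] at h2
  have htr : Algebra.trdeg K F = 1 := le_antisymm hle hge
  have h1 := dg_smul a b hΔ hfg htr n Q'
  have h2 : dg K (cs Q') = 1 := by
    unfold dg
    rw [htop]
    exact IntermediateField.finrank_top
  have h3 : dg K (cs (n • Q')) = 0 := by
    have h4 : IsAlgebraic K (xc (n • Q')) := by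
      have h5 : F.val (xc (n • Q')) = xc (n • Q) := by
        rw [← xc_mp, map_zsmul, hQ']
      rw [← h5] at h
      exact (isAlgebraic_algHom_iff F.val F.val.injective).1 h
    refine dg_alg htr _ ?_
    rintro x (rfl | rfl)
    · exact h4
    · exact y5_yc a b _ h4
  rw [h3, h2] at h1
  have h4 : n ^ 2 = 0 := by
    have := h1.symm
    push_cast at this
    linarith
  exact hn (pow_eq_zero_iff (by norm_num) |>.1 h4)

end pure

end Pool.Agent.VM.Y5p
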