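import Mathlib

/-!
# MP_5582d1_ag: block Y6b, square roots of power series
-/

set_option autoImplicit false

namespace Pool.Agent.VM

open scoped Classical

/-- the coefficients of the square root -/
noncomputable def y6b_g {κ : Type} [Field κ] (F : PowerSeries κ) (c : κ) : ℕ → κ
  | 0 => c
  | (n + 1) => (PowerSeries.coeff (n + 1) F -
      ∑ i : Fin n, y6b_g F c (i.1 + 1) * y6b_g F c (n - i.1)) / (2 * c)
  decreasing_by
    · have := i.2; omega
    · have := i.2; omega

/-- Y6b -/
theorem Y6bp.ps_sqrt {κ : Type} [Field κ] (h2 : (2 : κ) ≠ 0) (F : PowerSeries κ) (c : κ) (hc : c ≠ 0)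
    (hF : PowerSeries.constantCoeff F = c ^ 2) :
    ∃ G : PowerSeries κ, G ^ 2 = F ∧ PowerSeries.constantCoeff G = c := by
  refine ⟨PowerSeries.mk (y6b_g F c), ?_, ?_⟩
  · ext n
    rw [sq, PowerSeries.coeff_mul, Finset.Nat.sum_antidiagonal_eq_sum_range_succ_mk]
    simp only [PowerSeries.coeff_mk]
    rcases n with _ | n
    · rw [Finset.sum_range_one, Nat.sub_zero, y6b_g, PowerSeries.coeff_zero_eq_constantCoeff, hF, sq]
    · rw [Finset.sum_range_succ, Finset.sum_range_succ', Nat.sub_self, Nat.sub_zero]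
      have h0 : y6b_g F c 0 = c := by rw [y6b_g]
      have h1 : y6b_g F c (n + 1) * (2 * c) = PowerSeries.coeff (n + 1) F -
          ∑ i : Fin n, y6b_g F c (i.1 + 1) * y6b_g F c (n - i.1) := by
        rw [y6b_g, div_mul_cancel₀ _ (mul_ne_zero h2 hc)]
      have h3 : ∑ i : Fin n, y6b_g F c (i.1 + 1) * y6b_g F c (n - i.1) =
          ∑ k ∈ Finset.range n, y6b_g F c (k + 1) * y6b_g F c (n + 1 - (k + 1)) := by
        rw [Finset.sum_range]
        refine Finset.sum_congr rfl fun i _ => ?_
        rw [Nat.add_sub_add_right]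
      rw [h3] at h1
      rw [h0]
      linear_combination h1
  · rw [← PowerSeries.coeff_zero_eq_constantCoeff_apply, PowerSeries.coeff_mk, y6b_g]

end Pool.Agent.VM
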