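import Pool.Agent.Lib_VM.StubsIV_h38
import Pool.Agent.Lib_VM.A_cs_add_sub
import Pool.Agent.Lib_VM.A_cs_smul_sub

/-!
# MP_5582d1_ag, block Y7: unimodular transforms of generic triples
-/

set_option autoImplicit false
set_option linter.style.haveILetI false

namespace Pool.Agent.VM.Y7p

open scoped Classical
open Pool.Agent.VM

variable {M : Type} [Field M] [Algebra ℂ M] (w : Fin 3 → Pt E2 M)

private theorem cs_comb (F : IntermediateField ℂ M) (hF : ∀ j, cs (w j) ⊆ F) (a : Fin 3 → ℤ) :
    cs (comb a w) ⊆ F := by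
  unfold comb
  rw [Fin.sum_univ_three]
  exact cs_add_sub 0 1 F _ _ (cs_add_sub 0 1 F _ _ (cs_smul_sub 0 1 F _ _ (hF 0))
    (cs_smul_sub 0 1 F _ _ (hF 1))) (cs_smul_sub 0 1 F _ _ (hF 2))

private theorem comb_comb (A B : Matrix (Fin 3) (Fin 3) ℤ) (h : B * A = 1) (j : Fin 3) :
    comb (B j) (fun i => comb (A i) w) = w j := by
  unfold comb
  have h1 : ∀ k, ∑ i, B j i * A i k = (1 : Matrix (Fin 3) (Fin 3) ℤ) j k := by
    intro k
    rw [← h, Matrix.mul_apply]
  calc ∑ i, B j i • ∑ k, A i k • w k = ∑ k, (∑ i, B j i * A i k) • w k := by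
        simp only [Finset.smul_sum, Finset.sum_smul, smul_smul]
        exact Finset.sum_comm
    _ = ∑ k, ((1 : Matrix (Fin 3) (Fin 3) ℤ) j k) • w k := by simp only [h1]
    _ = w j := by
        rw [Finset.sum_eq_single j]
        · rw [Matrix.one_apply_eq, one_smul]
        · intro b _ hb
          rw [Matrix.one_apply_ne hb.symm, zero_smul]
        · intro hn
          exact absurd (Finset.mem_univ j) hn

/-- Y7b: the field generated by a unimodular transform -/
theorem adjoin_unimod (A : Matrix (Fin 3) (Fin 3) ℤ) (hA : IsUnit A.det) :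
    IntermediateField.adjoin ℂ (⋃ i, cs (comb (A i) w)) =
      IntermediateField.adjoin ℂ (⋃ j, cs (w j)) := by
  apply le_antisymm
  · rw [IntermediateField.adjoin_le_iff]
    refine Set.iUnion_subset fun i => ?_
    exact cs_comb w _ (fun j => (Set.subset_iUnion (fun j => cs (w j)) j).trans
      (IntermediateField.subset_adjoin ℂ _)) _
  · rw [IntermediateField.adjoin_le_iff]
    refine Set.iUnion_subset fun j => ?_
    have h := cs_comb (fun i => comb (A i) w)
      (IntermediateField.adjoin ℂ (⋃ i, cs (comb (A i) w)))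
      (fun i => (Set.subset_iUnion (fun i => cs (comb (A i) w)) i).trans
        (IntermediateField.subset_adjoin ℂ _)) (A⁻¹ j)
    rwa [comb_comb w A A⁻¹ (Matrix.nonsing_inv_mul A hA) j] at h

/-- Y7a: a unimodular transform of a generic triple is generic -/
theorem gen_unimod (hw : AlgebraicIndependent ℂ fun j => xc (w j)) (A : Matrix (Fin 3) (Fin 3) ℤ)
    (hA : IsUnit A.det) : AlgebraicIndependent ℂ fun i => xc (comb (A i) w) := by
  set F := IntermediateField.adjoin ℂ (⋃ i, cs (comb (A i) w)) with hF
  have hx : ∀ i, xc (comb (A i) w) ∈ F := fun i =>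
    IntermediateField.subset_adjoin ℂ _ (Set.mem_iUnion.2 ⟨i, Or.inl rfl⟩)
  have hx' : ∀ j, xc (w j) ∈ F := fun j => by
    rw [hF, adjoin_unimod w A hA]
    exact IntermediateField.subset_adjoin ℂ _ (Set.mem_iUnion.2 ⟨j, Or.inl rfl⟩)
  let x : Fin 3 → F := fun i => ⟨xc (comb (A i) w), hx i⟩
  let x' : Fin 3 → F := fun j => ⟨xc (w j), hx' j⟩
  have h1 : AlgebraicIndependent ℂ x' := AlgebraicIndependent.of_comp F.val hw
  have hle : Cardinal.mk (Fin 3) ≤ Algebra.trdeg ℂ F := h1.cardinalMk_le_trdeg
  have halg : Algebra.IsAlgebraic (Algebra.adjoin ℂ (Set.range x)) F := by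
    constructor
    rintro ⟨z, hz⟩
    induction hz using IntermediateField.adjoin_induction with
    | mem z hz =>
      obtain ⟨i, hi⟩ := Set.mem_iUnion.1 hz
      have hxA : x i ∈ Algebra.adjoin ℂ (Set.range x) := Algebra.subset_adjoin ⟨i, rfl⟩
      rcases hi with rfl | rfl
      · exact isAlgebraic_algebraMap (⟨x i, hxA⟩ : Algebra.adjoin ℂ (Set.range x))
      · by_cases h0 : comb (A i) w = 0
        · have e : (⟨yc (comb (A i) w), IntermediateField.subset_adjoin ℂ _ hz⟩ : F) = 0 := by
            apply Subtype.ext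
            show yc (comb (A i) w) = 0
            rw [h0]
            rfl
          rw [e]
          exact isAlgebraic_zero
        · refine IsAlgebraic.of_pow (n := 2) (by norm_num) ?_
          have e : (⟨yc (comb (A i) w), IntermediateField.subset_adjoin ℂ _ hz⟩ : F) ^ 2 =
              x i ^ 3 + 1 := by
            apply Subtype.ext
            show yc (comb (A i) w) ^ 2 = xc (comb (A i) w) ^ 3 + 1
            have := ptf_sq h0
            rw [this]
            simp
          rw [e]
          exact isAlgebraic_algebraMap (⟨x i ^ 3 + 1, add_mem (pow_mem hxA 3) (one_mem _)⟩ :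
            Algebra.adjoin ℂ (Set.range x))
    | algebraMap c =>
      exact isAlgebraic_algebraMap (algebraMap ℂ (Algebra.adjoin ℂ (Set.range x)) c)
    | add a b ha hb iha ihb => exact iha.add ihb
    | inv a ha iha => exact iha.inv
    | mul a b ha hb iha ihb => exact iha.mul ihb
  have h2 := Algebra.IsAlgebraic.isTranscendenceBasis_of_le_trdeg_of_finite (R := ℂ) x hle
  exact h2.1.map' (f := F.val) F.val.injective

end Pool.Agent.VM.Y7p
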