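import Pool.Agent.Lib_VM.StubsIV_h38
import Pool.Agent.Lib_helper15.VM.III

/-! helper41, MP_5582d1_ag, Y8: the core of NSQ, by the valuation of `K(e)` at the point `q`. -/

set_option autoImplicit false
set_option linter.style.haveILetI false

namespace Pool.Agent.VM.Y8p

open scoped Classical

attribute [-instance] Subtype.instDecidableEq

/-! ### Points over subfields -/

section sub
variable {R P F K : Type} [CommRing R] [CommRing P] [Field F] [Field K] [Algebra R P] [Algebra R F]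
    [Algebra R K] [Algebra P F] [Algebra P K] [IsScalarTower R P F] [IsScalarTower R P K]
    {W : WeierstrassCurve R}

private theorem xmp (f : F →ₐ[P] K) (p : Pt W F) : xc (mp f p) = f (xc p) := by
  rcases p with _ | ⟨x, y, h⟩
  · exact (map_zero f).symm
  · rfl

private theorem ymp (f : F →ₐ[P] K) (p : Pt W F) : yc (mp f p) = f (yc p) := by
  rcases p with _ | ⟨x, y, h⟩
  · exact (map_zero f).symm
  · rfl

private theorem mp0 (f : F →ₐ[P] K) {p : Pt W F} : mp f p = 0 ↔ p = 0 := by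
  constructor
  · intro h
    rcases p with _ | ⟨x, y, hp⟩
    · rfl
    · exact absurd h (WeierstrassCurve.Affine.Point.some_ne_zero _)
  · rintro rfl; exact map_zero _

private theorem ptext {p q : Pt W K} (hp : p ≠ 0) (hq : q ≠ 0) (hx : xc p = xc q)
    (hy : yc p = yc q) : p = q := by
  rcases p with _ | ⟨x, y, h⟩
  · exact absurd rfl hp
  rcases q with _ | ⟨x', y', h'⟩
  · exact absurd rfl hq
  change x = x' at hx
  change y = y' at hy
  subst hx; subst hy; rfl

/-- a point whose coordinates are in the image of a field is the image of a point -/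
private theorem mplift (f : F →ₐ[P] K) (p : Pt W K) (hx : ∃ a, f a = xc p)
    (hy : ∃ b, f b = yc p) : ∃ q : Pt W F, mp f q = p := by
  rcases p with _ | ⟨x, y, h⟩
  · exact ⟨0, map_zero _⟩
  obtain ⟨a, ha⟩ := hx
  obtain ⟨b, hb⟩ := hy
  change f a = x at ha
  change f b = y at hb
  subst ha; subst hb
  have h' : (W.baseChange F).toAffine.Nonsingular a b := by
    exact (WeierstrassCurve.Affine.baseChange_nonsingular W f.injective a b).1 h
  exact ⟨.some a b h', rfl⟩

end sub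

section pe
variable {K M : Type} [Field K] [Field M] [Algebra K M]

/-- points with coordinates in `E` -/
private noncomputable def PE (E : IntermediateField K M) : AddSubgroup (Pt E2 M) :=
  (mp (P := K) E.val : Pt E2 E →+ Pt E2 M).range

private theorem mem_PE {E : IntermediateField K M} {p : Pt E2 M} :
    p ∈ PE E ↔ xc p ∈ E ∧ yc p ∈ E := by
  constructor
  · rintro ⟨q, rfl⟩
    rw [xmp, ymp]
    exact ⟨(xc q).2, (yc q).2⟩
  · rintro ⟨h1, h2⟩
    obtain ⟨q, hq⟩ := mplift (P := K) E.val p ⟨⟨xc p, h1⟩, rfl⟩ ⟨⟨yc p, h2⟩, rfl⟩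
    exact ⟨q, hq⟩

private theorem kc_mem_PE (E : IntermediateField K M) (c : Pt E2 K) :
    (kc c : Pt E2 M) ∈ PE E := by
  rw [mem_PE, kc, xmp, ymp]
  exact ⟨E.algebraMap_mem _, E.algebraMap_mem _⟩

private theorem yc_sq {p : Pt E2 M} (hp : p ≠ 0) : yc p ^ 2 = xc p ^ 3 + 1 := by
  have := ptf_sq (R := ℤ) (a := 0) (b := 1) hp
  simpa using this

/-- the ordinate is algebraic if the abscissa is -/
private theorem yc_alg {p : Pt E2 M} (h : IsAlgebraic K (xc p)) : IsAlgebraic K (yc p) := by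
  rcases eq_or_ne p 0 with rfl | hp
  · exact isAlgebraic_zero
  have h2 : IsAlgebraic K (yc p ^ 2) := by
    rw [yc_sq hp]; exact (h.pow 3).add isAlgebraic_one
  exact h2.of_pow (by norm_num)

private theorem mem_PE_alg {p : Pt E2 M} (h : IsAlgebraic K (xc p)) :
    p ∈ PE (algebraicClosure K M) :=
  mem_PE.2 ⟨mem_algebraicClosure_iff.2 h, mem_algebraicClosure_iff.2 (yc_alg h)⟩

private theorem alg_of_mem_PE {p : Pt E2 M} (h : p ∈ PE (algebraicClosure K M)) :
    IsAlgebraic K (xc p) := mem_algebraicClosure_iff.1 (mem_PE.1 h).1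

end pe

/-! ### Residues -/

section res
variable {F : Type} [Field F] (u : QV F)

private theorem unit_of_res {a : F} (ha : a ∈ u.ring) (h : u.res a ≠ 0) : a ≠ 0 ∧ u.v a = 0 := by
  rw [Ne, u.res_eq_zero_iff ha, not_or, not_lt] at h
  exact ⟨h.1, le_antisymm h.2 ((u.mem_ring_of h.1).1 ha)⟩

private theorem mem_of_sub {a b : F} (hb : b ∈ u.ring) (h : 0 < u.v (a - b)) :
    a ∈ u.ring ∧ u.res a = u.res b := by
  have h1 : a - b ∈ u.ring := by
    rw [QV.mem_ring]; exact Or.inr h.le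
  have h2 : a = (a - b) + b := by ring
  constructor
  · rw [h2]; exact u.ring.add_mem _ _ h1 hb
  · rw [h2, u.res_add h1 hb, (u.res_eq_zero_iff h1).2 (Or.inr h), zero_add]

private theorem res_pow {a : F} (ha : a ∈ u.ring) (n : ℕ) :
    a ^ n ∈ u.ring ∧ u.res (a ^ n) = u.res a ^ n := by
  induction n with
  | zero => simp only [pow_zero]; exact ⟨u.ring.one_mem, u.res_one⟩
  | succ n ih => rw [pow_succ, pow_succ, u.res_mul ih.1 ha, ih.2]; exact ⟨u.ring.mul_mem _ _ ih.1 ha, rfl⟩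

private theorem res_cub {α x β c : F} (hα : α ∈ u.ring) (hx : x ∈ u.ring) (hβ : β ∈ u.ring)
    (hc : c ∈ u.ring) : (α * x + β) ^ 3 + (α * x + β) ^ 2 + c ∈ u.ring ∧
      u.res ((α * x + β) ^ 3 + (α * x + β) ^ 2 + c) =
        (u.res α * u.res x + u.res β) ^ 3 + (u.res α * u.res x + u.res β) ^ 2 + u.res c := by
  have h1 : α * x + β ∈ u.ring := u.ring.add_mem _ _ (u.ring.mul_mem _ _ hα hx) hβ
  have h2 : u.res (α * x + β) = u.res α * u.res x + u.res β := by
    rw [u.res_add (u.ring.mul_mem _ _ hα hx) hβ, u.res_mul hα hx]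
  have h3 := res_pow u h1 3
  have h4 := res_pow u h1 2
  have h5 := u.ring.add_mem _ _ h3.1 h4.1
  refine ⟨u.ring.add_mem _ _ h5 hc, ?_⟩
  rw [u.res_add h5 hc, u.res_add h3.1 h4.1, h3.2, h4.2, h2]

private theorem prod_unit {ι : Type} (S : Finset ι) (f : ι → F)
    (h : ∀ i, f i ≠ 0 ∧ u.v (f i) = 0) : ∏ i ∈ S, f i ≠ 0 ∧ u.v (∏ i ∈ S, f i) = 0 := by
  induction S using Finset.induction_on with
  | empty => simp [u.one]
  | insert i S hi ih =>
    rw [Finset.prod_insert hi]
    refine ⟨mul_ne_zero (h i).1 ih.1, ?_⟩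
    rw [u.mul (h i).1 ih.1, (h i).2, ih.2, add_zero]

end res

/-! ### Algebraic over `ℂ` -/

section cub
variable {K : Type} [Field K] [Algebra ℂ K]

/-- `f₁(al x + be) ≠ 0` if `x` is transcendental -/
private theorem cub_ne {x : K} (hx : Transcendental ℂ x) (al be l : ℂ) (hal : al ≠ 0) :
    (algebraMap ℂ K al * x + algebraMap ℂ K be) ^ 3 + (algebraMap ℂ K al * x + algebraMap ℂ K be) ^ 2
      + algebraMap ℂ K l ≠ 0 := by
  intro h
  have ht : IsAlgebraic ℂ (algebraMap ℂ K al * x + algebraMap ℂ K be) := by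
    refine ⟨Polynomial.X ^ 3 + Polynomial.X ^ 2 + Polynomial.C l, ?_, ?_⟩
    · intro h0
      have := congrArg (fun p => Polynomial.coeff p 3) h0
      simp [Polynomial.coeff_X_pow] at this
    · simpa using h
  apply hx
  have h1 : x = algebraMap ℂ K al⁻¹ * ((algebraMap ℂ K al * x + algebraMap ℂ K be) - algebraMap ℂ K be) := by
    have h2 : algebraMap ℂ K al ≠ 0 := (map_ne_zero _).2 hal
    rw [map_inv₀]; field_simp; ring
  rw [h1]
  exact (isAlgebraic_algebraMap _).mul (ht.sub (isAlgebraic_algebraMap _))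

end cub

/-! ### The local computation -/

section loc
variable {K E : Type} [Field K] [Algebra ℂ K] [Field E] [Algebra K E] [Algebra ℂ E]
  [IsScalarTower ℂ K E]

/-- the core, for `E = K(e)` -/
private theorem core (l : ℂ) {ι : Type} [Fintype ι] (e : Pt E2 E) (he : Transcendental K (xc e))
    (hg : IntermediateField.adjoin K (cs e) = ⊤)
    (q : Pt E2 ℂ) (hq : q ≠ 0) (hqy : yc q ≠ 0) (al be : ℂ) (hal : al ≠ 0)
    (hroot : (al * xc q + be) ^ 3 + (al * xc q + be) ^ 2 + l = 0)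
    (hsimple : 3 * (al * xc q + be) ^ 2 + 2 * (al * xc q + be) ≠ 0)
    (k : ι → ℤ) (d : ι → Pt E2 K) (hd : ∀ i, Transcendental ℂ (xc (d i))) (al' be' : ι → ℂ)
    (hal' : ∀ i, al' i ≠ 0) (s : E) :
    s ^ 2 ≠ ((algebraMap ℂ E al * xc e + algebraMap ℂ E be) ^ 3 +
      (algebraMap ℂ E al * xc e + algebraMap ℂ E be) ^ 2 + algebraMap ℂ E l) *
      ∏ i, ((algebraMap ℂ E (al' i) * xc (k i • e + kc (d i)) + algebraMap ℂ E (be' i)) ^ 3 +
        (algebraMap ℂ E (al' i) * xc (k i • e + kc (d i)) + algebraMap ℂ E (be' i)) ^ 2 +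
        algebraMap ℂ E l) := by
  haveI : CharZero K := charZero_of_injective_algebraMap (algebraMap ℂ K).injective
  set a : Pt E2 K := kc q with ha
  have hxa : xc a = algebraMap ℂ K (xc q) := xmp _ _
  have hya : yc a = algebraMap ℂ K (yc q) := ymp _ _
  have ha0 : a ≠ 0 := fun h => hq ((mp0 _).1 h)
  have hya0 : yc a ≠ 0 := by rw [hya]; exact (map_ne_zero _).2 hqy
  obtain ⟨u, hu⟩ := at_exists he hg a
  obtain ⟨u', hpl, huu⟩ := at_pl he hg a u hu
  have hri : ri a = 1 := by rw [ri, if_neg]; rintro (h | h); exacts [ha0 h, hya0 h]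
  -- the residue map on `K`
  have hK : ∀ x : K, algebraMap K E x ∈ u.ring := by
    intro x
    rcases eq_or_ne x 0 with rfl | hx
    · rw [map_zero]; exact u.ring.zero_mem
    · rw [QV.mem_ring]; exact Or.inr (hu.triv x hx).ge
  let j : K →+* u.κ := (IsLocalRing.residue u.ring).comp
    ((algebraMap K E).codRestrict u.ring.toSubring hK)
  have hj : ∀ x, u.res (algebraMap K E x) = j x := fun x => u.res_of_mem (hK x)
  letI : Algebra K u.κ := j.toAlgebra
  letI : Algebra ℂ u.κ := (j.comp (algebraMap ℂ K)).toAlgebra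
  haveI : IsScalarTower ℂ K u.κ := IsScalarTower.of_algebraMap_eq (fun _ => rfl)
  have hC : ∀ x : ℂ, algebraMap ℂ E x ∈ u.ring ∧ u.res (algebraMap ℂ E x) = algebraMap ℂ u.κ x := by
    intro x
    rw [IsScalarTower.algebraMap_apply ℂ K E]
    exact ⟨hK _, hj _⟩
  haveI : CharZero u.κ := charZero_of_injective_algebraMap (algebraMap ℂ u.κ).injective
  haveI : @IsScalarTower ℤ K u.κ Algebra.toSMul Algebra.toSMul Algebra.toSMul :=
    IsScalarTower.of_algebraMap_eq (fun r => by simp)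
  -- reduction of points
  have hZ : ∀ r : ℤ, algebraMap ℤ E r ∈ u.ring ∧
      u.res (algebraMap ℤ E r) = algebraMap ℤ u.κ r := by
    intro r
    have h := hC (r : ℂ)
    rw [map_intCast, map_intCast] at h
    simpa using h
  have hΔ : algebraMap ℤ u.κ (SW (0 : ℤ) 1).Δ ≠ 0 := by
    have h : (SW (0 : ℤ) 1).Δ = -432 := by
      simp [SW, WeierstrassCurve.Δ, WeierstrassCurve.b₂, WeierstrassCurve.b₄,
        WeierstrassCurve.b₆, WeierstrassCurve.b₈]
    rw [h]; simp
  obtain ⟨red, hr1, hr2⟩ := RED (R := ℤ) 0 1 u hZ two_ne_zero hΔ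
  have hkc : ∀ p : Pt E2 K, red (kc p) = kc p := by
    intro p
    rcases eq_or_ne p 0 with rfl | hp
    · simp
    have h1 : (kc p : Pt E2 E) ≠ 0 := fun h => hp ((mp0 _).1 h)
    have h2 : (kc p : Pt E2 u.κ) ≠ 0 := fun h => hp ((mp0 _).1 h)
    have hx : xc (kc p : Pt E2 E) = algebraMap K E (xc p) := xmp _ _
    have hy : yc (kc p : Pt E2 E) = algebraMap K E (yc p) := ymp _ _
    obtain ⟨h3, h4, h5⟩ := hr1 (kc p) h1 (by rw [hx]; exact hK _)
    refine ptext h3 h2 ?_ ?_
    · rw [h4, hx, hj, kc, xmp]; rfl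
    · rw [h5, hy, hj, kc, ymp]; rfl
  have hux : u.v (xc e - algebraMap K E (xc a)) = 1 := by
    rw [huu, hri, one_mul]; exact hpl.fin (xc a) (by rw [pr, if_neg ha0])
  have hc := hu.ctr ha0
  obtain ⟨hex, hexr⟩ := mem_of_sub u (hK (xc a)) hc.1
  obtain ⟨hey, heyr⟩ := mem_of_sub u (hK (yc a)) hc.2
  have he0 : e ≠ 0 := by rintro rfl; exact he isAlgebraic_zero
  have hrede : red e = kc a := by
    obtain ⟨h3, h4, h5⟩ := hr1 e he0 hex
    refine ptext h3 (fun h => ha0 ((mp0 _).1 h)) ?_ ?_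
    · rw [h4, hexr, hj, kc, xmp]; rfl
    · rw [h5, heyr, hj, kc, ymp]; rfl
  have hred : ∀ i, red (k i • e + kc (d i)) = kc (k i • a + d i) := by
    intro i; rw [map_add, map_zsmul, hrede, hkc, map_add, map_zsmul]
  have hD : ∀ i, Transcendental ℂ (xc (k i • a + d i)) := by
    intro i h
    apply hd i
    have h1 := mem_PE_alg (K := ℂ) (M := K) h
    have h2 : (a : Pt E2 K) ∈ PE (algebraicClosure ℂ K) := kc_mem_PE _ q
    have h3 : d i ∈ PE (algebraicClosure ℂ K) := by
      have := (PE (algebraicClosure ℂ K)).sub_mem h1 ((PE _).zsmul_mem h2 (k i))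
      simpa using this
    exact alg_of_mem_PE h3
  -- the other factors are units
  have hFi : ∀ i, ((algebraMap ℂ E (al' i) * xc (k i • e + kc (d i)) + algebraMap ℂ E (be' i)) ^ 3 +
        (algebraMap ℂ E (al' i) * xc (k i • e + kc (d i)) + algebraMap ℂ E (be' i)) ^ 2 +
        algebraMap ℂ E l) ≠ 0 ∧ u.v ((algebraMap ℂ E (al' i) * xc (k i • e + kc (d i)) +
        algebraMap ℂ E (be' i)) ^ 3 +
        (algebraMap ℂ E (al' i) * xc (k i • e + kc (d i)) + algebraMap ℂ E (be' i)) ^ 2 +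
        algebraMap ℂ E l) = 0 := by
    intro i
    have hne : k i • a + d i ≠ 0 := by
      intro h; apply hD i; rw [h]; exact isAlgebraic_zero
    have hrne : red (k i • e + kc (d i)) ≠ 0 := by
      rw [hred]; exact fun h => hne ((mp0 _).1 h)
    have hGmem : xc (k i • e + kc (d i)) ∈ u.ring := by
      by_contra h; exact hrne (hr2 _ h)
    have hG0 : k i • e + kc (d i) ≠ 0 := by
      intro h; apply hrne; rw [h, map_zero]
    have hx := (hr1 _ hG0 hGmem).2.1
    have hx' : u.res (xc (k i • e + kc (d i))) = algebraMap K u.κ (xc (k i • a + d i)) := by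
      rw [← hx, hred, kc, xmp]; rfl
    obtain ⟨hm, hv⟩ := res_cub u (hC (al' i)).1 hGmem (hC (be' i)).1 (hC l).1
    refine unit_of_res u hm ?_
    rw [hv, (hC _).2, (hC _).2, (hC _).2, hx']
    have h7 := cub_ne (hD i) (al' i) (be' i) l (hal' i)
    have h8 := (map_ne_zero (algebraMap K u.κ)).2 h7
    simpa only [map_add, map_mul, map_pow, ← IsScalarTower.algebraMap_apply ℂ K u.κ] using h8
  obtain ⟨hP0, hPv⟩ := prod_unit u Finset.univ _ hFi
  -- the first factor
  set T : E := xc e - algebraMap K E (xc a) with hT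
  have hT0 : T ≠ 0 := by
    intro h
    apply he
    rw [sub_eq_zero.1 h]; exact isAlgebraic_algebraMap _
  have hTmem : T ∈ u.ring := by rw [u.mem_ring_of hT0, hux]; norm_num
  have hTres : u.res T = 0 := (u.res_eq_zero_iff hTmem).2 (Or.inr (by rw [hux]; norm_num))
  set r : ℂ := al * xc q + be with hr
  have hX : xc e = T + algebraMap ℂ E (xc q) := by
    rw [hT, hxa, ← IsScalarTower.algebraMap_apply ℂ K E]; ring
  have hF0 : (algebraMap ℂ E al * xc e + algebraMap ℂ E be) ^ 3 +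
      (algebraMap ℂ E al * xc e + algebraMap ℂ E be) ^ 2 + algebraMap ℂ E l =
      T * (algebraMap ℂ E (al * (3 * r ^ 2 + 2 * r)) +
        T * (algebraMap ℂ E (al ^ 2 * (3 * r + 1)) + algebraMap ℂ E (al ^ 3) * T)) := by
    have h := congrArg (algebraMap ℂ E) hroot
    rw [hX]
    simp only [hr, map_add, map_mul, map_pow, map_zero, map_ofNat, map_one] at h ⊢
    linear_combination h
  have hG : algebraMap ℂ E (al * (3 * r ^ 2 + 2 * r)) +
        T * (algebraMap ℂ E (al ^ 2 * (3 * r + 1)) + algebraMap ℂ E (al ^ 3) * T) ≠ 0 ∧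
      u.v (algebraMap ℂ E (al * (3 * r ^ 2 + 2 * r)) +
        T * (algebraMap ℂ E (al ^ 2 * (3 * r + 1)) + algebraMap ℂ E (al ^ 3) * T)) = 0 := by
    have h1 : algebraMap ℂ E (al ^ 3) * T ∈ u.ring := u.ring.mul_mem _ _ (hC _).1 hTmem
    have h2 := u.ring.add_mem _ _ (hC (al ^ 2 * (3 * r + 1))).1 h1
    have h3 := u.ring.mul_mem _ _ hTmem h2
    refine unit_of_res u (u.ring.add_mem _ _ (hC _).1 h3) ?_
    rw [u.res_add (hC _).1 h3, u.res_mul hTmem h2, hTres, zero_mul, add_zero, (hC _).2]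
    exact (map_ne_zero _).2 (mul_ne_zero hal hsimple)
  intro hs
  rw [hF0] at hs
  have hRne := mul_ne_zero (mul_ne_zero hT0 hG.1) hP0
  have hs0 : s ≠ 0 := by
    rintro rfl
    rw [zero_pow two_ne_zero] at hs
    exact hRne hs.symm
  have hval := congrArg u.v hs
  rw [u.pow hs0, u.mul (mul_ne_zero hT0 hG.1) hP0, u.mul hT0 hG.1, hux, hG.2, hPv] at hval
  obtain ⟨n, hn⟩ := hu.int s hs0
  rw [hn] at hval
  have h9 : (2 : ℤ) * n = 1 := by exact_mod_cast (by simpa using hval : (2 : ℚ) * n = 1)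
  omega

end loc

/-- Y8 -/
theorem nsq_core (l : ℂ) {K L ι : Type} [Field K] [Algebra ℂ K] [Field L] [Algebra K L]
    [Algebra ℂ L] [IsScalarTower ℂ K L] [Fintype ι] (e : Pt E2 L) (he : Transcendental K (xc e))
    (q : Pt E2 ℂ) (hq : q ≠ 0) (hqy : yc q ≠ 0) (al be : ℂ) (hal : al ≠ 0)
    (hroot : (al * xc q + be) ^ 3 + (al * xc q + be) ^ 2 + l = 0)
    (hsimple : 3 * (al * xc q + be) ^ 2 + 2 * (al * xc q + be) ≠ 0)
    (k : ι → ℤ) (d : ι → Pt E2 K) (hd : ∀ i, Transcendental ℂ (xc (d i))) (al' be' : ι → ℂ)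
    (hal' : ∀ i, al' i ≠ 0) (F : ι → L)
    (hF : ∀ i, ∀ t, t = algebraMap ℂ L (al' i) * xc (k i • e + kc (d i)) +
      algebraMap ℂ L (be' i) → F i = t ^ 3 + t ^ 2 + algebraMap ℂ L l)
    (s : L) (hs : s ∈ IntermediateField.adjoin K (cs e)) :
    s ^ 2 ≠ ((algebraMap ℂ L al * xc e + algebraMap ℂ L be) ^ 3 +
      (algebraMap ℂ L al * xc e + algebraMap ℂ L be) ^ 2 + algebraMap ℂ L l) * ∏ i, F i := by
  set E := IntermediateField.adjoin K (cs e) with hE
  have hxE : xc e ∈ E := IntermediateField.subset_adjoin K _ (Or.inl rfl)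
  have hyE : yc e ∈ E := IntermediateField.subset_adjoin K _ (Or.inr rfl)
  obtain ⟨e', he'⟩ := mplift (P := K) E.val e ⟨⟨xc e, hxE⟩, rfl⟩ ⟨⟨yc e, hyE⟩, rfl⟩
  have hx' : ((xc e' : E) : L) = xc e := by rw [← he', xmp]; rfl
  have hy' : ((yc e' : E) : L) = yc e := by rw [← he', ymp]; rfl
  have het : Transcendental K (xc e') := by
    intro h
    apply he
    rw [← hx']
    exact h.algebraMap (A := L)
  have hg : IntermediateField.adjoin K (cs e') = ⊤ := by
    apply IntermediateField.lift_injective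
    rw [IntermediateField.lift_top, IntermediateField.lift_adjoin]
    have h1 : Subtype.val '' cs e' = cs e := by
      simp only [cs, Set.image_insert_eq, Set.image_singleton]
      rw [hx', hy']
    rw [h1]
  intro hcon
  apply core l e' het hg q hq hqy al be hal hroot hsimple k d hd al' be' hal' ⟨s, hs⟩
  apply Subtype.ext
  have hkc : ∀ i, ((xc (k i • e' + kc (d i)) : E) : L) = xc (k i • e + kc (d i)) := by
    intro i
    have h1 : mp (P := K) E.val (k i • e' + kc (d i)) = k i • e + kc (d i) := by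
      rw [map_add, map_zsmul, he']
      congr 1
      rcases eq_or_ne (d i) 0 with h0 | h0
      · rw [h0]; simp
      have h2 : (kc (d i) : Pt E2 L) ≠ 0 := fun h => h0 ((mp0 _).1 h)
      have h3 : (mp (P := K) E.val (kc (d i)) : Pt E2 L) ≠ 0 :=
        fun h => h0 ((mp0 _).1 ((mp0 _).1 h))
      refine ptext h3 h2 ?_ ?_
      · rw [xmp, kc, kc, xmp, xmp]; rfl
      · rw [ymp, kc, kc, ymp, ymp]; rfl
    rw [← h1, xmp]; rfl
  have hFi : ∀ i, F i = (algebraMap ℂ L (al' i) * xc (k i • e + kc (d i)) +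
      algebraMap ℂ L (be' i)) ^ 3 + (algebraMap ℂ L (al' i) * xc (k i • e + kc (d i)) +
      algebraMap ℂ L (be' i)) ^ 2 + algebraMap ℂ L l := fun i => hF i _ rfl
  have h4 : ∀ x : ℂ, ((algebraMap ℂ E x : E) : L) = algebraMap ℂ L x := fun x => rfl
  push_cast
  rw [hcon]
  simp only [hFi, hx', hkc, h4]

end Pool.Agent.VM.Y8p
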