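import Pool.Agent.Lib_VM.StubsIV_h38
import Pool.Agent.Lib_VM.A_pt_exists

/-!
# MP_5582d1_ag: block Y8b
-/

set_option autoImplicit false

namespace Pool.Agent.VM

open scoped Classical Polynomial

/-- Y8b -/
theorem Y8bp.ell_unimod (i : Fin 9) : ∃ A : Matrix (Fin 3) (Fin 3) ℤ, A.det = 1 ∧ A 2 = V.ell i ∧
    ∀ j, ∃ a b k : ℤ, V.ell j = a • A 0 + b • A 1 + k • A 2 ∧ (j ≠ i → a ≠ 0 ∨ b ≠ 0) := by
  -- `ell i = (p, q, r)` has an entry `±1`; the two other rows are unit vectors
  let B : Fin 9 → Matrix (Fin 3) (Fin 3) ℤ :=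
    ![!![0, 1, 0; 0, 0, 1; 1, 1, 1], !![0, 1, 0; 0, 0, 1; 1, 1, -1], !![0, 1, 0; 0, 0, 1; 1, -1, 1],
      !![0, 0, 1; 1, 0, 0; 2, 1, 0], !![1, 0, 0; 0, 0, 1; 2, -1, 0],
      !![1, 0, 0; 0, 1, 0; 0, 2, 1], !![0, 1, 0; 1, 0, 0; 0, 2, -1],
      !![0, 1, 0; 0, 0, 1; 1, 0, 2], !![0, 0, 1; 0, 1, 0; -1, 0, 2]]
  -- the coefficients
  let cfa : Fin 9 → Fin 9 → ℤ := fun i j =>
    ((V.ell j) ⬝ᵥ ((B i).adjugate.transpose 0))
  let cfb : Fin 9 → Fin 9 → ℤ := fun i j =>
    ((V.ell j) ⬝ᵥ ((B i).adjugate.transpose 1))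
  let cfk : Fin 9 → Fin 9 → ℤ := fun i j =>
    ((V.ell j) ⬝ᵥ ((B i).adjugate.transpose 2))
  have hdet : (B i).det = 1 := by
    fin_cases i <;> simp [B, Matrix.det_fin_three]
  refine ⟨B i, hdet, ?_, fun j => ⟨cfa i j, cfb i j, cfk i j, ?_, ?_⟩⟩
  · fin_cases i <;> rfl
  · have h := Matrix.adjugate_mul (B i)
    rw [hdet, one_smul] at h
    have h2 : Matrix.vecMul (Matrix.vecMul (V.ell j) (B i).adjugate) (B i) = V.ell j := by
      rw [Matrix.vecMul_vecMul, h, Matrix.vecMul_one]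
    rw [← h2]
    funext k
    simp only [Matrix.vecMul, dotProduct, Fin.sum_univ_three, cfa, cfb, cfk, Pi.add_apply,
      Pi.smul_apply, smul_eq_mul, Matrix.transpose_apply]
  · intro hne
    by_contra hcon
    push Not at hcon
    revert hne hcon
    simp only [cfa, cfb, Matrix.adjugate_fin_three]
    revert i j
    decide

/-- Y8b -/
theorem Y8bp.q_exists (l : ℂ) (hl : Transcendental ℚ l) (al be : ℂ) (hal : al ≠ 0) :
    ∃ q : Pt E2 ℂ, q ≠ 0 ∧ yc q ≠ 0 ∧ (al * xc q + be) ^ 3 + (al * xc q + be) ^ 2 + l = 0 ∧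
      3 * (al * xc q + be) ^ 2 + 2 * (al * xc q + be) ≠ 0 := by
  -- no double root
  have hl0 : l ≠ 0 := fun h => hl (h ▸ isAlgebraic_zero)
  have hl1 : l ≠ -4 / 27 := by
    intro h
    apply hl
    rw [h]
    have : (-4 / 27 : ℂ) = algebraMap ℚ ℂ (-4 / 27) := by simp
    rw [this]
    exact isAlgebraic_algebraMap _
  have hsimple : ∀ t : ℂ, t ^ 3 + t ^ 2 + l = 0 → 3 * t ^ 2 + 2 * t ≠ 0 := by
    intro t ht h0
    have h1 : t * (3 * t + 2) = 0 := by linear_combination h0
    rcases mul_eq_zero.1 h1 with h | h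
    · rw [h] at ht; apply hl0; linear_combination ht
    · have h2 : t = -2 / 3 := by linear_combination h / 3
      rw [h2] at ht; apply hl1; linear_combination ht
  -- a root with `x₀ ^ 3 + 1 ≠ 0`
  have hroot : ∃ t : ℂ, t ^ 3 + t ^ 2 + l = 0 ∧ (t - be) ^ 3 + al ^ 3 ≠ 0 := by
    by_contra hcon
    push Not at hcon
    let f : ℂ[X] := Polynomial.X ^ 3 + Polynomial.X ^ 2 + Polynomial.C l
    let g : ℂ[X] := (Polynomial.X - Polynomial.C be) ^ 3 + Polynomial.C (al ^ 3)
    have hfe : ∀ t, f.eval t = t ^ 3 + t ^ 2 + l := fun t => by simp [f]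
    have hge : ∀ t, g.eval t = (t - be) ^ 3 + al ^ 3 := fun t => by simp [g]
    have hfd : f.natDegree = 3 := by simp only [f]; compute_degree!
    have hfm : f.Monic := by simp only [f]; monicity!
    have hgd : g.natDegree = 3 := by
      have : g = Polynomial.X ^ 3 + Polynomial.C (-3 * be) * Polynomial.X ^ 2 +
          Polynomial.C (3 * be ^ 2) * Polynomial.X + Polynomial.C (-be ^ 3 + al ^ 3) := by
        simp only [g, Polynomial.C_mul, Polynomial.C_add, Polynomial.C_neg, Polynomial.C_pow]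
        simp only [map_ofNat]
        ring
      rw [this]
      compute_degree!
    have hgm : g.Monic := by
      have : g = Polynomial.X ^ 3 + Polynomial.C (-3 * be) * Polynomial.X ^ 2 +
          Polynomial.C (3 * be ^ 2) * Polynomial.X + Polynomial.C (-be ^ 3 + al ^ 3) := by
        simp only [g, Polynomial.C_mul, Polynomial.C_add, Polynomial.C_neg, Polynomial.C_pow]
        simp only [map_ofNat]
        ring
      rw [this]
      monicity!
    have hfs : f.Separable := by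
      rw [Polynomial.separable_def]
      refine (Polynomial.isCoprime_iff_aeval_ne_zero_of_isAlgClosed ℂ ℂ f _).2 fun t => ?_
      by_contra h
      push Not at h
      have h1 : t ^ 3 + t ^ 2 + l = 0 := by rw [← hfe, ← Polynomial.coe_aeval_eq_eval]; exact h.1
      have h2 : 3 * t ^ 2 + 2 * t = 0 := by
        have := h.2
        rw [Polynomial.coe_aeval_eq_eval] at this
        simp [f] at this
        linear_combination this
      exact hsimple t h1 h2
    have hdvd : f ∣ g := by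
      have hsp : f.Splits := IsAlgClosed.splits f
      refine (Polynomial.Splits.dvd_iff_roots_le_roots hsp hfm.ne_zero hgm.ne_zero).2 ?_
      refine (Multiset.le_iff_subset (Polynomial.nodup_roots hfs)).2 fun t ht => ?_
      rw [Polynomial.mem_roots hgm.ne_zero, Polynomial.IsRoot, hge]
      apply hcon
      rw [← hfe]
      exact (Polynomial.mem_roots hfm.ne_zero).1 ht
    have heq : f = g :=
      (Polynomial.eq_of_monic_of_dvd_of_natDegree_le hfm hgm hdvd (by rw [hfd, hgd])).symm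
    have h0 := hfe 0
    have h1 := hfe 1
    have h2 := hfe (-1)
    rw [heq, hge] at h0 h1 h2
    have h3 : be = -1 / 3 := by linear_combination (h0 + h0 - h1 - h2) / 6
    rw [h3] at h0 h1
    have h4 : (1 : ℂ) / 3 = 0 := by linear_combination h1 - h0
    norm_num at h4
  obtain ⟨t, ht, ht'⟩ := hroot
  set x : ℂ := (t - be) / al with hx
  have hxt : al * x + be = t := by rw [hx]; field_simp; ring
  have hx3 : x ^ 3 + 1 ≠ 0 := by
    intro h
    apply ht'
    have : (t - be) = al * x := by rw [hx]; field_simp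
    rw [this]
    linear_combination al ^ 3 * h
  obtain ⟨y, hy⟩ := IsAlgClosed.exists_pow_nat_eq (x ^ 3 + 1) (n := 2) (by norm_num)
  have hΔ : algebraMap ℤ ℂ (SW (0 : ℤ) 1).Δ ≠ 0 := by
    have : (SW (0 : ℤ) 1).Δ = -432 := by
      simp [SW, WeierstrassCurve.Δ, WeierstrassCurve.b₂, WeierstrassCurve.b₄, WeierstrassCurve.b₆,
        WeierstrassCurve.b₈]
    rw [this]
    norm_num
  obtain ⟨q, hq0, hqx, hqy⟩ := pt_exists (K := ℂ) (M := ℂ) (0 : ℤ) 1 hΔ x y (by
    rw [hy]; simp)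
  refine ⟨q, hq0, ?_, ?_, ?_⟩
  · rw [hqy]
    intro h
    apply hx3
    rw [← hy, h]
    norm_num
  · rw [hqx, hxt]
    exact ht
  · rw [hqx, hxt]
    exact hsimple t ht

end Pool.Agent.VM
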