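import Mathlib

/-!
# MP_5582d1_ag, part IV: Y9
-/

set_option autoImplicit false

namespace Pool.Agent.VM.Y9p

open scoped Classical

private theorem y9_zero {G : Type} [AddCommGroup G] (h : G → ℤ)
    (hp : ∀ x y, h (x + y) + h (x - y) = 2 * h x + 2 * h y) : h 0 = 0 := by
  have := hp 0 0
  rw [add_zero, sub_zero] at this
  linarith

private theorem y9_neg {G : Type} [AddCommGroup G] (h : G → ℤ)
    (hp : ∀ x y, h (x + y) + h (x - y) = 2 * h x + 2 * h y) (x : G) : h (-x) = h x := by
  have := hp 0 x
  rw [zero_add, zero_sub, y9_zero h hp] at this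
  linarith

private theorem y9_nsmul {G : Type} [AddCommGroup G] (h : G → ℤ)
    (hp : ∀ x y, h (x + y) + h (x - y) = 2 * h x + 2 * h y) (x : G) (n : ℕ) :
    h (n • x) = (n : ℤ) ^ 2 * h x ∧ h ((n + 1) • x) = ((n : ℤ) + 1) ^ 2 * h x := by
  induction n with
  | zero => simp [y9_zero h hp]
  | succ n ih =>
    refine ⟨by push_cast; exact ih.2, ?_⟩
    have h1 := hp ((n + 1) • x) x
    have e1 : (n + 1) • x + x = (n + 1 + 1) • x := by rw [succ_nsmul x (n + 1)]
    have e2 : (n + 1) • x - x = n • x := by rw [succ_nsmul x n]; abel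
    rw [e1, e2, ih.1, ih.2] at h1
    push_cast
    linarith

private theorem y9_zsmul {G : Type} [AddCommGroup G] (h : G → ℤ)
    (hp : ∀ x y, h (x + y) + h (x - y) = 2 * h x + 2 * h y) (x : G) (n : ℤ) :
    h (n • x) = n ^ 2 * h x := by
  obtain ⟨m, rfl | rfl⟩ := n.eq_nat_or_neg
  · rw [natCast_zsmul]; exact (y9_nsmul h hp x m).1
  · rw [neg_smul, natCast_zsmul, y9_neg h hp, (y9_nsmul h hp x m).1]; ring

/-- Y9. Proof: `h (R + n Q) = h (R - n Q)` gives `h (R + n Q) = h R + n² h Q`; induction. -/
theorem quad_diag {G ι : Type} [AddCommGroup G] [Fintype ι] (h : G → ℤ)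
    (hp : ∀ x y, h (x + y) + h (x - y) = 2 * h x + 2 * h y) (Q : ι → G)
    (hs : ∀ (i : ι) (n : ι → ℤ), h (∑ j, (if j = i then -n j else n j) • Q j) =
      h (∑ j, n j • Q j)) (n : ι → ℤ) :
    h (∑ j, n j • Q j) = ∑ j, n j ^ 2 * h (Q j) := by
  have key : ∀ s : Finset ι, h (∑ j ∈ s, n j • Q j) = ∑ j ∈ s, n j ^ 2 * h (Q j) := by
    intro s
    induction s using Finset.induction_on with
    | empty => simp [y9_zero h hp]
    | insert i s hi ih =>
      rw [Finset.sum_insert hi, Finset.sum_insert hi]
      have h1 := hs i (fun j => if j ∈ insert i s then n j else 0)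
      have e1 : ∑ j, (if j ∈ insert i s then n j else 0) • Q j =
          n i • Q i + ∑ j ∈ s, n j • Q j := by
        rw [← Finset.sum_insert (f := fun j => n j • Q j) hi,
          ← Finset.sum_filter_add_sum_filter_not Finset.univ (fun j => j ∈ insert i s)]
        have e3 : ∑ j ∈ Finset.univ.filter (fun j => ¬ j ∈ insert i s),
            (if j ∈ insert i s then n j else 0) • Q j = 0 := by
          apply Finset.sum_eq_zero
          intro j hj
          rw [if_neg (Finset.mem_filter.1 hj).2, zero_smul]
        rw [e3, add_zero]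
        have e4 : Finset.univ.filter (fun j => j ∈ insert i s) = insert i s := by ext; simp
        rw [e4]
        refine Finset.sum_congr rfl fun j hj => ?_
        rw [if_pos hj]
      have e2 : ∑ j, (if j = i then -(if j ∈ insert i s then n j else 0) else
          (if j ∈ insert i s then n j else 0)) • Q j = -(n i • Q i) + ∑ j ∈ s, n j • Q j := by
        have e3 : ∀ j, (if j = i then -(if j ∈ insert i s then n j else 0) else
          (if j ∈ insert i s then n j else 0)) • Q j =
            (if j ∈ insert i s then n j else 0) • Q j - (if j = i then (2 * n i) • Q i else 0) := by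
          intro j
          by_cases hj : j = i
          · subst hj
            simp only [if_true, Finset.mem_insert_self]
            rw [two_mul, neg_smul, add_smul]; abel
          · simp only [if_neg hj, sub_zero]
        rw [Finset.sum_congr rfl fun j _ => e3 j, Finset.sum_sub_distrib, e1,
          Finset.sum_ite_eq' Finset.univ i (fun _ => (2 * n i) • Q i)]
        simp only [Finset.mem_univ, if_true]
        rw [two_mul, add_smul]; abel
      rw [e1, e2] at h1
      have h2 := hp (∑ j ∈ s, n j • Q j) (n i • Q i)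
      rw [show ∑ j ∈ s, n j • Q j + n i • Q i = n i • Q i + ∑ j ∈ s, n j • Q j by abel,
        show ∑ j ∈ s, n j • Q j - n i • Q i = -(n i • Q i) + ∑ j ∈ s, n j • Q j by abel, h1,
        y9_zsmul h hp, ih] at h2
      linarith
  exact key Finset.univ

end Pool.Agent.VM.Y9p
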