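import Pool.Agent.Lib_VM.StubsIV_h38
import Pool.Agent.Lib_VM.A_YD_dg

/-!
# MP_5582d1_ag, block YG (helper80)
-/

set_option autoImplicit false

namespace Pool.Agent.VM.YGp

open Pool.Agent.VM
open scoped Classical

/-- the determinant as a product with the cross product -/
private theorem det_crs (m n v : Fin 3 → ℤ) (A : Matrix (Fin 3) (Fin 3) ℤ) (h0 : A 0 = m)
    (h1 : A 1 = n) (h2 : A 2 = v) : A.det =
    v 0 * V.crs m n 0 + v 1 * V.crs m n 1 + v 2 * V.crs m n 2 := by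
  subst h0 h1 h2
  rw [Matrix.det_fin_three]
  simp [V.crs]
  ring

/-- YG (IV3) -/
theorem YG {l : ℂ} (hl : Transcendental ℚ l) (Y : SubVar l) (hY : IsY Y) :
    V.Fp (fun a m m' => (Y.G a m m' : ℚ)) = 0 := by
  obtain ⟨P, c, al, be, zc, hal, hP0, hxP, hz, hw, htop, -⟩ := hY
  have hD : YD l Y.w P c al be := ⟨hw, hal, hP0, hxP, htop⟩
  have key : ∀ k : Fin 21, (Y.G (V.av k) (V.mv k) (V.nv k) : ℚ) =
      (2 ^ 9 : ℚ) * ∑ i, V.dt (V.av k) (fun j => (V.rho i j : ℚ)) ^ 2 *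
        V.dt (V.crs (V.mv k) (V.nv k)) (fun j => (V.ell i j : ℚ)) ^ 2 := by
    intro k
    obtain ⟨v, hv⟩ := V.mn_unimodular k
    obtain ⟨A, hA0, hA1, hA2⟩ : ∃ A : Matrix (Fin 3) (Fin 3) ℤ, A 0 = V.mv k ∧ A 1 = V.nv k ∧
        A 2 = v := ⟨![V.mv k, V.nv k, v], rfl, rfl, rfl⟩
    have hA : IsUnit A.det := by
      rw [det_crs _ _ _ A hA0 hA1 hA2, hv]
      exact isUnit_one
    have hcomb : comb (V.av k) Y.z = kc (∑ j, V.av k j • zc j) +
        ∑ i, (∑ j, V.av k j * V.rho i j) • P i := by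
      unfold comb
      rw [map_sum]
      simp only [hz, smul_add, map_zsmul, Finset.sum_add_distrib, Finset.smul_sum]
      congr 1
      rw [Finset.sum_comm]
      refine Finset.sum_congr rfl fun i _ => ?_
      rw [Finset.sum_smul]
      refine Finset.sum_congr rfl fun j _ => ?_
      rw [mul_smul]
    have h1 := YD_dg hl hD A hA (∑ j, V.av k j • zc j) (fun i => ∑ j, V.av k j * V.rho i j)
    rw [hA0, hA1, ← hcomb] at h1
    have h2 : (Y.G (V.av k) (V.mv k) (V.nv k) : ℤ) =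
        2 ^ 9 * ∑ i, (∑ j, V.av k j * V.rho i j) ^ 2 *
          (V.ell i 0 * V.crs (V.mv k) (V.nv k) 0 + V.ell i 1 * V.crs (V.mv k) (V.nv k) 1 +
            V.ell i 2 * V.crs (V.mv k) (V.nv k) 2) ^ 2 := by
      refine Eq.trans ?_ (h1.trans ?_)
      · rfl
      · refine congrArg _ (Finset.sum_congr rfl fun i _ => ?_)
        rw [det_crs (V.mv k) (V.nv k) (V.ell i) _ rfl rfl rfl]
    have h3 : (Y.G (V.av k) (V.mv k) (V.nv k) : ℚ) = ((2 ^ 9 * ∑ i, (∑ j, V.av k j * V.rho i j) ^ 2 *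
          (V.ell i 0 * V.crs (V.mv k) (V.nv k) 0 + V.ell i 1 * V.crs (V.mv k) (V.nv k) 1 +
            V.ell i 2 * V.crs (V.mv k) (V.nv k) 2) ^ 2 : ℤ) : ℚ) := by
      rw [← h2]
      push_cast
      rfl
    rw [h3]
    push_cast
    refine congrArg _ (Finset.sum_congr rfl fun i _ => ?_)
    unfold V.dt
    rw [Fin.sum_univ_three]
    ring
  have hF : V.Fp (fun a m m' => (Y.G a m m' : ℚ)) =
      V.Fp (fun a m n => (2 ^ 9 : ℚ) * ∑ k, V.dt a (fun i => (V.rho k i : ℚ)) ^ 2 *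
        V.dt (V.crs m n) (fun i => (V.ell k i : ℚ)) ^ 2) := by
    rw [V.Fp_sum, V.Fp_sum]
    congr 1
    refine Finset.sum_congr rfl fun k _ => ?_
    rw [key k]
  rw [hF]
  exact V.Fp_zeros _ _ fun _ _ _ => rfl

end Pool.Agent.VM.YGp
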