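import Pool.Agent.Lib_VM.Base_h71
import Pool.Agent.Lib_VM.StubsVI_h71
import Pool.Agent.Lib_VM.A_GEN3b

/-!
# MP_5582d1_ag, block Z0 (helper21)
-/

set_option autoImplicit false
set_option linter.style.haveILetI false

namespace Pool.Agent.VM.Z0p

open Pool.Agent.VM
open scoped Classical Cardinal
open IntermediateField

attribute [-instance] Subtype.instDecidableEq

theorem dg_one {P M : Type} [Field P] [Field M] [Algebra P M] {S : Set M}
    (h : IntermediateField.adjoin P S = ⊤) : dg P S = 1 := by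
  unfold dg
  rw [h]
  exact IntermediateField.finrank_top

theorem dg_zero {P M : Type} [Field P] [Field M] [Algebra P M] {S t : Set M}
    (h3 : Algebra.trdeg P M = 3) (ht : #t < 3)
    (hS : ∀ x ∈ S, IsAlgebraic (adjoin P t) x) : dg P S = 0 := by
  unfold dg
  by_contra h0
  have hf : Module.Finite (adjoin P S) M := Module.finite_of_finrank_pos
    (Nat.pos_of_ne_zero h0)
  -- the elements of `M` which are algebraic over `P(t)`
  have ha : Algebra.IsAlgebraic (adjoin P t) M := by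
    let A : IntermediateField (adjoin P t) M := algebraicClosure (adjoin P t) M
    have hA : Algebra.IsAlgebraic (adjoin P t) A := inferInstance
    have hSA : adjoin P S ≤ A.restrictScalars P := by
      rw [adjoin_le_iff]
      intro x hx
      exact mem_algebraicClosure_iff.2 (hS x hx)
    have hAM : Algebra.IsAlgebraic A M := by
      refine ⟨fun m => ?_⟩
      have h1 : IsAlgebraic (adjoin P S) m := Algebra.IsAlgebraic.isAlgebraic m
      obtain ⟨f, hf0, hfm⟩ := h1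
      let i : adjoin P S →+* A :=
        { toFun := fun x => ⟨x.1, hSA x.2⟩
          map_one' := rfl
          map_mul' := fun _ _ => rfl
          map_zero' := rfl
          map_add' := fun _ _ => rfl }
      refine ⟨f.map i, ?_, ?_⟩
      · exact (Polynomial.map_ne_zero_iff i.injective).2 hf0
      · rw [Polynomial.aeval_def, Polynomial.eval₂_map]
        exact hfm
    exact Algebra.IsAlgebraic.trans (adjoin P t) A M
  have := tr_le_of_alg t ha
  rw [h3] at this
  exact absurd ht (not_lt.mpr this)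

section
variable {R F : Type} [CommRing R] [Field F] [Algebra R F] {a b : R}

theorem xc_zero : xc (0 : Pt (SW a b) F) = 0 := rfl
theorem yc_zero : yc (0 : Pt (SW a b) F) = 0 := rfl

theorem yc_sq (Q : Pt (SW a b) F) (hQ : Q ≠ 0) :
    yc Q ^ 2 = xc Q ^ 3 + algebraMap R F a * xc Q ^ 2 + algebraMap R F b := by
  match Q, hQ with
  | .zero, h => exact absurd rfl h
  | .some x y h, _ =>
    have := (WeierstrassCurve.Affine.equation_iff _ _).mp h.1
    simp [SW, WeierstrassCurve.baseChange, WeierstrassCurve.map] at this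
    simp only [xc, yc]
    linear_combination this

end

theorem alg_of_mem {P M : Type} [Field P] [Field M] [Algebra P M] {t : Set M} {x : M}
    (hx : x ∈ adjoin P t) : IsAlgebraic (adjoin P t) x :=
  isAlgebraic_algebraMap (⟨x, hx⟩ : adjoin P t)

theorem cs_alg {R P M : Type} [CommRing R] [Field P] [Field M] [Algebra P M] [Algebra R P]
    [Algebra R M] [IsScalarTower R P M] {a b : R} (Q : Pt (SW a b) M) (t : Set M)
    (hQ : Q = 0 ∨ xc Q ∈ t) : ∀ x ∈ cs Q, IsAlgebraic (adjoin P t) x := by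
  by_cases h : Q = 0
  · subst h
    intro x hx
    have : x = 0 := by
      rcases hx with hx | hx
      · exact hx
      · exact hx
    rw [this]
    exact alg_of_mem (zero_mem _)
  · have hx : xc Q ∈ adjoin P t := subset_adjoin _ _ (hQ.resolve_left h)
    have hR : ∀ r : R, algebraMap R M r ∈ adjoin P t := fun r => by
      rw [IsScalarTower.algebraMap_apply R P M]
      exact IntermediateField.algebraMap_mem _ _
    have hy : IsAlgebraic (adjoin P t) (yc Q) := by
      have h2 : yc Q ^ 2 ∈ adjoin P t := by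
        rw [yc_sq Q h]
        exact add_mem (add_mem (pow_mem hx 3) (mul_mem (hR a) (pow_mem hx 2))) (hR b)
      have h3 : IsIntegral (adjoin P t) (yc Q ^ 2) := (alg_of_mem h2).isIntegral
      exact (IsIntegral.of_pow (by norm_num) h3).isAlgebraic
    intro x hx'
    rcases hx' with h1 | h1
    · rw [h1]; exact alg_of_mem hx
    · rw [h1]; exact hy

theorem card_pair {M : Type} (x y : M) : #({x, y} : Set M) < 3 := by
  have h1 : #({x, y} : Set M) ≤ #({y} : Set M) + 1 := Cardinal.mk_insert_le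
  rw [Cardinal.mk_singleton] at h1
  refine lt_of_le_of_lt h1 ?_
  norm_num

/-- the set of coordinates of three points, one of which is `0`, does not generate -/
theorem dg3_zero {R R' P M : Type} [CommRing R] [CommRing R'] [Field P] [Field M] [Algebra P M]
    [Algebra R P] [Algebra R M] [IsScalarTower R P M] [Algebra R' P] [Algebra R' M]
    [IsScalarTower R' P M] {a b : R} {c d : R'} (h3 : Algebra.trdeg P M = 3)
    (Q : Pt (SW a b) M) (Q₁ Q₂ : Pt (SW c d) M) (h : Q = 0 ∨ Q₁ = 0 ∨ Q₂ = 0) :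
    dg P (cs Q ∪ cs Q₁ ∪ cs Q₂) = 0 := by
  rcases h with h | h | h
  · refine dg_zero (t := {xc Q₁, xc Q₂}) h3 (card_pair _ _) ?_
    rintro x ((hx | hx) | hx)
    · exact cs_alg (P := P) Q _ (Or.inl h) x hx
    · exact cs_alg (P := P) Q₁ _ (Or.inr (by simp)) x hx
    · exact cs_alg (P := P) Q₂ _ (Or.inr (by simp)) x hx
  · refine dg_zero (t := {xc Q, xc Q₂}) h3 (card_pair _ _) ?_
    rintro x ((hx | hx) | hx)
    · exact cs_alg (P := P) Q _ (Or.inr (by simp)) x hx
    · exact cs_alg (P := P) Q₁ _ (Or.inl h) x hx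
    · exact cs_alg (P := P) Q₂ _ (Or.inr (by simp)) x hx
  · refine dg_zero (t := {xc Q, xc Q₁}) h3 (card_pair _ _) ?_
    rintro x ((hx | hx) | hx)
    · exact cs_alg (P := P) Q _ (Or.inr (by simp)) x hx
    · exact cs_alg (P := P) Q₁ _ (Or.inr (by simp)) x hx
    · exact cs_alg (P := P) Q₂ _ (Or.inl h) x hx

/-- the set of coordinates of `p`, `± q`, `± r` -/
theorem dg3_one {R R' P M : Type} [CommRing R] [CommRing R'] [Field P] [Field M] [Algebra P M]
    [Algebra R P] [Algebra R M] [IsScalarTower R P M] [Algebra R' P] [Algebra R' M]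
    [IsScalarTower R' P M] {a b : R} {c d : R'}
    (p : Pt (SW a b) M) (q r : Pt (SW c d) M)
    (h : adjoin P (cs p ∪ cs q ∪ cs r) = ⊤) (Q : Pt (SW a b) M) (Q₁ Q₂ : Pt (SW c d) M)
    (h0 : Q = p) (h1 : (Q₁ = q ∨ Q₁ = -q) ∧ (Q₂ = r ∨ Q₂ = -r) ∨
      (Q₁ = r ∨ Q₁ = -r) ∧ (Q₂ = q ∨ Q₂ = -q)) :
    dg P (cs Q ∪ cs Q₁ ∪ cs Q₂) = 1 := by
  apply dg_one
  have e : ∀ (X Y : Pt (SW c d) M), (X = Y ∨ X = -Y) → adjoin P (cs X) = adjoin P (cs Y) := by
    rintro X Y (rfl | rfl)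
    · rfl
    · exact adjoin_cs_neg Y
  rw [adjoin_union, adjoin_union] at h ⊢
  rcases h1 with ⟨h1, h2⟩ | ⟨h1, h2⟩
  · rw [h0, e _ _ h1, e _ _ h2]; exact h
  · rw [h0, e _ _ h1, e _ _ h2, ← h, sup_assoc, sup_assoc,
      sup_comm (adjoin P (cs r)) (adjoin P (cs q))]

/-- Z0 -/
theorem Z0 (l : ℂ) : ∃ Z : SubVar l, 0 < V.Fp (fun a m m' => (Z.G a m m' : ℚ)) := by
  obtain ⟨M, iF, iA, p, q, r, -, -, -, -, hgen, htr⟩ := GEN3b l
  let Z : SubVar l :=
    { M := M
      z := ![p, 0, 0]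
      w := ![0, q, r]
      gen := by
        rw [eq_top_iff, ← hgen, adjoin_le_iff]
        rintro x ((hx | hx) | hx)
        · exact subset_adjoin _ _ (Or.inl (Set.mem_iUnion.2 ⟨0, hx⟩))
        · exact subset_adjoin _ _ (Or.inr (Set.mem_iUnion.2 ⟨1, hx⟩))
        · exact subset_adjoin _ _ (Or.inr (Set.mem_iUnion.2 ⟨2, hx⟩))
      dim3 := htr }
  have hz : ∀ a : Fin 3 → ℤ, comb a Z.z = a 0 • p := fun a => by
    show comb a ![p, 0, 0] = _
    simp [comb, Fin.sum_univ_three]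
  have hw : ∀ a : Fin 3 → ℤ, comb a Z.w = a 1 • q + a 2 • r := fun a => by
    show comb a ![0, q, r] = _
    simp [comb, Fin.sum_univ_three]
  have G0 : ∀ a m m' : Fin 3 → ℤ, (a 0 • p = 0 ∨ m 1 • q + m 2 • r = 0 ∨
      m' 1 • q + m' 2 • r = 0) → Z.G a m m' = 0 := fun a m m' h => by
    unfold SubVar.G
    rw [← hz a, ← hw m, ← hw m'] at h
    exact dg3_zero (P := ℂ) htr _ _ _ h
  have G1 : ∀ a m m' : Fin 3 → ℤ, a 0 • p = p →
      ((m 1 • q + m 2 • r = q ∨ m 1 • q + m 2 • r = -q) ∧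
        (m' 1 • q + m' 2 • r = r ∨ m' 1 • q + m' 2 • r = -r) ∨
      (m 1 • q + m 2 • r = r ∨ m 1 • q + m 2 • r = -r) ∧
        (m' 1 • q + m' 2 • r = q ∨ m' 1 • q + m' 2 • r = -q)) → Z.G a m m' = 1 :=
    fun a m m' h h' => by
    unfold SubVar.G
    rw [← hz a] at h
    rw [← hw m, ← hw m'] at h'
    exact dg3_one (P := ℂ) p q r hgen _ _ _ h h'
  refine ⟨Z, ?_⟩
  unfold V.Fp
  beta_reduce
  rw [G1 ![1, 0, 0] ![0, 1, 0] ![0, 0, 1] (by simp) (by simp),
    G0 ![0, 1, 0] ![0, 1, 0] ![0, 0, 1] (by simp),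
    G0 ![0, 0, 1] ![0, 1, 0] ![0, 0, 1] (by simp),
    G0 ![0, 1, 0] ![0, 0, 1] ![1, 0, 0] (by simp),
    G0 ![0, 0, 1] ![0, 0, 1] ![1, 0, 0] (by simp),
    G0 ![1, 0, 0] ![0, 0, 1] ![1, 0, 0] (by simp),
    G0 ![0, 0, 1] ![1, 0, 0] ![0, 1, 0] (by simp),
    G0 ![1, 0, 0] ![1, 0, 0] ![0, 1, 0] (by simp),
    G0 ![0, 1, 0] ![1, 0, 0] ![0, 1, 0] (by simp),
    G1 ![1, 1, 0] ![0, 0, 1] ![1, -1, 0] (by simp) (by simp),
    G1 ![1, -1, 0] ![0, 0, 1] ![1, -1, 0] (by simp) (by simp),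
    G1 ![1, 1, 0] ![0, 0, 1] ![-1, -1, 0] (by simp) (by simp),
    G1 ![1, -1, 0] ![0, 0, 1] ![-1, -1, 0] (by simp) (by simp),
    G1 ![1, 0, 1] ![1, 0, -1] ![0, 1, 0] (by simp) (by simp),
    G1 ![1, 0, -1] ![1, 0, -1] ![0, 1, 0] (by simp) (by simp),
    G1 ![1, 0, 1] ![-1, 0, -1] ![0, 1, 0] (by simp) (by simp),
    G1 ![1, 0, -1] ![-1, 0, -1] ![0, 1, 0] (by simp) (by simp),
    G0 ![0, 1, 1] ![1, 0, 0] ![0, 1, -1] (by simp),
    G0 ![0, 1, -1] ![1, 0, 0] ![0, 1, -1] (by simp),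
    G0 ![0, 1, 1] ![1, 0, 0] ![0, -1, -1] (by simp),
    G0 ![0, 1, -1] ![1, 0, 0] ![0, -1, -1] (by simp)]
  norm_num

end Pool.Agent.VM.Z0p
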